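import Pool.Agent.Lib.MP_f11a48_ag.U.Der
import Pool.Agent.Lib.MP_f11a48_ag.helper92.Pair
import Pool.Agent.Lib.MP_f11a48_ag.helper16.Data

/-!
# MP_f11a48_ag, project U: module SIM

The elements of the Lie algebra commute with the endomorphisms, are infinitesimal similitudes for
the polarisation, and some element has a non-zero multiplier.
-/

set_option autoImplicit false

open Matrix Pool.Agent.Lib.MPf11a48.CM Pool.Agent.Lib.MPf11a48.GL2T

namespace Pool.Agent.Lib.MPf11a48.U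

namespace SimM

variable {ι : Type} [Fintype ι] [DecidableEq ι]

/-- lift of an algebraic matrix -/
theorem exists_lift {μ ν : Type} {A : Matrix μ ν ℂ} (hA : IsAlg A) :
    ∃ A' : Matrix μ ν Qbar, A'.map (algebraMap Qbar ℂ) = A :=
  ⟨fun i j => ⟨A i j, hA i j⟩, rfl⟩

/-- the span of the line of one vector -/
theorem spanC_line {k : Type} [Field k] [Algebra k ℂ] {J : Type} (v : J → k) :
    spanC (Submodule.span k {v}) = Submodule.span ℂ {fun j => algebraMap k ℂ (v j)} := by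
  change spanL ℂ (Submodule.span k {v}) = _
  rw [spanL_span]
  congr 1
  ext w
  simp

theorem dact_vec {n m : ℕ} (X : Matrix ι ι ℂ) (a : ℂ) (v : TIdx ι n m → ℂ) :
    dact (shape n m) X (vec a v) = vec 0 (fun I => ∑ J, dtens n m X I J * v J) := by
  funext x
  match x with
  | ⟨0, I⟩ =>
    change ∑ J : TIdx ι 0 0, dtens 0 0 X I J * vec a v ⟨0, J⟩ = 0
    refine Finset.sum_eq_zero fun J _ => ?_
    simp [dtens]
  | ⟨1, I⟩ => rfl

/-- a matrix as an element of `T^{1,1}` -/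
def em {R : Type} (A : Matrix ι ι R) : TIdx ι 1 1 → R := fun J => A (J.1 0) (J.2 0)

/-- Elements of the Lie algebra commute with the endomorphisms. -/
theorem commute_end (c : GL ι ℂ) (X : Matrix ι ι ℂ) (hX : InH c X) (B : Matrix ι ι ℚ)
    (hB : B ∈ EndAlg c.1) : X * mC B = mC B * X := by
  obtain ⟨B₁, hB₁, hcB⟩ := hB
  obtain ⟨B', rfl⟩ := exists_lift hB₁
  have hfix : ∀ I : TIdx ι 1 1, ∑ J, tens 1 1 c.1 c⁻¹.1 I J * em (B'.map (algebraMap Qbar ℂ)) J =
      em (mC B) I := by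
    have h : Fixes c (GL2.endPair B' B) := by
      rw [GL2.fixes_endPair, hcB, Matrix.mul_assoc, DerM.mul_inv, Matrix.mul_one]
      ext i j
      simp
    exact h
  have hvdR : (fun j => algebraMap Qbar ℂ (vec (n := 1) (m := 1) 1 (em B') j)) =
      vec 1 (em (B'.map (algebraMap Qbar ℂ))) := by
    funext j
    match j with
    | ⟨0, _⟩ => exact _root_.map_one _
    | ⟨1, _⟩ => rfl
  have hvB : (fun j => algebraMap ℚ ℂ (vec (n := 1) (m := 1) 1 (em B) j)) = vec 1 (em (mC B)) := by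
    funext j
    match j with
    | ⟨0, _⟩ => exact _root_.map_one _
    | ⟨1, _⟩ => rfl
  have hsub : IsSub Qbar c (shape 1 1) (Submodule.span Qbar {vec 1 (em B')})
      (Submodule.span ℚ {vec 1 (em B)}) := by
    unfold IsSub
    rw [spanC_line, spanC_line, Submodule.map_span, Set.image_singleton, hvdR, hvB, act_vec]
    congr 2
    congr 1
    funext I
    exact hfix I
  have h := hX 2 (shape 1 1) _ _ hsub (vec 1 (em (mC B))) (by
    rw [spanC_line, hvB]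
    exact Submodule.mem_span_singleton_self _)
  rw [spanC_line, hvB, dact_vec] at h
  obtain ⟨a, ha⟩ := Submodule.mem_span_singleton.1 h
  have ha0 : a = 0 := by
    have h0 : a * 1 = 0 := congrFun ha ⟨0, (fun i => Fin.elim0 i, fun i => Fin.elim0 i)⟩
    rwa [mul_one] at h0
  refine Matrix.ext fun i j => ?_
  have h1 : a * em (mC B) (fun _ => i, fun _ => j) =
      ∑ J, dtens 1 1 X (fun _ => i, fun _ => j) J * em (mC B) J :=
    congrFun ha ⟨1, (fun _ => i, fun _ => j)⟩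
  rw [ha0, zero_mul, DerM.dtens_mulVec] at h1
  simp only [Fin.sum_univ_one] at h1
  have h2 : ∀ k, em (mC B) (Function.update (fun _ => i) 0 k, fun _ => j) = mC B k j := by
    intro k
    change mC B (Function.update (fun _ => i) (0 : Fin 1) k 0) j = _
    rw [Function.update_self]
  have h3 : ∀ k, em (mC B) (fun _ => i, Function.update (fun _ => j) 0 k) = mC B i k := by
    intro k
    change mC B i (Function.update (fun _ => j) (0 : Fin 1) k 0) = _
    rw [Function.update_self]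
  simp only [h2, h3] at h1
  rw [Matrix.mul_apply, Matrix.mul_apply, sub_eq_zero.1 h1.symm]
  exact Finset.sum_congr rfl fun k _ => mul_comm _ _

/-- the shape `T^{0,2}` -/
def sh : Fin 1 → ℕ × ℕ := fun _ => (0, 2)

/-- a bilinear form as an element of `T^{0,2}` -/
def bv {R : Type} (A : Matrix ι ι R) : TIdx ι 0 2 → R := fun I => A (I.2 0) (I.2 1)

/-- a bilinear form as a vector of the shape `sh` -/
def tv {R : Type} (A : Matrix ι ι R) : SIdx ι sh → R := fun x => bv A x.2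

theorem act_bv (g : GL ι ℂ) (A : Matrix ι ι ℂ) (I : TIdx ι 0 2) :
    ∑ J : TIdx ι 0 2, tens 0 2 g.1 g⁻¹.1 I J * bv A J = bv (g⁻¹.1ᵀ * A * g⁻¹.1) I := by
  change _ = (g⁻¹.1ᵀ * A * g⁻¹.1) (I.2 0) (I.2 1)
  rw [Fintype.sum_prod_type, GL2.mul_mul_apply]
  simp only [tens, Finset.univ_eq_empty, Finset.prod_empty, one_mul, Fin.prod_univ_two]
  rw [Fintype.sum_unique, GL2.sum_two]
  refine Finset.sum_congr rfl fun p _ => ?_
  simp only [Matrix.transpose_apply, Matrix.cons_val_zero, Matrix.cons_val_one, bv]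
  ring

theorem act_tv (g : GL ι ℂ) (A : Matrix ι ι ℂ) :
    act sh g.1 g⁻¹.1 (tv A) = tv (g⁻¹.1ᵀ * A * g⁻¹.1) := by
  funext x
  exact act_bv g A x.2

theorem dact_bv (X : Matrix ι ι ℂ) (A : Matrix ι ι ℂ) (I : TIdx ι 0 2) :
    ∑ J : TIdx ι 0 2, dtens 0 2 X I J * bv A J = bv (-(Xᵀ * A + A * X)) I := by
  change _ = (-(Xᵀ * A + A * X)) (I.2 0) (I.2 1)
  rw [DerM.dtens_mulVec X I (bv A)]
  simp only [Finset.univ_eq_empty, Finset.sum_empty, zero_sub, Fin.sum_univ_two]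
  rw [Matrix.neg_apply, Matrix.add_apply, Matrix.mul_apply, Matrix.mul_apply]
  have h1 : ∀ l, X l (I.2 0) * bv A (I.1, Function.update I.2 0 l) =
      Xᵀ (I.2 0) l * A l (I.2 1) := fun l => by
    change X l (I.2 0) * A (Function.update I.2 0 l 0) (Function.update I.2 0 l 1) = _
    rw [Function.update_self, Function.update_of_ne (by decide)]
    rfl
  have h2 : ∀ l, X l (I.2 1) * bv A (I.1, Function.update I.2 1 l) =
      A (I.2 0) l * X l (I.2 1) := fun l => by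
    change X l (I.2 1) * A (Function.update I.2 1 l 0) (Function.update I.2 1 l 1) = _
    rw [Function.update_self, Function.update_of_ne (by decide)]
    exact mul_comm _ _
  rw [Finset.sum_congr rfl fun l _ => h1 l, Finset.sum_congr rfl fun l _ => h2 l]

theorem dact_tv (X : Matrix ι ι ℂ) (A : Matrix ι ι ℂ) :
    dact sh X (tv A) = tv (-(Xᵀ * A + A * X)) := by
  funext x
  exact dact_bv X A x.2

/-- Elements of the Lie algebra are infinitesimal similitudes. -/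
theorem similitude (c : GL ι ℂ) (ψ : Matrix ι ι ℚ) (ψdR : Matrix ι ι ℂ) (hψ : IsAlg ψdR)
    (hleg : c.1ᵀ * mC ψ * c.1 = (2 * Real.pi * Complex.I) • ψdR) (X : Matrix ι ι ℂ)
    (hX : InH c X) : ∃ m : ℂ, Xᵀ * mC ψ + mC ψ * X = m • mC ψ := by
  obtain ⟨ψ', rfl⟩ := exists_lift hψ
  have hne : (2 * Real.pi * Complex.I : ℂ) ≠ 0 := by simp [Real.pi_ne_zero]
  have h1 : c⁻¹.1ᵀ * ψ'.map (algebraMap Qbar ℂ) * c⁻¹.1 = (2 * Real.pi * Complex.I : ℂ)⁻¹ • mC ψ := by
    have h2 : ψ'.map (algebraMap Qbar ℂ) = (2 * Real.pi * Complex.I : ℂ)⁻¹ •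
        (c.1ᵀ * mC ψ * c.1) := by rw [hleg, smul_smul, inv_mul_cancel₀ hne, one_smul]
    rw [h2, Matrix.mul_smul, Matrix.smul_mul]
    congr 1
    have h3 : c⁻¹.1ᵀ * c.1ᵀ = 1 := by rw [← Matrix.transpose_mul, DerM.mul_inv, Matrix.transpose_one]
    calc c⁻¹.1ᵀ * (c.1ᵀ * mC ψ * c.1) * c⁻¹.1 = (c⁻¹.1ᵀ * c.1ᵀ) * mC ψ * (c.1 * c⁻¹.1) := by
          simp only [Matrix.mul_assoc]
      _ = mC ψ := by rw [h3, DerM.mul_inv, Matrix.one_mul, Matrix.mul_one]
  have hvdR : (fun j => algebraMap Qbar ℂ (tv ψ' j)) = tv (ψ'.map (algebraMap Qbar ℂ)) := rfl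
  have hvB : (fun j => algebraMap ℚ ℂ (tv ψ j)) = tv (mC ψ) := by
    funext j
    simp [tv, bv]
  have hsub : IsSub Qbar c sh (Submodule.span Qbar {tv ψ'}) (Submodule.span ℚ {tv ψ}) := by
    unfold IsSub
    rw [spanC_line, spanC_line, Submodule.map_span, Set.image_singleton, hvdR, hvB, act_tv, h1]
    have h4 : tv ((2 * Real.pi * Complex.I : ℂ)⁻¹ • mC ψ) =
        (2 * Real.pi * Complex.I : ℂ)⁻¹ • tv (mC ψ) := rfl
    rw [h4]
    exact Submodule.span_singleton_smul_eq (isUnit_iff_ne_zero.2 (inv_ne_zero hne)) _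
  have h := hX 1 sh _ _ hsub (tv (mC ψ)) (by
    rw [spanC_line, hvB]
    exact Submodule.mem_span_singleton_self _)
  rw [spanC_line, hvB, dact_tv] at h
  obtain ⟨a, ha⟩ := Submodule.mem_span_singleton.1 h
  refine ⟨-a, ?_⟩
  refine Matrix.ext fun i j => ?_
  have h5 : a * mC ψ i j = (-(Xᵀ * mC ψ + mC ψ * X)) i j := by
    have h6 : a * bv (mC ψ) (fun i => Fin.elim0 i, ![i, j]) =
        bv (-(Xᵀ * mC ψ + mC ψ * X)) (fun i => Fin.elim0 i, ![i, j]) :=
      congrFun ha ⟨0, (fun i => Fin.elim0 i, ![i, j])⟩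
    exact h6
  rw [Matrix.smul_apply, smul_eq_mul, neg_mul, h5, Matrix.neg_apply, neg_neg]

/-- The multiplier of a logarithmic derivative of the period matrix. -/
theorem log_deriv (c : GL ι ℂ) (ψ : Matrix ι ι ℚ) (ψdR : Matrix ι ι ℂ) (hψ : IsAlg ψdR)
    (hleg : c.1ᵀ * mC ψ * c.1 = (2 * Real.pi * Complex.I) • ψdR) (δ : Derivation Qbar ℂ ℂ) :
    (c.1.map δ * c⁻¹.1)ᵀ * mC ψ + mC ψ * (c.1.map δ * c⁻¹.1) =
      (δ (2 * Real.pi * Complex.I) / (2 * Real.pi * Complex.I)) • mC ψ := by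
  have hne : (2 * Real.pi * Complex.I : ℂ) ≠ 0 := by simp [Real.pi_ne_zero]
  have h0 : (mC ψ).map δ = 0 := by
    ext i j
    exact DerM.d_rat δ (ψ i j)
  have h1 : (c.1ᵀ * mC ψ * c.1).map δ = (c.1.map δ)ᵀ * mC ψ * c.1 + c.1ᵀ * mC ψ * c.1.map δ := by
    rw [DerM.map_mul, DerM.map_mul, h0, Matrix.mul_zero, add_zero]
    rfl
  have h2 : ((2 * Real.pi * Complex.I : ℂ) • ψdR).map δ =
      δ (2 * Real.pi * Complex.I) • ψdR := by
    ext i j
    simp only [Matrix.map_apply, Matrix.smul_apply, smul_eq_mul, Derivation.leibniz,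
      DerM.d_zero_of_mem δ (hψ i j)]
    ring
  rw [hleg, h2] at h1
  have h3 : c⁻¹.1ᵀ * c.1ᵀ = 1 := by rw [← Matrix.transpose_mul, DerM.mul_inv, Matrix.transpose_one]
  have h4 : ψdR = (2 * Real.pi * Complex.I : ℂ)⁻¹ • (c.1ᵀ * mC ψ * c.1) := by
    rw [hleg, smul_smul, inv_mul_cancel₀ hne, one_smul]
  have h5 : c⁻¹.1ᵀ * (δ (2 * Real.pi * Complex.I) • ψdR) * c⁻¹.1 =
      (δ (2 * Real.pi * Complex.I) / (2 * Real.pi * Complex.I)) • mC ψ := by
    rw [h4, smul_smul, Matrix.mul_smul, Matrix.smul_mul, div_eq_mul_inv]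
    congr 1
    calc c⁻¹.1ᵀ * (c.1ᵀ * mC ψ * c.1) * c⁻¹.1 = (c⁻¹.1ᵀ * c.1ᵀ) * mC ψ * (c.1 * c⁻¹.1) := by
          simp only [Matrix.mul_assoc]
      _ = mC ψ := by rw [h3, DerM.mul_inv, Matrix.one_mul, Matrix.mul_one]
  rw [← h5, h1, Matrix.mul_add, Matrix.add_mul, Matrix.transpose_mul]
  congr 1
  · calc c⁻¹.1ᵀ * (c.1.map δ)ᵀ * mC ψ = c⁻¹.1ᵀ * (c.1.map δ)ᵀ * mC ψ * (c.1 * c⁻¹.1) := by
          rw [DerM.mul_inv, Matrix.mul_one]
      _ = c⁻¹.1ᵀ * ((c.1.map δ)ᵀ * mC ψ * c.1) * c⁻¹.1 := by simp only [Matrix.mul_assoc]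
  · calc mC ψ * (c.1.map δ * c⁻¹.1) = (c⁻¹.1ᵀ * c.1ᵀ) * (mC ψ * (c.1.map δ * c⁻¹.1)) := by
          rw [h3, Matrix.one_mul]
      _ = c⁻¹.1ᵀ * (c.1ᵀ * mC ψ * c.1.map δ) * c⁻¹.1 := by simp only [Matrix.mul_assoc]

theorem two_pi_I_notMem : (2 * Real.pi * Complex.I : ℂ) ∉ Qbar := fun h => by
  have h1 := two_pi_I_zpow (n := 1) (by rw [zpow_one]; exact h)
  exact one_ne_zero h1

end SimM

theorem specSIM : SpecSIM := by
  intro ι _ _ c J ψ hd
  obtain ⟨ψdR, hψ, hleg⟩ := hd.leg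
  refine ⟨fun X hX B hB => SimM.commute_end c X hX B hB,
    fun X hX => SimM.similitude c ψ ψdR hψ hleg X hX, ?_⟩
  obtain ⟨δ, hδ⟩ := GL2.exists_derivation SimM.two_pi_I_notMem
  refine ⟨c.1.map δ * c⁻¹.1, (specDER c).1 δ, _, div_ne_zero hδ ?_,
    SimM.log_deriv c ψ ψdR hψ hleg δ⟩
  simp [Real.pi_ne_zero]

end Pool.Agent.Lib.MPf11a48.U
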