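import Pool.Agent.Lib.MP_f11a48_ag.U.Spec

/-!
# Module JAC: the Jacobian criterion
-/

set_option autoImplicit false

open MvPolynomial Pool.Agent.Lib.MPf11a48.CM Filter Topology

namespace Pool.Agent.Lib.MPf11a48.U

namespace JacM

/-- A polynomial which vanishes near a point vanishes. -/
theorem eq_zero_of_eventually {n : ℕ} (P : MvPolynomial (Fin n) ℂ) (y₀ : Fin n → ℂ)
    (h : ∀ᶠ y in 𝓝 y₀, aeval y P = 0) : P = 0 := by
  obtain ⟨ε, hε, hball⟩ := Metric.eventually_nhds_iff_ball.1 h
  refine funext_set (fun i => Metric.ball (y₀ i) ε) (fun i => ?_) fun x hx => ?_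
  · exact infinite_of_mem_nhds (y₀ i) (Metric.ball_mem_nhds _ hε)
  · rw [map_zero]
    have h1 : x ∈ Metric.ball y₀ ε := by
      rw [Metric.mem_ball, dist_pi_lt_iff hε]
      exact fun i => hx i (Set.mem_univ i)
    have h2 := hball x h1
    rwa [← coe_aeval_eq_eval]

end JacM

theorem specJAC : SpecJAC := by
  intro Z _ X n g hg hb P hP
  set F : X → (Fin n → ℂ) := fun x k => g k (x : Z → ℂ) with hF
  set F' : X →L[ℂ] (Fin n → ℂ) :=
    ContinuousLinearMap.pi fun k => (fderiv ℂ (g k) 0).comp X.subtypeL with hF'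
  have hstrict : HasStrictFDerivAt F F' 0 := by
    rw [hF', hasStrictFDerivAt_pi]
    intro k
    have h1 : HasStrictFDerivAt (g k) (fderiv ℂ (g k) 0) (X.subtypeL (0 : X)) := by
      rw [map_zero]
      exact (hg k).hasStrictFDerivAt
    exact h1.comp (0 : X) X.subtypeL.hasStrictFDerivAt
  have hsurj : F'.range = ⊤ := by
    by_contra hne
    obtain ⟨φ, hφ, hle⟩ := Submodule.exists_le_ker_of_lt_top _ (lt_top_iff_ne_top.2 hne)
    refine hφ ?_
    have h1 : ∀ y : Fin n → ℂ, φ y = ∑ k, y k * φ (Pi.single k 1) := by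
      intro y
      conv_lhs => rw [pi_eq_sum_univ' y]
      rw [map_sum]
      refine Finset.sum_congr rfl fun k _ => ?_
      rw [map_smul, smul_eq_mul]
    have h2 := hb (fun k => φ (Pi.single k 1)) fun v hv => by
      have h3 : φ (F' ⟨v, hv⟩) = 0 := hle ⟨⟨v, hv⟩, rfl⟩
      rw [h1] at h3
      rw [← h3]
      refine Finset.sum_congr rfl fun k _ => ?_
      rw [mul_comm]
      rfl
    refine LinearMap.ext fun y => ?_
    rw [h1]
    simp only [LinearMap.zero_apply]
    refine Finset.sum_eq_zero fun k _ => ?_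
    rw [show φ (Pi.single k 1) = 0 from congrFun h2 k, mul_zero]
  have hmap := hstrict.map_nhds_eq_of_surj hsurj
  refine JacM.eq_zero_of_eventually P (F 0) ?_
  rw [← hmap, eventually_map]
  have h1 : Tendsto (fun x : X => (x : Z → ℂ)) (𝓝 0) (𝓝 0) := by
    have := (continuous_subtype_val (p := fun x => x ∈ X)).tendsto (0 : X)
    simpa using this
  filter_upwards [h1.eventually hP] with x hx
  exact hx x.2

end Pool.Agent.Lib.MPf11a48.U
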