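import Pool.Agent.Lib.MP_f11a48_ag.U.SpecTl

/-!
# Project U, module SIZE

`len N P` is the sum of the sizes of the coefficients of `P`, for a submultiplicative size `N`.
-/

set_option autoImplicit false

open MvPolynomial Pool.Agent.Lib.MPf11a48.CM NumberField

namespace Pool.Agent.Lib.MPf11a48.U

namespace SizeM

variable {R : Type} [CommRing R]

/-- A submultiplicative size. -/
structure IsSize (N : R → ℝ) : Prop where
  zero : N 0 = 0
  nonneg : ∀ a, 0 ≤ N a
  add : ∀ a b, N (a + b) ≤ N a + N b
  mul : ∀ a b, N (a * b) ≤ N a * N b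
  nat : ∀ n : ℕ, N (n : R) ≤ n

variable {N : R → ℝ} {I : Type}

theorem IsSize.sum (hN : IsSize N) {ι : Type} (s : Finset ι) (f : ι → R) :
    N (∑ i ∈ s, f i) ≤ ∑ i ∈ s, N (f i) := by
  classical
  induction s using Finset.induction_on with
  | empty => simp [hN.zero]
  | insert a s ha ih =>
    rw [Finset.sum_insert ha, Finset.sum_insert ha]
    exact (hN.add _ _).trans (add_le_add le_rfl ih)

/-- Sum of the sizes of the coefficients. -/
noncomputable def len (N : R → ℝ) (P : MvPolynomial I R) : ℝ := ∑ m ∈ P.support, N (P.coeff m)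

theorem len_nonneg (hN : IsSize N) (P : MvPolynomial I R) : 0 ≤ len N P :=
  Finset.sum_nonneg fun _ _ => hN.nonneg _

theorem len_eq (hN : IsSize N) (P : MvPolynomial I R) (s : Finset (I →₀ ℕ))
    (hs : P.support ⊆ s) : len N P = ∑ m ∈ s, N (P.coeff m) := by
  refine Finset.sum_subset hs fun m _ hm => ?_
  rw [notMem_support_iff.1 hm, hN.zero]

theorem len_zero (N : R → ℝ) : len N (0 : MvPolynomial I R) = 0 := by simp [len]

theorem len_add (hN : IsSize N) (P Q : MvPolynomial I R) : len N (P + Q) ≤ len N P + len N Q := by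
  classical
  rw [len_eq hN (P + Q) (P.support ∪ Q.support) support_add,
    len_eq hN P (P.support ∪ Q.support) Finset.subset_union_left,
    len_eq hN Q (P.support ∪ Q.support) Finset.subset_union_right, ← Finset.sum_add_distrib]
  exact Finset.sum_le_sum fun m _ => by rw [coeff_add]; exact hN.add _ _

theorem len_sum (hN : IsSize N) {ι : Type} (s : Finset ι) (f : ι → MvPolynomial I R) :
    len N (∑ i ∈ s, f i) ≤ ∑ i ∈ s, len N (f i) := by
  classical
  induction s using Finset.induction_on with
  | empty => simp [len_zero]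
  | insert a s ha ih =>
    rw [Finset.sum_insert ha, Finset.sum_insert ha]
    exact (len_add hN _ _).trans (add_le_add le_rfl ih)

theorem len_monomial_le (hN : IsSize N) (m : I →₀ ℕ) (c : R) : len N (monomial m c) ≤ N c := by
  classical
  rw [len_eq hN _ {m} support_monomial_subset, Finset.sum_singleton, coeff_monomial, if_pos rfl]

theorem len_monomial_mul_le (hN : IsSize N) (m : I →₀ ℕ) (c : R) (Q : MvPolynomial I R) :
    len N (monomial m c * Q) ≤ N c * len N Q := by
  classical
  have h : monomial m c * Q = ∑ k ∈ Q.support, monomial (m + k) (c * Q.coeff k) := by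
    conv_lhs => rw [Q.as_sum]
    rw [Finset.mul_sum]
    exact Finset.sum_congr rfl fun k _ => by rw [monomial_mul]
  rw [h]
  refine (len_sum hN _ _).trans ?_
  unfold len
  rw [Finset.mul_sum]
  exact Finset.sum_le_sum fun k _ => (len_monomial_le hN _ _).trans (hN.mul _ _)

theorem len_mul_le (hN : IsSize N) (P Q : MvPolynomial I R) :
    len N (P * Q) ≤ len N P * len N Q := by
  classical
  have h : P * Q = ∑ m ∈ P.support, monomial m (P.coeff m) * Q := by
    conv_lhs => rw [P.as_sum]
    rw [Finset.sum_mul]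
  rw [h]
  refine (len_sum hN _ _).trans ?_
  conv_rhs => rw [len]
  rw [Finset.sum_mul]
  exact Finset.sum_le_sum fun m _ => len_monomial_mul_le hN _ _ _

/-- Derivations. -/
theorem len_der (hN : IsSize N) (f : I → MvPolynomial I R) {B : ℝ} (hB : 0 ≤ B)
    (hf : ∀ i, len N (f i) ≤ B) (P : MvPolynomial I R) {D : ℕ} (hD : P.totalDegree ≤ D) :
    len N (mkDerivation R f P) ≤ D * B * len N P := by
  classical
  have h : mkDerivation R f P = ∑ m ∈ P.support, ∑ i ∈ m.support,
      monomial (m - Finsupp.single i 1) (P.coeff m * (m i : R)) * f i := by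
    conv_lhs => rw [P.as_sum]
    rw [map_sum]
    refine Finset.sum_congr rfl fun m _ => ?_
    rw [mkDerivation_monomial, Finsupp.sum, Finset.smul_sum]
    refine Finset.sum_congr rfl fun i _ => ?_
    rw [smul_eq_mul, ← smul_mul_assoc, smul_monomial, smul_eq_mul]
  rw [h]
  refine (len_sum hN _ _).trans ?_
  conv_rhs => rw [len]
  rw [Finset.mul_sum]
  refine Finset.sum_le_sum fun m hm => ?_
  refine (len_sum hN _ _).trans ?_
  have hdeg : ∑ i ∈ m.support, m i ≤ D := (le_totalDegree hm).trans hD
  calc ∑ i ∈ m.support, len N (monomial (m - Finsupp.single i 1) (P.coeff m * (m i : R)) * f i)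
      ≤ ∑ i ∈ m.support, N (P.coeff m) * (m i : ℝ) * B := by
        refine Finset.sum_le_sum fun i _ => ?_
        refine (len_monomial_mul_le hN _ _ _).trans ?_
        refine mul_le_mul ?_ (hf i) (len_nonneg hN _)
          (mul_nonneg (hN.nonneg _) (Nat.cast_nonneg _))
        exact (hN.mul _ _).trans (mul_le_mul_of_nonneg_left (hN.nat _) (hN.nonneg _))
    _ = (∑ i ∈ m.support, (m i : ℝ)) * B * N (P.coeff m) := by
        rw [Finset.sum_mul, Finset.sum_mul]
        exact Finset.sum_congr rfl fun i _ => by ring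
    _ ≤ D * B * N (P.coeff m) := by
        have h1 : (∑ i ∈ m.support, (m i : ℝ)) ≤ D := by exact_mod_cast hdeg
        exact mul_le_mul_of_nonneg_right (mul_le_mul_of_nonneg_right h1 hB) (hN.nonneg _)

theorem deg_der (f : I → MvPolynomial I R) {d : ℕ} (hf : ∀ i, (f i).totalDegree ≤ d)
    (P : MvPolynomial I R) {D : ℕ} (hD : P.totalDegree ≤ D) :
    (mkDerivation R f P).totalDegree ≤ D + d := by
  classical
  have h : mkDerivation R f P = ∑ m ∈ P.support, ∑ i ∈ m.support,
      monomial (m - Finsupp.single i 1) (P.coeff m * (m i : R)) * f i := by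
    conv_lhs => rw [P.as_sum]
    rw [map_sum]
    refine Finset.sum_congr rfl fun m _ => ?_
    rw [mkDerivation_monomial, Finsupp.sum, Finset.smul_sum]
    refine Finset.sum_congr rfl fun i _ => ?_
    rw [smul_eq_mul, ← smul_mul_assoc, smul_monomial, smul_eq_mul]
  rw [h]
  refine totalDegree_finsetSum_le fun m hm => totalDegree_finsetSum_le fun i _ => ?_
  refine (totalDegree_mul _ _).trans (add_le_add ?_ (hf i))
  refine (totalDegree_monomial_le _ _).trans ?_
  refine le_trans ?_ ((le_totalDegree hm).trans hD)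
  have hle : m - Finsupp.single i 1 ≤ m := tsub_le_self
  have := Finsupp.degree_mono hle
  simpa [Finsupp.degree, Finsupp.sum] using this

theorem size_aeval (hN : IsSize N) (x : I → R) {X : ℝ} (hX : 1 ≤ X) (hx : ∀ i, N (x i) ≤ X)
    (P : MvPolynomial I R) {D : ℕ} (hD : P.totalDegree ≤ D) :
    N (aeval x P) ≤ len N P * X ^ D := by
  classical
  have h1 : N (1 : R) ≤ 1 := by simpa using hN.nat 1
  have hpow : ∀ (a : R) (n : ℕ), N a ≤ X → N (a ^ n) ≤ X ^ n := by
    intro a n ha
    induction n with
    | zero => simpa using h1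
    | succ n ih =>
      rw [pow_succ, pow_succ]
      exact (hN.mul _ _).trans (mul_le_mul ih ha (hN.nonneg _) (by positivity))
  have hprod : ∀ (s : Finset I) (m : I → ℕ), N (∏ i ∈ s, x i ^ m i) ≤ X ^ (∑ i ∈ s, m i) := by
    intro s m
    induction s using Finset.induction_on with
    | empty => simpa using h1
    | insert a s ha ih =>
      rw [Finset.prod_insert ha, Finset.sum_insert ha, pow_add]
      exact (hN.mul _ _).trans (mul_le_mul (hpow _ _ (hx a)) ih (hN.nonneg _) (by positivity))
  rw [aeval_def, eval₂_eq]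
  refine (hN.sum _ _).trans ?_
  rw [len, Finset.sum_mul]
  refine Finset.sum_le_sum fun m hm => ?_
  refine (hN.mul _ _).trans (mul_le_mul_of_nonneg_left ?_ (hN.nonneg _))
  exact (hprod m.support m).trans (pow_le_pow_right₀ hX ((le_totalDegree hm).trans hD))

/-- Iterated derivations. -/
theorem dW_bound (hN : IsSize N) {ρ : Type} (p : I → ρ → MvPolynomial I R) {B : ℝ} (hB : 0 ≤ B)
    {d : ℕ} (hp : ∀ i j, len N (p i j) ≤ B) (hd : ∀ i j, (p i j).totalDegree ≤ d)
    (P : MvPolynomial I R) {D : ℕ} (hD : P.totalDegree ≤ D) (w : List ρ) {n : ℕ}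
    (hn : w.length ≤ n) :
    (dW p w P).totalDegree ≤ D + w.length * d ∧
      len N (dW p w P) ≤ len N P * (B * (d + 1) * ((D + n : ℕ) : ℝ)) ^ w.length := by
  induction w with
  | nil => exact ⟨by simpa [dW] using hD, by simp [dW]⟩
  | cons j w ih =>
    have hn' : w.length ≤ n := (Nat.le_succ _).trans hn
    obtain ⟨h1, h2⟩ := ih hn'
    refine ⟨?_, ?_⟩
    · refine (deg_der (fun i => p i j) (fun i => hd i j) (dW p w P) h1).trans ?_
      rw [List.length_cons]; exact le_of_eq (by ring)
    · show len N (mkDerivation R (fun i => p i j) (dW p w P)) ≤ _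
      refine (len_der hN (fun i => p i j) hB (fun i => hp i j) (dW p w P) h1).trans ?_
      have hK : ((D + w.length * d : ℕ) : ℝ) * B ≤ B * (d + 1) * ((D + n : ℕ) : ℝ) := by
        have h3 : D + w.length * d ≤ (d + 1) * (D + n) := by
          have : w.length * d ≤ n * d := Nat.mul_le_mul_right _ hn'
          nlinarith [Nat.zero_le (d * D), Nat.zero_le n]
        have h4 : ((D + w.length * d : ℕ) : ℝ) ≤ ((d + 1 : ℕ) : ℝ) * ((D + n : ℕ) : ℝ) := by
          exact_mod_cast h3
        calc ((D + w.length * d : ℕ) : ℝ) * B ≤ (((d + 1 : ℕ) : ℝ) * ((D + n : ℕ) : ℝ)) * B :=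
              mul_le_mul_of_nonneg_right h4 hB
          _ = _ := by push_cast; ring
      have hK0 : 0 ≤ B * (d + 1) * ((D + n : ℕ) : ℝ) := by positivity
      rw [List.length_cons, pow_succ]
      calc ((D + w.length * d : ℕ) : ℝ) * B * len N (dW p w P)
          ≤ (B * (d + 1) * ((D + n : ℕ) : ℝ)) *
            (len N P * (B * (d + 1) * ((D + n : ℕ) : ℝ)) ^ w.length) :=
            mul_le_mul hK h2 (len_nonneg hN _) hK0
        _ = _ := by ring

theorem isSize_house (K : Type) [Field K] [NumberField K] :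
    IsSize (fun a : 𝓞 K => house (algebraMap (𝓞 K) K a)) where
  zero := by
    have := house_intCast (K := K) 0
    simpa using this
  nonneg a := house_nonneg _
  add a b := by rw [map_add]; exact house_add_le _ _
  mul a b := by rw [map_mul]; exact house_mul_le _ _
  nat n := by
    have := house_intCast (K := K) n
    rw [map_natCast]
    simpa using this.le

end SizeM

open SizeM

/-- Module SIZE. -/
theorem specSIZE : SpecSIZE := by
  intro r I _ K _ _ x p
  classical
  set N : 𝓞 K → ℝ := fun a => house (algebraMap (𝓞 K) K a) with hNdef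
  have hN : IsSize N := isSize_house K
  obtain ⟨B, hB1, hB⟩ : ∃ B : ℝ, 1 ≤ B ∧ ∀ i j, len N (p i j) ≤ B := by
    refine ⟨1 + ∑ i, ∑ j, len N (p i j), ?_, fun i j => ?_⟩
    · have : 0 ≤ ∑ i, ∑ j, len N (p i j) :=
        Finset.sum_nonneg fun i _ => Finset.sum_nonneg fun j _ => len_nonneg hN _
      linarith
    · have h1 : len N (p i j) ≤ ∑ j, len N (p i j) :=
        Finset.single_le_sum (f := fun j => len N (p i j)) (fun j _ => len_nonneg hN _)
          (Finset.mem_univ j)
      have h2 : ∑ j, len N (p i j) ≤ ∑ i, ∑ j, len N (p i j) :=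
        Finset.single_le_sum (f := fun i => ∑ j, len N (p i j))
          (fun i _ => Finset.sum_nonneg fun j _ => len_nonneg hN _) (Finset.mem_univ i)
      linarith
  obtain ⟨d, hd⟩ : ∃ d : ℕ, ∀ i j, (p i j).totalDegree ≤ d := by
    refine ⟨∑ i, ∑ j, (p i j).totalDegree, fun i j => ?_⟩
    have h1 : (p i j).totalDegree ≤ ∑ j, (p i j).totalDegree :=
      Finset.single_le_sum (f := fun j => (p i j).totalDegree) (fun j _ => Nat.zero_le _)
        (Finset.mem_univ j)
    have h2 : ∑ j, (p i j).totalDegree ≤ ∑ i, ∑ j, (p i j).totalDegree :=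
      Finset.single_le_sum (f := fun i => ∑ j, (p i j).totalDegree)
        (fun i _ => Nat.zero_le _) (Finset.mem_univ i)
    exact h1.trans h2
  obtain ⟨X, hX1, hX⟩ : ∃ X : ℝ, 1 ≤ X ∧ ∀ i, N (x i) ≤ X := by
    refine ⟨1 + ∑ i, N (x i), ?_, fun i => ?_⟩
    · have : 0 ≤ ∑ i, N (x i) := Finset.sum_nonneg fun i _ => hN.nonneg _
      linarith
    · have h1 : N (x i) ≤ ∑ i, N (x i) :=
        Finset.single_le_sum (f := fun i => N (x i)) (fun i _ => hN.nonneg _) (Finset.mem_univ i)
      linarith
  have hBd : 1 ≤ B * (d + 1) := by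
    have : (0 : ℝ) ≤ d := Nat.cast_nonneg d
    nlinarith
  refine ⟨B * (d + 1) * X ^ (d + 1), ?_, ?_⟩
  · exact one_le_mul_of_one_le_of_one_le hBd (one_le_pow₀ hX1)
  · intro D H P w hD hH
    obtain ⟨h1, h2⟩ := dW_bound hN p (by linarith : (0 : ℝ) ≤ B) hB hd P hD w le_rfl
    have h3 := size_aeval hN x hX1 hX (dW p w P) h1
    have hlen : len N P ≤ H := hH
    have hH0 : 0 ≤ H := (len_nonneg hN P).trans hlen
    refine h3.trans ?_
    have hX0 : (0 : ℝ) ≤ X ^ (D + w.length * d) := by positivity
    have hK0 : 0 ≤ B * (d + 1) * ((D + w.length : ℕ) : ℝ) := by positivity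
    calc len N (dW p w P) * X ^ (D + w.length * d)
        ≤ (H * (B * (d + 1) * ((D + w.length : ℕ) : ℝ)) ^ w.length) * X ^ (D + w.length * d) := by
          refine mul_le_mul_of_nonneg_right (h2.trans ?_) hX0
          exact mul_le_mul_of_nonneg_right hlen (pow_nonneg hK0 _)
      _ = H * ((B * (d + 1)) ^ w.length * X ^ (D + w.length * d)) *
            ((D + w.length : ℕ) : ℝ) ^ w.length := by rw [mul_pow]; ring
      _ ≤ H * ((B * (d + 1)) ^ (D + w.length) * X ^ ((d + 1) * (D + w.length))) *
            ((D + w.length : ℕ) : ℝ) ^ w.length := by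
          refine mul_le_mul_of_nonneg_right (mul_le_mul_of_nonneg_left ?_ hH0) (by positivity)
          refine mul_le_mul ?_ ?_ hX0 (by positivity)
          · exact pow_le_pow_right₀ hBd (Nat.le_add_left _ _)
          · refine pow_le_pow_right₀ hX1 ?_
            nlinarith [Nat.zero_le (d * D), Nat.zero_le w.length]
      _ = _ := by rw [mul_pow (B * (↑d + 1)), ← pow_mul X]

end Pool.Agent.Lib.MPf11a48.U
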