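import Mathlib

/-!
Osgood's theorem: a function on a finite dimensional complex space which is complex differentiable
near a point is analytic at this point. For project U of MP_f11a48_ag.
-/

set_option autoImplicit false

open Complex Filter Topology Metric

namespace Pool.Agent.Lib.MPf11a48.U.Osgood

universe u v

section

variable {E : Type v} {F : Type u} [NormedAddCommGroup E] [NormedSpace ℂ E]
  [NormedAddCommGroup F] [NormedSpace ℂ F]

/-- Complex differentiable near `z`. -/
def Hol (f : E → F) (z : E) : Prop := ∀ᶠ x in 𝓝 z, DifferentiableAt ℂ f x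

theorem Hol.ev {f : E → F} {z : E} (h : Hol f z) : ∀ᶠ x in 𝓝 z, Hol f x :=
  eventually_eventually_nhds.2 h

theorem Hol.diffAt {f : E → F} {z : E} (h : Hol f z) : DifferentiableAt ℂ f z := h.self_of_nhds

theorem Hol.comp {E' : Type*} [NormedAddCommGroup E'] [NormedSpace ℂ E'] {f : E → F} {φ : E' → E}
    {z : E'} (hf : Hol f (φ z)) (hφ : Hol φ z) : Hol (fun x => f (φ x)) z := by
  have h1 : ∀ᶠ x in 𝓝 z, DifferentiableAt ℂ f (φ x) := hφ.diffAt.continuousAt.eventually hf
  filter_upwards [h1, hφ] with x hx hx'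
  exact hx.comp x hx'

theorem Hol.of_differentiable {f : E → F} (h : Differentiable ℂ f) (z : E) : Hol f z :=
  Eventually.of_forall fun x => h x

/-- Cauchy estimate, continuity of a directional derivative. -/
theorem continuousAt_fderiv_apply [CompleteSpace F] {f : E → F} {z : E} (v : E) (hf : Hol f z) :
    ContinuousAt (fun x => fderiv ℂ f x v) z := by
  -- a radius
  obtain ⟨s, hs, hrad⟩ : ∃ s : ℝ, 0 < s ∧
      ∀ᶠ x in 𝓝 z, ∀ t ∈ closedBall (0 : ℂ) s, DifferentiableAt ℂ f (x + t • v) := by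
    have h1 : ContinuousAt (fun y : E × ℂ => y.1 + y.2 • v) (z, 0) := by fun_prop
    have h2 : ∀ᶠ y : E × ℂ in 𝓝 (z, 0), DifferentiableAt ℂ f (y.1 + y.2 • v) := by
      refine h1.eventually (p := fun x => DifferentiableAt ℂ f x) ?_
      simp only [zero_smul, add_zero]
      exact hf
    rw [nhds_prod_eq, eventually_prod_iff] at h2
    obtain ⟨pa, hpa, pb, hpb, h⟩ := h2
    obtain ⟨ε, hε, hb⟩ := Metric.eventually_nhds_iff_ball.1 hpb
    refine ⟨ε / 2, by positivity, ?_⟩
    filter_upwards [hpa] with x hx t ht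
    exact h hx (hb t (closedBall_subset_ball (by linarith) ht))
  have hz := hrad.self_of_nhds
  have hder : ∀ x, (∀ t ∈ closedBall (0 : ℂ) s, DifferentiableAt ℂ f (x + t • v)) →
      ∀ t ∈ closedBall (0 : ℂ) s,
        HasDerivAt (fun t : ℂ => f (x + t • v)) (fderiv ℂ f (x + t • v) v) t := by
    intro x hx t ht
    have h4 : HasDerivAt (fun t : ℂ => x + t • v) v t := by
      have := ((hasDerivAt_id t).smul_const v).const_add x
      simpa using this
    exact (hx t ht).hasFDerivAt.comp_hasDerivAt t h4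
  rw [ContinuousAt, Metric.tendsto_nhds]
  intro ε hε
  have hunif : ∀ᶠ x in 𝓝 z, ∀ t ∈ sphere (0 : ℂ) s,
      ‖f (x + t • v) - f (z + t • v)‖ ≤ ε / 2 * s := by
    refine (isCompact_sphere (0 : ℂ) s).eventually_forall_of_forall_eventually
      (P := fun x t => ‖f (x + t • v) - f (z + t • v)‖ ≤ ε / 2 * s) fun t ht => ?_
    have hc : ContinuousAt f (z + t • v) :=
      (hz t (sphere_subset_closedBall ht)).continuousAt
    have h1 : ContinuousAt (fun y : E × ℂ => f (y.1 + y.2 • v)) (z, t) := by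
      have h2 : ContinuousAt (fun y : E × ℂ => y.1 + y.2 • v) (z, t) := by fun_prop
      exact ContinuousAt.comp (f := fun y : E × ℂ => y.1 + y.2 • v) hc h2
    have h3 : ContinuousAt (fun y : E × ℂ => f (z + y.2 • v)) (z, t) := by
      have h2 : ContinuousAt (fun y : E × ℂ => z + y.2 • v) (z, t) := by fun_prop
      exact ContinuousAt.comp (f := fun y : E × ℂ => z + y.2 • v) hc h2
    have h4 := (h1.sub h3).norm
    have h5 : ∀ᶠ y : E × ℂ in 𝓝 (z, t), ‖f (y.1 + y.2 • v) - f (z + y.2 • v)‖ < ε / 2 * s :=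
      h4.eventually_lt_const (by simpa using by positivity)
    exact h5.mono fun y hy => hy.le
  filter_upwards [hrad, hunif] with x hx hu
  have h0 : (0 : ℂ) ∈ closedBall (0 : ℂ) s := mem_closedBall_self hs.le
  have hd : ∀ t ∈ closedBall (0 : ℂ) s, HasDerivAt (fun t : ℂ => f (x + t • v) - f (z + t • v))
      (fderiv ℂ f (x + t • v) v - fderiv ℂ f (z + t • v) v) t :=
    fun t ht => (hder x hx t ht).sub (hder z hz t ht)
  have hdc : DiffContOnCl ℂ (fun t : ℂ => f (x + t • v) - f (z + t • v)) (ball (0 : ℂ) s) := by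
    refine DifferentiableOn.diffContOnCl ?_
    rw [closure_ball _ hs.ne']
    exact fun t ht => (hd t ht).differentiableAt.differentiableWithinAt
  have h6 := norm_deriv_le_of_forall_mem_sphere_norm_le hs hdc hu
  rw [(hd 0 h0).deriv] at h6
  simp only [zero_smul, add_zero] at h6
  rw [dist_eq_norm]
  refine h6.trans_lt ?_
  rw [mul_div_assoc, div_self hs.ne', mul_one]
  linarith

theorem continuousAt_fderiv [CompleteSpace F] [FiniteDimensional ℂ E] {f : E → F} {z : E}
    (hf : Hol f z) : ContinuousAt (fderiv ℂ f) z := by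
  rw [continuousAt_clm_apply]
  exact fun v => continuousAt_fderiv_apply v hf

open Classical in
/-- The map `x ↦ f (x, ·)` to continuous functions on `K`. -/
noncomputable def cur (K : Set ℂ) (f : E × ℂ → F) (x : E) : C(K, F) :=
  if h : Continuous (fun t : K => f (x, t)) then ⟨fun t : K => f (x, t), h⟩ else 0

theorem cur_apply {K : Set ℂ} {f : E × ℂ → F} {x : E} (h : ∀ t ∈ K, ContinuousAt f (x, t))
    (t : K) : cur K f x t = f (x, t) := by
  have h1 : Continuous (fun t : K => f (x, t)) := by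
    rw [continuous_iff_continuousAt]
    intro t
    have h2 : ContinuousAt (fun t : K => (x, (t : ℂ))) t := by fun_prop
    exact ContinuousAt.comp (f := fun t : K => (x, (t : ℂ))) (h t t.2) h2
  unfold cur
  rw [dif_pos h1]
  rfl

theorem hol_cur [CompleteSpace F] [FiniteDimensional ℂ E] {K : Set ℂ} (hK : IsCompact K)
    [CompactSpace K] {f : E × ℂ → F}
    {z : E} (h : ∀ t ∈ K, Hol f (z, t)) : Hol (cur K f) z := by
  have hev : ∀ᶠ x in 𝓝 z, ∀ t ∈ K, Hol f (x, t) :=
    hK.eventually_forall_of_forall_eventually (P := fun x t => Hol f (x, t))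
      fun t ht => (h t ht).ev
  filter_upwards [hev] with x hx
  -- the derivative
  have hDc : Continuous (fun t : K => (fderiv ℂ f (x, t)).comp (ContinuousLinearMap.inl ℂ E ℂ)) := by
    rw [continuous_iff_continuousAt]
    intro t
    have h3 : ContinuousAt (fun t : K => (x, (t : ℂ))) t := by fun_prop
    have h4 : ContinuousAt (fun t : K => fderiv ℂ f (x, t)) t :=
      ContinuousAt.comp (f := fun t : K => (x, (t : ℂ))) (continuousAt_fderiv (hx t t.2)) h3
    exact h4.clm_comp continuousAt_const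
  set D₀ : C(K, E →L[ℂ] F) := ⟨_, hDc⟩ with hD₀
  have hDv : ∀ v, Continuous (fun t : K => D₀ t v) := fun v =>
    (D₀.continuous).clm_apply continuous_const
  set L : E →ₗ[ℂ] C(K, F) :=
    { toFun := fun v => ⟨fun t => D₀ t v, hDv v⟩
      map_add' := fun a b => by ext t; simp
      map_smul' := fun c a => by ext t; simp } with hL
  have hLb : ∀ v, ‖L v‖ ≤ ‖D₀‖ * ‖v‖ := by
    intro v
    rw [ContinuousMap.norm_le _ (by positivity)]
    intro t
    exact ((D₀ t).le_opNorm v).trans (mul_le_mul_of_nonneg_right (D₀.norm_coe_le_norm t)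
      (norm_nonneg _))
  set D : E →L[ℂ] C(K, F) := L.mkContinuous ‖D₀‖ hLb with hD
  have hDapp : ∀ v (t : K), D v t = fderiv ℂ f (x, t) (v, 0) := by
    intro v t
    simp [hD, hL, hD₀]
  refine HasFDerivAt.differentiableAt (f' := D) ?_
  rw [hasFDerivAt_iff_isLittleO, Asymptotics.isLittleO_iff]
  intro ε hε
  have hδ : 0 < ε / 2 := by positivity
  have hev2 : ∀ᶠ y in 𝓝 x, ∀ t ∈ K, Hol f (y, t) :=
    hK.eventually_forall_of_forall_eventually (P := fun x t => Hol f (x, t))
      fun t ht => (hx t ht).ev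
  have hB : ∀ᶠ y in 𝓝 x, ∀ t ∈ K, ‖f (y, t) - f (x, t) - fderiv ℂ f (x, t) (y - x, 0)‖ ≤
      (ε / 2 + ε / 2) * ‖y - x‖ := by
    refine hK.eventually_forall_of_forall_eventually
      (P := fun y t => ‖f (y, t) - f (x, t) - fderiv ℂ f (x, t) (y - x, 0)‖ ≤
        (ε / 2 + ε / 2) * ‖y - x‖) fun t0 ht0 => ?_
    have hst : HasStrictFDerivAt f (fderiv ℂ f (x, t0)) (x, t0) :=
      hasStrictFDerivAt_of_hasFDerivAt_of_continuousAt
        ((hx t0 ht0).mono fun y hy => hy.hasFDerivAt) (continuousAt_fderiv (hx t0 ht0))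
    rw [hasStrictFDerivAt_iff_isLittleO, Asymptotics.isLittleO_iff] at hst
    have h5 := hst hδ
    have h6 : ContinuousAt (fun y : E × ℂ => ((y.1, y.2), (x, y.2))) (x, t0) := by fun_prop
    have h7 := h6.eventually h5
    have h8 : ∀ᶠ y : E × ℂ in 𝓝 (x, t0), ‖fderiv ℂ f (x, y.2) - fderiv ℂ f (x, t0)‖ < ε / 2 := by
      have h10 : ContinuousAt (fun y : E × ℂ => (x, y.2)) (x, t0) := by fun_prop
      have h9 : ContinuousAt (fun y : E × ℂ => fderiv ℂ f (x, y.2)) (x, t0) :=
        ContinuousAt.comp (f := fun y : E × ℂ => (x, y.2)) (continuousAt_fderiv (hx t0 ht0)) h10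
      have h11 : ContinuousAt (fun y : E × ℂ => ‖fderiv ℂ f (x, y.2) - fderiv ℂ f (x, t0)‖)
          (x, t0) := (h9.sub continuousAt_const).norm
      exact h11.eventually_lt_const (by simpa using hδ)
    filter_upwards [h7, h8] with y hy hy'
    simp only [Prod.mk_sub_mk, sub_self] at hy
    have e1 : ‖((y.1 - x, (0 : ℂ)) : E × ℂ)‖ = ‖y.1 - x‖ := by simp [Prod.norm_def]
    rw [e1] at hy
    have e3 : f (y.1, y.2) - f (x, y.2) - fderiv ℂ f (x, y.2) (y.1 - x, 0) =
        (f (y.1, y.2) - f (x, y.2) - fderiv ℂ f (x, t0) (y.1 - x, 0)) -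
          (fderiv ℂ f (x, y.2) - fderiv ℂ f (x, t0)) (y.1 - x, 0) := by
      simp only [sub_apply]; abel
    rw [e3]
    refine (norm_sub_le _ _).trans ?_
    rw [add_mul]
    refine add_le_add hy ?_
    refine ((fderiv ℂ f (x, y.2) - fderiv ℂ f (x, t0)).le_opNorm _).trans ?_
    rw [e1]
    exact mul_le_mul_of_nonneg_right hy'.le (norm_nonneg _)
  filter_upwards [hev2, hB] with y hy hBy
  rw [ContinuousMap.norm_le _ (by positivity)]
  intro t
  have e1 := cur_apply (K := K) (f := f) (x := y) (fun t ht => (hy t ht).diffAt.continuousAt) t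
  have e2 := cur_apply (K := K) (f := f) (x := x) (fun t ht => (hx t ht).diffAt.continuousAt) t
  have h12 := hBy t t.2
  rw [add_halves] at h12
  simp only [ContinuousMap.sub_apply, e1, e2, hDapp]
  exact h12

end

/-! ### The Cauchy integral as a bilinear map -/

section

variable {F : Type u} [NormedAddCommGroup F] [NormedSpace ℂ F]

/-- The point of the circle with parameter `θ`. -/
noncomputable def cpt (w : ℂ) {ρ : ℝ} (hρ : 0 ≤ ρ) (θ : ℝ) : sphere w ρ :=
  ⟨circleMap w ρ θ, circleMap_mem_sphere w hρ θ⟩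

theorem continuous_cpt (w : ℂ) {ρ : ℝ} (hρ : 0 ≤ ρ) : Continuous (cpt w hρ) :=
  (continuous_circleMap w ρ).subtype_mk _

/-- The circle integral of `k h`. -/
noncomputable def bil (w : ℂ) {ρ : ℝ} (hρ : 0 ≤ ρ) :
    C(sphere w ρ, ℂ) →L[ℂ] C(sphere w ρ, F) →L[ℂ] F :=
  LinearMap.mkContinuous₂
    (LinearMap.mk₂ ℂ
      (fun (k : C(sphere w ρ, ℂ)) (h : C(sphere w ρ, F)) =>
        ∫ θ in (0)..2 * Real.pi, deriv (circleMap w ρ) θ • (k (cpt w hρ θ) • h (cpt w hρ θ)))
      (fun a b h => by
        rw [← intervalIntegral.integral_add]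
        · simp [add_smul]
        · apply Continuous.intervalIntegrable
          have := continuous_cpt w hρ
          simp only [deriv_circleMap]
          fun_prop
        · apply Continuous.intervalIntegrable
          have := continuous_cpt w hρ
          simp only [deriv_circleMap]
          fun_prop)
      (fun c a h => by
        rw [← intervalIntegral.integral_smul]
        congr 1
        funext θ
        simp only [ContinuousMap.smul_apply, smul_smul, smul_eq_mul]
        congr 1
        ring)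
      (fun a b h => by
        rw [← intervalIntegral.integral_add]
        · simp [smul_add]
        · apply Continuous.intervalIntegrable
          have := continuous_cpt w hρ
          simp only [deriv_circleMap]
          fun_prop
        · apply Continuous.intervalIntegrable
          have := continuous_cpt w hρ
          simp only [deriv_circleMap]
          fun_prop)
      (fun c a h => by
        rw [← intervalIntegral.integral_smul]
        congr 1
        funext θ
        simp only [ContinuousMap.smul_apply, smul_smul, smul_eq_mul]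
        congr 1
        ring))
    (2 * Real.pi * ρ)
    (fun k h => by
      simp only [LinearMap.mk₂_apply]
      refine (intervalIntegral.norm_integral_le_of_norm_le_const (C := ρ * (‖k‖ * ‖h‖))
        fun θ _ => ?_).trans ?_
      · rw [norm_smul, norm_smul, deriv_circleMap]
        have h1 : ‖circleMap 0 ρ θ * I‖ = ρ := by simp [abs_of_nonneg hρ]
        rw [h1]
        exact mul_le_mul_of_nonneg_left (mul_le_mul (k.norm_coe_le_norm _) (h.norm_coe_le_norm _)
          (norm_nonneg _) (norm_nonneg _)) hρ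
      · rw [sub_zero, abs_of_pos Real.two_pi_pos]
        apply le_of_eq
        ring)

theorem bil_apply (w : ℂ) {ρ : ℝ} (hρ : 0 ≤ ρ) (k : C(sphere w ρ, ℂ)) (h : C(sphere w ρ, F))
    (k' : ℂ → ℂ) (h' : ℂ → F) (hk : ∀ t : sphere w ρ, k t = k' t)
    (hh : ∀ t : sphere w ρ, h t = h' t) : bil w hρ k h = ∮ ζ in C(w, ρ), k' ζ • h' ζ := by
  unfold bil circleIntegral
  simp only [LinearMap.mkContinuous₂_apply, LinearMap.mk₂_apply]
  congr 1
  funext θ
  rw [hk, hh]
  rfl

end

/-! ### Osgood's theorem -/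

theorem prod_step {E : Type v} [NormedAddCommGroup E] [NormedSpace ℂ E] [FiniteDimensional ℂ E]
    (ih : ∀ (F : Type u) [NormedAddCommGroup F] [NormedSpace ℂ F] [CompleteSpace F] (f : E → F)
      (z : E), Hol f z → AnalyticAt ℂ f z)
    (F : Type u) [NormedAddCommGroup F] [NormedSpace ℂ F] [CompleteSpace F] (f : E × ℂ → F)
    (z : E × ℂ) (hf : Hol f z) : AnalyticAt ℂ f z := by
  obtain ⟨x₀, w₀⟩ := z
  -- a radius
  obtain ⟨ρ, hρ, hrad⟩ : ∃ ρ : ℝ, 0 < ρ ∧
      ∀ᶠ x in 𝓝 x₀, ∀ t ∈ closedBall w₀ ρ, Hol f (x, t) := by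
    have h2 := hf.ev
    rw [nhds_prod_eq, eventually_prod_iff] at h2
    obtain ⟨pa, hpa, pb, hpb, h⟩ := h2
    obtain ⟨ε, hε, hb⟩ := Metric.eventually_nhds_iff_ball.1 hpb
    refine ⟨ε / 2, by positivity, ?_⟩
    filter_upwards [hpa] with x hx t ht
    exact h hx (hb t (closedBall_subset_ball (by linarith) ht))
  have hz := hrad.self_of_nhds
  set K : Set ℂ := sphere w₀ ρ with hK
  have hKc : IsCompact K := isCompact_sphere _ _
  have : CompactSpace K := isCompact_iff_compactSpace.1 hKc
  have hG : Hol (cur K f) x₀ := hol_cur hKc fun t ht => hz t (sphere_subset_closedBall ht)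
  have hGa : AnalyticAt ℂ (cur K f) x₀ := ih _ _ _ hG
  -- the Cauchy kernel
  have hker : ∀ w ∈ ball w₀ ρ, ∀ t ∈ K, Hol (fun p : ℂ × ℂ => (p.2 - p.1)⁻¹) (w, t) := by
    intro w hw t ht
    have hne : t - w ≠ 0 := by
      intro h
      rw [sub_eq_zero.1 h] at ht
      rw [mem_ball] at hw
      rw [hK, mem_sphere] at ht
      linarith
    have hc : ContinuousAt (fun p : ℂ × ℂ => p.2 - p.1) (w, t) := by fun_prop
    filter_upwards [hc.eventually_ne hne] with p hp
    have h1 : DifferentiableAt ℂ (fun p : ℂ × ℂ => p.2 - p.1) p := by fun_prop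
    exact h1.inv hp
  have hR : Hol (cur K (fun p : ℂ × ℂ => (p.2 - p.1)⁻¹)) w₀ :=
    hol_cur hKc (hker w₀ (mem_ball_self hρ))
  have hRa : AnalyticAt ℂ (cur K (fun p : ℂ × ℂ => (p.2 - p.1)⁻¹)) w₀ := by
    rw [Complex.analyticAt_iff_eventually_differentiableAt]
    exact hR
  -- the composition
  have hA1 : AnalyticAt ℂ (fun p : E × ℂ => cur K f p.1) (x₀, w₀) :=
    AnalyticAt.comp (f := fun p : E × ℂ => p.1) (x := (x₀, w₀)) hGa analyticAt_fst
  have hA2 : AnalyticAt ℂ (fun p : E × ℂ => cur K (fun p : ℂ × ℂ => (p.2 - p.1)⁻¹) p.2)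
      (x₀, w₀) :=
    AnalyticAt.comp (f := fun p : E × ℂ => p.2) (x := (x₀, w₀)) hRa analyticAt_snd
  have hA3 : AnalyticAt ℂ (fun p : E × ℂ => bil (F := F) w₀ hρ.le
      (cur K (fun p : ℂ × ℂ => (p.2 - p.1)⁻¹) p.2) (cur K f p.1)) (x₀, w₀) :=
    (((bil (F := F) w₀ hρ.le).analyticAt_bilinear _).comp (hA2.prod hA1))
  have hA4 : AnalyticAt ℂ (fun p : E × ℂ => (2 * Real.pi * I : ℂ)⁻¹ • bil (F := F) w₀ hρ.le
      (cur K (fun p : ℂ × ℂ => (p.2 - p.1)⁻¹) p.2) (cur K f p.1)) (x₀, w₀) :=
    analyticAt_const.smul hA3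
  refine hA4.congr ?_
  have hw : ∀ᶠ w in 𝓝 w₀, w ∈ ball w₀ ρ := ball_mem_nhds _ hρ
  filter_upwards [hrad.prod_nhds hw] with p hp
  obtain ⟨hp1, hp2⟩ := hp
  rw [bil_apply w₀ hρ.le _ _ (fun ζ => (ζ - p.2)⁻¹) (fun ζ => f (p.1, ζ))]
  · have hdc : DiffContOnCl ℂ (fun ζ : ℂ => f (p.1, ζ)) (ball w₀ ρ) := by
      refine DifferentiableOn.diffContOnCl ?_
      rw [closure_ball _ hρ.ne']
      intro t ht
      have h3 : DifferentiableAt ℂ (fun ζ : ℂ => (p.1, ζ)) t := by fun_prop
      exact (DifferentiableAt.comp (f := fun ζ : ℂ => (p.1, ζ)) t (hp1 t ht).diffAt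
        h3).differentiableWithinAt
    exact hdc.two_pi_i_inv_smul_circleIntegral_sub_inv_smul hp2
  · exact fun t => cur_apply (fun t ht => (hker p.2 hp2 t ht).diffAt.continuousAt) t
  · exact fun t => cur_apply
      (fun t ht => (hp1 t (sphere_subset_closedBall ht)).diffAt.continuousAt) t

theorem analyticAt_pi (n : ℕ) : ∀ (F : Type u) [NormedAddCommGroup F] [NormedSpace ℂ F]
    [CompleteSpace F] (f : (Fin n → ℂ) → F) (z : Fin n → ℂ), Hol f z → AnalyticAt ℂ f z := by
  induction n with
  | zero =>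
    intro F _ _ _ f z _
    have h1 : f = fun _ => f 0 := by
      funext x
      rw [Subsingleton.elim x 0]
    rw [h1]
    exact analyticAt_const
  | succ n ih =>
    intro F _ _ _ f z hf
    let e : ((Fin n → ℂ) × ℂ) ≃L[ℂ] (Fin (n + 1) → ℂ) :=
      ContinuousLinearEquiv.ofFinrankEq (by simp)
    have h1 : Hol (fun p => f (e p)) (e.symm z) := by
      refine Hol.comp (φ := fun p => e p) (f := f) ?_ (Hol.of_differentiable e.differentiable _)
      simpa using hf
    have h2 := prod_step ih F _ _ h1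
    have h3 : AnalyticAt ℂ (fun x => f (e (e.symm x))) z :=
      AnalyticAt.comp (g := fun p => f (e p)) (f := fun x => e.symm x) h2
        (e.symm.toContinuousLinearMap.analyticAt z)
    simpa using h3

/-- **Osgood's theorem.** -/
theorem Hol.analyticAt {E : Type v} [NormedAddCommGroup E] [NormedSpace ℂ E]
    [FiniteDimensional ℂ E] {F : Type u} [NormedAddCommGroup F] [NormedSpace ℂ F]
    [CompleteSpace F] {f : E → F} {z : E} (hf : Hol f z) : AnalyticAt ℂ f z := by
  let e : (Fin (Module.finrank ℂ E) → ℂ) ≃L[ℂ] E := ContinuousLinearEquiv.ofFinrankEq (by simp)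
  have h1 : Hol (fun p => f (e p)) (e.symm z) := by
    refine Hol.comp (φ := fun p => e p) (f := f) ?_ (Hol.of_differentiable e.differentiable _)
    simpa using hf
  have h2 := analyticAt_pi _ F _ _ h1
  have h3 : AnalyticAt ℂ (fun x => f (e (e.symm x))) z :=
    AnalyticAt.comp (g := fun p => f (e p)) (f := fun x => e.symm x) h2
      (e.symm.toContinuousLinearMap.analyticAt z)
  simpa using h3

theorem analyticAt {E : Type v} [NormedAddCommGroup E] [NormedSpace ℂ E]
    [FiniteDimensional ℂ E] {F : Type u} [NormedAddCommGroup F] [NormedSpace ℂ F]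
    [CompleteSpace F] {f : E → F} {z : E} (hf : ∀ᶠ x in 𝓝 z, DifferentiableAt ℂ f x) :
    AnalyticAt ℂ f z := Hol.analyticAt hf

theorem analyticAt_of_differentiable {E : Type v} [NormedAddCommGroup E] [NormedSpace ℂ E]
    [FiniteDimensional ℂ E] {F : Type u} [NormedAddCommGroup F] [NormedSpace ℂ F]
    [CompleteSpace F] {f : E → F} (hf : Differentiable ℂ f) (z : E) : AnalyticAt ℂ f z :=
  analyticAt (Eventually.of_forall fun x => hf x)

end Pool.Agent.Lib.MPf11a48.U.Osgood
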