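import Pool.Agent.Lib.MP_f11a48_ag.helper16.Defs

/-!
# MP_f11a48_ag, project U: rational sub-objects of `h_1(A)` (Theorem T'), specifications

* `PerData`: functions `F_i = A_i / A_0` on `ℂ^r`, periodic for a lattice of rank `r` which spans
  `ℂ^r`, closed under `r` independent derivations over `Qbar`, with algebraic values at `0`.
* `TD`: theta uniformisation of an abelian variety `ℂ^Z / L` over `Qbar` together with functions
  `Y t / θ_o^m` (differentials of the second kind).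
-/

set_option autoImplicit false

open MvPolynomial Pool.Agent.Lib.MPf11a48.CM

namespace Pool.Agent.Lib.MPf11a48.U

/-! ## The transcendence theorem -/

/-- Functions `A o, A i` on `ℂ^ρ` (`o` a distinguished index), periods `lam`, directions `v`. -/
structure PerData {ρ I : Type} [Fintype ρ] [Fintype I] (A₀ : (ρ → ℂ) → ℂ)
    (A : I → (ρ → ℂ) → ℂ) (lam v : ρ → (ρ → ℂ)) : Prop where
  diff₀ : Differentiable ℂ A₀
  diff : ∀ i, Differentiable ℂ (A i)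
  growth₀ : ∃ C : ℝ, ∀ z, ‖A₀ z‖ ≤ Real.exp (C * (1 + ‖z‖ ^ 2))
  growth : ∃ C : ℝ, ∀ i z, ‖A i z‖ ≤ Real.exp (C * (1 + ‖z‖ ^ 2))
  zero : A₀ 0 ≠ 0
  lam_indep : LinearIndependent ℂ lam
  v_indep : LinearIndependent ℂ v
  /-- one automorphy factor for all the functions; the `F_i = A_i / A_0` are periodic -/
  period : ∀ j, ∃ e : (ρ → ℂ) → ℂ, (∀ z, e z ≠ 0) ∧ (∀ z, A₀ (z + lam j) = e z * A₀ z) ∧
    ∀ i z, A i (z + lam j) = e z * A i z
  value : ∀ i, A i 0 / A₀ 0 ∈ Qbar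
  deriv : ∀ i j, ∃ p : MvPolynomial I Qbar, ∀ z, A₀ z ≠ 0 →
    fderiv ℂ (fun w => A i w / A₀ w) z (v j) = aeval (fun k => A k z / A₀ z) p

/-- Module TL: any `r + 1` of the functions `F_i` on `ℂ^r` are algebraically dependent over
`Qbar`. -/
def SpecTL : Prop :=
  ∀ (r : ℕ) (I : Type) [Fintype I] (A₀ : (Fin r → ℂ) → ℂ) (A : I → (Fin r → ℂ) → ℂ)
    (lam v : Fin r → (Fin r → ℂ)), PerData A₀ A lam v →
    ∀ s : Fin (r + 1) → I, ∃ P : MvPolynomial (Fin (r + 1)) Qbar, P ≠ 0 ∧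
      ∀ z, A₀ z ≠ 0 → aeval (fun k => A (s k) z / A₀ z) P = 0

/-- Module TLG: the same for polynomials in the `F_i`. -/
def SpecTLG : Prop :=
  ∀ (r : ℕ) (I : Type) [Fintype I] (A₀ : (Fin r → ℂ) → ℂ) (A : I → (Fin r → ℂ) → ℂ)
    (lam v : Fin r → (Fin r → ℂ)), PerData A₀ A lam v →
    ∀ G : Fin (r + 1) → MvPolynomial I Qbar, ∃ P : MvPolynomial (Fin (r + 1)) Qbar, P ≠ 0 ∧
      ∀ z, A₀ z ≠ 0 → aeval (fun k => aeval (fun i => A i z / A₀ z) (G k)) P = 0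

/-! ### Pieces of module TL (its author may change them) -/

/-- Module SCHW: Schwarz lemma for a product set. An entire function on `ℂ^r`, `r ≥ 1`, which
vanishes to order `r T` at all integral points `k` with `|k_j| ≤ S` is small on the unit
polydisc. -/
def SpecSCHW : Prop :=
  ∀ (r : ℕ) (f : (Fin r → ℂ) → ℂ) (S T : ℕ) (B : ℝ), 0 < r → 1 ≤ S → Differentiable ℂ f →
    (∀ k : Fin r → ℤ, (∀ j, |k j| ≤ S) → ∀ n : ℕ, n < r * T →
      iteratedFDeriv ℂ n f (fun j => (k j : ℂ)) = 0) →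
    (∀ z : Fin r → ℂ, ‖z‖ ≤ 8 * S → ‖f z‖ ≤ B) →
    ∀ z : Fin r → ℂ, ‖z‖ ≤ 1 → ‖f z‖ ≤ 2 ^ r * B * (1 / 2 : ℝ) ^ (T * S)

/-! ## Theta uniformisations -/

/-- Functions for an abelian variety `ℂ^Z / L`: a basis `lat` of the lattice `L`, theta functions
`th i`, entire functions `Y t` and `m` such that the functions `Y t / (th o)^m` have the additive
quasi-periods `eta`. -/
structure TD (Z T Θ Λ : Type) where
  o : Θ
  lat : Λ → (Z → ℂ)
  eta : Λ → (T → ℂ)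
  th : Θ → (Z → ℂ) → ℂ
  m : ℕ
  Y : T → (Z → ℂ) → ℂ

namespace TD

variable {Z T Θ Λ : Type} (D : TD Z T Θ Λ)

/-- The functions `θ_i / θ_o`. -/
noncomputable def f (i : Θ) (z : Z → ℂ) : ℂ := D.th i z / D.th D.o z

/-- The functions `Z_t = Y_t / θ_o^m` (integrals of differentials of the second kind). -/
noncomputable def zt (t : T) (z : Z → ℂ) : ℂ := D.Y t z / D.th D.o z ^ D.m

/-- The basis of the lattice `Λ` of the universal vector extension. -/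
def lam (a : Λ) : Z ⊕ T → ℂ := Sum.elim (D.lat a) (D.eta a)

/-- The conditions used in Theorem T'. -/
structure Good [Fintype Z] [Fintype T] [Fintype Θ] [Fintype Λ] : Prop where
  lat_indep : LinearIndependent ℝ D.lat
  lat_card : Fintype.card Λ = 2 * Fintype.card Z
  lam_indep : LinearIndependent ℂ D.lam
  th_diff : ∀ i, Differentiable ℂ (D.th i)
  Y_diff : ∀ t, Differentiable ℂ (D.Y t)
  th_growth : ∃ C : ℝ, ∀ i z, ‖D.th i z‖ ≤ Real.exp (C * (1 + ‖z‖ ^ 2))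
  Y_growth : ∃ C : ℝ, ∀ t z, ‖D.Y t z‖ ≤ Real.exp (C * (1 + ‖z‖ ^ 2))
  th_zero : D.th D.o 0 ≠ 0
  th_period : ∀ a, ∃ e : (Z → ℂ) → ℂ, (∀ z, e z ≠ 0) ∧ ∀ i z, D.th i (z + D.lat a) = e z * D.th i z
  zt_period : ∀ a t z, D.th D.o z ≠ 0 → D.zt t (z + D.lat a) = D.zt t z + D.eta a t
  f_value : ∀ i, D.f i 0 ∈ Qbar
  zt_value : ∀ t, D.zt t 0 ∈ Qbar
  f_deriv : ∀ i, ∀ v : Z → ℂ, (∀ j, v j ∈ Qbar) → ∃ p : MvPolynomial Θ Qbar, ∀ z,
    D.th D.o z ≠ 0 → fderiv ℂ (D.f i) z v = aeval (fun k => D.f k z) p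
  zt_deriv : ∀ t, ∀ v : Z → ℂ, (∀ j, v j ∈ Qbar) → ∃ p : MvPolynomial Θ Qbar, ∀ z,
    D.th D.o z ≠ 0 → fderiv ℂ (D.zt t) z v = aeval (fun k => D.f k z) p
  /-- immersion at the origin -/
  imm : ∀ v : Z → ℂ, v ≠ 0 → ∃ i, fderiv ℂ (D.f i) 0 v ≠ 0

/-- The complex span of the lattice vectors `∑ x_a (lat a, eta a)`, `x ∈ R`. -/
noncomputable def Wof [Fintype Λ] (R : Submodule ℚ (Λ → ℚ)) : Submodule ℂ (Z ⊕ T → ℂ) :=
  Submodule.span ℂ {w | ∃ x ∈ R, w = ∑ a, (x a : ℂ) • D.lam a}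

/-- The real span of the lattice vectors `∑ x_a lat a`, `x ∈ R`. -/
noncomputable def Lof [Fintype Λ] (R : Submodule ℚ (Λ → ℚ)) : Submodule ℝ (Z → ℂ) :=
  Submodule.span ℝ {w | ∃ x ∈ R, w = ∑ a, (x a : ℂ) • D.lat a}

end TD

/-- A complex subspace is defined over `Qbar`. -/
def DefQbar {J : Type} (W : Submodule ℂ (J → ℂ)) : Prop :=
  W = Submodule.span ℂ {w | w ∈ W ∧ ∀ j, w j ∈ Qbar}

/-- THEOREM T'. -/
def SpecTP : Prop :=
  ∀ {Z T Θ Λ : Type} [Fintype Z] [Fintype T] [Fintype Θ] [Fintype Λ] (D : TD Z T Θ Λ), D.Good →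
    ∀ R : Submodule ℚ (Λ → ℚ), DefQbar (D.Wof R) →
      ∀ w ∈ D.Lof R, Complex.I • w ∈ D.Lof R

/-! ### Pieces of Theorem T' -/

/-- Module REL. With `U = ` the projection of `W = Wof R` to `ℂ^Z`, `r' = dim U`:
(1) any `r' + 1` of the functions `f_i` satisfy on `U` an algebraic relation over `Qbar`;
(2) for `c ∈ Qbar^T` such that `∑ c_t x_t` is a function `ℓ(z)` of the `z`-coordinates on `W`, the
function `Y_c = ∑ c_t zt_t - ℓ` and any `r'` of the functions `f_i` satisfy on `U` an algebraic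
relation over `Qbar`. -/
def SpecREL : Prop :=
  ∀ {Z T Θ Λ : Type} [Fintype Z] [Fintype T] [Fintype Θ] [Fintype Λ] (D : TD Z T Θ Λ), D.Good →
    ∀ R : Submodule ℚ (Λ → ℚ), DefQbar (D.Wof R) → ∀ U : Submodule ℂ (Z → ℂ),
      U = (D.Wof R).map (LinearMap.funLeft ℂ ℂ Sum.inl) →
      (∀ s : Fin (Module.finrank ℂ U + 1) → Θ,
        ∃ P : MvPolynomial (Fin (Module.finrank ℂ U + 1)) Qbar, P ≠ 0 ∧
          ∀ z ∈ U, D.th D.o z ≠ 0 → aeval (fun k => D.f (s k) z) P = 0) ∧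
      (∀ (s : Fin (Module.finrank ℂ U) → Θ) (c : T → ℂ), (∀ t, c t ∈ Qbar) →
        ∀ ℓ : (Z → ℂ) →ₗ[ℂ] ℂ, (∀ w ∈ D.Wof R, ∑ t, c t * w (Sum.inr t) = ℓ fun j => w (Sum.inl j)) →
        ∃ P : MvPolynomial (Option (Fin (Module.finrank ℂ U))) Qbar, P ≠ 0 ∧
          ∀ z ∈ U, D.th D.o z ≠ 0 →
            aeval (fun k => Option.elim k (∑ t, c t * D.zt t z - ℓ z) fun k => D.f (s k) z) P = 0)

/-- Module JAC: functions on a complex subspace `X` with independent differentials at a point are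
algebraically independent (near the point). -/
def SpecJAC : Prop :=
  ∀ {Z : Type} [Fintype Z] (X : Submodule ℂ (Z → ℂ)) (n : ℕ) (g : Fin n → (Z → ℂ) → ℂ),
    (∀ k, AnalyticAt ℂ (g k) 0) →
    (∀ b : Fin n → ℂ, (∀ v ∈ X, ∑ k, b k * fderiv ℂ (g k) 0 v = 0) → b = 0) →
    ∀ P : MvPolynomial (Fin n) ℂ,
      (∀ᶠ z in nhds (0 : Z → ℂ), z ∈ X → aeval (fun k => g k z) P = 0) → P = 0

/-- Module CLOS: if any `dim U + 1` of the functions `f_i` are algebraically dependent on the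
complex subspace `U`, then `U` is spanned over `ℝ` by lattice vectors. -/
def SpecCLOS : Prop :=
  ∀ {Z T Θ Λ : Type} [Fintype Z] [Fintype T] [Fintype Θ] [Fintype Λ] (D : TD Z T Θ Λ), D.Good →
    ∀ U : Submodule ℂ (Z → ℂ),
      (∀ s : Fin (Module.finrank ℂ U + 1) → Θ,
        ∃ P : MvPolynomial (Fin (Module.finrank ℂ U + 1)) ℂ, P ≠ 0 ∧
          ∀ z ∈ U, D.th D.o z ≠ 0 → aeval (fun k => D.f (s k) z) P = 0) →
      ∀ u ∈ U, u ∈ Submodule.span ℝ {w : Z → ℂ | w ∈ U ∧ ∃ x : Λ → ℤ, w = ∑ a, (x a : ℂ) • D.lat a}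

/-- Module QUASI: an additive function which is algebraic over functions periodic for the lattice
vectors in `U` has no quasi-periods on `U`. -/
def SpecQUASI : Prop :=
  ∀ {Z T Θ Λ : Type} [Fintype Z] [Fintype T] [Fintype Θ] [Fintype Λ] (D : TD Z T Θ Λ), D.Good →
    ∀ U : Submodule ℂ (Z → ℂ), ∀ (c : T → ℂ) (ℓ : (Z → ℂ) →ₗ[ℂ] ℂ),
      (∀ s : Fin (Module.finrank ℂ U) → Θ,
        ∃ P : MvPolynomial (Option (Fin (Module.finrank ℂ U))) ℂ, P ≠ 0 ∧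
          ∀ z ∈ U, D.th D.o z ≠ 0 →
            aeval (fun k => Option.elim k (∑ t, c t * D.zt t z - ℓ z) fun k => D.f (s k) z) P = 0) →
      ∀ x : Λ → ℤ, (∑ a, (x a : ℂ) • D.lat a) ∈ U →
        ∑ t, c t * (∑ a, (x a : ℂ) * D.eta a t) = ℓ (∑ a, (x a : ℂ) • D.lat a)

/-! ## Products -/

/-- The data for the product of two abelian varieties (Segre embedding). -/
noncomputable def TD.prod {Z T Θ Λ Z' T' Θ' Λ' : Type} (D : TD Z T Θ Λ) (D' : TD Z' T' Θ' Λ') :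
    TD (Z ⊕ Z') (T ⊕ T') (Θ × Θ') (Λ ⊕ Λ') where
  o := (D.o, D'.o)
  lat := Sum.elim (fun a => Sum.elim (D.lat a) 0) fun a => Sum.elim 0 (D'.lat a)
  eta := Sum.elim (fun a => Sum.elim (D.eta a) 0) fun a => Sum.elim 0 (D'.eta a)
  th := fun i z => D.th i.1 (fun j => z (Sum.inl j)) * D'.th i.2 (fun j => z (Sum.inr j))
  m := D.m + D'.m
  Y := Sum.elim
    (fun t z => D.Y t (fun j => z (Sum.inl j)) * D.th D.o (fun j => z (Sum.inl j)) ^ D'.m *
      D'.th D'.o (fun j => z (Sum.inr j)) ^ (D.m + D'.m))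
    fun t z => D'.Y t (fun j => z (Sum.inr j)) * D'.th D'.o (fun j => z (Sum.inr j)) ^ D.m *
      D.th D.o (fun j => z (Sum.inl j)) ^ (D.m + D'.m)

/-- Module PROD. -/
def SpecPROD : Prop :=
  ∀ {Z T Θ Λ Z' T' Θ' Λ' : Type} [Fintype Z] [Fintype T] [Fintype Θ] [Fintype Λ] [Fintype Z']
    [Fintype T'] [Fintype Θ'] [Fintype Λ'] (D : TD Z T Θ Λ) (D' : TD Z' T' Θ' Λ'), D.Good →
    D'.Good → (D.prod D').Good

end Pool.Agent.Lib.MPf11a48.U
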