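import Pool.Agent.Lib.MP_f11a48_ag.U.Hol
import Pool.Agent.Lib.MP_f11a48_ag.U.Spec

/-!
# MP_f11a48_ag, project U: Schwarz lemma for a product set (module SCHW)
-/

set_option autoImplicit false

open Filter Topology Metric

namespace Pool.Agent.Lib.MPf11a48.U.SchwM

open Pool.Agent.Lib.MP_47914d_nt

/-- order of vanishing at least `M` -/
def Van {E : Type} [NormedAddCommGroup E] (M : ℕ) (f : E → ℂ) (a : E) : Prop :=
  ∃ C δ : ℝ, 0 ≤ C ∧ 0 < δ ∧ ∀ z, ‖z - a‖ ≤ δ → ‖f z‖ ≤ C * ‖z - a‖ ^ M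

/-- The integral around a pole does not depend on the circle. -/
theorem deform (T : ℕ) {h : ℂ → ℂ} (hh : Differentiable ℂ h) {c s : ℂ} {R ρ : ℝ}
    (hs : s ∈ ball c R) (hρ : 0 < ρ) :
    (∮ z in C(c, R), h z / (z - s) ^ T) = ∮ z in C(s, ρ), h z / (z - s) ^ T := by
  have hR : 0 < R := pos_of_mem_ball hs
  induction T generalizing h with
  | zero =>
    simp only [pow_zero, div_one]
    rw [DiffContOnCl.circleIntegral_eq_zero hR.le hh.diffContOnCl,
      DiffContOnCl.circleIntegral_eq_zero hρ.le hh.diffContOnCl]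
  | succ T ih =>
    have hd : Differentiable ℂ (dslope h s) := by
      have := (Complex.differentiableOn_dslope (c := s) (s := Set.univ) univ_mem).2
        hh.differentiableOn
      rwa [differentiableOn_univ] at this
    -- splitting on a circle which does not contain `s`
    have key : ∀ (c' : ℂ) (R' : ℝ), s ∈ ball c' R' →
        (∮ z in C(c', R'), h z / (z - s) ^ (T + 1)) =
          h s * (∮ z in C(c', R'), ((z - s) ^ (T + 1))⁻¹) +
            ∮ z in C(c', R'), dslope h s z / (z - s) ^ T := by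
      intro c' R' hs'
      have hR' : 0 < R' := pos_of_mem_ball hs'
      have hne : ∀ z ∈ sphere c' R', z - s ≠ 0 := by
        intro z hz h0
        rw [sub_eq_zero] at h0
        rw [h0, mem_sphere] at hz
        rw [mem_ball] at hs'
        linarith
      have h1 : ∀ z ∈ sphere c' R', h z / (z - s) ^ (T + 1) =
          h s * ((z - s) ^ (T + 1))⁻¹ + dslope h s z / (z - s) ^ T := by
        intro z hz
        have h2 := hne z hz
        have h3 : dslope h s z = (h z - h s) / (z - s) := by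
          rw [dslope_of_ne _ (sub_ne_zero.1 h2), slope_def_field]
        rw [h3]
        field_simp
        ring
      have h4 : ContinuousOn (fun z => ((z - s) ^ (T + 1))⁻¹) (sphere c' R') := by
        refine ContinuousOn.inv₀ (by fun_prop) fun z hz => pow_ne_zero _ (hne z hz)
      have h5 : ContinuousOn (fun z => dslope h s z / (z - s) ^ T) (sphere c' R') := by
        refine ContinuousOn.div hd.continuous.continuousOn (by fun_prop)
          fun z hz => pow_ne_zero _ (hne z hz)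
      rw [circleIntegral.integral_congr hR'.le h1]
      rw [circleIntegral.integral_add ((h4.const_mul (h s) |> fun h => by
        simpa [smul_eq_mul] using h : ContinuousOn (fun z => h s * ((z - s) ^ (T + 1))⁻¹)
          (sphere c' R')).circleIntegrable hR'.le) (h5.circleIntegrable hR'.le),
        circleIntegral.integral_const_mul]
    rw [key c R hs, key s ρ (mem_ball_self hρ), ih hd]
    congr 2
    rcases Nat.eq_zero_or_pos T with rfl | hT
    · simp only [zero_add, pow_one]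
      rw [circleIntegral.integral_sub_inv_of_mem_ball hs,
        circleIntegral.integral_sub_center_inv s hρ.ne']
    · have h6 : ∀ (c' : ℂ) (R' : ℝ), (∮ z in C(c', R'), ((z - s) ^ (T + 1))⁻¹) = 0 := by
        intro c' R'
        have h7 := circleIntegral.integral_sub_zpow_of_ne (n := -((T + 1 : ℕ) : ℤ))
          (by push_cast; omega) c' s R'
        simpa only [zpow_neg, zpow_natCast] using h7
      rw [h6, h6]

theorem norm_cons_le {r : ℕ} {a : ℂ} {x : Fin r → ℂ} {ρ : ℝ} (hρ : 0 ≤ ρ) :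
    ‖(Fin.cons a x : Fin (r + 1) → ℂ)‖ ≤ ρ ↔ ‖a‖ ≤ ρ ∧ ‖x‖ ≤ ρ := by
  rw [pi_norm_le_iff_of_nonneg hρ, pi_norm_le_iff_of_nonneg hρ, Fin.forall_fin_succ]
  simp

theorem cons_sub_cons {r : ℕ} (a b : ℂ) (x y : Fin r → ℂ) :
    (Fin.cons a x - Fin.cons b y : Fin (r + 1) → ℂ) = Fin.cons (a - b) (x - y) := by
  ext j
  refine Fin.cases ?_ (fun j => ?_) j <;> simp

theorem differentiable_cons {r : ℕ} :
    Differentiable ℂ fun y : (Fin r → ℂ) × ℂ => (Fin.cons y.2 y.1 : Fin (r + 1) → ℂ) := by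
  rw [differentiable_pi]
  intro j
  refine Fin.cases ?_ (fun j => ?_) j
  · simp only [Fin.cons_zero]
    exact differentiable_snd
  · simp only [Fin.cons_succ]
    fun_prop

/-- Vanishing of the integrals of the first variable. -/
theorem van_coef {r : ℕ} {f : (Fin (r + 1) → ℂ) → ℂ} (hf : Differentiable ℂ f) {p : ℂ → ℂ}
    (hp : Differentiable ℂ p) {T M m : ℕ} (hm : m + T ≤ M + 1) {R : ℝ} {s : ℂ}
    (hs : s ∈ ball (0 : ℂ) R) {k : Fin r → ℂ} (hv : Van M f (Fin.cons s k)) :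
    Van m (fun x => ∮ ζ in C(0, R), p ζ * f (Fin.cons ζ x) / (ζ - s) ^ T) k := by
  obtain ⟨C, δ, hC, hδ, hb⟩ := hv
  obtain ⟨P, hP⟩ := (isCompact_closedBall s 1).exists_bound_of_continuousOn
    hp.continuous.continuousOn
  have hP0 : 0 ≤ P := (norm_nonneg _).trans (hP s (mem_closedBall_self zero_le_one))
  set δ' := min δ 1 with hδ'
  have hδ'0 : 0 < δ' := lt_min hδ one_pos
  set C' := 2 * Real.pi * (P * C) with hC'
  have hC'0 : 0 ≤ C' := by positivity
  -- the estimate with a circle of radius `ρ`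
  have key : ∀ (x : Fin r → ℂ) (ρ : ℝ), 0 < ρ → ρ ≤ δ' → ‖x - k‖ ≤ ρ →
      ‖∮ ζ in C(0, R), p ζ * f (Fin.cons ζ x) / (ζ - s) ^ T‖ ≤ C' * ρ ^ m := by
    intro x ρ hρ hρδ hx
    have hd : Differentiable ℂ fun ζ => p ζ * f (Fin.cons ζ x) := by
      refine hp.mul (hf.comp ?_)
      exact differentiable_cons.comp (differentiable_const x |>.prodMk differentiable_id)
    rw [deform T hd hs hρ]
    have hρ1 : ρ ≤ 1 := hρδ.trans (min_le_right _ _)
    have h1 : ∀ ζ ∈ sphere s ρ, ‖p ζ * f (Fin.cons ζ x) / (ζ - s) ^ T‖ ≤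
        P * (C * ρ ^ M) / ρ ^ T := by
      intro ζ hζ
      rw [mem_sphere, dist_eq_norm] at hζ
      rw [norm_div, norm_mul, norm_pow, hζ]
      have h2 : ‖(Fin.cons ζ x - Fin.cons s k : Fin (r + 1) → ℂ)‖ ≤ ρ := by
        rw [cons_sub_cons, norm_cons_le hρ.le]
        exact ⟨hζ.le, hx⟩
      have h3 := hb _ (h2.trans (hρδ.trans (min_le_left _ _)))
      have h4 : ‖p ζ‖ ≤ P := hP ζ (by rw [mem_closedBall, dist_eq_norm, hζ]; exact hρ1)
      have h5 : C * ‖(Fin.cons ζ x - Fin.cons s k : Fin (r + 1) → ℂ)‖ ^ M ≤ C * ρ ^ M := by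
        gcongr
      gcongr
      exact h3.trans h5
    refine (circleIntegral.norm_integral_le_of_norm_le_const hρ.le h1).trans ?_
    have h6 : ρ * (ρ ^ M / ρ ^ T) ≤ ρ ^ m := by
      rw [← mul_div_assoc, ← pow_succ', div_le_iff₀ (by positivity), ← pow_add]
      exact pow_le_pow_of_le_one hρ.le hρ1 hm
    calc 2 * Real.pi * ρ * (P * (C * ρ ^ M) / ρ ^ T)
        = 2 * Real.pi * (P * C) * (ρ * (ρ ^ M / ρ ^ T)) := by ring
      _ ≤ C' * ρ ^ m := by
          rw [hC']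
          gcongr
  refine ⟨C', δ' / 2, hC'0, by positivity, fun x hx => ?_⟩
  have hlt : ‖x - k‖ < δ' := lt_of_le_of_lt hx (by linarith)
  have h7 : Tendsto (fun ρ : ℝ => C' * ρ ^ m) (𝓝[>] ‖x - k‖) (𝓝 (C' * ‖x - k‖ ^ m)) :=
    (tendsto_nhdsWithin_of_tendsto_nhds (Continuous.tendsto (by fun_prop) _))
  refine ge_of_tendsto h7 ?_
  filter_upwards [Ioo_mem_nhdsGT hlt] with ρ hρ
  exact key x ρ (lt_of_le_of_lt (norm_nonneg _) hρ.1) hρ.2.le hρ.1.le

theorem van_sum {r : ℕ} {ι : Type} (s : Finset ι) {m : ℕ} {F : ι → (Fin r → ℂ) → ℂ}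
    {a : Fin r → ℂ} (h : ∀ i ∈ s, Van m (F i) a) : Van m (fun x => ∑ i ∈ s, F i x) a := by
  classical
  induction s using Finset.induction_on with
  | empty => exact ⟨0, 1, le_rfl, one_pos, fun z _ => by simp⟩
  | insert i s hi ih =>
    obtain ⟨C1, δ1, hC1, hδ1, h1⟩ := h i (Finset.mem_insert_self i s)
    obtain ⟨C2, δ2, hC2, hδ2, h2⟩ := ih fun j hj => h j (Finset.mem_insert_of_mem hj)
    refine ⟨C1 + C2, min δ1 δ2, by positivity, lt_min hδ1 hδ2, fun z hz => ?_⟩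
    simp only [Finset.sum_insert hi]
    refine (norm_add_le _ _).trans ?_
    rw [add_mul]
    exact add_le_add (h1 z (hz.trans (min_le_left _ _))) (h2 z (hz.trans (min_le_right _ _)))

theorem van_const_mul {r : ℕ} {m : ℕ} {F : (Fin r → ℂ) → ℂ} {a : Fin r → ℂ} (c : ℂ)
    (h : Van m F a) : Van m (fun x => c * F x) a := by
  obtain ⟨C, δ, hC, hδ, h⟩ := h
  refine ⟨‖c‖ * C, δ, by positivity, hδ, fun z hz => ?_⟩
  rw [norm_mul, mul_assoc]
  exact mul_le_mul_of_nonneg_left (h z hz) (norm_nonneg _)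

/-- The polynomial with zeros of order `T` at the integers of absolute value `≤ S`. -/
noncomputable def Q (S T : ℕ) : Polynomial ℂ :=
  ∏ n ∈ Finset.Icc (-(S : ℤ)) S, (Polynomial.X - Polynomial.C (n : ℂ)) ^ T

theorem eval_Q (S T : ℕ) (z : ℂ) :
    (Q S T).eval z = ∏ n ∈ Finset.Icc (-(S : ℤ)) S, (z - n) ^ T := by
  simp [Q, Polynomial.eval_prod]

theorem norm_int_le {S : ℕ} {n : ℤ} (hn : n ∈ Finset.Icc (-(S : ℤ)) S) : ‖(n : ℂ)‖ ≤ S := by
  rw [Complex.norm_intCast]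
  rw [Finset.mem_Icc] at hn
  have : |n| ≤ S := abs_le.2 hn
  exact_mod_cast this

theorem card_Icc (S : ℕ) : (Finset.Icc (-(S : ℤ)) S).card = 2 * S + 1 := by
  rw [Int.card_Icc]
  omega

theorem norm_Q_le {S T : ℕ} {z : ℂ} (hz : ‖z‖ ≤ 1) :
    ‖(Q S T).eval z‖ ≤ (1 + S : ℝ) ^ (T * (2 * S + 1)) := by
  rw [eval_Q, norm_prod, pow_mul, ← card_Icc S]
  rw [← Finset.prod_const]
  refine Finset.prod_le_prod (fun n _ => norm_nonneg _) fun n hn => ?_
  rw [norm_pow]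
  gcongr
  exact (norm_sub_le _ _).trans (add_le_add hz (norm_int_le hn))

theorem le_norm_Q {S T : ℕ} {z : ℂ} (hz : ‖z‖ = 8 * S) :
    (7 * S : ℝ) ^ (T * (2 * S + 1)) ≤ ‖(Q S T).eval z‖ := by
  rw [eval_Q, norm_prod, pow_mul, ← card_Icc S]
  rw [← Finset.prod_const]
  refine Finset.prod_le_prod (fun n _ => by positivity) fun n hn => ?_
  rw [norm_pow]
  gcongr
  have h1 := norm_sub_norm_le z (n : ℂ)
  have h2 := norm_int_le hn
  linarith

/-- Partial fractions. -/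
theorem partial_fractions (S T : ℕ) : ∃ μ : ℤ → Polynomial ℂ,
    ∀ z : ℂ, ∑ n ∈ Finset.Icc (-(S : ℤ)) S, (μ n).eval z *
      ∏ j ∈ Finset.Icc (-(S : ℤ)) S \ {n}, (z - j) ^ T = 1 := by
  classical
  have hne : (Finset.Icc (-(S : ℤ)) S).Nonempty := ⟨0, by simp⟩
  obtain ⟨μ, hμ⟩ := (exists_sum_eq_one_iff_pairwise_coprime (R := Polynomial ℂ) hne
    (s := fun n : ℤ => (Polynomial.X - Polynomial.C (n : ℂ)) ^ T)).2 (by
      intro a b hab
      refine IsCoprime.pow ?_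
      refine Polynomial.isCoprime_X_sub_C_of_isUnit_sub ?_
      rw [isUnit_iff_ne_zero, sub_ne_zero]
      intro h
      exact hab (Subtype.ext (by exact_mod_cast h)))
  refine ⟨μ, fun z => ?_⟩
  have h := congrArg (Polynomial.eval z) hμ
  simpa [Polynomial.eval_finsetSum, Polynomial.eval_prod] using h

theorem ratio_le {S T : ℕ} (hS : 1 ≤ S) (hT : 1 ≤ T) :
    (8 / 7 : ℝ) * ((1 + S : ℝ) ^ (T * (2 * S + 1)) / (7 * S : ℝ) ^ (T * (2 * S + 1))) ≤
      1 / 3 * (1 / 2) ^ (T * S) := by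
  have hS' : (1 : ℝ) ≤ S := by exact_mod_cast hS
  rw [← div_pow]
  have h1 : (1 + S : ℝ) / (7 * S) ≤ 2 / 7 := by
    rw [div_le_div_iff₀ (by positivity) (by norm_num)]
    linarith
  have h2 : ((1 + S : ℝ) / (7 * S)) ^ (T * (2 * S + 1)) ≤ (2 / 7) ^ (T * (2 * S + 1)) := by
    gcongr
  have h3 : (2 / 7 : ℝ) ^ (T * (2 * S + 1)) = ((2 / 7) ^ 2) ^ (T * S) * (2 / 7) ^ T := by
    rw [← pow_mul, ← pow_add]
    congr 1
    ring
  have h4 : ((2 / 7 : ℝ) ^ 2) ^ (T * S) ≤ (1 / 2) ^ (T * S) := by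
    gcongr
    norm_num
  have h5 : (2 / 7 : ℝ) ^ T ≤ 2 / 7 := by
    calc (2 / 7 : ℝ) ^ T ≤ (2 / 7) ^ 1 := pow_le_pow_of_le_one (by norm_num) (by norm_num) hT
      _ = 2 / 7 := pow_one _
  calc (8 / 7 : ℝ) * ((1 + S : ℝ) / (7 * S)) ^ (T * (2 * S + 1))
      ≤ 8 / 7 * (((2 / 7) ^ 2) ^ (T * S) * (2 / 7) ^ T) := by rw [← h3]; gcongr
    _ ≤ 8 / 7 * ((1 / 2) ^ (T * S) * (2 / 7)) := by gcongr
    _ ≤ 1 / 3 * (1 / 2) ^ (T * S) := by
        have : (0 : ℝ) < (1 / 2) ^ (T * S) := by positivity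
        linarith

/-- One step of the interpolation. -/
theorem step {r S T : ℕ} {f : (Fin (r + 1) → ℂ) → ℂ} (hf : Differentiable ℂ f) {B : ℝ}
    (hS : 1 ≤ S) (hT : 1 ≤ T) {m M : ℕ} (hm : m + T ≤ M + 1)
    (hv : ∀ k : Fin (r + 1) → ℤ, (∀ j, |k j| ≤ S) → Van M f (fun j => (k j : ℂ)))
    (hB : ∀ z, ‖z‖ ≤ 8 * S → ‖f z‖ ≤ B) {x₁ : ℂ} (hx₁ : ‖x₁‖ ≤ 1) :
    ∃ J R : (Fin r → ℂ) → ℂ, Differentiable ℂ J ∧ (∀ x, f (Fin.cons x₁ x) = J x + R x) ∧
      (∀ x, ‖x‖ ≤ 8 * S → ‖R x‖ ≤ B * (1 / 3 * (1 / 2) ^ (T * S))) ∧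
      ∀ k : Fin r → ℤ, (∀ j, |k j| ≤ S) → Van m J (fun j => (k j : ℂ)) := by
  have hS' : (1 : ℝ) ≤ S := by exact_mod_cast hS
  set ρ : ℝ := 8 * S with hρdef
  have hρ : 0 < ρ := by positivity
  have hB0 : 0 ≤ B := (norm_nonneg _).trans (hB 0 (by rw [norm_zero]; positivity))
  set q : ℂ → ℂ := fun z => (Q S T).eval z with hq
  have hqd : Differentiable ℂ q := (Q S T).differentiable
  have hq0 : ∀ ζ ∈ sphere (0 : ℂ) ρ, q ζ ≠ 0 := by
    intro ζ hζ h0
    rw [mem_sphere, dist_zero_right] at hζ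
    have h1 := le_norm_Q (T := T) hζ
    rw [show (Q S T).eval ζ = 0 from h0, norm_zero] at h1
    have : (0 : ℝ) < (7 * S : ℝ) ^ (T * (2 * S + 1)) := by positivity
    linarith
  have hx0 : ∀ ζ ∈ sphere (0 : ℂ) ρ, ζ - x₁ ≠ 0 := by
    intro ζ hζ h0
    rw [sub_eq_zero] at h0
    rw [mem_sphere, dist_zero_right, h0] at hζ
    linarith
  have hball : x₁ ∈ ball (0 : ℂ) ρ := by
    rw [mem_ball, dist_zero_right]
    linarith
  -- the function of the first variable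
  have hfd : ∀ x : Fin r → ℂ, Differentiable ℂ fun ζ : ℂ => f (Fin.cons ζ x) := fun x =>
    hf.comp (differentiable_cons.comp (differentiable_const x |>.prodMk differentiable_id))
  set R : (Fin r → ℂ) → ℂ := fun x => (2 * Real.pi * Complex.I)⁻¹ *
    ∮ ζ in C(0, ρ), q x₁ / (q ζ * (ζ - x₁)) * f (Fin.cons ζ x) with hR
  have hRd : Differentiable ℂ R := by
    intro x
    have h1 : Holo (fun x : Fin r → ℂ => ∮ ζ in C(0, ρ), q x₁ / (q ζ * (ζ - x₁)) *
        f (Fin.cons ζ x)) x := by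
      refine specParam (Fin r → ℂ) (fun y => q x₁ / (q y.2 * (y.2 - x₁)) *
        f (Fin.cons y.2 y.1)) x 0 ρ hρ fun ζ hζ => ?_
      refine HoloApi.mul (HoloApi.div (HoloApi.const _) ?_ ?_) ?_
      · refine HoloApi.of_differentiable ?_
        exact (hqd.comp differentiable_snd).mul (differentiable_snd.sub_const _)
      · exact mul_ne_zero (hq0 ζ hζ) (hx0 ζ hζ)
      · exact HoloApi.of_differentiable (hf.comp differentiable_cons)
    exact (HoloApi.diffAt h1).const_mul _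
  have hCauchy : ∀ x : Fin r → ℂ, f (Fin.cons x₁ x) = (2 * Real.pi * Complex.I)⁻¹ *
      ∮ ζ in C(0, ρ), (ζ - x₁)⁻¹ * f (Fin.cons ζ x) := by
    intro x
    have h1 := (hfd x).diffContOnCl (s := ball 0 ρ)
      |>.two_pi_i_inv_smul_circleIntegral_sub_inv_smul hball
    simp only [smul_eq_mul] at h1
    exact h1.symm
  refine ⟨fun x => f (Fin.cons x₁ x) - R x, R, ?_, fun x => by ring, ?_, ?_⟩
  · refine Differentiable.fun_sub (hf.comp ?_) hRd
    exact differentiable_cons.comp (differentiable_id.prodMk (differentiable_const x₁))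
  · -- the estimate of the remainder
    intro x hx
    have h1 : ∀ ζ ∈ sphere (0 : ℂ) ρ, ‖q x₁ / (q ζ * (ζ - x₁)) * f (Fin.cons ζ x)‖ ≤
        (1 + S : ℝ) ^ (T * (2 * S + 1)) / ((7 * S : ℝ) ^ (T * (2 * S + 1)) * (7 * S)) * B := by
      intro ζ hζ
      rw [mem_sphere, dist_zero_right] at hζ
      rw [norm_mul, norm_div, norm_mul]
      have h2 := le_norm_Q (T := T) hζ
      have h3 := norm_Q_le (S := S) (T := T) hx₁
      have h4 : (7 * S : ℝ) ≤ ‖ζ - x₁‖ := by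
        have := norm_sub_norm_le ζ x₁
        linarith
      have h5 : ‖f (Fin.cons ζ x)‖ ≤ B := by
        apply hB
        rw [norm_cons_le (by positivity)]
        exact ⟨hζ.le, hx⟩
      have h6 : (0 : ℝ) < (7 * S : ℝ) ^ (T * (2 * S + 1)) := by positivity
      gcongr
    have h7 := circleIntegral.norm_two_pi_i_inv_smul_integral_le_of_norm_le_const hρ.le h1
    rw [smul_eq_mul] at h7
    refine h7.trans ?_
    have h8 := ratio_le hS hT
    calc ρ * ((1 + S : ℝ) ^ (T * (2 * S + 1)) / ((7 * S : ℝ) ^ (T * (2 * S + 1)) * (7 * S)) * B)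
        = B * ((8 / 7 : ℝ) * ((1 + S : ℝ) ^ (T * (2 * S + 1)) /
          (7 * S : ℝ) ^ (T * (2 * S + 1)))) := by
            rw [hρdef]
            field_simp
      _ ≤ B * (1 / 3 * (1 / 2) ^ (T * S)) := by gcongr
  · -- the order of vanishing
    intro k hk
    obtain ⟨μ, hμ⟩ := partial_fractions S T
    obtain ⟨K, hK⟩ := Polynomial.X_sub_C_dvd_sub_C_eval (p := Q S T) (a := x₁)
    have hKe : ∀ ζ : ℂ, q ζ - q x₁ = (ζ - x₁) * K.eval ζ := by
      intro ζ
      have := congrArg (Polynomial.eval ζ) hK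
      simpa using this
    have hnode : ∀ n ∈ Finset.Icc (-(S : ℤ)) S, (n : ℂ) ∈ ball (0 : ℂ) ρ := by
      intro n hn
      rw [mem_ball, dist_zero_right]
      exact (norm_int_le hn).trans_lt (by rw [hρdef]; linarith)
    have hne : ∀ ζ ∈ sphere (0 : ℂ) ρ, ∀ n ∈ Finset.Icc (-(S : ℤ)) S, ζ - (n : ℂ) ≠ 0 := by
      intro ζ hζ n hn h0
      have h1 := hnode n hn
      rw [sub_eq_zero] at h0
      rw [h0, mem_sphere] at hζ
      rw [mem_ball] at h1
      linarith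
    have hpf : ∀ ζ ∈ sphere (0 : ℂ) ρ, (ζ - x₁)⁻¹ - q x₁ / (q ζ * (ζ - x₁)) =
        ∑ n ∈ Finset.Icc (-(S : ℤ)) S, K.eval ζ * (μ n).eval ζ / (ζ - n) ^ T := by
      intro ζ hζ
      have h1 := hq0 ζ hζ
      have h2 := hx0 ζ hζ
      have h3 : (ζ - x₁)⁻¹ - q x₁ / (q ζ * (ζ - x₁)) = K.eval ζ / q ζ := by
        field_simp
        rw [hKe ζ]
      rw [h3]
      have h4 : K.eval ζ / q ζ = ∑ n ∈ Finset.Icc (-(S : ℤ)) S, K.eval ζ / q ζ * ((μ n).eval ζ *
          ∏ j ∈ Finset.Icc (-(S : ℤ)) S \ {n}, (ζ - j) ^ T) := by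
        rw [← Finset.mul_sum, hμ ζ, mul_one]
      rw [h4]
      refine Finset.sum_congr rfl fun n hn => ?_
      have h5 : q ζ = (ζ - n) ^ T * ∏ j ∈ Finset.Icc (-(S : ℤ)) S \ {n}, (ζ - j) ^ T := by
        rw [hq]
        simp only
        rw [eval_Q, Finset.prod_eq_mul_prod_sdiff_singleton_of_mem hn]
      have h6 : (∏ j ∈ Finset.Icc (-(S : ℤ)) S \ {n}, (ζ - (j : ℂ)) ^ T) ≠ 0 := by
        rw [h5] at h1
        exact right_ne_zero_of_mul h1
      have h7 : (ζ - (n : ℂ)) ^ T ≠ 0 := pow_ne_zero _ (hne ζ hζ n hn)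
      rw [h5]
      field_simp
    have hJ : ∀ x : Fin r → ℂ, f (Fin.cons x₁ x) - R x = (2 * Real.pi * Complex.I)⁻¹ *
        ∑ n ∈ Finset.Icc (-(S : ℤ)) S, ∮ ζ in C(0, ρ),
          (K.eval ζ * (μ n).eval ζ) * f (Fin.cons ζ x) / (ζ - n) ^ T := by
      intro x
      rw [hCauchy x, hR]
      simp only
      rw [← mul_sub]
      congr 1
      have hfc : ContinuousOn (fun ζ => f (Fin.cons ζ x)) (sphere (0 : ℂ) ρ) :=
        (hfd x).continuous.continuousOn
      have h1 : ContinuousOn (fun ζ => (ζ - x₁)⁻¹ * f (Fin.cons ζ x)) (sphere (0 : ℂ) ρ) :=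
        (ContinuousOn.inv₀ (by fun_prop) hx0).mul hfc
      have h2 : ContinuousOn (fun ζ => q x₁ / (q ζ * (ζ - x₁)) * f (Fin.cons ζ x))
          (sphere (0 : ℂ) ρ) := by
        refine ContinuousOn.mul (ContinuousOn.div continuousOn_const ?_ fun ζ hζ =>
          mul_ne_zero (hq0 ζ hζ) (hx0 ζ hζ)) hfc
        exact hqd.continuous.continuousOn.mul (by fun_prop)
      rw [← circleIntegral.integral_sub (h1.circleIntegrable hρ.le) (h2.circleIntegrable hρ.le)]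
      have h3 : ∀ n ∈ Finset.Icc (-(S : ℤ)) S, CircleIntegrable (fun ζ =>
          (K.eval ζ * (μ n).eval ζ) * f (Fin.cons ζ x) / (ζ - n) ^ T) 0 ρ := by
        intro n hn
        refine ContinuousOn.circleIntegrable hρ.le ?_
        refine ContinuousOn.div (ContinuousOn.mul ?_ hfc) (by fun_prop) fun ζ hζ =>
          pow_ne_zero _ (hne ζ hζ n hn)
        exact (K.continuous.mul (μ n).continuous).continuousOn
      rw [← circleIntegral.integral_fun_sum h3]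
      refine circleIntegral.integral_congr hρ.le fun ζ hζ => ?_
      rw [← sub_mul, hpf ζ hζ, Finset.sum_mul]
      refine Finset.sum_congr rfl fun n _ => ?_
      ring
    have hJ' : (fun x : Fin r → ℂ => f (Fin.cons x₁ x) - R x) = fun x =>
        (2 * Real.pi * Complex.I)⁻¹ * ∑ n ∈ Finset.Icc (-(S : ℤ)) S, ∮ ζ in C(0, ρ),
          (K.eval ζ * (μ n).eval ζ) * f (Fin.cons ζ x) / (ζ - n) ^ T := funext hJ
    rw [hJ']
    refine van_const_mul _ (van_sum _ fun n hn => ?_)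
    refine van_coef hf (p := fun ζ => K.eval ζ * (μ n).eval ζ)
      (K.differentiable.mul (μ n).differentiable) hm (hnode n hn) ?_
    have h1 := hv (Fin.cons n k) ?_
    · convert h1 using 1
      ext j
      refine Fin.cases ?_ (fun j => ?_) j <;> simp
    · intro j
      refine Fin.cases ?_ (fun j => ?_) j
      · simp only [Fin.cons_zero]
        rw [Finset.mem_Icc] at hn
        exact abs_le.2 hn
      · simpa using hk j

theorem main_aux {S T : ℕ} (hS : 1 ≤ S) (hT : 1 ≤ T) (r : ℕ) {f : (Fin r → ℂ) → ℂ}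
    (hf : Differentiable ℂ f) {B : ℝ} {M : ℕ} (hM : r * T + 1 ≤ M)
    (hv : ∀ k : Fin r → ℤ, (∀ j, |k j| ≤ S) → Van M f (fun j => (k j : ℂ)))
    (hB : ∀ z, ‖z‖ ≤ 8 * S → ‖f z‖ ≤ B) (z : Fin r → ℂ) (hz : ‖z‖ ≤ 1) :
    ‖f z‖ ≤ (2 ^ r - 1) * B * (1 / 2 : ℝ) ^ (T * S) := by
  have hS' : (1 : ℝ) ≤ S := by exact_mod_cast hS
  induction r generalizing B M with
  | zero =>
    obtain ⟨C, δ, _, hδ, h⟩ := hv (fun j => j.elim0) fun j => j.elim0
    have h1 : z - (fun j : Fin 0 => (((fun j => j.elim0 : Fin 0 → ℤ) j : ℤ) : ℂ)) = 0 :=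
      Subsingleton.elim _ _
    have h2 := h z (by rw [h1, norm_zero]; exact hδ.le)
    rw [h1, norm_zero, zero_pow (by omega), mul_zero] at h2
    simpa using h2
  | succ r ih =>
    rcases Nat.exists_eq_add_of_le hM with ⟨e, he⟩
    have hz' : ‖(Fin.cons (z 0) (Fin.tail z) : Fin (r + 1) → ℂ)‖ ≤ 1 := by
      rwa [Fin.cons_self_tail]
    rw [norm_cons_le zero_le_one] at hz'
    obtain ⟨J, R, hJd, hJR, hR, hJv⟩ := step hf hS hT (m := r * T + 1) (M := M)
      (by rw [add_mul] at hM; omega) hv hB hz'.1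
    have hB0 : 0 ≤ B := (norm_nonneg _).trans (hB 0 (by rw [norm_zero]; positivity))
    have hJB : ∀ x, ‖x‖ ≤ 8 * S → ‖J x‖ ≤ 4 / 3 * B := by
      intro x hx
      have h1 : J x = f (Fin.cons (z 0) x) - R x := by rw [hJR]; ring
      rw [h1]
      refine (norm_sub_le _ _).trans ?_
      have h2 : ‖f (Fin.cons (z 0) x)‖ ≤ B := by
        apply hB
        rw [norm_cons_le (by positivity)]
        exact ⟨hz'.1.trans (by linarith), hx⟩
      have h3 := hR x hx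
      have h4 : (1 / 2 : ℝ) ^ (T * S) ≤ 1 := pow_le_one₀ (by norm_num) (by norm_num)
      have h5 : B * (1 / 3 * (1 / 2 : ℝ) ^ (T * S)) ≤ B * (1 / 3 * 1) := by gcongr
      linarith
    have h6 := ih hJd le_rfl hJv hJB (Fin.tail z) hz'.2
    have h7 := hR (Fin.tail z) (hz'.2.trans (by linarith))
    have h8 : f z = J (Fin.tail z) + R (Fin.tail z) := by
      rw [← hJR, Fin.cons_self_tail]
    rw [h8]
    refine (norm_add_le _ _).trans ((add_le_add h6 h7).trans ?_)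
    have h9 : (0 : ℝ) < (1 / 2) ^ (T * S) := by positivity
    have h10 : (1 : ℝ) ≤ 2 ^ r := one_le_pow₀ (by norm_num)
    have h11 : (2 ^ r - 1) * (4 / 3 * B) + B * (1 / 3) ≤ (2 ^ (r + 1) - 1) * B := by
      rw [pow_succ]
      nlinarith
    calc (2 ^ r - 1) * (4 / 3 * B) * (1 / 2 : ℝ) ^ (T * S) + B * (1 / 3 * (1 / 2) ^ (T * S))
        = ((2 ^ r - 1) * (4 / 3 * B) + B * (1 / 3)) * (1 / 2 : ℝ) ^ (T * S) := by ring
      _ ≤ (2 ^ (r + 1) - 1) * B * (1 / 2 : ℝ) ^ (T * S) := by gcongr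

/-- The Schwarz lemma in terms of `Van`. -/
theorem schwarz {S T : ℕ} (hS : 1 ≤ S) {r : ℕ} (hr : 0 < r) {f : (Fin r → ℂ) → ℂ}
    (hf : Differentiable ℂ f) {B : ℝ}
    (hv : ∀ k : Fin r → ℤ, (∀ j, |k j| ≤ S) → Van (r * T) f (fun j => (k j : ℂ)))
    (hB : ∀ z, ‖z‖ ≤ 8 * S → ‖f z‖ ≤ B) (z : Fin r → ℂ) (hz : ‖z‖ ≤ 1) :
    ‖f z‖ ≤ 2 ^ r * B * (1 / 2 : ℝ) ^ (T * S) := by
  have hS' : (1 : ℝ) ≤ S := by exact_mod_cast hS
  have hB0 : 0 ≤ B := (norm_nonneg _).trans (hB 0 (by rw [norm_zero]; positivity))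
  rcases Nat.eq_zero_or_pos T with rfl | hT
  · rw [zero_mul, pow_zero, mul_one]
    have h10 : (1 : ℝ) ≤ 2 ^ r := one_le_pow₀ (by norm_num)
    exact (hB z (hz.trans (by linarith))).trans (le_mul_of_one_le_left hB0 h10)
  obtain ⟨r, rfl⟩ := Nat.exists_eq_succ_of_ne_zero hr.ne'
  have hz' : ‖(Fin.cons (z 0) (Fin.tail z) : Fin (r + 1) → ℂ)‖ ≤ 1 := by
    rwa [Fin.cons_self_tail]
  rw [norm_cons_le zero_le_one] at hz'
  obtain ⟨J, R, hJd, hJR, hR, hJv⟩ := step hf hS hT (m := r * T + 1) (M := (r + 1) * T)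
    (by rw [add_mul]; omega) hv hB hz'.1
  have hJB : ∀ x, ‖x‖ ≤ 8 * S → ‖J x‖ ≤ 4 / 3 * B := by
    intro x hx
    have h1 : J x = f (Fin.cons (z 0) x) - R x := by rw [hJR]; ring
    rw [h1]
    refine (norm_sub_le _ _).trans ?_
    have h2 : ‖f (Fin.cons (z 0) x)‖ ≤ B := by
      apply hB
      rw [norm_cons_le (by positivity)]
      exact ⟨hz'.1.trans (by linarith), hx⟩
    have h3 := hR x hx
    have h4 : (1 / 2 : ℝ) ^ (T * S) ≤ 1 := pow_le_one₀ (by norm_num) (by norm_num)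
    have h5 : B * (1 / 3 * (1 / 2 : ℝ) ^ (T * S)) ≤ B * (1 / 3 * 1) := by gcongr
    linarith
  have h6 := main_aux hS hT r hJd le_rfl hJv hJB (Fin.tail z) hz'.2
  have h7 := hR (Fin.tail z) (hz'.2.trans (by linarith))
  have h8 : f z = J (Fin.tail z) + R (Fin.tail z) := by
    rw [← hJR, Fin.cons_self_tail]
  rw [h8]
  refine (norm_add_le _ _).trans ((add_le_add h6 h7).trans ?_)
  have h9 : (0 : ℝ) < (1 / 2) ^ (T * S) := by positivity
  have h10 : (1 : ℝ) ≤ 2 ^ r := one_le_pow₀ (by norm_num)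
  have h11 : (2 ^ r - 1) * (4 / 3 * B) + B * (1 / 3) ≤ 2 ^ (r + 1) * B := by
    rw [pow_succ]
    nlinarith
  calc (2 ^ r - 1) * (4 / 3 * B) * (1 / 2 : ℝ) ^ (T * S) + B * (1 / 3 * (1 / 2) ^ (T * S))
      = ((2 ^ r - 1) * (4 / 3 * B) + B * (1 / 3)) * (1 / 2 : ℝ) ^ (T * S) := by ring
    _ ≤ 2 ^ (r + 1) * B * (1 / 2 : ℝ) ^ (T * S) := by gcongr

/-- Module SCHW. -/
theorem specSCHW : SpecSCHW := by
  intro r f S T B hr hS hf hv hB z hz
  refine schwarz hS hr hf (fun k hk => ?_) hB z hz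
  obtain ⟨C, hC0, hC⟩ := HolM.van_of_deriv hf (fun j => (k j : ℂ)) (r * T) (hv k hk)
  exact ⟨C, 1 / 2, hC0, by norm_num, hC⟩

end Pool.Agent.Lib.MPf11a48.U.SchwM
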