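import Pool.Agent.Lib.MP_f11a48_ag.U.SpecAna
import Pool.Agent.Lib.MP_f11a48_ag.U.Osgood
import Pool.Agent.Lib.MP_f11a48_ag.U.Schw

/-!
# Project U, modules ANA and ORD: the analytic half of module TL
-/

set_option autoImplicit false

open MvPolynomial Pool.Agent.Lib.MPf11a48.CM Filter Topology Asymptotics Metric

namespace Pool.Agent.Lib.MPf11a48.U

namespace AnaM

/-! ## Polynomials in the functions -/

section

variable {r : ℕ} {I : Type} [Fintype I] {A₀ : (Fin r → ℂ) → ℂ} {A : I → (Fin r → ℂ) → ℂ}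
  {lam v : Fin r → (Fin r → ℂ)}

/-- The values of the functions. -/
noncomputable def FF (A₀ : (Fin r → ℂ) → ℂ) (A : I → (Fin r → ℂ) → ℂ) (z : Fin r → ℂ) (k : I) :
    ℂ := A k z / A₀ z

theorem deriv_aeval (h : PerData A₀ A lam v) {p : I → Fin r → MvPolynomial I ℂ}
    (hp : Ders A₀ A v p) {z : Fin r → ℂ} (hz : A₀ z ≠ 0) (Q : MvPolynomial I ℂ) :
    DifferentiableAt ℂ (fun z => aeval (FF A₀ A z) Q) z ∧
    ∀ j, fderiv ℂ (fun z => aeval (FF A₀ A z) Q) z (v j) =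
      aeval (FF A₀ A z) (mkDerivation ℂ (fun i => p i j) Q) := by
  have hF : ∀ k, DifferentiableAt ℂ (fun z => FF A₀ A z k) z := fun k => by
    simp only [FF, div_eq_mul_inv]
    exact ((h.diff k) z).mul ((h.diff₀ z).inv hz)
  induction Q using MvPolynomial.induction_on with
  | C a =>
    simp only [aeval_C, Algebra.algebraMap_self, RingHom.id_apply]
    refine ⟨differentiableAt_const a, fun j => ?_⟩
    rw [derivation_C, map_zero, fderiv_fun_const]
    rfl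
  | add P Q hP hQ =>
    simp only [map_add]
    refine ⟨hP.1.add hQ.1, fun j => ?_⟩
    rw [fderiv_fun_add hP.1 hQ.1, add_apply, hP.2 j, hQ.2 j]
  | mul_X P i hP =>
    simp only [map_mul, aeval_X]
    refine ⟨hP.1.mul (hF i), fun j => ?_⟩
    rw [fderiv_fun_mul hP.1 (hF i), Derivation.leibniz, mkDerivation_X, add_apply,
      _root_.smul_apply, _root_.smul_apply, hP.2 j]
    have h1 : fderiv ℂ (fun z => FF A₀ A z i) z (v j) = aeval (FF A₀ A z) (p i j) := hp i j z hz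
    rw [h1]
    simp only [smul_eq_mul, map_add, map_mul, aeval_X]

end

/-! ## Vanishing -/

theorem bigO_succ {E : Type} [NormedAddCommGroup E] [NormedSpace ℂ E] {f : E → ℂ} {k : ℕ}
    (hd : ∀ᶠ z in 𝓝 (0 : E), DifferentiableAt ℂ f z) (h0 : f 0 = 0)
    (h : (fun z => fderiv ℂ f z) =O[𝓝 0] (fun z : E => ‖z‖ ^ k)) :
    f =O[𝓝 0] (fun z : E => ‖z‖ ^ (k + 1)) := by
  obtain ⟨C, hC0, hC⟩ := h.exists_pos
  have h3 := hC.bound.and hd
  obtain ⟨ε, hε, hb⟩ := Metric.eventually_nhds_iff_ball.1 h3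
  refine IsBigO.of_bound C ?_
  filter_upwards [ball_mem_nhds (0 : E) hε] with x hx
  rw [mem_ball_zero_iff] at hx
  have h1 : ∀ y ∈ closedBall (0 : E) ‖x‖, ‖fderiv ℂ f y‖ ≤ C * ‖x‖ ^ k := by
    intro y hy
    rw [mem_closedBall_zero_iff] at hy
    have h4 := (hb y (mem_ball_zero_iff.2 (lt_of_le_of_lt hy hx))).1
    rw [norm_pow, norm_norm] at h4
    exact h4.trans (mul_le_mul_of_nonneg_left (pow_le_pow_left₀ (norm_nonneg _) hy _) hC0.le)
  have h2 := Convex.norm_image_sub_le_of_norm_fderiv_le (𝕜 := ℂ) (f := f) (x := 0) (y := x)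
    (fun y hy => (hb y (mem_ball_zero_iff.2
      (lt_of_le_of_lt (mem_closedBall_zero_iff.1 hy) hx))).2) h1
    (convex_closedBall (0 : E) ‖x‖) (mem_closedBall_self (norm_nonneg _))
    (mem_closedBall_zero_iff.2 le_rfl)
  rw [h0, sub_zero, sub_zero] at h2
  rw [norm_pow, norm_norm, pow_succ, ← mul_assoc]
  exact h2

theorem exists_basis_bound {r : ℕ} {v : Fin r → (Fin r → ℂ)} (hv : LinearIndependent ℂ v) :
    ∃ C : ℝ, 0 < C ∧ ∀ (u : (Fin r → ℂ) →L[ℂ] ℂ) (M : ℝ), 0 ≤ M → (∀ j, ‖u (v j)‖ ≤ M) →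
      ‖u‖ ≤ C * M := by
  rcases Nat.eq_zero_or_pos r with rfl | hr
  · refine ⟨1, one_pos, fun u M hM _ => ?_⟩
    have : u = 0 := by
      ext x
      rw [Subsingleton.elim x 0, map_zero, map_zero]
    rw [this, norm_zero, one_mul]
    exact hM
  · have : Nonempty (Fin r) := ⟨⟨0, hr⟩⟩
    obtain ⟨C, hC, h⟩ := (basisOfLinearIndependentOfCardEqFinrank hv
      (by simp)).exists_opNorm_le (F := ℂ)
    refine ⟨C, hC, fun u M hM hu => h hM fun j => ?_⟩
    rw [coe_basisOfLinearIndependentOfCardEqFinrank]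
    exact hu j

section

variable {r : ℕ} {I : Type} [Fintype I] {A₀ : (Fin r → ℂ) → ℂ} {A : I → (Fin r → ℂ) → ℂ}
  {lam v : Fin r → (Fin r → ℂ)}

theorem ev_ne (h : PerData A₀ A lam v) : ∀ᶠ z in 𝓝 (0 : Fin r → ℂ), A₀ z ≠ 0 :=
  h.diff₀.continuous.continuousAt.eventually_ne h.zero

theorem van_word (h : PerData A₀ A lam v) {p : I → Fin r → MvPolynomial I ℂ}
    (hp : Ders A₀ A v p) (P : MvPolynomial I ℂ) (k : ℕ) : ∀ w : List (Fin r),
    (∀ u : List (Fin r), u.length < k → aeval (FF A₀ A 0) (dW p (u ++ w) P) = 0) →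
    (fun z => aeval (FF A₀ A z) (dW p w P)) =O[𝓝 0] (fun z : Fin r → ℂ => ‖z‖ ^ k) := by
  have hdiff : ∀ w : List (Fin r), ∀ᶠ z in 𝓝 (0 : Fin r → ℂ),
      DifferentiableAt ℂ (fun z => aeval (FF A₀ A z) (dW p w P)) z := by
    intro w
    filter_upwards [ev_ne h] with z hz
    exact (deriv_aeval h hp hz _).1
  induction k with
  | zero =>
    intro w _
    simp only [pow_zero]
    exact ((hdiff w).self_of_nhds.continuousAt.norm.isBoundedUnder_le).isBigO_one ℝ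
  | succ k ih =>
    intro w hw
    obtain ⟨C, hC, hb⟩ := exists_basis_bound h.v_indep
    refine bigO_succ (hdiff w) (by simpa using hw [] (Nat.succ_pos k)) ?_
    have h1 : ∀ j : Fin r, (fun z => aeval (FF A₀ A z) (dW p (j :: w) P)) =O[𝓝 0]
        (fun z : Fin r → ℂ => ‖z‖ ^ k) := by
      intro j
      refine ih (j :: w) fun u hu => ?_
      have := hw (u ++ [j]) (by simp only [List.length_append, List.length_singleton]; omega)
      simpa using this
    choose c hc0 hc using fun j => (h1 j).exists_pos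
    have hev : ∀ᶠ z in 𝓝 (0 : Fin r → ℂ), ∀ j, ‖aeval (FF A₀ A z) (dW p (j :: w) P)‖ ≤
        c j * ‖‖z‖ ^ k‖ := eventually_all.2 fun j => (hc j).bound
    refine IsBigO.of_bound (C * ∑ j, c j) ?_
    filter_upwards [hev, ev_ne h] with z hz hz0
    have h2 : 0 ≤ ∑ j, c j := Finset.sum_nonneg fun j _ => (hc0 j).le
    rw [mul_assoc]
    refine hb _ _ (by positivity) fun j => ?_
    rw [(deriv_aeval h hp hz0 _).2 j]
    refine (hz j).trans (mul_le_mul_of_nonneg_right ?_ (norm_nonneg _))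
    exact Finset.single_le_sum (f := c) (fun i _ => (hc0 i).le) (Finset.mem_univ j)

/-! ## Homogenization -/

/-- `A₀ ^ D * P(A / A₀)`. -/
noncomputable def Psi (A₀ : (Fin r → ℂ) → ℂ) (A : I → (Fin r → ℂ) → ℂ) (D : ℕ)
    (P : MvPolynomial I ℂ) (z : Fin r → ℂ) : ℂ :=
  ∑ m ∈ P.support, P.coeff m * (A₀ z ^ (D - ∑ i, m i) * ∏ i, A i z ^ m i)

theorem deg_le {P : MvPolynomial I ℂ} {D : ℕ} (hD : P.totalDegree ≤ D) {m : I →₀ ℕ}
    (hm : m ∈ P.support) : ∑ i, m i ≤ D := by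
  refine le_trans ?_ ((le_totalDegree hm).trans hD)
  rw [Finsupp.sum_fintype _ _ fun _ => rfl]

theorem Psi_eq {P : MvPolynomial I ℂ} {D : ℕ} (hD : P.totalDegree ≤ D) {z : Fin r → ℂ}
    (hz : A₀ z ≠ 0) : Psi A₀ A D P z = A₀ z ^ D * aeval (FF A₀ A z) P := by
  rw [aeval_def, eval₂_eq', Psi, Finset.mul_sum]
  refine Finset.sum_congr rfl fun m hm => ?_
  have h1 := deg_le hD hm
  simp only [FF, div_pow, Finset.prod_div_distrib, Finset.prod_pow_eq_pow_sum,
    Algebra.algebraMap_self, RingHom.id_apply]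
  have h2 : A₀ z ^ D = A₀ z ^ (D - ∑ i, m i) * A₀ z ^ (∑ i, m i) := by
    rw [← pow_add]
    congr 1
    omega
  rw [h2]
  have h3 : A₀ z ^ (∑ i, m i) ≠ 0 := pow_ne_zero _ hz
  field_simp

theorem Psi_diff (h : PerData A₀ A lam v) (D : ℕ) (P : MvPolynomial I ℂ) :
    Differentiable ℂ (Psi A₀ A D P) := by
  unfold Psi
  refine Differentiable.fun_sum fun m _ => ?_
  refine (differentiable_const _).mul ((h.diff₀.pow _).mul ?_)
  classical
  refine Finset.induction_on (Finset.univ : Finset I) ?_ ?_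
  · simp only [Finset.prod_empty]
    exact differentiable_const _
  · intro i s hi ih
    simp only [Finset.prod_insert hi]
    exact ((h.diff i).fun_pow _).mul ih

theorem norm_Psi_le {P : MvPolynomial I ℂ} {D : ℕ} (hD : P.totalDegree ≤ D) {z : Fin r → ℂ}
    {E : ℝ} (h0 : ‖A₀ z‖ ≤ E) (h1 : ∀ i, ‖A i z‖ ≤ E) :
    ‖Psi A₀ A D P z‖ ≤ (∑ m ∈ P.support, ‖P.coeff m‖) * E ^ D := by
  rw [Finset.sum_mul]
  refine (norm_sum_le _ _).trans (Finset.sum_le_sum fun m hm => ?_)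
  rw [norm_mul]
  refine mul_le_mul_of_nonneg_left ?_ (norm_nonneg _)
  have h2 := deg_le hD hm
  have h3 : E ^ D = E ^ (D - ∑ i, m i) * ∏ i, E ^ m i := by
    rw [Finset.prod_pow_eq_pow_sum, ← pow_add]
    congr 1
    omega
  rw [norm_mul, norm_pow, norm_prod, h3]
  have hE : 0 ≤ E := (norm_nonneg _).trans h0
  refine mul_le_mul (pow_le_pow_left₀ (norm_nonneg _) h0 _) ?_ (by positivity) (by positivity)
  refine Finset.prod_le_prod (fun i _ => norm_nonneg _) fun i _ => ?_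
  rw [norm_pow]
  exact pow_le_pow_left₀ (norm_nonneg _) (h1 i) _

/-! ## Periods -/

/-- `μ` is a period (with an automorphy factor). -/
def Per (A₀ : (Fin r → ℂ) → ℂ) (A : I → (Fin r → ℂ) → ℂ) (μ : Fin r → ℂ) : Prop :=
  ∃ e : (Fin r → ℂ) → ℂ, (∀ z, e z ≠ 0) ∧ (∀ z, A₀ (z + μ) = e z * A₀ z) ∧
    ∀ i z, A i (z + μ) = e z * A i z

omit [Fintype I] in
theorem Per.zero : Per A₀ A 0 := ⟨fun _ => 1, fun _ => one_ne_zero, by simp, by simp⟩

omit [Fintype I] in
theorem Per.add {μ ν : Fin r → ℂ} (h1 : Per A₀ A μ) (h2 : Per A₀ A ν) : Per A₀ A (μ + ν) := by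
  obtain ⟨e, he, h3, h4⟩ := h1
  obtain ⟨f, hf, h5, h6⟩ := h2
  refine ⟨fun z => f (z + μ) * e z, fun z => mul_ne_zero (hf _) (he _), fun z => ?_,
    fun i z => ?_⟩
  · rw [← add_assoc, h5, h3, mul_assoc]
  · rw [← add_assoc, h6, h4, mul_assoc]

omit [Fintype I] in
theorem Per.neg {μ : Fin r → ℂ} (h1 : Per A₀ A μ) : Per A₀ A (-μ) := by
  obtain ⟨e, he, h3, h4⟩ := h1
  refine ⟨fun z => (e (z + -μ))⁻¹, fun z => inv_ne_zero (he _), fun z => ?_, fun i z => ?_⟩
  · have := h3 (z + -μ)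
    rw [neg_add_cancel_right] at this
    rw [this, inv_mul_cancel_left₀ (he _)]
  · have := h4 i (z + -μ)
    rw [neg_add_cancel_right] at this
    rw [this, inv_mul_cancel_left₀ (he _)]

omit [Fintype I] in
theorem Per.zsmul {μ : Fin r → ℂ} (h1 : Per A₀ A μ) (k : ℤ) : Per A₀ A ((k : ℂ) • μ) := by
  have hn : ∀ n : ℕ, Per A₀ A ((n : ℂ) • μ) := by
    intro n
    induction n with
    | zero => simpa using Per.zero
    | succ n ih =>
      rw [Nat.cast_succ, add_smul, one_smul]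
      exact ih.add h1
  obtain ⟨n, rfl | rfl⟩ := k.eq_nat_or_neg
  · simpa using hn n
  · have := (hn n).neg
    simpa using this

omit [Fintype I] in
theorem Per.sum {ι : Type} (s : Finset ι) {μ : ι → Fin r → ℂ} (h : ∀ i ∈ s, Per A₀ A (μ i)) :
    Per A₀ A (∑ i ∈ s, μ i) := by
  classical
  induction s using Finset.induction_on with
  | empty => simpa using Per.zero
  | insert a s ha ih =>
    rw [Finset.sum_insert ha]
    exact (h a (Finset.mem_insert_self a s)).add (ih fun i hi => h i (Finset.mem_insert_of_mem hi))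

theorem Psi_add {μ : Fin r → ℂ} {e : (Fin r → ℂ) → ℂ} (h0 : ∀ z, A₀ (z + μ) = e z * A₀ z)
    (h1 : ∀ i z, A i (z + μ) = e z * A i z) {P : MvPolynomial I ℂ} {D : ℕ}
    (hD : P.totalDegree ≤ D) (z : Fin r → ℂ) :
    Psi A₀ A D P (z + μ) = e z ^ D * Psi A₀ A D P z := by
  rw [Psi, Psi, Finset.mul_sum]
  refine Finset.sum_congr rfl fun m hm => ?_
  have h2 := deg_le hD hm
  have h3 : e z ^ D = e z ^ (D - ∑ i, m i) * ∏ i, e z ^ m i := by
    rw [Finset.prod_pow_eq_pow_sum, ← pow_add]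
    congr 1
    omega
  simp only [h0, h1, mul_pow, Finset.prod_mul_distrib]
  rw [h3]
  ring

theorem Psi_van (h : PerData A₀ A lam v) {μ : Fin r → ℂ} (hμ : Per A₀ A μ)
    {P : MvPolynomial I ℂ} {D T : ℕ} (hD : P.totalDegree ≤ D)
    (h0 : Psi A₀ A D P =O[𝓝 0] (fun z : Fin r → ℂ => ‖z‖ ^ T)) :
    (fun z => Psi A₀ A D P (z + μ)) =O[𝓝 0] (fun z : Fin r → ℂ => ‖z‖ ^ T) := by
  obtain ⟨e, he, h1, h2⟩ := hμ
  have h3 : (fun z => (A₀ (z + μ) / A₀ z) ^ D) =O[𝓝 0] (fun _ : Fin r → ℂ => (1 : ℝ)) := by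
    have hc : ContinuousAt (fun z => (A₀ (z + μ) / A₀ z) ^ D) (0 : Fin r → ℂ) := by
      refine ContinuousAt.pow (ContinuousAt.div ?_ h.diff₀.continuous.continuousAt h.zero) _
      exact (h.diff₀.continuous.comp (continuous_id.add continuous_const)).continuousAt
    exact (hc.norm.isBoundedUnder_le).isBigO_one ℝ
  have h4 := h3.mul h0
  simp only [one_mul] at h4
  refine h4.congr' ?_ EventuallyEq.rfl
  filter_upwards [ev_ne h] with z hz
  rw [Psi_add h1 h2 hD, h1, mul_div_assoc, div_self hz, mul_one]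

/-- The linear map `x ↦ ∑ x_j lam_j`. -/
noncomputable def LL (lam : Fin r → (Fin r → ℂ)) : (Fin r → ℂ) →L[ℂ] (Fin r → ℂ) :=
  (Fintype.linearCombination ℂ lam).toContinuousLinearMap

theorem LL_apply (lam : Fin r → (Fin r → ℂ)) (x : Fin r → ℂ) : LL lam x = ∑ j, x j • lam j := rfl

theorem G_van (h : PerData A₀ A lam v) {P : MvPolynomial I ℂ} {D T : ℕ} (hD : P.totalDegree ≤ D)
    (h0 : Psi A₀ A D P =O[𝓝 0] (fun z : Fin r → ℂ => ‖z‖ ^ T)) (k : Fin r → ℤ) :
    SchwM.Van T (fun x => Psi A₀ A D P (LL lam x)) (fun j => (k j : ℂ)) := by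
  have hμ : Per A₀ A (LL lam fun j => (k j : ℂ)) := by
    rw [LL_apply]
    exact Per.sum _ fun j _ => Per.zsmul (h.period j) (k j)
  have h1 := Psi_van h hμ hD h0
  have h2 : Tendsto (fun x : Fin r → ℂ => LL lam x) (𝓝 0) (𝓝 0) := by
    have := (LL lam).continuous.tendsto 0
    rwa [map_zero] at this
  have h3 := h1.comp_tendsto h2
  have h4 : (fun x : Fin r → ℂ => ‖LL lam x‖ ^ T) =O[𝓝 0] (fun x : Fin r → ℂ => ‖x‖ ^ T) :=
    (((LL lam).isBigO_id (𝓝 0)).norm_norm).pow T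
  have h5 := h3.trans h4
  obtain ⟨C, hC0, hC⟩ := h5.exists_pos
  obtain ⟨ε, hε, hb⟩ := Metric.eventually_nhds_iff_ball.1 hC.bound
  refine ⟨C, ε / 2, hC0.le, half_pos hε, fun z hz => ?_⟩
  have h6 := hb (z - fun j => (k j : ℂ)) (by rw [mem_ball_zero_iff]; linarith)
  simp only [Function.comp, norm_pow, norm_norm, map_sub, sub_add_cancel] at h6
  exact h6

end

/-! ## Module ORD -/

theorem eq_zero_of_bigO {g : ℂ → ℂ} (hg : Differentiable ℂ g)
    (h : ∀ n : ℕ, g =O[𝓝 0] (fun t : ℂ => ‖t‖ ^ n)) : g = 0 := by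
  have hA : AnalyticOnNhd ℂ g Set.univ := fun z _ => hg.analyticAt z
  have hev : ∀ᶠ z in 𝓝 (0 : ℂ), g z = 0 := by
    by_contra hcon
    obtain ⟨n, q, hq, hq0, hqe⟩ :=
      ((hg.analyticAt 0).exists_eventuallyEq_pow_smul_nonzero_iff).2 hcon
    obtain ⟨C, hC0, hC⟩ := (h (n + 1)).exists_pos
    have h1 : ∀ᶠ z in 𝓝[≠] (0 : ℂ), ‖q z‖ ≤ C * ‖z‖ := by
      have h2 := hC.bound.and hqe
      filter_upwards [h2.filter_mono nhdsWithin_le_nhds, self_mem_nhdsWithin] with z hz hz0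
      obtain ⟨h3, h4⟩ := hz
      have hz1 : 0 < ‖z‖ := norm_pos_iff.2 hz0
      rw [h4, sub_zero, smul_eq_mul, norm_mul, norm_pow, norm_pow, norm_norm, pow_succ,
        mul_left_comm, mul_comm (‖z‖ ^ n) _, mul_comm (‖z‖ ^ n) _] at h3
      have h5 := le_of_mul_le_mul_right h3 (pow_pos hz1 n)
      exact h5
    have h6 : Tendsto (fun z => ‖q z‖) (𝓝[≠] (0 : ℂ)) (𝓝 ‖q 0‖) :=
      (hq.continuousAt.norm).tendsto.mono_left nhdsWithin_le_nhds
    have h7 : Tendsto (fun z : ℂ => C * ‖z‖) (𝓝[≠] (0 : ℂ)) (𝓝 (C * ‖(0 : ℂ)‖)) :=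
      ((continuous_const.mul continuous_norm).tendsto 0).mono_left nhdsWithin_le_nhds
    have h8 := le_of_tendsto_of_tendsto h6 h7 h1
    rw [norm_zero, mul_zero] at h8
    exact hq0 (norm_le_zero_iff.1 h8)
  have h9 := hA.eq_of_eventuallyEq (g := fun _ => 0) (z₀ := 0)
    (fun z _ => analyticAt_const) hev
  exact h9

section

variable {r : ℕ} {I : Type} [Fintype I] {A₀ : (Fin r → ℂ) → ℂ} {A : I → (Fin r → ℂ) → ℂ}
  {lam v : Fin r → (Fin r → ℂ)}

theorem Psi_bigO (h : PerData A₀ A lam v) {P : MvPolynomial I ℂ} {D T : ℕ}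
    (hD : P.totalDegree ≤ D)
    (h0 : (fun z => aeval (FF A₀ A z) P) =O[𝓝 0] (fun z : Fin r → ℂ => ‖z‖ ^ T)) :
    Psi A₀ A D P =O[𝓝 0] (fun z : Fin r → ℂ => ‖z‖ ^ T) := by
  have h3 : (fun z => A₀ z ^ D) =O[𝓝 0] (fun _ : Fin r → ℂ => (1 : ℝ)) :=
    ((h.diff₀.continuous.pow D).continuousAt.norm.isBoundedUnder_le).isBigO_one ℝ
  have h4 := h3.mul h0
  simp only [one_mul] at h4
  refine h4.congr' ?_ EventuallyEq.rfl
  filter_upwards [ev_ne h] with z hz
  exact (Psi_eq hD hz).symm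

theorem ord (h : PerData A₀ A lam v) {p : I → Fin r → MvPolynomial I ℂ} (hp : Ders A₀ A v p)
    (P : MvPolynomial I ℂ) (hw : ∀ w : List (Fin r), aeval (FF A₀ A 0) (dW p w P) = 0)
    {z : Fin r → ℂ} (hz : A₀ z ≠ 0) : aeval (FF A₀ A z) P = 0 := by
  have h1 : ∀ T : ℕ, Psi A₀ A P.totalDegree P =O[𝓝 0] (fun z : Fin r → ℂ => ‖z‖ ^ T) := fun T =>
    Psi_bigO h le_rfl (van_word h hp P T [] fun u _ => by simpa using hw u)
  have h2 : Differentiable ℂ (fun t : ℂ => Psi A₀ A P.totalDegree P (t • z)) :=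
    (Psi_diff h _ _).comp (differentiable_id.smul_const z)
  have h3 : (fun t : ℂ => Psi A₀ A P.totalDegree P (t • z)) = 0 := by
    refine eq_zero_of_bigO h2 fun n => ?_
    have h4 : Tendsto (fun t : ℂ => t • z) (𝓝 0) (𝓝 0) := by
      have hc : Continuous (fun t : ℂ => t • z) := by fun_prop
      have := hc.tendsto (0 : ℂ)
      simpa using this
    refine ((h1 n).comp_tendsto h4).trans ?_
    refine IsBigO.of_bound (‖z‖ ^ n) (Eventually.of_forall fun t => ?_)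
    simp only [Function.comp, norm_smul, mul_pow]
    rw [Real.norm_of_nonneg (by positivity), Real.norm_of_nonneg (by positivity), mul_comm]
  have h5 := congrFun h3 1
  simp only [one_smul, Pi.zero_apply] at h5
  rw [Psi_eq le_rfl hz] at h5
  exact (mul_eq_zero.1 h5).resolve_left (pow_ne_zero _ hz)

/-! ## Module ANA -/

theorem chain (h : PerData A₀ A lam v) {p : I → Fin r → MvPolynomial I ℂ} (hp : Ders A₀ A v p)
    {δ : ℝ} (hδ : 0 < δ) (hne : ∀ z, ‖z‖ ≤ δ → A₀ z ≠ 0) {V : ℝ} (hV0 : 0 ≤ V)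
    (hV : ∀ j, ‖v j‖ ≤ V) (P : MvPolynomial I ℂ) {M : ℝ}
    (hM : ∀ z, ‖z‖ ≤ δ → ‖aeval (FF A₀ A z) P‖ ≤ M) {T : ℕ} (hT : 0 < T) (w : List (Fin r)) :
    w.length ≤ T → ∀ z : Fin r → ℂ, ‖z‖ ≤ δ * (1 - w.length / T) →
      ‖aeval (FF A₀ A z) (dW p w P)‖ ≤ M * (2 * V * T / δ) ^ w.length := by
  have hM0 : 0 ≤ M := (norm_nonneg _).trans (hM 0 (by rw [norm_zero]; exact hδ.le))
  have hT' : (0 : ℝ) < T := by exact_mod_cast hT
  induction w with
  | nil =>
    intro _ z hz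
    simp only [List.length_nil, Nat.cast_zero, zero_div, sub_zero, mul_one] at hz
    simpa [dW] using hM z hz
  | cons j w ih =>
    intro hl z hz
    simp only [List.length_cons, Nat.cast_add, Nat.cast_one] at hz hl
    set k := w.length with hk
    set K : ℝ := M * (2 * V * T / δ) ^ k with hK
    have hK0 : 0 ≤ K := by positivity
    have hsub : ∀ y ∈ ball z (δ / T), ‖y‖ ≤ δ * (1 - (k : ℝ) / T) := by
      intro y hy
      rw [mem_ball, dist_eq_norm] at hy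
      have e : y = (y - z) + z := by abel
      rw [e]
      refine (norm_add_le _ _).trans ?_
      have : δ * (1 - ((k : ℝ) + 1) / T) = δ * (1 - (k : ℝ) / T) - δ / T := by
        field_simp
        ring
      linarith
    have hle : δ * (1 - (k : ℝ) / T) ≤ δ := by
      have : 0 ≤ (k : ℝ) / T := by positivity
      nlinarith
    have hz0 : A₀ z ≠ 0 := hne z ((hsub z (mem_ball_self (by positivity))).trans hle)
    have hd : DifferentiableOn ℂ (fun z => aeval (FF A₀ A z) (dW p w P)) (ball z (δ / T)) :=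
      fun y hy => (deriv_aeval h hp (hne y ((hsub y hy).trans hle)) _).1.differentiableWithinAt
    have hmaps : Set.MapsTo (fun z => aeval (FF A₀ A z) (dW p w P)) (ball z (δ / T))
        (closedBall (aeval (FF A₀ A z) (dW p w P)) (2 * K)) := by
      intro y hy
      rw [mem_closedBall, dist_eq_norm]
      refine (norm_sub_le _ _).trans ?_
      have h1 := ih (by omega) y (hsub y hy)
      have h2 := ih (by omega) z (hsub z (mem_ball_self (by positivity)))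
      linarith
    have h3 := Complex.norm_fderiv_le_div_of_mapsTo_ball hd hmaps (by positivity)
    have h4 := (deriv_aeval h hp hz0 (dW p w P)).2 j
    have h5 : ‖fderiv ℂ (fun z => aeval (FF A₀ A z) (dW p w P)) z (v j)‖ ≤
        2 * K / (δ / T) * V :=
      (ContinuousLinearMap.le_opNorm _ _).trans
        (mul_le_mul h3 (hV j) (norm_nonneg _) (by positivity))
    rw [h4] at h5
    refine h5.trans (le_of_eq ?_)
    rw [List.length_cons, pow_succ, ← hk, hK]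
    field_simp

theorem exists_preimage (h : PerData A₀ A lam v) : ∃ C : ℝ, 0 < C ∧ ∀ z, ∃ x, LL lam x = z ∧
    ‖x‖ ≤ C * ‖z‖ := by
  have hinj : Function.Injective (Fintype.linearCombination ℂ lam) :=
    linearIndependent_iff_injective_fintypeLinearCombination.1 h.lam_indep
  have hsurj : Function.Surjective (LL lam) :=
    (LinearMap.injective_iff_surjective (f := Fintype.linearCombination ℂ lam)).1 hinj
  obtain ⟨C, hC, hb⟩ := (LL lam).exists_preimage_norm_le hsurj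
  exact ⟨C, hC, hb⟩

end

/-- Module ORD. -/
theorem specORD : SpecORD := by
  intro r I _ A₀ A lam v h p hp P hw z hz
  exact ord h hp P hw hz

theorem pow_self_le (T : ℕ) : (T : ℝ) ^ T ≤ Real.exp 1 ^ T * T.factorial := by
  have h1 := Real.pow_div_factorial_le_exp (T : ℝ) (Nat.cast_nonneg T) T
  have h2 : Real.exp (T : ℝ) = Real.exp 1 ^ T := by
    rw [← Real.exp_nat_mul, mul_one]
  rw [h2, div_le_iff₀ (by positivity)] at h1
  exact h1

/-- Module ANA. -/
theorem specANA : SpecANA := by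
  intro r I _ A₀ A lam v hr h p hp
  obtain ⟨C₀, hC₀⟩ := h.growth₀
  obtain ⟨C₁, hC₁⟩ := h.growth
  obtain ⟨Kp, hKp, hpre⟩ := exists_preimage h
  set c : ℝ := max |C₀| |C₁| with hc
  have hc0 : 0 ≤ c := (abs_nonneg _).trans (le_max_left _ _)
  set l : ℝ := ‖LL lam‖ with hl
  set a : ℝ := max 0 (-Real.log (‖A₀ 0‖ / 2)) with ha
  have hA0 : 0 < ‖A₀ 0‖ := norm_pos_iff.2 h.zero
  have ha0 : 0 ≤ a := le_max_left _ _
  have hexpa : Real.exp (-a) ≤ ‖A₀ 0‖ / 2 := by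
    rw [← Real.le_log_iff_exp_le (by positivity)]
    have := le_max_right 0 (-Real.log (‖A₀ 0‖ / 2))
    linarith
  -- the radius
  obtain ⟨δ, hδ, hδA, hδK⟩ : ∃ δ : ℝ, 0 < δ ∧ (∀ z, ‖z‖ ≤ δ → Real.exp (-a) ≤ ‖A₀ z‖) ∧
      Kp * δ ≤ 1 := by
    have h1 : ∀ᶠ z in 𝓝 (0 : Fin r → ℂ), ‖A₀ 0‖ / 2 < ‖A₀ z‖ :=
      h.diff₀.continuous.norm.continuousAt.eventually_const_lt (by simpa using half_lt_self hA0)
    obtain ⟨ε, hε, hb⟩ := Metric.eventually_nhds_iff_ball.1 h1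
    refine ⟨min (ε / 2) (1 / Kp), by positivity, fun z hz => ?_, ?_⟩
    · have : ‖z‖ < ε := lt_of_le_of_lt (hz.trans (min_le_left _ _)) (half_lt_self hε)
      exact hexpa.trans (hb z (mem_ball_zero_iff.2 this)).le
    · calc Kp * min (ε / 2) (1 / Kp) ≤ Kp * (1 / Kp) :=
          mul_le_mul_of_nonneg_left (min_le_right _ _) hKp.le
        _ = 1 := by field_simp
  have hne : ∀ z, ‖z‖ ≤ δ → A₀ z ≠ 0 := fun z hz h0 => by
    have := hδA z hz
    rw [h0, norm_zero] at this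
    exact absurd this (not_le.2 (Real.exp_pos _))
  set V : ℝ := ∑ j, ‖v j‖ with hV
  have hV0 : 0 ≤ V := Finset.sum_nonneg fun j _ => norm_nonneg _
  have hVj : ∀ j, ‖v j‖ ≤ V := fun j =>
    Finset.single_le_sum (f := fun j => ‖v j‖) (fun i _ => norm_nonneg _) (Finset.mem_univ j)
  set c₁ : ℝ := 2 * V / δ * Real.exp 1 with hc₁
  have hc₁0 : 0 ≤ c₁ := by positivity
  set c₂ : ℝ := r * Real.log 2 + c * (1 + 64 * l ^ 2) + a with hc₂
  have hlog : 0 ≤ Real.log 2 := Real.log_nonneg (by norm_num)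
  have hc₂0 : 0 ≤ c₂ := by positivity
  refine ⟨1 + c₁ + c₂, by linarith, ?_⟩
  intro D T S H P hD hS hdeg hH hw w hwT
  have hD' : (1 : ℝ) ≤ D := by exact_mod_cast hD
  have hS' : (1 : ℝ) ≤ S := by exact_mod_cast hS
  have hH0 : 0 ≤ H := (Finset.sum_nonneg fun m _ => norm_nonneg _).trans hH
  -- vanishing
  have hvan : Psi A₀ A D P =O[𝓝 0] (fun z : Fin r → ℂ => ‖z‖ ^ T) :=
    Psi_bigO h hdeg (van_word h hp P T [] fun u hu => by
      rw [List.append_nil]
      exact hw u hu)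
  -- bound of Psi on a large ball
  set E₀ : ℝ := Real.exp (c * (1 + 64 * l ^ 2 * (S : ℝ) ^ 2)) with hE₀
  have hbig : ∀ x : Fin r → ℂ, ‖x‖ ≤ 8 * S → ‖Psi A₀ A D P (LL lam x)‖ ≤ H * E₀ ^ D := by
    intro x hx
    have h1 : ‖LL lam x‖ ≤ l * (8 * S) :=
      ((LL lam).le_opNorm x).trans (mul_le_mul_of_nonneg_left hx (norm_nonneg _))
    have h2 : ‖LL lam x‖ ^ 2 ≤ 64 * l ^ 2 * (S : ℝ) ^ 2 := by
      calc ‖LL lam x‖ ^ 2 ≤ (l * (8 * S)) ^ 2 := pow_le_pow_left₀ (norm_nonneg _) h1 2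
        _ = 64 * l ^ 2 * (S : ℝ) ^ 2 := by ring
    have h3 : ∀ C' : ℝ, |C'| ≤ c → Real.exp (C' * (1 + ‖LL lam x‖ ^ 2)) ≤ E₀ := by
      intro C' hC'
      rw [hE₀, Real.exp_le_exp]
      have h4 : C' ≤ c := (le_abs_self _).trans hC'
      have h5 : 0 ≤ 1 + ‖LL lam x‖ ^ 2 := by positivity
      calc C' * (1 + ‖LL lam x‖ ^ 2) ≤ c * (1 + ‖LL lam x‖ ^ 2) :=
            mul_le_mul_of_nonneg_right h4 h5
        _ ≤ c * (1 + 64 * l ^ 2 * (S : ℝ) ^ 2) :=
            mul_le_mul_of_nonneg_left (by linarith) hc0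
    refine (norm_Psi_le hdeg ((hC₀ _).trans (h3 _ (le_max_left _ _)))
      fun i => (hC₁ i _).trans (h3 _ (le_max_right _ _))).trans ?_
    exact mul_le_mul_of_nonneg_right hH (by positivity)
  -- Schwarz
  have hsmall : ∀ x : Fin r → ℂ, ‖x‖ ≤ 1 → ‖Psi A₀ A D P (LL lam x)‖ ≤
      2 ^ r * (H * E₀ ^ D) * (1 / 2 : ℝ) ^ (T / r * S) := by
    intro x hx
    refine SchwM.schwarz hS hr (f := fun x => Psi A₀ A D P (LL lam x))
      ((Psi_diff h D P).comp (LL lam).differentiable) (fun k _ => ?_) hbig x hx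
    refine G_van h hdeg (hvan.trans ?_) k
    refine IsBigO.of_bound 1 ?_
    filter_upwards [ball_mem_nhds (0 : Fin r → ℂ) one_pos] with z hz
    rw [mem_ball_zero_iff] at hz
    rw [one_mul, norm_pow, norm_pow, norm_norm]
    exact pow_le_pow_of_le_one (norm_nonneg _) hz.le (Nat.mul_div_le T r)
  set M : ℝ := H * Real.exp (c₂ * D * (S : ℝ) ^ 2) * (1 / 2 : ℝ) ^ (T / r * S) with hM
  have hDS : (1 : ℝ) ≤ D * (S : ℝ) ^ 2 := by nlinarith [mul_self_nonneg ((S : ℝ) - 1)]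
  have hPhi : ∀ z : Fin r → ℂ, ‖z‖ ≤ δ → ‖aeval (FF A₀ A z) P‖ ≤ M := by
    intro z hz
    obtain ⟨x, hx, hxn⟩ := hpre z
    have hx1 : ‖x‖ ≤ 1 := hxn.trans ((mul_le_mul_of_nonneg_left hz hKp.le).trans hδK)
    have h1 := hsmall x hx1
    rw [hx, Psi_eq hdeg (hne z hz), norm_mul, norm_pow] at h1
    have h2 : Real.exp (-a) ^ D ≤ ‖A₀ z‖ ^ D :=
      pow_le_pow_left₀ (Real.exp_pos _).le (hδA z hz) D
    have h3 : Real.exp (-a) ^ D * ‖aeval (FF A₀ A z) P‖ ≤
        2 ^ r * (H * E₀ ^ D) * (1 / 2 : ℝ) ^ (T / r * S) :=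
      (mul_le_mul_of_nonneg_right h2 (norm_nonneg _)).trans h1
    have h4 : Real.exp (-a) ^ D = Real.exp (-(a * D)) := by
      rw [← Real.exp_nat_mul]
      congr 1
      ring
    rw [h4, Real.exp_neg, inv_mul_le_iff₀ (Real.exp_pos _)] at h3
    refine h3.trans ?_
    have h5 : (2 : ℝ) ^ r = Real.exp (r * Real.log 2) := by
      rw [Real.exp_nat_mul, Real.exp_log (by norm_num)]
    have h6 : E₀ ^ D = Real.exp (D * (c * (1 + 64 * l ^ 2 * (S : ℝ) ^ 2))) := by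
      rw [hE₀, ← Real.exp_nat_mul]
    rw [h5, h6, hM]
    have h7 : Real.exp (a * D) * (Real.exp (r * Real.log 2) *
        (H * Real.exp (D * (c * (1 + 64 * l ^ 2 * (S : ℝ) ^ 2)))) * (1 / 2 : ℝ) ^ (T / r * S)) =
        H * Real.exp (a * D + r * Real.log 2 + D * (c * (1 + 64 * l ^ 2 * (S : ℝ) ^ 2))) *
          (1 / 2 : ℝ) ^ (T / r * S) := by
      rw [Real.exp_add, Real.exp_add]
      ring
    rw [h7]
    refine mul_le_mul_of_nonneg_right (mul_le_mul_of_nonneg_left (Real.exp_le_exp.2 ?_) hH0)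
      (by positivity)
    have hS2 : (1 : ℝ) ≤ (S : ℝ) ^ 2 := by nlinarith
    have e1 : a * D ≤ a * (D * (S : ℝ) ^ 2) :=
      mul_le_mul_of_nonneg_left (le_mul_of_one_le_right (by positivity) hS2) ha0
    have e2 : r * Real.log 2 ≤ r * Real.log 2 * (D * (S : ℝ) ^ 2) :=
      le_mul_of_one_le_right (by positivity) hDS
    have e3 : D * (c * (1 + 64 * l ^ 2 * (S : ℝ) ^ 2)) ≤
        c * (1 + 64 * l ^ 2) * (D * (S : ℝ) ^ 2) := by
      have : c * D * 1 ≤ c * D * (S : ℝ) ^ 2 := mul_le_mul_of_nonneg_left hS2 (by positivity)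
      nlinarith
    rw [hc₂]
    nlinarith
  have hfin : ‖aeval (FF A₀ A 0) (dW p w P)‖ ≤ M * (c₁ ^ T * T.factorial) := by
    rcases Nat.eq_zero_or_pos T with hT0 | hT
    · have hw0 : w = [] := List.length_eq_zero_iff.1 (by omega)
      subst hw0
      rw [hT0]
      simpa [dW] using hPhi 0 (by rw [norm_zero]; exact hδ.le)
    · have h1 := chain h hp hδ hne hV0 hVj P hPhi hT w hwT.le 0 (by
        rw [hwT, norm_zero, div_self (by exact_mod_cast hT.ne'), sub_self, mul_zero])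
      refine h1.trans (mul_le_mul_of_nonneg_left ?_ (by positivity))
      rw [hwT, hc₁]
      have h2 : 2 * V * (T : ℝ) / δ = 2 * V / δ * T := by ring
      rw [h2, mul_pow, mul_pow, mul_assoc]
      exact mul_le_mul_of_nonneg_left (pow_self_le T) (by positivity)
  refine hfin.trans ?_
  have h8 : c₁ ^ T ≤ (1 + c₁ + c₂) ^ T := pow_le_pow_left₀ hc₁0 (by linarith) T
  have h9 : Real.exp (c₂ * D * (S : ℝ) ^ 2) ≤ Real.exp ((1 + c₁ + c₂) * D * (S : ℝ) ^ 2) := by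
    refine Real.exp_le_exp.2 ?_
    have : c₂ * (D * (S : ℝ) ^ 2) ≤ (1 + c₁ + c₂) * (D * (S : ℝ) ^ 2) :=
      mul_le_mul_of_nonneg_right (by linarith) (by positivity)
    nlinarith
  calc M * (c₁ ^ T * T.factorial)
      ≤ H * Real.exp ((1 + c₁ + c₂) * D * (S : ℝ) ^ 2) * (1 / 2 : ℝ) ^ (T / r * S) *
        ((1 + c₁ + c₂) ^ T * T.factorial) := by
        rw [hM]
        refine mul_le_mul ?_ (mul_le_mul_of_nonneg_right h8 (by positivity)) (by positivity)
          (by positivity)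
        exact mul_le_mul_of_nonneg_right (mul_le_mul_of_nonneg_left h9 hH0) (by positivity)
    _ = H * (1 + c₁ + c₂) ^ T * T.factorial * Real.exp ((1 + c₁ + c₂) * D * (S : ℝ) ^ 2) *
        (1 / 2 : ℝ) ^ (T / r * S) := by ring

end AnaM

end Pool.Agent.Lib.MPf11a48.U
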