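import Pool.Agent.Lib.MP_f11a48_ag.U.SpecTl

/-!
# Project U, module RED: reduction of the data to integral data
-/

set_option autoImplicit false

open MvPolynomial Pool.Agent.Lib.MPf11a48.CM NumberField

namespace Pool.Agent.Lib.MPf11a48.U

namespace RedM

/-! ## Scaling of polynomials -/

/-- The scaled polynomial. -/
noncomputable def sc {I : Type} [Fintype I] {R : Type} [CommRing R] (q N d : ℕ)
    (P : MvPolynomial I R) : MvPolynomial I R :=
  ∑ m ∈ P.support, monomial m ((q : R) * N * (q : R) ^ (d - ∑ i, m i) * P.coeff m)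

theorem sum_le {I : Type} [Fintype I] {R : Type} [CommRing R] (P : MvPolynomial I R)
    {m : I →₀ ℕ} (hm : m ∈ P.support) : ∑ i, m i ≤ P.totalDegree := by
  have h := le_totalDegree hm
  rwa [Finsupp.sum_fintype _ _ (fun _ => rfl)] at h

theorem aeval_sc {I : Type} [Fintype I] {R : Type} [CommRing R] [Algebra R ℂ] (q N d : ℕ)
    (P : MvPolynomial I R) (hd : P.totalDegree ≤ d) (x : I → ℂ) :
    aeval (fun i => (q : ℂ) * x i) (sc q N d P) = (q : ℂ) * N * (q : ℂ) ^ d * aeval x P := by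
  have h1 : aeval x P = ∑ m ∈ P.support, algebraMap R ℂ (P.coeff m) * ∏ i, x i ^ m i := by
    rw [aeval_def, eval₂_eq']
  rw [h1, sc, map_sum, Finset.mul_sum]
  apply Finset.sum_congr rfl
  intro m hm
  have hle : ∑ i, m i ≤ d := (sum_le P hm).trans hd
  rw [aeval_monomial, Finsupp.prod_fintype _ _ (fun _ => pow_zero _)]
  have h2 : ∏ i, ((q : ℂ) * x i) ^ m i = (q : ℂ) ^ (∑ i, m i) * ∏ i, x i ^ m i := by
    simp only [mul_pow, Finset.prod_mul_distrib, Finset.prod_pow_eq_pow_sum]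
  rw [h2]
  simp only [map_mul, map_pow, map_natCast]
  have h3 : (q : ℂ) ^ d = (q : ℂ) ^ (d - ∑ i, m i) * (q : ℂ) ^ (∑ i, m i) := by
    rw [← pow_add, Nat.sub_add_cancel hle]
  rw [h3]
  ring

/-! ## Common denominators -/

theorem exists_denom (S : Finset ℂ) (hS : ∀ s ∈ S, s ∈ Qbar) :
    ∃ N : ℕ, N ≠ 0 ∧ ∀ s ∈ S, IsIntegral ℤ ((N : ℂ) * s) := by
  classical
  induction S using Finset.induction_on with
  | empty => exact ⟨1, one_ne_zero, by simp⟩
  | insert a S _ ih =>
    obtain ⟨N, hN, h⟩ := ih (fun s hs => hS s (Finset.mem_insert_of_mem hs))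
    have ha : IsAlgebraic ℤ a := by
      have h1 : IsAlgebraic ℚ a := mem_algebraicClosure_iff.1 (hS a (Finset.mem_insert_self a S))
      exact (IsFractionRing.isAlgebraic_iff ℤ ℚ ℂ).2 h1
    obtain ⟨y, hy, hint⟩ := ha.exists_integral_multiple
    have hy2 : IsIntegral ℤ (((y.natAbs : ℕ) : ℂ) * a) := by
      rcases Int.natAbs_eq y with h1 | h1
      · rw [zsmul_eq_mul, h1] at hint
        simpa using hint
      · rw [zsmul_eq_mul, h1] at hint
        have := hint.neg
        simpa using this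
    refine ⟨N * y.natAbs, mul_ne_zero hN (Int.natAbs_ne_zero.2 hy), ?_⟩
    intro s hs
    rcases Finset.mem_insert.1 hs with rfl | hs
    · have : ((N * y.natAbs : ℕ) : ℂ) * s = (N : ℂ) * (((y.natAbs : ℕ) : ℂ) * s) := by
        push_cast; ring
      rw [this]
      exact (isIntegral_natCast N).mul hy2
    · have : ((N * y.natAbs : ℕ) : ℂ) * s = ((y.natAbs : ℕ) : ℂ) * ((N : ℂ) * s) := by
        push_cast; ring
      rw [this]
      exact (isIntegral_natCast y.natAbs).mul (h s hs)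

/-- integral elements of a subfield of `ℂ` -/
theorem exists_int (K : IntermediateField ℚ ℂ) (z : ℂ) (hz : z ∈ K) (hi : IsIntegral ℤ z) :
    ∃ y : 𝓞 K, oEmb (algebraMap K ℂ) y = z := by
  have h1 : IsIntegral ℤ (⟨z, hz⟩ : K) := by
    rw [← isIntegral_algebraMap_iff (B := ℂ) (algebraMap K ℂ).injective]
    exact hi
  exact ⟨⟨⟨z, hz⟩, h1⟩, rfl⟩

/-! ## Scaling of `PerData` -/

theorem growth_aux (q : ℕ) (hq : q ≠ 0) {X Y : Type} (f : Y → X → ℂ) (b : X → ℝ) (hb : ∀ z, 0 ≤ b z)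
    (h : ∃ C : ℝ, ∀ i z, ‖f i z‖ ≤ Real.exp (C * (1 + b z))) :
    ∃ C : ℝ, ∀ i z, ‖(q : ℂ) * f i z‖ ≤ Real.exp (C * (1 + b z)) := by
  obtain ⟨C, hC⟩ := h
  refine ⟨C + Real.log q, fun i z => ?_⟩
  have hq0 : (0 : ℝ) < q := by exact_mod_cast Nat.pos_of_ne_zero hq
  have hl : 0 ≤ Real.log q := Real.log_nonneg (by exact_mod_cast Nat.one_le_iff_ne_zero.2 hq)
  rw [norm_mul, Complex.norm_natCast]
  calc (q : ℝ) * ‖f i z‖ ≤ Real.exp (Real.log q) * Real.exp (C * (1 + b z)) := by
        rw [Real.exp_log hq0]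
        exact mul_le_mul_of_nonneg_left (hC i z) hq0.le
    _ = Real.exp (Real.log q + C * (1 + b z)) := (Real.exp_add _ _).symm
    _ ≤ Real.exp ((C + Real.log q) * (1 + b z)) := by
        apply Real.exp_le_exp.2
        nlinarith [mul_nonneg hl (hb z)]

end RedM

open RedM in
theorem specRED : SpecRED := by
  intro r I _ A₀ A lam v h
  classical
  choose p₀ hp₀ using h.deriv
  -- the finite set of algebraic numbers
  let S : Finset ℂ := (Finset.univ.image fun i => A i 0 / A₀ 0) ∪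
    ((Finset.univ : Finset (I × Fin r)).biUnion fun ij =>
      (p₀ ij.1 ij.2).support.image fun m => (((p₀ ij.1 ij.2).coeff m : Qbar) : ℂ))
  have hval : ∀ i, A i 0 / A₀ 0 ∈ S := fun i =>
    Finset.mem_union_left _ (Finset.mem_image.2 ⟨i, Finset.mem_univ i, rfl⟩)
  have hcoef : ∀ i j m, m ∈ (p₀ i j).support → (((p₀ i j).coeff m : Qbar) : ℂ) ∈ S :=
    fun i j m hm => Finset.mem_union_right _ (Finset.mem_biUnion.2
      ⟨(i, j), Finset.mem_univ _, Finset.mem_image.2 ⟨m, hm, rfl⟩⟩)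
  have hSQ : ∀ s ∈ S, s ∈ Qbar := by
    intro s hs
    rcases Finset.mem_union.1 hs with hs | hs
    · obtain ⟨i, _, rfl⟩ := Finset.mem_image.1 hs
      exact h.value i
    · obtain ⟨ij, _, hs⟩ := Finset.mem_biUnion.1 hs
      obtain ⟨m, _, rfl⟩ := Finset.mem_image.1 hs
      exact ((p₀ ij.1 ij.2).coeff m).2
  obtain ⟨q, hq, hint⟩ := exists_denom S hSQ
  have hqC : (q : ℂ) ≠ 0 := Nat.cast_ne_zero.2 hq
  -- the number field
  let K : IntermediateField ℚ ℂ := IntermediateField.adjoin ℚ (S : Set ℂ)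
  have : Finite (S : Set ℂ) := S.finite_toSet
  have hfd : FiniteDimensional ℚ K :=
    IntermediateField.finiteDimensional_adjoin (fun x hx =>
      (mem_algebraicClosure_iff.1 (hSQ x hx)).isIntegral)
  have hnf : NumberField K := ⟨⟩
  have hSK : ∀ s ∈ S, s ∈ K := fun s hs => IntermediateField.subset_adjoin ℚ _ hs
  -- a bound for the degrees
  let d : ℕ := ∑ i, ∑ j, (p₀ i j).totalDegree
  have hd : ∀ i j, (p₀ i j).totalDegree ≤ d := fun i j =>
    (Finset.single_le_sum (f := fun j => (p₀ i j).totalDegree) (fun _ _ => Nat.zero_le _)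
      (Finset.mem_univ j)).trans
    (Finset.single_le_sum (f := fun i => ∑ j, (p₀ i j).totalDegree) (fun _ _ => Nat.zero_le _)
      (Finset.mem_univ i))
  -- the values
  have hx : ∀ i, ∃ y : 𝓞 K, oEmb (algebraMap K ℂ) y = (q : ℂ) * (A i 0 / A₀ 0) := fun i =>
    exists_int K _ (K.mul_mem (natCast_mem K q) (hSK _ (hval i))) (hint _ (hval i))
  choose x hx using hx
  -- the coefficients
  have hc : ∀ (i : I) (j : Fin r) (m : I →₀ ℕ), ∃ y : 𝓞 K, oEmb (algebraMap K ℂ) y =
      (q : ℂ) * q * (q : ℂ) ^ (d - ∑ k, m k) * (((p₀ i j).coeff m : Qbar) : ℂ) := by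
    intro i j m
    by_cases hm : m ∈ (p₀ i j).support
    · have hs := hcoef i j m hm
      apply exists_int
      · exact K.mul_mem (K.mul_mem (K.mul_mem (natCast_mem K q) (natCast_mem K q))
          (pow_mem (natCast_mem K q) _)) (hSK _ hs)
      · have e : (q : ℂ) * q * (q : ℂ) ^ (d - ∑ k, m k) * (((p₀ i j).coeff m : Qbar) : ℂ) =
            (q : ℂ) * (q : ℂ) ^ (d - ∑ k, m k) * ((q : ℂ) * (((p₀ i j).coeff m : Qbar) : ℂ)) := by
          ring
        rw [e]
        exact ((isIntegral_natCast q).mul ((isIntegral_natCast q).pow _)).mul (hint _ hs)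
    · refine ⟨0, ?_⟩
      rw [notMem_support_iff.1 hm]
      simp
  choose c hc using hc
  let p : I → Fin r → MvPolynomial I (𝓞 K) := fun i j =>
    ∑ m ∈ (p₀ i j).support, monomial m (c i j m)
  have hmap : ∀ i j, map (oEmb (algebraMap K ℂ)) (p i j) =
      map (algebraMap Qbar ℂ) (sc q q d (p₀ i j)) := by
    intro i j
    simp only [p, sc, map_sum, map_monomial]
    apply Finset.sum_congr rfl
    intro m _
    rw [hc]
    congr 1
  -- the derivatives
  let M : ℂ := (q : ℂ) * (q : ℂ) ^ d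
  have hM : M ≠ 0 := mul_ne_zero hqC (pow_ne_zero _ hqC)
  have hder : ∀ i j z, A₀ z ≠ 0 →
      fderiv ℂ (fun w => (q : ℂ) * A i w / A₀ w) z (M • v j) =
        aeval (fun k => (q : ℂ) * A k z / A₀ z) (sc q q d (p₀ i j)) := by
    intro i j z hz
    have h1 : (fun w => (q : ℂ) * A i w / A₀ w) = fun w => (q : ℂ) • (A i w / A₀ w) := by
      funext w
      rw [smul_eq_mul, mul_div_assoc]
    have h2 : DifferentiableAt ℂ (fun w => A i w / A₀ w) z := by
      simp only [div_eq_mul_inv]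
      exact (h.diff i z).fun_mul ((h.diff₀ z).fun_inv hz)
    have h3 : (fun k => (q : ℂ) * A k z / A₀ z) = fun k => (q : ℂ) * (A k z / A₀ z) := by
      funext k
      rw [mul_div_assoc]
    rw [h1, h3, aeval_sc q q d _ (hd i j), ← hp₀ i j z hz]
    rw [show (fun w => (q : ℂ) • (A i w / A₀ w)) = (q : ℂ) • fun w => A i w / A₀ w from rfl]
    rw [fderiv_const_smul h2]
    simp only [smul_apply, map_smul, smul_eq_mul, M]
    ring
  refine ⟨K, inferInstance, hnf, algebraMap K ℂ, q, fun j => M • v j, x, p, hq, ?_, ?_⟩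
  · refine ⟨h.diff₀, fun i => (h.diff i).const_mul _, h.growth₀, ?_, h.zero, h.lam_indep, ?_, ?_,
      ?_, ?_⟩
    · exact growth_aux q hq A (fun z => ‖z‖ ^ 2) (fun z => by positivity) h.growth
    · exact h.v_indep.units_smul (fun _ => Units.mk0 M hM)
    · intro j
      obtain ⟨e, he1, he2, he3⟩ := h.period j
      exact ⟨e, he1, he2, fun i z => by rw [he3 i z]; ring⟩
    · intro i
      rw [mul_div_assoc]
      exact Qbar.mul_mem (natCast_mem Qbar q) (h.value i)
    · intro i j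
      exact ⟨sc q q d (p₀ i j), fun z hz => hder i j z hz⟩
  · refine ⟨fun i => ?_, fun i j z hz => ?_⟩
    · rw [hx i, mul_div_assoc]
    · rw [hder i j z hz]
      show _ = aeval _ (map (oEmb (algebraMap K ℂ)) (p i j))
      rw [hmap i j, aeval_map_algebraMap]

end Pool.Agent.Lib.MPf11a48.U
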