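import Pool.Agent.Lib.MP_f11a48_ag.U.SpecTl
import Pool.Agent.Lib.MP_f11a48_ag.U.Ana

/-!
# Project U, module TLCOMM: the directional derivatives commute
-/

set_option autoImplicit false

open MvPolynomial Pool.Agent.Lib.MPf11a48.CM Filter Topology

namespace Pool.Agent.Lib.MPf11a48.U

namespace TlCommM

open AnaM

variable {r : ℕ} {I : Type} [Fintype I] {A₀ : (Fin r → ℂ) → ℂ} {A : I → (Fin r → ℂ) → ℂ}
  {lam v : Fin r → (Fin r → ℂ)}

theorem ev_ne (h : PerData A₀ A lam v) {z : Fin r → ℂ} (hz : A₀ z ≠ 0) :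
    ∀ᶠ w in 𝓝 z, A₀ w ≠ 0 :=
  h.diff₀.continuous.continuousAt.eventually_ne hz

theorem an (h : PerData A₀ A lam v) {p : I → Fin r → MvPolynomial I ℂ} (hp : Ders A₀ A v p)
    {z : Fin r → ℂ} (hz : A₀ z ≠ 0) (Q : MvPolynomial I ℂ) :
    AnalyticAt ℂ (fun z => aeval (FF A₀ A z) Q) z := by
  refine Osgood.analyticAt ?_
  filter_upwards [ev_ne h hz] with w hw
  exact (deriv_aeval h hp hw Q).1

theorem eq_of_eq (h : PerData A₀ A lam v) {p : I → Fin r → MvPolynomial I ℂ} (hp : Ders A₀ A v p)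
    {P Q : MvPolynomial I ℂ} (hPQ : ∀ z, A₀ z ≠ 0 → aeval (FF A₀ A z) P = aeval (FF A₀ A z) Q)
    (j : Fin r) {z : Fin r → ℂ} (hz : A₀ z ≠ 0) :
    aeval (FF A₀ A z) (mkDerivation ℂ (fun i => p i j) P) =
      aeval (FF A₀ A z) (mkDerivation ℂ (fun i => p i j) Q) := by
  rw [← (deriv_aeval h hp hz P).2 j, ← (deriv_aeval h hp hz Q).2 j]
  have : (fun z => aeval (FF A₀ A z) P) =ᶠ[𝓝 z] fun z => aeval (FF A₀ A z) Q := by
    filter_upwards [ev_ne h hz] with w hw using hPQ w hw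
  rw [this.fderiv_eq]

theorem two (h : PerData A₀ A lam v) {p : I → Fin r → MvPolynomial I ℂ} (hp : Ders A₀ A v p)
    (Q : MvPolynomial I ℂ) (i j : Fin r) {z : Fin r → ℂ} (hz : A₀ z ≠ 0) :
    aeval (FF A₀ A z) (mkDerivation ℂ (fun k => p k i) (mkDerivation ℂ (fun k => p k j) Q)) =
      fderiv ℂ (fderiv ℂ fun z => aeval (FF A₀ A z) Q) z (v i) (v j) := by
  rw [← (deriv_aeval h hp hz _).2 i]
  have h1 : (fun z => aeval (FF A₀ A z) (mkDerivation ℂ (fun k => p k j) Q)) =ᶠ[𝓝 z]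
      fun z => fderiv ℂ (fun z => aeval (FF A₀ A z) Q) z (v j) := by
    filter_upwards [ev_ne h hz] with w hw
    exact ((deriv_aeval h hp hw Q).2 j).symm
  rw [h1.fderiv_eq, fderiv_clm_apply (an h hp hz Q).fderiv.differentiableAt
    (differentiableAt_const _)]
  simp

theorem swap (h : PerData A₀ A lam v) {p : I → Fin r → MvPolynomial I ℂ} (hp : Ders A₀ A v p)
    (Q : MvPolynomial I ℂ) (i j : Fin r) {z : Fin r → ℂ} (hz : A₀ z ≠ 0) :
    aeval (FF A₀ A z) (mkDerivation ℂ (fun k => p k i) (mkDerivation ℂ (fun k => p k j) Q)) =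
    aeval (FF A₀ A z) (mkDerivation ℂ (fun k => p k j) (mkDerivation ℂ (fun k => p k i) Q)) := by
  rw [two h hp Q i j hz, two h hp Q j i hz]
  exact (an h hp hz Q).contDiffAt.isSymmSndFDerivAt_of_omega (v i) (v j)

end TlCommM

open TlCommM in
theorem specCOMM : SpecCOMM := by
  intro r I _ A₀ A lam v h p hp w w' hw P
  induction hw with
  | nil => intro z _; rfl
  | cons x _ ih =>
    intro z hz
    exact eq_of_eq h hp ih x hz
  | swap x y l =>
    intro z hz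
    exact swap h hp (dW p l P) y x hz
  | trans _ _ ih1 ih2 =>
    intro z hz
    exact (ih1 z hz).trans (ih2 z hz)

end Pool.Agent.Lib.MPf11a48.U
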