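import Pool.Agent.Lib.MP_f11a48_ag.U.SpecTl
import Pool.Agent.Lib.MP_f11a48_ag.U.Ana
import Pool.Agent.Lib.MP_f11a48_ag.U.Red
import Pool.Agent.Lib.MP_f11a48_ag.U.Size
import Pool.Agent.Lib.MP_f11a48_ag.U.TlComm

/-!
# Project U, module TL: the transcendence theorem

Auxiliary polynomial by Siegel's lemma over the ring of integers, upper bound for the leading
derivative by the periods (module ANA), Liouville's inequality.
-/

set_option autoImplicit false

open MvPolynomial Pool.Agent.Lib.MPf11a48.CM NumberField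

namespace Pool.Agent.Lib.MPf11a48.U
namespace TlM

/-! ## Numerical part -/

theorem ev_log (K B : ℝ) (n : ℕ) (hB : 1 ≤ B) : ∃ t : ℕ, 1 ≤ t ∧ ∀ y : ℝ, (t : ℝ) ≤ y →
    K * Real.log (B * y ^ n) < y := by
  have h1 : ∀ᶠ y : ℝ in Filter.atTop, |K| * (n : ℝ) * Real.log y ≤ y / 4 := by
    have h2 := Real.isLittleO_log_id_atTop.bound (c := 1 / (4 * (|K| * n + 1))) (by positivity)
    filter_upwards [h2, Filter.eventually_ge_atTop (1 : ℝ)] with y hy h1
    simp only [id_eq, Real.norm_eq_abs] at hy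
    rw [abs_of_nonneg (Real.log_nonneg h1), abs_of_nonneg (a := y) (by linarith)] at hy
    have h3 : |K| * (n : ℝ) * Real.log y ≤ (|K| * n + 1) * (1 / (4 * (|K| * n + 1)) * y) := by
      apply mul_le_mul (by linarith) hy (Real.log_nonneg h1) (by positivity)
    refine h3.trans (le_of_eq ?_)
    field_simp
  have h2 : ∀ᶠ y : ℝ in Filter.atTop, |K| * Real.log B ≤ y / 4 := by
    filter_upwards [Filter.eventually_ge_atTop (4 * (|K| * Real.log B))] with y hy
    linarith
  obtain ⟨t0, ht0⟩ := Filter.eventually_atTop.1 (h1.and (h2.and (Filter.eventually_ge_atTop (1 : ℝ))))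
  refine ⟨⌈max t0 1⌉₊, ?_, ?_⟩
  · exact Nat.one_le_ceil_iff.2 (lt_of_lt_of_le one_pos (le_max_right _ _))
  · intro y hy
    have h3 : max t0 1 ≤ y := (Nat.le_ceil _).trans hy
    obtain ⟨h4, h5, h6⟩ := ht0 y ((le_max_left _ _).trans h3)
    have hy0 : (0 : ℝ) < y := by linarith
    have e : Real.log (B * y ^ n) = Real.log B + n * Real.log y := by
      rw [Real.log_mul (by linarith) (by positivity), Real.log_pow]
    rw [e]
    have h7 : 0 ≤ Real.log B + n * Real.log y :=
      add_nonneg (Real.log_nonneg hB) (mul_nonneg (Nat.cast_nonneg _) (Real.log_nonneg h6))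
    calc K * (Real.log B + n * Real.log y) ≤ |K| * (Real.log B + n * Real.log y) :=
          mul_le_mul_of_nonneg_right (le_abs_self K) h7
      _ = |K| * Real.log B + |K| * n * Real.log y := by ring
      _ < y := by linarith

theorem numeric (r d : ℕ) (hr : 0 < r) (a C2 : ℝ) (ha : 1 ≤ a) (hC2 : 1 ≤ C2) :
    ∃ t : ℕ, 1 ≤ t ∧ ∀ T : ℕ, t ^ (r + 1) ≤ T → ∃ S : ℕ, 1 ≤ S ∧
      (a * T) ^ (d * T) * C2 ^ T *
        Real.exp (C2 * (((r + 1) * (2 * t ^ r) : ℕ) : ℝ) * (S : ℝ) ^ 2) *
        (1 / 2 : ℝ) ^ (T / r * S) < 1 := by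
  have hrR : (1 : ℝ) ≤ r := by exact_mod_cast hr
  obtain ⟨t1, ht1, h1⟩ := ev_log (256 * r ^ 2 * (r + 1) * C2 * (d + 1)) (a * C2) (r + 1)
    (by nlinarith)
  let t : ℕ := max t1 ⌈16 * (r : ℝ) * (r + 1) * C2⌉₊
  have htt1 : t1 ≤ t := le_max_left _ _
  have ht16 : 16 * (r : ℝ) * (r + 1) * C2 ≤ t :=
    (Nat.le_ceil _).trans (Nat.cast_le.2 (le_max_right _ _))
  have htpos : 1 ≤ t := ht1.trans htt1
  have htR : (1 : ℝ) ≤ t := by exact_mod_cast htpos
  refine ⟨t, htpos, ?_⟩
  intro T hT
  have hTR : (t : ℝ) ^ (r + 1) ≤ T := by exact_mod_cast hT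
  have htr : (0 : ℝ) < (t : ℝ) ^ r := by positivity
  have hT1 : (1 : ℝ) ≤ T := (one_le_pow₀ htR).trans hTR
  set y : ℝ := T / (t : ℝ) ^ r with hy
  have hTy : (T : ℝ) = y * (t : ℝ) ^ r := by rw [hy]; field_simp
  have hyt : (t : ℝ) ≤ y := by
    rw [hy, le_div_iff₀ htr]
    calc (t : ℝ) * (t : ℝ) ^ r = (t : ℝ) ^ (r + 1) := by ring
      _ ≤ T := hTR
  have hy1 : (1 : ℝ) ≤ y := htR.trans hyt
  set E : ℝ := 16 * r * (r + 1) * C2 * (t : ℝ) ^ r with hE
  have hEpos : 0 < E := by positivity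
  have hTE : 1 ≤ (T : ℝ) / E := by
    rw [le_div_iff₀ hEpos, one_mul, hE, hTy]
    apply mul_le_mul_of_nonneg_right (ht16.trans hyt) htr.le
  let S : ℕ := ⌊(T : ℝ) / E⌋₊
  have hS1 : 1 ≤ S := Nat.le_floor (by simpa using hTE)
  have hS2 : (S : ℝ) ≤ T / E := Nat.floor_le (by positivity)
  have hS3 : (T : ℝ) / E / 2 ≤ S := by
    have h2 : (T : ℝ) / E < S + 1 := Nat.lt_floor_add_one _
    have h3 : (1 : ℝ) ≤ S := by exact_mod_cast hS1
    linarith
  refine ⟨S, hS1, ?_⟩
  have hSpos : (0 : ℝ) < S := by exact_mod_cast hS1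
  -- the exponent `T / r`
  have hrT : r ≤ T := by
    have : (r : ℝ) ≤ T := by
      have h2 : (r : ℝ) ≤ 16 * r * (r + 1) * C2 := by
        have h3 : (1 : ℝ) ≤ 16 * (r + 1) * C2 := by nlinarith
        nlinarith
      calc (r : ℝ) ≤ t := h2.trans ht16
        _ ≤ (t : ℝ) ^ (r + 1) := le_self_pow₀ htR (by omega)
        _ ≤ T := hTR
    exact_mod_cast this
  have hdiv : (T : ℝ) / (2 * r) ≤ ((T / r : ℕ) : ℝ) := by
    rw [div_le_iff₀ (by positivity)]
    have h2 : T < (T / r + 1) * r := by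
      have := Nat.lt_div_mul_add (a := T) hr
      linarith [this, add_mul (T / r) 1 r]
    have h3 : 1 ≤ T / r := (Nat.one_le_div_iff hr).2 hrT
    have h4 : T ≤ (T / r) * (2 * r) := by nlinarith
    exact_mod_cast h4
  have hlog2 : (1 : ℝ) / 2 ≤ Real.log 2 := by
    have := Real.log_two_gt_d9
    linarith
  have key : (d * T : ℕ) * Real.log (a * T) + T * Real.log C2 +
      C2 * (((r + 1) * (2 * t ^ r) : ℕ) : ℝ) * (S : ℝ) ^ 2 -
      ((T / r * S : ℕ) : ℝ) * Real.log 2 < 0 := by
    have e1 : C2 * (((r + 1) * (2 * t ^ r) : ℕ) : ℝ) * (S : ℝ) ^ 2 ≤ S * T / (8 * r) := by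
      have e2 : C2 * (((r + 1) * (2 * t ^ r) : ℕ) : ℝ) = E / (8 * r) := by
        rw [hE]; push_cast; field_simp; ring
      rw [e2, pow_two]
      calc E / (8 * r) * ((S : ℝ) * S) ≤ E / (8 * r) * ((S : ℝ) * (T / E)) := by gcongr
        _ = S * T / (8 * r) := by field_simp
    have e3 : (T : ℝ) * S / (4 * r) ≤ ((T / r * S : ℕ) : ℝ) * Real.log 2 := by
      push_cast
      calc (T : ℝ) * S / (4 * r) = (T / (2 * r)) * S * (1 / 2) := by field_simp; ring
        _ ≤ ((T / r : ℕ) : ℝ) * S * Real.log 2 := by gcongr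
    have e4 : (d * T : ℕ) * Real.log (a * T) + T * Real.log C2 ≤
        T * ((d + 1) * Real.log (a * C2 * y ^ (r + 1))) := by
      have hTy' : (T : ℝ) ≤ y ^ (r + 1) := by
        rw [hTy, pow_succ, mul_comm]
        gcongr
      have f1 : Real.log (a * T) ≤ Real.log (a * C2 * y ^ (r + 1)) := by
        apply Real.log_le_log (by positivity)
        calc a * T ≤ a * (C2 * y ^ (r + 1)) := by
              gcongr
              nlinarith [one_le_pow₀ hy1 (n := r + 1)]
          _ = _ := by ring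
      have f2 : Real.log C2 ≤ Real.log (a * C2 * y ^ (r + 1)) := by
        apply Real.log_le_log (by positivity)
        have f3 : 1 ≤ y ^ (r + 1) := one_le_pow₀ hy1
        have f4 : 1 ≤ a * y ^ (r + 1) := by nlinarith
        calc C2 = 1 * C2 := by ring
          _ ≤ (a * y ^ (r + 1)) * C2 := by gcongr
          _ = _ := by ring
      push_cast
      calc (d : ℝ) * T * Real.log (a * T) + T * Real.log C2
          ≤ d * T * Real.log (a * C2 * y ^ (r + 1)) + T * Real.log (a * C2 * y ^ (r + 1)) := by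
            gcongr
        _ = _ := by ring
    have e5 := h1 y ((by exact_mod_cast htt1 : (t1 : ℝ) ≤ t).trans hyt)
    have e6 : (d + 1) * Real.log (a * C2 * y ^ (r + 1)) < T / (16 * r * E) := by
      have e7 : (T : ℝ) / (16 * r * E) = y / (256 * r ^ 2 * (r + 1) * C2) := by
        rw [hE, hTy]; field_simp; ring
      rw [e7, lt_div_iff₀ (by positivity)]
      calc _ = 256 * (r : ℝ) ^ 2 * (r + 1) * C2 * (d + 1) * Real.log (a * C2 * y ^ (r + 1)) := by
            ring
        _ < y := e5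
    have e8 : (T : ℝ) / (16 * r * E) ≤ S / (8 * r) := by
      calc (T : ℝ) / (16 * r * E) = (T / E / 2) / (8 * r) := by field_simp; ring
        _ ≤ S / (8 * r) := by gcongr
    have e9 : (d * T : ℕ) * Real.log (a * T) + T * Real.log C2 < T * (S / (8 * r)) := by
      refine e4.trans_lt ?_
      apply mul_lt_mul_of_pos_left (e6.trans_le e8) (by linarith)
    have e10 : (T : ℝ) * (S / (8 * r)) + S * T / (8 * r) = T * S / (4 * r) := by
      field_simp; ring
    linarith
  have e1 : (a * T) ^ (d * T) * C2 ^ T *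
        Real.exp (C2 * (((r + 1) * (2 * t ^ r) : ℕ) : ℝ) * (S : ℝ) ^ 2) *
        (1 / 2 : ℝ) ^ (T / r * S) = Real.exp ((d * T : ℕ) * Real.log (a * T) + T * Real.log C2 +
      C2 * (((r + 1) * (2 * t ^ r) : ℕ) : ℝ) * (S : ℝ) ^ 2 -
      ((T / r * S : ℕ) : ℝ) * Real.log 2) := by
    rw [Real.exp_sub, Real.exp_add, Real.exp_add, Real.exp_nat_mul, Real.exp_nat_mul,
      Real.exp_nat_mul, Real.exp_log (by positivity), Real.exp_log (by positivity),
      Real.exp_log (by norm_num), one_div, inv_pow, div_eq_mul_inv]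
  rw [e1, ← Real.exp_zero]
  exact Real.exp_lt_exp.2 key

/-! ## Siegel and Liouville -/

theorem house_one (K : Type) [Field K] [NumberField K] : house (1 : K) = 1 := by
  have := house_intCast (K := K) 1
  simpa using this

theorem house_zero (K : Type) [Field K] [NumberField K] : house (0 : K) = 0 := by
  have := house_intCast (K := K) 0
  simpa using this

theorem siegel (K : Type) [Field K] [NumberField K] : ∃ c : ℝ, 1 ≤ c ∧
    ∀ (α β : Type) [Fintype α] [Fintype β] (a : Matrix α β (𝓞 K)) (A : ℝ), 1 ≤ A →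
      (∀ k l, house (algebraMap (𝓞 K) K (a k l)) ≤ A) → 2 * Fintype.card α ≤ Fintype.card β →
      0 < Fintype.card β → ∃ ξ : β → 𝓞 K, ξ ≠ 0 ∧ a.mulVec ξ = 0 ∧
        ∀ l, house (algebraMap (𝓞 K) K (ξ l)) ≤ c * Fintype.card β * A := by
  classical
  have key : ∃ c : ℝ, ∀ (α β : Type) [Fintype α] [Fintype β] (a : Matrix α β (𝓞 K)) (A : ℝ),
      a ≠ 0 → (∀ k l, house (algebraMap (𝓞 K) K (a k l)) ≤ A) → 0 < Fintype.card α →
      Fintype.card α < Fintype.card β → ∃ ξ : β → 𝓞 K, ξ ≠ 0 ∧ a.mulVec ξ = 0 ∧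
        ∀ l, house (algebraMap (𝓞 K) K (ξ l)) ≤ c * ((c * Fintype.card β * A) ^
          ((Fintype.card α : ℝ) / (Fintype.card β - Fintype.card α))) := by
    have H := fun (α β : Type) [Fintype α] [Fintype β] (a : Matrix α β (𝓞 K)) (A : ℝ)
      (ha : a ≠ 0) (habs : ∀ k l, house (algebraMap (𝓞 K) K (a k l)) ≤ A)
      (h0 : 0 < Fintype.card α) (hpq : Fintype.card α < Fintype.card β) =>
      NumberField.house.exists_ne_zero_int_vec_house_le K a ha h0 hpq rfl habs rfl
    exact ⟨_, H⟩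
  obtain ⟨c0, key⟩ := key
  refine ⟨(1 + |c0|) ^ 2, ?_, ?_⟩
  · have := abs_nonneg c0
    nlinarith
  · intro α β _ _ a A hA habs hcard hβ
    have hc := abs_nonneg c0
    have hβR : (1 : ℝ) ≤ Fintype.card β := by exact_mod_cast hβ
    have hbig : 1 ≤ (1 + |c0|) ^ 2 * Fintype.card β * A := by
      have h1 : (1 : ℝ) ≤ (1 + |c0|) ^ 2 := by nlinarith
      have h2 : (1 : ℝ) ≤ (1 + |c0|) ^ 2 * Fintype.card β := by nlinarith
      nlinarith
    by_cases h0 : a = 0
    · obtain ⟨l0⟩ := Fintype.card_pos_iff.1 hβ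
      refine ⟨Pi.single l0 1, ?_, by rw [h0, Matrix.zero_mulVec], ?_⟩
      · intro h
        have := congrFun h l0
        simp at this
      · intro l
        refine le_trans ?_ hbig
        by_cases hl : l = l0
        · subst hl
          rw [Pi.single_eq_same, map_one, house_one]
        · rw [Pi.single_eq_of_ne hl, map_zero, house_zero]
          exact zero_le_one
    · have hα : 0 < Fintype.card α := by
        rw [Fintype.card_pos_iff]
        by_contra hcon
        rw [not_nonempty_iff] at hcon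
        apply h0
        ext k
        exact hcon.elim k
      obtain ⟨ξ, h1, h2, h3⟩ := key α β a A h0 habs hα (by omega)
      refine ⟨ξ, h1, h2, fun l => (h3 l).trans ?_⟩
      have hcardR : 2 * (Fintype.card α : ℝ) ≤ Fintype.card β := by exact_mod_cast hcard
      have hαR : (1 : ℝ) ≤ Fintype.card α := by exact_mod_cast hα
      set e : ℝ := (Fintype.card α : ℝ) / (Fintype.card β - Fintype.card α) with he
      have he1 : e ≤ 1 := by
        rw [he, div_le_one (by linarith)]
        linarith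
      have he0 : 0 ≤ e := by
        rw [he]
        apply div_nonneg <;> linarith
      have h4 : |(c0 * Fintype.card β * A) ^ e| ≤ (1 + |c0|) * Fintype.card β * A := by
        refine (Real.abs_rpow_le_abs_rpow _ _).trans ?_
        have h5 : |c0 * Fintype.card β * A| ≤ (1 + |c0|) * Fintype.card β * A := by
          rw [abs_mul, abs_mul, abs_of_nonneg (a := (Fintype.card β : ℝ)) (by linarith),
            abs_of_nonneg (a := A) (by linarith)]
          gcongr
          linarith
        have h6 : 1 ≤ (1 + |c0|) * Fintype.card β * A := by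
          have h2 : (1 : ℝ) ≤ (1 + |c0|) * Fintype.card β := by nlinarith
          nlinarith
        calc |c0 * Fintype.card β * A| ^ e ≤ ((1 + |c0|) * Fintype.card β * A) ^ e :=
              Real.rpow_le_rpow (abs_nonneg _) h5 he0
          _ ≤ ((1 + |c0|) * Fintype.card β * A) ^ (1 : ℝ) :=
              Real.rpow_le_rpow_of_exponent_le h6 he1
          _ = _ := Real.rpow_one _
      calc c0 * (c0 * Fintype.card β * A) ^ e ≤ |c0| * |(c0 * Fintype.card β * A) ^ e| := by
            rw [← abs_mul]; exact le_abs_self _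
        _ ≤ (1 + |c0|) * ((1 + |c0|) * Fintype.card β * A) := by
            apply mul_le_mul (by linarith) h4 (abs_nonneg _) (by positivity)
        _ = _ := by ring

theorem liouville {K : Type} [Field K] [NumberField K] (σ : K →+* ℂ) {α : 𝓞 K} (hα : α ≠ 0) :
    1 ≤ ‖oEmb σ α‖ * house (algebraMap (𝓞 K) K α) ^ (Module.finrank ℚ K - 1) := by
  refine le_trans ?_ (norm_norm_le_norm_mul_house_pow (algebraMap (𝓞 K) K α) σ)
  have h1 : Algebra.norm ℤ α ≠ 0 := Algebra.norm_ne_zero_iff.2 hα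
  have h2 : Algebra.norm ℚ (algebraMap (𝓞 K) K α) = (Algebra.norm ℤ α : ℚ) :=
    (Algebra.coe_norm_int α).symm
  rw [h2, ← Rat.norm_cast_real]
  push_cast
  rw [Real.norm_eq_abs]
  exact_mod_cast Int.one_le_abs h1

theorem one_le_house {K : Type} [Field K] [NumberField K] {α : 𝓞 K} (hα : α ≠ 0) :
    1 ≤ house (algebraMap (𝓞 K) K α) :=
  one_le_house_of_isIntegral (RingOfIntegers.isIntegral_coe α) (by simpa using hα)

/-! ## Words -/

/-- The sorted word with `m j` letters `j`. -/
def word {r : ℕ} (m : Fin r → ℕ) : List (Fin r) :=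
  (List.finRange r).flatMap fun j => List.replicate (m j) j

theorem count_word {r : ℕ} (m : Fin r → ℕ) (j : Fin r) : (word m).count j = m j := by
  unfold word
  rw [List.count_flatMap]
  have h1 : (List.map (List.count j ∘ fun j => List.replicate (m j) j) (List.finRange r)) =
      (List.finRange r).map fun k => if k = j then m j else 0 := by
    apply List.map_congr_left
    intro k _
    simp only [Function.comp_apply, List.count_replicate, beq_iff_eq]
    split_ifs with h
    · rw [h]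
    · rfl
  rw [h1, ← Fin.sum_univ_def]
  simp

/-! ## The operators `dW` -/

section

variable {R I ρ : Type} [CommRing R]

/-- `dW` as a linear map. -/
noncomputable def dWL (p : I → ρ → MvPolynomial I R) :
    List ρ → (MvPolynomial I R →ₗ[R] MvPolynomial I R)
  | [] => LinearMap.id
  | j :: w => (mkDerivation R (fun i => p i j)).toLinearMap ∘ₗ dWL p w

theorem dW_eq (p : I → ρ → MvPolynomial I R) (w : List ρ) (P : MvPolynomial I R) :
    dW p w P = dWL p w P := by
  induction w with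
  | nil => rfl
  | cons j w ih => rw [dW, ih]; rfl

theorem map_mkDerivation {S : Type} [CommRing S] (φ : R →+* S) (f : I → MvPolynomial I R)
    (P : MvPolynomial I R) :
    map φ (mkDerivation R f P) = mkDerivation S (fun i => map φ (f i)) (map φ P) := by
  induction P using MvPolynomial.induction_on with
  | C a => simp
  | add P Q hP hQ => simp only [map_add, hP, hQ]
  | mul_X P i hP =>
    simp only [Derivation.leibniz, mkDerivation_X, smul_eq_mul, map_add, map_mul, map_X, hP]

theorem map_dW {S : Type} [CommRing S] (φ : R →+* S) (p : I → ρ → MvPolynomial I R) (w : List ρ)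
    (P : MvPolynomial I R) :
    map φ (dW p w P) = dW (fun i j => map φ (p i j)) w (map φ P) := by
  induction w with
  | nil => rfl
  | cons j w ih => rw [dW, dW, ← ih, map_mkDerivation]

theorem map_aeval' {S : Type} [CommRing S] (φ : R →+* S) (x : I → R) (P : MvPolynomial I R) :
    φ (aeval x P) = aeval (fun i => φ (x i)) (map φ P) := by
  induction P using MvPolynomial.induction_on with
  | C a => simp
  | add P Q hP hQ => simp only [map_add, hP, hQ]
  | mul_X P i hP => simp only [map_mul, map_X, aeval_X, hP]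

end

theorem oEmb_injective {K : Type} [Field K] (σ : K →+* ℂ) : Function.Injective (oEmb σ) := by
  intro a b hab
  have h1 : σ (algebraMap (𝓞 K) K a) = σ (algebraMap (𝓞 K) K b) := hab
  exact RingOfIntegers.coe_injective (σ.injective h1)

theorem norm_oEmb_le {K : Type} [Field K] [NumberField K] (σ : K →+* ℂ) (α : 𝓞 K) :
    ‖oEmb σ α‖ ≤ house (algebraMap (𝓞 K) K α) := norm_embedding_le_house _ σ

theorem perm_word {r : ℕ} (w : List (Fin r)) : w.Perm (word fun j => w.count j) :=
  List.perm_iff_count.2 fun j => by rw [count_word]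

theorem length_word {r : ℕ} (m : Fin r → ℕ) : (word m).length = ∑ j, m j := by
  unfold word
  rw [List.length_flatMap]
  simp only [List.length_replicate]
  rw [← Fin.sum_univ_def]

/-! ## The auxiliary polynomial -/

section

variable {r D : ℕ}

/-- The exponent vector. -/
noncomputable def mon (e : Fin (r + 1) → Fin D) : Fin (r + 1) →₀ ℕ :=
  Finsupp.equivFunOnFinite.symm fun k => (e k : ℕ)

theorem mon_inj : Function.Injective (mon (r := r) (D := D)) := by
  intro e e' h
  funext k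
  have h1 := DFunLike.congr_fun h k
  exact Fin.ext h1

theorem mon_sum_le (e : Fin (r + 1) → Fin D) : ((mon e).sum fun _ n => n) ≤ (r + 1) * D := by
  rw [Finsupp.sum_fintype _ _ (fun _ => rfl)]
  calc ∑ k, mon e k ≤ ∑ _k : Fin (r + 1), D := Finset.sum_le_sum fun k _ => (e k).isLt.le
    _ = (r + 1) * D := by simp

/-- The auxiliary polynomial. -/
noncomputable def QQ {R : Type} [CommRing R] (ξ : (Fin (r + 1) → Fin D) → R) :
    MvPolynomial (Fin (r + 1)) R :=
  ∑ e, monomial (mon e) (ξ e)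

theorem QQ_ne {R : Type} [CommRing R] {ξ : (Fin (r + 1) → Fin D) → R} (h : ξ ≠ 0) :
    QQ ξ ≠ 0 := by
  classical
  intro h0
  apply h
  funext e
  have h1 : coeff (mon e) (QQ ξ) = ξ e := by
    rw [QQ, coeff_sum, Finset.sum_eq_single e]
    · rw [coeff_monomial, if_pos rfl]
    · intro e' _ he'
      rw [coeff_monomial, if_neg fun h => he' (mon_inj h)]
    · intro h; exact absurd (Finset.mem_univ e) h
  rw [← h1, h0, coeff_zero]
  rfl

variable {I : Type}

theorem rename_QQ {R : Type} [CommRing R] (s : Fin (r + 1) → I)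
    (ξ : (Fin (r + 1) → Fin D) → R) :
    rename s (QQ ξ) = ∑ e, ξ e • monomial (Finsupp.mapDomain s (mon e)) (1 : R) := by
  rw [QQ, map_sum]
  refine Finset.sum_congr rfl fun e _ => ?_
  rw [rename_monomial, smul_monomial, smul_eq_mul, mul_one]

theorem degree_le_mapDomain (s : Fin (r + 1) → I) (e : Fin (r + 1) → Fin D) :
    ((Finsupp.mapDomain s (mon e)).sum fun _ n => n) ≤ (r + 1) * D := by
  rw [Finsupp.sum_mapDomain_index (fun _ => rfl) (fun _ _ _ => rfl)]
  exact mon_sum_le e

/-- The coefficients of a sum of monomials. -/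
theorem sum_coeff_le {β : Type} [Fintype β] (f : β → I →₀ ℕ) (c : β → ℂ) :
    ∑ m ∈ (∑ e, monomial (f e) (c e)).support, ‖(∑ e, monomial (f e) (c e)).coeff m‖ ≤
      ∑ e, ‖c e‖ := by
  classical
  set P : MvPolynomial I ℂ := ∑ e, monomial (f e) (c e) with hP
  have h1 : ∀ m, P.coeff m = ∑ e, if f e = m then c e else 0 := by
    intro m
    rw [hP, coeff_sum]
    exact Finset.sum_congr rfl fun e _ => coeff_monomial _ _ _
  calc ∑ m ∈ P.support, ‖P.coeff m‖ ≤ ∑ m ∈ P.support, ∑ e, (if f e = m then ‖c e‖ else 0) := by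
        refine Finset.sum_le_sum fun m _ => ?_
        rw [h1]
        refine (norm_sum_le _ _).trans (Finset.sum_le_sum fun e _ => ?_)
        split_ifs <;> simp
    _ = ∑ e, ∑ m ∈ P.support, (if f e = m then ‖c e‖ else 0) := Finset.sum_comm
    _ ≤ ∑ e, ‖c e‖ := by
        refine Finset.sum_le_sum fun e _ => ?_
        rw [Finset.sum_ite_eq]
        split_ifs
        · exact le_rfl
        · exact norm_nonneg _

end

/-! ## The main argument -/

theorem totalDegree_map_le' {R S I : Type} [CommRing R] [CommRing S] (φ : R →+* S)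
    (P : MvPolynomial I R) : (map φ P).totalDegree ≤ P.totalDegree := by
  rw [totalDegree, totalDegree]
  exact Finset.sup_mono (support_map_subset φ P)

theorem aeval_map_rename {R I J : Type} [CommRing R] (φ : R →+* ℂ) (s : J → I)
    (Q : MvPolynomial J R) (F : I → ℂ) :
    aeval F (map φ (rename s Q)) = aeval (fun k => F (s k)) (map φ Q) := by
  rw [map_rename, aeval_rename]
  rfl

theorem pow_bound {C1 : ℝ} (hC1 : 1 ≤ C1) {n l M : ℕ} (hn : n ≤ M) (hl : l ≤ M) (hM : 1 ≤ M) :
    C1 ^ n * ((n : ℕ) : ℝ) ^ l ≤ (C1 * M) ^ M := by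
  have hMR : (1 : ℝ) ≤ M := by exact_mod_cast hM
  have hnR : (n : ℝ) ≤ M := by exact_mod_cast hn
  rw [mul_pow]
  apply mul_le_mul (pow_le_pow_right₀ hC1 hn) _ (by positivity) (by positivity)
  calc (n : ℝ) ^ l ≤ (M : ℝ) ^ l := pow_le_pow_left₀ (by positivity) hnR l
    _ ≤ (M : ℝ) ^ M := pow_le_pow_right₀ hMR hl

theorem main (hA : SpecANA) (hO : SpecORD) (hS : SpecSIZE) (hC : SpecCOMM) {r : ℕ} (hr : 0 < r)
    {I : Type} [Fintype I] {K : Type} [Field K] [NumberField K] (σ : K →+* ℂ)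
    {A₀ : (Fin r → ℂ) → ℂ} {A : I → (Fin r → ℂ) → ℂ} {lam v : Fin r → (Fin r → ℂ)}
    (h : PerData A₀ A lam v) (x : I → 𝓞 K) (p : I → Fin r → MvPolynomial I (𝓞 K))
    (hI : IntData σ A₀ A v x p) (s : Fin (r + 1) → I) :
    ∃ Q : MvPolynomial (Fin (r + 1)) (𝓞 K), Q ≠ 0 ∧
      ∀ z, A₀ z ≠ 0 → aeval (fun k => A (s k) z / A₀ z) (map (oEmb σ) Q) = 0 := by
  classical
  obtain ⟨c, hc1, hSieg⟩ := siegel K
  obtain ⟨C1, hC1, hSize⟩ := hS r I K x p
  set pC : I → Fin r → MvPolynomial I ℂ := fun i j => map (oEmb σ) (p i j) with hpC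
  obtain ⟨C2, hC2, hAna⟩ := hA r I A₀ A lam v hr h pC hI.ders
  set d := Module.finrank ℚ K with hd
  set a : ℝ := c * C1 * (3 * r + 2) with ha
  have hrR : (1 : ℝ) ≤ r := by exact_mod_cast hr
  have hcC1 : 1 ≤ c * C1 := by nlinarith
  have ha1 : 1 ≤ a := by rw [ha]; nlinarith
  obtain ⟨t, ht1, hnum⟩ := numeric r (4 * (3 * r + 2) * (d + 2)) hr a C2 ha1 hC2
  set D := 2 * t ^ r with hD
  set T0 := t ^ (r + 1) with hT0
  have hT01 : 1 ≤ T0 := Nat.one_le_pow _ _ ht1
  have htr1 : 1 ≤ t ^ r := Nat.one_le_pow _ _ ht1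
  have htT0 : t ^ r ≤ T0 := Nat.pow_le_pow_right ht1 (Nat.le_succ r)
  set M0 := (3 * r + 2) * T0 with hM0
  have hM01 : 1 ≤ M0 := by rw [hM0]; nlinarith
  -- the monomials
  let pm : (Fin (r + 1) → Fin D) → MvPolynomial I (𝓞 K) :=
    fun e => monomial (Finsupp.mapDomain s (mon e)) 1
  have hpmdeg : ∀ e, (pm e).totalDegree ≤ (r + 1) * D := fun e =>
    (totalDegree_monomial_le _ _).trans (degree_le_mapDomain s e)
  have hpmsum : ∀ e, ∑ m ∈ (pm e).support, house (algebraMap (𝓞 K) K ((pm e).coeff m)) ≤ 1 := by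
    intro e
    simp only [pm]
    rw [support_monomial, if_neg one_ne_zero, Finset.sum_singleton, coeff_monomial, if_pos rfl,
      map_one, house_one]
  have hval : ∀ (w : List (Fin r)) (e) (M : ℕ), (r + 1) * D + w.length ≤ M → 1 ≤ M →
      house (algebraMap (𝓞 K) K (aeval x (dW p w (pm e)))) ≤ (C1 * M) ^ M := by
    intro w e M hM hM1
    refine (hSize _ 1 (pm e) w (hpmdeg e) (hpmsum e)).trans ?_
    rw [one_mul]
    exact pow_bound hC1 hM (by omega) hM1
  -- the linear system
  let mat : Matrix (Fin r → Fin T0) (Fin (r + 1) → Fin D) (𝓞 K) :=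
    fun m e => aeval x (dW p (word fun j => (m j : ℕ)) (pm e))
  have hM0R : (1 : ℝ) ≤ M0 := by exact_mod_cast hM01
  have hC1M0 : 1 ≤ C1 * M0 := by nlinarith
  have hmat : ∀ m e, house (algebraMap (𝓞 K) K (mat m e)) ≤ (C1 * M0) ^ M0 := by
    intro m e
    apply hval _ _ _ _ hM01
    rw [length_word, hM0, hD]
    have h1 : ∑ j, (m j : ℕ) ≤ r * T0 := by
      calc ∑ j, (m j : ℕ) ≤ ∑ _j : Fin r, T0 := Finset.sum_le_sum fun j _ => (m j).isLt.le
        _ = r * T0 := by simp
    nlinarith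
  have hcardβ : Fintype.card (Fin (r + 1) → Fin D) = D ^ (r + 1) := by simp
  have hcardα : Fintype.card (Fin r → Fin T0) = T0 ^ r := by simp
  have hDpos : 0 < D := by rw [hD]; omega
  obtain ⟨ξ, hξ0, hξ1, hξ2⟩ := hSieg _ _ mat ((C1 * M0) ^ M0) (one_le_pow₀ hC1M0) hmat
    (by
      rw [hcardα, hcardβ, hD, hT0, mul_pow, ← pow_mul, ← pow_mul, mul_comm (r + 1) r]
      apply Nat.mul_le_mul_right
      calc 2 = 2 ^ 1 := rfl
        _ ≤ 2 ^ (r + 1) := Nat.pow_le_pow_right (by norm_num) (by omega))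
    (by rw [hcardβ]; positivity)
  rw [hcardβ] at hξ2
  set N : ℕ := D ^ (r + 1) with hN
  set Q : MvPolynomial (Fin (r + 1)) (𝓞 K) := QQ ξ with hQ
  refine ⟨Q, QQ_ne hξ0, ?_⟩
  set P : MvPolynomial I (𝓞 K) := rename s Q with hP
  have hPsum : P = ∑ e, ξ e • pm e := rename_QQ s ξ
  set PC : MvPolynomial I ℂ := map (oEmb σ) P with hPC
  -- reduction to `P`
  suffices hPz : ∀ z, A₀ z ≠ 0 → aeval (fun k => A k z / A₀ z) PC = 0 by
    intro z hz
    have h1 := hPz z hz
    rw [hPC, hP, aeval_map_rename] at h1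
    exact h1
  by_contra hcon
  -- values of the derivatives
  have hvalC : ∀ w, aeval (fun k => A k 0 / A₀ 0) (dW pC w PC) = oEmb σ (aeval x (dW p w P)) := by
    intro w
    have e : (fun k => A k 0 / A₀ 0) = fun i => oEmb σ (x i) := funext hI.value
    rw [map_aeval', map_dW, ← hPC, e]
  have hvalP : ∀ w, aeval x (dW p w P) = ∑ e, ξ e * aeval x (dW p w (pm e)) := by
    intro w
    rw [dW_eq, hPsum, map_sum, map_sum]
    refine Finset.sum_congr rfl fun e _ => ?_
    rw [map_smul, ← dW_eq, map_smul, smul_eq_mul]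
  have hshort : ∀ w : List (Fin r), w.length < T0 → aeval x (dW p w P) = 0 := by
    intro w hw
    apply oEmb_injective σ
    rw [map_zero, ← hvalC, hC r I A₀ A lam v h pC hI.ders _ _ (perm_word w) PC 0 h.zero, hvalC]
    have h1 : ∀ j, w.count j < T0 := fun j => lt_of_le_of_lt (List.count_le_length) hw
    have h2 : aeval x (dW p (word fun j => w.count j) P) = 0 := by
      have h3 : mat.mulVec ξ (fun j => ⟨w.count j, h1 j⟩) = 0 := by rw [hξ1]; rfl
      rw [hvalP]
      refine Eq.trans ?_ h3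
      rw [Matrix.mulVec, dotProduct]
      exact Finset.sum_congr rfl fun e _ => mul_comm _ _
    rw [h2, map_zero]
  -- minimal nonvanishing word
  have hex : ∃ n, ∃ w : List (Fin r), w.length = n ∧ aeval x (dW p w P) ≠ 0 := by
    by_contra hno
    push Not at hno
    apply hcon
    apply hO r I A₀ A lam v h pC hI.ders PC
    intro w
    rw [hvalC, hno w.length w rfl, map_zero]
  have hexT : ∃ T, (∃ w : List (Fin r), w.length = T ∧ aeval x (dW p w P) ≠ 0) ∧
      ∀ w' : List (Fin r), w'.length < T → aeval x (dW p w' P) = 0 := by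
    refine ⟨Nat.find hex, Nat.find_spec hex, ?_⟩
    intro w' hw'
    by_contra hne
    exact Nat.find_min hex hw' ⟨w', rfl, hne⟩
  obtain ⟨T, ⟨w, hwT, hw0⟩, hmin⟩ := hexT
  have hTT0 : T0 ≤ T := by
    by_contra hlt
    exact hw0 (hshort w (by omega))
  obtain ⟨S, hS1, hfin⟩ := hnum T hTT0
  set α := aeval x (dW p w P) with hα
  have hT1 : 1 ≤ T := hT01.trans hTT0
  have hT1R : (1 : ℝ) ≤ T := by exact_mod_cast hT1
  set M := (3 * r + 2) * T with hM
  have hM0M : M0 ≤ M := Nat.mul_le_mul_left _ hTT0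
  have hM1 : 1 ≤ M := hM01.trans hM0M
  have hMR : (M : ℝ) = (3 * r + 2) * T := by rw [hM]; push_cast; ring
  have haT : a * T = c * C1 * M := by rw [ha, hMR]; ring
  have haT1 : 1 ≤ a * T := by nlinarith
  -- the basic estimates
  have hNle : (N : ℝ) ≤ (a * T) ^ (r + 1) := by
    rw [hN]
    push_cast
    apply pow_le_pow_left₀ (by positivity)
    have h1 : D ≤ 2 * T := by rw [hD]; nlinarith
    have h2 : (D : ℝ) ≤ 2 * T := by exact_mod_cast h1
    have h3 : (2 : ℝ) ≤ a := by rw [ha]; nlinarith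
    nlinarith
  have hcle : c ≤ a * T := by
    have h1 : (1 : ℝ) ≤ C1 * ((3 * r + 2) * T) := by
      have : (1 : ℝ) ≤ (3 * r + 2) * T := by nlinarith
      nlinarith
    calc c = c * 1 := (mul_one c).symm
      _ ≤ c * (C1 * ((3 * r + 2) * T)) := by gcongr
      _ = a * T := by rw [ha]; ring
  have hC1M : C1 * M ≤ a * T := by
    rw [haT]
    have h1 : 0 ≤ C1 * M := by positivity
    nlinarith
  have hC1Mpos : 0 ≤ C1 * (M : ℝ) := by positivity
  have hM0MR : (M0 : ℝ) ≤ M := by exact_mod_cast hM0M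
  have hB : (C1 * M0) ^ M0 ≤ (a * T) ^ M := by
    calc (C1 * (M0 : ℝ)) ^ M0 ≤ (a * T) ^ M0 := by
          apply pow_le_pow_left₀ (by positivity)
          refine le_trans ?_ hC1M
          gcongr
      _ ≤ (a * T) ^ M := pow_le_pow_right₀ haT1 hM0M
  have hr3 : 2 * r + 3 ≤ M := by rw [hM]; nlinarith
  have hH : ∑ e, house (algebraMap (𝓞 K) K (ξ e)) ≤ (a * T) ^ (2 * M) := by
    calc ∑ e, house (algebraMap (𝓞 K) K (ξ e)) ≤ ∑ _e : Fin (r + 1) → Fin D, c * N * (C1 * M0) ^ M0 :=
          Finset.sum_le_sum fun e _ => hξ2 e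
      _ = N * (c * N * (C1 * M0) ^ M0) := by
          rw [Finset.sum_const, Finset.card_univ, hcardβ, nsmul_eq_mul]
      _ ≤ (a * T) ^ (r + 1) * ((a * T) * (a * T) ^ (r + 1) * (a * T) ^ M) := by gcongr
      _ = (a * T) ^ (2 * r + 3 + M) := by ring
      _ ≤ (a * T) ^ (2 * M) := pow_le_pow_right₀ haT1 (by omega)
  have hhouse : house (algebraMap (𝓞 K) K α) ≤ (a * T) ^ (4 * M) := by
    rw [hα, hvalP, map_sum]
    have hlen : (r + 1) * D + w.length ≤ M := by
      rw [hwT, hM, hD]; nlinarith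
    calc house (∑ e, algebraMap (𝓞 K) K (ξ e * aeval x (dW p w (pm e))))
        ≤ ∑ e, house (algebraMap (𝓞 K) K (ξ e * aeval x (dW p w (pm e)))) :=
          house_sum_le_sum_house _ _
      _ ≤ ∑ e, house (algebraMap (𝓞 K) K (ξ e)) * (C1 * M) ^ M := by
          refine Finset.sum_le_sum fun e _ => ?_
          rw [map_mul]
          exact (house_mul_le _ _).trans
            (mul_le_mul_of_nonneg_left (hval w e M hlen hM1) (house_nonneg _))
      _ = (∑ e, house (algebraMap (𝓞 K) K (ξ e))) * (C1 * M) ^ M := by rw [Finset.sum_mul]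
      _ ≤ (a * T) ^ (2 * M) * (a * T) ^ M := by gcongr
      _ = (a * T) ^ (3 * M) := by ring
      _ ≤ (a * T) ^ (4 * M) := pow_le_pow_right₀ haT1 (by omega)
  -- the analytic bound
  have hPCdeg : PC.totalDegree ≤ (r + 1) * D := by
    have h1 : P.totalDegree ≤ (r + 1) * D := by
      rw [hPsum]
      refine (totalDegree_finsetSum_le fun e _ => ?_)
      exact (totalDegree_smul_le _ _).trans (hpmdeg e)
    refine le_trans ?_ h1
    exact totalDegree_map_le' (oEmb σ) P
  have hPCsum : ∑ m ∈ PC.support, ‖PC.coeff m‖ ≤ (a * T) ^ (2 * M) := by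
    have h1 : PC = ∑ e, monomial (Finsupp.mapDomain s (mon e)) (oEmb σ (ξ e)) := by
      rw [hPC, hPsum, map_sum]
      refine Finset.sum_congr rfl fun e _ => ?_
      simp only [pm]
      rw [smul_monomial, smul_eq_mul, mul_one, map_monomial]
    rw [h1]
    refine (sum_coeff_le _ _).trans (le_trans ?_ hH)
    exact Finset.sum_le_sum fun e _ => norm_oEmb_le σ _
  have hana := hAna ((r + 1) * D) T S ((a * T) ^ (2 * M)) PC (by nlinarith) hS1 hPCdeg hPCsum
    (fun w' hw' => by rw [hvalC, hmin w' hw', map_zero]) w hwT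
  rw [hvalC, ← hα] at hana
  have hfact : (T.factorial : ℝ) ≤ (a * T) ^ M := by
    have h1 : (T.factorial : ℝ) ≤ (T : ℝ) ^ T := by exact_mod_cast Nat.factorial_le_pow T
    calc (T.factorial : ℝ) ≤ (T : ℝ) ^ T := h1
      _ ≤ (a * T) ^ T := by
          apply pow_le_pow_left₀ (by positivity)
          nlinarith
      _ ≤ (a * T) ^ M := pow_le_pow_right₀ haT1 (by rw [hM]; nlinarith)
  have hliou := liouville σ hw0
  rw [← hd] at hliou
  set U : ℝ := (a * T) ^ (4 * M) with hU
  have hU1 : 1 ≤ U := one_le_pow₀ haT1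
  set X : ℝ := Real.exp (C2 * (((r + 1) * D : ℕ) : ℝ) * (S : ℝ) ^ 2) * (1 / 2 : ℝ) ^ (T / r * S)
    with hX
  have hXpos : 0 < X := by positivity
  have h1 : ‖oEmb σ α‖ ≤ U * C2 ^ T * X := by
    refine hana.trans ?_
    calc (a * T) ^ (2 * M) * C2 ^ T * (T.factorial : ℝ) *
          Real.exp (C2 * (((r + 1) * D : ℕ) : ℝ) * (S : ℝ) ^ 2) * (1 / 2 : ℝ) ^ (T / r * S)
        = (a * T) ^ (2 * M) * (T.factorial : ℝ) * C2 ^ T * X := by rw [hX]; ring
      _ ≤ (a * T) ^ (2 * M) * (a * T) ^ M * C2 ^ T * X := by gcongr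
      _ = (a * T) ^ (3 * M) * C2 ^ T * X := by ring
      _ ≤ U * C2 ^ T * X := by
          have h2 : (a * T) ^ (3 * M) ≤ U := pow_le_pow_right₀ haT1 (by omega)
          gcongr
  have h2 : house (algebraMap (𝓞 K) K α) ^ (d - 1) ≤ U ^ (d + 1) := by
    calc house (algebraMap (𝓞 K) K α) ^ (d - 1) ≤ U ^ (d - 1) :=
          pow_le_pow_left₀ (house_nonneg _) hhouse _
      _ ≤ U ^ (d + 1) := pow_le_pow_right₀ hU1 (by omega)
  have h3 : 1 ≤ U * C2 ^ T * X * U ^ (d + 1) := by
    refine hliou.trans ?_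
    exact mul_le_mul h1 h2 (pow_nonneg (house_nonneg _) _) (by positivity)
  have h4 : U * C2 ^ T * X * U ^ (d + 1) = (a * T) ^ (4 * (3 * r + 2) * (d + 2) * T) * C2 ^ T *
      Real.exp (C2 * (((r + 1) * D : ℕ) : ℝ) * (S : ℝ) ^ 2) * (1 / 2 : ℝ) ^ (T / r * S) := by
    have h5 : (a * T) ^ (4 * (3 * r + 2) * (d + 2) * T) = U ^ (d + 2) := by
      rw [hU, ← pow_mul, hM]
      congr 1
      ring
    rw [h5, hX]
    ring
  rw [h4] at h3
  exact absurd hfin (not_lt.2 h3)

/-- The embedding of the ring of integers in the algebraic numbers. -/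
theorem exists_tau {K : Type} [Field K] [NumberField K] (σ : K →+* ℂ) :
    ∃ τ : 𝓞 K →+* Qbar, ∀ x, ((τ x : Qbar) : ℂ) = oEmb σ x := by
  have h : ∀ x : 𝓞 K, oEmb σ x ∈ Qbar := by
    intro x
    have h1 : IsAlgebraic ℚ (algebraMap (𝓞 K) K x) := Algebra.IsAlgebraic.isAlgebraic _
    have h2 : IsAlgebraic ℚ (σ (algebraMap (𝓞 K) K x)) := by
      let σ' : K →ₐ[ℚ] ℂ := σ.toRatAlgHom
      exact h1.algHom σ'
    exact mem_algebraicClosure_iff.2 h2
  exact ⟨(oEmb σ).codRestrict Qbar.toSubring h, fun x => rfl⟩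

end TlM

open TlM in
/-- Module TL. -/
theorem specTL (hA : SpecANA) (hO : SpecORD) (hR : SpecRED) (hS : SpecSIZE) (hC : SpecCOMM) :
    SpecTL := by
  intro r I _ A₀ A lam v h s
  rcases Nat.eq_zero_or_pos r with hr | hr
  · subst hr
    refine ⟨X 0 - C ⟨A (s 0) 0 / A₀ 0, h.value (s 0)⟩, ?_, ?_⟩
    · intro h0
      have h1 := congrArg (coeff (Finsupp.single 0 1)) h0
      rw [coeff_sub, coeff_C, if_neg, sub_zero, coeff_zero, coeff_single_X, if_pos ⟨rfl, rfl⟩] at h1
      · exact one_ne_zero h1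
      · intro h2
        have := DFunLike.congr_fun h2 0
        simp at this
    · intro z _
      have hz : z = 0 := Subsingleton.elim _ _
      subst hz
      rw [map_sub, aeval_X, aeval_C]
      exact sub_self _
  · obtain ⟨K, _, _, σ, q, v', x, p, hq, hP, hI⟩ := hR r I A₀ A lam v h
    obtain ⟨Q, hQ0, hQ⟩ := main hA hO hS hC hr σ hP x p hI s
    obtain ⟨τ, hτ⟩ := exists_tau σ
    have hqC : (q : ℂ) ≠ 0 := Nat.cast_ne_zero.2 hq
    have hqQ : (q : Qbar) ≠ 0 := Nat.cast_ne_zero.2 hq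
    refine ⟨aeval (fun k => C (q : Qbar) * X k) (map τ Q), ?_, ?_⟩
    · intro h0
      apply hQ0
      have h1 : aeval (fun k => C ((q : Qbar)⁻¹) * X k)
          (aeval (fun k : Fin (r + 1) => C (q : Qbar) * X k) (map τ Q)) = map τ Q := by
        have h2 : ∀ R : MvPolynomial (Fin (r + 1)) Qbar, aeval (fun k => C ((q : Qbar)⁻¹) * X k)
          (aeval (fun k : Fin (r + 1) => C (q : Qbar) * X k) R) = R := by
          intro R
          induction R using MvPolynomial.induction_on with
          | C a => simp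
          | add P Q hP hQ => simp only [map_add, hP, hQ]
          | mul_X P i hP =>
            rw [map_mul, map_mul, hP, aeval_X, map_mul, aeval_X, aeval_C,
              MvPolynomial.algebraMap_eq, ← mul_assoc (C (q : Qbar)), ← C_mul,
              mul_inv_cancel₀ hqQ, C_1, one_mul]
        exact h2 _
      rw [h0, map_zero] at h1
      have hτi : Function.Injective τ := by
        intro a b hab
        apply oEmb_injective σ
        rw [← hτ, ← hτ, hab]
      apply map_injective τ hτi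
      rw [← h1, map_zero]
    · intro z hz
      have h1 := hQ z hz
      have h2 : ∀ R : MvPolynomial (Fin (r + 1)) (𝓞 K),
          aeval (fun k => A (s k) z / A₀ z) (aeval (fun k : Fin (r + 1) => C (q : Qbar) * X k)
            (map τ R)) = aeval (fun k => (q : ℂ) * A (s k) z / A₀ z) (map (oEmb σ) R) := by
        intro R
        induction R using MvPolynomial.induction_on with
        | C a =>
          simp only [map_C, aeval_C, MvPolynomial.algebraMap_eq]
          exact hτ a
        | add P Q hP hQ => simp only [map_add, hP, hQ]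
        | mul_X P i hP =>
          simp only [map_mul, map_X, aeval_X, hP, aeval_C]
          rw [map_natCast, mul_div_assoc]
      rw [h2]
      exact h1

/-- Module TL, without hypotheses. -/
theorem specTL' : SpecTL := specTL AnaM.specANA AnaM.specORD specRED specSIZE specCOMM

end Pool.Agent.Lib.MPf11a48.U
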