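import Pool.Agent.Lib.MP_f11a48_ag.U.Spec
import Pool.Agent.Lib.MP_f11a48_ag.U.Osgood

/-!
# Module CLOS

If any `dim U + 1` of the functions `f_i` are algebraically dependent on the complex subspace `U`,
then `U` is spanned over `ℝ` by lattice vectors.
-/

set_option autoImplicit false

open MvPolynomial Pool.Agent.Lib.MPf11a48.CM Filter Topology

namespace Pool.Agent.Lib.MPf11a48.U

namespace Clos

theorem exists_proj {Z : Type} [Fintype Z] (U : Submodule ℂ (Z → ℂ)) :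
    ∃ p : (Z → ℂ) →L[ℂ] (Z → ℂ), (∀ z ∈ U, p z = 0) ∧ ∀ z, z - p z ∈ U := by
  obtain ⟨C, hC⟩ := U.exists_isCompl
  let q : (Z → ℂ) →ₗ[ℂ] (Z → ℂ) := C.subtype ∘ₗ Submodule.projectionOnto C U hC.symm
  refine ⟨LinearMap.toContinuousLinearMap q, fun z hz => ?_, fun z => ?_⟩
  · have : Submodule.projectionOnto C U hC.symm z = 0 :=
      (Submodule.projectionOnto_apply_eq_zero_iff hC.symm).2 hz
    simp [q, this]
  · have h1 : Submodule.projectionOnto C U hC.symm
        (z - (Submodule.projectionOnto C U hC.symm z : C)) = 0 := by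
      rw [map_sub, Submodule.projectionOnto_apply_left hC.symm, sub_self]
    exact (Submodule.projectionOnto_apply_eq_zero_iff hC.symm).1 h1

theorem real_smul_eq {Z : Type} (r : ℝ) (v : Z → ℂ) : ((r : ℂ)) • v = r • v := by
  ext j
  simp

theorem int_smul_eq {Z : Type} (r : ℤ) (v : Z → ℂ) : ((r : ℂ)) • v = r • v := by
  ext j
  simp

/-- every vector is near the lattice -/
theorem near {Z Λ : Type} [Fintype Z] [Fintype Λ] (lat : Λ → (Z → ℂ))
    (hi : LinearIndependent ℝ lat) (hc : Fintype.card Λ = 2 * Fintype.card Z) :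
    ∃ R : ℝ, ∀ v : Z → ℂ, ∃ x : Λ → ℤ, ‖v - ∑ a, (x a : ℂ) • lat a‖ ≤ R := by
  have hfr : Module.finrank ℝ (Z → ℂ) = 2 * Fintype.card Z := by
    rw [Module.finrank_pi_fintype]
    simp [Complex.finrank_real_complex, mul_comm]
  have hsp : Submodule.span ℝ (Set.range lat) = ⊤ :=
    hi.span_eq_top_of_card_eq_finrank' (by rw [hc, hfr])
  let b := Module.Basis.mk hi hsp.ge
  refine ⟨∑ a, ‖lat a‖, fun v => ?_⟩
  obtain ⟨c, hv⟩ : ∃ c : Λ → ℝ, v = ∑ a, c a • lat a := by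
    refine ⟨fun a => b.repr v a, ?_⟩
    conv_lhs => rw [← b.sum_repr v]
    refine Finset.sum_congr rfl fun a _ => ?_
    simp [b]
  refine ⟨fun a => ⌊c a⌋, ?_⟩
  have h2 : v - ∑ a, ((⌊c a⌋ : ℤ) : ℂ) • lat a = ∑ a, (Int.fract (c a)) • lat a := by
    rw [hv, ← Finset.sum_sub_distrib]
    refine Finset.sum_congr rfl fun a _ => ?_
    have : ((⌊c a⌋ : ℤ) : ℂ) = (((⌊c a⌋ : ℤ) : ℝ) : ℂ) := by push_cast; rfl
    rw [this, real_smul_eq, ← sub_smul, Int.self_sub_floor]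
  rw [h2]
  refine (norm_sum_le _ _).trans (Finset.sum_le_sum fun a _ => ?_)
  rw [norm_smul, Real.norm_eq_abs, abs_of_nonneg (Int.fract_nonneg _)]
  exact mul_le_of_le_one_left (norm_nonneg _) (Int.fract_lt_one _).le

/-- if `U` is not spanned by lattice vectors, lattice vectors come close to `U` -/
theorem small {Z Λ : Type} [Fintype Z] [Fintype Λ] (lat : Λ → (Z → ℂ))
    (hi : LinearIndependent ℝ lat) (hc : Fintype.card Λ = 2 * Fintype.card Z)
    (U : Submodule ℂ (Z → ℂ)) (p : (Z → ℂ) →L[ℂ] (Z → ℂ)) (hp0 : ∀ z ∈ U, p z = 0)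
    (hp1 : ∀ z, z - p z ∈ U) (u : Z → ℂ) (hu : u ∈ U)
    (hus : u ∉ Submodule.span ℝ {w : Z → ℂ | w ∈ U ∧ ∃ x : Λ → ℤ, w = ∑ a, (x a : ℂ) • lat a})
    (ε : ℝ) (hε : 0 < ε) :
    ∃ x : Λ → ℤ, 0 < ‖p (∑ a, (x a : ℂ) • lat a)‖ ∧ ‖p (∑ a, (x a : ℂ) • lat a)‖ < ε := by
  by_contra hcon
  push Not at hcon
  obtain ⟨R, hR⟩ := near lat hi hc
  choose x hx using fun m : ℕ => hR ((m : ℂ) • u)
  set l : ℕ → (Z → ℂ) := fun m => ∑ a, (x m a : ℂ) • lat a with hl
  have hpl : ∀ m, ‖p (l m)‖ ≤ ‖p‖ * R := by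
    intro m
    have h1 : p (l m) = - p ((m : ℂ) • u - l m) := by
      rw [map_sub, hp0 _ (U.smul_mem _ hu)]
      simp
    rw [h1, norm_neg]
    exact (p.le_opNorm _).trans (mul_le_mul_of_nonneg_left (hx m) (norm_nonneg _))
  obtain ⟨a, -, φ, hφ, ha⟩ := tendsto_subseq_of_bounded
    (Metric.isBounded_closedBall (x := (0 : Z → ℂ)) (r := ‖p‖ * R))
    (x := fun m => p (l m)) (fun m => by simpa using hpl m)
  obtain ⟨M, hM⟩ := (Metric.tendsto_atTop.1 ha) (ε / 2) (by positivity)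
  have hmem : ∀ m ≥ M, l (φ m) - l (φ M) ∈ U := by
    intro m hm
    have hlt : ‖p (∑ a, ((x (φ m) a - x (φ M) a : ℤ) : ℂ) • lat a)‖ < ε := by
      have h1 : ∑ a, ((x (φ m) a - x (φ M) a : ℤ) : ℂ) • lat a = l (φ m) - l (φ M) := by
        rw [hl]
        simp only
        rw [← Finset.sum_sub_distrib]
        refine Finset.sum_congr rfl fun a _ => ?_
        push_cast
        rw [sub_smul]
      rw [h1, map_sub]
      have h2 := hM m hm
      have h3 := hM M le_rfl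
      simp only [Function.comp] at h2 h3
      calc ‖p (l (φ m)) - p (l (φ M))‖ = dist (p (l (φ m))) (p (l (φ M))) := (dist_eq_norm _ _).symm
        _ ≤ dist (p (l (φ m))) a + dist (p (l (φ M))) a := dist_triangle_right _ _ _
        _ < ε := by linarith
    have h0 : p (∑ a, ((x (φ m) a - x (φ M) a : ℤ) : ℂ) • lat a) = 0 := by
      by_contra hne
      exact absurd (hcon _ (norm_pos_iff.2 hne)) (not_le.2 hlt)
    have h1 : ∑ a, ((x (φ m) a - x (φ M) a : ℤ) : ℂ) • lat a = l (φ m) - l (φ M) := by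
      rw [hl]
      simp only
      rw [← Finset.sum_sub_distrib]
      refine Finset.sum_congr rfl fun a _ => ?_
      push_cast
      rw [sub_smul]
    have h2 := hp1 (l (φ m) - l (φ M))
    rw [← h1] at h2 ⊢
    rwa [h0, sub_zero] at h2
  apply hus
  set Sp := Submodule.span ℝ {w : Z → ℂ | w ∈ U ∧ ∃ x : Λ → ℤ, w = ∑ a, (x a : ℂ) • lat a} with hSp
  have hcl : IsClosed (Sp : Set (Z → ℂ)) := Submodule.closed_of_finiteDimensional Sp
  have hin : ∀ m ≥ M, ((φ m : ℝ))⁻¹ • (l (φ m) - l (φ M)) ∈ Sp := by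
    intro m hm
    refine Sp.smul_mem _ (Submodule.subset_span ⟨hmem m hm, fun a => x (φ m) a - x (φ M) a, ?_⟩)
    rw [hl]
    simp only
    rw [← Finset.sum_sub_distrib]
    refine Finset.sum_congr rfl fun a _ => ?_
    push_cast
    rw [sub_smul]
  have hlim : Tendsto (fun m => ((φ m : ℝ))⁻¹ • (l (φ m) - l (φ M))) atTop (𝓝 u) := by
    rw [tendsto_iff_norm_sub_tendsto_zero]
    have hb : ∀ᶠ m in atTop, ‖((φ m : ℝ))⁻¹ • (l (φ m) - l (φ M)) - u‖ ≤
        ((φ m : ℝ))⁻¹ * (R + ‖l (φ M)‖) := by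
      filter_upwards [eventually_ge_atTop 1] with m hm
      have hφm : 0 < (φ m : ℝ) := by
        have : m ≤ φ m := hφ.id_le m
        have : 0 < φ m := by omega
        exact_mod_cast this
      have h1 : ((φ m : ℝ))⁻¹ • (l (φ m) - l (φ M)) - u =
          ((φ m : ℝ))⁻¹ • (-((φ m : ℂ) • u - l (φ m)) - l (φ M)) := by
        have h2 : u = ((φ m : ℝ))⁻¹ • ((φ m : ℂ) • u) := by
          have h3 : ((φ m : ℂ)) • u = (φ m : ℝ) • u := by
            rw [← real_smul_eq]; push_cast; rfl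
          rw [h3, smul_smul, inv_mul_cancel₀ hφm.ne', one_smul]
        conv_lhs => rw [h2]
        rw [← smul_sub]
        congr 1
        abel
      rw [h1, norm_smul, norm_inv, Real.norm_eq_abs, abs_of_pos hφm]
      refine mul_le_mul_of_nonneg_left ?_ (by positivity)
      calc ‖-((φ m : ℂ) • u - l (φ m)) - l (φ M)‖ ≤ ‖-((φ m : ℂ) • u - l (φ m))‖ + ‖l (φ M)‖ :=
            norm_sub_le _ _
        _ ≤ R + ‖l (φ M)‖ := by
            rw [norm_neg]
            exact add_le_add_left (hx (φ m)) _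
    have hz : Tendsto (fun m => ((φ m : ℝ))⁻¹ * (R + ‖l (φ M)‖)) atTop (𝓝 0) := by
      have h1 : Tendsto (fun m => ((φ m : ℝ))⁻¹) atTop (𝓝 0) :=
        tendsto_inv_atTop_zero.comp (tendsto_natCast_atTop_atTop.comp hφ.tendsto_atTop)
      simpa using h1.mul_const (R + ‖l (φ M)‖)
    exact squeeze_zero' (Eventually.of_forall fun m => norm_nonneg _) hb hz
  exact hcl.mem_of_tendsto hlim ((eventually_ge_atTop M).mono fun m hm => hin m hm)

/-- a direction `x` outside `U` such that `U + ℝ x` lies in the closure of `U + L` -/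
theorem direction {Z Λ : Type} [Fintype Z] [Fintype Λ] (lat : Λ → (Z → ℂ))
    (U : Submodule ℂ (Z → ℂ)) (p : (Z → ℂ) →L[ℂ] (Z → ℂ)) (hp0 : ∀ z ∈ U, p z = 0)
    (hp1 : ∀ z, z - p z ∈ U)
    (hsm : ∀ ε : ℝ, 0 < ε → ∃ x : Λ → ℤ, 0 < ‖p (∑ a, (x a : ℂ) • lat a)‖ ∧
      ‖p (∑ a, (x a : ℂ) • lat a)‖ < ε) :
    ∃ x : Z → ℂ, x ∉ U ∧ p x = x ∧ ∀ t : ℝ, ∃ (g : ℕ → Λ → ℤ) (w : ℕ → Z → ℂ), (∀ k, w k ∈ U) ∧
      Tendsto (fun k => w k + ∑ a, (g k a : ℂ) • lat a) atTop (𝓝 ((t : ℂ) • x)) := by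
  have hpp : ∀ z, p (p z) = p z := by
    intro z
    have := hp0 _ (hp1 z)
    rw [map_sub, sub_eq_zero] at this
    exact this.symm
  choose x hx using fun k : ℕ => hsm (1 / ((k : ℝ) + 1)) (by positivity)
  set l : ℕ → (Z → ℂ) := fun k => ∑ a, (x k a : ℂ) • lat a with hl
  set n : ℕ → ℝ := fun k => ‖p (l k)‖ with hn
  have hn0 : ∀ k, 0 < n k := fun k => (hx k).1
  have hn1 : Tendsto n atTop (𝓝 0) :=
    squeeze_zero (fun k => (hn0 k).le) (fun k => (hx k).2.le) tendsto_one_div_add_atTop_nhds_zero_nat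
  set y : ℕ → (Z → ℂ) := fun k => (n k)⁻¹ • p (l k) with hy
  have hy1 : ∀ k, ‖y k‖ = 1 := by
    intro k
    rw [hy]
    simp only
    rw [norm_smul, norm_inv, Real.norm_eq_abs, abs_of_pos (hn0 k)]
    exact inv_mul_cancel₀ (hn0 k).ne'
  have hpy : ∀ k, p (y k) = y k := by
    intro k
    rw [hy]
    simp only
    rw [← real_smul_eq, map_smul, hpp]
  obtain ⟨v, hv, φ, hφ, hlim⟩ := (isCompact_sphere (0 : Z → ℂ) 1).tendsto_subseq
    (x := y) (fun k => by simpa using hy1 k)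
  have hv1 : ‖v‖ = 1 := by simpa using hv
  have hpv : p v = v := by
    have h1 : Tendsto (fun k => p ((y ∘ φ) k)) atTop (𝓝 (p v)) := (p.continuous.tendsto v).comp hlim
    have h2 : (fun k => p ((y ∘ φ) k)) = y ∘ φ := by
      funext k
      exact hpy _
    rw [h2] at h1
    exact tendsto_nhds_unique h1 hlim
  refine ⟨v, ?_, hpv, fun t => ?_⟩
  · intro hvU
    have := hp0 v hvU
    rw [hpv] at this
    rw [this] at hv1
    simp at hv1
  set m : ℕ → ℤ := fun k => ⌊t / n (φ k)⌋ with hm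
  refine ⟨fun k a => m k * x (φ k) a, fun k => (m k : ℂ) • (p (l (φ k)) - l (φ k)),
    fun k => U.smul_mem _ ?_, ?_⟩
  · have := U.neg_mem (hp1 (l (φ k)))
    rwa [neg_sub] at this
  have heq : (fun k => (m k : ℂ) • (p (l (φ k)) - l (φ k)) +
      ∑ a, ((m k * x (φ k) a : ℤ) : ℂ) • lat a) =
      fun k => (((m k : ℝ) * n (φ k) : ℝ)) • y (φ k) := by
    funext k
    have h1 : ∑ a, ((m k * x (φ k) a : ℤ) : ℂ) • lat a = (m k : ℂ) • l (φ k) := by
      rw [hl]
      simp only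
      rw [Finset.smul_sum]
      refine Finset.sum_congr rfl fun a _ => ?_
      push_cast
      rw [mul_smul]
    rw [h1, ← smul_add, sub_add_cancel]
    rw [hy]
    simp only
    rw [smul_smul, mul_assoc, mul_inv_cancel₀ (hn0 _).ne', mul_one, ← real_smul_eq]
    push_cast
    rfl
  rw [heq]
  have hmn : Tendsto (fun k => (m k : ℝ) * n (φ k)) atTop (𝓝 t) := by
    rw [tendsto_iff_norm_sub_tendsto_zero]
    refine squeeze_zero (fun k => norm_nonneg _) (fun k => ?_) (hn1.comp hφ.tendsto_atTop)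
    have h0 := hn0 (φ k)
    have h1 : (m k : ℝ) ≤ t / n (φ k) := Int.floor_le _
    have h2 : t / n (φ k) < m k + 1 := Int.lt_floor_add_one _
    rw [le_div_iff₀ h0] at h1
    rw [div_lt_iff₀ h0] at h2
    rw [Real.norm_eq_abs, abs_le]
    simp only [Function.comp]
    constructor <;> nlinarith
  have := hmn.smul hlim
  simpa [real_smul_eq] using this

/-- periodicity of the `f_i` -/
theorem periods {Z T Θ Λ : Type} [Fintype Z] [Fintype T] [Fintype Θ] [Fintype Λ]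
    (D : TD Z T Θ Λ) (hD : D.Good) (x : Λ → ℤ) (z : Z → ℂ) :
    (D.th D.o (z + ∑ a, (x a : ℂ) • D.lat a) = 0 ↔ D.th D.o z = 0) ∧
      ∀ i, D.f i (z + ∑ a, (x a : ℂ) • D.lat a) = D.f i z := by
  let S : AddSubgroup (Z → ℂ) :=
    { carrier := {l | ∀ z, (D.th D.o (z + l) = 0 ↔ D.th D.o z = 0) ∧ ∀ i, D.f i (z + l) = D.f i z}
      zero_mem' := by simp
      add_mem' := by
        intro a b ha hb z
        rw [← add_assoc]
        refine ⟨(hb _).1.trans (ha _).1, fun i => ((hb _).2 i).trans ((ha _).2 i)⟩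
      neg_mem' := by
        intro a ha z
        have h := ha (z + -a)
        rw [neg_add_cancel_right] at h
        exact ⟨h.1.symm, fun i => (h.2 i).symm⟩ }
  have hlat : ∀ a, D.lat a ∈ S := by
    intro a z
    obtain ⟨e, he, h⟩ := hD.th_period a
    refine ⟨?_, fun i => ?_⟩
    · rw [h D.o z]
      simp [he z]
    · unfold TD.f
      rw [h i z, h D.o z, mul_div_mul_left _ _ (he z)]
  have hmem : (∑ a, (x a : ℂ) • D.lat a) ∈ S := by
    refine S.sum_mem fun a _ => ?_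
    rw [int_smul_eq]
    exact S.zsmul_mem (hlat a) _
  exact hmem z

theorem diff_aeval {E σ : Type} [NormedAddCommGroup E] [NormedSpace ℂ E] (g : σ → E → ℂ) (z : E)
    (h : ∀ k, DifferentiableAt ℂ (g k) z) (P : MvPolynomial σ ℂ) :
    DifferentiableAt ℂ (fun w => aeval (fun k => g k w) P) z := by
  induction P using MvPolynomial.induction_on with
  | C a => simp
  | add p q hp hq =>
    simp only [map_add]
    exact hp.add hq
  | mul_X p n hp =>
    simp only [map_mul, aeval_X]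
    exact hp.mul (h n)

theorem diff_f {Z T Θ Λ : Type} [Fintype Z] [Fintype T] [Fintype Θ] [Fintype Λ]
    (D : TD Z T Θ Λ) (hD : D.Good) (i : Θ) (z : Z → ℂ) (hz : D.th D.o z ≠ 0) :
    DifferentiableAt ℂ (D.f i) z := by
  have h : D.f i = fun z => D.th i z * (D.th D.o z)⁻¹ := by
    funext w
    exact div_eq_mul_inv _ _
  rw [h]
  exact ((hD.th_diff i) z).mul (((hD.th_diff D.o) z).inv hz)

/-- extension of the relation to `U + ℝ x` -/
theorem extend_real {Z T Θ Λ : Type} [Fintype Z] [Fintype T] [Fintype Θ] [Fintype Λ]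
    (D : TD Z T Θ Λ) (hD : D.Good) (U : Submodule ℂ (Z → ℂ)) {σ : Type} (s : σ → Θ)
    (P : MvPolynomial σ ℂ)
    (hP : ∀ z ∈ U, D.th D.o z ≠ 0 → aeval (fun k => D.f (s k) z) P = 0)
    (x : Z → ℂ) (t : ℝ) (g : ℕ → Λ → ℤ) (w : ℕ → Z → ℂ) (hw : ∀ k, w k ∈ U)
    (hlim : Tendsto (fun k => w k + ∑ a, (g k a : ℂ) • D.lat a) atTop (𝓝 ((t : ℂ) • x)))
    (u : Z → ℂ) (hu : u ∈ U) (hz : D.th D.o (u + (t : ℂ) • x) ≠ 0) :
    aeval (fun k => D.f (s k) (u + (t : ℂ) • x)) P = 0 := by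
  have h1 : Tendsto (fun k => u + (w k + ∑ a, (g k a : ℂ) • D.lat a)) atTop
      (𝓝 (u + (t : ℂ) • x)) := tendsto_const_nhds.add hlim
  have hc : ContinuousAt (fun z => aeval (fun k => D.f (s k) z) P) (u + (t : ℂ) • x) :=
    (diff_aeval (fun k => D.f (s k)) _ (fun k => diff_f D hD (s k) _ hz) P).continuousAt
  have h2 := hc.tendsto.comp h1
  have hne : ∀ᶠ k in atTop, D.th D.o (u + (w k + ∑ a, (g k a : ℂ) • D.lat a)) ≠ 0 :=
    (((hD.th_diff D.o).continuous.tendsto _).comp h1).eventually_ne hz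
  have h3 : ∀ᶠ k in atTop, ((fun z => aeval (fun k => D.f (s k) z) P) ∘
      fun k => u + (w k + ∑ a, (g k a : ℂ) • D.lat a)) k = 0 := by
    filter_upwards [hne] with k hk
    simp only [Function.comp]
    rw [← add_assoc] at hk ⊢
    obtain ⟨p1, p2⟩ := periods D hD (g k) (u + w k)
    have hk' : D.th D.o (u + w k) ≠ 0 := fun h => hk (p1.2 h)
    simp only [p2]
    exact hP _ (U.add_mem hu (hw k)) hk'
  exact tendsto_nhds_unique (h2.congr' h3) tendsto_const_nhds |>.symm ▸ rfl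

/-- extension of the relation to `U + ℂ x`, near `0` -/
theorem extend_complex {Z T Θ Λ : Type} [Fintype Z] [Fintype T] [Fintype Θ] [Fintype Λ]
    (D : TD Z T Θ Λ) (hD : D.Good) (U : Submodule ℂ (Z → ℂ)) {σ : Type} (s : σ → Θ)
    (P : MvPolynomial σ ℂ)
    (hP : ∀ z ∈ U, D.th D.o z ≠ 0 → aeval (fun k => D.f (s k) z) P = 0)
    (p : (Z → ℂ) →L[ℂ] (Z → ℂ)) (hp0 : ∀ z ∈ U, p z = 0)
    (x : Z → ℂ) (hx0 : x ≠ 0) (hx : p x = x)
    (hdir : ∀ t : ℝ, ∃ (g : ℕ → Λ → ℤ) (w : ℕ → Z → ℂ), (∀ k, w k ∈ U) ∧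
      Tendsto (fun k => w k + ∑ a, (g k a : ℂ) • D.lat a) atTop (𝓝 ((t : ℂ) • x))) :
    ∀ᶠ z in 𝓝 (0 : Z → ℂ), ∀ u ∈ U, ∀ t : ℂ, z = u + t • x →
      aeval (fun k => D.f (s k) z) P = 0 := by
  have hne : ∀ᶠ z in 𝓝 (0 : Z → ℂ), D.th D.o z ≠ 0 :=
    ((hD.th_diff D.o).continuous.tendsto 0).eventually_ne hD.th_zero
  obtain ⟨r, hr, hrθ⟩ := Metric.eventually_nhds_iff.1 hne
  simp only [dist_zero_right] at hrθ
  have hx1 : 0 < ‖x‖ := norm_pos_iff.2 hx0
  have hN : 0 ≤ ‖p‖ := norm_nonneg _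
  refine Metric.eventually_nhds_iff.2 ⟨r / (1 + 2 * ‖p‖), by positivity, ?_⟩
  intro z hz u hu t hzut
  rw [dist_zero_right, lt_div_iff₀ (by positivity)] at hz
  have h1 : ‖t‖ * ‖x‖ ≤ ‖p‖ * ‖z‖ := by
    have h2 : p z = t • x := by
      rw [hzut, map_add, hp0 u hu, map_smul, hx, zero_add]
    calc ‖t‖ * ‖x‖ = ‖p z‖ := by rw [h2, norm_smul]
      _ ≤ ‖p‖ * ‖z‖ := p.le_opNorm z
  have h2 : ‖u‖ ≤ ‖z‖ + ‖t‖ * ‖x‖ := by
    have : u = z - t • x := by rw [hzut]; abel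
    rw [this, ← norm_smul]
    exact norm_sub_le _ _
  have h3 : ‖t‖ * ‖x‖ < r - ‖u‖ := by nlinarith
  have hpos : 0 < r - ‖u‖ := lt_of_le_of_lt (by positivity) h3
  set ρ := (r - ‖u‖) / ‖x‖ with hρ
  have hρ0 : 0 < ρ := by positivity
  have hball : ∀ τ ∈ Metric.ball (0 : ℂ) ρ, D.th D.o (u + τ • x) ≠ 0 := by
    intro τ hτ
    apply hrθ
    rw [Metric.mem_ball, dist_zero_right, hρ, lt_div_iff₀ hx1] at hτ
    calc ‖u + τ • x‖ ≤ ‖u‖ + ‖τ • x‖ := norm_add_le _ _
      _ = ‖u‖ + ‖τ‖ * ‖x‖ := by rw [norm_smul]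
      _ < r := by linarith
  set h : ℂ → ℂ := fun τ => aeval (fun k => D.f (s k) (u + τ • x)) P with hh
  have hdiff : DifferentiableOn ℂ h (Metric.ball 0 ρ) := by
    intro τ hτ
    refine DifferentiableAt.differentiableWithinAt ?_
    have h4 : DifferentiableAt ℂ (fun τ : ℂ => u + τ • x) τ := by fun_prop
    have h5 := diff_aeval (fun k => D.f (s k)) (u + τ • x)
      (fun k => diff_f D hD (s k) _ (hball τ hτ)) P
    exact DifferentiableAt.comp (g := fun w => aeval (fun k => D.f (s k) w) P)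
      (f := fun τ : ℂ => u + τ • x) τ h5 h4
  have han : AnalyticOnNhd ℂ h (Metric.ball 0 ρ) := hdiff.analyticOnNhd Metric.isOpen_ball
  have hreal : ∀ t : ℝ, (t : ℂ) ∈ Metric.ball (0 : ℂ) ρ → h t = 0 := by
    intro t ht
    obtain ⟨g, w, hw, hlim⟩ := hdir t
    exact extend_real D hD U s P hP x t g w hw hlim u hu (hball _ ht)
  have hseq : Tendsto (fun n : ℕ => ((1 / ((n : ℝ) + 1) : ℝ) : ℂ)) atTop (𝓝[≠] 0) := by
    refine tendsto_nhdsWithin_iff.2 ⟨?_, Eventually.of_forall fun n => ?_⟩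
    · have := (Complex.continuous_ofReal.tendsto 0).comp
        (tendsto_one_div_add_atTop_nhds_zero_nat (𝕜 := ℝ))
      rw [Complex.ofReal_zero] at this
      exact this
    · have : (1 / ((n : ℝ) + 1) : ℝ) ≠ 0 := by positivity
      exact Complex.ofReal_ne_zero.2 this
  have hfreq : ∃ᶠ τ in 𝓝[≠] (0 : ℂ), h τ = 0 := by
    refine hseq.frequently (Eventually.frequently ?_)
    have h5 : ∀ᶠ n : ℕ in atTop, ((1 / ((n : ℝ) + 1) : ℝ) : ℂ) ∈ Metric.ball (0 : ℂ) ρ :=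
      (tendsto_nhdsWithin_iff.1 hseq).1 (Metric.ball_mem_nhds _ hρ0)
    filter_upwards [h5] with n hn
    exact hreal _ hn
  have hzero := han.eqOn_zero_of_preconnected_of_frequently_eq_zero
    (convex_ball (0 : ℂ) ρ).isPreconnected (Metric.mem_ball_self hρ0) hfreq
  have ht : t ∈ Metric.ball (0 : ℂ) ρ := by
    rw [Metric.mem_ball, dist_zero_right, hρ, lt_div_iff₀ hx1]
    exact h3
  rw [hzut]
  exact hzero ht

/-- choice of coordinates with independent differentials on `X` -/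
theorem exists_indices {Z T Θ Λ : Type} [Fintype Z] [Fintype T] [Fintype Θ] [Fintype Λ]
    (D : TD Z T Θ Λ) (hD : D.Good) (X : Submodule ℂ (Z → ℂ)) (n : ℕ)
    (hn : n ≤ Module.finrank ℂ X) :
    ∃ s : Fin n → Θ, ∀ b : Fin n → ℂ,
      (∀ v ∈ X, ∑ k, b k * fderiv ℂ (D.f (s k)) 0 v = 0) → b = 0 := by
  let F : Θ → Module.Dual ℂ X := fun i => (fderiv ℂ (D.f i) 0).toLinearMap ∘ₗ X.subtype
  have hco : (Submodule.span ℂ (Set.range F)).dualCoannihilator = ⊥ := by
    rw [eq_bot_iff]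
    intro v hv
    rw [Submodule.mem_dualCoannihilator] at hv
    by_contra hv0
    have hv0' : (v : Z → ℂ) ≠ 0 := by
      intro h
      apply hv0
      simpa using h
    obtain ⟨i, hi⟩ := hD.imm v hv0'
    exact hi (hv (F i) (Submodule.subset_span ⟨i, rfl⟩))
  have hsp : Submodule.span ℂ (Set.range F) = ⊤ := by
    rw [← Subspace.dualCoannihilator_dualAnnihilator_eq (W := Submodule.span ℂ (Set.range F)), hco,
      Submodule.dualAnnihilator_bot]
  obtain ⟨κ, a, -, hspan, hli⟩ := exists_linearIndependent' ℂ F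
  have : Finite κ := hli.finite
  have := Fintype.ofFinite κ
  let B := Module.Basis.mk hli (by rw [hspan, hsp])
  have hcard : Fintype.card κ = Module.finrank ℂ X := by
    rw [← Module.finrank_eq_card_basis B, Subspace.dual_finrank_eq]
  obtain ⟨e⟩ : Nonempty (Fin n ↪ κ) :=
    Function.Embedding.nonempty_of_card_le (by rw [Fintype.card_fin, hcard]; exact hn)
  refine ⟨fun k => a (e k), fun b hb => ?_⟩
  have hli' : LinearIndependent ℂ fun k => F (a (e k)) := hli.comp e e.injective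
  rw [Fintype.linearIndependent_iff] at hli'
  funext k
  refine hli' b ?_ k
  ext v
  have := hb v v.2
  simpa [F] using this

end Clos

theorem specCLOS (hJ : SpecJAC) : SpecCLOS := by
  intro Z T Θ Λ _ _ _ _ D hD U hU u hu
  by_contra hus
  obtain ⟨p, hp0, hp1⟩ := Clos.exists_proj U
  obtain ⟨x, hxU, hpx, hdir⟩ := Clos.direction D.lat U p hp0 hp1
    (fun ε hε => Clos.small D.lat hD.lat_indep hD.lat_card U p hp0 hp1 u hu hus ε hε)
  have hx0 : x ≠ 0 := fun h => hxU (h ▸ U.zero_mem)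
  set X := U ⊔ Submodule.span ℂ {x} with hX
  have hlt : U < X := by
    refine lt_of_le_of_ne le_sup_left fun h => hxU ?_
    rw [h]
    exact Submodule.mem_sup_right (Submodule.mem_span_singleton_self x)
  have hfr : Module.finrank ℂ U + 1 ≤ Module.finrank ℂ X := Submodule.finrank_lt_finrank_of_lt hlt
  obtain ⟨s, hs⟩ := Clos.exists_indices D hD X _ hfr
  obtain ⟨P, hP0, hP⟩ := hU s
  apply hP0
  refine hJ X _ (fun k => D.f (s k)) (fun k => ?_) hs P ?_
  · apply Osgood.analyticAt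
    have hne : ∀ᶠ z in 𝓝 (0 : Z → ℂ), D.th D.o z ≠ 0 :=
      ((hD.th_diff D.o).continuous.tendsto 0).eventually_ne hD.th_zero
    filter_upwards [hne] with z hz
    exact Clos.diff_f D hD (s k) z hz
  · filter_upwards [Clos.extend_complex D hD U s P hP p hp0 x hx0 hpx hdir] with z hz hzX
    obtain ⟨v, hv, w, hw, rfl⟩ := Submodule.mem_sup.1 hzX
    obtain ⟨t, rfl⟩ := Submodule.mem_span_singleton.1 hw
    exact hz v hv t rfl

end Pool.Agent.Lib.MPf11a48.U
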