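import Pool.Agent.Lib.MP_f11a48_ag.U.Spec
import Pool.Agent.Lib.MP_f11a48_ag.U.Osgood

/-!
Module QUASI of project U for MP_f11a48_ag: an additive function which is algebraic over the
periodic functions has no quasi-periods.
-/

set_option autoImplicit false

open MvPolynomial Pool.Agent.Lib.MPf11a48.CM Filter Topology

namespace Pool.Agent.Lib.MPf11a48.U

namespace Quasi

variable {Z T Θ Λ : Type}

/-- Pairs (period, quasi-period). -/
def PerG (D : TD Z T Θ Λ) : AddSubgroup ((Z → ℂ) × (T → ℂ)) where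
  carrier := {p | (∀ z, D.th D.o (z + p.1) ≠ 0 ↔ D.th D.o z ≠ 0) ∧
    (∀ i z, D.th D.o z ≠ 0 → D.f i (z + p.1) = D.f i z) ∧
    ∀ t z, D.th D.o z ≠ 0 → D.zt t (z + p.1) = D.zt t z + p.2 t}
  zero_mem' := by simp
  add_mem' := by
    rintro ⟨a, a'⟩ ⟨b, b'⟩ ⟨h1, h2, h3⟩ ⟨k1, k2, k3⟩
    simp only [Set.mem_ofPred_eq, Prod.mk_add_mk] at h1 h2 h3 k1 k2 k3 ⊢
    refine ⟨fun z => ?_, fun i z hz => ?_, fun t z hz => ?_⟩
    · rw [← add_assoc, k1, h1]
    · rw [← add_assoc, k2 i _ ((h1 z).2 hz), h2 i z hz]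
    · rw [← add_assoc, k3 t _ ((h1 z).2 hz), h3 t z hz, Pi.add_apply, add_assoc]
  neg_mem' := by
    rintro ⟨a, a'⟩ ⟨h1, h2, h3⟩
    simp only [Set.mem_ofPred_eq, Prod.neg_mk] at h1 h2 h3 ⊢
    have h0 : ∀ z, D.th D.o (z + -a) ≠ 0 ↔ D.th D.o z ≠ 0 := by
      intro z
      have := h1 (z + -a)
      rw [neg_add_cancel_right] at this
      exact this.symm
    refine ⟨h0, fun i z hz => ?_, fun t z hz => ?_⟩
    · have := h2 i (z + -a) ((h0 z).2 hz)
      rw [neg_add_cancel_right] at this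
      exact this.symm
    · have := h3 t (z + -a) ((h0 z).2 hz)
      rw [neg_add_cancel_right] at this
      rw [this, Pi.neg_apply]
      ring

variable [Fintype Z] [Fintype T] [Fintype Θ] [Fintype Λ]

theorem gen_mem (D : TD Z T Θ Λ) (hD : D.Good) (a : Λ) : (D.lat a, D.eta a) ∈ PerG D := by
  obtain ⟨e, he, hp⟩ := hD.th_period a
  refine ⟨fun z => ?_, fun i z hz => ?_, fun t z hz => hD.zt_period a t z hz⟩
  · show D.th D.o (z + D.lat a) ≠ 0 ↔ _
    rw [hp]
    simp [he z]
  · show D.f i (z + D.lat a) = _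
    unfold TD.f
    rw [hp, hp, mul_div_mul_left _ _ (he z)]

theorem comb_mem (D : TD Z T Θ Λ) (hD : D.Good) (x : Λ → ℤ) :
    ((∑ a, (x a : ℂ) • D.lat a), fun t => ∑ a, (x a : ℂ) * D.eta a t) ∈ PerG D := by
  have h1 : ((∑ a, (x a : ℂ) • D.lat a), fun t => ∑ a, (x a : ℂ) * D.eta a t) =
      ∑ a, x a • (D.lat a, D.eta a) := by
    refine Prod.ext ?_ ?_
    · rw [Prod.fst_sum]
      refine Finset.sum_congr rfl fun a _ => ?_
      rw [Prod.smul_fst, Int.cast_smul_eq_zsmul]
    · rw [Prod.snd_sum]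
      funext t
      rw [Finset.sum_apply]
      refine Finset.sum_congr rfl fun a _ => ?_
      rw [Prod.smul_snd, Pi.smul_apply, zsmul_eq_mul]
  rw [h1]
  exact AddSubgroup.sum_mem _ fun a _ => AddSubgroup.zsmul_mem _ (gen_mem D hD a) _

/-- The functions `f_i` are analytic at `0`. -/
theorem f_analytic (D : TD Z T Θ Λ) (hD : D.Good) (i : Θ) : AnalyticAt ℂ (D.f i) 0 := by
  have h1 := Osgood.analyticAt_of_differentiable (hD.th_diff i) 0
  have h2 := Osgood.analyticAt_of_differentiable (hD.th_diff D.o) 0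
  exact h1.div h2 hD.th_zero

/-- Functions `f_{s k}` with independent differentials on `U`. -/
theorem exists_coord (D : TD Z T Θ Λ) (hD : D.Good) (U : Submodule ℂ (Z → ℂ)) :
    ∃ s : Fin (Module.finrank ℂ U) → Θ, ∀ b : Fin (Module.finrank ℂ U) → ℂ,
      (∀ v ∈ U, ∑ k, b k * fderiv ℂ (D.f (s k)) 0 v = 0) → b = 0 := by
  classical
  set φ : Θ → Module.Dual ℂ U := fun i => ((fderiv ℂ (D.f i) 0).toLinearMap).domRestrict U with hφ
  have hspan : Submodule.span ℂ (Set.range φ) = ⊤ := by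
    by_contra hne
    obtain ⟨x, hx, hx2⟩ : ∃ x : U, x ≠ 0 ∧ ∀ i, φ i x = 0 := by
      have h1 : (Submodule.span ℂ (Set.range φ)).dualCoannihilator ≠ ⊥ := by
        intro h2
        apply hne
        have h3 := Subspace.dualCoannihilator_dualAnnihilator_eq
          (W := Submodule.span ℂ (Set.range φ))
        rw [h2, Submodule.dualAnnihilator_bot] at h3
        exact h3.symm
      obtain ⟨x, hx, hx0⟩ := Submodule.exists_mem_ne_zero_of_ne_bot h1
      refine ⟨x, hx0, fun i => ?_⟩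
      exact (Submodule.mem_dualCoannihilator x).1 hx _ (Submodule.subset_span ⟨i, rfl⟩)
    obtain ⟨i, hi⟩ := hD.imm (x : Z → ℂ) (by simpa using hx)
    exact hi (hx2 i)
  obtain ⟨κ, a, ha, hsp, hli⟩ := exists_linearIndependent' ℂ φ
  have : Finite κ := Finite.of_injective a ha
  have := Fintype.ofFinite κ
  have hcard : Fintype.card κ = Module.finrank ℂ U := by
    rw [← finrank_span_eq_card hli, hsp, hspan, finrank_top, Subspace.dual_finrank_eq]
  let e : Fin (Module.finrank ℂ U) ≃ κ := (Fintype.equivFinOfCardEq hcard).symm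
  refine ⟨fun k => a (e k), fun b hb => ?_⟩
  have hli2 : LinearIndependent ℂ (fun k => φ (a (e k))) := hli.comp e e.injective
  rw [Fintype.linearIndependent_iff] at hli2
  funext k
  refine hli2 b ?_ k
  ext v
  rw [LinearMap.sum_apply, LinearMap.zero_apply, ← hb v v.2]
  exact Finset.sum_congr rfl fun k _ => rfl

theorem aeval_option {r : ℕ} (P : MvPolynomial (Option (Fin r)) ℂ) (y : ℂ) (f : Fin r → ℂ) :
    aeval (fun k => Option.elim k y f) P =
      ((optionEquivLeft ℂ (Fin r) P).map (aeval f : MvPolynomial (Fin r) ℂ →ₐ[ℂ] ℂ).toRingHom).eval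
        y := by
  induction P using MvPolynomial.induction_on with
  | C a => simp [optionEquivLeft_C]
  | add p q hp hq => simp only [map_add, hp, hq, Polynomial.map_add, Polynomial.eval_add]
  | mul_X p i hp =>
    rw [map_mul, map_mul, hp, Polynomial.map_mul, Polynomial.eval_mul]
    congr 1
    cases i with
    | none => simp [optionEquivLeft_X_none]
    | some i => simp [optionEquivLeft_X_some]

end Quasi

open Quasi in
/-- Module QUASI. -/
theorem specQUASI (hJ : SpecJAC) : SpecQUASI := by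
  intro Z T Θ Λ _ _ _ _ D hD U c ℓ hrel x hxU
  by_contra hne
  obtain ⟨s, hs⟩ := exists_coord D hD U
  obtain ⟨P, hP0, hP⟩ := hrel s
  set lam : Z → ℂ := ∑ a, (x a : ℂ) • D.lat a with hlam
  set q : ℂ := ∑ t, c t * (∑ a, (x a : ℂ) * D.eta a t) - ℓ lam with hq
  have hq0 : q ≠ 0 := sub_ne_zero.2 hne
  -- periodicity
  have hper := comb_mem D hD x
  have hpern : ∀ n : ℕ, (n • lam, fun t => (n : ℂ) * ∑ a, (x a : ℂ) * D.eta a t) ∈ PerG D := by
    intro n
    have h1 := AddSubgroup.nsmul_mem (PerG D) hper n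
    convert h1 using 1
    refine Prod.ext rfl ?_
    funext t
    simp
  have hY : ∀ z, D.th D.o z ≠ 0 → ∀ n : ℕ,
      ∑ t, c t * D.zt t (z + n • lam) - ℓ (z + n • lam) =
        (∑ t, c t * D.zt t z - ℓ z) + n * q := by
    intro z hz n
    obtain ⟨-, -, h3⟩ := hpern n
    have h4 : ∀ t, D.zt t (z + n • lam) = D.zt t z + n * ∑ a, (x a : ℂ) * D.eta a t :=
      fun t => h3 t z hz
    have h5 : ∑ t, c t * D.zt t (z + n • lam) =
        ∑ t, (c t * D.zt t z + n * (c t * ∑ a, (x a : ℂ) * D.eta a t)) :=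
      Finset.sum_congr rfl fun t _ => by rw [h4]; ring
    rw [h5, Finset.sum_add_distrib, ← Finset.mul_sum, map_add, map_nsmul, nsmul_eq_mul, hq]
    ring
  -- all coefficients vanish
  set Q := optionEquivLeft ℂ (Fin (Module.finrank ℂ U)) P with hQ
  have hQ0 : Q ≠ 0 := by
    rw [hQ]
    simpa using hP0
  have hcoef : ∀ z ∈ U, D.th D.o z ≠ 0 → ∀ j, aeval (fun k => D.f (s k) z) (Q.coeff j) = 0 := by
    intro z hzU hz j
    set R : Polynomial ℂ := Q.map (aeval (fun k => D.f (s k) z) :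
      MvPolynomial (Fin (Module.finrank ℂ U)) ℂ →ₐ[ℂ] ℂ).toRingHom with hR
    have hzero : ∀ n : ℕ, R.eval ((∑ t, c t * D.zt t z - ℓ z) + n * q) = 0 := by
      intro n
      obtain ⟨h1, h2, -⟩ := hpern n
      have h3 : D.th D.o (z + n • lam) ≠ 0 := (h1 z).2 hz
      have h4 := hP (z + n • lam) (U.add_mem hzU (U.nsmul_mem hxU n)) h3
      rw [hY z hz n] at h4
      have h5 : (fun k => D.f (s k) (z + n • lam)) = fun k => D.f (s k) z := by
        funext k
        exact h2 (s k) z hz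
      have h6 := aeval_option P ((∑ t, c t * D.zt t z - ℓ z) + n * q)
        (fun k => D.f (s k) (z + n • lam))
      rw [h4, h5] at h6
      exact h6.symm
    have hR0 : R = 0 := by
      refine Polynomial.eq_zero_of_infinite_isRoot R ?_
      refine Set.infinite_of_injective_forall_mem
        (f := fun n : ℕ => (∑ t, c t * D.zt t z - ℓ z) + n * q) ?_ hzero
      intro m n hmn
      have h7 : (m : ℂ) * q = n * q := add_left_cancel hmn
      exact_mod_cast mul_right_cancel₀ hq0 h7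
    have h8 := congrArg (fun p : Polynomial ℂ => p.coeff j) hR0
    simpa [hR, Polynomial.coeff_map] using h8
  obtain ⟨j, hj⟩ : ∃ j, Q.coeff j ≠ 0 := by
    by_contra h9
    push Not at h9
    exact hQ0 (Polynomial.ext fun j => by simpa using h9 j)
  refine hj (hJ U _ (fun k => D.f (s k)) (fun k => f_analytic D hD (s k)) hs (Q.coeff j) ?_)
  have h10 : ∀ᶠ z in 𝓝 (0 : Z → ℂ), D.th D.o z ≠ 0 :=
    (hD.th_diff D.o).continuous.continuousAt.eventually_ne hD.th_zero
  filter_upwards [h10] with z hz hzU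
  exact hcoef z hzU hz j

end Pool.Agent.Lib.MPf11a48.U
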