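import Pool.Agent.Lib.MP_f11a48_ag.U.SpecArt
import Pool.Agent.Lib.MP_f11a48_ag.U.Quasi
import Pool.Agent.Lib.MP_f11a48_ag.U.Jac

/-!
Module ORB of project U for MP_f11a48_ag: a matrix `P` such that the functions `f_j(z P)` are
algebraic over the functions `f_s(z)` preserves the lattice up to a positive integer.
-/

set_option autoImplicit false

open Matrix MvPolynomial Pool.Agent.Lib.MPf11a48.CM Pool.Agent.Lib.MPf11a48.GL2T Filter Topology

namespace Pool.Agent.Lib.MPf11a48.U

namespace OrbM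

section analytic

variable {E : Type} [NormedAddCommGroup E] [NormedSpace ℂ E]

/-- products of analytic functions on a convex open set -/
theorem loc_mul {U : Set E} (hU : Convex ℝ U) {F G : E → ℂ}
    (hF : AnalyticOnNhd ℂ F U) (hG : AnalyticOnNhd ℂ G U) (h : ∀ z ∈ U, F z * G z = 0) :
    (∀ z ∈ U, F z = 0) ∨ (∀ z ∈ U, G z = 0) := by
  by_contra hc
  push Not at hc
  obtain ⟨⟨z₁, hz₁, h₁⟩, z₂, hz₂, h₂⟩ := hc
  let γ : ℂ → E := fun t => z₁ + t • (z₂ - z₁)
  have hγ : ∀ t, AnalyticAt ℂ γ t := by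
    intro t
    exact analyticAt_const.add (analyticAt_id.smul analyticAt_const)
  have hconv : Convex ℝ (γ ⁻¹' U) := by
    intro s hs t ht a b ha hb hab
    show γ (a • s + b • t) ∈ U
    have h3 : γ (a • s + b • t) = a • γ s + b • γ t := by
      show z₁ + (a • s + b • t) • (z₂ - z₁) =
        a • (z₁ + s • (z₂ - z₁)) + b • (z₁ + t • (z₂ - z₁))
      rw [smul_add, smul_add, add_smul, smul_assoc, smul_assoc]
      have h4 : z₁ = a • z₁ + b • z₁ := by rw [← add_smul, hab, one_smul]
      nth_rewrite 1 [h4]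
      abel
    rw [h3]
    exact hU hs ht ha hb hab
  rcases AnalyticOnNhd.eq_zero_or_eq_zero_of_mul_eq_zero (U := γ ⁻¹' U)
    (f := fun t => F (γ t)) (g := fun t => G (γ t))
    (fun t ht => (hF (γ t) ht).comp (hγ t)) (fun t ht => (hG (γ t) ht).comp (hγ t))
    (fun t ht => h (γ t) ht) hconv.isPreconnected with h5 | h5
  · apply h₁
    have h6 := h5 0 (by
      show z₁ + (0 : ℂ) • (z₂ - z₁) ∈ U
      rw [zero_smul, add_zero]; exact hz₁)
    have h7 : γ 0 = z₁ := by
      show z₁ + (0 : ℂ) • (z₂ - z₁) = z₁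
      rw [zero_smul, add_zero]
    rw [h7] at h6
    exact h6
  · apply h₂
    have h7 : γ 1 = z₂ := by
      show z₁ + (1 : ℂ) • (z₂ - z₁) = z₂
      rw [one_smul, add_sub_cancel]
    have h6 := h5 1 (by show γ 1 ∈ U; rw [h7]; exact hz₂)
    rw [h7] at h6
    exact h6

variable [FiniteDimensional ℂ E]

/-- an entire function which vanishes near `0` vanishes -/
theorem ent_zero {F : E → ℂ} (hF : Differentiable ℂ F) (h : ∀ᶠ z in 𝓝 0, F z = 0) :
    ∀ z, F z = 0 := by
  have h1 := AnalyticOnNhd.eq_of_eventuallyEq (𝕜 := ℂ) (f := F) (g := fun _ => (0 : ℂ)) (z₀ := 0)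
    (fun z _ => Osgood.analyticAt_of_differentiable hF z) (fun z _ => analyticAt_const) h
  intro z
  rw [h1]

/-- products of entire functions -/
theorem ent_mul {F G : E → ℂ} (hF : Differentiable ℂ F) (hG : Differentiable ℂ G)
    (h : ∀ z, F z * G z = 0) : (∀ z, F z = 0) ∨ ∀ z, G z = 0 := by
  rcases loc_mul (U := Set.univ) convex_univ
    (fun z _ => Osgood.analyticAt_of_differentiable hF z)
    (fun z _ => Osgood.analyticAt_of_differentiable hG z) (fun z _ => h z) with h1 | h1
  · exact Or.inl fun z => h1 z trivial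
  · exact Or.inr fun z => h1 z trivial

omit [FiniteDimensional ℂ E] in
theorem diff_prod {ι : Type} (s : Finset ι) (F : ι → E → ℂ) (hF : ∀ i, Differentiable ℂ (F i)) :
    Differentiable ℂ fun z => ∏ i ∈ s, F i z := by
  classical
  induction s using Finset.induction_on with
  | empty => simp
  | insert a s ha ih =>
    simp only [Finset.prod_insert ha]
    exact (hF a).mul ih

theorem ent_prod {ι : Type} (s : Finset ι) (F : ι → E → ℂ) (hF : ∀ i, Differentiable ℂ (F i))
    (h : ∀ z, ∏ i ∈ s, F i z = 0) : ∃ i ∈ s, ∀ z, F i z = 0 := by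
  classical
  induction s using Finset.induction_on with
  | empty => exact absurd (h 0) (by simp)
  | insert a s ha ih =>
    have hd : Differentiable ℂ fun z => ∏ i ∈ s, F i z := diff_prod s F hF
    rcases ent_mul (hF a) hd (fun z => by rw [← h z, Finset.prod_insert ha]) with h1 | h1
    · exact ⟨a, Finset.mem_insert_self _ _, h1⟩
    · obtain ⟨i, hi, h2⟩ := ih h1
      exact ⟨i, Finset.mem_insert_of_mem hi, h2⟩

end analytic

section

variable {g N : ℕ} {A : AbData g N} {K : IntermediateField ℚ ℂ}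

/-- lattice vectors and quasi-periods -/
theorem gen_mem (hA : A.IsAbVar K) (a : Ix g) : (A.lat a, A.eta a) ∈ Quasi.PerG A.td := by
  refine ⟨fun z => ?_, fun i z hz => ?_, fun t z hz => hA.zt_period a t z hz⟩
  · show A.th 0 (z + A.lat a) ≠ 0 ↔ A.th 0 z ≠ 0
    rw [hA.th_aut]
    simp [Complex.exp_ne_zero]
  · show A.th i (z + A.lat a) / A.th 0 (z + A.lat a) = A.th i z / A.th 0 z
    rw [hA.th_aut, hA.th_aut, mul_div_mul_left _ _ (Complex.exp_ne_zero _)]

theorem comb_mem (hA : A.IsAbVar K) (x : Ix g → ℤ) :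
    ((∑ a, (x a : ℂ) • A.lat a), fun t => ∑ a, (x a : ℂ) * A.eta a t) ∈ Quasi.PerG A.td := by
  have h1 : ((∑ a, (x a : ℂ) • A.lat a), fun t => ∑ a, (x a : ℂ) * A.eta a t) =
      ∑ a, x a • (A.lat a, A.eta a) := by
    refine Prod.ext ?_ ?_
    · show (∑ a, (x a : ℂ) • A.lat a) = (∑ a, x a • (A.lat a, A.eta a)).1
      rw [Prod.fst_sum]
      refine Finset.sum_congr rfl fun a _ => ?_
      rw [Prod.smul_fst, Int.cast_smul_eq_zsmul]
    · show (fun t => ∑ a, (x a : ℂ) * A.eta a t) = (∑ a, x a • (A.lat a, A.eta a)).2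
      rw [Prod.snd_sum]
      funext t
      rw [Finset.sum_apply]
      refine Finset.sum_congr rfl fun a _ => ?_
      rw [Prod.smul_snd, Pi.smul_apply, zsmul_eq_mul]
  rw [h1]
  exact AddSubgroup.sum_mem _ fun a _ => AddSubgroup.zsmul_mem _ (gen_mem hA a) _

/-- multiples of a pair -/
theorem nsmul_pair {D : TD (Fin g) (Fin g) (Fin (N + 1)) (Ix g)} {v w : Fin g → ℂ}
    (h : (v, w) ∈ Quasi.PerG D) (n : ℕ) :
    (((n : ℂ) • v), fun t => (n : ℂ) * w t) ∈ Quasi.PerG D := by
  have h1 := AddSubgroup.nsmul_mem (Quasi.PerG D) h n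
  convert h1 using 1
  refine Prod.ext ?_ ?_
  · show (n : ℂ) • v = n • v
    rw [Nat.cast_smul_eq_nsmul]
  · funext t
    simp

theorem f_analyticAt (hA : A.IsAbVar K) (i : Fin (N + 1)) (z : Fin g → ℂ) (hz : A.th 0 z ≠ 0) :
    AnalyticAt ℂ (A.f i) z := by
  have h1 := Osgood.analyticAt_of_differentiable (hA.th_diff i) z
  have h2 := Osgood.analyticAt_of_differentiable (hA.th_diff 0) z
  exact h1.div h2 hz

/-- evaluation of a relation -/
theorem eval_option {r : ℕ} (P : MvPolynomial (Option (Fin r)) ℂ) (y : ℂ) (f : Fin r → ℂ) :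
    eval (fun k => Option.elim k y f) P =
      ((optionEquivLeft ℂ (Fin r) P).map (aeval f : MvPolynomial (Fin r) ℂ →ₐ[ℂ] ℂ).toRingHom).eval
        y := by
  rw [← Quasi.aeval_option, ← coe_aeval_eq_eval]
  rfl

/-- a non-zero relation has a coefficient which does not vanish near the origin -/
theorem exists_coeff (hA : A.IsAbVar K) (s : Fin g → Fin (N + 1))
    (hs : ∀ b : Fin g → ℂ, (∀ v, ∑ k, b k * fderiv ℂ (A.f (s k)) 0 v = 0) → b = 0)
    (hJ : SpecJAC) (p : MvPolynomial (Option (Fin g)) ℂ) (hp : p ≠ 0) :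
    ∃ i, ¬ ∀ᶠ z in 𝓝 (0 : Fin g → ℂ),
      aeval (fun k => A.f (s k) z) ((optionEquivLeft ℂ (Fin g) p).coeff i) = 0 := by
  have hQ0 : optionEquivLeft ℂ (Fin g) p ≠ 0 := by simpa using hp
  obtain ⟨j, hj⟩ : ∃ j, (optionEquivLeft ℂ (Fin g) p).coeff j ≠ 0 := by
    by_contra h9
    push Not at h9
    exact hQ0 (Polynomial.ext fun j => by simpa using h9 j)
  refine ⟨j, fun hev => hj (hJ ⊤ _ (fun k => A.f (s k))
    (fun k => f_analyticAt hA (s k) 0 hA.zero) (fun b hb => hs b fun v => hb v trivial) _ ?_)⟩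
  filter_upwards [hev] with z hz _
  exact hz

end

end OrbM

open OrbM in
/-- Module ORB. -/
theorem specORB : SpecORB := by
  have hJ : SpecJAC := specJAC
  intro K g N A hA s hs P Q S
  constructor
  · intro hrel
    -- a common shift
    let Per : Fin (N + 1) → Ix g → ℕ → Prop := fun j l n => ∀ z : Fin g → ℂ,
      A.th j (z ᵥ* P) * A.th 0 ((z + (n : ℂ) • A.lat l) ᵥ* P) =
        A.th j ((z + (n : ℂ) • A.lat l) ᵥ* P) * A.th 0 (z ᵥ* P)
    have hlin : ∀ (v : Fin g → ℂ), Differentiable ℂ fun z : Fin g → ℂ => (z + v) ᵥ* P := by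
      intro v
      have h1 : (fun z : Fin g → ℂ => (z + v) ᵥ* P) =
          fun z => (LinearMap.toContinuousLinearMap (Matrix.vecMulLinear P)) (z + v) := rfl
      rw [h1]
      exact (ContinuousLinearMap.differentiable _).comp (differentiable_id.add_const v)
    have hthP : ∀ (i : Fin (N + 1)) (v : Fin g → ℂ),
        Differentiable ℂ fun z : Fin g → ℂ => A.th i ((z + v) ᵥ* P) :=
      fun i v => (hA.th_diff i).comp (hlin v)
    have hth0 : ∀ v : Fin g → ℂ, ¬ ∀ z : Fin g → ℂ, A.th 0 ((z + v) ᵥ* P) = 0 := by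
      intro v h
      have h1 := h (-v)
      rw [neg_add_cancel, zero_vecMul] at h1
      exact hA.zero h1
    have hex : ∀ j l, ∃ n : ℕ, 0 < n ∧ Per j l n := by
      intro j l
      obtain ⟨p, hp, hrelp⟩ := hrel j
      obtain ⟨i₀, hi₀⟩ := exists_coeff hA s hs hJ p hp
      set q := optionEquivLeft ℂ (Fin g) p with hq
      let c : (Fin g → ℂ) → ℂ := fun z => aeval (fun k => A.f (s k) z) (q.coeff i₀)
      let pt : ℕ → (Fin g → ℂ) → (Fin g → ℂ) := fun a z => (z + (a : ℂ) • A.lat l) ᵥ* P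
      let d := q.natDegree
      let prs := (Finset.range (d + 1) ×ˢ Finset.range (d + 1)).filter fun x => x.1 < x.2
      let E : ℕ × ℕ → (Fin g → ℂ) → ℂ := fun x z =>
        A.th j (pt x.1 z) * A.th 0 (pt x.2 z) - A.th j (pt x.2 z) * A.th 0 (pt x.1 z)
      let T : ℕ → (Fin g → ℂ) → ℂ := fun a z => A.th 0 (pt a z)
      have hEd : ∀ x, Differentiable ℂ (E x) := fun x =>
        ((hthP j _).mul (hthP 0 _)).sub ((hthP j _).mul (hthP 0 _))
      have hTd : ∀ a, Differentiable ℂ (T a) := fun a => hthP 0 _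
      obtain ⟨r, hr, hball⟩ : ∃ r > 0, ∀ z ∈ Metric.ball (0 : Fin g → ℂ) r, A.th 0 z ≠ 0 := by
        have h1 : ∀ᶠ z in 𝓝 (0 : Fin g → ℂ), A.th 0 z ≠ 0 :=
          (hA.th_diff 0).continuous.continuousAt.eventually_ne hA.zero
        exact Metric.eventually_nhds_iff_ball.1 h1
      let H : (Fin g → ℂ) → ℂ := fun z =>
        (∏ a ∈ Finset.range (d + 1), T a z) * ∏ x ∈ prs, E x z
      have hTp : Differentiable ℂ fun z => ∏ a ∈ Finset.range (d + 1), T a z :=
        diff_prod _ T hTd
      have hEp : Differentiable ℂ fun z => ∏ x ∈ prs, E x z := diff_prod _ E hEd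
      have hHd : Differentiable ℂ H := hTp.mul hEp
      have hHc : ∀ z ∈ Metric.ball (0 : Fin g → ℂ) r, H z * c z = 0 := by
        intro z hz
        by_contra hne
        obtain ⟨h1, h2⟩ := mul_ne_zero_iff.1 hne
        obtain ⟨h3, h4⟩ := mul_ne_zero_iff.1 h1
        rw [Finset.prod_ne_zero_iff] at h3 h4
        have hz0 := hball z hz
        -- the polynomial
        set R : Polynomial ℂ := q.map (aeval (fun k => A.f (s k) z) :
          MvPolynomial (Fin g) ℂ →ₐ[ℂ] ℂ).toRingHom with hR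
        have hroot : ∀ a ∈ Finset.range (d + 1), R.eval (A.f j (pt a z)) = 0 := by
          intro a ha
          obtain ⟨k1, k2, -⟩ := nsmul_pair (gen_mem hA l) a
          have h5 : A.th 0 (z + (a : ℂ) • A.lat l) ≠ 0 := (k1 z).2 hz0
          have h6 := hrelp (z + (a : ℂ) • A.lat l) h5 (h3 a ha)
          have h7 : (fun k => A.f (s k) (z + (a : ℂ) • A.lat l)) = fun k => A.f (s k) z := by
            funext k
            exact k2 (s k) z hz0
          rw [eval_option, h7] at h6
          exact h6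
        have hinj : ∀ a ∈ Finset.range (d + 1), ∀ b ∈ Finset.range (d + 1), a < b →
            A.f j (pt a z) ≠ A.f j (pt b z) := by
          intro a ha b hb hab heq
          apply h4 (a, b) (Finset.mem_filter.2 ⟨Finset.mem_product.2 ⟨ha, hb⟩, hab⟩)
          show A.th j (pt a z) * A.th 0 (pt b z) - A.th j (pt b z) * A.th 0 (pt a z) = 0
          have h5 : A.th j (pt a z) / A.th 0 (pt a z) = A.th j (pt b z) / A.th 0 (pt b z) := heq
          rw [div_eq_div_iff (h3 a ha) (h3 b hb)] at h5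
          rw [h5, sub_self]
        have hR0 : R = 0 := by
          refine Polynomial.eq_zero_of_natDegree_lt_card_of_eval_eq_zero R
            (f := fun a : Fin (d + 1) => A.f j (pt a z)) ?_ (fun a =>
              hroot a (Finset.mem_range.2 a.2)) ?_
          · intro a b hab
            by_contra hne'
            rcases lt_or_gt_of_ne (fun h => hne' (Fin.ext h) : (a : ℕ) ≠ b) with h | h
            · exact hinj a (Finset.mem_range.2 a.2) b (Finset.mem_range.2 b.2) h hab
            · exact hinj b (Finset.mem_range.2 b.2) a (Finset.mem_range.2 a.2) h hab.symm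
          · rw [Fintype.card_fin]
            exact Nat.lt_succ_of_le Polynomial.natDegree_map_le
        apply h2
        have h8 := congrArg (fun p : Polynomial ℂ => p.coeff i₀) hR0
        show aeval (fun k => A.f (s k) z) (q.coeff i₀) = 0
        simpa [hR, Polynomial.coeff_map] using h8
      have hconv : Convex ℝ (Metric.ball (0 : Fin g → ℂ) r) := convex_ball _ _
      rcases loc_mul hconv (fun z _ => Osgood.analyticAt_of_differentiable hHd z)
        (fun z hz => AnalyticAt.aeval_mvPolynomial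
          (fun k => f_analyticAt hA (s k) z (hball z hz)) (q.coeff i₀)) hHc with h1 | h1
      · have h2 : ∀ z, H z = 0 := ent_zero hHd
          (Filter.eventually_of_mem (Metric.ball_mem_nhds _ hr) h1)
        rcases ent_mul hTp hEp h2 with h3 | h3
        · obtain ⟨a, -, h4⟩ := ent_prod _ T hTd h3
          exact absurd h4 (hth0 _)
        · obtain ⟨⟨a, b⟩, hab, h4⟩ := ent_prod _ E hEd h3
          have hab' : a < b := (Finset.mem_filter.1 hab).2
          refine ⟨b - a, by omega, fun z => ?_⟩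
          have h5 : A.th j (pt a (z - (a : ℂ) • A.lat l)) *
              A.th 0 (pt b (z - (a : ℂ) • A.lat l)) -
              A.th j (pt b (z - (a : ℂ) • A.lat l)) * A.th 0 (pt a (z - (a : ℂ) • A.lat l)) = 0 :=
            h4 (z - (a : ℂ) • A.lat l)
          have h6 : pt a (z - (a : ℂ) • A.lat l) = z ᵥ* P := by
            show (z - (a : ℂ) • A.lat l + (a : ℂ) • A.lat l) ᵥ* P = _
            rw [sub_add_cancel]
          have h7 : pt b (z - (a : ℂ) • A.lat l) =
              (z + ((b - a : ℕ) : ℂ) • A.lat l) ᵥ* P := by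
            show (z - (a : ℂ) • A.lat l + (b : ℂ) • A.lat l) ᵥ* P = _
            congr 1
            rw [Nat.cast_sub hab'.le, sub_smul]
            abel
          rw [h6, h7] at h5
          exact sub_eq_zero.1 h5
      · exact absurd (Filter.eventually_of_mem (Metric.ball_mem_nhds _ hr) h1) hi₀
    -- multiples
    have hmul : ∀ j l n, Per j l n → ∀ m : ℕ, Per j l (m * n) := by
      intro j l n hn m
      induction m with
      | zero =>
        intro z
        rw [Nat.zero_mul, Nat.cast_zero, zero_smul, add_zero]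
      | succ m ih =>
        have h1 : ∀ z : Fin g → ℂ, (A.th j (z ᵥ* P) *
            A.th 0 ((z + (((m + 1) * n : ℕ) : ℂ) • A.lat l) ᵥ* P) -
            A.th j ((z + (((m + 1) * n : ℕ) : ℂ) • A.lat l) ᵥ* P) * A.th 0 (z ᵥ* P)) *
            A.th 0 ((z + ((m * n : ℕ) : ℂ) • A.lat l) ᵥ* P) = 0 := by
          intro z
          have h2 := ih z
          have h3 := hn (z + ((m * n : ℕ) : ℂ) • A.lat l)
          have h4 : z + ((m * n : ℕ) : ℂ) • A.lat l + (n : ℂ) • A.lat l =
              z + (((m + 1) * n : ℕ) : ℂ) • A.lat l := by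
            rw [add_assoc, ← add_smul]
            congr 2
            push_cast
            ring
          rw [h4] at h3
          linear_combination A.th 0 ((z + (((m + 1) * n : ℕ) : ℂ) • A.lat l) ᵥ* P) * h2 +
            A.th 0 (z ᵥ* P) * h3
        have hd1 : Differentiable ℂ fun z : Fin g → ℂ => (A.th j (z ᵥ* P) *
            A.th 0 ((z + (((m + 1) * n : ℕ) : ℂ) • A.lat l) ᵥ* P) -
            A.th j ((z + (((m + 1) * n : ℕ) : ℂ) • A.lat l) ᵥ* P) * A.th 0 (z ᵥ* P)) := by
          have h5 : ∀ i, Differentiable ℂ fun z : Fin g → ℂ => A.th i (z ᵥ* P) := by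
            intro i
            have := hthP i 0
            simpa using this
          exact ((h5 j).mul (hthP 0 _)).sub ((hthP j _).mul (h5 0))
        rcases ent_mul hd1 (hthP 0 _) h1 with h2 | h2
        · exact fun z => sub_eq_zero.1 (h2 z)
        · exact absurd h2 (hth0 _)
    choose nf hnf0 hnf using hex
    refine ⟨∏ j, ∏ l, nf j l, Finset.prod_pos fun j _ => Finset.prod_pos fun l _ => hnf0 j l,
      fun l => ?_⟩
    set n := ∏ j, ∏ l, nf j l with hn
    have hper : ∀ j, Per j l n := by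
      intro j
      obtain ⟨m, hm⟩ : nf j l ∣ n :=
        (Finset.dvd_prod_of_mem (fun l => nf j l) (Finset.mem_univ l)).trans
          (Finset.dvd_prod_of_mem (fun j => ∏ l, nf j l) (Finset.mem_univ j))
      rw [hm, mul_comm]
      exact hmul j l _ (hnf j l) m
    have h0 : ∀ j, A.th j 0 * A.th 0 ((n : ℂ) • (A.lat l ᵥ* P)) =
        A.th j ((n : ℂ) • (A.lat l ᵥ* P)) * A.th 0 0 := by
      intro j
      have h1 := hper j 0
      rw [zero_vecMul, zero_add, smul_vecMul] at h1
      exact h1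
    obtain ⟨x, hx⟩ := hA.inj ((n : ℂ) • (A.lat l ᵥ* P)) 0 (fun i j => by
      have h1 := h0 i
      have h2 := h0 j
      have h3 : (A.th i ((n : ℂ) • (A.lat l ᵥ* P)) * A.th j 0 -
          A.th j ((n : ℂ) • (A.lat l ᵥ* P)) * A.th i 0) * A.th 0 0 = 0 := by
        linear_combination A.th i 0 * h2 - A.th j 0 * h1
      rcases mul_eq_zero.1 h3 with h4 | h4
      · exact sub_eq_zero.1 h4
      · exact absurd h4 hA.zero)
    refine ⟨x, ?_⟩
    rw [← hx, sub_zero]
  · rintro t ⟨p, hp, hrelp⟩ n l x hx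
    by_contra hne
    set δ : ℂ := ∑ l', (x l' : ℂ) * A.eta l' t - n * ((A.lat l ᵥ* Q) t + (A.eta l ᵥ* S) t) with hδ
    have hδ0 : δ ≠ 0 := sub_ne_zero.2 hne
    obtain ⟨i₀, hi₀⟩ := exists_coeff hA s hs hJ p hp
    set q := optionEquivLeft ℂ (Fin g) p with hq
    apply hi₀
    have hc1 : ∀ᶠ z in 𝓝 (0 : Fin g → ℂ), A.th 0 z ≠ 0 :=
      (hA.th_diff 0).continuous.continuousAt.eventually_ne hA.zero
    have hc2 : ∀ᶠ z in 𝓝 (0 : Fin g → ℂ), A.th 0 (z ᵥ* P) ≠ 0 := by
      have h1 : Continuous fun z : Fin g → ℂ => A.th 0 (z ᵥ* P) := by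
        have h2 : Continuous fun z : Fin g → ℂ => z ᵥ* P :=
          (LinearMap.toContinuousLinearMap (Matrix.vecMulLinear P)).continuous
        exact (hA.th_diff 0).continuous.comp h2
      refine h1.continuousAt.eventually_ne ?_
      rw [zero_vecMul]
      exact hA.zero
    filter_upwards [hc1, hc2] with z hz hzP
    set R : Polynomial ℂ := q.map (aeval (fun k => A.f (s k) z) :
      MvPolynomial (Fin g) ℂ →ₐ[ℂ] ℂ).toRingHom with hR
    -- the function at the translates
    have hper1 := fun m : ℕ => nsmul_pair (nsmul_pair (gen_mem hA l) n) m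
    have hper2 := fun m : ℕ => nsmul_pair (comb_mem hA x) m
    have hval : ∀ m : ℕ, A.gP P Q S t (z + (m : ℂ) • (n : ℂ) • A.lat l) =
        A.gP P Q S t z + m * δ := by
      intro m
      obtain ⟨-, -, h3⟩ := hper1 m
      obtain ⟨-, -, k3⟩ := hper2 m
      have h4 : (z + (m : ℂ) • (n : ℂ) • A.lat l) ᵥ* P =
          z ᵥ* P + (m : ℂ) • ∑ l', (x l' : ℂ) • A.lat l' := by
        rw [add_vecMul, smul_vecMul, smul_vecMul, hx]
      have h5 : A.zt t ((z + (m : ℂ) • (n : ℂ) • A.lat l) ᵥ* P) =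
          A.zt t (z ᵥ* P) + m * ∑ l', (x l' : ℂ) * A.eta l' t := by
        rw [h4]
        exact k3 t (z ᵥ* P) hzP
      have h6 : ∀ s', A.zt s' (z + (m : ℂ) • (n : ℂ) • A.lat l) =
          A.zt s' z + m * (n * A.eta l s') := fun s' => h3 s' z hz
      have h7 : ((fun s' => A.zt s' (z + (m : ℂ) • (n : ℂ) • A.lat l)) ᵥ* S) t =
          ((fun s' => A.zt s' z) ᵥ* S) t + m * (n * (A.eta l ᵥ* S) t) := by
        have h8 : (fun s' => A.zt s' (z + (m : ℂ) • (n : ℂ) • A.lat l)) =
            (fun s' => A.zt s' z) + (m : ℂ) • (n : ℂ) • A.eta l := by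
          funext s'
          rw [h6]
          rfl
        rw [h8, add_vecMul, smul_vecMul, smul_vecMul]
        rfl
      have h9 : ((z + (m : ℂ) • (n : ℂ) • A.lat l) ᵥ* Q) t =
          (z ᵥ* Q) t + m * (n * (A.lat l ᵥ* Q) t) := by
        rw [add_vecMul, smul_vecMul, smul_vecMul]
        rfl
      unfold AbData.gP
      rw [h5, h7, h9, hδ]
      ring
    have hzero : ∀ m : ℕ, R.eval (A.gP P Q S t z + m * δ) = 0 := by
      intro m
      obtain ⟨h1, h2, -⟩ := hper1 m
      obtain ⟨k1, -, -⟩ := hper2 m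
      have h3 : A.th 0 (z + (m : ℂ) • (n : ℂ) • A.lat l) ≠ 0 := (h1 z).2 hz
      have h3' : A.th 0 ((z + (m : ℂ) • (n : ℂ) • A.lat l) ᵥ* P) ≠ 0 := by
        rw [add_vecMul, smul_vecMul, smul_vecMul, hx]
        exact (k1 (z ᵥ* P)).2 hzP
      have h4 := hrelp (z + (m : ℂ) • (n : ℂ) • A.lat l) h3 h3'
      have h5 : (fun k => A.f (s k) (z + (m : ℂ) • (n : ℂ) • A.lat l)) =
          fun k => A.f (s k) z := by
        funext k
        exact h2 (s k) z hz
      rw [eval_option, h5, hval] at h4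
      exact h4
    have hR0 : R = 0 := by
      refine Polynomial.eq_zero_of_infinite_isRoot R ?_
      refine Set.infinite_of_injective_forall_mem
        (f := fun m : ℕ => A.gP P Q S t z + m * δ) ?_ hzero
      intro m m' hmn
      have h7 : (m : ℂ) * δ = m' * δ := add_left_cancel hmn
      exact_mod_cast mul_right_cancel₀ hδ0 h7
    have h8 := congrArg (fun p : Polynomial ℂ => p.coeff i₀) hR0
    simpa [hR, Polynomial.coeff_map] using h8

end Pool.Agent.Lib.MPf11a48.U
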