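import Pool.Agent.Lib.MP_f11a48_ag.U.SpecR
import Pool.Agent.Lib.MP_f11a48_ag.helper92.Deriv

/-! # Module DER: derivations of `ℂ` and the Lie algebra -/

set_option autoImplicit false

open Matrix MvPolynomial Pool.Agent.Lib.MPf11a48.CM Pool.Agent.Lib.MPf11a48.GL2T

namespace Pool.Agent.Lib.MPf11a48.U

namespace DerM

variable {ι : Type} [Fintype ι] [DecidableEq ι]

/-! ## Matrices -/

theorem d_zero_of_mem (δ : Derivation Qbar ℂ ℂ) {a : ℂ} (ha : a ∈ Qbar) : δ a = 0 :=
  δ.map_algebraMap (⟨a, ha⟩ : Qbar)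

theorem d_rat (δ : Derivation Qbar ℂ ℂ) (q : ℚ) : δ (q : ℂ) = 0 := by
  apply d_zero_of_mem
  simp

theorem map_mul {l m n : Type} [Fintype m] (δ : Derivation Qbar ℂ ℂ) (A : Matrix l m ℂ)
    (B : Matrix m n ℂ) : (A * B).map δ = A.map δ * B + A * B.map δ := by
  ext i j
  simp only [Matrix.map_apply, Matrix.mul_apply, Matrix.add_apply, map_sum, Derivation.leibniz,
    smul_eq_mul, ← Finset.sum_add_distrib]
  exact Finset.sum_congr rfl fun _ _ => by ring

theorem map_mulVec {l m : Type} [Fintype m] (δ : Derivation Qbar ℂ ℂ) (A : Matrix l m ℂ)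
    (v : m → ℂ) : (fun i => δ ((A *ᵥ v) i)) = A.map δ *ᵥ v + A *ᵥ fun j => δ (v j) := by
  funext i
  simp only [Matrix.mulVec, dotProduct, Matrix.map_apply, Pi.add_apply, map_sum, Derivation.leibniz,
    smul_eq_mul, ← Finset.sum_add_distrib]
  exact Finset.sum_congr rfl fun _ _ => by ring

omit [Fintype ι] in
theorem map_one (δ : Derivation Qbar ℂ ℂ) : (1 : Matrix ι ι ℂ).map δ = 0 := by
  ext i j
  simp only [Matrix.map_apply, Matrix.one_apply, Matrix.zero_apply]
  split_ifs <;> simp

theorem inv_mul (c : GL ι ℂ) : c⁻¹.1 * c.1 = 1 := by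
  rw [← Units.val_mul, inv_mul_cancel, Units.val_one]

theorem mul_inv (c : GL ι ℂ) : c.1 * c⁻¹.1 = 1 := by
  rw [← Units.val_mul, mul_inv_cancel, Units.val_one]

theorem map_c (δ : Derivation Qbar ℂ ℂ) (c : GL ι ℂ) :
    c.1.map δ = (c.1.map δ * c⁻¹.1) * c.1 := by
  rw [Matrix.mul_assoc, inv_mul, mul_one]

theorem map_cinv (δ : Derivation Qbar ℂ ℂ) (c : GL ι ℂ) :
    c⁻¹.1.map δ = -(c⁻¹.1 * (c.1.map δ * c⁻¹.1)) := by
  have h : (c⁻¹.1 * c.1).map δ = 0 := by rw [inv_mul, map_one]
  rw [map_mul] at h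
  have h2 : (c⁻¹.1.map δ * c.1 + c⁻¹.1 * c.1.map δ) * c⁻¹.1 = 0 := by rw [h, Matrix.zero_mul]
  rw [Matrix.add_mul, Matrix.mul_assoc, mul_inv, mul_one, Matrix.mul_assoc] at h2
  exact eq_neg_of_add_eq_zero_left h2

/-! ## Tensors -/

section

variable {R : Type} [CommRing R] {n m : ℕ}

theorem sum1 (X : Matrix ι ι R) (I : TIdx ι n m) (F : TIdx ι n m → R) (a : Fin n) :
    ∑ K : TIdx ι n m, (if (∀ b, b ≠ a → I.1 b = K.1 b) ∧ I.2 = K.2 then X (I.1 a) (K.1 a) else 0) *
      F K = ∑ k, X (I.1 a) k * F (Function.update I.1 a k, I.2) := by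
  simp only [ite_mul, zero_mul]
  rw [← Finset.sum_filter]
  refine Finset.sum_nbij' (fun K => K.1 a) (fun k => (Function.update I.1 a k, I.2)) ?_ ?_ ?_ ?_ ?_
  · intro K _
    exact Finset.mem_univ _
  · intro k _
    simp only [Finset.mem_filter, Finset.mem_univ, true_and, and_true]
    intro b hb
    rw [Function.update_of_ne hb]
  · intro K hK
    simp only [Finset.mem_filter, Finset.mem_univ, true_and] at hK
    refine Prod.ext ?_ hK.2
    funext b
    by_cases hb : b = a
    · subst hb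
      simp
    · simp [Function.update_of_ne hb, hK.1 b hb]
  · intro k _
    simp
  · intro K hK
    simp only [Finset.mem_filter, Finset.mem_univ, true_and] at hK
    congr 2
    refine Prod.ext ?_ hK.2.symm
    funext b
    by_cases hb : b = a
    · subst hb
      simp
    · simp [Function.update_of_ne hb, hK.1 b hb]

theorem sum2 (X : Matrix ι ι R) (I : TIdx ι n m) (F : TIdx ι n m → R) (b : Fin m) :
    ∑ K : TIdx ι n m, (if I.1 = K.1 ∧ (∀ a, a ≠ b → I.2 a = K.2 a) then X (K.2 b) (I.2 b) else 0) *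
      F K = ∑ k, X k (I.2 b) * F (I.1, Function.update I.2 b k) := by
  simp only [ite_mul, zero_mul]
  rw [← Finset.sum_filter]
  refine Finset.sum_nbij' (fun K => K.2 b) (fun k => (I.1, Function.update I.2 b k)) ?_ ?_ ?_ ?_ ?_
  · intro K _
    exact Finset.mem_univ _
  · intro k _
    simp only [Finset.mem_filter, Finset.mem_univ, true_and]
    intro a ha
    rw [Function.update_of_ne ha]
  · intro K hK
    simp only [Finset.mem_filter, Finset.mem_univ, true_and] at hK
    refine Prod.ext hK.1 ?_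
    funext a
    by_cases ha : a = b
    · subst ha
      simp
    · simp [Function.update_of_ne ha, hK.2 a ha]
  · intro k _
    simp
  · intro K hK
    simp only [Finset.mem_filter, Finset.mem_univ, true_and] at hK
    congr 2
    refine Prod.ext hK.1.symm ?_
    funext a
    by_cases ha : a = b
    · subst ha
      simp
    · simp [Function.update_of_ne ha, hK.2 a ha]

theorem dtens_mulVec (X : Matrix ι ι R) (I : TIdx ι n m) (F : TIdx ι n m → R) :
    ∑ K, dtens n m X I K * F K =
      ∑ a, ∑ k, X (I.1 a) k * F (Function.update I.1 a k, I.2) -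
      ∑ b, ∑ k, X k (I.2 b) * F (I.1, Function.update I.2 b k) := by
  have h : ∀ K, dtens n m X I K * F K =
      ∑ a, (if (∀ b, b ≠ a → I.1 b = K.1 b) ∧ I.2 = K.2 then X (I.1 a) (K.1 a) else 0) * F K -
      ∑ b, (if I.1 = K.1 ∧ (∀ a, a ≠ b → I.2 a = K.2 a) then X (K.2 b) (I.2 b) else 0) * F K := by
    intro K
    rw [dtens, sub_mul, Finset.sum_mul, Finset.sum_mul]
  simp only [h, Finset.sum_sub_distrib]
  congr 1
  · rw [Finset.sum_comm]
    exact Finset.sum_congr rfl fun a _ => sum1 X I F a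
  · rw [Finset.sum_comm]
    exact Finset.sum_congr rfl fun b _ => sum2 X I F b

end

/-- Leibniz rule for a finite product -/
theorem d_prod {α : Type} [Fintype α] [DecidableEq α] (δ : Derivation Qbar ℂ ℂ) (f : α → ℂ) :
    δ (∏ a, f a) = ∑ a, (∏ b ∈ Finset.univ.erase a, f b) * δ (f a) := by
  have h : ∀ s : Finset α, δ (∏ a ∈ s, f a) = ∑ a ∈ s, (∏ b ∈ s.erase a, f b) * δ (f a) := by
    intro s
    induction s using Finset.induction_on with
    | empty => simp
    | insert a s ha ih =>
      rw [Finset.prod_insert ha, Derivation.leibniz, smul_eq_mul, smul_eq_mul, ih,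
        Finset.sum_insert ha, Finset.erase_insert ha, Finset.mul_sum, add_comm]
      congr 1
      refine Finset.sum_congr rfl fun b hb => ?_
      have hab : a ≠ b := fun h => ha (h ▸ hb)
      rw [Finset.erase_insert_of_ne hab, Finset.prod_insert]
      · ring
      · simp [ha]
  exact h Finset.univ

omit [Fintype ι] [DecidableEq ι] in
theorem prod_update {n : ℕ} (g : ι → Fin n → ℂ) (I : Fin n → ι) (a : Fin n) (k : ι) :
    ∏ b, g (Function.update I a k b) b = g k a * ∏ b ∈ Finset.univ.erase a, g (I b) b := by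
  rw [← Finset.mul_prod_erase Finset.univ _ (Finset.mem_univ a), Function.update_self]
  congr 1
  refine Finset.prod_congr rfl fun b hb => ?_
  rw [Function.update_of_ne (Finset.ne_of_mem_erase hb)]

/-- derivative of the tensor action -/
theorem d_tens (δ : Derivation Qbar ℂ ℂ) (c : GL ι ℂ) (n m : ℕ) (I J : TIdx ι n m) :
    δ (tens n m c.1 c⁻¹.1 I J) =
      ∑ K, dtens n m (c.1.map δ * c⁻¹.1) I K * tens n m c.1 c⁻¹.1 K J := by
  rw [dtens_mulVec]
  set X := c.1.map δ * c⁻¹.1 with hX
  have h1 : ∀ i j, δ (c.1 i j) = ∑ k, X i k * c.1 k j := by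
    intro i j
    have := congrFun (congrFun (map_c δ c) i) j
    rw [Matrix.map_apply, Matrix.mul_apply] at this
    exact this
  have h2 : ∀ i j, δ (c⁻¹.1 i j) = -∑ k, c⁻¹.1 i k * X k j := by
    intro i j
    have := congrFun (congrFun (map_cinv δ c) i) j
    rw [Matrix.map_apply, Matrix.neg_apply, Matrix.mul_apply] at this
    exact this
  unfold tens
  rw [Derivation.leibniz, d_prod, d_prod, smul_eq_mul, smul_eq_mul]
  have e1 : ∀ a, ∑ k, X (I.1 a) k *
      ((∏ b, c.1 (Function.update I.1 a k b) (J.1 b)) * ∏ b, c⁻¹.1 (J.2 b) (I.2 b)) =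
      (∏ b, c⁻¹.1 (J.2 b) (I.2 b)) * ((∏ b ∈ Finset.univ.erase a, c.1 (I.1 b) (J.1 b)) *
        δ (c.1 (I.1 a) (J.1 a))) := by
    intro a
    rw [h1, Finset.mul_sum, Finset.mul_sum]
    refine Finset.sum_congr rfl fun k _ => ?_
    rw [prod_update (fun i b => c.1 i (J.1 b)) I.1 a k]
    ring
  have e2 : ∀ b, ∑ k, X k (I.2 b) *
      ((∏ a, c.1 (I.1 a) (J.1 a)) * ∏ a, c⁻¹.1 (J.2 a) (Function.update I.2 b k a)) =
      -((∏ a, c.1 (I.1 a) (J.1 a)) * ((∏ a ∈ Finset.univ.erase b, c⁻¹.1 (J.2 a) (I.2 a)) *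
        δ (c⁻¹.1 (J.2 b) (I.2 b)))) := by
    intro b
    rw [h2, mul_neg, mul_neg, neg_neg, Finset.mul_sum, Finset.mul_sum]
    refine Finset.sum_congr rfl fun k _ => ?_
    rw [prod_update (fun i a => c⁻¹.1 (J.2 a) i) I.2 b k]
    ring
  simp only [e1, e2]
  rw [Finset.sum_neg_distrib, sub_neg_eq_add, ← Finset.mul_sum, ← Finset.mul_sum]
  ring

/-! ## Sub-objects -/

theorem d_mem_spanC (δ : Derivation Qbar ℂ ℂ) {J : Type} (W : Submodule ℚ (J → ℚ)) {v : J → ℂ}
    (hv : v ∈ spanC W) : (fun j => δ (v j)) ∈ spanC W := by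
  unfold spanC at hv ⊢
  induction hv using Submodule.span_induction with
  | mem v hv =>
    obtain ⟨w, -, rfl⟩ := hv
    have : (fun j => δ (algebraMap ℚ ℂ (w j))) = 0 := by
      funext j
      exact d_rat δ _
    rw [this]
    exact Submodule.zero_mem _
  | zero =>
    simp only [Pi.zero_apply, map_zero]
    exact Submodule.zero_mem _
  | add x y _ _ hx hy =>
    simp only [Pi.add_apply, map_add]
    exact Submodule.add_mem _ hx hy
  | smul a x hx' hx =>
    have : (fun j => δ ((a • x) j)) = a • (fun j => δ (x j)) + δ a • x := by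
      funext j
      simp only [Pi.smul_apply, smul_eq_mul, Derivation.leibniz, Pi.add_apply]
      ring
    rw [this]
    exact Submodule.add_mem _ (Submodule.smul_mem _ _ hx) (Submodule.smul_mem _ _ hx')

theorem d_act (δ : Derivation Qbar ℂ ℂ) (c : GL ι ℂ) {r : ℕ} (s : Fin r → ℕ × ℕ)
    (v : SIdx ι s → ℂ) (hv : ∀ x, δ (v x) = 0) :
    (fun x => δ (act s c.1 c⁻¹.1 v x)) =
      dact s (c.1.map δ * c⁻¹.1) (act s c.1 c⁻¹.1 v) := by
  funext x
  change δ (∑ J, tens (s x.1).1 (s x.1).2 c.1 c⁻¹.1 x.2 J * v ⟨x.1, J⟩) =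
    ∑ K, dtens (s x.1).1 (s x.1).2 (c.1.map δ * c⁻¹.1) x.2 K *
      ∑ J, tens (s x.1).1 (s x.1).2 c.1 c⁻¹.1 K J * v ⟨x.1, J⟩
  simp only [map_sum, Derivation.leibniz, hv, mul_zero, zero_add, smul_eq_mul, d_tens,
    Finset.mul_sum]
  rw [Finset.sum_comm]
  refine Finset.sum_congr rfl fun K _ => ?_
  refine Finset.sum_congr rfl fun J _ => ?_
  ring

theorem inH (c : GL ι ℂ) (δ : Derivation Qbar ℂ ℂ) : InH c (c.1.map δ * c⁻¹.1) := by
  intro r s WdR WB hsub w hw
  have hsub' : (spanC WdR).map (act s c.1 c⁻¹.1) = spanC WB := hsub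
  rw [← hsub'] at hw
  obtain ⟨u, hu, rfl⟩ := hw
  have hu' : u ∈ spanC WdR := hu
  unfold spanC at hu'
  induction hu' using Submodule.span_induction with
  | mem v hv =>
    obtain ⟨w, hw, rfl⟩ := hv
    have h1 := d_act δ c s (fun j => algebraMap Qbar ℂ (w j)) (fun x => d_zero_of_mem δ (w x).2)
    rw [← h1]
    apply d_mem_spanC
    rw [← hsub']
    exact Submodule.mem_map_of_mem (Submodule.subset_span ⟨w, hw, rfl⟩)
  | zero => simp
  | add x y hx hy h1 h2 =>
    rw [map_add, map_add]
    exact Submodule.add_mem _ (h1 hx) (h2 hy)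
  | smul a x hx h1 =>
    rw [map_smul, map_smul]
    exact Submodule.smul_mem _ _ (h1 hx)

/-! ## Descent -/

theorem mem_Qbar_of {x : ℂ} (h : ∀ δ : Derivation Qbar ℂ ℂ, δ x = 0) : x ∈ Qbar := by
  by_contra hx
  obtain ⟨δ, hδ⟩ := Pool.Agent.Lib.MPf11a48.GL2.exists_derivation hx
  exact hδ (h δ)

/-- a subspace stable under all derivations is defined over `Qbar` -/
theorem defQbar {J : Type} [Fintype J] (W : Submodule ℂ (J → ℂ))
    (hW : ∀ δ : Derivation Qbar ℂ ℂ, ∀ w ∈ W, (fun j => δ (w j)) ∈ W) : DefQbar W := by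
  classical
  unfold DefQbar
  set W' := Submodule.span ℂ {w | w ∈ W ∧ ∀ j, w j ∈ Qbar} with hW'
  refine le_antisymm ?_ (Submodule.span_le.2 fun w hw => hw.1)
  have hmain : ∀ (n : ℕ) (u : J → ℂ), u ∈ W → (Finset.univ.filter fun j => u j ≠ 0).card ≤ n →
      u ∈ W' := by
    intro n
    induction n with
    | zero =>
      intro u _ hc
      have : u = 0 := by
        funext j
        by_contra hj
        have : j ∈ Finset.univ.filter fun j => u j ≠ 0 := by simpa using hj
        have := Finset.card_pos.2 ⟨j, this⟩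
        omega
      rw [this]
      exact W'.zero_mem
    | succ n ih =>
      intro u hu hc
      by_cases hu0 : u = 0
      · rw [hu0]
        exact W'.zero_mem
      -- minimal support
      have hex : ∃ k, ∃ v ∈ W, v ≠ 0 ∧ (∀ j, u j = 0 → v j = 0) ∧
          (Finset.univ.filter fun j => v j ≠ 0).card = k := ⟨_, u, hu, hu0, fun _ h => h, rfl⟩
      obtain ⟨v, hv, hv0, hvu, hvk⟩ := Nat.find_spec hex
      have hmin := fun k (hk : k < Nat.find hex) => Nat.find_min hex hk
      obtain ⟨j, hj⟩ := Function.ne_iff.1 hv0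
      rw [Pi.zero_apply] at hj
      set v' := (v j)⁻¹ • v with hv'
      have hv'W : v' ∈ W := W.smul_mem _ hv
      have hv'j : v' j = 1 := by simp [hv', inv_mul_cancel₀ hj]
      have hv'0 : ∀ i, v i = 0 → v' i = 0 := by
        intro i hi
        simp [hv', hi]
      have halg : ∀ i, v' i ∈ Qbar := by
        intro i
        apply mem_Qbar_of
        intro δ
        by_contra hne
        have hd := hW δ v' hv'W
        have hdj : δ (v' j) = 0 := by rw [hv'j]; simp
        have hd0 : ∀ i, v i = 0 → δ (v' i) = 0 := by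
          intro i hi
          rw [hv'0 i hi, map_zero]
        refine hmin _ ?_ ⟨fun i => δ (v' i), hd, ?_, ?_, rfl⟩
        · rw [← hvk]
          refine Finset.card_lt_card ?_
          rw [Finset.ssubset_iff_of_subset]
          · exact ⟨j, by simpa using hj, by simp [hdj]⟩
          · intro i hi
            simp only [Finset.mem_filter, Finset.mem_univ, true_and] at hi ⊢
            intro h
            exact hi (hd0 i h)
        · intro h
          exact hne (congrFun h i)
        · intro i hi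
          exact hd0 i (hvu i hi)
      have hv'W' : v' ∈ W' := Submodule.subset_span ⟨hv'W, halg⟩
      have hsub : u - u j • v' ∈ W' := by
        refine ih _ (W.sub_mem hu (W.smul_mem _ hv'W)) ?_
        have huj : u j ≠ 0 := fun h => hj (hvu j h)
        have hlt : (Finset.univ.filter fun i => (u - u j • v') i ≠ 0).card <
            (Finset.univ.filter fun i => u i ≠ 0).card := by
          refine Finset.card_lt_card ?_
          rw [Finset.ssubset_iff_of_subset]
          · exact ⟨j, by simpa using huj, by simp [hv'j]⟩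
          · intro i hi
            simp only [Finset.mem_filter, Finset.mem_univ, true_and] at hi ⊢
            intro h
            apply hi
            simp [h, hv'0 i (hvu i h)]
        omega
      have : u = (u - u j • v') + u j • v' := by abel
      rw [this]
      exact W'.add_mem hsub (W'.smul_mem _ hv'W')
  intro u hu
  exact hmain _ u hu le_rfl

end DerM

theorem specDER : SpecDER := by
  intro ι _ _ c
  refine ⟨DerM.inH c, ?_, ?_⟩
  · intro WB h
    apply DerM.defQbar
    intro δ u hu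
    rw [Submodule.mem_comap, Matrix.mulVecLin_apply] at hu ⊢
    have h1 := DerM.d_mem_spanC δ WB hu
    have h2 := h δ _ hu
    have h3 := DerM.map_mulVec δ c.1 u
    have h4 : (c.1 *ᵥ fun j => δ (u j)) = (fun i => δ ((c.1 *ᵥ u) i)) -
        (c.1.map δ * c⁻¹.1) *ᵥ (c.1 *ᵥ u) := by
      rw [h3, Matrix.mulVec_mulVec, ← DerM.map_c]
      abel
    rw [h4]
    exact Submodule.sub_mem _ h1 h2
  · intro B h
    refine ⟨c⁻¹.1 * mC B * c.1, ?_, ?_⟩
    · intro i j
      apply DerM.mem_Qbar_of
      intro δ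
      have hB : (mC B).map δ = 0 := by
        ext i j
        simp only [Matrix.map_apply, Matrix.zero_apply]
        exact DerM.d_rat δ _
      have h1 : (c⁻¹.1 * mC B * c.1).map δ = 0 := by
        rw [DerM.map_mul, DerM.map_mul, hB, Matrix.mul_zero, add_zero, DerM.map_cinv]
        have h2 := h δ
        have h3 := DerM.map_c δ c
        set X := c.1.map δ * c⁻¹.1 with hX
        rw [h3]
        have h4 : -(c⁻¹.1 * X) * mC B * c.1 + c⁻¹.1 * mC B * (X * c.1) =
            c⁻¹.1 * (mC B * X - X * mC B) * c.1 := by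
          noncomm_ring
        rw [h4, h2, sub_self, Matrix.mul_zero, Matrix.zero_mul]
      have := congrFun (congrFun h1 i) j
      simpa using this
    · rw [← Matrix.mul_assoc, ← Matrix.mul_assoc, DerM.mul_inv, Matrix.one_mul]

end Pool.Agent.Lib.MPf11a48.U
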