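import Pool.Agent.Lib.MP_f11a48_ag.U.SpecArt
import Pool.Agent.Lib.MP_f11a48_ag.U.Osgood

/-! # MP_f11a48_ag, project U: module CONJ -/

set_option autoImplicit false

open Matrix MvPolynomial Pool.Agent.Lib.MPf11a48.CM Pool.Agent.Lib.MPf11a48.GL2T
open Filter Topology

namespace Pool.Agent.Lib.MPf11a48.U

namespace ConjM

variable {g : ℕ}

/-- `F'` is conjugate to `F` by `τ` up to order `n` at the origin. -/
def Cj (τ : ℂ ≃+* ℂ) : ℕ → ((Fin g → ℂ) → ℂ) → ((Fin g → ℂ) → ℂ) → Prop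
  | 0, F, F' => AnalyticAt ℂ F 0 ∧ AnalyticAt ℂ F' 0 ∧ F' 0 = τ (F 0)
  | n + 1, F, F' => (AnalyticAt ℂ F 0 ∧ AnalyticAt ℂ F' 0 ∧ F' 0 = τ (F 0)) ∧
      ∀ v : Fin g → ℂ, Cj τ n (fun z => fderiv ℂ F z v) (fun z => fderiv ℂ F' z fun i => τ (v i))

variable {τ : ℂ ≃+* ℂ}

theorem Cj.base {n : ℕ} {F F' : (Fin g → ℂ) → ℂ} (h : Cj τ n F F') :
    AnalyticAt ℂ F 0 ∧ AnalyticAt ℂ F' 0 ∧ F' 0 = τ (F 0) := by
  cases n with
  | zero => exact h
  | succ n => exact h.1

theorem Cj.mono {n : ℕ} : ∀ {F F' : (Fin g → ℂ) → ℂ}, Cj τ (n + 1) F F' → Cj τ n F F' := by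
  induction n with
  | zero => intro F F' h; exact h.1
  | succ n ih => intro F F' h; exact ⟨h.1, fun v => ih (h.2 v)⟩

theorem Cj.congr {n : ℕ} : ∀ {F F' F₁ F₁' : (Fin g → ℂ) → ℂ}, F =ᶠ[𝓝 0] F₁ → F' =ᶠ[𝓝 0] F₁' →
    Cj τ n F F' → Cj τ n F₁ F₁' := by
  induction n with
  | zero =>
    intro F F' F₁ F₁' h h' hc
    refine ⟨hc.1.congr h, hc.2.1.congr h', ?_⟩
    rw [← h.self_of_nhds, ← h'.self_of_nhds]
    exact hc.2.2
  | succ n ih =>
    intro F F' F₁ F₁' h h' hc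
    refine ⟨⟨hc.1.1.congr h, hc.1.2.1.congr h', ?_⟩, fun v => ?_⟩
    · rw [← h.self_of_nhds, ← h'.self_of_nhds]
      exact hc.1.2.2
    · refine ih ?_ ?_ (hc.2 v)
      · filter_upwards [h.fderiv (𝕜 := ℂ)] with z hz
        rw [hz]
      · filter_upwards [h'.fderiv (𝕜 := ℂ)] with z hz
        rw [hz]

theorem Cj.const (n : ℕ) : ∀ a : ℂ, Cj τ n (fun _ : Fin g → ℂ => a) (fun _ => τ a) := by
  induction n with
  | zero => intro a; exact ⟨analyticAt_const, analyticAt_const, rfl⟩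
  | succ n ih =>
    intro a
    refine ⟨⟨analyticAt_const, analyticAt_const, rfl⟩, fun v => ?_⟩
    have h := ih 0
    rw [map_zero] at h
    simpa using h

theorem ev_diff {F : (Fin g → ℂ) → ℂ} (h : AnalyticAt ℂ F 0) :
    ∀ᶠ z in 𝓝 (0 : Fin g → ℂ), DifferentiableAt ℂ F z := by
  filter_upwards [h.eventually_analyticAt] with z hz
  exact hz.differentiableAt

theorem Cj.add {n : ℕ} : ∀ {F F' G G' : (Fin g → ℂ) → ℂ}, Cj τ n F F' → Cj τ n G G' →
    Cj τ n (fun z => F z + G z) (fun z => F' z + G' z) := by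
  induction n with
  | zero =>
    intro F F' G G' h k
    refine ⟨h.1.add k.1, h.2.1.add k.2.1, ?_⟩
    beta_reduce
    rw [map_add, h.2.2, k.2.2]
  | succ n ih =>
    intro F F' G G' h k
    refine ⟨⟨h.1.1.add k.1.1, h.1.2.1.add k.1.2.1, ?_⟩, fun v => ?_⟩
    · beta_reduce
      rw [map_add, h.1.2.2, k.1.2.2]
    · refine (ih (h.2 v) (k.2 v)).congr ?_ ?_
      · filter_upwards [ev_diff h.1.1, ev_diff k.1.1] with z hz kz
        rw [fderiv_fun_add hz kz]
        rfl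
      · filter_upwards [ev_diff h.1.2.1, ev_diff k.1.2.1] with z hz kz
        rw [fderiv_fun_add hz kz]
        rfl

theorem Cj.mul {n : ℕ} : ∀ {F F' G G' : (Fin g → ℂ) → ℂ}, Cj τ n F F' → Cj τ n G G' →
    Cj τ n (fun z => F z * G z) (fun z => F' z * G' z) := by
  induction n with
  | zero =>
    intro F F' G G' h k
    refine ⟨h.1.mul k.1, h.2.1.mul k.2.1, ?_⟩
    beta_reduce
    rw [_root_.map_mul, h.2.2, k.2.2]
  | succ n ih =>
    intro F F' G G' h k
    refine ⟨⟨h.1.1.mul k.1.1, h.1.2.1.mul k.1.2.1, ?_⟩, fun v => ?_⟩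
    · beta_reduce
      rw [_root_.map_mul, h.1.2.2, k.1.2.2]
    · refine ((ih h.mono (k.2 v)).add (ih k.mono (h.2 v))).congr ?_ ?_
      · filter_upwards [ev_diff h.1.1, ev_diff k.1.1] with z hz kz
        rw [fderiv_fun_mul hz kz]
        rfl
      · filter_upwards [ev_diff h.1.2.1, ev_diff k.1.2.1] with z hz kz
        rw [fderiv_fun_mul hz kz]
        rfl

theorem Cj.sum {n : ℕ} {I : Type} (s : Finset I) {F F' : I → (Fin g → ℂ) → ℂ}
    (h : ∀ i ∈ s, Cj τ n (F i) (F' i)) :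
    Cj τ n (fun z => ∑ i ∈ s, F i z) (fun z => ∑ i ∈ s, F' i z) := by
  classical
  induction s using Finset.induction_on with
  | empty =>
    have h := Cj.const (τ := τ) (g := g) n 0
    rw [map_zero] at h
    simpa using h
  | insert a s ha ih =>
    simp only [Finset.sum_insert ha]
    exact (h a (Finset.mem_insert_self _ _)).add
      (ih fun i hi => h i (Finset.mem_insert_of_mem hi))

/-- the linear map `z ↦ z P` -/
noncomputable def LP (P : Matrix (Fin g) (Fin g) ℂ) : (Fin g → ℂ) →L[ℂ] (Fin g → ℂ) :=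
  (Matrix.vecMulLinear P).toContinuousLinearMap

theorem LP_apply (P : Matrix (Fin g) (Fin g) ℂ) (z : Fin g → ℂ) : LP P z = z ᵥ* P := rfl

theorem LP_tendsto (P : Matrix (Fin g) (Fin g) ℂ) :
    Tendsto (fun z => z ᵥ* P) (𝓝 (0 : Fin g → ℂ)) (𝓝 0) := by
  have h := (LP P).continuous.tendsto 0
  rw [map_zero] at h
  exact h

theorem analytic_comp (P : Matrix (Fin g) (Fin g) ℂ) {F : (Fin g → ℂ) → ℂ}
    (h : AnalyticAt ℂ F 0) : AnalyticAt ℂ (fun z => F (z ᵥ* P)) 0 := by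
  have h2 : AnalyticAt ℂ F (LP P 0) := by rw [map_zero]; exact h
  exact h2.comp ((LP P).analyticAt 0)

theorem ev_comp (P : Matrix (Fin g) (Fin g) ℂ) (v : Fin g → ℂ) {F : (Fin g → ℂ) → ℂ}
    (h : AnalyticAt ℂ F 0) : (fun z => fderiv ℂ F (z ᵥ* P) (v ᵥ* P)) =ᶠ[𝓝 0]
      fun z => fderiv ℂ (fun z => F (z ᵥ* P)) z v := by
  filter_upwards [(LP_tendsto P).eventually (ev_diff h)] with z hz
  have h1 : HasFDerivAt (fun z => F (z ᵥ* P)) ((fderiv ℂ F (z ᵥ* P)).comp (LP P)) z :=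
    HasFDerivAt.comp z (g := F) (f := fun z => z ᵥ* P) hz.hasFDerivAt (LP P).hasFDerivAt
  rw [h1.fderiv]
  rfl

theorem map_vecMul (τ : ℂ ≃+* ℂ) (P : Matrix (Fin g) (Fin g) ℂ) (v : Fin g → ℂ) :
    (fun i => τ ((v ᵥ* P) i)) = (fun i => τ (v i)) ᵥ* P.map τ := by
  funext i
  simp only [Matrix.vecMul, dotProduct, map_sum, _root_.map_mul, Matrix.map_apply]

theorem Cj.comp {n : ℕ} (P : Matrix (Fin g) (Fin g) ℂ) : ∀ {F F' : (Fin g → ℂ) → ℂ},
    Cj τ n F F' → Cj τ n (fun z => F (z ᵥ* P)) (fun z => F' (z ᵥ* P.map τ)) := by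
  induction n with
  | zero =>
    intro F F' h
    refine ⟨analytic_comp P h.1, analytic_comp _ h.2.1, ?_⟩
    beta_reduce
    rw [Matrix.zero_vecMul, Matrix.zero_vecMul, h.2.2]
  | succ n ih =>
    intro F F' h
    refine ⟨⟨analytic_comp P h.1.1, analytic_comp _ h.1.2.1, ?_⟩, fun v => ?_⟩
    · beta_reduce
      rw [Matrix.zero_vecMul, Matrix.zero_vecMul, h.1.2.2]
    · refine (ih (h.2 (v ᵥ* P))).congr (ev_comp P v h.1.1) ?_
      rw [map_vecMul]
      exact ev_comp _ _ h.1.2.1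

/-- coordinate functions -/
theorem Cj.coord (n : ℕ) (i : Fin g) : Cj τ n (fun z : Fin g → ℂ => z i) (fun z => z i) := by
  have h0 : AnalyticAt ℂ (fun z : Fin g → ℂ => z i) 0 :=
    (ContinuousLinearMap.proj (R := ℂ) (φ := fun _ : Fin g => ℂ) i).analyticAt 0
  have h1 : AnalyticAt ℂ (fun z : Fin g → ℂ => z i) 0 ∧
      AnalyticAt ℂ (fun z : Fin g → ℂ => z i) 0 ∧ (0 : Fin g → ℂ) i = τ ((0 : Fin g → ℂ) i) := by
    refine ⟨h0, h0, ?_⟩
    rw [Pi.zero_apply, map_zero]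
  cases n with
  | zero => exact h1
  | succ n =>
    refine ⟨h1, fun v => ?_⟩
    have h2 : ∀ z w : Fin g → ℂ, fderiv ℂ (fun z : Fin g → ℂ => z i) z w = w i := fun z w => by
      have h3 : HasFDerivAt (fun z : Fin g → ℂ => z i)
          (ContinuousLinearMap.proj (R := ℂ) (φ := fun _ : Fin g => ℂ) i) z :=
        (ContinuousLinearMap.proj (R := ℂ) (φ := fun _ : Fin g => ℂ) i).hasFDerivAt
      rw [h3.fderiv]
      rfl
    simp only [h2]
    exact Cj.const n (v i)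

/-- polynomials over `K` -/
theorem Cj.poly {n : ℕ} {I : Type} {K : IntermediateField ℚ ℂ} (hτ : ∀ a ∈ K, τ a = a)
    {F : I → (Fin g → ℂ) → ℂ} (h : ∀ i, Cj τ n (F i) (F i)) (p : MvPolynomial I K) :
    Cj τ n (fun z => aeval (fun i => F i z) p) (fun z => aeval (fun i => F i z) p) := by
  induction p using MvPolynomial.induction_on with
  | C a =>
    have h1 := Cj.const (τ := τ) (g := g) n (a : ℂ)
    rw [hτ a a.2] at h1
    simpa using h1
  | add p q hp hq =>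
    simp only [map_add]
    exact hp.add hq
  | mul_X p i hp =>
    simp only [_root_.map_mul, aeval_X]
    exact hp.mul (h i)

/-- polynomials over `ℂ` -/
theorem Cj.eval {n : ℕ} {I : Type} {F F' : I → (Fin g → ℂ) → ℂ} (h : ∀ i, Cj τ n (F i) (F' i))
    (p : MvPolynomial I ℂ) : Cj τ n (fun z => MvPolynomial.eval (fun i => F i z) p)
      (fun z => MvPolynomial.eval (fun i => F' i z) (MvPolynomial.map τ.toRingHom p)) := by
  induction p using MvPolynomial.induction_on with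
  | C a =>
    simp only [MvPolynomial.map_C, eval_C]
    exact Cj.const n a
  | add p q hp hq =>
    simp only [map_add]
    exact hp.add hq
  | mul_X p i hp =>
    simp only [_root_.map_mul, MvPolynomial.map_X, eval_X]
    exact hp.mul (h i)

/-- a function conjugate to `0` has vanishing Taylor coefficients -/
theorem iter_zero : ∀ (n : ℕ) (F' : (Fin g → ℂ) → ℂ), Cj τ n (fun _ => 0) F' →
    ∀ v : Fin g → ℂ, iteratedFDeriv ℂ n F' 0 (fun _ => v) = 0 := by
  intro n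
  induction n with
  | zero =>
    intro F' h v
    rw [iteratedFDeriv_zero_apply, h.2.2, map_zero]
  | succ n ih =>
    intro F' h v
    rw [iteratedFDeriv_succ_apply_right]
    have h1 : Cj τ n (fun _ => 0) (fun z => fderiv ℂ F' z v) := by
      have h2 := h.2 (fun i => τ.symm (v i))
      simp only [fderiv_fun_const, Pi.zero_apply, RingEquiv.apply_symm_apply] at h2
      exact h2
    have h3 := ih _ h1 v
    have h4 : (fun z => fderiv ℂ F' z v) =
        (ContinuousLinearMap.apply ℂ ℂ v) ∘ fun z => fderiv ℂ F' z := by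
      funext z
      rfl
    have h5 : ContDiffAt ℂ n (fun z => fderiv ℂ F' z) 0 := h.1.2.1.fderiv.contDiffAt
    rw [h4, ContinuousLinearMap.iteratedFDeriv_comp_left _ h5 le_rfl] at h3
    exact h3

theorem eventually_zero {F' : (Fin g → ℂ) → ℂ} (h : ∀ n, Cj τ n (fun _ => 0) F') :
    ∀ᶠ z in 𝓝 (0 : Fin g → ℂ), F' z = 0 := by
  obtain ⟨p, r, hp⟩ := (h 0).2.1
  filter_upwards [Metric.eball_mem_nhds (0 : Fin g → ℂ) hp.r_pos] with z hz
  have h1 := hp.hasSum_iteratedFDeriv hz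
  rw [zero_add] at h1
  have h2 : (fun n : ℕ => ((n.factorial : ℂ)⁻¹ • iteratedFDeriv ℂ n F' 0 fun _ => z)) =
      fun _ => 0 := by
    funext n
    rw [iter_zero n F' (h n) z, smul_zero]
  rw [h2] at h1
  exact h1.unique hasSum_zero

/-! ### Entire multiples -/

/-- `F` times a power of `w` is entire -/
def Ent (w F : (Fin g → ℂ) → ℂ) : Prop :=
  ∃ (M : ℕ) (H : (Fin g → ℂ) → ℂ), Differentiable ℂ H ∧ ∀ z, w z ≠ 0 → H z = w z ^ M * F z

theorem Ent.of_diff {w F : (Fin g → ℂ) → ℂ} (h : Differentiable ℂ F) : Ent w F :=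
  ⟨0, F, h, fun z _ => by rw [pow_zero, one_mul]⟩

theorem Ent.add {w F G : (Fin g → ℂ) → ℂ} (hw : Differentiable ℂ w) (h : Ent w F) (k : Ent w G) :
    Ent w (fun z => F z + G z) := by
  obtain ⟨M, H, h1, h2⟩ := h
  obtain ⟨M', H', h3, h4⟩ := k
  refine ⟨M + M', fun z => w z ^ M' * H z + w z ^ M * H' z,
    ((hw.pow M').mul h1).add ((hw.pow M).mul h3), fun z hz => ?_⟩
  beta_reduce
  rw [h2 z hz, h4 z hz]
  ring

theorem Ent.mul {w F G : (Fin g → ℂ) → ℂ} (h : Ent w F) (k : Ent w G) :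
    Ent w (fun z => F z * G z) := by
  obtain ⟨M, H, h1, h2⟩ := h
  obtain ⟨M', H', h3, h4⟩ := k
  refine ⟨M + M', fun z => H z * H' z, h1.mul h3, fun z hz => ?_⟩
  beta_reduce
  rw [h2 z hz, h4 z hz]
  ring

theorem Ent.sum {w : (Fin g → ℂ) → ℂ} (hw : Differentiable ℂ w) {I : Type} (s : Finset I)
    {F : I → (Fin g → ℂ) → ℂ} (h : ∀ i ∈ s, Ent w (F i)) : Ent w (fun z => ∑ i ∈ s, F i z) := by
  classical
  induction s using Finset.induction_on with
  | empty =>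
    simp only [Finset.sum_empty]
    exact Ent.of_diff (differentiable_const 0)
  | insert a s ha ih =>
    simp only [Finset.sum_insert ha]
    exact (h a (Finset.mem_insert_self _ _)).add hw
      (ih fun i hi => h i (Finset.mem_insert_of_mem hi))

theorem Ent.eval {w : (Fin g → ℂ) → ℂ} (hw : Differentiable ℂ w) {I : Type}
    {F : I → (Fin g → ℂ) → ℂ} (h : ∀ i, Ent w (F i)) (p : MvPolynomial I ℂ) :
    Ent w (fun z => MvPolynomial.eval (fun i => F i z) p) := by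
  induction p using MvPolynomial.induction_on with
  | C a =>
    simp only [eval_C]
    exact Ent.of_diff (differentiable_const a)
  | add p q hp hq =>
    simp only [map_add]
    exact hp.add hw hq
  | mul_X p i hp =>
    simp only [_root_.map_mul, eval_X]
    exact hp.mul (h i)

theorem Ent.eq_zero {w F : (Fin g → ℂ) → ℂ} (hw : Differentiable ℂ w) (h0 : w 0 ≠ 0)
    (h : Ent w F) (hF : ∀ᶠ z in 𝓝 (0 : Fin g → ℂ), F z = 0) (z : Fin g → ℂ) (hz : w z ≠ 0) :
    F z = 0 := by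
  obtain ⟨M, H, h1, h2⟩ := h
  have h3 : AnalyticOnNhd ℂ H Set.univ := fun x _ => Osgood.analyticAt_of_differentiable h1 x
  have h4 : H =ᶠ[𝓝 0] 0 := by
    filter_upwards [hF, (hw.continuous.continuousAt (x := 0)).eventually_ne h0] with x hx hwx
    rw [h2 x hwx, hx, mul_zero]
    rfl
  have h5 := h3.eqOn_zero_of_preconnected_of_eventuallyEq_zero isPreconnected_univ
    (Set.mem_univ 0) h4 (Set.mem_univ z)
  rw [h2 z hz] at h5
  exact (mul_eq_zero.1 h5).resolve_left (pow_ne_zero _ hz)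

/-! ### The functions of an abelian variety -/

variable {N : ℕ} {K : IntermediateField ℚ ℂ} {A : AbData g N}

theorem ev_th (hA : A.IsAbVar K) : ∀ᶠ z in 𝓝 (0 : Fin g → ℂ), A.th 0 z ≠ 0 :=
  ((hA.th_diff 0).continuous.continuousAt (x := 0)).eventually_ne hA.zero

theorem analytic_f (hA : A.IsAbVar K) (i : Fin (N + 1)) : AnalyticAt ℂ (A.f i) 0 :=
  (Osgood.analyticAt_of_differentiable (hA.th_diff i) 0).div
    (Osgood.analyticAt_of_differentiable (hA.th_diff 0) 0) hA.zero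

theorem analytic_zt (hA : A.IsAbVar K) (t : Fin g) : AnalyticAt ℂ (A.zt t) 0 :=
  (Osgood.analyticAt_of_differentiable (hA.Y_diff t) 0).div
    ((Osgood.analyticAt_of_differentiable (hA.th_diff 0) 0).pow A.m) (pow_ne_zero _ hA.zero)

theorem fderiv_eq (F : (Fin g → ℂ) → ℂ) (z v : Fin g → ℂ) :
    fderiv ℂ F z v = ∑ j, v j * AbData.pd j F z := by
  have h : v = ∑ j, v j • (Pi.single j 1 : Fin g → ℂ) := by
    funext i
    simp [Finset.sum_apply, Pi.single_apply]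
  conv_lhs => rw [h]
  rw [map_sum]
  refine Finset.sum_congr rfl fun j _ => ?_
  rw [map_smul]
  rfl

/-- one step, for functions with derivatives in `K[f]` -/
theorem step {n : ℕ} (hA : A.IsAbVar K) (hτ : ∀ a ∈ K, τ a = a)
    (hf : ∀ i, Cj τ n (A.f i) (A.f i)) {F : (Fin g → ℂ) → ℂ} (hF : AnalyticAt ℂ F 0)
    (hF0 : F 0 ∈ K) (hd : ∀ j, A.Reg K (AbData.pd j F)) : Cj τ (n + 1) F F := by
  refine ⟨⟨hF, hF, (hτ _ hF0).symm⟩, fun v => ?_⟩
  choose p hp using hd
  have h1 : ∀ v : Fin g → ℂ, (fun z => ∑ j, v j * aeval (fun i => A.f i z) (p j)) =ᶠ[𝓝 0]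
      fun z => fderiv ℂ F z v := by
    intro v
    filter_upwards [ev_th hA] with z hz
    rw [fderiv_eq]
    refine Finset.sum_congr rfl fun j _ => ?_
    rw [hp j z hz]
  refine Cj.congr (h1 v) (h1 _) ?_
  refine Cj.sum _ fun j _ => ?_
  exact (Cj.const n (v j)).mul (Cj.poly hτ hf (p j))

theorem cj_f (hA : A.IsAbVar K) (hτ : ∀ a ∈ K, τ a = a) (n : ℕ) :
    ∀ i, Cj τ n (A.f i) (A.f i) := by
  induction n with
  | zero => intro i; exact ⟨analytic_f hA i, analytic_f hA i, (hτ _ (hA.value i)).symm⟩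
  | succ n ih =>
    intro i
    exact step hA hτ ih (analytic_f hA i) (hA.value i) (hA.deriv i)

theorem cj_zt (hA : A.IsAbVar K) (hτ : ∀ a ∈ K, τ a = a) (n : ℕ) (t : Fin g) :
    Cj τ n (A.zt t) (A.zt t) :=
  (step hA hτ (cj_f hA hτ n) (analytic_zt hA t) (hA.zt_value t) (hA.zt_deriv t)).mono

/-- the product of the denominators -/
noncomputable def ww (A : AbData g N) (P : Matrix (Fin g) (Fin g) ℂ) (z : Fin g → ℂ) : ℂ :=
  A.th 0 z * A.th 0 (z ᵥ* P)

theorem diff_comp (P : Matrix (Fin g) (Fin g) ℂ) {F : (Fin g → ℂ) → ℂ}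
    (h : Differentiable ℂ F) : Differentiable ℂ fun z => F (z ᵥ* P) :=
  h.comp (LP P).differentiable

theorem diff_ww (hA : A.IsAbVar K) (P : Matrix (Fin g) (Fin g) ℂ) : Differentiable ℂ (ww A P) :=
  (hA.th_diff 0).mul (diff_comp P (hA.th_diff 0))

theorem ent_f (hA : A.IsAbVar K) (P : Matrix (Fin g) (Fin g) ℂ) (i : Fin (N + 1)) :
    Ent (ww A P) (A.f i) := by
  refine ⟨1, fun z => A.th i z * A.th 0 (z ᵥ* P),
    (hA.th_diff i).mul (diff_comp P (hA.th_diff 0)), fun z hz => ?_⟩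
  have h1 : A.th 0 z ≠ 0 := left_ne_zero_of_mul hz
  rw [ww, pow_one, AbData.f]
  field_simp

theorem ent_fP (hA : A.IsAbVar K) (P : Matrix (Fin g) (Fin g) ℂ) (i : Fin (N + 1)) :
    Ent (ww A P) (A.fP P i) := by
  refine ⟨1, fun z => A.th 0 z * A.th i (z ᵥ* P),
    (hA.th_diff 0).mul (diff_comp P (hA.th_diff i)), fun z hz => ?_⟩
  have h1 : A.th 0 (z ᵥ* P) ≠ 0 := right_ne_zero_of_mul hz
  rw [ww, pow_one, AbData.fP, AbData.f]
  field_simp

theorem ent_zt (hA : A.IsAbVar K) (P : Matrix (Fin g) (Fin g) ℂ) (t : Fin g) :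
    Ent (ww A P) (A.zt t) := by
  refine ⟨A.m, fun z => A.Y t z * A.th 0 (z ᵥ* P) ^ A.m,
    (hA.Y_diff t).mul ((diff_comp P (hA.th_diff 0)).pow _), fun z hz => ?_⟩
  have h1 : A.th 0 z ≠ 0 := left_ne_zero_of_mul hz
  rw [ww, AbData.zt, mul_pow]
  field_simp

theorem ent_ztP (hA : A.IsAbVar K) (P : Matrix (Fin g) (Fin g) ℂ) (t : Fin g) :
    Ent (ww A P) (fun z => A.zt t (z ᵥ* P)) := by
  refine ⟨A.m, fun z => A.th 0 z ^ A.m * A.Y t (z ᵥ* P),
    ((hA.th_diff 0).pow _).mul (diff_comp P (hA.Y_diff t)), fun z hz => ?_⟩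
  have h1 : A.th 0 (z ᵥ* P) ≠ 0 := right_ne_zero_of_mul hz
  change _ = (A.th 0 z * A.th 0 (z ᵥ* P)) ^ A.m * (A.Y t (z ᵥ* P) / A.th 0 (z ᵥ* P) ^ A.m)
  rw [mul_pow]
  field_simp

theorem gP_eq (P Q S : Matrix (Fin g) (Fin g) ℂ) (t : Fin g) :
    A.gP P Q S t = fun z => A.zt t (z ᵥ* P) + (∑ i, z i * (-(Q i t)) +
      ∑ i, A.zt i z * (-(S i t))) := by
  funext z
  simp only [AbData.gP, Matrix.vecMul, dotProduct, mul_neg, Finset.sum_neg_distrib]
  ring

theorem cj_gP (hA : A.IsAbVar K) (hτ : ∀ a ∈ K, τ a = a) (n : ℕ)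
    (P Q S : Matrix (Fin g) (Fin g) ℂ) (t : Fin g) :
    Cj τ n (A.gP P Q S t) (A.gP (P.map τ) (Q.map τ) (S.map τ) t) := by
  rw [gP_eq, gP_eq]
  refine ((cj_zt hA hτ n t).comp P).add (Cj.add ?_ ?_)
  · refine Cj.sum _ fun i _ => (Cj.coord n i).mul ?_
    have h := Cj.const (τ := τ) (g := g) n (-(Q i t))
    rw [map_neg] at h
    exact h
  · refine Cj.sum _ fun i _ => (cj_zt hA hτ n i).mul ?_
    have h := Cj.const (τ := τ) (g := g) n (-(S i t))
    rw [map_neg] at h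
    exact h

theorem ent_gP (hA : A.IsAbVar K) (P Q S : Matrix (Fin g) (Fin g) ℂ) (t : Fin g) :
    Ent (ww A P) (A.gP P Q S t) := by
  rw [gP_eq]
  refine (ent_ztP hA P t).add (diff_ww hA P) (Ent.add (diff_ww hA P) ?_ ?_)
  · refine Ent.sum (diff_ww hA P) _ fun i _ => (Ent.of_diff ?_).mul
      (Ent.of_diff (differentiable_const _))
    exact (ContinuousLinearMap.proj (R := ℂ) (φ := fun _ : Fin g => ℂ) i).differentiable
  · exact Ent.sum (diff_ww hA P) _ fun i _ => (ent_zt hA P i).mul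
      (Ent.of_diff (differentiable_const _))

/-- conjugation of a relation -/
theorem conj_rel (hA : A.IsAbVar K) (hτ : ∀ a ∈ K, τ a = a) (P : Matrix (Fin g) (Fin g) ℂ)
    (s : Fin g → Fin (N + 1)) (p : MvPolynomial (Option (Fin g)) ℂ) {F F' : (Fin g → ℂ) → ℂ}
    (hF : ∀ n, Cj τ n F F') (hE : Ent (ww A (P.map τ)) F') (h : A.Rel P s F p) :
    A.Rel (P.map τ) s F' (MvPolynomial.map τ.toRingHom p) := by
  intro z hz hz'
  have hw0 : ∀ P : Matrix (Fin g) (Fin g) ℂ, ww A P 0 ≠ 0 := fun P => by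
    rw [ww, Matrix.zero_vecMul]
    exact mul_ne_zero hA.zero hA.zero
  refine Ent.eq_zero (w := ww A (P.map τ)) (F := fun z => MvPolynomial.eval
    (fun k => Option.elim k (F' z) fun k => A.f (s k) z) (MvPolynomial.map τ.toRingHom p))
    (diff_ww hA _) (hw0 _) ?_ ?_ z (mul_ne_zero hz hz')
  · refine Ent.eval (diff_ww hA _)
      (F := fun k z => Option.elim k (F' z) fun k => A.f (s k) z) ?_ _
    rintro (_ | k)
    · exact hE
    · exact ent_f hA _ _
  · refine eventually_zero (τ := τ) fun n => ?_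
    have h1 := Cj.eval (τ := τ) (n := n)
      (F := fun k z => Option.elim k (F z) fun k => A.f (s k) z)
      (F' := fun k z => Option.elim k (F' z) fun k => A.f (s k) z) (by
        rintro (_ | k)
        · exact hF n
        · exact cj_f hA hτ n _) p
    refine h1.congr ?_ (EventuallyEq.refl _ _)
    have h2 : ∀ᶠ z in 𝓝 (0 : Fin g → ℂ), ww A P z ≠ 0 :=
      ((diff_ww hA P).continuous.continuousAt (x := 0)).eventually_ne (hw0 P)
    filter_upwards [h2] with z hz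
    exact h z (left_ne_zero_of_mul hz) (right_ne_zero_of_mul hz)

end ConjM

open ConjM in
theorem specCONJ : SpecCONJ := by
  intro K g N A hA τ hτ P Q S s p
  refine ⟨fun j h => ?_, fun t h => ?_⟩
  · refine conj_rel hA hτ P s p (fun n => ?_) (ent_fP hA _ _) h
    exact (cj_f hA hτ n j).comp P
  · refine conj_rel hA hτ P s p (fun n => ?_) ?_ h
    · exact cj_gP hA hτ n P Q S t
    · exact ent_gP hA _ _ _ t

end Pool.Agent.Lib.MPf11a48.U
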