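import Pool.Agent.Lib.MP_f11a48_ag.U.SpecR
import Pool.Agent.Lib.MP_f11a48_ag.U.Osgood

/-!
Module GROW of project U for MP_f11a48_ag: growth of theta functions.
-/

set_option autoImplicit false
set_option linter.unusedSectionVars false

open Matrix MvPolynomial Pool.Agent.Lib.MPf11a48.CM Pool.Agent.Lib.MPf11a48.GL2T Filter Topology

namespace Pool.Agent.Lib.MPf11a48.U

namespace GrowM

variable {g : ℕ}

/-- Growth from quasi-periodicity. -/
theorem growth (lat : Ix g → (Fin g → ℂ)) (hlat : LinearIndependent ℝ lat) (H : (Fin g → ℂ) → ℝ)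
    (hc : Continuous H) (h0 : ∀ z, 0 ≤ H z) (c : ℝ) (hc0 : 0 ≤ c)
    (h1 : ∀ l z, H (z + lat l) ≤ Real.exp (c * (1 + ‖z‖)) * H z)
    (h2 : ∀ l z, H (z - lat l) ≤ Real.exp (c * (1 + ‖z‖)) * H z) :
    ∃ C : ℝ, ∀ z, H z ≤ Real.exp (C * (1 + ‖z‖ ^ 2)) := by
  classical
  have hcard : Fintype.card (Ix g) = Module.finrank ℝ (Fin g → ℂ) := by
    rw [Module.finrank_pi_fintype]
    simp [Complex.finrank_real_complex]
    ring
  let b : Module.Basis (Ix g) ℝ (Fin g → ℂ) := basisOfLinearIndependentOfCardEqFinrank' lat hlat hcard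
  have hb : ∀ l, b l = lat l := fun l => by
    simp only [b, coe_basisOfLinearIndependentOfCardEqFinrank']
  set R0 : ℝ := ∑ l, ‖lat l‖ with hR0
  have hR0' : 0 ≤ R0 := Finset.sum_nonneg fun l _ => norm_nonneg _
  have hlR : ∀ l, ‖lat l‖ ≤ R0 := fun l =>
    Finset.single_le_sum (f := fun l => ‖lat l‖) (fun l _ => norm_nonneg _) (Finset.mem_univ l)
  -- bound on the fundamental domain
  obtain ⟨M, hM⟩ : ∃ M : ℝ, ∀ w : Fin g → ℂ, ‖w‖ ≤ R0 → H w ≤ M := by
    obtain ⟨M, hM⟩ := (isCompact_closedBall (0 : Fin g → ℂ) R0).bddAbove_image hc.continuousOn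
    refine ⟨M, fun w hw => hM ⟨w, ?_, rfl⟩⟩
    simpa using hw
  have hM0 : 0 ≤ M := (h0 0).trans (hM 0 (by simpa using hR0'))
  -- induction
  have key : ∀ k : ℕ, ∀ n : Ix g → ℤ, ∑ l, (n l).natAbs ≤ k → ∀ w : Fin g → ℂ, ‖w‖ ≤ R0 →
      ‖w + ∑ l, n l • lat l‖ ≤ R0 + k * R0 ∧
      H (w + ∑ l, n l • lat l) ≤ M * Real.exp (k * (c * (1 + R0 + k * R0))) := by
    intro k
    induction k with
    | zero =>
      intro n hn w hw
      have h3 : n = 0 := by
        funext l
        have h4 : (n l).natAbs ≤ ∑ l, (n l).natAbs :=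
          Finset.single_le_sum (f := fun l => (n l).natAbs) (fun l _ => Nat.zero_le _)
            (Finset.mem_univ l)
        have h5 : (n l).natAbs = 0 := by omega
        exact Int.natAbs_eq_zero.1 h5
      rw [h3]
      simp only [Pi.zero_apply, zero_smul, Finset.sum_const_zero, add_zero, Nat.cast_zero, zero_mul,
        Real.exp_zero, mul_one]
      exact ⟨hw, hM w hw⟩
    | succ k ih =>
      intro n hn w hw
      have hkR : (0 : ℝ) ≤ k * R0 := by positivity
      have hmono : M * Real.exp (k * (c * (1 + R0 + k * R0))) *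
          Real.exp (c * (1 + (R0 + k * R0))) ≤
          M * Real.exp (((k + 1 : ℕ) : ℝ) * (c * (1 + R0 + ((k + 1 : ℕ) : ℝ) * R0))) := by
        rw [mul_assoc, ← Real.exp_add]
        refine mul_le_mul_of_nonneg_left (Real.exp_le_exp.2 ?_) hM0
        push_cast
        have h3 : 0 ≤ c * R0 := by positivity
        have h4 : (0 : ℝ) ≤ k := Nat.cast_nonneg k
        nlinarith
      have hmono' : M * Real.exp (k * (c * (1 + R0 + k * R0))) ≤
          M * Real.exp (((k + 1 : ℕ) : ℝ) * (c * (1 + R0 + ((k + 1 : ℕ) : ℝ) * R0))) := by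
        refine le_trans ?_ hmono
        have h3 : 0 ≤ M * Real.exp (k * (c * (1 + R0 + k * R0))) := by positivity
        refine le_mul_of_one_le_right h3 (Real.one_le_exp (by positivity))
      by_cases hn0 : ∀ l, n l = 0
      · have h3 : ∑ l, n l • lat l = 0 := Finset.sum_eq_zero fun l _ => by rw [hn0 l, zero_smul]
        have h4 := ih 0 (by simp) w hw
        simp only [Pi.zero_apply, zero_smul, Finset.sum_const_zero, add_zero] at h4
        rw [h3, add_zero]
        refine ⟨hw.trans ?_, h4.2.trans hmono'⟩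
        have : (0 : ℝ) ≤ ((k + 1 : ℕ) : ℝ) * R0 := by positivity
        linarith
      · push Not at hn0
        obtain ⟨l, hl⟩ := hn0
        set s : ℤ := if 0 < n l then 1 else -1 with hs
        set n' : Ix g → ℤ := n - Pi.single l s with hn'
        have h5 : ∑ j, (n' j).natAbs ≤ k := by
          have h6 : ∑ j, (n' j).natAbs + 1 = ∑ j, (n j).natAbs := by
            rw [← Finset.add_sum_erase _ _ (Finset.mem_univ l),
              ← Finset.add_sum_erase _ _ (Finset.mem_univ l)]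
            have h7 : ∑ j ∈ Finset.univ.erase l, (n' j).natAbs =
                ∑ j ∈ Finset.univ.erase l, (n j).natAbs := by
              refine Finset.sum_congr rfl fun j hj => ?_
              rw [hn', Pi.sub_apply, Pi.single_eq_of_ne (Finset.ne_of_mem_erase hj), sub_zero]
            rw [h7]
            have h8 : n' l = n l - s := by rw [hn', Pi.sub_apply, Pi.single_eq_same]
            rw [h8]
            have h9 : (n l - s).natAbs + 1 = (n l).natAbs := by
              rw [hs]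
              split_ifs with h10 <;> omega
            omega
          omega
        obtain ⟨h6, h7⟩ := ih n' h5 w hw
        have h8 : w + ∑ j, n j • lat j = (w + ∑ j, n' j • lat j) + s • lat l := by
          have h9 : ∀ j, n j • lat j = n' j • lat j + (if j = l then s • lat l else 0) := by
            intro j
            rw [hn', Pi.sub_apply, sub_smul]
            by_cases hj : j = l
            · subst hj
              rw [Pi.single_eq_same, if_pos rfl]
              abel
            · rw [Pi.single_eq_of_ne hj, if_neg hj, zero_smul]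
              abel
          rw [Finset.sum_congr rfl fun j _ => h9 j, Finset.sum_add_distrib,
            Finset.sum_ite_eq' Finset.univ l, if_pos (Finset.mem_univ l)]
          abel
        rw [h8]
        set z' := w + ∑ j, n' j • lat j with hz'
        have h9 : H (z' + s • lat l) ≤ Real.exp (c * (1 + ‖z'‖)) * H z' := by
          rw [hs]
          split_ifs with h10
          · rw [one_smul]
            exact h1 l z'
          · rw [neg_smul, one_smul, ← sub_eq_add_neg]
            exact h2 l z'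
        constructor
        · refine (norm_add_le _ _).trans ?_
          have h10 : ‖s • lat l‖ ≤ R0 := by
            refine le_trans ?_ (hlR l)
            rw [hs]
            split_ifs with h10
            · rw [one_smul]
            · rw [neg_smul, one_smul, norm_neg]
          push_cast
          linarith
        · refine h9.trans (le_trans ?_ hmono)
          rw [mul_comm]
          refine mul_le_mul h7 (Real.exp_le_exp.2 ?_) (Real.exp_pos _).le (by positivity)
          refine mul_le_mul_of_nonneg_left ?_ hc0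
          linarith
  -- coordinates
  set C0 : ℝ := ∑ l, ‖LinearMap.toContinuousLinearMap (b.coord l)‖ with hC0
  have hC0' : 0 ≤ C0 := Finset.sum_nonneg fun l _ => norm_nonneg _
  set d : ℝ := C0 + Fintype.card (Ix g) with hd
  have hd0 : 0 ≤ d := by positivity
  refine ⟨M + 2 * (d * (c * (1 + R0 + d * R0))), fun z => ?_⟩
  set n : Ix g → ℤ := fun l => ⌊b.repr z l⌋ with hn
  have hz : z = (∑ l, Int.fract (b.repr z l) • lat l) + ∑ l, n l • lat l := by
    rw [← Finset.sum_add_distrib]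
    conv_lhs => rw [← b.sum_repr z]
    refine Finset.sum_congr rfl fun l _ => ?_
    rw [hb, ← Int.cast_smul_eq_zsmul ℝ (n l), ← add_smul, hn, Int.fract_add_floor]
  have hw : ‖∑ l, Int.fract (b.repr z l) • lat l‖ ≤ R0 := by
    refine (norm_sum_le _ _).trans (Finset.sum_le_sum fun l _ => ?_)
    rw [norm_smul, Real.norm_of_nonneg (Int.fract_nonneg _)]
    exact mul_le_of_le_one_left (norm_nonneg _) (Int.fract_lt_one _).le
  have hk : ((∑ l, (n l).natAbs : ℕ) : ℝ) ≤ d * (1 + ‖z‖) := by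
    push_cast
    have h3 : ∀ l, ((n l).natAbs : ℝ) ≤ ‖LinearMap.toContinuousLinearMap (b.coord l)‖ * ‖z‖ + 1 := by
      intro l
      have h4 : |b.repr z l| ≤ ‖LinearMap.toContinuousLinearMap (b.coord l)‖ * ‖z‖ := by
        have := (LinearMap.toContinuousLinearMap (b.coord l)).le_opNorm z
        simpa using this
      have h5 : ((n l).natAbs : ℝ) = |(n l : ℝ)| := by
        rw [Nat.cast_natAbs, Int.cast_abs]
      rw [h5]
      have h6 := Int.floor_le (b.repr z l)
      have h7 := Int.lt_floor_add_one (b.repr z l)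
      rw [abs_le] at h4 ⊢
      simp only [hn]
      constructor <;> linarith
    refine (Finset.sum_le_sum fun l _ => h3 l).trans ?_
    rw [Finset.sum_add_distrib, ← Finset.sum_mul, ← hC0, Finset.sum_const, Finset.card_univ,
      nsmul_eq_mul, mul_one, hd]
    have h8 : (0 : ℝ) ≤ (Fintype.card (Ix g) : ℝ) * ‖z‖ := by positivity
    nlinarith
  set k : ℕ := ∑ l, (n l).natAbs with hkdef
  have h3 := (key k n le_rfl _ hw).2
  rw [← hz] at h3
  refine h3.trans ?_
  have hM1 : M ≤ Real.exp M := by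
    have := Real.add_one_le_exp M
    linarith
  refine (mul_le_mul_of_nonneg_right hM1 (Real.exp_pos _).le).trans ?_
  rw [← Real.exp_add]
  refine Real.exp_le_exp.2 ?_
  set s := 1 + ‖z‖ with hs
  have hs1 : 1 ≤ s := by
    rw [hs]
    linarith [norm_nonneg z]
  have hk0 : (0 : ℝ) ≤ k := Nat.cast_nonneg k
  have h4 : (k : ℝ) * (c * (1 + R0 + k * R0)) ≤ (d * s) * (c * (1 + R0 + d * s * R0)) := by
    refine mul_le_mul hk ?_ (by positivity) (by positivity)
    refine mul_le_mul_of_nonneg_left ?_ hc0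
    have := mul_le_mul_of_nonneg_right hk hR0'
    linarith
  have h5 : (d * s) * (c * (1 + R0 + d * s * R0)) ≤ d * (c * (1 + R0 + d * R0)) * s ^ 2 := by
    have h6 : (1 + R0 + d * s * R0) ≤ (1 + R0 + d * R0) * s := by
      have h7 : 1 + R0 ≤ (1 + R0) * s := le_mul_of_one_le_right (by positivity) hs1
      nlinarith
    have h8 : 0 ≤ d * s * c := by positivity
    calc (d * s) * (c * (1 + R0 + d * s * R0)) = d * s * c * (1 + R0 + d * s * R0) := by ring
      _ ≤ d * s * c * ((1 + R0 + d * R0) * s) := mul_le_mul_of_nonneg_left h6 h8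
      _ = d * (c * (1 + R0 + d * R0)) * s ^ 2 := by ring
  have h6 : s ^ 2 ≤ 2 * (1 + ‖z‖ ^ 2) := by
    rw [hs]
    nlinarith [sq_nonneg (1 - ‖z‖)]
  have h7 : 0 ≤ d * (c * (1 + R0 + d * R0)) := by positivity
  have h8 : M ≤ M * (1 + ‖z‖ ^ 2) := le_mul_of_one_le_right hM0 (by nlinarith [sq_nonneg ‖z‖])
  calc M + (k : ℝ) * (c * (1 + R0 + k * R0)) ≤ M + d * (c * (1 + R0 + d * R0)) * s ^ 2 := by
        linarith
    _ ≤ M + d * (c * (1 + R0 + d * R0)) * (2 * (1 + ‖z‖ ^ 2)) := by
        have := mul_le_mul_of_nonneg_left h6 h7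
        linarith
    _ ≤ (M + 2 * (d * (c * (1 + R0 + d * R0)))) * (1 + ‖z‖ ^ 2) := by
        nlinarith

/-- A linear form is bounded. -/
theorem linear_bound (a : (Fin g → ℂ) →ₗ[ℂ] ℂ) : ∃ C : ℝ, 0 ≤ C ∧ ∀ z, ‖a z‖ ≤ C * ‖z‖ :=
  ⟨‖LinearMap.toContinuousLinearMap a‖, norm_nonneg _,
    fun z => (LinearMap.toContinuousLinearMap a).le_opNorm z⟩

/-- The automorphy factors. -/
theorem factor_bound (lat : Ix g → (Fin g → ℂ)) (a : Ix g → (Fin g → ℂ) →ₗ[ℂ] ℂ)
    (b : Ix g → ℂ) : ∃ c : ℝ, 0 ≤ c ∧ (∀ l z, ‖Complex.exp (a l z + b l)‖ ≤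
      Real.exp (c * (1 + ‖z‖))) ∧ ∀ l z, ‖Complex.exp (-(a l (z - lat l) + b l))‖ ≤
      Real.exp (c * (1 + ‖z‖)) := by
  choose C hC0 hC using fun l => linear_bound (a l)
  set c : ℝ := ∑ l, (C l * (1 + ‖lat l‖) + ‖b l‖) with hc
  have hterm : ∀ l, 0 ≤ C l * (1 + ‖lat l‖) + ‖b l‖ := fun l => by
    have := hC0 l
    positivity
  have hle : ∀ l, C l * (1 + ‖lat l‖) + ‖b l‖ ≤ c := fun l =>
    Finset.single_le_sum (f := fun l => C l * (1 + ‖lat l‖) + ‖b l‖) (fun l _ => hterm l)
      (Finset.mem_univ l)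
  refine ⟨c, Finset.sum_nonneg fun l _ => hterm l, fun l z => ?_, fun l z => ?_⟩
  · rw [Complex.norm_exp]
    refine Real.exp_le_exp.2 ((Complex.re_le_norm _).trans ((norm_add_le _ _).trans ?_))
    have h1 := hC l z
    have h2 := hle l
    have h3 := norm_nonneg (lat l)
    have h4 := norm_nonneg z
    have h5 := norm_nonneg (b l)
    have h6 := hC0 l
    have h7 : C l * ‖z‖ + ‖b l‖ ≤ (C l * (1 + ‖lat l‖) + ‖b l‖) * (1 + ‖z‖) := by
      have : 0 ≤ C l * ‖lat l‖ := by positivity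
      nlinarith [mul_nonneg h5 h4, mul_nonneg this h4]
    have h8 := mul_le_mul_of_nonneg_right h2 (by linarith : (0 : ℝ) ≤ 1 + ‖z‖)
    linarith
  · rw [Complex.norm_exp]
    refine Real.exp_le_exp.2 ((Complex.re_le_norm _).trans ?_)
    rw [norm_neg]
    refine (norm_add_le _ _).trans ?_
    have h1 := hC l (z - lat l)
    have h2 := hle l
    have h3 := norm_nonneg (lat l)
    have h4 := norm_nonneg z
    have h5 := norm_nonneg (b l)
    have h6 := hC0 l
    have h9 := norm_sub_le z (lat l)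
    have h10 : C l * ‖z - lat l‖ ≤ C l * (‖z‖ + ‖lat l‖) := mul_le_mul_of_nonneg_left h9 h6
    have h7 : C l * (‖z‖ + ‖lat l‖) + ‖b l‖ ≤ (C l * (1 + ‖lat l‖) + ‖b l‖) * (1 + ‖z‖) := by
      have : 0 ≤ C l * ‖lat l‖ := by positivity
      nlinarith [mul_nonneg h5 h4, mul_nonneg this h4]
    have h8 := mul_le_mul_of_nonneg_right h2 (by linarith : (0 : ℝ) ≤ 1 + ‖z‖)
    linarith

/-- Growth of theta functions. -/
theorem th_growth {N : ℕ} {K : IntermediateField ℚ ℂ} (A : AbData g N) (hA : A.IsAbVar K) :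
    ∃ C : ℝ, ∀ i z, ‖A.th i z‖ ≤ Real.exp (C * (1 + ‖z‖ ^ 2)) := by
  obtain ⟨c, hc0, hc1, hc2⟩ := factor_bound A.lat A.a A.b
  obtain ⟨C, hC⟩ := growth A.lat hA.lat_indep (fun z => ∑ i, ‖A.th i z‖)
    (continuous_finsetSum _ fun i _ => (hA.th_diff i).continuous.norm)
    (fun z => Finset.sum_nonneg fun i _ => norm_nonneg _) c hc0
    (fun l z => by
      rw [Finset.mul_sum]
      refine Finset.sum_le_sum fun i _ => ?_
      rw [hA.th_aut, norm_mul]
      exact mul_le_mul_of_nonneg_right (hc1 l z) (norm_nonneg _))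
    (fun l z => by
      rw [Finset.mul_sum]
      refine Finset.sum_le_sum fun i _ => ?_
      have h1 := hA.th_aut l i (z - A.lat l)
      rw [sub_add_cancel] at h1
      have h2 : A.th i (z - A.lat l) = Complex.exp (-(A.a l (z - A.lat l) + A.b l)) * A.th i z := by
        rw [h1, ← mul_assoc, ← Complex.exp_add, neg_add_cancel, Complex.exp_zero, one_mul]
      rw [h2, norm_mul]
      exact mul_le_mul_of_nonneg_right (hc2 l z) (norm_nonneg _))
  exact ⟨C, fun i z => (Finset.single_le_sum (f := fun i => ‖A.th i z‖) (fun i _ => norm_nonneg _)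
    (Finset.mem_univ i)).trans (hC z)⟩

/-- Transformation of `Y_t`. -/
theorem Y_aut {N : ℕ} {K : IntermediateField ℚ ℂ} (A : AbData g N) (hA : A.IsAbVar K) (l : Ix g)
    (t : Fin g) (z : Fin g → ℂ) : A.Y t (z + A.lat l) =
      Complex.exp (A.a l z + A.b l) ^ A.m * (A.Y t z + A.eta l t * A.th 0 z ^ A.m) := by
  have hd1 : Differentiable ℂ fun z => A.Y t (z + A.lat l) :=
    (hA.Y_diff t).comp (differentiable_id.add_const _)
  have hal : Differentiable ℂ fun z => A.a l z :=
    (LinearMap.toContinuousLinearMap (A.a l)).differentiable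
  have hd2 : Differentiable ℂ fun z =>
      Complex.exp (A.a l z + A.b l) ^ A.m * (A.Y t z + A.eta l t * A.th 0 z ^ A.m) :=
    ((hal.add_const _).cexp.pow _).mul ((hA.Y_diff t).add (((hA.th_diff 0).pow _).const_mul _))
  have h1 : AnalyticOnNhd ℂ (fun z => A.Y t (z + A.lat l)) Set.univ :=
    fun z _ => Osgood.analyticAt_of_differentiable hd1 z
  have h2 : AnalyticOnNhd ℂ (fun z =>
      Complex.exp (A.a l z + A.b l) ^ A.m * (A.Y t z + A.eta l t * A.th 0 z ^ A.m)) Set.univ :=
    fun z _ => Osgood.analyticAt_of_differentiable hd2 z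
  have h3 : (fun z => A.Y t (z + A.lat l)) =ᶠ[𝓝 0] fun z =>
      Complex.exp (A.a l z + A.b l) ^ A.m * (A.Y t z + A.eta l t * A.th 0 z ^ A.m) := by
    have h4 : ∀ᶠ z in 𝓝 (0 : Fin g → ℂ), A.th 0 z ≠ 0 :=
      (hA.th_diff 0).continuous.continuousAt.eventually_ne hA.zero
    filter_upwards [h4] with z hz
    have h5 := hA.zt_period l t z hz
    have h6 : A.th 0 (z + A.lat l) ≠ 0 := by
      rw [hA.th_aut]
      exact mul_ne_zero (Complex.exp_ne_zero _) hz
    unfold AbData.zt at h5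
    rw [div_eq_iff (pow_ne_zero _ h6), hA.th_aut] at h5
    rw [h5, mul_pow]
    field_simp
  have h4 := h1.eq_of_eventuallyEq h2 h3
  exact congrFun h4 z

/-- Growth of `Y_t`. -/
theorem Y_growth {N : ℕ} {K : IntermediateField ℚ ℂ} (A : AbData g N) (hA : A.IsAbVar K) :
    ∃ C : ℝ, ∀ t z, ‖A.Y t z‖ ≤ Real.exp (C * (1 + ‖z‖ ^ 2)) := by
  obtain ⟨c, hc0, hc1, hc2⟩ := factor_bound A.lat A.a A.b
  set S : ℝ := ∑ l, ∑ t, ‖A.eta l t‖ with hS
  have hS0 : 0 ≤ S := Finset.sum_nonneg fun l _ => Finset.sum_nonneg fun t _ => norm_nonneg _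
  have hSl : ∀ l, ∑ t, ‖A.eta l t‖ ≤ S := fun l =>
    Finset.single_le_sum (f := fun l => ∑ t, ‖A.eta l t‖)
      (fun l _ => Finset.sum_nonneg fun t _ => norm_nonneg _) (Finset.mem_univ l)
  have hpow : ∀ z : Fin g → ℂ, Real.exp (c * (1 + ‖z‖)) ^ A.m * (1 + S) ≤
      Real.exp ((A.m * c + S) * (1 + ‖z‖)) := by
    intro z
    have h1 : 1 + S ≤ Real.exp S := by
      have := Real.add_one_le_exp S
      linarith
    refine (mul_le_mul_of_nonneg_left h1 (by positivity)).trans ?_
    rw [← Real.exp_nat_mul, ← Real.exp_add]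
    refine Real.exp_le_exp.2 ?_
    have h2 := norm_nonneg z
    nlinarith [mul_nonneg hS0 h2]
  obtain ⟨C, hC⟩ := growth A.lat hA.lat_indep (fun z => (∑ t, ‖A.Y t z‖) + ‖A.th 0 z‖ ^ A.m)
    ((continuous_finsetSum _ fun t _ => (hA.Y_diff t).continuous.norm).add
      ((hA.th_diff 0).continuous.norm.pow _))
    (fun z => add_nonneg (Finset.sum_nonneg fun t _ => norm_nonneg _) (by positivity))
    (A.m * c + S) (by positivity)
    (fun l z => by
      refine le_trans ?_ (mul_le_mul_of_nonneg_right (hpow z)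
        (add_nonneg (Finset.sum_nonneg fun t _ => norm_nonneg _) (by positivity)))
      have h1 : ∀ t, ‖A.Y t (z + A.lat l)‖ ≤ Real.exp (c * (1 + ‖z‖)) ^ A.m *
          (‖A.Y t z‖ + ‖A.eta l t‖ * ‖A.th 0 z‖ ^ A.m) := by
        intro t
        rw [Y_aut A hA, norm_mul, norm_pow]
        refine mul_le_mul (pow_le_pow_left₀ (norm_nonneg _) (hc1 l z) _) ?_ (norm_nonneg _)
          (by positivity)
        refine (norm_add_le _ _).trans ?_
        rw [norm_mul, norm_pow]
      have h2 : ‖A.th 0 (z + A.lat l)‖ ^ A.m ≤ Real.exp (c * (1 + ‖z‖)) ^ A.m *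
          ‖A.th 0 z‖ ^ A.m := by
        rw [hA.th_aut, norm_mul, mul_pow]
        exact mul_le_mul_of_nonneg_right (pow_le_pow_left₀ (norm_nonneg _) (hc1 l z) _)
          (by positivity)
      have h3 : ∑ t, ‖A.Y t (z + A.lat l)‖ ≤ Real.exp (c * (1 + ‖z‖)) ^ A.m *
          ((∑ t, ‖A.Y t z‖) + S * ‖A.th 0 z‖ ^ A.m) := by
        refine (Finset.sum_le_sum fun t _ => h1 t).trans ?_
        rw [← Finset.mul_sum, Finset.sum_add_distrib, ← Finset.sum_mul]
        refine mul_le_mul_of_nonneg_left ?_ (by positivity)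
        have := mul_le_mul_of_nonneg_right (hSl l) (by positivity : (0 : ℝ) ≤ ‖A.th 0 z‖ ^ A.m)
        linarith
      have h4 : 0 ≤ ∑ t, ‖A.Y t z‖ := Finset.sum_nonneg fun t _ => norm_nonneg _
      have h5 : (0 : ℝ) ≤ ‖A.th 0 z‖ ^ A.m := by positivity
      have h6 : (0 : ℝ) ≤ Real.exp (c * (1 + ‖z‖)) ^ A.m := by positivity
      calc (∑ t, ‖A.Y t (z + A.lat l)‖) + ‖A.th 0 (z + A.lat l)‖ ^ A.m
          ≤ Real.exp (c * (1 + ‖z‖)) ^ A.m * ((∑ t, ‖A.Y t z‖) + S * ‖A.th 0 z‖ ^ A.m) +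
            Real.exp (c * (1 + ‖z‖)) ^ A.m * ‖A.th 0 z‖ ^ A.m := add_le_add h3 h2
        _ = Real.exp (c * (1 + ‖z‖)) ^ A.m * ((∑ t, ‖A.Y t z‖) + (1 + S) * ‖A.th 0 z‖ ^ A.m) := by
            ring
        _ ≤ Real.exp (c * (1 + ‖z‖)) ^ A.m * ((1 + S) * ((∑ t, ‖A.Y t z‖) +
            ‖A.th 0 z‖ ^ A.m)) := by
            refine mul_le_mul_of_nonneg_left ?_ h6
            nlinarith [mul_nonneg hS0 h4]
        _ = Real.exp (c * (1 + ‖z‖)) ^ A.m * (1 + S) * ((∑ t, ‖A.Y t z‖) +
            ‖A.th 0 z‖ ^ A.m) := by ring)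
    (fun l z => by
      refine le_trans ?_ (mul_le_mul_of_nonneg_right (hpow z)
        (add_nonneg (Finset.sum_nonneg fun t _ => norm_nonneg _) (by positivity)))
      set w := z - A.lat l with hw
      have hwz : w + A.lat l = z := sub_add_cancel _ _
      have h0 : A.th 0 w = Complex.exp (-(A.a l w + A.b l)) * A.th 0 z := by
        rw [← hwz, hA.th_aut, ← mul_assoc, ← Complex.exp_add, neg_add_cancel, Complex.exp_zero,
          one_mul]
      have hY : ∀ t, A.Y t w = Complex.exp (-(A.a l w + A.b l)) ^ A.m *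
          (A.Y t z - A.eta l t * A.th 0 z ^ A.m) := by
        intro t
        have h1 := Y_aut A hA l t w
        rw [hwz] at h1
        have h2 : Complex.exp (-(A.a l w + A.b l)) ^ A.m * Complex.exp (A.a l w + A.b l) ^ A.m =
            1 := by
          rw [← mul_pow, ← Complex.exp_add, neg_add_cancel, Complex.exp_zero, one_pow]
        have h3 : A.th 0 w ^ A.m = Complex.exp (-(A.a l w + A.b l)) ^ A.m * A.th 0 z ^ A.m := by
          rw [h0, mul_pow]
        rw [h1, mul_sub, ← mul_assoc, h2, one_mul, h3]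
        ring
      have h1 : ∀ t, ‖A.Y t w‖ ≤ Real.exp (c * (1 + ‖z‖)) ^ A.m *
          (‖A.Y t z‖ + ‖A.eta l t‖ * ‖A.th 0 z‖ ^ A.m) := by
        intro t
        rw [hY, norm_mul, norm_pow]
        refine mul_le_mul (pow_le_pow_left₀ (norm_nonneg _) (hc2 l z) _) ?_ (norm_nonneg _)
          (by positivity)
        refine (norm_sub_le _ _).trans ?_
        rw [norm_mul, norm_pow]
      have h2 : ‖A.th 0 w‖ ^ A.m ≤ Real.exp (c * (1 + ‖z‖)) ^ A.m *
          ‖A.th 0 z‖ ^ A.m := by
        rw [h0, norm_mul, mul_pow]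
        exact mul_le_mul_of_nonneg_right (pow_le_pow_left₀ (norm_nonneg _) (hc2 l z) _)
          (by positivity)
      have h3 : ∑ t, ‖A.Y t w‖ ≤ Real.exp (c * (1 + ‖z‖)) ^ A.m *
          ((∑ t, ‖A.Y t z‖) + S * ‖A.th 0 z‖ ^ A.m) := by
        refine (Finset.sum_le_sum fun t _ => h1 t).trans ?_
        rw [← Finset.mul_sum, Finset.sum_add_distrib, ← Finset.sum_mul]
        refine mul_le_mul_of_nonneg_left ?_ (by positivity)
        have := mul_le_mul_of_nonneg_right (hSl l) (by positivity : (0 : ℝ) ≤ ‖A.th 0 z‖ ^ A.m)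
        linarith
      have h4 : 0 ≤ ∑ t, ‖A.Y t z‖ := Finset.sum_nonneg fun t _ => norm_nonneg _
      have h5 : (0 : ℝ) ≤ ‖A.th 0 z‖ ^ A.m := by positivity
      have h6 : (0 : ℝ) ≤ Real.exp (c * (1 + ‖z‖)) ^ A.m := by positivity
      calc (∑ t, ‖A.Y t w‖) + ‖A.th 0 w‖ ^ A.m
          ≤ Real.exp (c * (1 + ‖z‖)) ^ A.m * ((∑ t, ‖A.Y t z‖) + S * ‖A.th 0 z‖ ^ A.m) +
            Real.exp (c * (1 + ‖z‖)) ^ A.m * ‖A.th 0 z‖ ^ A.m := add_le_add h3 h2
        _ = Real.exp (c * (1 + ‖z‖)) ^ A.m * ((∑ t, ‖A.Y t z‖) + (1 + S) * ‖A.th 0 z‖ ^ A.m) := by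
            ring
        _ ≤ Real.exp (c * (1 + ‖z‖)) ^ A.m * ((1 + S) * ((∑ t, ‖A.Y t z‖) +
            ‖A.th 0 z‖ ^ A.m)) := by
            refine mul_le_mul_of_nonneg_left ?_ h6
            nlinarith [mul_nonneg hS0 h4]
        _ = Real.exp (c * (1 + ‖z‖)) ^ A.m * (1 + S) * ((∑ t, ‖A.Y t z‖) +
            ‖A.th 0 z‖ ^ A.m) := by ring)
  refine ⟨C, fun t z => le_trans ?_ (hC z)⟩
  have h1 : ‖A.Y t z‖ ≤ ∑ t, ‖A.Y t z‖ :=
    Finset.single_le_sum (f := fun t => ‖A.Y t z‖) (fun t _ => norm_nonneg _) (Finset.mem_univ t)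
  have h2 : (0 : ℝ) ≤ ‖A.th 0 z‖ ^ A.m := by positivity
  linarith

/-- Regular functions and directional derivatives. -/
theorem dir_deriv {N : ℕ} {K : IntermediateField ℚ ℂ} (hK : K ≤ Qbar) (A : AbData g N)
    (F : (Fin g → ℂ) → ℂ) (hF : ∀ j, A.Reg K (AbData.pd j F)) (v : Fin g → ℂ)
    (hv : ∀ j, v j ∈ Qbar) : ∃ p : MvPolynomial (Fin (N + 1)) Qbar, ∀ z, A.th 0 z ≠ 0 →
      fderiv ℂ F z v = aeval (fun k => A.f k z) p := by
  choose p hp using hF
  refine ⟨∑ j, MvPolynomial.C (⟨v j, hv j⟩ : Qbar) *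
    MvPolynomial.map (IntermediateField.inclusion hK).toRingHom (p j), fun z hz => ?_⟩
  have h1 : v = ∑ j, v j • (Pi.single j 1 : Fin g → ℂ) := by
    funext i
    rw [Finset.sum_apply]
    simp [Pi.single_apply]
  conv_lhs => rw [h1]
  rw [map_sum, map_sum]
  refine Finset.sum_congr rfl fun j _ => ?_
  rw [map_smul, map_mul, aeval_C, smul_eq_mul]
  congr 1
  have h2 := hp j z hz
  unfold AbData.pd at h2
  rw [h2, MvPolynomial.aeval_def, MvPolynomial.aeval_def, MvPolynomial.eval₂_map]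
  rfl

end GrowM

open GrowM in
/-- Module GROW. -/
theorem specGROW : SpecGROW := by
  intro K g N A c hK hA hc
  have hper : LinearIndependent ℂ A.per := by
    rw [← hc]
    have h1 := Matrix.linearIndependent_rows_of_isUnit (A := c.1) c.isUnit
    exact h1
  obtain ⟨Ct, hCt⟩ := th_growth A hA
  obtain ⟨CY, hCY⟩ := Y_growth A hA
  refine
    { lat_indep := hA.lat_indep
      lat_card := by simp [two_mul]
      lam_indep := ?_
      th_diff := hA.th_diff
      Y_diff := hA.Y_diff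
      th_growth := ⟨Ct, hCt⟩
      Y_growth := ⟨CY, hCY⟩
      th_zero := hA.zero
      th_period := fun l => ⟨fun z => Complex.exp (A.a l z + A.b l), fun z => Complex.exp_ne_zero _,
        fun i z => hA.th_aut l i z⟩
      zt_period := fun l t z hz => hA.zt_period l t z hz
      f_value := fun i => hK (hA.value i)
      zt_value := fun t => hK (hA.zt_value t)
      f_deriv := fun i v hv => dir_deriv hK A (A.f i) (hA.deriv i) v hv
      zt_deriv := fun t v hv => dir_deriv hK A (A.zt t) (fun j => hA.zt_deriv t j) v hv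
      imm := ?_ }
  · exact hper
  · intro v hv
    by_contra hcon
    push Not at hcon
    obtain ⟨i, j, hij⟩ := hA.imm 0 v hv
    apply hij
    have h0 := hA.zero
    have key : ∀ k, A.th 0 0 * fderiv ℂ (A.th k) 0 v = A.th k 0 * fderiv ℂ (A.th 0) 0 v := by
      intro k
      have h1 := hcon k
      have h2 : HasFDerivAt (A.td.f k) ((A.th 0 0 ^ 2)⁻¹ • (A.th 0 0 • fderiv ℂ (A.th k) 0 -
          A.th k 0 • fderiv ℂ (A.th 0) 0)) 0 := by
        have h3 := ((hA.th_diff k) 0).hasFDerivAt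
        have h4 := ((hA.th_diff 0) 0).hasFDerivAt
        have h5 := h3.mul ((hasDerivAt_inv h0).comp_hasFDerivAt 0 h4)
        have h6 : (fun z => A.th k z * (Inv.inv ∘ A.th 0) z) = A.td.f k := by
          funext z
          simp only [Function.comp, TD.f, div_eq_mul_inv]
          rfl
        rw [← h6]
        refine h5.congr_fderiv ?_
        ext w
        simp
        field_simp
        ring
      rw [h2.fderiv] at h1
      simp only [_root_.smul_apply, _root_.sub_apply, smul_eq_mul,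
        mul_eq_zero, inv_eq_zero] at h1
      rcases h1 with h1 | h1
      · exact absurd h1 (pow_ne_zero 2 h0)
      · exact sub_eq_zero.1 h1
    have h1 := key i
    have h2 := key j
    apply mul_left_cancel₀ h0
    calc A.th 0 0 * (A.th i 0 * fderiv ℂ (A.th j) 0 v)
        = A.th i 0 * (A.th 0 0 * fderiv ℂ (A.th j) 0 v) := by ring
      _ = A.th j 0 * (A.th i 0 * fderiv ℂ (A.th 0) 0 v) := by rw [h2]; ring
      _ = A.th 0 0 * (A.th j 0 * fderiv ℂ (A.th i) 0 v) := by rw [← h1]; ring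

end Pool.Agent.Lib.MPf11a48.U
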