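import Pool.Agent.Lib.MP_f11a48_ag.U.SpecArt
import Pool.Agent.Lib.MP_f11a48_ag.U.Clos
import Pool.Agent.Lib.MP_f11a48_ag.U.Grow

/-! # MP_f11a48_ag, project U: module GAL -/

set_option autoImplicit false

open Matrix MvPolynomial Pool.Agent.Lib.MPf11a48.CM Pool.Agent.Lib.MPf11a48.GL2T

namespace Pool.Agent.Lib.MPf11a48.U

namespace GalM

variable {g N : ℕ} {A : AbData g N}

/-- The de Rham matrix of an endomorphism is block triangular. -/
theorem blocks {c : GL (Ix g) ℂ} (hc : c.1 = A.per)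
    {B : Matrix (Ix g) (Ix g) ℚ} {B' : Matrix (Ix g) (Ix g) ℂ} (hB : A.IsEndo B)
    (h : c.1 * B' = mC B * c.1) :
    B' = Matrix.fromBlocks B'.toBlocks₁₁ B'.toBlocks₁₂ 0 B'.toBlocks₂₂ := by
  obtain ⟨α, hα⟩ := hB
  have hcinv : c⁻¹.1 * c.1 = 1 := Units.inv_mul c
  -- the matrix with first block column `(P_α, 0)`
  let M : Matrix (Ix g) (Fin g) ℂ := Matrix.of fun x j =>
    Sum.elim (fun i => α (Pi.single i 1) j) (fun _ => 0) x
  have h1 : c.1 * B'.submatrix id Sum.inl = c.1 * M := by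
    ext l j
    have h2 := congrFun (congrFun h l) (Sum.inl j)
    have h3 := congrFun (hα l) j
    have h4 : A.lat l = ∑ i, A.lat l i • (Pi.single i 1 : Fin g → ℂ) := by
      funext i
      simp [Finset.sum_apply, Pi.single_apply]
    have h5 : α (A.lat l) j = ∑ i, A.lat l i * α (Pi.single i 1) j := by
      conv_lhs => rw [h4]
      rw [map_sum, Finset.sum_apply]
      refine Finset.sum_congr rfl fun i _ => ?_
      rw [map_smul]
      rfl
    have h6 : (c.1 * M) l j = α (A.lat l) j := by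
      rw [h5, Matrix.mul_apply, Fintype.sum_sum_type, hc]
      simp [M, AbData.per]
    rw [h6, h3]
    have h7 : (c.1 * B'.submatrix id Sum.inl) l j = (c.1 * B') l (Sum.inl j) := rfl
    rw [h7, h2, Matrix.mul_apply, Finset.sum_apply, hc]
    rfl
  have h2 : B'.submatrix id Sum.inl = M := by
    have h3 := congrArg (fun X => c⁻¹.1 * X) h1
    simp only [← Matrix.mul_assoc, hcinv, Matrix.one_mul] at h3
    exact h3
  conv_lhs => rw [← Matrix.fromBlocks_toBlocks B']
  congr 1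
  ext i j
  exact congrFun (congrFun h2 (Sum.inr i)) j

end GalM

open GalM in
theorem specGAL (hHDA : SpecHDA) (hGREL : SpecGREL) (hCONJ : SpecCONJ) (hORB : SpecORB) :
    SpecGAL := by
  intro K g N A c hK hA hc τ hτ B B' hB' h
  have hBE : A.IsEndo B := (hHDA K g N A c hK hA hc).2 B ⟨B', hB', h⟩
  have hbl := blocks hc hBE h
  set P := B'.toBlocks₁₁ with hP
  set Q := B'.toBlocks₁₂ with hQ
  set S := B'.toBlocks₂₂ with hS
  have hPa : IsAlg P := fun _ _ => hB' _ _
  have hQa : IsAlg Q := fun _ _ => hB' _ _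
  have hSa : IsAlg S := fun _ _ => hB' _ _
  have hG := specGROW K g N A c hK hA hc
  obtain ⟨s, hs⟩ := Clos.exists_indices A.td hG ⊤ g (by rw [finrank_top]; simp)
  have hs' : ∀ b : Fin g → ℂ, (∀ v, ∑ k, b k * fderiv ℂ (A.f (s k)) 0 v = 0) → b = 0 :=
    fun b hb => hs b fun v _ => hb v
  rw [hbl] at h
  obtain ⟨hr1, hr2⟩ := hGREL K g N A c hK hA hc B P Q S hPa hQa hSa h s
  have hinj : ∀ p : MvPolynomial (Option (Fin g)) ℂ, p ≠ 0 →
      MvPolynomial.map τ.toRingHom p ≠ 0 := by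
    intro p hp h0
    apply hp
    apply MvPolynomial.map_injective τ.toRingHom τ.injective
    rw [h0, map_zero]
  obtain ⟨ho1, ho2⟩ := hORB K g N A hA s hs' (P.map τ) (Q.map τ) (S.map τ)
  obtain ⟨n, hn, hx⟩ := ho1 fun j => by
    obtain ⟨p, hp, -, hrel⟩ := hr1 j
    exact ⟨_, hinj p hp, (hCONJ K g N A hA τ hτ P Q S s p).1 j hrel⟩
  choose x hx using hx
  have hn' : (n : ℂ) ≠ 0 := Nat.cast_ne_zero.2 hn.ne'
  refine ⟨Matrix.of fun l l' => (x l l' : ℚ) / n, ?_⟩
  have hmap : B'.map τ = Matrix.fromBlocks (P.map τ) (Q.map τ) 0 (S.map τ) := by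
    rw [hbl, Matrix.fromBlocks_map]
    congr 1
    ext i j
    simp
  rw [hmap]
  ext l y
  have hR : (mC (Matrix.of fun l l' => (x l l' : ℚ) / n) * c.1) l y =
      (n : ℂ)⁻¹ * ∑ l', (x l l' : ℂ) * A.per l' y := by
    rw [Matrix.mul_apply, hc, Finset.mul_sum]
    refine Finset.sum_congr rfl fun l' _ => ?_
    simp only [Matrix.map_apply, Matrix.of_apply]
    push_cast
    ring
  rw [hR, eq_inv_mul_iff_mul_eq₀ hn']
  rcases y with j | t
  · have h1 := congrFun (hx l) j
    simp only [Pi.smul_apply, smul_eq_mul, Finset.sum_apply] at h1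
    rw [Matrix.mul_apply, Fintype.sum_sum_type, hc]
    simp only [Matrix.fromBlocks_apply₁₁, Matrix.fromBlocks_apply₂₁, Matrix.zero_apply, mul_zero,
      Finset.sum_const_zero, add_zero, AbData.per, Sum.elim_inl]
    exact h1
  · have h1 := ho2 t (by
      obtain ⟨p, hp, -, hrel⟩ := hr2 t
      exact ⟨_, hinj p hp, (hCONJ K g N A hA τ hτ P Q S s p).2 t hrel⟩) n l (x l) (hx l)
    rw [Matrix.mul_apply, Fintype.sum_sum_type, hc]
    simp only [Matrix.fromBlocks_apply₁₂, Matrix.fromBlocks_apply₂₂, AbData.per, Sum.elim_inl,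
      Sum.elim_inr]
    exact h1.symm

end Pool.Agent.Lib.MPf11a48.U
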