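import Pool.Agent.Lib.MP_47914d_nt.Holo

/-!
# MP_f11a48_ag, project U: entire functions of several variables are smooth and analytic

`HolM.contDiff`, `HolM.analytic`: a complex differentiable function on a finite dimensional complex
space is `C^n` for every `n`, and analytic. `HolM.van_of_deriv`: order of vanishing.
-/

set_option autoImplicit false

open Filter Topology Metric

namespace Pool.Agent.Lib.MPf11a48.U.HolM

open Pool.Agent.Lib.MP_47914d_nt

section

variable {E : Type} [NormedAddCommGroup E] [NormedSpace ℂ E] [FiniteDimensional ℂ E]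

theorem differentiable_fderiv {f : E → ℂ} (hf : Differentiable ℂ f) (v : E) :
    Differentiable ℂ fun x => fderiv ℂ f x v := fun z =>
  (specHolo.partialD E f z v (Eventually.of_forall fun x => hf x)).self_of_nhds

theorem contDiff {f : E → ℂ} (hf : Differentiable ℂ f) (n : ℕ) : ContDiff ℂ n f := by
  induction n generalizing f with
  | zero => exact contDiff_zero.2 hf.continuous
  | succ n ih =>
    have h := contDiff_succ_iff_fderiv_apply (𝕜 := ℂ) (n := (n : WithTop ℕ∞)) (f := f)
    push_cast
    rw [h]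
    refine ⟨hf, fun h => ?_, fun y => ih (differentiable_fderiv hf y)⟩
    exact absurd h (by exact_mod_cast WithTop.coe_ne_top)

/-- The derivatives along a line. -/
theorem iteratedDeriv_line {f : E → ℂ} (hf : Differentiable ℂ f) (a v : E) (n : ℕ) (t : ℂ) :
    iteratedDeriv n (fun t : ℂ => f (a + t • v)) t = iteratedFDeriv ℂ n f (a + t • v) fun _ => v := by
  have h1 : ContDiff ℂ n fun x => f (a + x) := (contDiff hf n).comp (contDiff_const.add contDiff_id)
  have h2 : (fun t : ℂ => f (a + t • v)) =
      (fun x => f (a + x)) ∘ (ContinuousLinearMap.toSpanSingleton ℂ v) := by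
    ext t
    simp
  rw [iteratedDeriv_eq_iteratedFDeriv, h2,
    ContinuousLinearMap.iteratedFDeriv_comp_right _ h1 t le_rfl]
  rw [iteratedFDeriv_comp_add_left]
  simp

theorem exists_bound {f : E → ℂ} (hf : Differentiable ℂ f) (a : E) (R : ℝ) :
    ∃ C : ℝ, 0 ≤ C ∧ ∀ z ∈ closedBall a R, ‖f z‖ ≤ C := by
  have : ProperSpace E := FiniteDimensional.proper ℂ E
  obtain ⟨C, hC⟩ := (isCompact_closedBall a R).exists_bound_of_continuousOn
    hf.continuous.continuousOn
  exact ⟨max C 0, le_max_right _ _, fun z hz => (hC z hz).trans (le_max_left _ _)⟩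

omit [FiniteDimensional ℂ E] in
theorem differentiable_line {f : E → ℂ} (hf : Differentiable ℂ f) (a v : E) :
    Differentiable ℂ fun t : ℂ => f (a + t • v) :=
  hf.comp (by fun_prop)

/-- A function with many vanishing derivatives is small. -/
theorem van_of_deriv {f : E → ℂ} (hf : Differentiable ℂ f) (a : E) (M : ℕ)
    (h : ∀ n < M, iteratedFDeriv ℂ n f a = 0) :
    ∃ C : ℝ, 0 ≤ C ∧ ∀ z, ‖z - a‖ ≤ 1 / 2 → ‖f z‖ ≤ C * ‖z - a‖ ^ M := by
  obtain ⟨C, hC0, hC⟩ := exists_bound hf a 1
  refine ⟨2 * C, by positivity, fun z hz => ?_⟩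
  set v := z - a with hv
  rcases eq_or_ne v 0 with h0 | h0
  · have hza : z = a := sub_eq_zero.1 h0
    rcases Nat.eq_zero_or_pos M with rfl | hM
    · rw [pow_zero, mul_one]
      have := hC z (by rw [hza]; exact mem_closedBall_self zero_le_one)
      linarith
    · have h1 := h 0 hM
      have h2 : f a = 0 := by
        have := congrArg (fun m => m fun _ => (0 : E)) h1
        simpa using this
      rw [hza, h2, norm_zero]
      positivity
  · have hr : 0 < ‖v‖ := norm_pos_iff.2 h0
    set g : ℂ → ℂ := fun t => f (a + t • v) with hg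
    have hgd : Differentiable ℂ g := differentiable_line hf a v
    have hgn : ∀ n < M, iteratedDeriv n g 0 = 0 := by
      intro n hn
      rw [hg, iteratedDeriv_line hf, zero_smul, add_zero, h n hn]
      rfl
    have hb : ∀ n, ‖iteratedDeriv n g 0‖ ≤ n.factorial * C * ‖v‖ ^ n := by
      intro n
      have h3 := Complex.norm_iteratedDeriv_le_of_forall_mem_sphere_norm_le (c := 0)
        (R := ‖v‖⁻¹) (C := C) n (inv_pos.2 hr) hgd.diffContOnCl (fun t ht => ?_)
      · rwa [inv_pow, div_inv_eq_mul] at h3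
      · apply hC
        rw [mem_closedBall, dist_eq_norm, add_sub_cancel_left, norm_smul]
        rw [mem_sphere, dist_zero_right] at ht
        rw [ht, inv_mul_cancel₀ hr.ne']
    have hs := Complex.hasSum_taylorSeries_of_entire hgd 0 1
    have hg1 : g 1 = f z := by simp [hg, hv]
    rw [hg1] at hs
    simp only [sub_zero, one_pow, smul_eq_mul, one_mul] at hs
    have hb2 : ∀ n, ‖((n.factorial : ℂ))⁻¹ * iteratedDeriv n g 0‖ ≤
        if n < M then 0 else C * ‖v‖ ^ n := by
      intro n
      split_ifs with hn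
      · rw [hgn n hn, mul_zero, norm_zero]
      · rw [norm_mul, norm_inv, Complex.norm_natCast]
        have hf0 : (0 : ℝ) < n.factorial := by exact_mod_cast n.factorial_pos
        rw [inv_mul_le_iff₀ hf0]
        exact (hb n).trans_eq (by ring)
    have hlt : ‖v‖ < 1 := lt_of_le_of_lt hz (by norm_num)
    have hsum : HasSum (fun n => if n < M then 0 else C * ‖v‖ ^ n)
        (C * ‖v‖ ^ M * (1 - ‖v‖)⁻¹) := by
      have h4 : HasSum (fun n => C * ‖v‖ ^ M * ‖v‖ ^ n) (C * ‖v‖ ^ M * (1 - ‖v‖)⁻¹) :=
        (hasSum_geometric_of_lt_one hr.le hlt).mul_left _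
      have h5 : HasSum (fun n => if n + M < M then 0 else C * ‖v‖ ^ (n + M))
          (C * ‖v‖ ^ M * (1 - ‖v‖)⁻¹) := by
        refine h4.congr_fun ?_
        intro n
        rw [if_neg (by omega)]
        ring
      have h6 := (hasSum_nat_add_iff (f := fun n => if n < M then 0 else C * ‖v‖ ^ n) M).1 h5
      rw [Finset.sum_eq_zero, add_zero] at h6
      · exact h6
      · intro i hi
        rw [if_pos (Finset.mem_range.1 hi)]
    have h7 : ‖f z‖ ≤ C * ‖v‖ ^ M * (1 - ‖v‖)⁻¹ := by
      rw [← hs.tsum_eq]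
      exact tsum_of_norm_bounded hsum hb2
    refine h7.trans ?_
    have h8 : (1 - ‖v‖)⁻¹ ≤ 2 := by
      rw [inv_le_comm₀ (by linarith) (by norm_num)]
      linarith
    calc C * ‖v‖ ^ M * (1 - ‖v‖)⁻¹ ≤ C * ‖v‖ ^ M * 2 :=
          mul_le_mul_of_nonneg_left h8 (by positivity)
      _ = 2 * C * ‖v‖ ^ M := by ring

omit [FiniteDimensional ℂ E] in
/-- Cauchy's estimate for a directional derivative. -/
theorem norm_fderiv_apply_le {f : E → ℂ} (hf : Differentiable ℂ f) {x : E} {h C : ℝ} (hh : 0 < h)
    (hC : ∀ z ∈ closedBall x h, ‖f z‖ ≤ C) (v : E) : ‖fderiv ℂ f x v‖ ≤ C / h * ‖v‖ := by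
  have hC0 : 0 ≤ C := (norm_nonneg _).trans (hC x (mem_closedBall_self hh.le))
  rcases eq_or_ne v 0 with rfl | h0
  · simp
  · have hr : 0 < ‖v‖ := norm_pos_iff.2 h0
    have h1 : HasDerivAt (fun t : ℂ => f (x + t • v)) (fderiv ℂ f x v) 0 := by
      have h4 : HasDerivAt (fun t : ℂ => x + t • v) v 0 := by
        have := ((hasDerivAt_id (0 : ℂ)).smul_const v).const_add x
        simpa using this
      have h5 : HasFDerivAt f (fderiv ℂ f x) (x + (0 : ℂ) • v) := by
        have := (hf x).hasFDerivAt
        simpa using this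
      exact h5.comp_hasDerivAt (0 : ℂ) h4
    have h2 := Complex.norm_deriv_le_of_forall_mem_sphere_norm_le (c := 0) (R := h / ‖v‖)
      (C := C) (div_pos hh hr) (differentiable_line hf x v).diffContOnCl (fun t ht => ?_)
    · rw [h1.deriv] at h2
      refine h2.trans_eq ?_
      field_simp
    · apply hC
      rw [mem_closedBall, dist_eq_norm, add_sub_cancel_left, norm_smul]
      rw [mem_sphere, dist_zero_right] at ht
      rw [ht]
      exact (div_mul_cancel₀ h hr.ne').le

theorem norm_iteratedFDeriv_apply_le (n : ℕ) {f : E → ℂ} (hf : Differentiable ℂ f) {a : E}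
    {h C : ℝ} (hh : 0 < h) (hC : ∀ z ∈ closedBall a (n * h), ‖f z‖ ≤ C) (m : Fin n → E) :
    ‖iteratedFDeriv ℂ n f a m‖ ≤ C / h ^ n * ∏ i, ‖m i‖ := by
  induction n generalizing f C with
  | zero =>
    simp only [iteratedFDeriv_zero_apply, pow_zero, div_one, Finset.univ_eq_empty,
      Finset.prod_empty, mul_one]
    exact hC a (mem_closedBall_self (by simp))
  | succ n ih =>
    have h1 : iteratedFDeriv ℂ (n + 1) f a m =
        iteratedFDeriv ℂ n (fun x => fderiv ℂ f x (m (Fin.last n))) a (Fin.init m) := by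
      rw [iteratedFDeriv_succ_apply_right]
      have h2 : ContDiffAt ℂ n (fderiv ℂ f) a := by
        have h3 := contDiff hf (n + 1)
        push_cast at h3
        exact ((contDiff_succ_iff_fderiv (n := (n : WithTop ℕ∞))).1 h3).2.2.contDiffAt
      have h4 := (ContinuousLinearMap.apply ℂ ℂ (m (Fin.last n))).iteratedFDeriv_comp_left h2
        (i := n) le_rfl
      have h5 : (ContinuousLinearMap.apply ℂ ℂ (m (Fin.last n))) ∘ fderiv ℂ f =
          fun x => fderiv ℂ f x (m (Fin.last n)) := rfl
      rw [h5] at h4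
      rw [h4]
      rfl
    rw [h1]
    have h6 := ih (differentiable_fderiv hf (m (Fin.last n))) (C := C / h * ‖m (Fin.last n)‖)
      (fun z hz => ?_) (Fin.init m)
    · refine h6.trans_eq ?_
      rw [Fin.prod_univ_castSucc]
      simp only [Fin.init]
      field_simp
      ring
    · refine norm_fderiv_apply_le hf hh (fun y hy => hC y ?_) _
      rw [mem_closedBall] at hy hz ⊢
      push_cast
      linarith [dist_triangle y z a]

/-- Entire functions of several variables are analytic. -/
theorem analytic {f : E → ℂ} (hf : Differentiable ℂ f) (a : E) : AnalyticAt ℂ f a := by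
  obtain ⟨C, hC0, hC⟩ := exists_bound hf a 1
  set p : FormalMultilinearSeries ℂ E ℂ := fun n => ((n.factorial : ℂ))⁻¹ • iteratedFDeriv ℂ n f a
    with hp
  have hpn : ∀ n, ‖p n‖ ≤ C * Real.exp 1 ^ n := by
    intro n
    refine ContinuousMultilinearMap.opNorm_le_bound (by positivity) fun m => ?_
    simp only [hp, smul_apply, norm_smul, norm_inv,
      Complex.norm_natCast]
    have hf0 : (0 : ℝ) < n.factorial := by exact_mod_cast n.factorial_pos
    rw [inv_mul_le_iff₀ hf0]
    rcases Nat.eq_zero_or_pos n with rfl | hn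
    · simp only [iteratedFDeriv_zero_apply, pow_zero, Finset.univ_eq_empty, Finset.prod_empty,
        Nat.factorial_zero, Nat.cast_one, one_mul, mul_one]
      exact hC a (mem_closedBall_self zero_le_one)
    · have hn0 : (0 : ℝ) < n := by exact_mod_cast hn
      have h1 := norm_iteratedFDeriv_apply_le n hf (a := a) (h := (n : ℝ)⁻¹) (C := C)
        (inv_pos.2 hn0) (by rw [mul_inv_cancel₀ hn0.ne']; exact hC) m
      refine h1.trans ?_
      rw [inv_pow, div_inv_eq_mul]
      have h2 := Real.pow_div_factorial_le_exp (n : ℝ) hn0.le n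
      rw [div_le_iff₀ hf0] at h2
      have h3 : Real.exp (n : ℝ) = Real.exp 1 ^ n := by
        rw [← Real.exp_nat_mul, mul_one]
      rw [h3] at h2
      have h4 : 0 ≤ ∏ i, ‖m i‖ := Finset.prod_nonneg fun i _ => norm_nonneg _
      calc C * (n : ℝ) ^ n * ∏ i, ‖m i‖ ≤ C * (Real.exp 1 ^ n * n.factorial) * ∏ i, ‖m i‖ := by
            gcongr
        _ = _ := by ring
  have hr : (0 : ℝ) < Real.exp (-1) := Real.exp_pos _
  set r : NNReal := ⟨Real.exp (-1), hr.le⟩ with hrdef
  have hr' : 0 < r := hr
  refine ⟨p, r, ?_, by exact_mod_cast hr', ?_⟩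
  · refine p.le_radius_of_bound C fun n => ?_
    refine (mul_le_mul_of_nonneg_right (hpn n) (by positivity)).trans_eq ?_
    rw [mul_assoc]
    change C * (Real.exp 1 ^ n * Real.exp (-1) ^ n) = C
    rw [← mul_pow, ← Real.exp_add]
    simp
  · intro y hy
    have hs := Complex.hasSum_taylorSeries_of_entire (differentiable_line hf a y) 0 1
    simp only [sub_zero, one_pow, smul_eq_mul, one_mul, one_smul] at hs
    refine hs.congr_fun ?_
    intro n
    rw [iteratedDeriv_line hf, zero_smul, add_zero]
    rfl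

end

end Pool.Agent.Lib.MPf11a48.U.HolM
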