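import Pool.Agent.Lib.MP_f11a48_ag.U.SpecAna

/-!
# Project U, module TL: the arithmetic half (specifications)

After scaling `A i` by a positive integer `q` and the directions `v j` by a positive integer, all
the data are algebraic integers of one number field `K`.
-/

set_option autoImplicit false

open MvPolynomial Pool.Agent.Lib.MPf11a48.CM NumberField

namespace Pool.Agent.Lib.MPf11a48.U

/-- The embedding of the ring of integers given by `σ`. -/
noncomputable def oEmb {K : Type} [Field K] (σ : K →+* ℂ) : 𝓞 K →+* ℂ :=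
  σ.comp (algebraMap (𝓞 K) K)

/-- Data with algebraic integer values and coefficients. -/
structure IntData {r : ℕ} {I : Type} [Fintype I] {K : Type} [Field K] [NumberField K]
    (σ : K →+* ℂ) (A₀ : (Fin r → ℂ) → ℂ) (A : I → (Fin r → ℂ) → ℂ) (v : Fin r → (Fin r → ℂ))
    (x : I → 𝓞 K) (p : I → Fin r → MvPolynomial I (𝓞 K)) : Prop where
  value : ∀ i, A i 0 / A₀ 0 = oEmb σ (x i)
  ders : Ders A₀ A v fun i j => map (oEmb σ) (p i j)

/-- Module RED: reduction to integral data. -/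
def SpecRED : Prop :=
  ∀ (r : ℕ) (I : Type) [Fintype I] (A₀ : (Fin r → ℂ) → ℂ) (A : I → (Fin r → ℂ) → ℂ)
    (lam v : Fin r → (Fin r → ℂ)), PerData A₀ A lam v →
    ∃ (K : Type) (_ : Field K) (_ : NumberField K) (σ : K →+* ℂ) (q : ℕ)
      (v' : Fin r → (Fin r → ℂ)) (x : I → 𝓞 K) (p : I → Fin r → MvPolynomial I (𝓞 K)), q ≠ 0 ∧
      PerData A₀ (fun i z => (q : ℂ) * A i z) lam v' ∧
      IntData σ A₀ (fun i z => (q : ℂ) * A i z) v' x p

/-- Module SIZE: size of the derivatives at `x`. -/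
def SpecSIZE : Prop :=
  ∀ (r : ℕ) (I : Type) [Fintype I] (K : Type) [Field K] [NumberField K] (x : I → 𝓞 K)
    (p : I → Fin r → MvPolynomial I (𝓞 K)), ∃ C : ℝ, 1 ≤ C ∧
    ∀ (D : ℕ) (H : ℝ) (P : MvPolynomial I (𝓞 K)) (w : List (Fin r)),
      P.totalDegree ≤ D → ∑ m ∈ P.support, house (algebraMap (𝓞 K) K (P.coeff m)) ≤ H →
      house (algebraMap (𝓞 K) K (aeval x (dW p w P))) ≤
        H * C ^ (D + w.length) * ((D + w.length : ℕ) : ℝ) ^ w.length

/-- Module COMM: the directional derivatives commute. -/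
def SpecCOMM : Prop :=
  ∀ (r : ℕ) (I : Type) [Fintype I] (A₀ : (Fin r → ℂ) → ℂ) (A : I → (Fin r → ℂ) → ℂ)
    (lam v : Fin r → (Fin r → ℂ)), PerData A₀ A lam v →
    ∀ p : I → Fin r → MvPolynomial I ℂ, Ders A₀ A v p → ∀ (w w' : List (Fin r)), w.Perm w' →
      ∀ (P : MvPolynomial I ℂ) (z : Fin r → ℂ), A₀ z ≠ 0 →
      aeval (fun k => A k z / A₀ z) (dW p w P) = aeval (fun k => A k z / A₀ z) (dW p w' P)

end Pool.Agent.Lib.MPf11a48.U
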