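import Pool.Agent.Lib.MP_f11a48_ag.U.SpecR

/-!
# MP_f11a48_ag, project U, module REP: assembly of the representation part
-/

set_option autoImplicit false

open Matrix MvPolynomial Pool.Agent.Lib.MPf11a48.CM Pool.Agent.Lib.MPf11a48.GL2T

namespace Pool.Agent.Lib.MPf11a48.U

namespace REPM

/-- the algebra `M_2(ℂ)^κ × ℂ^σ` -/
abbrev EA (κ σ : Type) : Type := (κ → Matrix (Fin 2) (Fin 2) ℂ) × (σ → ℂ)

section Exp

attribute [local instance] Matrix.linftyOpNormedRing Matrix.linftyOpNormedAlgebra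

variable {κ σ ι : Type} [Fintype κ] [Fintype σ] [Fintype ι] [DecidableEq ι]

set_option backward.isDefEq.respectTransparency false in
theorem exp_Ψ (Ψ : EA κ σ →ₐ[ℂ] Matrix ι ι ℂ) (x : κ → Matrix (Fin 2) (Fin 2) ℂ) (y : σ → ℂ) :
    Ψ (fun k => NormedSpace.exp (x k), fun s => Complex.exp (y s)) =
      NormedSpace.exp (Ψ (x, y)) := by
  have hc : Continuous Ψ := Ψ.toLinearMap.continuous_of_finiteDimensional
  have h1 : NormedSpace.exp ((x, y) : EA κ σ) =
      (fun k => NormedSpace.exp (x k), fun s => Complex.exp (y s)) := by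
    refine Prod.ext ?_ ?_
    · refine (Prod.fst_exp ((x, y) : EA κ σ)).trans ?_
      funext k
      exact Pi.coe_exp x k
    · refine (Prod.snd_exp ((x, y) : EA κ σ)).trans ?_
      funext s
      rw [Complex.exp_eq_exp_ℂ]
      exact Pi.coe_exp y s
  rw [← h1]
  exact NormedSpace.map_exp Ψ hc _

end Exp

variable {ι : Type} [Fintype ι] [DecidableEq ι]

/-- complex solutions of rational linear equations are combinations of rational ones -/
theorem mem_span_com {c : Matrix ι ι ℂ} {x : Matrix ι ι ℂ}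
    (hx : ∀ B ∈ EndAlg c, x * mC B = mC B * x) :
    x ∈ Submodule.span ℂ {Y : Matrix ι ι ℂ | ∃ Z ∈ ComAlg c, Y = mC Z} := by
  classical
  let b := Module.Basis.ofVectorSpace ℚ ℂ
  let X : Module.Basis.ofVectorSpaceIndex ℚ ℂ → Matrix ι ι ℚ := fun k => x.map (b.coord k)
  have hX : ∀ k, X k ∈ ComAlg c := by
    intro k
    rw [ComAlg, Subalgebra.mem_centralizer_iff]
    intro B hB
    have h1 := hx B hB
    ext i j
    have h2 := congrArg (b.coord k) (congrFun (congrFun h1 i) j)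
    simp only [Matrix.mul_apply, map_sum, Matrix.map_apply] at h2 ⊢
    have h3 : ∀ (z : ℂ) (q : ℚ), b.coord k (z * (q : ℂ)) = b.coord k z * q := by
      intro z q
      have : z * (q : ℂ) = q • z := by
        rw [Algebra.smul_def, mul_comm]; rfl
      rw [this, map_smul, smul_eq_mul, mul_comm]
    have h4 : ∀ (z : ℂ) (q : ℚ), b.coord k ((q : ℂ) * z) = q * b.coord k z := by
      intro z q
      rw [mul_comm, h3, mul_comm]
    simp only [h3, h4] at h2
    exact h2.symm
  let s : Finset (Module.Basis.ofVectorSpaceIndex ℚ ℂ) :=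
    Finset.univ.biUnion fun i => Finset.univ.biUnion fun j => (b.repr (x i j)).support
  have hs : x = ∑ k ∈ s, (b k : ℂ) • mC (X k) := by
    ext i j
    rw [Matrix.sum_apply]
    have h1 := b.linearCombination_repr (x i j)
    rw [Finsupp.linearCombination_apply, Finsupp.sum] at h1
    conv_lhs => rw [← h1]
    have hsub : (b.repr (x i j)).support ⊆ s := by
      intro k hk
      simp only [s, Finset.mem_biUnion, Finset.mem_univ, true_and]
      exact ⟨i, j, hk⟩
    rw [Finset.sum_subset hsub (fun k _ hk => by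
      rw [Finsupp.notMem_support_iff.1 hk, zero_smul])]
    refine Finset.sum_congr rfl fun k _ => ?_
    change (b.repr (x i j)) k • b k = b k * (((b.repr (x i j)) k : ℚ) : ℂ)
    rw [Algebra.smul_def, mul_comm]
    rfl
  rw [hs]
  exact Submodule.sum_mem _ fun k _ => Submodule.smul_mem _ _
    (Submodule.subset_span ⟨X k, hX k, rfl⟩)

theorem trace_of_adj {x : Matrix (Fin 2) (Fin 2) ℂ} {m : ℂ}
    (h : x.adjugate + x = m • 1) : x.trace = m := by
  have h1 := congrFun (congrFun h 0) 0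
  rw [Matrix.adjugate_fin_two] at h1
  simp only [Matrix.add_apply, Matrix.smul_apply, Matrix.one_apply_eq, smul_eq_mul, mul_one,
    Matrix.of_apply, Matrix.cons_val', Matrix.cons_val_zero] at h1
  rw [Matrix.trace_fin_two, add_comm]
  exact h1

/-- mapping of matrices as a ring homomorphism -/
theorem mC_mul (A B : Matrix ι ι ℚ) : mC (A * B) = mC A * mC B :=
  (Matrix.map_mul (f := (Rat.castHom ℂ)) (L := A) (M := B))

theorem self_mem (c : GL ι ℂ) : c ∈ OmegaDRB Qbar c := fun _ _ _ _ h => h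

end REPM

open REPM

theorem specREP (hLIN : SpecLIN) (hEXP : SpecEXP) (hSIM : SpecSIM) (hBIC : SpecBIC)
    (hSTR : SpecSTR) (hGOU : SpecGOU) (hTOR : SpecTOR) (hGEN : SpecGEN) : SpecREP := by
  intro ι _ _ c J ψ hHD hGL hSep f hf hμ
  classical
  obtain ⟨μ, hμ⟩ := hμ
  rcases isEmpty_or_nonempty ι with hι | hι
  · have : f = c := Units.ext (Subsingleton.elim _ _)
    rw [this]
    exact self_mem c
  obtain ⟨S⟩ := hSTR c J ψ hHD hGL
  obtain ⟨h0, hadd, hsmul, hbr, hspan⟩ := hLIN c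
  obtain ⟨hcomm, hsimil, -⟩ := hSIM c J ψ hHD
  have hψdet : (mC ψ).det ≠ 0 := by
    intro h
    apply hHD.det
    have h1 : (mC ψ).det = ((ψ.det : ℚ) : ℂ) := ((Rat.castHom ℂ).map_det ψ).symm
    rw [h1] at h
    exact_mod_cast h
  have hψu : IsUnit (mC ψ).det := isUnit_iff_ne_zero.2 hψdet
  -- the Lie algebra
  let N : Submodule ℂ (EA S.κ S.σ) :=
    { carrier := {X | InH c (S.Ψ X)}
      add_mem' := fun {X Y} hX hY => by
        change InH c (S.Ψ (X + Y))
        rw [map_add]; exact hadd _ _ hX hY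
      zero_mem' := by
        change InH c (S.Ψ 0)
        rw [map_zero]; exact h0
      smul_mem' := fun t X hX => by
        change InH c (S.Ψ (t • X))
        rw [map_smul]; exact hsmul t _ hX }
  have hN1 : ∀ X ∈ N, ∀ Y ∈ N, X * Y - Y * X ∈ N := by
    intro X hX Y hY
    change InH c (S.Ψ (X * Y - Y * X))
    rw [map_sub, map_mul, map_mul]
    exact hbr _ _ hX hY
  -- similitudes
  have hm : ∀ X : Matrix ι ι ℂ, ∀ m : ℂ, Xᵀ * mC ψ + mC ψ * X = m • mC ψ →
      adj (mC ψ) X + X = m • 1 := by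
    intro X m h
    have h1 := congrArg (fun Y => (mC ψ)⁻¹ * Y) h
    simp only [mul_add, Matrix.mul_smul] at h1
    rw [Matrix.nonsing_inv_mul _ hψu, ← mul_assoc, ← mul_assoc, Matrix.nonsing_inv_mul _ hψu,
      one_mul] at h1
    exact h1
  have hN2 : ∀ X ∈ N, ∃ m : ℂ, ∀ k, (X.1 k).trace = m := by
    rintro ⟨x, y⟩ hX
    obtain ⟨m, h⟩ := hsimil _ hX
    have h1 := hm _ m h
    rw [S.adj_Ψ, ← map_add] at h1
    have h2 : (m • (1 : Matrix ι ι ℂ)) = S.Ψ (m • 1) := by rw [map_smul, map_one]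
    rw [h2] at h1
    have h3 := S.inj h1
    refine ⟨m, fun k => trace_of_adj ?_⟩
    exact congrFun (congrArg Prod.fst h3) k
  have hN3 : Algebra.adjoin ℂ (N : Set (EA S.κ S.σ)) = ⊤ := by
    rw [eq_top_iff]
    intro u _
    have h1 := (S.mem_range (S.Ψ u)).1 ⟨u, rfl⟩
    have h2 := mem_span_com h1
    have h3 : ∀ Z ∈ ComAlg c.1, mC Z ∈ (Algebra.adjoin ℂ (N : Set (EA S.κ S.σ))).map S.Ψ := by
      rw [(hBIC c J ψ hHD).2]
      intro Z hZ
      refine Algebra.adjoin_induction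
        (p := fun Z _ => mC Z ∈ (Algebra.adjoin ℂ (N : Set (EA S.κ S.σ))).map S.Ψ)
        ?_ ?_ ?_ ?_ hZ
      · intro Z hZ
        obtain ⟨X, hX⟩ := (S.mem_range (mC Z)).2 (fun B hB => hcomm _ hZ B hB)
        refine ⟨X, Algebra.subset_adjoin ?_, hX⟩
        change InH c (S.Ψ X)
        rw [hX]
        exact hZ
      · intro q
        have : mC (algebraMap ℚ (Matrix ι ι ℚ) q) = algebraMap ℂ (Matrix ι ι ℂ) (q : ℂ) := by
          ext i j
          simp only [Matrix.map_apply, Matrix.algebraMap_matrix_apply]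
          split_ifs <;> simp
        rw [this]
        exact Subalgebra.algebraMap_mem _ _
      · intro a b _ _ ha hb
        have : mC (a + b) = mC a + mC b := Matrix.map_add _ (fun x y => Rat.cast_add x y) a b
        rw [this]
        exact add_mem ha hb
      · intro a b _ _ ha hb
        rw [mC_mul]
        exact mul_mem ha hb
    have h4 : S.Ψ u ∈ (Algebra.adjoin ℂ (N : Set (EA S.κ S.σ))).map S.Ψ := by
      have : Submodule.span ℂ {Y : Matrix ι ι ℂ | ∃ Z ∈ ComAlg c.1, Y = mC Z} ≤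
          Subalgebra.toSubmodule ((Algebra.adjoin ℂ (N : Set (EA S.κ S.σ))).map S.Ψ) := by
        refine Submodule.span_le.2 ?_
        rintro _ ⟨Z, hZ, rfl⟩
        exact h3 Z hZ
      exact this h2
    obtain ⟨u', hu', he⟩ := h4
    rwa [← S.inj he]
  have hsl := hGOU S.κ S.σ N hN1 hN2 hN3
  have htor := hTOR c J ψ S hHD hSep (fun x hx => hsl x hx)
  -- the group
  let T : Set (EA S.κ S.σ) := {u | ∃ g : GL ι ℂ, g.1 = S.Ψ u ∧ g * c ∈ OmegaDRB Qbar c}
  have hT1 : (1 : EA S.κ S.σ) ∈ T := ⟨1, by rw [map_one]; rfl, by rw [one_mul]; exact self_mem c⟩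
  have hTexp : ∀ (x : S.κ → Matrix (Fin 2) (Fin 2) ℂ) (y : S.σ → ℂ), InH c (S.Ψ (x, y)) →
      ∀ t ∈ T, ((fun k => NormedSpace.exp (x k)), fun s => Complex.exp (y s)) * t ∈ T := by
    rintro x y hxy t ⟨g, hg, hgc⟩
    obtain ⟨g', hg'⟩ := Matrix.isUnit_exp (S.Ψ (x, y))
    refine ⟨g' * g, ?_, ?_⟩
    · rw [map_mul, exp_Ψ, ← hg, ← hg']
      rfl
    · rw [mul_assoc]
      exact hEXP c _ hxy g' hg' _ hgc
  -- the element
  have hc := c⁻¹.2
  have hcinv : c.1 * c⁻¹.1 = 1 := by rw [← Units.val_mul, mul_inv_cancel]; rfl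
  have hcinv' : c⁻¹.1 * c.1 = 1 := by rw [← Units.val_mul, inv_mul_cancel]; rfl
  let g : GL ι ℂ := f * c⁻¹
  have hg : g.1 = f.1 * c⁻¹.1 := rfl
  obtain ⟨⟨x, y⟩, hxy⟩ := (S.mem_range g.1).2 (fun B hB => by
    obtain ⟨B', hB'a, hB'⟩ := hB
    have h1 := hf B B' hB'a hB'
    rw [hg]
    calc f.1 * c⁻¹.1 * mC B = f.1 * (c⁻¹.1 * (mC B * c.1)) * c⁻¹.1 := by
          simp only [mul_assoc, hcinv, mul_one]
      _ = f.1 * B' * c⁻¹.1 := by rw [← hB', ← mul_assoc c⁻¹.1, hcinv', one_mul]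
      _ = mC B * (f.1 * c⁻¹.1) := by rw [h1, mul_assoc])
  have hgψ : g.1ᵀ * mC ψ * g.1 = μ • mC ψ := by
    rw [hg, Matrix.transpose_mul]
    calc (c⁻¹.1ᵀ * f.1ᵀ) * mC ψ * (f.1 * c⁻¹.1) = c⁻¹.1ᵀ * (f.1ᵀ * mC ψ * f.1) * c⁻¹.1 := by
          simp only [mul_assoc]
      _ = μ • ((c⁻¹.1ᵀ * c.1ᵀ) * mC ψ * (c.1 * c⁻¹.1)) := by
          rw [hμ]
          simp only [Matrix.mul_smul, Matrix.smul_mul, mul_assoc]
      _ = _ := by rw [← Matrix.transpose_mul, hcinv, Matrix.transpose_one, one_mul, mul_one]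
  have hadjg : adj (mC ψ) g.1 * g.1 = μ • 1 := by
    rw [adj, mul_assoc, mul_assoc, ← mul_assoc g.1ᵀ, hgψ, Matrix.mul_smul,
      Matrix.nonsing_inv_mul _ hψu]
  have hμ0 : μ ≠ 0 := by
    rintro rfl
    rw [zero_smul] at hgψ
    have h1 := congrArg Matrix.det hgψ
    rw [Matrix.det_mul, Matrix.det_mul, Matrix.det_transpose, Matrix.det_zero] at h1
    have hgd : g.1.det ≠ 0 := ((Matrix.isUnit_iff_isUnit_det _).1 g.isUnit).ne_zero
    exact (mul_ne_zero (mul_ne_zero hgd hψdet) hgd) h1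
  rw [← hxy, S.adj_Ψ, ← map_mul] at hadjg
  have h2 : (μ • (1 : Matrix ι ι ℂ)) = S.Ψ (μ • 1) := by rw [map_smul, map_one]
  rw [h2] at hadjg
  have h3 := S.inj hadjg
  have hdet : ∀ k, (x k).det = μ := by
    intro k
    have h4 : (x k).adjugate * x k = μ • 1 := congrFun (congrArg Prod.fst h3) k
    rw [Matrix.adjugate_mul] at h4
    have h5 := congrFun (congrFun h4 0) 0
    simpa using h5
  have hyy : ∀ s, y s * y (S.τ s) = μ := by
    intro s
    have h4 : y (S.τ s) * y s = μ • (1 : ℂ) := congrFun (congrArg Prod.snd h3) s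
    rw [mul_comm, h4, smul_eq_mul, mul_one]
  have hmem : ((x, y) : EA S.κ S.σ) ∈ T := by
    refine hGEN S.κ S.σ S.τ S.τ_ne S.τ_τ T hT1 ?_ ?_ μ hμ0 x y hdet hyy
    · intro x hx t ht
      have := hTexp x 0 (hsl x hx) t ht
      simpa using this
    · intro m y hy t ht
      have := hTexp (fun _ => (m / 2) • 1) y (htor m y hy) t ht
      have h5 : NormedSpace.exp ((m / 2) • (1 : Matrix (Fin 2) (Fin 2) ℂ)) =
          Complex.exp (m / 2) • 1 := by
        have h6 : ((m / 2) • (1 : Matrix (Fin 2) (Fin 2) ℂ)) =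
            Matrix.diagonal (fun _ => m / 2) := by
          rw [Matrix.smul_one_eq_diagonal]
        rw [h6, Matrix.exp_diagonal, Matrix.smul_one_eq_diagonal]
        congr 1
        funext i
        rw [Pi.coe_exp, Complex.exp_eq_exp_ℂ]
      rw [h5] at this
      exact this
  obtain ⟨g', hg', hgc⟩ := hmem
  have : g' = g := Units.ext (by rw [hg', hxy])
  rw [this] at hgc
  have h7 : g * c = f := by simp [g]
  rwa [h7] at hgc

end Pool.Agent.Lib.MPf11a48.U
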