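import Pool.Agent.Lib.MP_f11a48_ag.U.Spec

/-!
# MP_f11a48_ag, project U, module TP: Theorem T'
-/

set_option autoImplicit false

open MvPolynomial Pool.Agent.Lib.MPf11a48.CM

namespace Pool.Agent.Lib.MPf11a48.U

namespace TPM

/-- a projection onto a subspace, as a matrix -/
theorem exists_proj {k J : Type} [Field k] [Fintype J] [DecidableEq J]
    (W : Submodule k (J → k)) :
    ∃ P : Matrix J J k, (∀ w ∈ W, P.mulVec w = w) ∧ ∀ v, P.mulVec v ∈ W := by
  obtain ⟨p, hp⟩ := Submodule.exists_isCompl W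
  let π : (J → k) →ₗ[k] (J → k) := W.subtype ∘ₗ Submodule.linearProjOfIsCompl W p hp
  refine ⟨LinearMap.toMatrix' π, fun w hw => ?_, fun v => ?_⟩
  · rw [← Matrix.toLin'_apply, Matrix.toLin'_toMatrix']
    have : Submodule.linearProjOfIsCompl W p hp w = ⟨w, hw⟩ :=
      Submodule.linearProjOfIsCompl_apply_left hp ⟨w, hw⟩
    simp only [π, LinearMap.comp_apply, this, Submodule.subtype_apply]
  · rw [← Matrix.toLin'_apply, Matrix.toLin'_toMatrix']
    exact (Submodule.linearProjOfIsCompl W p hp v).2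

variable {k : Type} [Field k] [Algebra k ℂ] {J : Type} [Fintype J]

theorem spanC_proj [DecidableEq J] {W : Submodule k (J → k)} {P : Matrix J J k}
    (h1 : ∀ w ∈ W, P.mulVec w = w) {v : J → ℂ} (hv : v ∈ spanC W) (i : J) :
    ∑ j, algebraMap k ℂ (P i j) * v j = v i := by
  have hle : spanC W ≤
      LinearMap.ker (Matrix.mulVecLin (P.map (algebraMap k ℂ)) - LinearMap.id) := by
    refine Submodule.span_le.2 ?_
    rintro _ ⟨w, hw, rfl⟩
    rw [SetLike.mem_coe, LinearMap.mem_ker, LinearMap.sub_apply, sub_eq_zero, Matrix.mulVecLin_apply,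
      LinearMap.id_apply]
    funext i
    have := congrArg (algebraMap k ℂ) (congrFun (h1 w hw) i)
    simp only [Matrix.mulVec, dotProduct, map_sum, map_mul] at this
    simpa only [Matrix.mulVec, dotProduct, Matrix.map_apply] using this
  have := hle hv
  rw [LinearMap.mem_ker, LinearMap.sub_apply, sub_eq_zero, Matrix.mulVecLin_apply,
    LinearMap.id_apply] at this
  simpa only [Matrix.mulVec, dotProduct, Matrix.map_apply] using congrFun this i

theorem mem_spanC_of_proj [DecidableEq J] {W : Submodule k (J → k)} {P : Matrix J J k}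
    (h2 : ∀ v, P.mulVec v ∈ W) {v : J → ℂ}
    (hv : ∀ i, ∑ j, algebraMap k ℂ (P i j) * v j = v i) : v ∈ spanC W := by
  have : v = ∑ j, v j • (fun i => algebraMap k ℂ (P.mulVec (Pi.single j 1) i)) := by
    funext i
    rw [Finset.sum_apply]
    rw [← hv i]
    refine Finset.sum_congr rfl fun j _ => ?_
    simp only [Pi.smul_apply, smul_eq_mul, Matrix.mulVec_single, MulOpposite.op_one, one_smul,
      Matrix.col_apply]
    ring
  rw [this]
  exact Submodule.sum_mem _ fun j _ => Submodule.smul_mem _ _ (Submodule.subset_span ⟨_, h2 _, rfl⟩)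

/-- a rational vector in the complex span is in the subspace -/
theorem mem_of_mem_spanC {W : Submodule k (J → k)} {x : J → k}
    (hx : (fun j => algebraMap k ℂ (x j)) ∈ spanC W) : x ∈ W := by
  classical
  obtain ⟨P, h1, h2⟩ := exists_proj W
  have := spanC_proj h1 hx
  have h3 : P.mulVec x = x := by
    funext i
    apply (algebraMap k ℂ).injective
    rw [← this i]
    simp only [Matrix.mulVec, dotProduct, map_sum, map_mul]
  rw [← h3]
  exact h2 x

/-- a subspace defined over `Qbar` is the complex span of a subspace over `Qbar` -/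
theorem DefQbar.eq_spanC {W : Submodule ℂ (J → ℂ)} (h : DefQbar W) :
    ∃ W₀ : Submodule Qbar (J → Qbar), W = spanC W₀ := by
  let W₀ : Submodule Qbar (J → Qbar) :=
    { carrier := {w | (fun j => ((w j : Qbar) : ℂ)) ∈ W}
      add_mem' := fun {a b} ha hb => W.add_mem ha hb
      zero_mem' := W.zero_mem
      smul_mem' := fun t w hw => W.smul_mem (t : ℂ) hw }
  refine ⟨W₀, le_antisymm ?_ ?_⟩
  · rw [h]
    refine Submodule.span_mono ?_
    rintro w ⟨h1, h2⟩
    exact ⟨fun j => ⟨w j, h2 j⟩, h1, rfl⟩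
  · refine Submodule.span_le.2 ?_
    rintro _ ⟨w, hw, rfl⟩
    exact hw

/-- separation by functionals over `Qbar` -/
theorem DefQbar.sep {W : Submodule ℂ (J → ℂ)} (h : DefQbar W) {v : J → ℂ}
    (hv : ∀ b : J → ℂ, (∀ j, b j ∈ Qbar) → (∀ w ∈ W, ∑ j, b j * w j = 0) → ∑ j, b j * v j = 0) :
    v ∈ W := by
  classical
  obtain ⟨W₀, rfl⟩ := DefQbar.eq_spanC h
  obtain ⟨P, h1, h2⟩ := exists_proj W₀
  refine mem_spanC_of_proj h2 fun i => ?_
  have := hv (fun j => ((P i j : Qbar) : ℂ) - if i = j then 1 else 0) (fun j => ?_) fun w hw => ?_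
  · simp only [sub_mul, ite_mul, one_mul, zero_mul, Finset.sum_sub_distrib,
      Finset.sum_ite_eq, Finset.mem_univ, if_true, sub_eq_zero] at this
    exact this
  · refine Qbar.sub_mem (P i j).2 ?_
    split_ifs
    · exact Qbar.one_mem
    · exact Qbar.zero_mem
  · simp only [sub_mul, ite_mul, one_mul, zero_mul, Finset.sum_sub_distrib,
      Finset.sum_ite_eq, Finset.mem_univ, if_true, sub_eq_zero]
    exact spanC_proj h1 hw i

theorem map_ne_zero {σ : Type} {P : MvPolynomial σ Qbar} (h : P ≠ 0) :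
    MvPolynomial.map (algebraMap Qbar ℂ) P ≠ 0 := fun h0 =>
  h (MvPolynomial.map_injective _ (algebraMap Qbar ℂ).injective (h0.trans (map_zero _).symm))

end TPM

open TPM

/-- THEOREM T'. -/
theorem specTP (hREL : SpecREL) (hCLOS : SpecCLOS) (hQUASI : SpecQUASI) : SpecTP := by
  intro Z T Θ Λ _ _ _ _ D hD R hW
  classical
  set U : Submodule ℂ (Z → ℂ) := (D.Wof R).map (LinearMap.funLeft ℂ ℂ Sum.inl) with hU
  obtain ⟨h1, h2⟩ := hREL D hD R hW U rfl
  have hcl := hCLOS D hD U (fun s => by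
    obtain ⟨P, hP, h⟩ := h1 s
    exact ⟨_, map_ne_zero hP, fun z hz h0 => by
      rw [MvPolynomial.aeval_map_algebraMap]; exact h z hz h0⟩)
  -- integral vectors with `lat x ∈ U` are in `R`
  have key : ∀ x : Λ → ℤ, (∑ a, (x a : ℂ) • D.lat a) ∈ U → (fun a => (x a : ℚ)) ∈ R := by
    intro x hx
    have hmem : (∑ a, (x a : ℂ) • D.lam a) ∈ D.Wof R := by
      refine DefQbar.sep hW fun b hb hbW => ?_
      let ℓ : (Z → ℂ) →ₗ[ℂ] ℂ := -∑ j, b (Sum.inl j) • (LinearMap.proj j : (Z → ℂ) →ₗ[ℂ] ℂ)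
      have hℓ : ∀ z, ℓ z = -∑ j, b (Sum.inl j) * z j := by
        intro z
        simp [ℓ, LinearMap.sum_apply]
      have hq := hQUASI D hD U (fun t => b (Sum.inr t)) ℓ (fun s => by
        obtain ⟨P, hP, h⟩ := h2 s (fun t => b (Sum.inr t)) (fun t => hb _) ℓ (fun w hw => by
          have := hbW w hw
          rw [Fintype.sum_sum_type] at this
          rw [hℓ]
          linear_combination this)
        exact ⟨_, map_ne_zero hP, fun z hz h0 => by
          rw [MvPolynomial.aeval_map_algebraMap]; exact h z hz h0⟩) x hx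
      rw [Fintype.sum_sum_type]
      rw [hℓ] at hq
      have e1 : ∀ j, (∑ a, (x a : ℂ) • D.lam a) (Sum.inl j) = (∑ a, (x a : ℂ) • D.lat a) j := by
        intro j
        simp [Finset.sum_apply, TD.lam]
      have e2 : ∀ t, (∑ a, (x a : ℂ) • D.lam a) (Sum.inr t) = ∑ a, (x a : ℂ) * D.eta a t := by
        intro t
        simp [Finset.sum_apply, TD.lam]
      simp only [e1, e2]
      linear_combination hq
    -- now use the independence of `lam`
    let Φ : (Λ → ℂ) →ₗ[ℂ] (Z ⊕ T → ℂ) := Fintype.linearCombination ℂ D.lam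
    have hΦ : ∀ y, Φ y = ∑ a, y a • D.lam a := fun y => Fintype.linearCombination_apply ℂ D.lam y
    have hinj : Function.Injective Φ := by
      rw [← LinearMap.ker_eq_bot, LinearMap.ker_eq_bot']
      intro y hy
      rw [hΦ] at hy
      funext a
      exact Fintype.linearIndependent_iff.1 hD.lam_indep y hy a
    have hWΦ : D.Wof R = (spanC R).map Φ := by
      rw [spanC, Submodule.map_span, TD.Wof]
      congr 1
      ext w
      constructor
      · rintro ⟨y, hy, rfl⟩
        exact ⟨_, ⟨y, hy, rfl⟩, hΦ _⟩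
      · rintro ⟨_, ⟨y, hy, rfl⟩, rfl⟩
        exact ⟨y, hy, hΦ _⟩
    rw [hWΦ] at hmem
    obtain ⟨y, hy, hyx⟩ := hmem
    have : y = fun a => (x a : ℂ) := hinj (by rw [hyx, hΦ])
    rw [this] at hy
    refine mem_of_mem_spanC (k := ℚ) ?_
    convert hy using 2 with a
    simp
  -- `U ⊆ Lof R`
  have hUL : ∀ u ∈ U, u ∈ D.Lof R := by
    intro u hu
    refine Submodule.span_mono ?_ (hcl u hu)
    rintro w ⟨hw, x, rfl⟩
    exact ⟨_, key x hw, by simp⟩
  have hLU : ∀ w ∈ D.Lof R, w ∈ U := by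
    intro w hw
    have : D.Lof R ≤ U.restrictScalars ℝ := by
      refine Submodule.span_le.2 ?_
      rintro _ ⟨x, hx, rfl⟩
      refine ⟨∑ a, (x a : ℂ) • D.lam a, Submodule.subset_span ⟨x, hx, rfl⟩, ?_⟩
      funext j
      simp [LinearMap.funLeft_apply, Finset.sum_apply, TD.lam]
    exact this hw
  intro w hw
  exact hUL _ (U.smul_mem _ (hLU w hw))

end Pool.Agent.Lib.MPf11a48.U
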