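import Pool.Agent.Lib.MP_f11a48_ag.U.SpecR
import Pool.Agent.Lib.MP_f11a48_ag.U.Tp

/-!
# MP_f11a48_ag, project U, module HDA: `h^1(A)` satisfies `HD`
-/

set_option autoImplicit false

open Matrix MvPolynomial Pool.Agent.Lib.MPf11a48.CM Pool.Agent.Lib.MPf11a48.GL2T

namespace Pool.Agent.Lib.MPf11a48.U

namespace HDAM

/-! ### Orthogonal complements -/

section Orth

variable {k : Type} [Field k] [Algebra k ℂ] {J : Type} [Fintype J]

/-- the orthogonal complement -/
def orth (W : Submodule k (J → k)) : Submodule k (J → k) where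
  carrier := {u | ∀ w ∈ W, ∑ j, u j * w j = 0}
  add_mem' := fun {a b} ha hb w hw => by
    simp only [Pi.add_apply, add_mul, Finset.sum_add_distrib]
    rw [ha w hw, hb w hw, add_zero]
  zero_mem' := fun w _ => by simp
  smul_mem' := fun t a ha w hw => by
    simp only [Pi.smul_apply, smul_eq_mul, mul_assoc]
    rw [← Finset.mul_sum, ha w hw, mul_zero]

theorem mem_orthC (W : Submodule k (J → k)) (u : J → ℂ) :
    u ∈ spanC (orth W) ↔ ∀ v ∈ spanC W, ∑ j, u j * v j = 0 := by
  classical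
  constructor
  · intro hu v hv
    refine Submodule.span_induction (p := fun u _ => ∑ j, u j * v j = 0) ?_ ?_ ?_ ?_ hu
    · rintro _ ⟨x, hx, rfl⟩
      refine Submodule.span_induction
        (p := fun v _ => ∑ j, algebraMap k ℂ (x j) * v j = 0) ?_ ?_ ?_ ?_ hv
      · rintro _ ⟨w, hw, rfl⟩
        have := congrArg (algebraMap k ℂ) (hx w hw)
        simpa only [map_sum, map_mul, map_zero] using this
      · simp
      · intro a b _ _ ha hb
        simp only [Pi.add_apply, mul_add, Finset.sum_add_distrib, ha, hb, add_zero]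
      · intro t a _ ha
        have : ∀ j, algebraMap k ℂ (x j) * (t • a) j = t * (algebraMap k ℂ (x j) * a j) := by
          intro j
          simp only [Pi.smul_apply, smul_eq_mul]
          ring
        simp only [this]
        rw [← Finset.mul_sum, ha, mul_zero]
    · simp
    · intro a b _ _ ha hb
      simp only [Pi.add_apply, add_mul, Finset.sum_add_distrib, ha, hb, add_zero]
    · intro t a _ ha
      simp only [Pi.smul_apply, smul_eq_mul, mul_assoc]
      rw [← Finset.mul_sum, ha, mul_zero]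
  · intro h
    obtain ⟨P, h1, h2⟩ := TPM.exists_proj W
    refine TPM.mem_spanC_of_proj (P := (1 - P)ᵀ) ?_ ?_
    · intro v w hw
      have h3 : ∑ j, ((1 - P)ᵀ.mulVec v) j * w j = v ⬝ᵥ ((1 - P).mulVec w) := by
        rw [Matrix.dotProduct_mulVec, ← Matrix.mulVec_transpose]
        rfl
      rw [h3, Matrix.sub_mulVec, Matrix.one_mulVec, h1 w hw, sub_self, dotProduct_zero]
    · intro i
      have h3 : (fun a => algebraMap k ℂ (P.mulVec (Pi.single i 1) a)) ∈ spanC W :=
        Submodule.subset_span ⟨_, h2 _, rfl⟩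
      have h4 := h _ h3
      have h5 : ∀ j, algebraMap k ℂ (P.mulVec (Pi.single i 1) j) = algebraMap k ℂ (P j i) := by
        intro j
        simp [Matrix.mulVec_single]
      simp only [h5] at h4
      simp only [Matrix.transpose_apply, Matrix.sub_apply, Matrix.one_apply, map_sub, sub_mul,
        Finset.sum_sub_distrib]
      have h6 : ∑ j, algebraMap k ℂ (P j i) * u j = 0 := by
        rw [← h4]
        exact Finset.sum_congr rfl fun j _ => mul_comm _ _
      rw [h6, sub_zero]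
      rw [Finset.sum_eq_single i]
      · simp
      · intro b _ hb
        simp [hb]
      · intro hi
        exact absurd (Finset.mem_univ i) hi

theorem defQbar_spanC {J : Type} (W : Submodule Qbar (J → Qbar)) : DefQbar (spanC W) := by
  refine le_antisymm ?_ (Submodule.span_le.2 fun w hw => hw.1)
  refine Submodule.span_mono ?_
  rintro _ ⟨w, hw, rfl⟩
  exact ⟨Submodule.subset_span ⟨w, hw, rfl⟩, fun j => (w j).2⟩

end Orth

/-! ### The complex structure -/

section Cplx

variable {g : ℕ}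

/-- real coordinates -/
noncomputable def bas (lat : Ix g → (Fin g → ℂ)) (h : LinearIndependent ℝ lat) :
    Module.Basis (Ix g) ℝ (Fin g → ℂ) :=
  basisOfLinearIndependentOfCardEqFinrank' lat h (by
    rw [Fintype.card_sum, Fintype.card_fin, ← Module.finrank_mul_finrank ℝ ℂ (Fin g → ℂ),
      Complex.finrank_real_complex, Module.finrank_fin_fun]
    ring)

theorem bas_apply (lat : Ix g → (Fin g → ℂ)) (h : LinearIndependent ℝ lat) (a : Ix g) :
    bas lat h a = lat a := by
  simp [bas]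

/-- the real linear combination with complex scalars -/
theorem real_smul (x : ℝ) (v : Fin g → ℂ) : (x : ℂ) • v = x • v := by
  funext j
  simp

theorem ind_real {lat : Ix g → (Fin g → ℂ)} (h : LinearIndependent ℝ lat) {x y : Ix g → ℝ}
    (hxy : ∑ a, (x a : ℂ) • lat a = ∑ a, (y a : ℂ) • lat a) : x = y := by
  simp only [real_smul] at hxy
  have h1 : ∑ a, (x a - y a) • lat a = 0 := by
    simp only [sub_smul, Finset.sum_sub_distrib, hxy, sub_self]
  funext a
  have := Fintype.linearIndependent_iff.1 h _ h1 a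
  linarith

/-- the matrix of the complex structure -/
noncomputable def JM (lat : Ix g → (Fin g → ℂ)) (h : LinearIndependent ℝ lat) :
    Matrix (Ix g) (Ix g) ℝ := fun a b => (bas lat h).repr (Complex.I • lat a) b

theorem JM_spec (lat : Ix g → (Fin g → ℂ)) (h : LinearIndependent ℝ lat) (a : Ix g) :
    ∑ b, (JM lat h a b : ℂ) • lat b = Complex.I • lat a := by
  simp only [real_smul, JM]
  have := (bas lat h).sum_repr (Complex.I • lat a)
  simpa only [bas_apply] using this

/-- `i L(x) = L(x J)` -/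
theorem JM_row (lat : Ix g → (Fin g → ℂ)) (h : LinearIndependent ℝ lat) (x : Ix g → ℝ) :
    ∑ b, ((x ᵥ* JM lat h) b : ℂ) • lat b = Complex.I • ∑ a, (x a : ℂ) • lat a := by
  have h1 : ∀ a, Complex.I • (x a : ℂ) • lat a = ∑ b, ((x a * JM lat h a b : ℝ) : ℂ) • lat b := by
    intro a
    rw [smul_comm, ← JM_spec lat h a, Finset.smul_sum]
    refine Finset.sum_congr rfl fun b _ => ?_
    rw [smul_smul]
    push_cast
    rfl
  rw [Finset.smul_sum]
  simp only [h1]
  rw [Finset.sum_comm]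
  refine Finset.sum_congr rfl fun b _ => ?_
  rw [← Finset.sum_smul]
  congr 1
  simp only [Matrix.vecMul, dotProduct]
  push_cast
  rfl

theorem JM_sq (lat : Ix g → (Fin g → ℂ)) (h : LinearIndependent ℝ lat) :
    JM lat h * JM lat h = -1 := by
  ext a b
  have h1 := JM_row lat h (JM lat h a)
  rw [JM_spec, smul_smul, Complex.I_mul_I] at h1
  have h2 : (-1 : ℂ) • lat a = ∑ b, (((-1 : Matrix (Ix g) (Ix g) ℝ) a b : ℝ) : ℂ) • lat b := by
    rw [Finset.sum_eq_single a]
    · simp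
    · intro b _ hb
      simp [Matrix.one_apply_ne hb.symm]
    · intro ha
      exact absurd (Finset.mem_univ a) ha
  rw [h2] at h1
  have h3 := ind_real h h1
  have h4 := congrFun h3 b
  rw [← h4]
  rfl

end Cplx

/-! ### The Riemann form -/

section Riemann

variable {g N : ℕ} {K : IntermediateField ℚ ℂ} (A : AbData g N)

/-- the real Riemann form -/
noncomputable def ER : Matrix (Ix g) (Ix g) ℝ := A.E.map (fun x => (x : ℝ))

theorem key_real {e e1 e2 e3 : ℝ} {S1 S2 S3 S4 : ℂ} {p : ℝ} (hp : p ≠ 0)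
    (h0 : S1 - S2 = p * Complex.I * e) (h1 : Complex.I * S1 - S4 = p * Complex.I * e1)
    (h2 : S3 - Complex.I * S2 = p * Complex.I * e2)
    (h3 : Complex.I * S3 - Complex.I * S4 = p * Complex.I * e3) : e3 = e := by
  have h4 : (p * Complex.I * e3 : ℂ) = p * Complex.I * e - p * (e1 + e2) := by
    have hI := Complex.I_mul_I
    linear_combination -h3 + Complex.I * h2 + Complex.I * h1 + h0 -
      (S1 - S2 - p * e1 - p * e2) * hI
  have h5 := congrArg Complex.im h4
  simp at h5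
  rcases h5 with h | h
  · exact h
  · exact absurd h hp

variable {A}

/-- the sum `∑ x_l a_l` -/
noncomputable def al (A : AbData g N) (x : Ix g → ℝ) : (Fin g → ℂ) →ₗ[ℂ] ℂ :=
  ∑ l, (x l : ℂ) • A.a l

/-- the vector `∑ x_l lat_l` -/
noncomputable def Lv (A : AbData g N) (x : Ix g → ℝ) : Fin g → ℂ := ∑ l, (x l : ℂ) • A.lat l

theorem E_formula (hA : A.IsAbVar K) (x y : Ix g → ℝ) :
    al A x (Lv A y) - al A y (Lv A x) =
      2 * Real.pi * Complex.I * ((x ⬝ᵥ (ER A *ᵥ y) : ℝ) : ℂ) := by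
  have h1 : ∀ x y : Ix g → ℝ, al A x (Lv A y) =
      ∑ l, ∑ l', (x l : ℂ) * (y l' : ℂ) * A.a l (A.lat l') := by
    intro x y
    simp only [al, Lv, LinearMap.sum_apply, LinearMap.smul_apply, map_sum, map_smul, smul_eq_mul,
      Finset.mul_sum]
    rw [Finset.sum_comm]
    exact Finset.sum_congr rfl fun l _ => Finset.sum_congr rfl fun l' _ => by ring
  rw [h1, h1, Finset.sum_comm (f := fun l l' => (y l : ℂ) * (x l' : ℂ) * A.a l (A.lat l')),
    ← Finset.sum_sub_distrib]
  simp only [dotProduct, Matrix.mulVec, Complex.ofReal_sum, Complex.ofReal_mul, Finset.mul_sum,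
    ← Finset.sum_sub_distrib]
  refine Finset.sum_congr rfl fun l _ => Finset.sum_congr rfl fun l' _ => ?_
  have h2 := hA.riemann l l'
  have h3 : ((ER A l l' : ℝ) : ℂ) = (A.E l l' : ℂ) := by simp [ER]
  rw [h3]
  linear_combination (x l : ℂ) * (y l' : ℂ) * h2

theorem E_skew (hA : A.IsAbVar K) : A.Eᵀ = -A.E := by
  ext l l'
  have h1 := hA.riemann l l'
  have h2 := hA.riemann l' l
  have h3 : (2 * Real.pi * Complex.I : ℂ) * ((A.E l' l : ℂ) + (A.E l l' : ℂ)) = 0 := by
    linear_combination -h1 - h2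
  have h4 : (2 * Real.pi * Complex.I : ℂ) ≠ 0 := Complex.two_pi_I_ne_zero
  have h5 := (mul_eq_zero.1 h3).resolve_left h4
  rw [Matrix.transpose_apply, Matrix.neg_apply, eq_neg_iff_add_eq_zero]
  exact_mod_cast h5

theorem ER_skew (hA : A.IsAbVar K) : (ER A)ᵀ = -ER A := by
  ext l l'
  have := congrFun (congrFun (E_skew hA) l) l'
  simp only [Matrix.transpose_apply, Matrix.neg_apply] at this
  simp [ER, this]

theorem Lv_J (hA : A.IsAbVar K) (x : Ix g → ℝ) :
    Lv A (x ᵥ* JM A.lat hA.lat_indep) = Complex.I • Lv A x := JM_row A.lat hA.lat_indep x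

theorem E_J (hA : A.IsAbVar K) :
    JM A.lat hA.lat_indep * ER A * (JM A.lat hA.lat_indep)ᵀ = ER A := by
  set J := JM A.lat hA.lat_indep with hJ
  have key : ∀ x y : Ix g → ℝ, (x ᵥ* J) ⬝ᵥ (ER A *ᵥ (y ᵥ* J)) = x ⬝ᵥ (ER A *ᵥ y) := by
    intro x y
    refine key_real (p := 2 * Real.pi) (by positivity) (S1 := al A x (Lv A y))
      (S2 := al A y (Lv A x)) (S3 := al A (x ᵥ* J) (Lv A y)) (S4 := al A (y ᵥ* J) (Lv A x))
      (e1 := x ⬝ᵥ (ER A *ᵥ (y ᵥ* J))) (e2 := (x ᵥ* J) ⬝ᵥ (ER A *ᵥ y)) ?_ ?_ ?_ ?_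
    · have := E_formula hA x y
      push_cast at this ⊢
      exact this
    · have := E_formula hA x (y ᵥ* J)
      rw [Lv_J hA, map_smul, smul_eq_mul] at this
      push_cast at this ⊢
      exact this
    · have := E_formula hA (x ᵥ* J) y
      rw [Lv_J hA, map_smul, smul_eq_mul] at this
      push_cast at this ⊢
      exact this
    · have := E_formula hA (x ᵥ* J) (y ᵥ* J)
      rw [Lv_J hA, Lv_J hA, map_smul, map_smul, smul_eq_mul, smul_eq_mul] at this
      push_cast at this ⊢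
      exact this
  ext a b
  have h1 := key (Pi.single a 1) (Pi.single b 1)
  rw [Matrix.single_one_vecMul, Matrix.single_one_vecMul, Matrix.mulVec_single_one,
    single_one_dotProduct] at h1
  rw [Matrix.mul_assoc]
  have h2 : (J * (ER A * Jᵀ)) a b = J.row a ⬝ᵥ (ER A *ᵥ J.row b) := by
    simp only [Matrix.mul_apply, dotProduct, Matrix.mulVec, Matrix.transpose_apply, Matrix.row]
  rw [h2, h1]
  rfl

theorem pos_E (hA : A.IsAbVar K) (x : Ix g → ℝ) (hx : x ≠ 0) :
    0 < x ⬝ᵥ (ER A *ᵥ (x ᵥ* JM A.lat hA.lat_indep)) := by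
  have h1 := hA.pos x (x ᵥ* JM A.lat hA.lat_indep) hx (Lv_J hA x)
  have h2 : x ⬝ᵥ (ER A *ᵥ (x ᵥ* JM A.lat hA.lat_indep)) =
      ∑ l, ∑ l', x l * (A.E l l' : ℝ) * (x ᵥ* JM A.lat hA.lat_indep) l' := by
    simp only [dotProduct, Matrix.mulVec, ER, Matrix.map_apply, Finset.mul_sum, mul_assoc]
  rw [h2]
  exact h1

end Riemann

/-! ### Sub-objects -/

section Sub

variable {g N : ℕ} {K : IntermediateField ℚ ℂ} {A : AbData g N}

theorem lam_eq {c : GL (Ix g) ℂ} (hc : c.1 = A.per) (a : Ix g) : A.td.lam a = c.1 a := by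
  rw [hc]
  rfl

/-- row vectors times `c` -/
theorem Wof_eq {c : GL (Ix g) ℂ} (hc : c.1 = A.per) (R : Submodule ℚ (Ix g → ℚ)) (u : Ix g → ℂ) :
    u ∈ A.td.Wof R ↔ ∃ x ∈ spanC R, u = x ᵥ* c.1 := by
  let Φ : (Ix g → ℂ) →ₗ[ℂ] (Ix g → ℂ) := c.1.vecMulLinear
  have hΦ : ∀ x, Φ x = x ᵥ* c.1 := fun x => rfl
  have hsum : ∀ x : Ix g → ℂ, x ᵥ* c.1 = ∑ a, x a • A.td.lam a := by
    intro x
    funext i
    simp only [Matrix.vecMul, dotProduct, Finset.sum_apply, Pi.smul_apply, smul_eq_mul, lam_eq hc]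
  have hW : A.td.Wof R = (spanC R).map Φ := by
    rw [spanC, Submodule.map_span, TD.Wof]
    congr 1
    ext w
    constructor
    · rintro ⟨y, hy, rfl⟩
      exact ⟨_, ⟨y, hy, rfl⟩, hsum _⟩
    · rintro ⟨_, ⟨y, hy, rfl⟩, rfl⟩
      exact ⟨y, hy, hsum _⟩
  rw [hW]
  constructor
  · rintro ⟨x, hx, rfl⟩
    exact ⟨x, hx, rfl⟩
  · rintro ⟨x, hx, rfl⟩
    exact ⟨x, hx, rfl⟩

theorem real_span {ι : Type} [Fintype ι] {R : Submodule ℚ (ι → ℚ)} {P : Matrix ι ι ℚ}
    (h2 : ∀ v, P.mulVec v ∈ R) {v : ι → ℝ} (hv : ∀ i, ∑ j, (P i j : ℝ) * v j = v i) :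
    v ∈ Submodule.span ℝ {v : ι → ℝ | ∃ u ∈ R, v = fun i => (u i : ℝ)} := by
  classical
  have : v = ∑ j, v j • (fun i => ((P.mulVec (Pi.single j 1) i : ℚ) : ℝ)) := by
    funext i
    rw [Finset.sum_apply, ← hv i]
    refine Finset.sum_congr rfl fun j _ => ?_
    simp only [Pi.smul_apply, smul_eq_mul, Matrix.mulVec_single, MulOpposite.op_one, one_smul,
      Matrix.col_apply]
    ring
  rw [this]
  exact Submodule.sum_mem _ fun j _ => Submodule.smul_mem _ _ (Submodule.subset_span ⟨_, h2 _, rfl⟩)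

theorem sub_stable (hTP : SpecTP) (hG : A.td.Good) (hA : A.IsAbVar K) {c : GL (Ix g) ℂ}
    (hc : c.1 = A.per) (WB : Submodule ℚ (Ix g → ℚ))
    (hW : DefQbar ((spanC WB).comap c.1.mulVecLin)) (w : Ix g → ℚ) (hw : w ∈ WB) :
    JM A.lat hA.lat_indep *ᵥ (fun i => (w i : ℝ)) ∈
      Submodule.span ℝ {v : Ix g → ℝ | ∃ u ∈ WB, v = fun i => (u i : ℝ)} := by
  set J := JM A.lat hA.lat_indep with hJ
  have hcinv : c.1 * c⁻¹.1 = 1 := by rw [← Units.val_mul, mul_inv_cancel]; rfl
  -- the orthogonal complement of `WB`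
  let R := orth WB
  have hWof : DefQbar (A.td.Wof R) := by
    obtain ⟨W₀, hW₀⟩ := TPM.DefQbar.eq_spanC hW
    have h1 : A.td.Wof R = spanC (orth W₀) := by
      ext u
      rw [Wof_eq hc, mem_orthC, ← hW₀]
      constructor
      · rintro ⟨x, hx, rfl⟩ v hv
        have h2 := (mem_orthC WB x).1 hx _ hv
        have h3 : ∑ j, (x ᵥ* c.1) j * v j = x ⬝ᵥ (c.1 *ᵥ v) := by
          rw [Matrix.dotProduct_mulVec]
          rfl
        rw [h3]
        exact h2
      · intro h
        refine ⟨u ᵥ* c⁻¹.1, (mem_orthC WB _).2 fun v hv => ?_, ?_⟩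
        · have h2 := h (c⁻¹.1 *ᵥ v) (by
            rw [Submodule.mem_comap, Matrix.mulVecLin_apply, Matrix.mulVec_mulVec, hcinv,
              Matrix.one_mulVec]
            exact hv)
          have h3 : ∑ j, (u ᵥ* c⁻¹.1) j * v j = u ⬝ᵥ (c⁻¹.1 *ᵥ v) := by
            rw [Matrix.dotProduct_mulVec]
            rfl
          rw [h3]
          exact h2
        · rw [Matrix.vecMul_vecMul, ← Units.val_mul, inv_mul_cancel]
          simp
    rw [h1]
    exact defQbar_spanC _
  have hT := hTP A.td hG R hWof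
  -- `R_ℝ J ⊆ R_ℝ`, and `R_ℝ` is orthogonal to `WB`
  have hperp : ∀ x ∈ R, ∀ w ∈ WB, ((fun i => (x i : ℝ)) ᵥ* J) ⬝ᵥ (fun i => (w i : ℝ)) = 0 := by
    intro x hx w hw
    have h1 : (∑ a, (x a : ℂ) • A.td.lat a) ∈ A.td.Lof R := Submodule.subset_span ⟨x, hx, rfl⟩
    have h2 := hT _ h1
    -- elements of `Lof R` are `L(y)` with `y ⊥ WB`
    have h3 : ∀ v ∈ A.td.Lof R, ∃ y : Ix g → ℝ, v = ∑ a, (y a : ℂ) • A.lat a ∧
        ∀ w ∈ WB, y ⬝ᵥ (fun i => (w i : ℝ)) = 0 := by
      intro v hv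
      refine Submodule.span_induction (p := fun v _ => ∃ y : Ix g → ℝ,
        v = ∑ a, (y a : ℂ) • A.lat a ∧ ∀ w ∈ WB, y ⬝ᵥ (fun i => (w i : ℝ)) = 0) ?_ ?_ ?_ ?_ hv
      · rintro _ ⟨x, hx, rfl⟩
        refine ⟨fun i => (x i : ℝ), ?_, fun w hw => ?_⟩
        · refine Finset.sum_congr rfl fun a _ => ?_
          simp only [Complex.ofReal_ratCast]
          rfl
        · have := hx w hw
          simp only [dotProduct]
          exact_mod_cast this
      · exact ⟨0, by simp, fun w _ => by simp⟩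
      · rintro a b _ _ ⟨y, rfl, hy⟩ ⟨z, rfl, hz⟩
        refine ⟨y + z, ?_, fun w hw => ?_⟩
        · rw [← Finset.sum_add_distrib]
          refine Finset.sum_congr rfl fun a _ => ?_
          rw [← add_smul]
          simp
        · rw [add_dotProduct, hy w hw, hz w hw, add_zero]
      · rintro t a _ ⟨y, rfl, hy⟩
        refine ⟨t • y, ?_, fun w hw => ?_⟩
        · rw [Finset.smul_sum]
          refine Finset.sum_congr rfl fun a _ => ?_
          funext j
          simp only [Pi.smul_apply, smul_eq_mul, Complex.real_smul, Complex.ofReal_mul]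
          ring
        · rw [smul_dotProduct, hy w hw, smul_zero]
    obtain ⟨y, hy1, hy2⟩ := h3 _ h2
    have h4 : Complex.I • (∑ a, (x a : ℂ) • A.td.lat a) =
        ∑ b, ((((fun i => (x i : ℝ)) ᵥ* J) b : ℝ) : ℂ) • A.lat b := by
      rw [hJ, JM_row]
      congr 1
    rw [h4] at hy1
    rw [ind_real hA.lat_indep hy1]
    exact hy2 w hw
  obtain ⟨P, h1, h2⟩ := TPM.exists_proj WB
  refine real_span h2 fun i => ?_
  -- the rows of `1 - P` are in `R`
  have hrow : (fun j => (1 - P) i j) ∈ R := by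
    intro w hw
    have h3 : ∑ j, (1 - P) i j * w j = ((1 - P).mulVec w) i := rfl
    rw [h3, Matrix.sub_mulVec, Matrix.one_mulVec, h1 w hw, sub_self]
    rfl
  have h3 := hperp _ hrow w hw
  rw [← Matrix.dotProduct_mulVec] at h3
  have h4 : (fun j => (((1 - P) i j : ℚ) : ℝ)) ⬝ᵥ (J *ᵥ fun i => (w i : ℝ)) =
      (J *ᵥ fun i => (w i : ℝ)) i - ∑ j, (P i j : ℝ) * (J *ᵥ fun i => (w i : ℝ)) j := by
    simp only [dotProduct, Matrix.sub_apply, Rat.cast_sub, sub_mul, Finset.sum_sub_distrib]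
    congr 1
    rw [Finset.sum_eq_single i]
    · simp
    · intro b _ hb
      simp [Matrix.one_apply_ne hb.symm]
    · intro hi
      exact absurd (Finset.mem_univ i) hi
  rw [h4] at h3
  linarith

end Sub

/-! ### Endomorphisms -/

section Endo

variable {g N : ℕ} {K : IntermediateField ℚ ℂ} {A : AbData g N}

/-- the vectors of the square of the universal extension -/
def emb (g : ℕ) : ((Ix g → ℂ) × (Ix g → ℂ)) →ₗ[ℂ] ((Fin g ⊕ Fin g) ⊕ (Fin g ⊕ Fin g) → ℂ) where
  toFun p := Sum.elim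
    (Sum.elim (fun j => p.1 (Sum.inl j)) fun j => p.2 (Sum.inl j))
    (Sum.elim (fun t => p.1 (Sum.inr t)) fun t => p.2 (Sum.inr t))
  map_add' p q := by
    funext x
    rcases x with (x | x) | (x | x) <;> rfl
  map_smul' t p := by
    funext x
    rcases x with (x | x) | (x | x) <;> rfl

theorem lam2 {c : GL (Ix g) ℂ} (hc : c.1 = A.per) (x : Ix g ⊕ Ix g → ℂ) :
    ∑ a, x a • (A.td.prod A.td).lam a =
      emb g ((fun a => x (Sum.inl a)) ᵥ* c.1, (fun a => x (Sum.inr a)) ᵥ* c.1) := by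
  rw [Fintype.sum_sum_type]
  have hl : ∀ a i, c.1 a i = A.per a i := fun a i => by rw [hc]
  funext j
  simp only [Pi.add_apply, Finset.sum_apply, Pi.smul_apply, smul_eq_mul]
  rcases j with (j | j) | (j | j)
  · simp [TD.lam, TD.prod, emb, Matrix.vecMul, dotProduct, hl, AbData.per, AbData.td]
  · simp [TD.lam, TD.prod, emb, Matrix.vecMul, dotProduct, hl, AbData.per, AbData.td]
  · simp [TD.lam, TD.prod, emb, Matrix.vecMul, dotProduct, hl, AbData.per, AbData.td]
  · simp [TD.lam, TD.prod, emb, Matrix.vecMul, dotProduct, hl, AbData.per, AbData.td]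

/-- the graph of `B` -/
def gr (B : Matrix (Ix g) (Ix g) ℚ) : Submodule ℚ (Ix g ⊕ Ix g → ℚ) where
  carrier := {x | (fun b => x (Sum.inr b)) = (fun a => x (Sum.inl a)) ᵥ* B}
  add_mem' := fun {x y} hx hy => by
    have hx' : (fun b => x (Sum.inr b)) = (fun a => x (Sum.inl a)) ᵥ* B := hx
    have hy' : (fun b => y (Sum.inr b)) = (fun a => y (Sum.inl a)) ᵥ* B := hy
    change (fun b => x (Sum.inr b)) + (fun b => y (Sum.inr b)) =
      ((fun a => x (Sum.inl a)) + fun a => y (Sum.inl a)) ᵥ* B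
    rw [hx', hy', Matrix.add_vecMul]
  zero_mem' := by
    change (0 : Ix g → ℚ) = (0 : Ix g → ℚ) ᵥ* B
    rw [Matrix.zero_vecMul]
  smul_mem' := fun t x hx => by
    have hx' : (fun b => x (Sum.inr b)) = (fun a => x (Sum.inl a)) ᵥ* B := hx
    change t • (fun b => x (Sum.inr b)) = (t • fun a => x (Sum.inl a)) ᵥ* B
    rw [hx', Matrix.smul_vecMul]

/-- the basic elements of the graph -/
theorem gr_row (B : Matrix (Ix g) (Ix g) ℚ) (a : Ix g) :
    Sum.elim (Pi.single a 1) (B a) ∈ gr B := by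
  change (fun b => B a b) = (fun a' => Pi.single (M := fun _ => ℚ) a 1 a') ᵥ* B
  rw [show (fun a' => Pi.single (M := fun _ => ℚ) a 1 a') = Pi.single a 1 from rfl,
    Matrix.single_one_vecMul]
  rfl

theorem graph_def {c : GL (Ix g) ℂ} (hc : c.1 = A.per) {B : Matrix (Ix g) (Ix g) ℚ}
    {B' : Matrix (Ix g) (Ix g) ℂ} (hB' : IsAlg B') (h : c.1 * B' = mC B * c.1) :
    DefQbar ((A.td.prod A.td).Wof (gr B)) := by
  have hcinv : c⁻¹.1 * c.1 = 1 := by rw [← Units.val_mul, inv_mul_cancel]; rfl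
  let Γ : (Ix g → ℂ) →ₗ[ℂ] ((Fin g ⊕ Fin g) ⊕ (Fin g ⊕ Fin g) → ℂ) :=
    emb g ∘ₗ (LinearMap.prod LinearMap.id B'.vecMulLinear)
  have hΓ : ∀ u, Γ u = emb g (u, u ᵥ* B') := fun _ => rfl
  have hgen : ∀ x ∈ gr B, ∑ a, ((x a : ℚ) : ℂ) • (A.td.prod A.td).lam a =
      Γ ((fun a => ((x (Sum.inl a) : ℚ) : ℂ)) ᵥ* c.1) := by
    intro x hx
    have hx' : (fun b => x (Sum.inr b)) = (fun a => x (Sum.inl a)) ᵥ* B := hx
    rw [lam2 hc (fun a => ((x a : ℚ) : ℂ)), hΓ]
    congr 2
    rw [Matrix.vecMul_vecMul, h, ← Matrix.vecMul_vecMul]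
    congr 1
    funext b
    have := congrArg (fun q : ℚ => (q : ℂ)) (congrFun hx' b)
    simp only [Matrix.vecMul, dotProduct] at this ⊢
    push_cast at this
    exact this
  have hrow : ∀ a, Γ (c.1 a) ∈ (A.td.prod A.td).Wof (gr B) := by
    intro a
    refine Submodule.subset_span ⟨_, gr_row B a, ?_⟩
    rw [hgen _ (gr_row B a)]
    congr 1
    have : (fun a' => (((Sum.elim (Pi.single a 1) (B a) : Ix g ⊕ Ix g → ℚ) (Sum.inl a') : ℚ) : ℂ)) =
        Pi.single a 1 := by
      funext a'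
      by_cases ha : a' = a
      · subst ha; simp
      · simp [Pi.single_eq_of_ne ha]
    rw [this, Matrix.single_one_vecMul]
    rfl
  have hall : ∀ u, Γ u ∈ (A.td.prod A.td).Wof (gr B) := by
    intro u
    have h1 : u = ∑ a, (u ᵥ* c⁻¹.1) a • c.1 a := by
      have h2 : (u ᵥ* c⁻¹.1) ᵥ* c.1 = u := by
        rw [Matrix.vecMul_vecMul, hcinv]; simp
      conv_lhs => rw [← h2]
      funext i
      simp only [Matrix.vecMul, dotProduct, Finset.sum_apply, Pi.smul_apply, smul_eq_mul]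
    rw [h1, map_sum]
    exact Submodule.sum_mem _ fun a _ => by
      rw [map_smul]
      exact Submodule.smul_mem _ _ (hrow a)
  refine le_antisymm ?_ (Submodule.span_le.2 fun w hw => hw.1)
  refine Submodule.span_le.2 ?_
  rintro _ ⟨x, hx, rfl⟩
  rw [SetLike.mem_coe, hgen x hx]
  generalize ((fun a => ((x (Sum.inl a) : ℚ) : ℂ)) ᵥ* c.1) = u
  have h1 : Γ u = ∑ i, u i • Γ (Pi.single i 1) := by
    conv_lhs => rw [pi_eq_sum_univ' u]
    rw [map_sum]
    refine Finset.sum_congr rfl fun i _ => ?_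
    rw [map_smul]
  rw [h1]
  refine Submodule.sum_mem _ fun i _ => Submodule.smul_mem _ _ (Submodule.subset_span
    ⟨hall _, fun j => ?_⟩)
  rw [hΓ, Matrix.single_one_vecMul]
  rcases j with (j | j) | (j | j)
  · change (Pi.single (M := fun _ => ℂ) i 1) (Sum.inl j) ∈ Qbar
    rw [Pi.single_apply]
    split_ifs
    · exact Qbar.one_mem
    · exact Qbar.zero_mem
  · exact hB' _ _
  · change (Pi.single (M := fun _ => ℂ) i 1) (Sum.inr j) ∈ Qbar
    rw [Pi.single_apply]
    split_ifs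
    · exact Qbar.one_mem
    · exact Qbar.zero_mem
  · exact hB' _ _

theorem endo_comm (hTP : SpecTP) (hPROD : SpecPROD) (hG : A.td.Good) (hA : A.IsAbVar K)
    {c : GL (Ix g) ℂ} (hc : c.1 = A.per) {B : Matrix (Ix g) (Ix g) ℚ} (hB : B ∈ EndAlg c.1) :
    JM A.lat hA.lat_indep * mR B = mR B * JM A.lat hA.lat_indep := by
  set J := JM A.lat hA.lat_indep with hJ
  obtain ⟨B', hB', h⟩ := hB
  have hT := hTP (A.td.prod A.td) (hPROD _ _ hG hG) (gr B) (graph_def hc hB' h)
  -- description of `Lof`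
  have hLof : ∀ v ∈ (A.td.prod A.td).Lof (gr B), ∃ y : Ix g → ℝ,
      v = Sum.elim (∑ a, (y a : ℂ) • A.lat a) (∑ a, ((y ᵥ* mR B) a : ℂ) • A.lat a) := by
    intro v hv
    refine Submodule.span_induction (p := fun v _ => ∃ y : Ix g → ℝ,
      v = Sum.elim (∑ a, (y a : ℂ) • A.lat a) (∑ a, ((y ᵥ* mR B) a : ℂ) • A.lat a)) ?_ ?_ ?_ ?_ hv
    · rintro _ ⟨x, hx, rfl⟩
      have hx' : (fun b => x (Sum.inr b)) = (fun a => x (Sum.inl a)) ᵥ* B := hx
      refine ⟨fun a => ((x (Sum.inl a) : ℚ) : ℝ), ?_⟩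
      have hx2 : ∀ b, ((x (Sum.inr b) : ℚ) : ℂ) =
          ((((fun a => ((x (Sum.inl a) : ℚ) : ℝ)) ᵥ* mR B) b : ℝ) : ℂ) := by
        intro b
        have := congrArg (fun q : ℚ => (q : ℂ)) (congrFun hx' b)
        simp only [Matrix.vecMul, dotProduct] at this ⊢
        push_cast at this ⊢
        exact this
      rw [Fintype.sum_sum_type]
      funext j
      simp only [Pi.add_apply, Finset.sum_apply, Pi.smul_apply, smul_eq_mul]
      rcases j with j | j
      · simp [TD.prod, AbData.td]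
      · simp only [← hx2]
        simp [TD.prod, AbData.td]
    · refine ⟨0, ?_⟩
      funext j
      rcases j with j | j <;> simp
    · rintro a b _ _ ⟨y, rfl⟩ ⟨z, rfl⟩
      refine ⟨y + z, ?_⟩
      rw [Matrix.add_vecMul]
      funext j
      rcases j with j | j
      · simp [add_mul, Finset.sum_add_distrib]
        ring
      · simp [add_mul, Finset.sum_add_distrib]
        ring
    · rintro t a _ ⟨y, rfl⟩
      refine ⟨t • y, ?_⟩
      rw [Matrix.smul_vecMul]
      funext j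
      rcases j with j | j
      · simp [Finset.mul_sum, mul_assoc]
      · simp [Finset.mul_sum, mul_assoc]
  ext a b
  have h1 : (∑ x, (((Sum.elim (Pi.single a 1) (B a) : Ix g ⊕ Ix g → ℚ) x : ℚ) : ℂ) •
      (A.td.prod A.td).lat x) ∈ (A.td.prod A.td).Lof (gr B) :=
    Submodule.subset_span ⟨_, gr_row B a, rfl⟩
  obtain ⟨y, hy⟩ := hLof _ (hT _ h1)
  have h2 : (∑ x, (((Sum.elim (Pi.single a 1) (B a) : Ix g ⊕ Ix g → ℚ) x : ℚ) : ℂ) •
      (A.td.prod A.td).lat x) = Sum.elim (A.lat a) (∑ b, ((mR B a b : ℝ) : ℂ) • A.lat b) := by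
    rw [Fintype.sum_sum_type]
    funext j
    simp only [Pi.add_apply, Finset.sum_apply, Pi.smul_apply, smul_eq_mul]
    rcases j with j | j
    · rw [Finset.sum_eq_single a]
      · simp [TD.prod, AbData.td]
      · intro b _ hb
        simp [Pi.single_eq_of_ne hb]
      · intro ha
        exact absurd (Finset.mem_univ a) ha
    · simp [TD.prod, AbData.td]
  rw [h2] at hy
  have hy1 : Complex.I • A.lat a = ∑ a, (y a : ℂ) • A.lat a := by
    funext j
    exact congrFun hy (Sum.inl j)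
  have hy2 : Complex.I • (∑ b, ((mR B a b : ℝ) : ℂ) • A.lat b) =
      ∑ a, ((y ᵥ* mR B) a : ℂ) • A.lat a := by
    funext j
    exact congrFun hy (Sum.inr j)
  rw [← JM_spec A.lat hA.lat_indep a] at hy1
  have hy3 := ind_real hA.lat_indep hy1
  rw [← JM_row A.lat hA.lat_indep] at hy2
  have hy4 := ind_real hA.lat_indep hy2
  have hy5 := congrFun hy4 b
  rw [← hy3] at hy5
  exact hy5.symm

theorem isEndo_of_comm (hA : A.IsAbVar K) {B : Matrix (Ix g) (Ix g) ℚ}
    (h : JM A.lat hA.lat_indep * mR B = mR B * JM A.lat hA.lat_indep) : A.IsEndo B := by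
  let b := bas A.lat hA.lat_indep
  have hb : ∀ a, b a = A.lat a := bas_apply A.lat hA.lat_indep
  let α : (Fin g → ℂ) →ₗ[ℝ] (Fin g → ℂ) :=
    b.constr ℝ fun a => ∑ b, ((mR B a b : ℝ) : ℂ) • A.lat b
  have hα : ∀ a, α (A.lat a) = ∑ b, ((mR B a b : ℝ) : ℂ) • A.lat b := by
    intro a
    rw [← hb a]
    exact b.constr_basis ℝ _ a
  have hI : ∀ v, α (Complex.I • v) = Complex.I • α v := by
    have hlin : (α ∘ₗ ((LinearMap.lsmul ℂ (Fin g → ℂ) Complex.I).restrictScalars ℝ)) =
        ((LinearMap.lsmul ℂ (Fin g → ℂ) Complex.I).restrictScalars ℝ) ∘ₗ α := by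
      refine b.ext fun a => ?_
      simp only [LinearMap.comp_apply, LinearMap.restrictScalars_apply, LinearMap.lsmul_apply, hb]
      rw [hα, ← JM_row A.lat hA.lat_indep, ← JM_spec A.lat hA.lat_indep a]
      have h1 : α (∑ b, ((JM A.lat hA.lat_indep a b : ℝ) : ℂ) • A.lat b) =
          ∑ c, (((JM A.lat hA.lat_indep * mR B) a c : ℝ) : ℂ) • A.lat c := by
        simp only [real_smul, map_sum, map_smul, hα]
        simp only [Finset.smul_sum, smul_smul]
        rw [Finset.sum_comm]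
        refine Finset.sum_congr rfl fun c _ => ?_
        rw [← Finset.sum_smul]
        rfl
      rw [h1, h]
      rfl
    intro v
    exact congrArg (fun f => f v) hlin
  refine ⟨{ toFun := α, map_add' := α.map_add, map_smul' := fun t v => ?_ }, fun l => ?_⟩
  · have h1 : t • v = t.re • v + t.im • (Complex.I • v) := by
      funext j
      simp only [Pi.smul_apply, Pi.add_apply, smul_eq_mul, Complex.real_smul]
      conv_lhs => rw [← Complex.re_add_im t]
      ring
    have h2 : t • α v = t.re • α v + t.im • (Complex.I • α v) := by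
      funext j
      simp only [Pi.smul_apply, Pi.add_apply, smul_eq_mul, Complex.real_smul]
      conv_lhs => rw [← Complex.re_add_im t]
      ring
    rw [h1, map_add, map_smul, map_smul, hI, RingHom.id_apply, h2]
  · change α (A.lat l) = _
    rw [hα]
    refine Finset.sum_congr rfl fun b _ => ?_
    simp

end Endo

end HDAM

open HDAM

theorem specHDA (hTP : SpecTP) (hPROD : SpecPROD) (hGROW : SpecGROW) (hLEG : SpecLEG) :
    SpecHDA := by
  intro K g N A c hK hA hc
  have hG := hGROW K g N A c hK hA hc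
  obtain ⟨ψdR, hdet, hmult⟩ := hLEG K g N A c hK hA hc
  set ψ : Matrix (Ix g) (Ix g) ℚ := (A.E.map (fun x => (x : ℚ)))⁻¹ with hψ
  set J := JM A.lat hA.lat_indep with hJ
  have hEdet : IsUnit (A.E.map (fun x => (x : ℚ))).det := by
    rw [isUnit_iff_ne_zero]
    intro h0
    apply hdet
    rw [hψ, Matrix.det_nonsing_inv, h0, Ring.inverse_zero]
  have hER : (A.E.map (fun x => (x : ℚ))).map (fun x => (x : ℝ)) = ER A := by
    ext i j
    simp [ER]
  have hERdet : IsUnit (ER A).det := by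
    rw [← hER]
    have : ((A.E.map (fun x => (x : ℚ))).map (fun x => (x : ℝ))).det =
        (((A.E.map (fun x => (x : ℚ))).det : ℚ) : ℝ) := ((Rat.castHom ℝ).map_det _).symm
    rw [this, isUnit_iff_ne_zero]
    exact_mod_cast hEdet.ne_zero
  have hψR : mR ψ = (ER A)⁻¹ := by
    have h1 : mR ψ * ER A = 1 := by
      rw [← hER]
      have h2 : mR ψ * (A.E.map (fun x => (x : ℚ))).map (fun x => (x : ℝ)) =
          (ψ * A.E.map (fun x => (x : ℚ))).map (fun x => (x : ℝ)) :=
        (Matrix.map_mul (f := (Rat.castHom ℝ)) (L := ψ) (M := A.E.map (fun x => (x : ℚ)))).symm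
      rw [h2, hψ, Matrix.nonsing_inv_mul _ hEdet]
      ext i j
      by_cases hij : i = j
      · subst hij; simp
      · simp [Matrix.one_apply_ne hij]
    exact Matrix.left_inv_eq_left_inv h1 (Matrix.nonsing_inv_mul _ hERdet)
  have hJsq : J * J = -1 := JM_sq A.lat hA.lat_indep
  have hEJ : J * ER A * Jᵀ = ER A := E_J hA
  have hskewR := ER_skew hA
  have hcomm : ∀ B ∈ EndAlg c.1, J * mR B = mR B * J := fun B hB =>
    endo_comm hTP hPROD hG hA hc hB
  refine ⟨⟨J, hJsq, ?_, hdet, ?_, ?_, ?_, ?_, hcomm⟩, fun B hB => isEndo_of_comm hA (hcomm B hB)⟩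
  · -- skew
    rw [hψ, Matrix.transpose_nonsing_inv]
    have h1 : (A.E.map (fun x => (x : ℚ)))ᵀ = -(A.E.map (fun x => (x : ℚ))) := by
      ext i j
      have := congrFun (congrFun (E_skew hA) i) j
      simp only [Matrix.transpose_apply, Matrix.neg_apply] at this
      simp [this]
    rw [h1]
    refine Matrix.inv_eq_left_inv ?_
    rw [neg_mul_neg, Matrix.nonsing_inv_mul _ hEdet]
  · -- J_orth
    rw [hψR]
    have h1 : (Jᵀ * (ER A)⁻¹ * J) * ER A = 1 := by
      have h2 : J * ER A = -(ER A * Jᵀ) := by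
        have h3 := congrArg (fun M => M * Jᵀ) hEJ
        have h4 : Jᵀ * Jᵀ = -1 := by
          rw [← Matrix.transpose_mul, hJsq, Matrix.transpose_neg, Matrix.transpose_one]
        simp only [mul_assoc, h4, mul_neg, mul_one] at h3
        rw [← h3, neg_neg]
      rw [mul_assoc, h2, mul_neg, mul_assoc, ← mul_assoc (ER A)⁻¹,
        Matrix.nonsing_inv_mul _ hERdet, one_mul, ← Matrix.transpose_mul, hJsq,
        Matrix.transpose_neg, Matrix.transpose_one, neg_neg]
    exact (Matrix.left_inv_eq_left_inv h1 (Matrix.nonsing_inv_mul _ hERdet))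
  · -- pos
    intro v hv
    rw [hψR]
    set y : Ix g → ℝ := (ER A)⁻¹ *ᵥ v with hy
    have hvy : v = ER A *ᵥ y := by
      rw [hy, Matrix.mulVec_mulVec, Matrix.mul_nonsing_inv _ hERdet, Matrix.one_mulVec]
    have hy0 : y ≠ 0 := by
      intro h0
      apply hv
      rw [hvy, h0, Matrix.mulVec_zero]
    have h1 := pos_E hA y hy0
    have h2 : v ⬝ᵥ (((ER A)⁻¹ * J) *ᵥ v) = -(y ⬝ᵥ ((J * ER A) *ᵥ y)) := by
      rw [hvy]
      rw [Matrix.dotProduct_mulVec, ← Matrix.mulVec_transpose, Matrix.mulVec_mulVec]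
      rw [Matrix.transpose_mul, Matrix.transpose_nonsing_inv, hskewR]
      have h3 : (-ER A)⁻¹ = -(ER A)⁻¹ := by
        refine Matrix.inv_eq_left_inv ?_
        rw [neg_mul_neg, Matrix.nonsing_inv_mul _ hERdet]
      rw [h3, mul_assoc, neg_mul, Matrix.nonsing_inv_mul _ hERdet, mul_neg, mul_one,
        Matrix.neg_mulVec, neg_dotProduct, Matrix.mulVec_transpose, ← Matrix.dotProduct_mulVec,
        Matrix.mulVec_mulVec]
    have h4 : y ⬝ᵥ (ER A *ᵥ (y ᵥ* J)) = -(y ⬝ᵥ ((J * ER A) *ᵥ y)) := by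
      rw [Matrix.dotProduct_mulVec, ← Matrix.mulVec_transpose, hskewR, Matrix.neg_mulVec,
        neg_dotProduct, dotProduct_comm, ← Matrix.dotProduct_mulVec, Matrix.mulVec_mulVec]
    rw [h2, ← h4]
    exact h1
  · -- leg
    refine ⟨ψdR.map (fun a => (a : ℂ)), fun i j => hK (ψdR i j).2, ?_⟩
    have h1 := hmult
    rw [Mult, zpow_one] at h1
    exact h1
  · -- sub
    intro WB hW w hw
    exact sub_stable hTP hG hA hc WB hW w hw

end Pool.Agent.Lib.MPf11a48.U
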