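import Pool.Agent.Lib.MP_f11a48_ag.U.Statement
import Pool.Agent.Lib.MP_f11a48_ag.helper16.Defs3
import Pool.Agent.Lib.MP_f11a48_ag.helper4.Defs

/-!
# MP_f11a48_ag, project U: further definitions for the final theorem
-/

set_option autoImplicit false

open Matrix MvPolynomial Pool.Agent.Lib.MPf11a48.CM Pool.Agent.Lib.MPf11a48.GL2T

namespace Pool.Agent.Lib.MPf11a48.U

/-- The polarisation, as an alternating form on `H^1(A, ℚ)` (in the dual basis of `lat`). -/
noncomputable def AbData.psi {g N : ℕ} (A : AbData g N) : Matrix (Ix g) (Ix g) ℚ :=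
  (A.E.map (fun x => (x : ℚ)))⁻¹

section Defs

variable {ι : Type} [Fintype ι] [DecidableEq ι]

/-- The subfield of `Qbar` generated by the values of an embedding of the centre: a simple factor
of the centre. -/
noncomputable def FieldOf {c : Matrix ι ι ℂ} (s : EmbC c) : IntermediateField ℚ Qbar :=
  IntermediateField.adjoin ℚ (Set.range s)

/-- Its Galois closure. -/
noncomputable def GalOf {c : Matrix ι ι ℂ} (s : EmbC c) : IntermediateField ℚ Qbar :=
  IntermediateField.adjoin ℚ {x | ∃ (γ : Qbar ≃ₐ[ℚ] Qbar) (z : CenAlg c), x = γ (s z)}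

/-- All elements of `F` are real. -/
def RealField (F : IntermediateField ℚ Qbar) : Prop :=
  ∀ x ∈ F, (starRingEnd ℂ) ((x : Qbar) : ℂ) = ((x : Qbar) : ℂ)

/-- Every simple factor of the centre is totally real or `Listed`, and for two different factors
which are not totally real the intersection of the Galois closures is a real field. -/
def ListedCentre (c : Matrix ι ι ℂ) : Prop :=
  (∀ s : EmbC c, RealField (FieldOf s) ∨ ∃ _ : NumberField (FieldOf s), Listed (FieldOf s)) ∧
  ∀ s t : EmbC c, RealField (FieldOf s) ∨ RealField (FieldOf t) ∨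
    (∃ γ : Qbar ≃ₐ[ℚ] Qbar, t = γ.toAlgHom.comp s) ∨ RealField (GalOf s ⊓ GalOf t)

/-- The endomorphisms over `Qbar` are defined over `K`. -/
def EndOver (K : IntermediateField ℚ ℂ) (c : Matrix ι ι ℂ) : Prop :=
  ∀ B ∈ EndAlg c, ∃ B' : Matrix ι ι K, c * B'.map (fun x => (x : ℂ)) = B.map (fun x => (x : ℂ)) * c

/-- The classes over `K` whose Betti part is in a tensor power of the algebra of endomorphisms
over `Qbar`. -/
def endTensors (K : IntermediateField ℚ ℂ) (c : GL ι ℂ) : Set (TPair K ι) :=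
  {α | Fixes c α ∧ ∃ (n : ℕ) (dR : TIdx ι n n → K) (B : TIdx ι n n → ℚ), α = ⟨n, n, dR, B⟩ ∧
    B ∈ Submodule.span ℚ {t | ∃ β : Fin n → Matrix ι ι ℚ, (∀ k, β k ∈ EndAlg c.1) ∧
      t = fun J => ∏ k, β k (J.1 k) (J.2 k)}}

end Defs

end Pool.Agent.Lib.MPf11a48.U
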