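import Pool.Agent.Lib.MP_f11a48_ag.U.SpecR
import Pool.Agent.Lib.MP_f11a48_ag.U.StatementL

/-!
# MP_f11a48_ag, project U: Galois descent for endomorphisms (ART), specifications

An automorphism `τ` of `ℂ` over `K` transforms the de Rham matrix `B'` of an endomorphism of `A`
over `Qbar` into the de Rham matrix of an endomorphism (modules GREL CONJ ORB GAL). Hence points
of `Ω_S` have conjugates compatible with all endomorphisms, as soon as `S` contains all classes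
over `K` in the tensor powers of the algebra of endomorphisms (module ART).
-/

set_option autoImplicit false

open Matrix MvPolynomial Pool.Agent.Lib.MPf11a48.CM Pool.Agent.Lib.MPf11a48.GL2T

namespace Pool.Agent.Lib.MPf11a48.U

section

variable {ι : Type} [Fintype ι] [DecidableEq ι]

/-- The conjugates over `K` of (de Rham matrices of) endomorphisms over `Qbar` are
endomorphisms. -/
def GalStable (K : IntermediateField ℚ ℂ) (c : GL ι ℂ) : Prop :=
  ∀ τ : ℂ ≃+* ℂ, (∀ a ∈ K, τ a = a) → ∀ (B : Matrix ι ι ℚ) (B' : Matrix ι ι ℂ), IsAlg B' →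
    c.1 * B' = mC B * c.1 → ∃ B₂ : Matrix ι ι ℚ, c.1 * B'.map τ = mC B₂ * c.1

end

/-- Module ART. Proof: let `e_1, …, e_r` be a `ℚ`-basis of `EndAlg c` with de Rham matrices
`e'_i`, `Γ` the (finite) group of automorphisms of the `ℚ`-algebra of all `e'` induced by the `τ`.
For all `i_1, …, i_n` the tensor `∑_γ ⊗_j γ(e_{i_j})` is in `endTensors`, so
`∑_γ ⊗_j f γ(e'_{i_j}) f⁻¹ = ∑_γ ⊗_j c γ(e'_{i_j}) c⁻¹`. So for all polynomials `p` in the entries of an
`r`-tuple of matrices, `∑_γ p(X_γ) = ∑_γ p(Y_γ)`, with `X_γ = (f γ(e'_i) f⁻¹)_i`,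
`Y_γ = (c γ(e'_i) c⁻¹)_i`. Hence `X_1` is one of the `Y_γ`: there is `τ` with
`f B' f⁻¹ = c τ(B') c⁻¹` for all `B'`; take for `f'` the conjugate of `f` by `τ`. -/
def SpecART : Prop :=
  ∀ {ι : Type} [Fintype ι] [DecidableEq ι] (K : IntermediateField ℚ ℂ) (c : GL ι ℂ), K ≤ Qbar →
    GalStable K c → ∀ S : Set (TPair K ι), endTensors K c ⊆ S →
      ∀ f ∈ OmegaS S, ∃ f', Conj K f f' ∧ Compat c.1 f'.1

/-- Module GAL (assembly of GREL CONJ ORB, with endomorphisms from HDA). -/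
def SpecGAL : Prop :=
  ∀ (K : IntermediateField ℚ ℂ) (g N : ℕ) (A : AbData g N) (c : GL (Ix g) ℂ), K ≤ Qbar →
    A.IsAbVar K → c.1 = A.per → GalStable K c

/-- `f_j(z P)` -/
noncomputable def AbData.fP {g N : ℕ} (A : AbData g N) (P : Matrix (Fin g) (Fin g) ℂ)
    (j : Fin (N + 1)) (z : Fin g → ℂ) : ℂ := A.f j (z ᵥ* P)

/-- `Z_t(z P) - z Q_t - ∑_s Z_s(z) S_{s t}` -/
noncomputable def AbData.gP {g N : ℕ} (A : AbData g N) (P Q S : Matrix (Fin g) (Fin g) ℂ)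
    (t : Fin g) (z : Fin g → ℂ) : ℂ :=
  A.zt t (z ᵥ* P) - (z ᵥ* Q) t - ((fun s => A.zt s z) ᵥ* S) t

/-- The polynomial `p` is a relation between `F` and the functions `f_{s_1}, …, f_{s_g}`. -/
def AbData.Rel {g N : ℕ} (A : AbData g N) (P : Matrix (Fin g) (Fin g) ℂ)
    (s : Fin g → Fin (N + 1)) (F : (Fin g → ℂ) → ℂ) (p : MvPolynomial (Option (Fin g)) ℂ) : Prop :=
  ∀ z, A.th 0 z ≠ 0 → A.th 0 (z ᵥ* P) ≠ 0 →
    eval (fun k => Option.elim k (F z) fun k => A.f (s k) z) p = 0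

/-- Module GREL: from `SpecREL` for `A.td.prod A.td` and the graph of the endomorphism
(`HDAM.gr`, `HDAM.graph_def` in `Hda.lean`), with `s k ↦ (s k, 0)` and `(0, j)`, resp. the linear form
`∑ c_t x_t` with `c = (-S_{·t}, e_t)` and `ℓ(z, w) = (z Q)_t`. -/
def SpecGREL : Prop :=
  ∀ (K : IntermediateField ℚ ℂ) (g N : ℕ) (A : AbData g N) (c : GL (Ix g) ℂ), K ≤ Qbar →
    A.IsAbVar K → c.1 = A.per → ∀ (B : Matrix (Ix g) (Ix g) ℚ) (P Q S : Matrix (Fin g) (Fin g) ℂ),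
    IsAlg P → IsAlg Q → IsAlg S → c.1 * Matrix.fromBlocks P Q 0 S = mC B * c.1 →
    ∀ s : Fin g → Fin (N + 1),
      (∀ j, ∃ p : MvPolynomial (Option (Fin g)) ℂ, p ≠ 0 ∧ (∀ m, p.coeff m ∈ Qbar) ∧
        A.Rel P s (A.fP P j) p) ∧
      ∀ t, ∃ p : MvPolynomial (Option (Fin g)) ℂ, p ≠ 0 ∧ (∀ m, p.coeff m ∈ Qbar) ∧
        A.Rel P s (A.gP P Q S t) p

/-- Module CONJ: conjugation of relations (the Taylor coefficients at `0` of `f_i(z)`, `f_j(z P)` are
given by universal polynomials over `K` in the `f_i(0)` and the entries of `P`; a function on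
`θ_0(z) θ_0(z P) ≠ 0` which vanishes near `0` vanishes). -/
def SpecCONJ : Prop :=
  ∀ (K : IntermediateField ℚ ℂ) (g N : ℕ) (A : AbData g N), A.IsAbVar K →
    ∀ τ : ℂ ≃+* ℂ, (∀ a ∈ K, τ a = a) → ∀ (P Q S : Matrix (Fin g) (Fin g) ℂ)
      (s : Fin g → Fin (N + 1)) (p : MvPolynomial (Option (Fin g)) ℂ),
      (∀ j, A.Rel P s (A.fP P j) p →
        A.Rel (P.map τ) s (A.fP (P.map τ) j) (MvPolynomial.map τ.toRingHom p)) ∧
      ∀ t, A.Rel P s (A.gP P Q S t) p →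
        A.Rel (P.map τ) s (A.gP (P.map τ) (Q.map τ) (S.map τ) t) (MvPolynomial.map τ.toRingHom p)

/-- Module ORB. The function `z ↦ f_j((z + n λ_l) P)` satisfies the same relation as `f_j(z P)` for all
`n`; a polynomial of degree `d` in the last variable has at most `d` roots; so (integral domain of
entire functions) `f_j(z P)` is periodic for `n λ_l`, some `1 ≤ n ≤ d`, and by injectivity (at
`z = 0`) `n λ_l P ∈ L`. In (2) the additive quasi-period of the function must vanish, for the same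
reason. Use `specJAC` (algebraic independence of the `f_{s_k}`). -/
def SpecORB : Prop :=
  ∀ (K : IntermediateField ℚ ℂ) (g N : ℕ) (A : AbData g N), A.IsAbVar K →
    ∀ s : Fin g → Fin (N + 1),
      (∀ b : Fin g → ℂ, (∀ v, ∑ k, b k * fderiv ℂ (A.f (s k)) 0 v = 0) → b = 0) →
      ∀ P Q S : Matrix (Fin g) (Fin g) ℂ,
        ((∀ j, ∃ p : MvPolynomial (Option (Fin g)) ℂ, p ≠ 0 ∧ A.Rel P s (A.fP P j) p) →
          ∃ n : ℕ, 0 < n ∧ ∀ l, ∃ x : Ix g → ℤ,
            (n : ℂ) • (A.lat l ᵥ* P) = ∑ l', (x l' : ℂ) • A.lat l') ∧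
        ∀ t, (∃ p : MvPolynomial (Option (Fin g)) ℂ, p ≠ 0 ∧ A.Rel P s (A.gP P Q S t) p) →
          ∀ (n : ℕ) (l : Ix g) (x : Ix g → ℤ),
            (n : ℂ) • (A.lat l ᵥ* P) = ∑ l', (x l' : ℂ) • A.lat l' →
              ∑ l', (x l' : ℂ) * A.eta l' t = n * ((A.lat l ᵥ* Q) t + (A.eta l ᵥ* S) t)

end Pool.Agent.Lib.MPf11a48.U
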