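import Pool.Agent.Lib.MP_f11a48_ag.helper92.Stmt

/-!
# MP_f11a48_ag, project U: polarised abelian varieties over `K ⊆ Qbar`, analytically

A polarised abelian variety over `K` of dimension `g`, with a projective embedding, bases of its
homology and of its de Rham cohomology, is given by functions on its tangent space `ℂ^g` at `0`
(coordinates: a `K`-basis of the invariant differentials).
-/

set_option autoImplicit false

open Matrix MvPolynomial Pool.Agent.Lib.MPf11a48.CM Pool.Agent.Lib.MPf11a48.GL2T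

namespace Pool.Agent.Lib.MPf11a48.U

/-- Indices of bases of the homology and of the de Rham cohomology of an abelian variety of
dimension `g`. -/
abbrev Ix (g : ℕ) : Type := Fin g ⊕ Fin g

/-- The data. -/
structure AbData (g N : ℕ) where
  /-- a `ℤ`-basis of the period lattice `L` -/
  lat : Ix g → (Fin g → ℂ)
  /-- the homogeneous coordinates of the projective embedding, as theta functions -/
  th : Fin (N + 1) → (Fin g → ℂ) → ℂ
  /-- linear part of the exponent of the automorphy factor -/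
  a : Ix g → (Fin g → ℂ) →ₗ[ℂ] ℂ
  /-- constant part of the exponent of the automorphy factor -/
  b : Ix g → ℂ
  /-- matrix of the Riemann form (first Chern class of the embedding) -/
  E : Matrix (Ix g) (Ix g) ℤ
  /-- pole order of the differentials of the second kind -/
  m : ℕ
  /-- numerators of the integrals of the differentials of the second kind -/
  Y : Fin g → (Fin g → ℂ) → ℂ
  /-- their quasi-periods -/
  eta : Ix g → (Fin g → ℂ)

namespace AbData

variable {g N : ℕ} (A : AbData g N)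

/-- The affine coordinates `θ_i / θ_0`. -/
noncomputable def f (i : Fin (N + 1)) (z : Fin g → ℂ) : ℂ := A.th i z / A.th 0 z

/-- The functions `Z_t = Y_t / θ_0^m`. -/
noncomputable def zt (t : Fin g) (z : Fin g → ℂ) : ℂ := A.Y t z / A.th 0 z ^ A.m

/-- The partial derivative. -/
noncomputable def pd {g : ℕ} (j : Fin g) (F : (Fin g → ℂ) → ℂ) (z : Fin g → ℂ) : ℂ :=
  fderiv ℂ F z (Pi.single j 1)

/-- `F` is a regular function over `K` on the affine part `θ_0 ≠ 0` of the abelian variety, i.e. an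
element of `R_0 = K[θ_i / θ_0]`. -/
def Reg (K : IntermediateField ℚ ℂ) (F : (Fin g → ℂ) → ℂ) : Prop :=
  ∃ p : MvPolynomial (Fin (N + 1)) K, ∀ z, A.th 0 z ≠ 0 → F z = aeval (fun i => A.f i z) p

/-- `A` is a polarised abelian variety over `K`, embedded in `ℙ^N`, with a basis of
`H^1_dR(A/K) = {Z = Y / θ_0^m : ∂_j Z ∈ R_0} / (R_0 + ℂ)`. -/
structure IsAbVar (K : IntermediateField ℚ ℂ) : Prop where
  /-- `L` is a lattice in `ℂ^g` -/
  lat_indep : LinearIndependent ℝ A.lat
  th_diff : ∀ i, Differentiable ℂ (A.th i)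
  /-- no common zeros -/
  th_ne : ∀ z, ∃ i, A.th i z ≠ 0
  /-- one automorphy factor -/
  th_aut : ∀ l i z, A.th i (z + A.lat l) = Complex.exp (A.a l z + A.b l) * A.th i z
  /-- the map `ℂ^g / L → ℙ^N` is injective -/
  inj : ∀ z w, (∀ i j, A.th i z * A.th j w = A.th j z * A.th i w) →
    ∃ x : Ix g → ℤ, z - w = ∑ l, (x l : ℂ) • A.lat l
  /-- the map `ℂ^g / L → ℙ^N` is an immersion -/
  imm : ∀ z v, v ≠ 0 → ∃ i j,
    A.th i z * fderiv ℂ (A.th j) z v ≠ A.th j z * fderiv ℂ (A.th i) z v
  /-- the origin lies in the affine part and is rational over `K` -/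
  zero : A.th 0 0 ≠ 0
  value : ∀ i, A.f i 0 ∈ K
  /-- the image in `ℙ^N` and the invariant vector fields `∂_j` are defined over `K` -/
  deriv : ∀ i j, A.Reg K (pd j (A.f i))
  /-- normalisation of the theta functions (they are unique up to a common factor `exp` of a
  polynomial of degree two) -/
  logderiv : ∀ i j, A.Reg K (pd i fun z => pd j (A.th 0) z / A.th 0 z)
  /-- the Riemann form -/
  riemann : ∀ l l', A.a l (A.lat l') - A.a l' (A.lat l) = 2 * Real.pi * Complex.I * (A.E l l' : ℂ)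
  pos : ∀ x y : Ix g → ℝ, x ≠ 0 →
    (∑ l, (y l : ℂ) • A.lat l = Complex.I • ∑ l, (x l : ℂ) • A.lat l) →
    0 < ∑ l, ∑ l', x l * (A.E l l' : ℝ) * y l'
  /-- differentials of the second kind over `K` with their quasi-periods -/
  Y_diff : ∀ t, Differentiable ℂ (A.Y t)
  zt_deriv : ∀ t j, A.Reg K (pd j (A.zt t))
  zt_value : ∀ t, A.zt t 0 ∈ K
  zt_period : ∀ l t z, A.th 0 z ≠ 0 → A.zt t (z + A.lat l) = A.zt t z + A.eta l t
  /-- `dz_1, …, dz_g, dZ_1, …, dZ_g` generate `H^1_dR(A/K)` -/
  span : ∀ (F : (Fin g → ℂ) → ℂ) (k : ℕ), Differentiable ℂ F →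
    (∀ j, A.Reg K (pd j fun z => F z / A.th 0 z ^ k)) →
    ∃ (α β : Fin g → K) (q : MvPolynomial (Fin (N + 1)) K) (e : ℂ), ∀ z, A.th 0 z ≠ 0 →
      F z / A.th 0 z ^ k = ∑ j, (α j : ℂ) * z j + ∑ t, (β t : ℂ) * A.zt t z +
        aeval (fun i => A.f i z) q + e

/-- The period matrix: the comparison isomorphism of `M = h^1(A)` in the bases
`dz_1, …, dz_g, dZ_1, …, dZ_g` of `M_dR` and the dual basis of `lat` of `M_B`. -/
def per : Matrix (Ix g) (Ix g) ℂ := fun l => Sum.elim (A.lat l) (A.eta l)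

/-- `B` is the matrix, in the dual basis of `lat`, of the action on `H^1(A, ℚ)` of an endomorphism
of `A` (up to isogeny): a complex linear map of `ℂ^g` which preserves `L ⊗ ℚ`. -/
def IsEndo (B : Matrix (Ix g) (Ix g) ℚ) : Prop :=
  ∃ α : (Fin g → ℂ) →ₗ[ℂ] (Fin g → ℂ), ∀ l, α (A.lat l) = ∑ l', (B l l' : ℂ) • A.lat l'

/-- The classes over `K` of the endomorphisms of `A`. -/
def endClasses (K : IntermediateField ℚ ℂ) : Set (TPair K (Ix g)) :=
  {α | ∃ (B' : Matrix (Ix g) (Ix g) K) (B : Matrix (Ix g) (Ix g) ℚ), A.IsEndo B ∧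
    A.per * B'.map (fun x => (x : ℂ)) = B.map (fun x => (x : ℂ)) * A.per ∧ α = endPair B' B}

end AbData

section Algebras

variable {ι : Type} [Fintype ι] [DecidableEq ι]

/-- The endomorphisms over `Qbar` (with rational Betti matrix) of the de Rham-Betti object with
period matrix `c`. -/
def EndAlg (c : Matrix ι ι ℂ) : Set (Matrix ι ι ℚ) :=
  {B | ∃ B' : Matrix ι ι ℂ, IsAlg B' ∧ c * B' = B.map (fun x => (x : ℂ)) * c}

/-- The commutant of the endomorphisms. -/
def ComAlg (c : Matrix ι ι ℂ) : Subalgebra ℚ (Matrix ι ι ℚ) := Subalgebra.centralizer ℚ (EndAlg c)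

/-- The centre of the commutant. -/
def CenAlg (c : Matrix ι ι ℂ) : Subalgebra ℚ (Matrix ι ι ℚ) :=
  ComAlg c ⊓ Subalgebra.centralizer ℚ (ComAlg c : Set (Matrix ι ι ℚ))

/-- The adjoint for the bilinear form with Gram matrix `ψ`. -/
noncomputable def adj {R : Type} [CommRing R] (ψ x : Matrix ι ι R) : Matrix ι ι R := ψ⁻¹ * xᵀ * ψ

/-- All `x + x†`, for `x` in the commutant of the endomorphisms, are central. For an abelian variety
this says that its simple factors over `Qbar` are of `GL_2`-type without complex multiplication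
(real or quaternion multiplication) or have complex multiplication. -/
def GL2Like (c : Matrix ι ι ℂ) (ψ : Matrix ι ι ℚ) : Prop :=
  ∀ x ∈ ComAlg c, x + adj ψ x ∈ CenAlg c

/-- The embeddings in `Qbar` of the centre. -/
abbrev EmbC (c : Matrix ι ι ℂ) : Type := CenAlg c →ₐ[ℚ] Qbar

/-- `s'` is the conjugate of the embedding `s`. -/
def IsBar {c : Matrix ι ι ℂ} (ψ : Matrix ι ι ℚ) (s s' : EmbC c) : Prop :=
  ∀ z z' : CenAlg c, z'.1 = adj ψ z.1 → s' z = s z'

open scoped Classical in
/-- The function `δ_s - δ_t` on the set of embeddings. -/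
noncomputable def delta {c : Matrix ι ι ℂ} (s t : EmbC c) : EmbC c → ℚ :=
  Pi.single s 1 - Pi.single t 1

/-- Every non-zero Galois stable space of odd rational functions on the set of embeddings of the
centre contains a non-zero function `(δ_s - δ_s̄) - (δ_t - δ_t̄)`. (There are no non-zero odd
functions if the centre is totally real.) -/
def Separated (c : Matrix ι ι ℂ) (ψ : Matrix ι ι ℚ) : Prop :=
  ∀ U : Submodule ℚ (EmbC c → ℚ), U ≠ ⊥ →
    (∀ f ∈ U, ∀ s s', IsBar ψ s s' → f s' = -f s) →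
    (∀ γ : Qbar ≃ₐ[ℚ] Qbar, ∀ f ∈ U, (fun s => f (γ.toAlgHom.comp s)) ∈ U) →
    ∃ s s' t t' : EmbC c, IsBar ψ s s' ∧ IsBar ψ t t' ∧ delta s s' - delta t t' ∈ U ∧
      delta s s' ≠ delta t t'

/-- `f` is compatible with all endomorphisms over `Qbar` (with rational Betti matrix). -/
def Compat (c f : Matrix ι ι ℂ) : Prop :=
  ∀ (B : Matrix ι ι ℚ) (B' : Matrix ι ι ℂ), IsAlg B' → c * B' = B.map (fun x => (x : ℂ)) * c →
    f * B' = B.map (fun x => (x : ℂ)) * f

/-- The torsor of the similitudes compatible with all endomorphisms over `Qbar`. -/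
def Lef {K : IntermediateField ℚ ℂ} (c : GL ι ℂ) (ψdR : Matrix ι ι K) (ψB : Matrix ι ι ℚ) :
    Set (GL ι ℂ) :=
  {f | Compat c.1 f.1 ∧ ∃ μ, Mult f ψdR ψB μ}

end Algebras

end Pool.Agent.Lib.MPf11a48.U
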