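import Pool.Agent.Lib.MP_f11a48_ag.U.Spec
import Pool.Agent.Lib.MP_f11a48_ag.U.Statement

/-!
# MP_f11a48_ag, project U: representation part (REP), specifications

`c` is the period matrix of a de Rham-Betti object `M` over `Qbar` with `M_B = ℚ^ι` (columns).
-/

set_option autoImplicit false

open Matrix MvPolynomial Pool.Agent.Lib.MPf11a48.CM Pool.Agent.Lib.MPf11a48.GL2T

namespace Pool.Agent.Lib.MPf11a48.U

variable {ι : Type} [Fintype ι] [DecidableEq ι]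

/-- complexification of a rational matrix -/
abbrev mC {m n : Type} (A : Matrix m n ℚ) : Matrix m n ℂ := A.map (fun x => (x : ℂ))

/-- real form of a rational matrix -/
abbrev mR {m n : Type} (A : Matrix m n ℚ) : Matrix m n ℝ := A.map (fun x => (x : ℝ))

/-- The properties of `M = h^1(A)` which are used: `J` is the complex structure on `M_B ⊗ ℝ`, `ψ`
the polarisation, `sub` and `endo` are Theorem T'. -/
structure HD (c : GL ι ℂ) (J : Matrix ι ι ℝ) (ψ : Matrix ι ι ℚ) : Prop where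
  J_sq : J * J = -1
  skew : ψᵀ = -ψ
  det : ψ.det ≠ 0
  J_orth : Jᵀ * mR ψ * J = mR ψ
  pos : ∀ v : ι → ℝ, v ≠ 0 → 0 < v ⬝ᵥ ((mR ψ * J) *ᵥ v)
  leg : ∃ ψdR : Matrix ι ι ℂ, IsAlg ψdR ∧ c.1ᵀ * mC ψ * c.1 = (2 * Real.pi * Complex.I) • ψdR
  sub : ∀ WB : Submodule ℚ (ι → ℚ), DefQbar ((spanC WB).comap c.1.mulVecLin) →
    ∀ w ∈ WB, J *ᵥ (fun i => (w i : ℝ)) ∈
      Submodule.span ℝ {v : ι → ℝ | ∃ u ∈ WB, v = fun i => (u i : ℝ)}
  endo : ∀ B ∈ EndAlg c.1, J * mR B = mR B * J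

/-! ## The Lie algebra -/

/-- The action of a matrix `X` (as an element of the Lie algebra) on
`V^{⊗ n} ⊗ (V^∨)^{⊗ m}`. -/
def dtens {R : Type} [CommRing R] (n m : ℕ) (X : Matrix ι ι R) :
    Matrix (TIdx ι n m) (TIdx ι n m) R :=
  fun I J => (∑ a, if (∀ b, b ≠ a → I.1 b = J.1 b) ∧ I.2 = J.2 then X (I.1 a) (J.1 a) else 0) -
    ∑ b, if I.1 = J.1 ∧ (∀ a, a ≠ b → I.2 a = J.2 a) then X (J.2 b) (I.2 b) else 0

/-- The action of a matrix `X` on a direct sum of tensor spaces. -/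
def dact {R : Type} [CommRing R] {r : ℕ} (s : Fin r → ℕ × ℕ) (X : Matrix ι ι R) :
    (SIdx ι s → R) →ₗ[R] (SIdx ι s → R) where
  toFun v x := ∑ J, dtens (s x.1).1 (s x.1).2 X x.2 J * v ⟨x.1, J⟩
  map_add' u v := by
    funext x
    simp only [Pi.add_apply, mul_add, Finset.sum_add_distrib]
  map_smul' a v := by
    funext x
    simp only [Pi.smul_apply, smul_eq_mul, RingHom.id_apply, Finset.mul_sum]
    exact Finset.sum_congr rfl fun _ _ => by ring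

/-- `X` preserves the Betti part of every sub-object over `Qbar` of every direct sum of tensor
spaces. -/
def InH (c : GL ι ℂ) (X : Matrix ι ι ℂ) : Prop :=
  ∀ (r : ℕ) (s : Fin r → ℕ × ℕ) (WdR : Submodule Qbar (SIdx ι s → Qbar))
    (WB : Submodule ℚ (SIdx ι s → ℚ)), IsSub Qbar c s WdR WB →
      ∀ w ∈ spanC WB, dact s X w ∈ spanC WB

/-- Module LIN: `InH` is a complex Lie algebra, spanned by its rational elements. -/
def SpecLIN : Prop :=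
  ∀ {ι : Type} [Fintype ι] [DecidableEq ι] (c : GL ι ℂ),
    InH c 0 ∧ (∀ X Y, InH c X → InH c Y → InH c (X + Y)) ∧ (∀ (t : ℂ) X, InH c X → InH c (t • X)) ∧
    (∀ X Y, InH c X → InH c Y → InH c (X * Y - Y * X)) ∧
    ∀ X, InH c X → X ∈ Submodule.span ℂ {Y : Matrix ι ι ℂ | ∃ Z : Matrix ι ι ℚ, Y = mC Z ∧ InH c Y}

/-- Module EXP: exponentials of elements of the Lie algebra are in the group. -/
def SpecEXP : Prop :=
  ∀ {ι : Type} [Fintype ι] [DecidableEq ι] (c : GL ι ℂ) (X : Matrix ι ι ℂ), InH c X →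
    ∀ g : GL ι ℂ, g.1 = NormedSpace.exp X → ∀ f ∈ OmegaDRB Qbar c, g * f ∈ OmegaDRB Qbar c

/-- Module DER: (1) logarithmic derivatives of the period matrix are in the Lie algebra;
(2) subspaces of `M_B` stable under them, and (3) endomorphisms of `M_B` commuting with them, come
from de Rham-Betti objects over `Qbar`. -/
def SpecDER : Prop :=
  ∀ {ι : Type} [Fintype ι] [DecidableEq ι] (c : GL ι ℂ),
    (∀ δ : Derivation Qbar ℂ ℂ, InH c (c.1.map δ * c⁻¹.1)) ∧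
    (∀ WB : Submodule ℚ (ι → ℚ),
      (∀ δ : Derivation Qbar ℂ ℂ, ∀ w ∈ spanC WB, (c.1.map δ * c⁻¹.1) *ᵥ w ∈ spanC WB) →
      DefQbar ((spanC WB).comap c.1.mulVecLin)) ∧
    (∀ B : Matrix ι ι ℚ, (∀ δ : Derivation Qbar ℂ ℂ,
      (c.1.map δ * c⁻¹.1) * mC B = mC B * (c.1.map δ * c⁻¹.1)) → B ∈ EndAlg c.1)

/-- Module SIM: the elements of the Lie algebra commute with the endomorphisms, are similitudes for
the polarisation, and some element has a non-zero multiplier. -/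
def SpecSIM : Prop :=
  ∀ {ι : Type} [Fintype ι] [DecidableEq ι] (c : GL ι ℂ) (J : Matrix ι ι ℝ) (ψ : Matrix ι ι ℚ),
    HD c J ψ →
    (∀ X, InH c X → ∀ B ∈ EndAlg c.1, X * mC B = mC B * X) ∧
    (∀ X, InH c X → ∃ m : ℂ, Xᵀ * mC ψ + mC ψ * X = m • mC ψ) ∧
    ∃ X, InH c X ∧ ∃ m : ℂ, m ≠ 0 ∧ Xᵀ * mC ψ + mC ψ * X = m • mC ψ

/-- Module BIC: `EndAlg` is an algebra stable under the adjoint; the commutant of the
endomorphisms is generated, as an algebra, by the rational elements of the Lie algebra. -/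
def SpecBIC : Prop :=
  ∀ {ι : Type} [Fintype ι] [DecidableEq ι] (c : GL ι ℂ) (J : Matrix ι ι ℝ) (ψ : Matrix ι ι ℚ),
    HD c J ψ →
    (∀ B ∈ EndAlg c.1, adj ψ B ∈ EndAlg c.1) ∧
    ComAlg c.1 = Algebra.adjoin ℚ {Z : Matrix ι ι ℚ | InH c (mC Z)}

/-! ## The structure of the commutant -/

/-- Module WED: a semisimple complex algebra with an involution `x ↦ x†` (linear) such that all
`x + x†` are central and `J† = -J`, `J² = -1` for some `J`. -/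
def SpecWED : Prop :=
  ∀ (R : Type) [Ring R] [Algebra ℂ R] [FiniteDimensional ℂ R] [IsSemisimpleRing R]
    (d : R →ₗ[ℂ] R), (∀ x, d (d x) = x) → (∀ x y, d (x * y) = d y * d x) →
    (∀ x y, (x + d x) * y = y * (x + d x)) → (∃ J : R, d J = -J ∧ J * J = -1) →
    ∃ (κ σ : Type) (_ : Fintype κ) (_ : Fintype σ) (_ : DecidableEq κ) (_ : DecidableEq σ)
      (τ : σ → σ) (Ψ : ((κ → Matrix (Fin 2) (Fin 2) ℂ) × (σ → ℂ)) ≃ₐ[ℂ] R),
      (∀ s, τ s ≠ s) ∧ (∀ s, τ (τ s) = s) ∧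
      ∀ x y, d (Ψ (x, y)) = Ψ (fun k => (x k).adjugate, fun s => y (τ s))

/-- The structure of the complexified commutant `𝒞`, the centraliser of `EndAlg` in
`Mat_ι(ℂ)`. -/
structure Str (c : GL ι ℂ) (ψ : Matrix ι ι ℚ) where
  κ : Type
  σ : Type
  [fκ : Fintype κ]
  [fσ : Fintype σ]
  [dκ : DecidableEq κ]
  [dσ : DecidableEq σ]
  τ : σ → σ
  τ_ne : ∀ s, τ s ≠ s
  τ_τ : ∀ s, τ (τ s) = s
  Ψ : ((κ → Matrix (Fin 2) (Fin 2) ℂ) × (σ → ℂ)) →ₐ[ℂ] Matrix ι ι ℂ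
  inj : Function.Injective Ψ
  mem_range : ∀ x : Matrix ι ι ℂ, (∃ u, Ψ u = x) ↔ ∀ B ∈ EndAlg c.1, x * mC B = mC B * x
  adj_Ψ : ∀ x y, adj (mC ψ) (Ψ (x, y)) = Ψ (fun k => (x k).adjugate, fun s => y (τ s))
  ev : κ ⊕ σ ≃ EmbC c.1
  ev_spec : ∀ z : CenAlg c.1,
    mC z.1 = Ψ (fun k => ((ev (Sum.inl k) z : Qbar) : ℂ) • 1, fun s => ((ev (Sum.inr s) z : Qbar) : ℂ))
  /-- the conjugate of an embedding of the centre is given by the adjoint, and by complex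
  conjugation -/
  bar_κ : ∀ k, IsBar ψ (ev (Sum.inl k)) (ev (Sum.inl k))
  bar_σ : ∀ s, IsBar ψ (ev (Sum.inr s)) (ev (Sum.inr (τ s)))
  cc_κ : ∀ k z, (starRingEnd ℂ) ((ev (Sum.inl k) z : Qbar) : ℂ) = ((ev (Sum.inl k) z : Qbar) : ℂ)
  cc_σ : ∀ s z,
    (starRingEnd ℂ) ((ev (Sum.inr s) z : Qbar) : ℂ) = ((ev (Sum.inr (τ s)) z : Qbar) : ℂ)

attribute [instance] Str.fκ Str.fσ Str.dκ Str.dσ

/-- Module STR. -/
def SpecSTR : Prop :=
  ∀ {ι : Type} [Fintype ι] [DecidableEq ι] (c : GL ι ℂ) (J : Matrix ι ι ℝ) (ψ : Matrix ι ι ℚ),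
    HD c J ψ → GL2Like c.1 ψ → Nonempty (Str c ψ)

/-- Module GOU: a Lie algebra of elements of `M_2(ℂ)^κ × ℂ^σ` with all traces equal, which generates
the whole algebra, contains all `(x, 0)` with `x` traceless. -/
def SpecGOU : Prop :=
  ∀ (κ σ : Type) [Fintype κ] [Fintype σ] [DecidableEq κ] [DecidableEq σ]
    (N : Submodule ℂ ((κ → Matrix (Fin 2) (Fin 2) ℂ) × (σ → ℂ))),
    (∀ X ∈ N, ∀ Y ∈ N, X * Y - Y * X ∈ N) →
    (∀ X ∈ N, ∃ m : ℂ, ∀ k, (X.1 k).trace = m) →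
    Algebra.adjoin ℂ (N : Set ((κ → Matrix (Fin 2) (Fin 2) ℂ) × (σ → ℂ))) = ⊤ →
    ∀ x : κ → Matrix (Fin 2) (Fin 2) ℂ, (∀ k, (x k).trace = 0) → (x, 0) ∈ N

/-- Module ALG: the Lie algebra is algebraic (diagonalisable elements). -/
def SpecALG : Prop :=
  ∀ {ι : Type} [Fintype ι] [DecidableEq ι] (c : GL ι ℂ) (σ : Type) [Fintype σ] [DecidableEq σ]
    (e : σ → Matrix ι ι ℂ), (∀ s, e s * e s = e s) → (∀ s t, s ≠ t → e s * e t = 0) →
    ∑ s, e s = 1 → ∀ x y : σ → ℂ, InH c (∑ s, x s • e s) →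
    (∀ χ : σ → ℤ, ∑ s, (χ s : ℂ) * x s = 0 → ∑ s, (χ s : ℂ) * y s = 0) → InH c (∑ s, y s • e s)

/-- Module TOR: the central part of the Lie algebra. -/
def SpecTOR : Prop :=
  ∀ {ι : Type} [Fintype ι] [DecidableEq ι] (c : GL ι ℂ) (J : Matrix ι ι ℝ) (ψ : Matrix ι ι ℚ)
    (S : Str c ψ), HD c J ψ → Separated c.1 ψ →
    (∀ x : S.κ → Matrix (Fin 2) (Fin 2) ℂ, (∀ k, (x k).trace = 0) → InH c (S.Ψ (x, 0))) →
    ∀ (m : ℂ) (y : S.σ → ℂ), (∀ s, y s + y (S.τ s) = m) → InH c (S.Ψ (fun _ => (m / 2) • 1, y))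

/-- Module GEN: similitudes are products of exponentials. `T` is a set containing `1`, closed under
multiplication by exponentials of the elements `(x, 0)`, `x` traceless, and `(m/2, y)`,
`y_s + y_{τ s} = m`. -/
def SpecGEN : Prop :=
  ∀ (κ σ : Type) [Fintype κ] [Fintype σ] [DecidableEq κ] [DecidableEq σ] (τ : σ → σ),
    (∀ s, τ s ≠ s) → (∀ s, τ (τ s) = s) →
    ∀ T : Set ((κ → Matrix (Fin 2) (Fin 2) ℂ) × (σ → ℂ)), 1 ∈ T →
    (∀ x : κ → Matrix (Fin 2) (Fin 2) ℂ, (∀ k, (x k).trace = 0) → ∀ t ∈ T,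
      ((fun k => NormedSpace.exp (x k)), fun _ => 1) * t ∈ T) →
    (∀ (m : ℂ) (y : σ → ℂ), (∀ s, y s + y (τ s) = m) → ∀ t ∈ T,
      ((fun _ => Complex.exp (m / 2) • (1 : Matrix (Fin 2) (Fin 2) ℂ)),
        fun s => Complex.exp (y s)) * t ∈ T) →
    ∀ (μ : ℂ), μ ≠ 0 → ∀ x y, (∀ k, (x k).det = μ) → (∀ s, y s * y (τ s) = μ) → (x, y) ∈ T

/-- Module REP: assembly of the representation part. -/
def SpecREP : Prop :=
  ∀ {ι : Type} [Fintype ι] [DecidableEq ι] (c : GL ι ℂ) (J : Matrix ι ι ℝ) (ψ : Matrix ι ι ℚ),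
    HD c J ψ → GL2Like c.1 ψ → Separated c.1 ψ → ∀ f : GL ι ℂ, Compat c.1 f.1 →
    (∃ μ : ℂ, f.1ᵀ * mC ψ * f.1 = μ • (c.1ᵀ * mC ψ * c.1)) → f ∈ OmegaDRB Qbar c

/-! ## From abelian varieties to `HD` -/

/-- The data for Theorem T' given by an abelian variety. -/
noncomputable def AbData.td {g N : ℕ} (A : AbData g N) :
    TD (Fin g) (Fin g) (Fin (N + 1)) (Ix g) where
  o := 0
  lat := A.lat
  eta := A.eta
  th := A.th
  m := A.m
  Y := A.Y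

/-- Module GROW: `A.td` is good (growth from quasi-periodicity). -/
def SpecGROW : Prop :=
  ∀ (K : IntermediateField ℚ ℂ) (g N : ℕ) (A : AbData g N) (c : GL (Ix g) ℂ), K ≤ Qbar →
    A.IsAbVar K → c.1 = A.per → A.td.Good

/-- Module LEG: the Legendre relation: the polarisation is a de Rham-Betti class over `K`. -/
def SpecLEG : Prop :=
  ∀ (K : IntermediateField ℚ ℂ) (g N : ℕ) (A : AbData g N) (c : GL (Ix g) ℂ), K ≤ Qbar →
    A.IsAbVar K → c.1 = A.per →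
    ∃ ψdR : Matrix (Ix g) (Ix g) K, Polarised 1 c ψdR (A.E.map (fun x => (x : ℚ)))⁻¹

/-- Module HDA: `h^1(A)` satisfies `HD`, and endomorphisms of the de Rham-Betti object over `Qbar`
are endomorphisms of `A`. -/
def SpecHDA : Prop :=
  ∀ (K : IntermediateField ℚ ℂ) (g N : ℕ) (A : AbData g N) (c : GL (Ix g) ℂ), K ≤ Qbar →
    A.IsAbVar K → c.1 = A.per →
    (∃ J : Matrix (Ix g) (Ix g) ℝ, HD c J (A.E.map (fun x => (x : ℚ)))⁻¹) ∧
    ∀ B ∈ EndAlg c.1, A.IsEndo B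

/-- Module TORS: passage from `Qbar` to `K`, classes. -/
def SpecTORS : Prop :=
  ∀ {ι : Type} [Fintype ι] [DecidableEq ι] (K : IntermediateField ℚ ℂ) (c : GL ι ℂ)
    (ψdR : Matrix ι ι K) (ψB : Matrix ι ι ℚ), K ≤ Qbar → Polarised 1 c ψdR ψB →
    (∀ f ∈ Lef c ψdR ψB, f ∈ OmegaDRB Qbar c) →
    (∀ f ∈ Lef c ψdR ψB, ∀ f', Conj K f f' → f' ∈ OmegaDRB K c) ∧
    ∀ S : Set (TPair K ι), (∀ α ∈ S, Fixes c α) → polPair ψdR ψB ∈ S →
      (∀ f ∈ OmegaS S, ∃ f', Conj K f f' ∧ Compat c.1 f'.1) → OmegaDRB K c = OmegaS S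

end Pool.Agent.Lib.MPf11a48.U
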