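import Pool.Agent.Lib.MP_f11a48_ag.U.SpecR

/-!
# Module GEN: similitudes are products of exponentials
-/

set_option autoImplicit false

namespace Pool.Agent.Lib.MPf11a48.U

namespace GenM

open Matrix

/-- upper unipotent -/
def Un (s : ℂ) : Matrix (Fin 2) (Fin 2) ℂ := !![1, s; 0, 1]

/-- lower unipotent -/
def Lo (s : ℂ) : Matrix (Fin 2) (Fin 2) ℂ := !![1, 0; s, 1]

/-- the exponential of an element of square zero -/
theorem exp_sq_zero (x : Matrix (Fin 2) (Fin 2) ℂ) (hx : x * x = 0) :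
    NormedSpace.exp x = 1 + x := by
  rw [NormedSpace.exp_eq_tsum ℂ]
  show ∑' n : ℕ, ((n.factorial : ℂ)⁻¹) • x ^ n = 1 + x
  rw [tsum_eq_sum (s := Finset.range 2)]
  · simp [Finset.sum_range_succ]
  · intro n hn
    obtain ⟨k, rfl⟩ : ∃ k, n = 2 + k := ⟨n - 2, by
      simp only [Finset.mem_range, not_lt] at hn
      omega⟩
    rw [pow_add, pow_two, hx, zero_mul, smul_zero]

theorem exp_un (s : ℂ) : NormedSpace.exp (!![0, s; 0, 0] : Matrix (Fin 2) (Fin 2) ℂ) = Un s := by
  rw [exp_sq_zero]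
  · ext i j
    fin_cases i <;> fin_cases j <;> simp [Un]
  · ext i j
    fin_cases i <;> fin_cases j <;> simp [Matrix.mul_apply]

theorem exp_lo (s : ℂ) : NormedSpace.exp (!![0, 0; s, 0] : Matrix (Fin 2) (Fin 2) ℂ) = Lo s := by
  rw [exp_sq_zero]
  · ext i j
    fin_cases i <;> fin_cases j <;> simp [Lo]
  · ext i j
    fin_cases i <;> fin_cases j <;> simp [Matrix.mul_apply]

/-- a matrix of determinant one with a non-zero lower left entry -/
theorem decomp_aux (g : Matrix (Fin 2) (Fin 2) ℂ) (hg : g.det = 1) (hc : g 1 0 ≠ 0) :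
    g = Un ((g 0 0 - 1) / g 1 0) * Lo (g 1 0) * Un ((g 1 1 - 1) / g 1 0) := by
  rw [Matrix.det_fin_two] at hg
  ext i j
  fin_cases i <;> fin_cases j <;>
    simp [Un, Lo, Matrix.mul_apply, Fin.sum_univ_two]
  · field_simp
    ring
  · field_simp
    linear_combination -hg
  · field_simp
    ring

theorem decomp_aux' (g : Matrix (Fin 2) (Fin 2) ℂ) (hg : g.det = 1) (hc : g 1 0 ≠ 0) :
    ∃ a b c : ℂ, g = Un a * Lo b * Un c :=
  ⟨_, _, _, decomp_aux g hg hc⟩

theorem decomp (g : Matrix (Fin 2) (Fin 2) ℂ) (hg : g.det = 1) :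
    ∃ a b c d : ℂ, g = Un a * (Lo b * (Un c * Lo d)) := by
  by_cases hc : g 1 0 = 0
  · have hd : g 1 1 ≠ 0 := by
      intro h
      rw [Matrix.det_fin_two, h, hc] at hg
      simp at hg
    have h1 : (g * Lo 1).det = 1 := by
      rw [Matrix.det_mul, hg]
      simp [Lo, Matrix.det_fin_two]
    have h2 : (g * Lo 1) 1 0 ≠ 0 := by
      simp [Lo, Matrix.mul_apply, Fin.sum_univ_two, hc, hd]
    obtain ⟨a, b, c, h3⟩ := decomp_aux' _ h1 h2
    refine ⟨a, b, c, -1, ?_⟩
    have h4 : g = g * Lo 1 * Lo (-1) := by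
      rw [mul_assoc]
      have : Lo 1 * Lo (-1) = 1 := by
        ext i j
        fin_cases i <;> fin_cases j <;> simp [Lo, Matrix.mul_apply, Fin.sum_univ_two]
      rw [this, mul_one]
    rw [h4, h3]
    simp only [mul_assoc]
  · obtain ⟨a, b, c, h3⟩ := decomp_aux' g hg hc
    refine ⟨a, b, c, 0, ?_⟩
    have h0 : Lo 0 = 1 := by
      ext i j
      fin_cases i <;> fin_cases j <;> simp [Lo]
    rw [h0, mul_one, ← mul_assoc]
    exact h3

/-- logarithms with given sums -/
theorem exists_logs (σ : Type) [Fintype σ] [DecidableEq σ] (τ : σ → σ) (h1 : ∀ s, τ s ≠ s)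
    (h2 : ∀ s, τ (τ s) = s) (m : ℂ) (y : σ → ℂ) (hy : ∀ s, y s * y (τ s) = Complex.exp m) :
    ∃ a : σ → ℂ, (∀ s, a s + a (τ s) = m) ∧ ∀ s, Complex.exp (a s) = y s := by
  have hne : ∀ s, y s ≠ 0 := by
    intro s h
    have := hy s
    rw [h, zero_mul] at this
    exact Complex.exp_ne_zero m this.symm
  let e := Fintype.equivFin σ
  refine ⟨fun s => if e s < e (τ s) then Complex.log (y s) else m - Complex.log (y (τ s)), ?_, ?_⟩
  · intro s
    rcases lt_trichotomy (e s) (e (τ s)) with h | h | h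
    · have h' : ¬ e (τ s) < e s := not_lt.2 h.le
      simp only [h2, h, h', if_true, if_false]
      ring
    · exact absurd (e.injective h).symm (h1 s)
    · have h' : ¬ e s < e (τ s) := not_lt.2 h.le
      simp only [h2, h, h', if_true, if_false]
      ring
  · intro s
    show Complex.exp (if e s < e (τ s) then Complex.log (y s) else m - Complex.log (y (τ s))) = y s
    split_ifs with h
    · exact Complex.exp_log (hne s)
    · rw [Complex.exp_sub, Complex.exp_log (hne (τ s)), ← hy s]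
      field_simp [hne (τ s)]

end GenM

open GenM in
theorem specGEN : SpecGEN := by
  intro κ σ _ _ _ _ τ hτ1 hτ2 T h1 hT1 hT2 μ hμ x y hx hy
  have hU : ∀ a : κ → ℂ, ∀ t ∈ T, ((fun k => Un (a k)), fun _ => 1) * t ∈ T := by
    intro a t ht
    have := hT1 (fun k => !![0, a k; 0, 0]) (fun k => by simp [Matrix.trace, Fin.sum_univ_two]) t ht
    simpa only [exp_un] using this
  have hL : ∀ a : κ → ℂ, ∀ t ∈ T, ((fun k => Lo (a k)), fun _ => 1) * t ∈ T := by
    intro a t ht
    have := hT1 (fun k => !![0, 0; a k, 0]) (fun k => by simp [Matrix.trace, Fin.sum_univ_two]) t ht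
    simpa only [exp_lo] using this
  obtain ⟨m, hm⟩ : ∃ m, Complex.exp m = μ := ⟨Complex.log μ, Complex.exp_log hμ⟩
  obtain ⟨a, ha1, ha2⟩ := exists_logs σ τ hτ1 hτ2 m y (fun s => by rw [hy s, hm])
  have hz : Complex.exp (m / 2) ≠ 0 := Complex.exp_ne_zero _
  have hz2 : Complex.exp (m / 2) * Complex.exp (m / 2) = μ := by
    rw [← Complex.exp_add, add_halves, hm]
  have hdet : ∀ k, ((Complex.exp (m / 2))⁻¹ • x k).det = 1 := by
    intro k
    rw [Matrix.det_smul, hx k, Fintype.card_fin, ← hz2]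
    field_simp
  choose b c d f hbc using fun k => decomp _ (hdet k)
  have h3 := hT2 m a ha1 _ (hU b _ (hL c _ (hU d _ (hL f _ h1))))
  have e : ((fun _ => Complex.exp (m / 2) • (1 : Matrix (Fin 2) (Fin 2) ℂ)),
        fun s => Complex.exp (a s)) * (((fun k => Un (b k)), fun _ => 1) *
      (((fun k => Lo (c k)), fun _ => 1) * (((fun k => Un (d k)), fun _ => 1) *
      (((fun k => Lo (f k)), fun _ => 1) *
        (1 : (κ → Matrix (Fin 2) (Fin 2) ℂ) × (σ → ℂ)))))) = (x, y) := by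
    refine Prod.ext ?_ ?_
    · funext k
      show (Complex.exp (m / 2) • (1 : Matrix (Fin 2) (Fin 2) ℂ)) * (Un (b k) *
        (Lo (c k) * (Un (d k) * (Lo (f k) * 1)))) = x k
      rw [mul_one, ← hbc k, Matrix.smul_mul, one_mul, smul_smul, mul_inv_cancel₀ hz, one_smul]
    · funext s
      show Complex.exp (a s) * (1 * (1 * (1 * (1 * 1)))) = y s
      rw [ha2 s]
      ring
  rw [← e]
  exact h3

end Pool.Agent.Lib.MPf11a48.U
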