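import Pool.Agent.Lib.MP_f11a48_ag.U.Slot
import Pool.Agent.Lib.MP_f11a48_ag.helper16.Tens

/-!
# Module EXP: exponentials of elements of the Lie algebra are in the group
-/

set_option autoImplicit false
set_option linter.unusedSectionVars false

open Matrix MvPolynomial Pool.Agent.Lib.MPf11a48.CM Pool.Agent.Lib.MPf11a48.GL2T

namespace Pool.Agent.Lib.MPf11a48.U

namespace ExpM

open NormedSpace SlotM

variable {ι : Type} [Fintype ι] [DecidableEq ι]

/-- an entry, as a continuous linear map -/
noncomputable def entryL (i j : ι) : Matrix ι ι ℂ →L[ℂ] ℂ where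
  toFun := fun M => M i j
  map_add' := fun _ _ => rfl
  map_smul' := fun _ _ => rfl
  cont := continuous_apply_apply i j

set_option backward.isDefEq.respectTransparency false in
/-- entrywise derivative of the exponential -/
theorem deriv_entry (X : Matrix ι ι ℂ) (t : ℂ) (i j : ι) :
    HasDerivAt (fun u : ℂ => (exp (u • X)) i j) ((X * exp (t • X)) i j) t := by
  open scoped Matrix.Norms.Operator in
  have h := hasDerivAt_exp_smul_const' (𝕂 := ℂ) X t
  exact (entryL i j).hasFDerivAt.comp_hasDerivAt t h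

set_option backward.isDefEq.respectTransparency false in
theorem deriv_entry' (X : Matrix ι ι ℂ) (t : ℂ) (i j : ι) :
    HasDerivAt (fun u : ℂ => (exp (u • X)) i j) ((exp (t • X) * X) i j) t := by
  open scoped Matrix.Norms.Operator in
  have h := hasDerivAt_exp_smul_const (𝕂 := ℂ) X t
  exact (entryL i j).hasFDerivAt.comp_hasDerivAt t h

set_option backward.isDefEq.respectTransparency false in
theorem hasSum_exp (X : Matrix ι ι ℂ) :
    HasSum (fun n : ℕ => ((n.factorial : ℂ)⁻¹) • X ^ n) (exp X) := by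
  open scoped Matrix.Norms.Operator in
  exact exp_series_hasSum_exp' (𝕂 := ℂ) X

variable {n m : ℕ}

/-- the product of `dtens` and `tens` -/
theorem dtens_mul_tens (X g g' : Matrix ι ι ℂ) (I J : TIdx ι n m) :
    (dtens n m X * tens n m g g') I J =
      (∑ a, (∏ a' ∈ Finset.univ.erase a, g (I.1 a') (J.1 a')) * (X * g) (I.1 a) (J.1 a)) *
        (∏ b, g' (J.2 b) (I.2 b)) -
      (∏ a, g (I.1 a) (J.1 a)) *
        (∑ b, (∏ b' ∈ Finset.univ.erase b, g' (J.2 b') (I.2 b')) * (g' * X) (J.2 b) (I.2 b)) := by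
  rw [Matrix.mul_apply]
  rw [sum_dtens X (fun K => tens n m g g' K J) I]
  simp only [dten, LinearMap.sub_apply, LinearMap.sum_apply, Pi.sub_apply, Finset.sum_apply,
    opL_apply, opR_apply, tens]
  rw [Finset.sum_mul, Finset.mul_sum]
  congr 1
  · refine Finset.sum_congr rfl fun a _ => ?_
    rw [Matrix.mul_apply, Finset.mul_sum, Finset.sum_mul]
    refine Finset.sum_congr rfl fun k _ => ?_
    have h : ∏ a', g (Function.update I.1 a k a') (J.1 a') =
        g k (J.1 a) * ∏ a' ∈ Finset.univ.erase a, g (I.1 a') (J.1 a') := by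
      rw [← Finset.mul_prod_erase Finset.univ _ (Finset.mem_univ a), Function.update_self]
      congr 1
      refine Finset.prod_congr rfl fun a' ha' => ?_
      rw [Function.update_of_ne (Finset.ne_of_mem_erase ha')]
    rw [h]; ring
  · refine Finset.sum_congr rfl fun b _ => ?_
    rw [Matrix.mul_apply, Finset.mul_sum, Finset.mul_sum]
    refine Finset.sum_congr rfl fun k _ => ?_
    have h : ∏ b', g' (J.2 b') (Function.update I.2 b k b') =
        g' (J.2 b) k * ∏ b' ∈ Finset.univ.erase b, g' (J.2 b') (I.2 b') := by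
      rw [← Finset.mul_prod_erase Finset.univ _ (Finset.mem_univ b), Function.update_self]
      congr 1
      refine Finset.prod_congr rfl fun a' ha' => ?_
      rw [Function.update_of_ne (Finset.ne_of_mem_erase ha')]
    rw [h]; ring

/-- derivative of the tensor representation along a one-parameter group -/
theorem deriv_tens (X : Matrix ι ι ℂ) (t : ℂ) (I J : TIdx ι n m) :
    HasDerivAt (fun u : ℂ => tens n m (exp (u • X)) (exp (u • (-X))) I J)
      ((dtens n m X * tens n m (exp (t • X)) (exp (t • (-X)))) I J) t := by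
  have h1 : HasDerivAt (fun u : ℂ => ∏ a, (exp (u • X)) (I.1 a) (J.1 a))
      (∑ a, (∏ a' ∈ Finset.univ.erase a, (exp (t • X)) (I.1 a') (J.1 a')) •
        (X * exp (t • X)) (I.1 a) (J.1 a)) t :=
    HasDerivAt.fun_finsetProd fun a _ => deriv_entry X t (I.1 a) (J.1 a)
  have h2 : HasDerivAt (fun u : ℂ => ∏ b, (exp (u • (-X))) (J.2 b) (I.2 b))
      (∑ b, (∏ b' ∈ Finset.univ.erase b, (exp (t • (-X))) (J.2 b') (I.2 b')) •
        (exp (t • (-X)) * (-X)) (J.2 b) (I.2 b)) t :=
    HasDerivAt.fun_finsetProd fun b _ => deriv_entry' (-X) t (J.2 b) (I.2 b)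
  refine (h1.mul h2).congr_deriv ?_
  rw [dtens_mul_tens]
  simp only [smul_eq_mul, Matrix.neg_apply, mul_neg, Finset.sum_neg_distrib]
  ring

theorem tens_one' : tens n m (1 : Matrix ι ι ℂ) 1 = 1 := by
  refine Matrix.ext fun I J => ?_
  have h := tens_diagonal n m (fun _ : ι => (1 : ℂ)) (fun _ => (1 : ℂ)) I J
  rw [diagonal_one] at h
  rw [h, one_apply]
  simp

/-- the tensor representation of an exponential -/
theorem tens_exp (X : Matrix ι ι ℂ) :
    tens n m (exp X) (exp (-X)) = exp (dtens n m X) := by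
  set D := dtens n m X with hD
  have hA : ∀ I J, ∀ t : ℂ, HasDerivAt (fun u : ℂ =>
      (exp (u • (-D)) * tens n m (exp (u • X)) (exp (u • (-X)))) I J) 0 t := by
    intro I J t
    have h1 : HasDerivAt (fun u : ℂ => ∑ K, (exp (u • (-D))) I K *
        tens n m (exp (u • X)) (exp (u • (-X))) K J)
        (∑ K, ((exp (t • (-D)) * (-D)) I K * tens n m (exp (t • X)) (exp (t • (-X))) K J +
          (exp (t • (-D))) I K * (D * tens n m (exp (t • X)) (exp (t • (-X)))) K J)) t :=
      HasDerivAt.fun_sum fun K _ => (deriv_entry' (-D) t I K).mul (deriv_tens X t K J)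
    have h2 : (fun u : ℂ => (exp (u • (-D)) * tens n m (exp (u • X)) (exp (u • (-X)))) I J) =
        fun u : ℂ => ∑ K, (exp (u • (-D))) I K *
        tens n m (exp (u • X)) (exp (u • (-X))) K J := by
      funext u; rw [Matrix.mul_apply]
    rw [h2]
    refine h1.congr_deriv ?_
    rw [Finset.sum_add_distrib, ← Matrix.mul_apply, ← Matrix.mul_apply, Matrix.mul_assoc,
      Matrix.neg_mul, Matrix.mul_neg, Matrix.neg_apply, neg_add_cancel]
  have hB : exp (-D) * tens n m (exp X) (exp (-X)) = 1 := by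
    refine Matrix.ext fun I J => ?_
    have h1 := is_const_of_deriv_eq_zero (𝕜 := ℂ)
      (f := fun u : ℂ => (exp (u • (-D)) * tens n m (exp (u • X)) (exp (u • (-X)))) I J)
      (fun t => (hA I J t).differentiableAt) (fun t => (hA I J t).deriv) 1 0
    simp only [one_smul, zero_smul, exp_zero] at h1
    rw [h1, Matrix.one_mul, tens_one']
  have hC : exp D * exp (-D) = 1 := by
    rw [← Matrix.exp_add_of_commute _ _ (Commute.neg_right (Commute.refl D)), add_neg_cancel,
      exp_zero]
  calc tens n m (exp X) (exp (-X))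
      = exp D * (exp (-D) * tens n m (exp X) (exp (-X))) := by
        rw [← Matrix.mul_assoc, hC, Matrix.one_mul]
    _ = exp D := by rw [hB, Matrix.mul_one]

variable {r : ℕ}

/-- powers of `dact` on a block -/
theorem res_dact_pow (s : Fin r → ℕ × ℕ) (k : Fin r) (X : Matrix ι ι ℂ) (v : SIdx ι s → ℂ)
    (j : ℕ) : res s k (((dact s X) ^ j) v) = ((dtens (s k).1 (s k).2 X) ^ j) *ᵥ res s k v := by
  induction j with
  | zero => simp
  | succ j ih =>
    rw [pow_succ', Module.End.mul_apply, res_dact, ih, pow_succ', ← Matrix.mulVec_mulVec]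
    funext I
    exact (sum_dtens X _ I).symm

/-- the action of an exponential as a power series -/
theorem hasSum_act (s : Fin r → ℕ × ℕ) (X : Matrix ι ι ℂ) (v : SIdx ι s → ℂ) :
    HasSum (fun j : ℕ => ((j.factorial : ℂ)⁻¹) • ((dact s X) ^ j) v)
      (act s (exp X) (exp (-X)) v) := by
  rw [Pi.hasSum]
  rintro ⟨k, I⟩
  have h1 := hasSum_exp (dtens (s k).1 (s k).2 X)
  have hcont : Continuous (fun M : Matrix (TIdx ι (s k).1 (s k).2) (TIdx ι (s k).1 (s k).2) ℂ =>
      (M *ᵥ res s k v) I) := by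
    simp only [Matrix.mulVec, dotProduct]
    exact continuous_finsetSum _ fun J _ => (continuous_apply_apply I J).mul continuous_const
  let L : Matrix (TIdx ι (s k).1 (s k).2) (TIdx ι (s k).1 (s k).2) ℂ →ₗ[ℂ] ℂ :=
    { toFun := fun M => (M *ᵥ res s k v) I
      map_add' := fun A B => by rw [Matrix.add_mulVec]; rfl
      map_smul' := fun t A => by rw [Matrix.smul_mulVec]; rfl }
  have h2 := h1.map L hcont
  have e1 : L (exp (dtens (s k).1 (s k).2 X)) = act s (exp X) (exp (-X)) v ⟨k, I⟩ := by
    rw [← tens_exp]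
    rfl
  have e2 : (L ∘ fun n : ℕ => ((n.factorial : ℂ)⁻¹) • dtens (s k).1 (s k).2 X ^ n) =
      fun j : ℕ => (((j.factorial : ℂ)⁻¹) • ((dact s X) ^ j) v) ⟨k, I⟩ := by
    funext j
    have h3 := congrFun (res_dact_pow s k X v j) I
    simp only [Function.comp_apply, map_smul, Pi.smul_apply]
    congr 1
    exact h3.symm
  rw [e1, e2] at h2
  exact h2

/-- a subspace stable under `dact` is stable under the exponential -/
theorem act_exp_mem (s : Fin r → ℕ × ℕ) (X : Matrix ι ι ℂ) (W : Submodule ℂ (SIdx ι s → ℂ))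
    (hW : ∀ w ∈ W, dact s X w ∈ W) (w : SIdx ι s → ℂ) (hw : w ∈ W) :
    act s (exp X) (exp (-X)) w ∈ W := by
  have hp : ∀ j : ℕ, ((dact s X) ^ j) w ∈ W := by
    intro j
    induction j with
    | zero => simpa using hw
    | succ j ih => rw [pow_succ', Module.End.mul_apply]; exact hW _ ih
  have hcl : IsClosed (W : Set (SIdx ι s → ℂ)) := Submodule.closed_of_finiteDimensional W
  refine hcl.mem_of_tendsto (hasSum_act s X w) (Filter.Eventually.of_forall fun S => ?_)
  exact W.sum_mem fun j _ => W.smul_mem _ (hp j)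

end ExpM

open ExpM SlotM in
theorem specEXP : SpecEXP := by
  intro ι _ _ c X hX g hg f hf r s WdR WB hsub
  have h1 := hf r s WdR WB hsub
  have hXm : InH c (-X) := by
    intro r s WdR WB hsub w hw
    have h : dact s (-X) w = -dact s X w := by
      rw [show -X = (-1 : ℂ) • X by simp, dact_smul]
      simp
    rw [h]
    exact (spanC WB).neg_mem (hX r s WdR WB hsub w hw)
  have hgi : g⁻¹.1 = NormedSpace.exp (-X) := by
    rw [Matrix.exp_neg, ← hg, Matrix.coe_units_inv]
  have h2 : (spanC WB).map (act s g.1 g⁻¹.1) = spanC WB := by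
    refine le_antisymm ?_ ?_
    · rintro _ ⟨w, hw, rfl⟩
      rw [hg, hgi]
      exact act_exp_mem s X _ (hX r s WdR WB hsub) w hw
    · intro w hw
      refine ⟨act s g⁻¹.1 g.1 w, ?_, ?_⟩
      · rw [hg, hgi]
        have h := act_exp_mem s (-X) _ (hXm r s WdR WB hsub) w hw
        rwa [neg_neg] at h
      · rw [← act_mul]
        have h3 : g.1 * g⁻¹.1 = 1 := by
          rw [← Units.val_mul, mul_inv_cancel]; rfl
        rw [h3, act_one]
  have h4 : act s (g * f).1 (g * f)⁻¹.1 = (act s g.1 g⁻¹.1) ∘ₗ (act s f.1 f⁻¹.1) := by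
    refine LinearMap.ext fun v => ?_
    have h : (g * f)⁻¹.1 = f⁻¹.1 * g⁻¹.1 := by
      rw [_root_.mul_inv_rev]
      rfl
    have h' : (g * f).1 = g.1 * f.1 := rfl
    rw [h, h', act_mul]
    rfl
  rw [h4, Submodule.map_comp, h1, h2]

end Pool.Agent.Lib.MPf11a48.U
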