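import Pool.Agent.Lib.MP_f11a48_ag.U.SpecR

/-!
# MP_f11a48_ag, project U, module BIC: the adjoint of an endomorphism, the bicommutant theorem
-/

set_option autoImplicit false

open Matrix Pool.Agent.Lib.MPf11a48.CM Pool.Agent.Lib.MPf11a48.GL2T

namespace Pool.Agent.Lib.MPf11a48.U.BicM

variable {ι : Type} [Fintype ι] [DecidableEq ι]

/-! ## The bicommutant theorem -/

/-- The bicommutant theorem. -/
theorem bicommutant_end {M : Type} [AddCommGroup M] [Module ℚ M] [Module.Finite ℚ M]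
    (AA : Subalgebra ℚ (Module.End ℚ M))
    (hc : ∀ W : Submodule ℚ M, (∀ Z ∈ AA, ∀ w ∈ W, Z w ∈ W) →
      ∃ W' : Submodule ℚ M, (∀ Z ∈ AA, ∀ w ∈ W', Z w ∈ W') ∧ IsCompl W W')
    (x : Module.End ℚ M) (hx : ∀ B : Module.End ℚ M, (∀ Z ∈ AA, B * Z = Z * B) → x * B = B * x) :
    x ∈ AA := by
  have hsmul : ∀ (Z : AA) (v : M), Z • v = Z.1 v := fun Z v => rfl
  have hq : ∀ (a : ℚ) (v : M), (algebraMap ℚ AA a) • v = a • v := fun a v => rfl
  have hss : IsSemisimpleModule AA M := by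
    refine { exists_isCompl := fun W => ?_ }
    let W₀ : Submodule ℚ M :=
      { carrier := W
        add_mem' := fun ha hb => W.add_mem ha hb
        zero_mem' := W.zero_mem
        smul_mem' := fun a v hv => by
          rw [← hq a v]
          exact W.smul_mem _ hv }
    obtain ⟨W', h1, h2⟩ := hc W₀ fun Z hZ w hw => W.smul_mem (⟨Z, hZ⟩ : AA) hw
    let W'' : Submodule AA M :=
      { carrier := W'
        add_mem' := fun ha hb => W'.add_mem ha hb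
        zero_mem' := W'.zero_mem
        smul_mem' := fun Z v hv => h1 Z.1 Z.2 v hv }
    refine ⟨W'', ?_⟩
    rw [isCompl_iff, Submodule.disjoint_def, codisjoint_iff, Submodule.eq_top_iff'] at h2 ⊢
    refine ⟨fun v hv hv' => h2.1 v hv hv', fun v => ?_⟩
    obtain ⟨a, ha, b, hb, hab⟩ := Submodule.mem_sup.1 (h2.2 v)
    exact Submodule.mem_sup.2 ⟨a, ha, b, hb, hab⟩
  have hend : ∀ (φ : Module.End AA M) (v : M), x (φ v) = φ (x v) := by
    intro φ v
    let φ₀ : Module.End ℚ M :=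
      { toFun := φ
        map_add' := φ.map_add
        map_smul' := fun a v => φ.map_smul (algebraMap ℚ AA a) v }
    have h1 := hx φ₀ fun Z hZ => by
      refine LinearMap.ext fun v => ?_
      exact φ.map_smul (⟨Z, hZ⟩ : AA) v
    exact congrArg (fun M => M v) h1
  let f : Module.End (Module.End AA M) M :=
    { toFun := fun v => x v
      map_add' := fun u v => x.map_add u v
      map_smul' := fun φ v => hend φ v }
  obtain ⟨s, hs⟩ := Module.Finite.fg_top (R := ℚ) (M := M)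
  obtain ⟨r, hr⟩ := jacobson_density (R := AA) (M := M) f s
  have h3 : x = r.1 := by
    refine LinearMap.ext_on hs fun v hv => ?_
    exact hr v hv
  rw [h3]
  exact r.2

/-- The bicommutant theorem for matrices. -/
theorem bicommutant (AA : Subalgebra ℚ (Matrix ι ι ℚ))
    (hc : ∀ W : Submodule ℚ (ι → ℚ), (∀ Z ∈ AA, ∀ w ∈ W, Z *ᵥ w ∈ W) →
      ∃ W' : Submodule ℚ (ι → ℚ), (∀ Z ∈ AA, ∀ w ∈ W', Z *ᵥ w ∈ W') ∧ IsCompl W W')
    (x : Matrix ι ι ℚ) (hx : ∀ B : Matrix ι ι ℚ, (∀ Z ∈ AA, B * Z = Z * B) → x * B = B * x) :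
    x ∈ AA := by
  set e : Matrix ι ι ℚ ≃ₐ[ℚ] Module.End ℚ (ι → ℚ) := Matrix.toLinAlgEquiv' with he
  have hea : ∀ (Z : Matrix ι ι ℚ) (v : ι → ℚ), e Z v = Z *ᵥ v := fun Z v => by
    rw [he, Matrix.toLinAlgEquiv'_apply]
  have h := bicommutant_end (AA.map (e : Matrix ι ι ℚ →ₐ[ℚ] Module.End ℚ (ι → ℚ))) ?_ (e x) ?_
  · obtain ⟨y, hy, hxy⟩ := h
    have : y = x := e.injective hxy
    rwa [← this]
  · intro W hW
    obtain ⟨W', h1, h2⟩ := hc W fun Z hZ w hw => by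
      have := hW (e Z) ⟨Z, hZ, rfl⟩ w hw
      rwa [hea] at this
    refine ⟨W', ?_, h2⟩
    rintro _ ⟨Z, hZ, rfl⟩ w hw
    have := h1 Z hZ w hw
    rwa [← hea] at this
  · intro B hB
    obtain ⟨B, rfl⟩ := e.surjective B
    have h1 := hx B fun Z hZ => by
      apply e.injective
      rw [map_mul, map_mul]
      exact hB (e Z) ⟨Z, hZ, rfl⟩
    rw [← map_mul, ← map_mul, h1]

/-! ## The adjoint of an endomorphism -/

theorem isAlg_mul {μ ν κ : Type} [Fintype ν] {A : Matrix μ ν ℂ} {B : Matrix ν κ ℂ} (hA : IsAlg A)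
    (hB : IsAlg B) : IsAlg (A * B) := fun i j => by
  rw [Matrix.mul_apply]
  exact sum_mem fun k _ => mul_mem (hA i k) (hB k j)

theorem isAlg_transpose {μ ν : Type} {A : Matrix μ ν ℂ} (hA : IsAlg A) : IsAlg Aᵀ :=
  fun i j => hA j i

theorem isAlg_inv {A : Matrix ι ι ℂ} (hA : IsAlg A) : IsAlg A⁻¹ := by
  set A₀ : Matrix ι ι Qbar := fun i j => ⟨A i j, hA i j⟩ with hA₀
  have h1 : A = A₀.map (algebraMap Qbar ℂ) := rfl
  intro i j
  by_cases h : IsUnit A₀.det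
  · have h2 : A * (A₀⁻¹).map (algebraMap Qbar ℂ) = 1 := by
      rw [h1, ← Matrix.map_mul, Matrix.mul_nonsing_inv _ h, Matrix.map_one _ (map_zero _) (map_one _)]
    rw [Matrix.inv_eq_right_inv h2]
    exact (A₀⁻¹ i j).2
  · have h3 : A.det = 0 := by
      have h4 : A.det = algebraMap Qbar ℂ A₀.det := by
        rw [h1, RingHom.map_det]
        rfl
      rw [isUnit_iff_ne_zero, not_not] at h
      rw [h4, h, map_zero]
    rw [Matrix.nonsing_inv_apply_not_isUnit _ (by rw [h3]; exact not_isUnit_zero)]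
    exact zero_mem _

theorem mC_mul {l m n : Type} [Fintype m] (A : Matrix l m ℚ) (B : Matrix m n ℚ) :
    mC (A * B) = mC A * mC B :=
  Matrix.map_mul (f := Rat.castHom ℂ)

theorem mR_mul {l m n : Type} [Fintype m] (A : Matrix l m ℚ) (B : Matrix m n ℚ) :
    mR (A * B) = mR A * mR B :=
  Matrix.map_mul (f := Rat.castHom ℝ)

theorem mC_inj {m n : Type} {A B : Matrix m n ℚ} (h : mC A = mC B) : A = B := by
  ext i j
  have := congrFun (congrFun h i) j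
  simpa using this

theorem mC_inv_mul {ψ : Matrix ι ι ℚ} (h : ψ.det ≠ 0) : mC ψ⁻¹ * mC ψ = 1 := by
  rw [← mC_mul, Matrix.nonsing_inv_mul _ (isUnit_iff_ne_zero.2 h)]
  exact Matrix.map_one _ Rat.cast_zero Rat.cast_one

theorem mC_mul_inv {ψ : Matrix ι ι ℚ} (h : ψ.det ≠ 0) : mC ψ * mC ψ⁻¹ = 1 := by
  rw [← mC_mul, Matrix.mul_nonsing_inv _ (isUnit_iff_ne_zero.2 h)]
  exact Matrix.map_one _ Rat.cast_zero Rat.cast_one

theorem mC_inv {ψ : Matrix ι ι ℚ} (h : ψ.det ≠ 0) : mC ψ⁻¹ = (mC ψ)⁻¹ :=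
  (Matrix.inv_eq_left_inv (mC_inv_mul h)).symm

theorem mC_transpose {m n : Type} (A : Matrix m n ℚ) : mC Aᵀ = (mC A)ᵀ := rfl

theorem cinv_mul (c : GL ι ℂ) : c⁻¹.1 * c.1 = 1 := by
  rw [← Units.val_mul, inv_mul_cancel, Units.val_one]

theorem mul_cinv (c : GL ι ℂ) : c.1 * c⁻¹.1 = 1 := by
  rw [← Units.val_mul, mul_inv_cancel, Units.val_one]

theorem adj_mem {c : GL ι ℂ} {J : Matrix ι ι ℝ} {ψ : Matrix ι ι ℚ} (h : HD c J ψ)
    {B : Matrix ι ι ℚ} (hB : B ∈ EndAlg c.1) : adj ψ B ∈ EndAlg c.1 := by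
  obtain ⟨B', hB', hcB⟩ := hB
  obtain ⟨D, hD, hleg⟩ := h.leg
  set π' : ℂ := 2 * Real.pi * Complex.I with hπ'
  have hπ : π' ≠ 0 := by
    rw [hπ']
    simp [Real.pi_ne_zero, Complex.I_ne_zero]
  -- `D` is invertible
  have hDdet : IsUnit D.det := by
    rw [isUnit_iff_ne_zero]
    intro h0
    have h1 : (π' • D).det = 0 := by rw [Matrix.det_smul, h0, mul_zero]
    rw [← hleg, Matrix.det_mul, Matrix.det_mul, Matrix.det_transpose] at h1
    have h2 : c.1.det ≠ 0 := (Matrix.isUnit_iff_isUnit_det _).1 c.isUnit |>.ne_zero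
    have h3 : (mC ψ).det ≠ 0 := by
      have h4 : (mC ψ).det = (ψ.det : ℂ) := by
        have := (RingHom.map_det (Rat.castHom ℂ) ψ).symm
        exact this
      rw [h4]
      exact_mod_cast h.det
    exact mul_ne_zero (mul_ne_zero h2 h3) h2 h1
  refine ⟨D⁻¹ * B'ᵀ * D, isAlg_mul (isAlg_mul (isAlg_inv hD) (isAlg_transpose hB')) hD, ?_⟩
  -- `c D⁻¹ B'ᵀ D = ψ⁻¹ Bᵀ ψ c`
  have h1 : mC ψ * c.1 = π' • ((c⁻¹.1)ᵀ * D) := by
    have h2 : (c⁻¹.1)ᵀ * (c.1ᵀ * mC ψ * c.1) = (c⁻¹.1)ᵀ * (π' • D) := by rw [hleg]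
    rw [← Matrix.mul_assoc, ← Matrix.mul_assoc, ← Matrix.transpose_mul, mul_cinv,
      Matrix.transpose_one, Matrix.one_mul, Matrix.mul_smul] at h2
    exact h2
  have h3 : (mC B)ᵀ * (c⁻¹.1)ᵀ = (c⁻¹.1)ᵀ * B'ᵀ := by
    rw [← Matrix.transpose_mul, ← Matrix.transpose_mul]
    congr 1
    have h4 : c⁻¹.1 * (c.1 * B') * c⁻¹.1 = c⁻¹.1 * (mC B * c.1) * c⁻¹.1 := by rw [hcB]
    rw [← Matrix.mul_assoc, cinv_mul, Matrix.one_mul, Matrix.mul_assoc, Matrix.mul_assoc (mC B),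
      mul_cinv, Matrix.mul_one] at h4
    exact h4.symm
  have h5 : mC ψ * (c.1 * (D⁻¹ * B'ᵀ * D)) = mC ψ * (mC (adj ψ B) * c.1) := by
    have h6 : mC (adj ψ B) = mC ψ⁻¹ * (mC B)ᵀ * mC ψ := by
      rw [adj, mC_mul, mC_mul, mC_transpose]
    rw [h6, ← Matrix.mul_assoc, h1, ← Matrix.mul_assoc (mC ψ), ← Matrix.mul_assoc (mC ψ),
      ← Matrix.mul_assoc (mC ψ), mC_mul_inv h.det, Matrix.one_mul, Matrix.mul_assoc (mC B)ᵀ, h1,
      Matrix.mul_smul, Matrix.smul_mul]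
    congr 1
    rw [← Matrix.mul_assoc (mC B)ᵀ, h3, Matrix.mul_assoc (c⁻¹.1)ᵀ D, ← Matrix.mul_assoc D,
      ← Matrix.mul_assoc D, Matrix.mul_nonsing_inv _ hDdet, Matrix.one_mul, Matrix.mul_assoc]
  have h7 : mC ψ⁻¹ * (mC ψ * (c.1 * (D⁻¹ * B'ᵀ * D))) =
      mC ψ⁻¹ * (mC ψ * (mC (adj ψ B) * c.1)) := by rw [h5]
  rwa [← Matrix.mul_assoc, ← Matrix.mul_assoc (mC ψ⁻¹), mC_inv_mul h.det, Matrix.one_mul,
    Matrix.one_mul] at h7

/-! ## Semisimplicity -/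

/-- vectors with rational coordinates, as complex vectors -/
theorem mem_spanC_of {J : Type} {W : Submodule ℚ (J → ℚ)} {w : J → ℚ} (hw : w ∈ W) :
    (fun j => (w j : ℂ)) ∈ spanC W :=
  Submodule.subset_span ⟨w, hw, rfl⟩

theorem mC_mulVec {m n : Type} [Fintype n] (A : Matrix m n ℚ) (v : n → ℚ) :
    mC A *ᵥ (fun j => (v j : ℂ)) = fun i => ((A *ᵥ v) i : ℂ) := by
  ext i
  simp [Matrix.mulVec, dotProduct]

omit [DecidableEq ι] in
/-- A rational matrix which preserves a rational subspace preserves its complexification. -/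
theorem mC_mulVec_mem {W : Submodule ℚ (ι → ℚ)} {Z : Matrix ι ι ℚ} (h : ∀ w ∈ W, Z *ᵥ w ∈ W)
    {w : ι → ℂ} (hw : w ∈ spanC W) : mC Z *ᵥ w ∈ spanC W := by
  have h1 : spanC W ≤ (spanC W).comap (mC Z).mulVecLin := by
    refine Submodule.span_le.2 ?_
    rintro _ ⟨u, hu, rfl⟩
    change mC Z *ᵥ (fun j => (u j : ℂ)) ∈ spanC W
    rw [mC_mulVec]
    exact mem_spanC_of (h u hu)
  exact h1 hw

/-- The rational elements of the Lie algebra. -/
def hQ (c : GL ι ℂ) : Set (Matrix ι ι ℚ) := {Z | InH c (mC Z)}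

/-- The matrices which preserve a subspace. -/
def stab (W : Submodule ℚ (ι → ℚ)) : Subalgebra ℚ (Matrix ι ι ℚ) where
  carrier := {Z | ∀ w ∈ W, Z *ᵥ w ∈ W}
  mul_mem' := fun {a b} ha hb w hw => by
    rw [← Matrix.mulVec_mulVec]
    exact ha _ (hb w hw)
  add_mem' := fun {a b} ha hb w hw => by
    rw [Matrix.add_mulVec]
    exact W.add_mem (ha w hw) (hb w hw)
  algebraMap_mem' := fun r w hw => by
    rw [Algebra.algebraMap_eq_smul_one, Matrix.smul_mulVec, Matrix.one_mulVec]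
    exact W.smul_mem r hw

/-- Subspaces stable under the rational elements are stable under the whole Lie algebra. -/
theorem inH_stable (hL : SpecLIN) {c : GL ι ℂ} {W : Submodule ℚ (ι → ℚ)}
    (hW : ∀ Z ∈ hQ c, ∀ w ∈ W, Z *ᵥ w ∈ W) {X : Matrix ι ι ℂ} (hX : InH c X) {w : ι → ℂ}
    (hw : w ∈ spanC W) : X *ᵥ w ∈ spanC W := by
  have h1 := (hL c).2.2.2.2 X hX
  clear hX
  induction h1 using Submodule.span_induction with
  | mem Y hY =>
    obtain ⟨Z, rfl, hZ⟩ := hY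
    exact mC_mulVec_mem (hW Z hZ) hw
  | zero =>
    rw [Matrix.zero_mulVec]
    exact zero_mem _
  | add Y Y' _ _ h h' =>
    rw [Matrix.add_mulVec]
    exact add_mem h h'
  | smul a Y _ h =>
    rw [Matrix.smul_mulVec]
    exact Submodule.smul_mem _ _ h

/-- The bilinear form. -/
theorem toBilin_apply (ψ : Matrix ι ι ℚ) (v w : ι → ℚ) :
    Matrix.toBilin' ψ v w = v ⬝ᵥ (ψ *ᵥ w) := Matrix.toBilin'_apply' ψ v w

omit [DecidableEq ι] in
theorem skew_dot {ψ : Matrix ι ι ℚ} (h : ψᵀ = -ψ) (v w : ι → ℚ) :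
    v ⬝ᵥ (ψ *ᵥ w) = -(w ⬝ᵥ (ψ *ᵥ v)) := by
  rw [Matrix.dotProduct_mulVec, ← Matrix.mulVec_transpose, h, Matrix.neg_mulVec,
    neg_dotProduct, dotProduct_comm]

theorem isRefl {ψ : Matrix ι ι ℚ} (h : ψᵀ = -ψ) : (Matrix.toBilin' ψ).IsRefl := by
  intro v w hvw
  rw [toBilin_apply] at hvw ⊢
  rw [skew_dot h, hvw, neg_zero]

omit [DecidableEq ι] in
/-- The extension of scalars of an orthogonality relation. -/
theorem dot_span_zero {ψ : Matrix ι ι ℚ} {W : Submodule ℚ (ι → ℚ)} {w : ι → ℚ}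
    (h : ∀ u ∈ W, u ⬝ᵥ (ψ *ᵥ w) = 0) {v : ι → ℝ}
    (hv : v ∈ Submodule.span ℝ {v : ι → ℝ | ∃ u ∈ W, v = fun i => (u i : ℝ)}) :
    v ⬝ᵥ (mR ψ *ᵥ fun i => (w i : ℝ)) = 0 := by
  induction hv using Submodule.span_induction with
  | mem v hv =>
    obtain ⟨u, hu, rfl⟩ := hv
    have h1 := congrArg (fun q : ℚ => (q : ℝ)) (h u hu)
    simpa [Matrix.mulVec, dotProduct] using h1
  | zero => rw [zero_dotProduct]
  | add u v _ _ hu hv => rw [add_dotProduct, hu, hv, add_zero]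
  | smul a v _ hv => rw [smul_dotProduct, hv, smul_zero]

/-- Stable subspaces have stable complements. -/
theorem exists_compl (hL : SpecLIN) (hD : SpecDER) (hS : SpecSIM) {c : GL ι ℂ}
    {J : Matrix ι ι ℝ} {ψ : Matrix ι ι ℚ} (h : HD c J ψ) (W : Submodule ℚ (ι → ℚ))
    (hW : ∀ Z ∈ hQ c, ∀ w ∈ W, Z *ᵥ w ∈ W) :
    ∃ W' : Submodule ℚ (ι → ℚ), (∀ Z ∈ hQ c, ∀ w ∈ W', Z *ᵥ w ∈ W') ∧ IsCompl W W' := by
  have hdef : DefQbar ((spanC W).comap c.1.mulVecLin) :=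
    (hD c).2.1 W fun δ w hw => inH_stable hL hW ((hD c).1 δ) hw
  have hJ := h.sub W hdef
  have hzero : ∀ w ∈ W, (∀ u ∈ W, u ⬝ᵥ (ψ *ᵥ w) = 0) → w = 0 := by
    intro w hw hu
    by_contra hne
    have hne' : (fun i => (w i : ℝ)) ≠ 0 := by
      intro h0
      apply hne
      ext i
      have := congrFun h0 i
      simpa using this
    have h1 := h.pos _ hne'
    have h2 := dot_span_zero hu (hJ w hw)
    have h3 : (fun i => (w i : ℝ)) ⬝ᵥ ((mR ψ * J) *ᵥ fun i => (w i : ℝ)) =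
        -((J *ᵥ fun i => (w i : ℝ)) ⬝ᵥ (mR ψ *ᵥ fun i => (w i : ℝ))) := by
      rw [← Matrix.mulVec_mulVec, Matrix.dotProduct_mulVec, ← Matrix.mulVec_transpose]
      have h4 : (mR ψ)ᵀ = -mR ψ := by
        have := congrArg (fun M : Matrix ι ι ℚ => mR M) h.skew
        ext i j
        have h5 := congrFun (congrFun this i) j
        simpa using h5
      rw [h4, Matrix.neg_mulVec, neg_dotProduct, dotProduct_comm]
    rw [h3, h2, neg_zero] at h1
    exact lt_irrefl _ h1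
  set b := Matrix.toBilin' ψ with hb
  have hnd : (b.restrict W).Nondegenerate := by
    constructor
    · intro w hw
      refine Subtype.ext (hzero w.1 w.2 fun u hu => ?_)
      have h1 := hw ⟨u, hu⟩
      have h2 : b w.1 u = 0 := h1
      have h3 := isRefl h.skew _ _ h2
      rwa [toBilin_apply] at h3
    · intro w hw
      refine Subtype.ext (hzero w.1 w.2 fun u hu => ?_)
      have h1 := hw ⟨u, hu⟩
      have h2 : b u w.1 = 0 := h1
      rwa [hb, toBilin_apply] at h2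
  refine ⟨b.orthogonal W, ?_,
    LinearMap.BilinForm.isCompl_orthogonal_of_restrict_nondegenerate (isRefl h.skew) hnd⟩
  intro Z hZ v hv
  rw [LinearMap.BilinForm.mem_orthogonal_iff] at hv ⊢
  intro w hw
  have hv' : ∀ w ∈ W, w ⬝ᵥ (ψ *ᵥ v) = 0 := fun w hw => by
    have := hv w hw
    rwa [hb, toBilin_apply] at this
  change b w (Z *ᵥ v) = 0
  rw [hb, toBilin_apply]
  obtain ⟨m, hm⟩ := (hS c J ψ h).2.1 (mC Z) hZ
  -- over the complex numbers
  have h1 : (((w ⬝ᵥ (ψ *ᵥ (Z *ᵥ v)) : ℚ)) : ℂ) =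
      (fun i => (w i : ℂ)) ⬝ᵥ ((mC ψ * mC Z) *ᵥ fun i => (v i : ℂ)) := by
    rw [← mC_mul, mC_mulVec, Matrix.mulVec_mulVec]
    simp [dotProduct]
  have h2 : mC ψ * mC Z = m • mC ψ - mC (Zᵀ * ψ) := by
    rw [← hm, mC_mul, mC_transpose]
    abel
  have h3 : (fun i => (w i : ℂ)) ⬝ᵥ ((mC ψ * mC Z) *ᵥ fun i => (v i : ℂ)) =
      m * ((w ⬝ᵥ (ψ *ᵥ v) : ℚ) : ℂ) - (((Z *ᵥ w) ⬝ᵥ (ψ *ᵥ v) : ℚ) : ℂ) := by
    rw [h2, Matrix.sub_mulVec, dotProduct_sub, Matrix.smul_mulVec, dotProduct_smul, mC_mulVec,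
      mC_mulVec, smul_eq_mul]
    congr 1
    · simp [dotProduct]
    · have h4 : (Z *ᵥ w) ⬝ᵥ (ψ *ᵥ v) = w ⬝ᵥ ((Zᵀ * ψ) *ᵥ v) := by
        rw [← Matrix.mulVec_mulVec, Matrix.dotProduct_mulVec w, ← Matrix.mulVec_transpose,
          Matrix.transpose_transpose]
      rw [h4]
      simp [dotProduct]
  rw [hv' w hw, hv' _ (hW Z hZ w hw), Rat.cast_zero, mul_zero, sub_zero] at h3
  rw [h3] at h1
  exact_mod_cast h1

/-- The matrices which commute with the rational elements of the Lie algebra are endomorphisms. -/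
theorem commutant_mem (hL : SpecLIN) (hD : SpecDER) {c : GL ι ℂ} {B : Matrix ι ι ℚ}
    (hB : ∀ Z ∈ hQ c, B * Z = Z * B) : B ∈ EndAlg c.1 := by
  refine (hD c).2.2 B fun δ => ?_
  have h1 := (hL c).2.2.2.2 _ ((hD c).1 δ)
  generalize c.1.map δ * c⁻¹.1 = X at h1
  induction h1 using Submodule.span_induction with
  | mem Y hY =>
    obtain ⟨Z, rfl, hZ⟩ := hY
    rw [← mC_mul, ← mC_mul, hB Z hZ]
  | zero => rw [Matrix.zero_mul, Matrix.mul_zero]
  | add Y Y' _ _ h h' => rw [Matrix.add_mul, Matrix.mul_add, h, h']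
  | smul a Y _ h => rw [Matrix.smul_mul, Matrix.mul_smul, h]

/-- Module BIC. -/
theorem specBIC (hL : SpecLIN) (hD : SpecDER) (hS : SpecSIM) : SpecBIC := by
  intro ι _ _ c J ψ h
  refine ⟨fun B hB => adj_mem h hB, le_antisymm ?_ ?_⟩
  · intro x hx
    refine bicommutant _ ?_ x ?_
    · intro W hW
      obtain ⟨W', h1, h2⟩ := exists_compl hL hD hS h W fun Z hZ w hw =>
        hW Z (Algebra.subset_adjoin hZ) w hw
      refine ⟨W', fun Z hZ w hw => ?_, h2⟩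
      have h3 : Algebra.adjoin ℚ {Z : Matrix ι ι ℚ | InH c (mC Z)} ≤ stab W' :=
        Algebra.adjoin_le fun Z hZ => h1 Z hZ
      exact h3 hZ w hw
    · intro B hB
      have h1 : B ∈ EndAlg c.1 := commutant_mem hL hD fun Z hZ => hB Z (Algebra.subset_adjoin hZ)
      exact ((Subalgebra.mem_centralizer_iff ℚ).1 hx B h1).symm
  · refine Algebra.adjoin_le fun Z hZ => ?_
    refine (Subalgebra.mem_centralizer_iff ℚ).2 fun B hB => ?_
    apply mC_inj
    rw [mC_mul, mC_mul]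
    exact ((hS c J ψ h).1 _ hZ B hB).symm

end Pool.Agent.Lib.MPf11a48.U.BicM
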