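import Pool.Agent.Lib.MP_f11a48_ag.U.SpecR
import Pool.Agent.Lib.MP_f11a48_ag.helper92.LA2

/-! # MP_f11a48_ag, project U, module GOU: Goursat's lemma for `sl_2`'s -/

set_option autoImplicit false

open Matrix

namespace Pool.Agent.Lib.MPf11a48.U

namespace GouM

open Pool.Agent.Lib.MPf11a48.GL2

variable {κ σ : Type}

/-- the algebra -/
abbrev BA (κ σ : Type) : Type := (κ → M2 ℂ) × (σ → ℂ)

/-- the anticommutator of traceless matrices is scalar -/
theorem mul_of_traceless {A B : M2 ℂ} (hA : A.trace = 0) (hB : B.trace = 0) :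
    A * B = (1 / 2 : ℂ) • (A * B - B * A) + ((A * B).trace / 2) • 1 := by
  have a3 := apply_one_one_of_trace hA
  have b3 := apply_one_one_of_trace hB
  rw [tr2]
  refine ext2 ?_ ?_ ?_ ?_ <;>
    simp only [Matrix.add_apply, Matrix.smul_apply, Matrix.sub_apply, mul2, smul_eq_mul, a3, b3,
      Matrix.one_apply_eq, Matrix.one_apply_ne (show (0 : Fin 2) ≠ 1 by decide),
      Matrix.one_apply_ne (show (1 : Fin 2) ≠ 0 by decide)] <;> ring

/-- the Lie algebra generated by the `sl_2` components -/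
structure SLie (D : Submodule ℂ (κ → M2 ℂ)) : Prop where
  br : ∀ X ∈ D, ∀ Y ∈ D, X * Y - Y * X ∈ D
  tr : ∀ X ∈ D, ∀ k, (X k).trace = 0
  surj : ∀ k, ∀ A : M2 ℂ, A.trace = 0 → ∃ X ∈ D, X k = A

/-- if the components `i` and `j` determine each other, they are conjugate -/
theorem exists_intertwiner' {D : Submodule ℂ (κ → M2 ℂ)} (h : SLie D) {i j : κ}
    (hij : ∀ X ∈ D, X j = 0 → X i = 0) :
    ∃ g : M2 ℂ, g.det ≠ 0 ∧ ∀ X ∈ D, X i * g = g * X j := by
  obtain ⟨XE, hXE, hEj⟩ := h.surj j (mE ℂ) trace_mE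
  obtain ⟨XF, hXF, hFj⟩ := h.surj j (mF ℂ) trace_mF
  obtain ⟨XH, hXH, hHj⟩ := h.surj j (mH ℂ) trace_mH
  have det : ∀ X ∈ D, X i = X j 0 0 • XH i + X j 0 1 • XE i + X j 1 0 • XF i := by
    intro X hX
    have h1 := hij (X - (X j 0 0 • XH + X j 0 1 • XE + X j 1 0 • XF))
      (D.sub_mem hX (D.add_mem (D.add_mem (D.smul_mem _ hXH) (D.smul_mem _ hXE))
        (D.smul_mem _ hXF))) (by
        simp only [Pi.sub_apply, Pi.add_apply, Pi.smul_apply]
        rw [hHj, hEj, hFj, ← eq_comb (h.tr X hX j), sub_self])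
    simp only [Pi.sub_apply, Pi.add_apply, Pi.smul_apply] at h1
    exact sub_eq_zero.1 h1
  have r1 : XH i * XE i - XE i * XH i = (2 : ℂ) • XE i := by
    have h1 := det _ (h.br _ hXH _ hXE)
    simp only [Pi.sub_apply, Pi.mul_apply] at h1
    rw [hHj, hEj, bracket_HE] at h1
    rw [h1]
    simp [mE]
  have r2 : XH i * XF i - XF i * XH i = -((2 : ℂ) • XF i) := by
    have h1 := det _ (h.br _ hXH _ hXF)
    simp only [Pi.sub_apply, Pi.mul_apply] at h1
    rw [hHj, hFj, bracket_HF] at h1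
    rw [h1]
    simp [mF]
  have r3 : XE i * XF i - XF i * XE i = XH i := by
    have h1 := det _ (h.br _ hXE _ hXF)
    simp only [Pi.sub_apply, Pi.mul_apply] at h1
    rw [hEj, hFj, bracket_EF] at h1
    rw [h1]
    simp [mH]
  have he0 : XE i ≠ 0 := by
    intro he0
    have hw0 : XH i = 0 := by rw [← r3, he0, zero_mul, mul_zero, sub_zero]
    have hf0 : XF i = 0 := by
      rw [hw0, zero_mul, mul_zero, sub_zero] at r2
      have := neg_eq_zero.1 r2.symm
      exact (smul_eq_zero.1 this).resolve_left two_ne_zero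
    obtain ⟨X, hX, hXi⟩ := h.surj i (mE ℂ) trace_mE
    have h1 := det X hX
    rw [hXi, he0, hw0, hf0] at h1
    have h2 := congrFun (congrFun h1 0) 1
    simp [mE] at h2
  obtain ⟨g, hg, g1, g2, g3⟩ := exists_conj_triple he0 r1 r2 r3
  refine ⟨g, hg, fun X hX => ?_⟩
  rw [det X hX, add_mul, add_mul, smul_mul_assoc, smul_mul_assoc, smul_mul_assoc, g1, g2, g3]
  conv_rhs => rw [eq_comb (h.tr X hX j), mul_add, mul_add, mul_smul_comm, mul_smul_comm, mul_smul_comm]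

/-- pairwise independence implies independence -/
theorem full' [Finite κ] {D : Submodule ℂ (κ → M2 ℂ)} (h : SLie D)
    (hp : ∀ i j, i ≠ j → ∃ X ∈ D, X j = 0 ∧ X i ≠ 0) {A : κ → M2 ℂ}
    (hA : ∀ k, (A k).trace = 0) : A ∈ D := by
  classical
  cases nonempty_fintype κ
  -- two components
  have hpair : ∀ i j, i ≠ j → ∀ A : M2 ℂ, A.trace = 0 → ∃ X ∈ D, X i = A ∧ X j = 0 := by
    intro i j hij A hA
    obtain ⟨X, hX, hXj, hXi⟩ := hp i j hij
    let Q : Submodule ℂ (M2 ℂ) :=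
      (D ⊓ LinearMap.ker (LinearMap.proj j : (κ → M2 ℂ) →ₗ[ℂ] M2 ℂ)).map (LinearMap.proj i)
    have h1 : A ∈ Q := by
      refine sl2_simple (N := Q) ?_ (X := X i) ⟨X, ⟨hX, LinearMap.mem_ker.2 hXj⟩, rfl⟩ hXi
        (h.tr X hX i) hA
      rintro B C hB ⟨Y, ⟨hY, hYj⟩, rfl⟩
      obtain ⟨Z, hZ, hZi⟩ := h.surj i B hB
      have hYj' : Y j = 0 := LinearMap.mem_ker.1 hYj
      refine ⟨Z * Y - Y * Z, ⟨h.br Z hZ Y hY, ?_⟩, ?_⟩
      · refine LinearMap.mem_ker.2 ?_
        change Z j * Y j - Y j * Z j = 0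
        rw [hYj', mul_zero, zero_mul, sub_zero]
      · change Z i * Y i - Y i * Z i = B * Y i - Y i * B
        rw [hZi]
    obtain ⟨Y, ⟨hY, hYj⟩, hYi⟩ := h1
    exact ⟨Y, hY, hYi, LinearMap.mem_ker.1 hYj⟩
  -- all components
  have hmany : ∀ (i : κ) (J : Finset κ), i ∉ J → ∀ A : M2 ℂ, A.trace = 0 →
      ∃ X ∈ D, X i = A ∧ ∀ j ∈ J, X j = 0 := by
    intro i J
    induction J using Finset.induction_on with
    | empty =>
      intro _ A hA
      obtain ⟨X, hX, hXi⟩ := h.surj i A hA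
      exact ⟨X, hX, hXi, fun j hj => absurd hj (Finset.notMem_empty j)⟩
    | insert j J hj ih =>
      intro hi A hA
      have hij : i ≠ j := fun e => hi (e ▸ Finset.mem_insert_self j J)
      have hiJ : i ∉ J := fun e => hi (Finset.mem_insert_of_mem e)
      refine sl2_induction (P := fun A => ∃ X ∈ D, X i = A ∧ ∀ j' ∈ insert j J, X j' = 0)
        ?_ ?_ ?_ hA
      · rintro B C ⟨X, hX, rfl, hX0⟩ ⟨Y, hY, rfl, hY0⟩
        exact ⟨X + Y, D.add_mem hX hY, rfl, fun j' hj' => by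
          rw [Pi.add_apply, hX0 j' hj', hY0 j' hj', add_zero]⟩
      · rintro t B ⟨X, hX, rfl, hX0⟩
        exact ⟨t • X, D.smul_mem t hX, rfl, fun j' hj' => by
          rw [Pi.smul_apply, hX0 j' hj', smul_zero]⟩
      · intro B C hB hC
        obtain ⟨X, hX, hXi, hX0⟩ := ih hiJ B hB
        obtain ⟨Y, hY, hYi, hY0⟩ := hpair i j hij C hC
        refine ⟨X * Y - Y * X, h.br X hX Y hY, ?_, fun j' hj' => ?_⟩
        · rw [Pi.sub_apply, Pi.mul_apply, Pi.mul_apply, hXi, hYi]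
        · rw [Pi.sub_apply, Pi.mul_apply, Pi.mul_apply]
          rcases Finset.mem_insert.1 hj' with rfl | hj''
          · rw [hY0, mul_zero, zero_mul, sub_zero]
          · rw [hX0 j' hj'', mul_zero, zero_mul, sub_zero]
  -- conclusion
  have hsingle : ∀ i, (Pi.single i (A i) : κ → M2 ℂ) ∈ D := by
    intro i
    obtain ⟨X, hX, hXi, hX0⟩ := hmany i (Finset.univ.erase i) (Finset.notMem_erase i _) (A i) (hA i)
    have : X = Pi.single i (A i) := by
      funext j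
      by_cases hj : j = i
      · subst hj
        rw [hXi, Pi.single_eq_same]
      · rw [hX0 j (Finset.mem_erase.2 ⟨hj, Finset.mem_univ j⟩), Pi.single_eq_of_ne hj]
    rw [← this]
    exact hX
  rw [← Finset.univ_sum_single A]
  exact D.sum_mem fun i _ => hsingle i

/-- the traceless part -/
def Dof (N : Submodule ℂ (BA κ σ)) : Submodule ℂ (κ → M2 ℂ) where
  carrier := {x | (x, 0) ∈ N ∧ ∀ k, (x k).trace = 0}
  add_mem' := by
    rintro x y ⟨hx, hx'⟩ ⟨hy, hy'⟩
    refine ⟨?_, fun k => by rw [Pi.add_apply, Matrix.trace_add, hx', hy', add_zero]⟩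
    have := N.add_mem hx hy
    rwa [Prod.mk_add_mk, add_zero] at this
  zero_mem' := ⟨N.zero_mem, fun k => Matrix.trace_zero _ _⟩
  smul_mem' := by
    rintro t x ⟨hx, hx'⟩
    refine ⟨?_, fun k => by rw [Pi.smul_apply, Matrix.trace_smul, hx', smul_zero]⟩
    have := N.smul_mem t hx
    rwa [Prod.smul_mk, smul_zero] at this

theorem mem_Dof {N : Submodule ℂ (BA κ σ)} {x : κ → M2 ℂ} :
    x ∈ Dof N ↔ (x, 0) ∈ N ∧ ∀ k, (x k).trace = 0 := Iff.rfl

/-- brackets of elements are in the traceless part -/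
theorem bracket_mem {N : Submodule ℂ (BA κ σ)} (hbr : ∀ X ∈ N, ∀ Y ∈ N, X * Y - Y * X ∈ N)
    {X Y : BA κ σ} (hX : X ∈ N) (hY : Y ∈ N) : X.1 * Y.1 - Y.1 * X.1 ∈ Dof N := by
  refine mem_Dof.2 ⟨?_, fun k => ?_⟩
  · have h1 := hbr X hX Y hY
    have h2 : X * Y - Y * X = (X.1 * Y.1 - Y.1 * X.1, 0) := by
      refine Prod.ext rfl ?_
      change X.2 * Y.2 - Y.2 * X.2 = 0
      rw [mul_comm, sub_self]
    rwa [h2] at h1
  · rw [Pi.sub_apply, Pi.mul_apply, Pi.mul_apply, Matrix.trace_sub, Matrix.trace_mul_comm, sub_self]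

/-- the subalgebra of all elements whose component `k` is in `Q + ℂ` -/
def subQ (k : κ) (Q : Submodule ℂ (M2 ℂ)) (hQt : ∀ A ∈ Q, A.trace = 0)
    (hQ : ∀ A ∈ Q, ∀ B ∈ Q, A * B - B * A ∈ Q) : Subalgebra ℂ (BA κ σ) where
  carrier := {Y | tf (Y.1 k) ∈ Q}
  add_mem' := by
    intro X Y hX hY
    change tf (X.1 k + Y.1 k) ∈ Q
    rw [map_add]
    exact Q.add_mem hX hY
  mul_mem' := by
    intro X Y hX hY
    change tf (X.1 k * Y.1 k) ∈ Q
    change tf (X.1 k) ∈ Q at hX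
    change tf (Y.1 k) ∈ Q at hY
    have e1 : X.1 k = tf (X.1 k) + ((X.1 k).trace / 2) • 1 := by
      rw [tf_apply, sub_add_cancel]
    have e2 : Y.1 k = tf (Y.1 k) + ((Y.1 k).trace / 2) • 1 := by
      rw [tf_apply, sub_add_cancel]
    set A := tf (X.1 k)
    set B := tf (Y.1 k)
    have e3 : X.1 k * Y.1 k = (1 / 2 : ℂ) • (A * B - B * A) + ((Y.1 k).trace / 2) • A +
        ((X.1 k).trace / 2) • B +
        ((A * B).trace / 2 + (X.1 k).trace / 2 * ((Y.1 k).trace / 2)) • 1 := by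
      conv_lhs => rw [e1, e2]
      rw [add_mul, mul_add, mul_add, mul_smul_comm, mul_one, smul_mul_assoc, one_mul,
        smul_mul_smul_comm, mul_one]
      conv_lhs => rw [mul_of_traceless (hQt A hX) (hQt B hY)]
      module
    have e4 : tf (1 : M2 ℂ) = 0 := by
      rw [tf_apply, Matrix.trace_one, Fintype.card_fin]
      norm_num
    rw [e3, map_add, map_smul tf _ (1 : M2 ℂ), e4, smul_zero, add_zero]
    have h5 : ∀ C ∈ Q, tf C ∈ Q := fun C hC => by rwa [tf_of_trace (hQt C hC)]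
    exact h5 _ (Q.add_mem (Q.add_mem (Q.smul_mem _ (hQ A hX B hY)) (Q.smul_mem _ hX))
      (Q.smul_mem _ hY))
  algebraMap_mem' := by
    intro t
    have e1 : (algebraMap ℂ (BA κ σ) t).1 k = t • 1 := by
      rw [Prod.algebraMap_apply, Algebra.algebraMap_eq_smul_one]
      rfl
    change tf ((algebraMap ℂ (BA κ σ) t).1 k) ∈ Q
    rw [e1, map_smul]
    have e4 : tf (1 : M2 ℂ) = 0 := by
      rw [tf_apply, Matrix.trace_one, Fintype.card_fin]
      norm_num
    rw [e4, smul_zero]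
    exact Q.zero_mem

/-- the subalgebra of all elements whose components `i` and `j` are conjugate by `g` -/
def subG (i j : κ) (g : M2 ℂ) : Subalgebra ℂ (BA κ σ) where
  carrier := {Y | Y.1 i * g = g * Y.1 j}
  add_mem' := by
    intro X Y hX hY
    change (X.1 i + Y.1 i) * g = g * (X.1 j + Y.1 j)
    change X.1 i * g = g * X.1 j at hX
    change Y.1 i * g = g * Y.1 j at hY
    rw [add_mul, mul_add, hX, hY]
  mul_mem' := by
    intro X Y hX hY
    change (X.1 i * Y.1 i) * g = g * (X.1 j * Y.1 j)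
    change X.1 i * g = g * X.1 j at hX
    change Y.1 i * g = g * Y.1 j at hY
    rw [mul_assoc, hY, ← mul_assoc, hX, mul_assoc]
  algebraMap_mem' := by
    intro t
    have e1 : ∀ k, (algebraMap ℂ (BA κ σ) t).1 k = t • 1 := by
      intro k
      rw [Prod.algebraMap_apply, Algebra.algebraMap_eq_smul_one]
      rfl
    change (algebraMap ℂ (BA κ σ) t).1 i * g = g * (algebraMap ℂ (BA κ σ) t).1 j
    rw [e1, e1, smul_mul_assoc, one_mul, mul_smul_comm, mul_one]

/-- the main result -/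
theorem gou [Finite κ] (N : Submodule ℂ (BA κ σ)) (hbr : ∀ X ∈ N, ∀ Y ∈ N, X * Y - Y * X ∈ N)
    (htr : ∀ X ∈ N, ∃ m : ℂ, ∀ k, (X.1 k).trace = m)
    (hgen : Algebra.adjoin ℂ (N : Set (BA κ σ)) = ⊤) (x : κ → M2 ℂ)
    (hx : ∀ k, (x k).trace = 0) : (x, 0) ∈ N := by
  classical
  -- everything in `N` lies in a subalgebra, so everything does
  have hall : ∀ S : Subalgebra ℂ (BA κ σ), (∀ X ∈ N, X ∈ S) → ∀ Y, Y ∈ S := by
    intro S hS Y
    have h1 : Algebra.adjoin ℂ (N : Set (BA κ σ)) ≤ S := Algebra.adjoin_le hS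
    rw [hgen] at h1
    exact h1 Algebra.mem_top
  -- surjectivity onto each component, modulo scalars
  have hs0 : ∀ k, ∀ A : M2 ℂ, A.trace = 0 → ∃ X ∈ N, tf (X.1 k) = A := by
    intro k A hA
    let pr : BA κ σ →ₗ[ℂ] M2 ℂ := tf ∘ₗ (LinearMap.proj k : (κ → M2 ℂ) →ₗ[ℂ] M2 ℂ) ∘ₗ
      LinearMap.fst ℂ (κ → M2 ℂ) (σ → ℂ)
    let Q : Submodule ℂ (M2 ℂ) := N.map pr
    have hQt : ∀ B ∈ Q, B.trace = 0 := by
      rintro B ⟨X, _, rfl⟩
      exact trace_tf _
    have hQ : ∀ B ∈ Q, ∀ C ∈ Q, B * C - C * B ∈ Q := by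
      rintro B ⟨X, hX, rfl⟩ C ⟨Y, hY, rfl⟩
      refine ⟨X * Y - Y * X, hbr X hX Y hY, ?_⟩
      change tf (X.1 k * Y.1 k - Y.1 k * X.1 k) = tf (X.1 k) * tf (Y.1 k) - tf (Y.1 k) * tf (X.1 k)
      rw [tf_of_trace (by rw [Matrix.trace_sub, Matrix.trace_mul_comm, sub_self]), tf_apply,
        tf_apply]
      simp only [sub_mul, mul_sub, smul_mul_assoc, mul_smul_comm, mul_one, one_mul]
      module
    have h1 := hall (subQ k Q hQt hQ) (fun X hX => ⟨X, hX, rfl⟩) (fun _ => A, 0)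
    have h2 : tf A ∈ Q := h1
    rw [tf_of_trace hA] at h2
    obtain ⟨X, hX, hXA⟩ := h2
    exact ⟨X, hX, hXA⟩
  have hD : SLie (Dof N) := by
    refine ⟨fun X hX Y hY => ?_, fun X hX => hX.2, fun k A hA => ?_⟩
    · exact bracket_mem hbr (X := (X, 0)) (Y := (Y, 0)) hX.1 hY.1
    · refine sl2_induction (P := fun A => ∃ X ∈ Dof N, X k = A) ?_ ?_ ?_ hA
      · rintro A B ⟨X, hX, rfl⟩ ⟨Y, hY, rfl⟩
        exact ⟨X + Y, (Dof N).add_mem hX hY, rfl⟩
      · rintro t A ⟨X, hX, rfl⟩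
        exact ⟨t • X, (Dof N).smul_mem t hX, rfl⟩
      · intro A B hA hB
        obtain ⟨X, hX, hXA⟩ := hs0 k A hA
        obtain ⟨Y, hY, hYB⟩ := hs0 k B hB
        refine ⟨X.1 * Y.1 - Y.1 * X.1, bracket_mem hbr hX hY, ?_⟩
        rw [Pi.sub_apply, Pi.mul_apply, Pi.mul_apply]
        rw [tf_apply, sub_eq_iff_eq_add] at hXA hYB
        rw [hXA, hYB]
        simp only [add_mul, mul_add, smul_mul_assoc, mul_smul_comm, mul_one, one_mul]
        module
  have hp : ∀ i j, i ≠ j → ∃ X ∈ Dof N, X j = 0 ∧ X i ≠ 0 := by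
    intro i j hij
    by_contra hcon
    push Not at hcon
    obtain ⟨g, hg, hgN⟩ := exists_intertwiner' hD (i := i) (j := j) fun X hX h0 => hcon X hX h0
    have hgu : IsUnit g.det := isUnit_iff_ne_zero.2 hg
    have hGi : g⁻¹ * g = 1 := Matrix.nonsing_inv_mul g hgu
    have hGi' : g * g⁻¹ = 1 := Matrix.mul_nonsing_inv g hgu
    have key : ∀ Y ∈ N, Y.1 i * g = g * Y.1 j := by
      intro Y hY
      have hcomm : ∀ A : M2 ℂ, A.trace = 0 →
          A * (g⁻¹ * Y.1 i * g - Y.1 j) = (g⁻¹ * Y.1 i * g - Y.1 j) * A := by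
        intro A hA
        obtain ⟨X, hX, hXj⟩ := hD.surj j A hA
        have e1 := hgN X hX
        have e2 := hgN _ (bracket_mem hbr hY (Y := (X, 0)) hX.1)
        simp only [Pi.sub_apply, Pi.mul_apply] at e2
        rw [hXj] at e1 e2
        have e3 : X i = g * A * g⁻¹ := by
          rw [← e1, mul_assoc, hGi', mul_one]
        rw [e3] at e2
        have e4 : g⁻¹ * ((Y.1 i * (g * A * g⁻¹) - g * A * g⁻¹ * Y.1 i) * g) =
            g⁻¹ * (g * (Y.1 j * A - A * Y.1 j)) := by rw [e2]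
        have e5 : g⁻¹ * ((Y.1 i * (g * A * g⁻¹) - g * A * g⁻¹ * Y.1 i) * g) =
            g⁻¹ * Y.1 i * g * A - A * (g⁻¹ * Y.1 i * g) := by
          calc g⁻¹ * ((Y.1 i * (g * A * g⁻¹) - g * A * g⁻¹ * Y.1 i) * g)
              = g⁻¹ * Y.1 i * g * A * (g⁻¹ * g) - (g⁻¹ * g) * A * (g⁻¹ * Y.1 i * g) := by
                simp only [mul_sub, sub_mul, mul_assoc]
            _ = _ := by rw [hGi, one_mul, mul_one]
        have e6 : g⁻¹ * (g * (Y.1 j * A - A * Y.1 j)) = Y.1 j * A - A * Y.1 j := by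
          rw [← mul_assoc, hGi, one_mul]
        rw [e5, e6] at e4
        rw [mul_sub, sub_mul]
        have e7 : A * (g⁻¹ * Y.1 i * g) = g⁻¹ * Y.1 i * g * A - (Y.1 j * A - A * Y.1 j) := by
          rw [← e4]
          abel
        rw [e7]
        abel
      obtain ⟨t, ht⟩ := exists_scalar hcomm
      have htr0 : (g⁻¹ * Y.1 i * g - Y.1 j).trace = 0 := by
        obtain ⟨m, hm⟩ := htr Y hY
        rw [Matrix.trace_sub, Matrix.trace_mul_comm, ← mul_assoc, hGi', one_mul, hm, hm, sub_self]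
      have ht0 : t = 0 := by
        rw [ht, Matrix.trace_smul, Matrix.trace_one, Fintype.card_fin, smul_eq_mul] at htr0
        have h2 : ((2 : ℕ) : ℂ) ≠ 0 := by norm_num
        exact (mul_eq_zero.1 htr0).resolve_right h2
      rw [ht0, zero_smul, sub_eq_zero] at ht
      calc Y.1 i * g = g * g⁻¹ * (Y.1 i * g) := by rw [hGi', one_mul]
        _ = g * (g⁻¹ * Y.1 i * g) := by simp only [mul_assoc]
        _ = g * Y.1 j := by rw [ht]
    have h1 := hall (subG i j g) (fun X hX => key X hX) (Pi.single i 1, 0)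
    change (Pi.single i 1 : κ → M2 ℂ) i * g = g * (Pi.single i 1 : κ → M2 ℂ) j at h1
    rw [Pi.single_eq_same, Pi.single_eq_of_ne (Ne.symm hij), one_mul, mul_zero] at h1
    rw [h1] at hg
    exact hg Matrix.det_zero
  exact (full' hD hp hx).1

end GouM

theorem specGOU : SpecGOU := by
  intro κ σ _ _ _ _ N hbr htr hgen x hx
  exact GouM.gou N hbr htr hgen x hx

end Pool.Agent.Lib.MPf11a48.U
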