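import Pool.Agent.Lib.MP_f11a48_ag.U.Slot

/-!
# MP_f11a48_ag, project U, module LIN
-/

set_option autoImplicit false
set_option linter.unusedSectionVars false

open Matrix MvPolynomial Pool.Agent.Lib.MPf11a48.CM Pool.Agent.Lib.MPf11a48.GL2T

namespace Pool.Agent.Lib.MPf11a48.U

namespace LinM

open SlotM

variable {ι : Type} [Fintype ι] [DecidableEq ι]

theorem inH_zero (c : GL ι ℂ) : InH c 0 := fun r s WdR WB _ w _ => by
  rw [dact_zero]; exact Submodule.zero_mem _

theorem inH_add {c : GL ι ℂ} {X Y : Matrix ι ι ℂ} (hX : InH c X) (hY : InH c Y) :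
    InH c (X + Y) := fun r s WdR WB h w hw => by
  rw [dact_add]; exact Submodule.add_mem _ (hX r s WdR WB h w hw) (hY r s WdR WB h w hw)

theorem inH_smul {c : GL ι ℂ} (t : ℂ) {X : Matrix ι ι ℂ} (hX : InH c X) :
    InH c (t • X) := fun r s WdR WB h w hw => by
  rw [dact_smul]; exact Submodule.smul_mem _ _ (hX r s WdR WB h w hw)

theorem inH_comm {c : GL ι ℂ} {X Y : Matrix ι ι ℂ} (hX : InH c X) (hY : InH c Y) :
    InH c (X * Y - Y * X) := fun r s WdR WB h w hw => by
  rw [dact_comm]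
  exact Submodule.sub_mem _ (hX r s WdR WB h _ (hY r s WdR WB h w hw))
    (hY r s WdR WB h _ (hX r s WdR WB h w hw))

/-- the complex subspace of the elements of the Lie algebra -/
def subH (c : GL ι ℂ) : Submodule ℂ (Matrix ι ι ℂ) where
  carrier := {X | InH c X}
  add_mem' := inH_add
  zero_mem' := inH_zero c
  smul_mem' := fun t _ h => inH_smul t h

theorem mem_subH {c : GL ι ℂ} {X : Matrix ι ι ℂ} : X ∈ subH c ↔ InH c X := Iff.rfl

/-- a basis of `ℂ` over `ℚ` -/
noncomputable def bas : Module.Basis (Module.Basis.ofVectorSpaceIndex ℚ ℂ) ℚ ℂ :=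
  Module.Basis.ofVectorSpace ℚ ℂ

/-- the coordinate number `t` of a complex vector -/
noncomputable def coor {J : Type} (t : Module.Basis.ofVectorSpaceIndex ℚ ℂ) (v : J → ℂ) : J → ℚ :=
  fun j => bas.repr (v j) t

theorem coor_mem {J : Type} (WB : Submodule ℚ (J → ℚ)) {v : J → ℂ} (hv : v ∈ spanC WB)
    (t : Module.Basis.ofVectorSpaceIndex ℚ ℂ) : coor t v ∈ WB := by
  have key : ∀ z : ℂ, coor t (z • v) ∈ WB := by
    unfold spanC at hv
    refine Submodule.span_induction ?_ ?_ ?_ ?_ hv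
    · rintro x ⟨w, hw, rfl⟩ z
      have : coor t (z • fun j => algebraMap ℚ ℂ (w j)) = (bas.repr z t) • w := by
        funext j
        have e : (z • fun j => algebraMap ℚ ℂ (w j)) j = (w j) • z := by
          simp only [Pi.smul_apply, smul_eq_mul, Algebra.smul_def, mul_comm]
        simp only [coor, e, map_smul, Finsupp.smul_apply, Pi.smul_apply, smul_eq_mul, mul_comm]
      rw [this]; exact WB.smul_mem _ hw
    · intro z
      have : coor t (z • (0 : J → ℂ)) = 0 := by
        funext j; simp [coor]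
      rw [this]; exact WB.zero_mem
    · intro x y _ _ hx hy z
      have : coor t (z • (x + y)) = coor t (z • x) + coor t (z • y) := by
        funext j; simp [coor, mul_add]
      rw [this]; exact WB.add_mem (hx z) (hy z)
    · intro a x _ hx z
      rw [smul_smul]; exact hx _
  have := key 1
  rwa [one_smul] at this

theorem coe_mem_spanC {J : Type} {WB : Submodule ℚ (J → ℚ)} {w : J → ℚ} (hw : w ∈ WB) :
    (fun j => algebraMap ℚ ℂ (w j)) ∈ spanC WB := Submodule.subset_span ⟨w, hw, rfl⟩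

/-- the rational matrix of the coordinates number `t` -/
noncomputable def comp (X : Matrix ι ι ℂ) (t : Module.Basis.ofVectorSpaceIndex ℚ ℂ) :
    Matrix ι ι ℚ := fun i j => bas.repr (X i j) t

theorem repr_ite {p : Prop} [Decidable p] (x : ℂ) (t : Module.Basis.ofVectorSpaceIndex ℚ ℂ) :
    bas.repr (if p then x else 0) t = if p then bas.repr x t else 0 := by
  split_ifs <;> simp

theorem repr_sum {σ : Type} (s : Finset σ) (f : σ → ℂ) (t : Module.Basis.ofVectorSpaceIndex ℚ ℂ) :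
    bas.repr (∑ i ∈ s, f i) t = ∑ i ∈ s, bas.repr (f i) t := by
  rw [map_sum, Finsupp.finsetSum_apply]

theorem repr_dtens (n m : ℕ) (X : Matrix ι ι ℂ) (t : Module.Basis.ofVectorSpaceIndex ℚ ℂ)
    (I J : TIdx ι n m) : bas.repr (dtens n m X I J) t = dtens n m (comp X t) I J := by
  simp only [dtens, map_sub, Finsupp.sub_apply, repr_sum, repr_ite, comp]

theorem map_dtens (n m : ℕ) (Z : Matrix ι ι ℚ) (I J : TIdx ι n m) :
    dtens n m (mC Z) I J = ((dtens n m Z I J : ℚ) : ℂ) := by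
  simp only [dtens, Rat.cast_sub, Rat.cast_sum, apply_ite (fun x : ℚ => (x : ℂ)), Rat.cast_zero,
    Matrix.map_apply]

variable {r : ℕ}

theorem coor_dact (s : Fin r → ℕ × ℕ) (X : Matrix ι ι ℂ)
    (t : Module.Basis.ofVectorSpaceIndex ℚ ℂ) (w : SIdx ι s → ℚ) :
    coor t (dact s X fun j => algebraMap ℚ ℂ (w j)) = dact s (comp X t) w := by
  funext x
  have e1 : (dact s X fun j => algebraMap ℚ ℂ (w j)) x =
      ∑ J, dtens (s x.1).1 (s x.1).2 X x.2 J * algebraMap ℚ ℂ (w ⟨x.1, J⟩) := rfl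
  have e2 : dact s (comp X t) w x = ∑ J, dtens (s x.1).1 (s x.1).2 (comp X t) x.2 J * w ⟨x.1, J⟩ :=
    rfl
  rw [coor, e1, e2, repr_sum]
  refine Finset.sum_congr rfl fun J _ => ?_
  have e3 : dtens (s x.1).1 (s x.1).2 X x.2 J * algebraMap ℚ ℂ (w ⟨x.1, J⟩) =
      (w ⟨x.1, J⟩) • dtens (s x.1).1 (s x.1).2 X x.2 J := by
    rw [Algebra.smul_def, mul_comm]
  rw [e3, map_smul, Finsupp.smul_apply, repr_dtens, smul_eq_mul, mul_comm]

theorem dact_mC (s : Fin r → ℕ × ℕ) (Z : Matrix ι ι ℚ) (w : SIdx ι s → ℚ) :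
    (dact s (mC Z) fun j => algebraMap ℚ ℂ (w j)) = fun j => algebraMap ℚ ℂ (dact s Z w j) := by
  funext x
  have e1 : (dact s (mC Z) fun j => algebraMap ℚ ℂ (w j)) x =
      ∑ J, dtens (s x.1).1 (s x.1).2 (mC Z) x.2 J * algebraMap ℚ ℂ (w ⟨x.1, J⟩) := rfl
  have e2 : dact s Z w x = ∑ J, dtens (s x.1).1 (s x.1).2 Z x.2 J * w ⟨x.1, J⟩ := rfl
  rw [e1, e2, map_sum]
  refine Finset.sum_congr rfl fun J _ => ?_
  rw [map_mul, map_dtens]; rfl

/-- to preserve the complex span it is enough to preserve the rational vectors -/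
theorem stable_of {J : Type} (WB : Submodule ℚ (J → ℚ)) (f : (J → ℂ) →ₗ[ℂ] (J → ℂ))
    (h : ∀ w ∈ WB, f (fun j => algebraMap ℚ ℂ (w j)) ∈ spanC WB) :
    ∀ v ∈ spanC WB, f v ∈ spanC WB := by
  intro v hv
  have : spanC WB ≤ (spanC WB).comap f := by
    conv_lhs => rw [spanC]
    rw [Submodule.span_le]
    rintro x ⟨w, hw, rfl⟩
    exact h w hw
  exact this hv

theorem inH_comp {c : GL ι ℂ} {X : Matrix ι ι ℂ} (hX : InH c X)
    (t : Module.Basis.ofVectorSpaceIndex ℚ ℂ) : InH c (mC (comp X t)) := by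
  intro r s WdR WB h
  refine stable_of WB _ fun w hw => ?_
  have h1 := coor_mem WB (hX r s WdR WB h _ (coe_mem_spanC hw)) t
  rw [coor_dact] at h1
  rw [dact_mC]
  exact coe_mem_spanC h1

theorem eq_sum_comp (X : Matrix ι ι ℂ) : ∃ T : Finset (Module.Basis.ofVectorSpaceIndex ℚ ℂ),
    X = ∑ t ∈ T, bas t • mC (comp X t) := by
  classical
  refine ⟨Finset.univ.biUnion fun p : ι × ι => (bas.repr (X p.1 p.2)).support, ?_⟩
  ext i j
  rw [Matrix.sum_apply]
  simp only [Matrix.smul_apply, Matrix.map_apply, comp, smul_eq_mul]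
  conv_lhs => rw [← bas.linearCombination_repr (X i j)]
  rw [Finsupp.linearCombination_apply, Finsupp.sum]
  rw [Finset.sum_subset (s₁ := (bas.repr (X i j)).support)
    (s₂ := Finset.univ.biUnion fun p : ι × ι => (bas.repr (X p.1 p.2)).support)]
  · refine Finset.sum_congr rfl fun t _ => ?_
    rw [Algebra.smul_def, mul_comm]; rfl
  · intro t ht
    exact Finset.mem_biUnion.mpr ⟨(i, j), Finset.mem_univ _, ht⟩
  · intro t _ ht
    rw [Finsupp.notMem_support_iff.mp ht, zero_smul]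

end LinM

theorem specLIN : SpecLIN := fun c =>
  ⟨LinM.inH_zero c, fun _ _ => LinM.inH_add, fun t _ => LinM.inH_smul t,
    fun _ _ => LinM.inH_comm, fun X hX => by
      obtain ⟨T, hT⟩ := LinM.eq_sum_comp X
      rw [hT]
      exact Submodule.sum_mem _ fun t _ => Submodule.smul_mem _ _
        (Submodule.subset_span ⟨LinM.comp X t, rfl, LinM.inH_comp hX t⟩)⟩

end Pool.Agent.Lib.MPf11a48.U
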