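import Pool.Agent.Lib.MP_f11a48_ag.U.Bic

/-!
# MP_f11a48_ag, project U, module STR: the structure of the complexified commutant
-/

set_option autoImplicit false

open Matrix Pool.Agent.Lib.MPf11a48.CM Pool.Agent.Lib.MPf11a48.GL2T Pool.Agent.Lib.MPf11a48.U.BicM

namespace Pool.Agent.Lib.MPf11a48.U.StrM

variable {ι : Type} [Fintype ι] [DecidableEq ι]

/-! ## Extension of scalars -/

omit [DecidableEq ι] in
theorem map_mul_mC (φ : ℂ →ₗ[ℚ] ℚ) (x : Matrix ι ι ℂ) (B : Matrix ι ι ℚ) :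
    (x * mC B).map φ = x.map φ * B := by
  ext i j
  rw [Matrix.map_apply, Matrix.mul_apply, Matrix.mul_apply, map_sum]
  refine Finset.sum_congr rfl fun k _ => ?_
  have h1 : x i k * mC B k j = B k j • x i k := by
    change x i k * ((B k j : ℚ) : ℂ) = B k j • x i k
    rw [Rat.smul_def, mul_comm]
  rw [h1, map_smul, smul_eq_mul, Matrix.map_apply, mul_comm]

omit [DecidableEq ι] in
theorem map_mC_mul (φ : ℂ →ₗ[ℚ] ℚ) (x : Matrix ι ι ℂ) (B : Matrix ι ι ℚ) :
    (mC B * x).map φ = B * x.map φ := by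
  ext i j
  rw [Matrix.map_apply, Matrix.mul_apply, Matrix.mul_apply, map_sum]
  refine Finset.sum_congr rfl fun k _ => ?_
  have h1 : mC B i k * x k j = B i k • x k j := by
    change ((B i k : ℚ) : ℂ) * x k j = B i k • x k j
    rw [Rat.smul_def]
  rw [h1, map_smul, smul_eq_mul, Matrix.map_apply]

omit [DecidableEq ι] in
/-- A complex matrix is a combination of its rational components. -/
theorem mem_span_comp (x : Matrix ι ι ℂ) (P : Set (Matrix ι ι ℚ))
    (h : ∀ φ : ℂ →ₗ[ℚ] ℚ, x.map φ ∈ P) :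
    x ∈ Submodule.span ℂ {Y : Matrix ι ι ℂ | ∃ y ∈ P, Y = mC y} := by
  set b := Module.Basis.ofVectorSpace ℚ ℂ
  set S := Finset.univ.biUnion fun i : ι => Finset.univ.biUnion fun j : ι => (b.repr (x i j)).support
    with hS
  have hsub : ∀ i j, (b.repr (x i j)).support ⊆ S := by
    intro i j k hk
    rw [hS, Finset.mem_biUnion]
    exact ⟨i, Finset.mem_univ _, Finset.mem_biUnion.2 ⟨j, Finset.mem_univ _, hk⟩⟩
  have hx : x = ∑ k ∈ S, b k • mC (x.map (b.coord k)) := by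
    ext i j
    rw [Matrix.sum_apply]
    conv_lhs => rw [← b.linearCombination_repr (x i j), Finsupp.linearCombination_apply,
      Finsupp.sum_of_support_subset _ (hsub i j) (fun k a => a • b k) (fun k _ => zero_smul _ _)]
    refine Finset.sum_congr rfl fun k _ => ?_
    change (b.repr (x i j)) k • b k = b k * (((b.repr (x i j)) k : ℚ) : ℂ)
    rw [Rat.smul_def, mul_comm]
  rw [hx]
  exact Submodule.sum_mem _ fun k _ => Submodule.smul_mem _ _ (Submodule.subset_span ⟨_, h _, rfl⟩)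

/-- The complexified commutant. -/
def CC (c : Matrix ι ι ℂ) : Subalgebra ℂ (Matrix ι ι ℂ) :=
  Subalgebra.centralizer ℂ {Y | ∃ B ∈ EndAlg c, Y = mC B}

theorem mem_CC {c x : Matrix ι ι ℂ} :
    x ∈ CC c ↔ ∀ B ∈ EndAlg c, x * mC B = mC B * x := by
  rw [CC, Subalgebra.mem_centralizer_iff]
  constructor
  · intro h B hB
    exact (h _ ⟨B, hB, rfl⟩).symm
  · rintro h _ ⟨B, hB, rfl⟩
    exact (h B hB).symm

theorem mem_ComAlg {c : Matrix ι ι ℂ} {y : Matrix ι ι ℚ} :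
    y ∈ ComAlg c ↔ ∀ B ∈ EndAlg c, y * B = B * y := by
  rw [ComAlg, Subalgebra.mem_centralizer_iff]
  exact forall₂_congr fun B hB => eq_comm

theorem mem_CenAlg {c : Matrix ι ι ℂ} {z : Matrix ι ι ℚ} :
    z ∈ CenAlg c ↔ z ∈ ComAlg c ∧ ∀ y ∈ ComAlg c, z * y = y * z := by
  rw [CenAlg, Algebra.mem_inf, Subalgebra.mem_centralizer_iff]
  exact and_congr_right fun _ => forall₂_congr fun B hB => eq_comm

theorem mC_mem_CC {c : Matrix ι ι ℂ} {y : Matrix ι ι ℚ} (hy : y ∈ ComAlg c) : mC y ∈ CC c := by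
  rw [mem_CC]
  intro B hB
  rw [← mC_mul, ← mC_mul, mem_ComAlg.1 hy B hB]

theorem map_mem_ComAlg {c x : Matrix ι ι ℂ} (hx : x ∈ CC c) (φ : ℂ →ₗ[ℚ] ℚ) :
    x.map φ ∈ ComAlg c := by
  rw [mem_ComAlg]
  intro B hB
  rw [← map_mul_mC, ← map_mC_mul, mem_CC.1 hx B hB]

theorem CC_span {c x : Matrix ι ι ℂ} (hx : x ∈ CC c) :
    x ∈ Submodule.span ℂ {Y : Matrix ι ι ℂ | ∃ y ∈ ComAlg c, Y = mC y} :=
  mem_span_comp x _ fun φ => map_mem_ComAlg hx φ

theorem center_span {c x : Matrix ι ι ℂ} (hx : x ∈ CC c) (hx' : ∀ y ∈ CC c, x * y = y * x) :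
    x ∈ Submodule.span ℂ {Y : Matrix ι ι ℂ | ∃ y ∈ CenAlg c, Y = mC y} := by
  refine mem_span_comp x _ fun φ => ?_
  change x.map φ ∈ CenAlg c
  rw [mem_CenAlg]
  refine ⟨map_mem_ComAlg hx φ, fun y hy => ?_⟩
  rw [← map_mul_mC, ← map_mC_mul, hx' _ (mC_mem_CC hy)]

theorem cen_comm {c : Matrix ι ι ℂ} {z : Matrix ι ι ℚ} (hz : z ∈ CenAlg c) {x : Matrix ι ι ℂ}
    (hx : x ∈ CC c) : mC z * x = x * mC z := by
  have h1 := CC_span hx
  clear hx
  induction h1 using Submodule.span_induction with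
  | mem Y hY =>
    obtain ⟨y, hy, rfl⟩ := hY
    rw [← mC_mul, ← mC_mul, (mem_CenAlg.1 hz).2 y hy]
  | zero => rw [Matrix.zero_mul, Matrix.mul_zero]
  | add Y Y' _ _ h h' => rw [Matrix.add_mul, Matrix.mul_add, h, h']
  | smul a Y _ h => rw [Matrix.smul_mul, Matrix.mul_smul, h]

/-! ## The adjoint -/

section Adj

variable {R : Type} [CommRing R] {ψ : Matrix ι ι R}

theorem adj_mul (h : IsUnit ψ.det) (x y : Matrix ι ι R) :
    adj ψ (x * y) = adj ψ y * adj ψ x := by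
  rw [adj, adj, adj, Matrix.transpose_mul]
  calc ψ⁻¹ * (yᵀ * xᵀ) * ψ = ψ⁻¹ * yᵀ * (1 : Matrix ι ι R) * (xᵀ * ψ) := by
        rw [Matrix.mul_one]
        simp only [Matrix.mul_assoc]
    _ = ψ⁻¹ * yᵀ * (ψ * ψ⁻¹) * (xᵀ * ψ) := by rw [Matrix.mul_nonsing_inv _ h]
    _ = ψ⁻¹ * yᵀ * ψ * (ψ⁻¹ * xᵀ * ψ) := by simp only [Matrix.mul_assoc]

theorem adj_adj (h : IsUnit ψ.det) (hs : ψᵀ = -ψ) (x : Matrix ι ι R) : adj ψ (adj ψ x) = x := by
  have h1 : (ψ⁻¹)ᵀ = -ψ⁻¹ := by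
    rw [Matrix.transpose_nonsing_inv, hs]
    refine Matrix.inv_eq_left_inv ?_
    rw [Matrix.neg_mul, Matrix.mul_neg, neg_neg, Matrix.nonsing_inv_mul _ h]
  rw [adj, adj, Matrix.transpose_mul, Matrix.transpose_mul, Matrix.transpose_transpose, hs, h1]
  calc ψ⁻¹ * (-ψ * (x * -ψ⁻¹)) * ψ = (ψ⁻¹ * ψ) * x * (ψ⁻¹ * ψ) := by
        simp only [Matrix.neg_mul, Matrix.mul_neg, neg_neg, Matrix.mul_assoc]
    _ = x := by rw [Matrix.nonsing_inv_mul _ h, Matrix.one_mul, Matrix.mul_one]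

theorem adj_add (x y : Matrix ι ι R) : adj ψ (x + y) = adj ψ x + adj ψ y := by
  rw [adj, adj, adj, Matrix.transpose_add, Matrix.mul_add, Matrix.add_mul]

theorem adj_smul (a : R) (x : Matrix ι ι R) : adj ψ (a • x) = a • adj ψ x := by
  rw [adj, adj, Matrix.transpose_smul, Matrix.mul_smul, Matrix.smul_mul]

end Adj

theorem adj_mC {ψ : Matrix ι ι ℚ} (h : ψ.det ≠ 0) (x : Matrix ι ι ℚ) :
    adj (mC ψ) (mC x) = mC (adj ψ x) := by
  rw [adj, adj, mC_mul, mC_mul, mC_inv h, mC_transpose]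

theorem isUnit_mC {ψ : Matrix ι ι ℚ} (h : ψ.det ≠ 0) : IsUnit (mC ψ).det := by
  have h4 : (mC ψ).det = (ψ.det : ℂ) := (RingHom.map_det (Rat.castHom ℂ) ψ).symm
  rw [h4, isUnit_iff_ne_zero]
  exact_mod_cast h

section HD

variable {c : GL ι ℂ} {J : Matrix ι ι ℝ} {ψ : Matrix ι ι ℚ}

theorem skewC (h : HD c J ψ) : (mC ψ)ᵀ = -mC ψ := by
  have := congrArg (fun M : Matrix ι ι ℚ => mC M) h.skew
  ext i j
  have h5 := congrFun (congrFun this i) j
  simpa using h5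

theorem adj_CC (hB : SpecBIC) (h : HD c J ψ) {x : Matrix ι ι ℂ} (hx : x ∈ CC c.1) :
    adj (mC ψ) x ∈ CC c.1 := by
  rw [mem_CC] at hx ⊢
  intro B hBm
  have h1 := hx _ ((hB c J ψ h).1 B hBm)
  have h2 : mC B = adj (mC ψ) (mC (adj ψ B)) := by
    rw [adj_mC h.det, adj_adj (isUnit_iff_ne_zero.2 h.det) h.skew]
  rw [h2, ← adj_mul (isUnit_mC h.det), ← adj_mul (isUnit_mC h.det), h1]

theorem adj_ComAlg (hB : SpecBIC) (h : HD c J ψ) {x : Matrix ι ι ℚ} (hx : x ∈ ComAlg c.1) :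
    adj ψ x ∈ ComAlg c.1 := by
  rw [mem_ComAlg] at hx ⊢
  intro B hBm
  have h1 := hx _ ((hB c J ψ h).1 B hBm)
  have hu := isUnit_iff_ne_zero.2 h.det
  have h2 : B = adj ψ (adj ψ B) := (adj_adj hu h.skew B).symm
  rw [h2, ← adj_mul hu, ← adj_mul hu, h1]

theorem adj_CenAlg (hB : SpecBIC) (h : HD c J ψ) {z : Matrix ι ι ℚ} (hz : z ∈ CenAlg c.1) :
    adj ψ z ∈ CenAlg c.1 := by
  rw [mem_CenAlg] at hz ⊢
  refine ⟨adj_ComAlg hB h hz.1, fun y hy => ?_⟩
  have hu := isUnit_iff_ne_zero.2 h.det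
  have h1 := hz.2 _ (adj_ComAlg hB h hy)
  have h2 : y = adj ψ (adj ψ y) := (adj_adj hu h.skew y).symm
  rw [h2, ← adj_mul hu, ← adj_mul hu, h1]

/-- The complex structure, as a complex matrix. -/
def jC (J : Matrix ι ι ℝ) : Matrix ι ι ℂ := J.map (fun x => (x : ℂ))

omit [DecidableEq ι] in
theorem jC_mul (A B : Matrix ι ι ℝ) : jC (A * B) = jC A * jC B :=
  Matrix.map_mul (f := Complex.ofRealHom)

omit [Fintype ι] [DecidableEq ι] in
theorem jC_mR (A : Matrix ι ι ℚ) : jC (mR A) = mC A := by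
  ext i j
  simp [jC]

theorem jC_sq (h : HD c J ψ) : jC J * jC J = -1 := by
  rw [← jC_mul, h.J_sq]
  ext i j
  by_cases hij : i = j
  · subst hij
    simp [jC]
  · simp [jC, hij]

theorem jC_mem (h : HD c J ψ) : jC J ∈ CC c.1 := by
  rw [mem_CC]
  intro B hB
  rw [← jC_mR, ← jC_mul, ← jC_mul, h.endo B hB]

/-- `Jᵀ ψ = - ψ J` -/
theorem jC_orth (h : HD c J ψ) : (jC J)ᵀ * mC ψ = -(mC ψ * jC J) := by
  have h1 : (jC J)ᵀ * mC ψ * jC J = mC ψ := by
    rw [← jC_mR, show (jC J)ᵀ = jC Jᵀ from rfl, ← jC_mul, ← jC_mul, h.J_orth]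
  have h2 : (jC J)ᵀ * mC ψ * jC J * jC J = mC ψ * jC J := by rw [h1]
  rw [Matrix.mul_assoc _ (jC J), jC_sq h, Matrix.mul_neg, Matrix.mul_one] at h2
  rw [← h2, neg_neg]

theorem adj_jC (h : HD c J ψ) : adj (mC ψ) (jC J) = -jC J := by
  rw [adj, Matrix.mul_assoc, jC_orth h, Matrix.mul_neg, ← Matrix.mul_assoc,
    Matrix.nonsing_inv_mul _ (isUnit_mC h.det), Matrix.one_mul]

/-! ## The hermitian form -/

/-- The Gram matrix of the hermitian form. -/
def Hm (J : Matrix ι ι ℝ) (ψ : Matrix ι ι ℚ) : Matrix ι ι ℂ := mC ψ * jC J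

theorem Hm_transpose (h : HD c J ψ) : (Hm J ψ)ᵀ = Hm J ψ := by
  rw [Hm, Matrix.transpose_mul, skewC h, Matrix.mul_neg, jC_orth h, neg_neg]

omit [DecidableEq ι] in
theorem Hm_real (J : Matrix ι ι ℝ) (ψ : Matrix ι ι ℚ) : Hm J ψ = jC (mR ψ * J) := by
  rw [jC_mul, jC_mR, Hm]

theorem Hm_conjTranspose (h : HD c J ψ) : (Hm J ψ)ᴴ = Hm J ψ := by
  have h1 := Hm_transpose h
  rw [Hm_real] at h1 ⊢
  ext i j
  have h2 := congrFun (congrFun h1 i) j
  rw [Matrix.transpose_apply] at h2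
  rw [Matrix.conjTranspose_apply, ← h2, jC, Matrix.map_apply, RCLike.star_def, Complex.conj_ofReal]

theorem Hm_pos (h : HD c J ψ) {v : ι → ℂ} (hv : v ≠ 0) : star v ⬝ᵥ (Hm J ψ *ᵥ v) ≠ 0 := by
  intro h0
  have h1 : (star v ⬝ᵥ (Hm J ψ *ᵥ v)).re =
      (fun i => (v i).re) ⬝ᵥ ((mR ψ * J) *ᵥ fun i => (v i).re) +
      (fun i => (v i).im) ⬝ᵥ ((mR ψ * J) *ᵥ fun i => (v i).im) := by
    rw [Hm_real]
    simp only [dotProduct, Matrix.mulVec, Finset.mul_sum, Complex.re_sum, ← Finset.sum_add_distrib]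
    refine Finset.sum_congr rfl fun i _ => Finset.sum_congr rfl fun j _ => ?_
    simp only [jC, Matrix.map_apply, Pi.star_apply, RCLike.star_def, Complex.mul_re, Complex.mul_im,
      Complex.conj_re, Complex.conj_im, Complex.ofReal_re, Complex.ofReal_im]
    ring
  rw [h0, Complex.zero_re] at h1
  have hnn : ∀ w : ι → ℝ, 0 ≤ w ⬝ᵥ ((mR ψ * J) *ᵥ w) := by
    intro w
    by_cases hw : w = 0
    · rw [hw, zero_dotProduct]
    · exact (h.pos w hw).le
  have h2 : (fun i => (v i).re) = 0 := by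
    by_contra hne
    have := h.pos _ hne
    linarith [hnn fun i => (v i).im]
  have h3 : (fun i => (v i).im) = 0 := by
    by_contra hne
    have := h.pos _ hne
    linarith [hnn fun i => (v i).re]
  apply hv
  funext i
  exact Complex.ext (congrFun h2 i) (congrFun h3 i)

theorem eq_zero_of_Hm (h : HD c J ψ) {x : Matrix ι ι ℂ} (hx : xᴴ * Hm J ψ * x = 0) : x = 0 := by
  have h1 : ∀ v : ι → ℂ, x *ᵥ v = 0 := by
    intro v
    by_contra hne
    apply Hm_pos h hne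
    rw [Matrix.star_mulVec, ← Matrix.dotProduct_mulVec, Matrix.mulVec_mulVec, Matrix.mulVec_mulVec,
      hx, Matrix.zero_mulVec, dotProduct_zero]
  ext i j
  have := congrFun (h1 (Pi.single j 1)) i
  simpa using this

theorem eq_zero_of_nilp (h : HD c J ψ) {y : Matrix ι ι ℂ} (hy : Hm J ψ * y = yᴴ * Hm J ψ)
    (hn : IsNilpotent y) : y = 0 := by
  have h1 : ∀ k : ℕ, ∀ y : Matrix ι ι ℂ, Hm J ψ * y = yᴴ * Hm J ψ → y ^ 2 ^ k = 0 → y = 0 := by
    intro k
    induction k with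
    | zero =>
      intro y _ h0
      simpa using h0
    | succ k ih =>
      intro y hy h0
      have h2 : y ^ 2 = 0 := by
        refine ih (y ^ 2) ?_ ?_
        · rw [pow_two, Matrix.conjTranspose_mul, ← Matrix.mul_assoc, hy, Matrix.mul_assoc, hy,
            Matrix.mul_assoc]
        · rw [← pow_mul, ← pow_succ']
          exact h0
      apply eq_zero_of_Hm h
      rw [← hy, Matrix.mul_assoc, ← pow_two, h2, Matrix.mul_zero]
  obtain ⟨n, hn⟩ := hn
  exact h1 n y hy (pow_eq_zero_of_le (Nat.lt_two_pow_self).le hn)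

/-- complex conjugation of matrices -/
def cj (x : Matrix ι ι ℂ) : Matrix ι ι ℂ := x.map (starRingEnd ℂ)

omit [DecidableEq ι] in
theorem cj_mul (x y : Matrix ι ι ℂ) : cj (x * y) = cj x * cj y :=
  Matrix.map_mul (f := starRingEnd ℂ)

omit [Fintype ι] [DecidableEq ι] in
theorem cj_mC (B : Matrix ι ι ℚ) : cj (mC B) = mC B := by
  ext i j
  simp [cj]

theorem cj_CC {x : Matrix ι ι ℂ} (hx : x ∈ CC c.1) : cj x ∈ CC c.1 := by
  rw [mem_CC] at hx ⊢
  intro B hB
  rw [← cj_mC, ← cj_mul, ← cj_mul, hx B hB]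

/-- The adjoint for the hermitian form. -/
noncomputable def st (J : Matrix ι ι ℝ) (ψ : Matrix ι ι ℚ) (x : Matrix ι ι ℂ) : Matrix ι ι ℂ :=
  -(jC J * adj (mC ψ) (cj x) * jC J)

theorem st_CC (hB : SpecBIC) (h : HD c J ψ) {x : Matrix ι ι ℂ} (hx : x ∈ CC c.1) :
    st J ψ x ∈ CC c.1 :=
  neg_mem (mul_mem (mul_mem (jC_mem h) (adj_CC hB h (cj_CC hx))) (jC_mem h))

theorem Hm_st (h : HD c J ψ) (x : Matrix ι ι ℂ) : Hm J ψ * st J ψ x = xᴴ * Hm J ψ := by
  have h1 : (cj x)ᵀ = xᴴ := rfl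
  rw [Hm, st, adj, h1, Matrix.mul_neg]
  calc -(mC ψ * jC J * (jC J * ((mC ψ)⁻¹ * xᴴ * mC ψ) * jC J))
      = -(mC ψ * (jC J * jC J) * ((mC ψ)⁻¹ * xᴴ * mC ψ) * jC J) := by
        simp only [Matrix.mul_assoc]
    _ = (mC ψ * (mC ψ)⁻¹) * xᴴ * mC ψ * jC J := by
        rw [jC_sq h]
        simp only [Matrix.mul_neg, Matrix.neg_mul, Matrix.mul_one, neg_neg, Matrix.mul_assoc]
    _ = xᴴ * (mC ψ * jC J) := by
        rw [Matrix.mul_nonsing_inv _ (isUnit_mC h.det), Matrix.one_mul, Matrix.mul_assoc]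

/-- The complexified commutant is semisimple. -/
theorem isSemisimple (hB : SpecBIC) (h : HD c J ψ) : IsSemisimpleRing (CC c.1) := by
  have : IsArtinianRing (CC c.1) := IsArtinianRing.of_finite ℂ (CC c.1)
  rw [IsArtinianRing.isSemisimpleRing_iff_jacobson, eq_bot_iff]
  intro x hx
  obtain ⟨n, hn⟩ := IsSemiprimaryRing.isNilpotent (R := CC c.1)
  have h1 : (⟨st J ψ x.1, st_CC hB h x.2⟩ : CC c.1) * x ∈ Ring.jacobson (CC c.1) :=
    Ideal.mul_mem_left _ _ hx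
  have h2 : ((⟨st J ψ x.1, st_CC hB h x.2⟩ : CC c.1) * x) ^ n = 0 := by
    have := Ideal.pow_mem_pow h1 n
    rw [hn] at this
    exact this
  have h3 : st J ψ x.1 * x.1 = 0 := by
    refine eq_zero_of_nilp h ?_ ⟨n, ?_⟩
    · rw [← Matrix.mul_assoc, Hm_st h, Matrix.conjTranspose_mul, Matrix.mul_assoc x.1ᴴ (st J ψ x.1)ᴴ]
      have h4 : (st J ψ x.1)ᴴ * Hm J ψ = Hm J ψ * x.1 := by
        have h5 := congrArg Matrix.conjTranspose (Hm_st h x.1)
        rw [Matrix.conjTranspose_mul, Matrix.conjTranspose_mul, Hm_conjTranspose h,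
          Matrix.conjTranspose_conjTranspose] at h5
        exact h5
      rw [h4, Matrix.mul_assoc]
    · exact congrArg Subtype.val h2
  have h4 : x.1 = 0 := by
    apply eq_zero_of_Hm h
    rw [← Hm_st h, Matrix.mul_assoc, h3, Matrix.mul_zero]
  exact (Submodule.mem_bot _).2 (Subtype.ext h4)

/-! ## The characters of the centre -/

/-- The scalar elements of `M_2(ℂ)^κ × ℂ^σ`. -/
def sc {κ σ : Type} (a : κ ⊕ σ → ℂ) : (κ → Matrix (Fin 2) (Fin 2) ℂ) × (σ → ℂ) :=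
  (fun k => a (Sum.inl k) • 1, fun s => a (Sum.inr s))

theorem sc_inj {κ σ : Type} {a b : κ ⊕ σ → ℂ} (h : sc a = sc b) : a = b := by
  have h1 := congrArg Prod.fst h
  have h2 := congrArg Prod.snd h
  funext t
  rcases t with k | s
  · have h3 := congrFun (congrFun (congrFun h1 k) 0) 0
    simpa [sc] using h3
  · exact congrFun h2 s

theorem sc_mul {κ σ : Type} (a b : κ ⊕ σ → ℂ) : sc (a * b) = sc a * sc b := by
  refine Prod.ext (funext fun k => ?_) rfl
  simp [sc, smul_smul, mul_comm]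

theorem sc_add {κ σ : Type} (a b : κ ⊕ σ → ℂ) : sc (a + b) = sc a + sc b := by
  refine Prod.ext (funext fun k => ?_) rfl
  simp [sc, add_smul]

theorem sc_smul {κ σ : Type} (r : ℂ) (b : κ ⊕ σ → ℂ) : sc (r • b) = r • sc b := by
  refine Prod.ext (funext fun k => ?_) rfl
  simp [sc, smul_smul]

theorem sc_one {κ σ : Type} : sc (1 : κ ⊕ σ → ℂ) = 1 := by
  refine Prod.ext (funext fun k => ?_) rfl
  simp [sc]

theorem sc_central {κ σ : Type} (a : κ ⊕ σ → ℂ)
    (u : (κ → Matrix (Fin 2) (Fin 2) ℂ) × (σ → ℂ)) : sc a * u = u * sc a := by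
  refine Prod.ext (funext fun k => ?_) (funext fun s => ?_)
  · simp [sc]
  · simp [sc, mul_comm]

/-- Central elements are scalar. -/
theorem exists_sc {κ σ : Type} [DecidableEq κ] {u : (κ → Matrix (Fin 2) (Fin 2) ℂ) × (σ → ℂ)}
    (hu : ∀ v, u * v = v * u) : ∃ a, sc a = u := by
  refine ⟨Sum.elim (fun k => u.1 k 0 0) u.2, Prod.ext (funext fun k => ?_) rfl⟩
  have h1 : ∀ A : Matrix (Fin 2) (Fin 2) ℂ, u.1 k * A = A * u.1 k := by
    intro A
    have h2 := congrFun (congrArg Prod.fst (hu (Pi.single k A, 0))) k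
    simpa using h2
  have h2 := h1 (!![0, 1; 0, 0])
  have h3 : (u.1 k) 1 0 = 0 := by
    have := congrFun (congrFun h2 1) 1
    simpa [Matrix.mul_apply, Fin.sum_univ_two] using this
  have h4 : (u.1 k) 0 0 = (u.1 k) 1 1 := by
    have := congrFun (congrFun h2 0) 1
    simpa [Matrix.mul_apply, Fin.sum_univ_two] using this
  have h5 := h1 (!![0, 0; 1, 0])
  have h6 : (u.1 k) 0 1 = 0 := by
    have := congrFun (congrFun h5 0) 0
    simpa [Matrix.mul_apply, Fin.sum_univ_two] using this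
  ext i j
  fin_cases i <;> fin_cases j <;> simp [sc, h3, h6, h4]

theorem adj_sc {κ σ : Type} (τ : σ → σ) (a : κ ⊕ σ → ℂ) :
    ((fun k => ((sc a).1 k).adjugate, fun s => (sc a).2 (τ s)) :
      (κ → Matrix (Fin 2) (Fin 2) ℂ) × (σ → ℂ)) = sc (Sum.elim (fun k => a (Sum.inl k))
        fun s => a (Sum.inr (τ s))) := by
  refine Prod.ext (funext fun k => ?_) rfl
  ext i j
  fin_cases i <;> fin_cases j <;> simp [sc, Matrix.adjugate_fin_two]

end HD


/-- The condition `GL2Like` over the complex numbers. -/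
theorem like {c : GL ι ℂ} {J : Matrix ι ι ℝ} {ψ : Matrix ι ι ℚ} (h : HD c J ψ)
    (hG : GL2Like c.1 ψ) {x y : Matrix ι ι ℂ} (hx : x ∈ CC c.1) (hy : y ∈ CC c.1) :
    (x + adj (mC ψ) x) * y = y * (x + adj (mC ψ) x) := by
  have h1 := CC_span hx
  clear hx
  induction h1 using Submodule.span_induction with
  | mem Y hY =>
    obtain ⟨u, hu, rfl⟩ := hY
    have h2 : mC u + adj (mC ψ) (mC u) = mC (u + adj ψ u) := by
      rw [adj_mC h.det]
      ext i j
      simp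
    rw [h2]
    exact cen_comm (hG u hu) hy
  | zero =>
    have h2 : adj (mC ψ) (0 : Matrix ι ι ℂ) = 0 := by
      rw [adj, Matrix.transpose_zero, Matrix.mul_zero, Matrix.zero_mul]
    rw [h2, add_zero, Matrix.zero_mul, Matrix.mul_zero]
  | add Y Y' _ _ h2 h3 =>
    have h4 : Y + Y' + adj (mC ψ) (Y + Y') = (Y + adj (mC ψ) Y) + (Y' + adj (mC ψ) Y') := by
      rw [adj_add]
      abel
    rw [h4, Matrix.add_mul, Matrix.mul_add, h2, h3]
  | smul a Y _ h2 =>
    rw [adj_smul, ← smul_add, Matrix.smul_mul, Matrix.mul_smul, h2]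

/-- Eigenvalues of rational matrices: a root `r` of the characteristic polynomial gives a singular
matrix. -/
theorem root_singular {c : Matrix ι ι ℂ} (s : CenAlg c →ₐ[ℚ] ℂ) (z : CenAlg c) :
    ¬ IsUnit (s z • (1 : Matrix ι ι ℂ) - mC z.1) := by
  have h1 : Polynomial.aeval z (z.1.charpoly) = 0 := by
    apply Subtype.ext
    have h2 : ((Polynomial.aeval z (z.1.charpoly) : CenAlg c) : Matrix ι ι ℚ) =
        Polynomial.aeval z.1 z.1.charpoly :=
      (Polynomial.aeval_algHom_apply (CenAlg c).val z z.1.charpoly).symm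
    rw [h2, Matrix.aeval_self_charpoly]
    rfl
  have h2 : Polynomial.aeval (s z) z.1.charpoly = 0 := by
    rw [Polynomial.aeval_algHom_apply, h1, map_zero]
  have h3 : (mC z.1).charpoly.eval (s z) = 0 := by
    have h4 : (mC z.1).charpoly = z.1.charpoly.map (algebraMap ℚ ℂ) :=
      Matrix.charpoly_map z.1 (algebraMap ℚ ℂ)
    rw [h4, Polynomial.eval_map_algebraMap, h2]
  rw [Matrix.eval_charpoly] at h3
  rw [Matrix.isUnit_iff_isUnit_det, isUnit_iff_ne_zero, not_not]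
  rw [← h3]
  congr 1
  rw [Matrix.scalar_apply, Matrix.smul_one_eq_diagonal]

/-- Module STR. -/
theorem specSTR (hB : SpecBIC) (hW : SpecWED) : SpecSTR := by
  intro ι _ _ c J ψ h hG
  have hss := isSemisimple hB h
  let d : CC c.1 →ₗ[ℂ] CC c.1 :=
    { toFun := fun x => ⟨adj (mC ψ) x.1, adj_CC hB h x.2⟩
      map_add' := fun x y => Subtype.ext (adj_add _ _)
      map_smul' := fun a x => Subtype.ext (adj_smul _ _) }
  have hu := isUnit_mC h.det
  have hd1 : ∀ x, d (d x) = x := fun x => Subtype.ext (adj_adj hu (skewC h) x.1)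
  have hd2 : ∀ x y, d (x * y) = d y * d x := fun x y => Subtype.ext (adj_mul hu _ _)
  have hd3 : ∀ x y, (x + d x) * y = y * (x + d x) := fun x y =>
    Subtype.ext (like h hG x.2 y.2)
  obtain ⟨κ, σ, fκ, fσ, dκ, dσ, τ, Ψ₀, hne, hττ, hd⟩ := hW (CC c.1) d hd1 hd2 hd3
    ⟨⟨jC J, jC_mem h⟩, Subtype.ext (adj_jC h), Subtype.ext (jC_sq h)⟩
  let Ψ : ((κ → Matrix (Fin 2) (Fin 2) ℂ) × (σ → ℂ)) →ₐ[ℂ] Matrix ι ι ℂ :=
    (CC c.1).val.comp (Ψ₀ : ((κ → Matrix (Fin 2) (Fin 2) ℂ) × (σ → ℂ)) →ₐ[ℂ] CC c.1)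
  have hΨ : ∀ u, Ψ u = (Ψ₀ u).1 := fun u => rfl
  have hΨinj : Function.Injective Ψ := Subtype.val_injective.comp Ψ₀.injective
  have hrange : ∀ x ∈ CC c.1, ∃ u, Ψ u = x := fun x hx =>
    ⟨Ψ₀.symm ⟨x, hx⟩, by rw [hΨ, AlgEquiv.apply_symm_apply]⟩
  have hmem : ∀ u, Ψ u ∈ CC c.1 := fun u => (Ψ₀ u).2
  have hadj : ∀ x y, adj (mC ψ) (Ψ (x, y)) = Ψ (fun k => (x k).adjugate, fun s => y (τ s)) :=
    fun x y => congrArg Subtype.val (hd x y)
  -- the characters
  have hF : ∀ z : CenAlg c.1, ∃ a : κ ⊕ σ → ℂ, Ψ (sc a) = mC z.1 := by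
    intro z
    obtain ⟨u, hu⟩ := hrange _ (mC_mem_CC (mem_CenAlg.1 z.2).1)
    obtain ⟨a, ha⟩ := exists_sc (u := u) fun v =>
      hΨinj (by rw [map_mul, map_mul, hu, cen_comm z.2 (hmem v)])
    exact ⟨a, by rw [ha, hu]⟩
  choose F hF using hF
  have hinj : ∀ a b : κ ⊕ σ → ℂ, Ψ (sc a) = Ψ (sc b) → a = b := fun a b hab => sc_inj (hΨinj hab)
  let ev₂ : CenAlg c.1 →+* (κ ⊕ σ → ℂ) :=
    { toFun := F
      map_one' := hinj _ _ (by
        rw [hF, sc_one, map_one]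
        exact Matrix.map_one _ Rat.cast_zero Rat.cast_one)
      map_mul' := fun z z' => hinj _ _ (by
        rw [hF, sc_mul, map_mul, hF, hF]
        exact mC_mul _ _)
      map_zero' := hinj _ _ (by
        have h1 : sc (0 : κ ⊕ σ → ℂ) = 0 := by
          refine Prod.ext (funext fun k => ?_) rfl
          simp [sc]
        rw [hF, h1, map_zero]
        exact Matrix.map_zero _ Rat.cast_zero)
      map_add' := fun z z' => hinj _ _ (by
        rw [hF, sc_add, map_add, hF, hF]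
        exact Matrix.map_add _ Rat.cast_add _ _) }
  let ev₀ : CenAlg c.1 →ₐ[ℚ] (κ ⊕ σ → ℂ) := ev₂.toRatAlgHom
  have hint : ∀ (f : CenAlg c.1 →ₐ[ℚ] ℂ) z, f z ∈ Qbar := by
    intro f z
    have h1 : IsIntegral ℚ (f z) := (Algebra.IsIntegral.isIntegral (R := ℚ) z).map f
    exact mem_algebraicClosure_iff.2 h1.isAlgebraic
  let ev₁ : κ ⊕ σ → EmbC c.1 := fun t =>
    ((Pi.evalAlgHom ℚ (fun _ : κ ⊕ σ => ℂ) t).comp ev₀).codRestrict Qbar.toSubalgebra (hint _)
  have hev₁ : ∀ t z, ((ev₁ t z : Qbar) : ℂ) = F z t := fun t z => rfl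
  have hbij : Function.Bijective ev₁ := by
    constructor
    · intro t t' htt
      by_contra hne
      have h1 : ∀ x ∈ Submodule.span ℂ {Y : Matrix ι ι ℂ | ∃ y ∈ CenAlg c.1, Y = mC y},
          ∃ a : κ ⊕ σ → ℂ, Ψ (sc a) = x ∧ a t = a t' := by
        intro x hx
        induction hx using Submodule.span_induction with
        | mem Y hY =>
          obtain ⟨y, hy, rfl⟩ := hY
          refine ⟨F ⟨y, hy⟩, hF ⟨y, hy⟩, ?_⟩
          rw [← hev₁, ← hev₁, htt]
        | zero =>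
          refine ⟨0, ?_, rfl⟩
          have h1 : sc (0 : κ ⊕ σ → ℂ) = 0 := by
            refine Prod.ext (funext fun k => ?_) rfl
            simp [sc]
          rw [h1, map_zero]
        | add Y Y' _ _ h2 h3 =>
          obtain ⟨a, ha, ha'⟩ := h2
          obtain ⟨b, hb, hb'⟩ := h3
          exact ⟨a + b, by rw [sc_add, map_add, ha, hb], by rw [Pi.add_apply, Pi.add_apply, ha', hb']⟩
        | smul r Y _ h2 =>
          obtain ⟨a, ha, ha'⟩ := h2
          exact ⟨r • a, by rw [sc_smul, map_smul, ha], by rw [Pi.smul_apply, Pi.smul_apply, ha']⟩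
      obtain ⟨a, ha, ha'⟩ := h1 (Ψ (sc (Pi.single t 1))) (center_span (hmem _) fun y hy => by
        obtain ⟨v, rfl⟩ := hrange y hy
        rw [← map_mul, ← map_mul, sc_central])
      rw [hinj _ _ ha, Pi.single_eq_same, Pi.single_eq_of_ne (Ne.symm hne)] at ha'
      exact one_ne_zero ha'
    · intro s
      let s₀ : CenAlg c.1 →ₐ[ℚ] ℂ := Qbar.val.comp s
      have h1 : ∀ z : CenAlg c.1, ∃ t, s₀ z = F z t := by
        intro z
        by_contra hcon
        push Not at hcon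
        apply root_singular s₀ z
        have h2 : s₀ z • (1 : Matrix ι ι ℂ) - mC z.1 = Ψ (sc fun t => s₀ z - F z t) := by
          have h3 : (fun t => s₀ z - F z t) = s₀ z • (1 : κ ⊕ σ → ℂ) + (-1 : ℂ) • F z := by
            funext t
            simp [sub_eq_add_neg]
          rw [h3, sc_add, sc_smul, sc_smul, map_add, map_smul, map_smul, hF, sc_one, map_one,
            sub_eq_add_neg, neg_one_smul]
        rw [h2]
        refine IsUnit.map Ψ ?_
        refine IsUnit.of_mul_eq_one (sc fun t => (s₀ z - F z t)⁻¹) ?_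
        rw [← sc_mul, ← sc_one]
        congr 1
        funext t
        exact mul_inv_cancel₀ (sub_ne_zero.2 (hcon t))
      let p : κ ⊕ σ → Submodule ℚ (CenAlg c.1) := fun t =>
        LinearMap.ker (s₀.toLinearMap - ((Pi.evalAlgHom ℚ (fun _ : κ ⊕ σ => ℂ) t).comp ev₀).toLinearMap)
      obtain ⟨t, ht⟩ := Subspace.exists_eq_top_of_iUnion_eq_univ (p := p) (by
        rw [Set.eq_univ_iff_forall]
        intro z
        obtain ⟨t, ht⟩ := h1 z
        refine Set.mem_iUnion.2 ⟨t, ?_⟩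
        change z ∈ p t
        rw [LinearMap.mem_ker, LinearMap.sub_apply, sub_eq_zero]
        exact ht)
      refine ⟨t, AlgHom.ext fun z => Subtype.ext ?_⟩
      have h2 : z ∈ p t := by
        rw [ht]
        exact Submodule.mem_top
      rw [LinearMap.mem_ker, LinearMap.sub_apply, sub_eq_zero] at h2
      exact h2.symm
  let ev : κ ⊕ σ ≃ EmbC c.1 := Equiv.ofBijective ev₁ hbij
  have hev : ∀ t z, ((ev t z : Qbar) : ℂ) = F z t := fun t z => rfl
  -- the adjoint on the centre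
  have hbar : ∀ z z' : CenAlg c.1, z'.1 = adj ψ z.1 → F z' =
      Sum.elim (fun k => F z (Sum.inl k)) fun s => F z (Sum.inr (τ s)) := by
    intro z z' hz
    apply hinj
    rw [hF, hz, ← adj_mC h.det, ← hF, ← adj_sc, ← hadj]
  -- complex conjugation on the centre
  have hcc : ∀ (z z' : CenAlg c.1), z'.1 = adj ψ z.1 → ∀ t, (starRingEnd ℂ) (F z t) = F z' t := by
    intro z z' hz t
    have hE : Ψ (sc (Pi.single t 1)) ≠ 0 := by
      intro h0
      have h1 : sc (0 : κ ⊕ σ → ℂ) = 0 := by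
        refine Prod.ext (funext fun k => ?_) rfl
        simp [sc]
      have h2 := congrFun (hinj (Pi.single t 1) 0 (by rw [h0, h1, map_zero])) t
      rw [Pi.single_eq_same] at h2
      exact one_ne_zero h2
    have hv : ∃ v' : ι → ℂ, Ψ (sc (Pi.single t 1)) *ᵥ v' ≠ 0 := by
      by_contra hcon
      push Not at hcon
      apply hE
      ext i j
      have := congrFun (hcon (Pi.single j 1)) i
      simpa using this
    obtain ⟨v', hv'⟩ := hv
    set v := Ψ (sc (Pi.single t 1)) *ᵥ v' with hvdef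
    have heig : ∀ z : CenAlg c.1, mC z.1 *ᵥ v = F z t • v := by
      intro z
      have h1 : F z * Pi.single t 1 = F z t • (Pi.single t 1 : κ ⊕ σ → ℂ) := by
        funext t'
        by_cases h2 : t' = t
        · subst h2
          simp
        · simp [Pi.single_eq_of_ne h2]
      rw [hvdef, Matrix.mulVec_mulVec, ← hF, ← map_mul, ← sc_mul, h1, sc_smul, map_smul,
        Matrix.smul_mulVec]
    have hst : st J ψ (mC z.1) = mC z'.1 := by
      rw [st, cj_mC, adj_mC h.det, ← hz, ← cen_comm z'.2 (jC_mem h), Matrix.mul_assoc, jC_sq h,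
        Matrix.mul_neg, Matrix.mul_one, neg_neg]
    have h1 := Hm_st h (mC z.1)
    rw [hst] at h1
    have h2 : star v ⬝ᵥ ((Hm J ψ * mC z'.1) *ᵥ v) = F z' t * (star v ⬝ᵥ (Hm J ψ *ᵥ v)) := by
      rw [← Matrix.mulVec_mulVec, heig, Matrix.mulVec_smul, dotProduct_smul, smul_eq_mul]
    have h3 : star v ⬝ᵥ (((mC z.1)ᴴ * Hm J ψ) *ᵥ v) =
        (starRingEnd ℂ) (F z t) * (star v ⬝ᵥ (Hm J ψ *ᵥ v)) := by
      rw [← Matrix.mulVec_mulVec, Matrix.dotProduct_mulVec, ← Matrix.star_mulVec, heig, star_smul,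
        smul_dotProduct, smul_eq_mul]
      rfl
    rw [h1, h3] at h2
    exact mul_right_cancel₀ (Hm_pos h hv') h2
  refine ⟨{
    κ := κ
    σ := σ
    fκ := fκ
    fσ := fσ
    dκ := dκ
    dσ := dσ
    τ := τ
    τ_ne := hne
    τ_τ := hττ
    Ψ := Ψ
    inj := hΨinj
    mem_range := fun x => ⟨?_, ?_⟩
    adj_Ψ := hadj
    ev := ev
    ev_spec := fun z => (hF z).symm
    bar_κ := fun k z z' hz => ?_
    bar_σ := fun s z z' hz => ?_
    cc_κ := fun k z => ?_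
    cc_σ := fun s z => ?_ }⟩
  · rintro ⟨u, rfl⟩
    exact mem_CC.1 (hmem u)
  · intro hx
    exact hrange x (mem_CC.2 hx)
  · apply Subtype.ext
    rw [hev, hev, hbar z z' hz]
    rfl
  · apply Subtype.ext
    rw [hev, hev, hbar z z' hz]
    rfl
  · have h1 := hcc z ⟨adj ψ z.1, adj_CenAlg hB h z.2⟩ rfl (Sum.inl k)
    rw [hbar z ⟨adj ψ z.1, adj_CenAlg hB h z.2⟩ rfl] at h1
    exact h1
  · have h1 := hcc z ⟨adj ψ z.1, adj_CenAlg hB h z.2⟩ rfl (Sum.inr s)
    rw [hbar z ⟨adj ψ z.1, adj_CenAlg hB h z.2⟩ rfl] at h1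
    exact h1

end Pool.Agent.Lib.MPf11a48.U.StrM
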