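import Pool.Agent.Lib.MP_f11a48_ag.U.Bic
import Pool.Agent.Lib.MP_f11a48_ag.helper92.Deriv
import Pool.Agent.Lib.MP_f11a48_ag.helper4.Generic

/-!
# MP_f11a48_ag, project U, module TOR: the central part of the Lie algebra
-/

set_option autoImplicit false

open Matrix MvPolynomial Pool.Agent.Lib.MPf11a48.CM Pool.Agent.Lib.MPf11a48.GL2T

namespace Pool.Agent.Lib.MPf11a48.U

namespace TORM

variable {ι : Type} [Fintype ι] [DecidableEq ι]

/-! ## Rational structure -/

omit [Fintype ι] [DecidableEq ι] in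
/-- A rational linear functional maps complex combinations of elements of a rational space into
that space. -/
theorem map_mem {V : Submodule ℚ (Matrix ι ι ℚ)} {X : Matrix ι ι ℂ}
    (hX : X ∈ Submodule.span ℂ {Y : Matrix ι ι ℂ | ∃ Z ∈ V, Y = mC Z}) (l : ℂ →ₗ[ℚ] ℚ) :
    X.map l ∈ V := by
  induction hX using Submodule.span_induction generalizing l with
  | mem Y hY =>
    obtain ⟨Z, hZ, rfl⟩ := hY
    have : (mC Z).map l = l 1 • Z := by
      ext i j
      simp only [Matrix.map_apply, Matrix.smul_apply, smul_eq_mul]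
      have h1 : ((Z i j : ℚ) : ℂ) = (Z i j) • (1 : ℂ) := by
        rw [Algebra.smul_def, mul_one]; rfl
      rw [h1, map_smul, smul_eq_mul, mul_comm]
    rw [this]
    exact V.smul_mem _ hZ
  | zero =>
    have : (0 : Matrix ι ι ℂ).map l = 0 := by
      ext i j
      simp
    rw [this]
    exact V.zero_mem
  | add X Y _ _ hX hY =>
    have : (X + Y).map l = X.map l + Y.map l := by
      ext i j
      simp
    rw [this]
    exact V.add_mem (hX l) (hY l)
  | smul t X _ hX =>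
    have : (t • X).map l = X.map (l ∘ₗ LinearMap.mulLeft ℚ t) := by
      ext i j
      simp
    rw [this]
    exact hX _

omit [DecidableEq ι] in
theorem mem_span_of_map {V : Submodule ℚ (Matrix ι ι ℚ)} {x : Matrix ι ι ℂ}
    (hx : ∀ l : ℂ →ₗ[ℚ] ℚ, x.map l ∈ V) :
    x ∈ Submodule.span ℂ {Y : Matrix ι ι ℂ | ∃ Z ∈ V, Y = mC Z} := by
  classical
  let b := Module.Basis.ofVectorSpace ℚ ℂ
  let X : Module.Basis.ofVectorSpaceIndex ℚ ℂ → Matrix ι ι ℚ := fun k => x.map (b.coord k)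
  let s : Finset (Module.Basis.ofVectorSpaceIndex ℚ ℂ) :=
    Finset.univ.biUnion fun i => Finset.univ.biUnion fun j => (b.repr (x i j)).support
  have hs : x = ∑ k ∈ s, (b k : ℂ) • mC (X k) := by
    ext i j
    rw [Matrix.sum_apply]
    have h1 := b.linearCombination_repr (x i j)
    rw [Finsupp.linearCombination_apply, Finsupp.sum] at h1
    conv_lhs => rw [← h1]
    have hsub : (b.repr (x i j)).support ⊆ s := by
      intro k hk
      simp only [s, Finset.mem_biUnion, Finset.mem_univ, true_and]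
      exact ⟨i, j, hk⟩
    rw [Finset.sum_subset hsub (fun k _ hk => by
      rw [Finsupp.notMem_support_iff.1 hk, zero_smul])]
    refine Finset.sum_congr rfl fun k _ => ?_
    change (b.repr (x i j)) k • b k = b k * (((b.repr (x i j)) k : ℚ) : ℂ)
    rw [Algebra.smul_def, mul_comm]
    rfl
  rw [hs]
  exact Submodule.sum_mem _ fun k _ => Submodule.smul_mem _ _
    (Submodule.subset_span ⟨X k, hx _, rfl⟩)

/-- The rational central elements of the Lie algebra. -/
def cQ (hL : SpecLIN) (c : GL ι ℂ) : Submodule ℚ (Matrix ι ι ℚ) where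
  carrier := {Z | InH c (mC Z) ∧ Z ∈ CenAlg c.1}
  zero_mem' := by
    refine ⟨?_, zero_mem _⟩
    have : mC (0 : Matrix ι ι ℚ) = 0 := by
      ext i j
      simp
    rw [this]
    exact (hL c).1
  add_mem' := by
    rintro X Y ⟨hX, hX'⟩ ⟨hY, hY'⟩
    refine ⟨?_, add_mem hX' hY'⟩
    have : mC (X + Y) = mC X + mC Y := by
      ext i j
      simp
    rw [this]
    exact (hL c).2.1 _ _ hX hY
  smul_mem' := by
    rintro t X ⟨hX, hX'⟩
    refine ⟨?_, Subalgebra.smul_mem _ hX' t⟩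
    have : mC (t • X) = (t : ℂ) • mC X := by
      ext i j
      simp
    rw [this]
    exact (hL c).2.2.1 _ _ hX

/-- The rational elements of the Lie algebra. -/
def hS (hL : SpecLIN) (c : GL ι ℂ) : Submodule ℚ (Matrix ι ι ℚ) where
  carrier := {Z | InH c (mC Z)}
  zero_mem' := by
    have : mC (0 : Matrix ι ι ℚ) = 0 := by
      ext i j
      simp
    change InH c (mC 0)
    rw [this]
    exact (hL c).1
  add_mem' := by
    intro X Y hX hY
    have : mC (X + Y) = mC X + mC Y := by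
      ext i j
      simp
    change InH c (mC (X + Y))
    rw [this]
    exact (hL c).2.1 _ _ hX hY
  smul_mem' := by
    intro t X hX
    have : mC (t • X) = (t : ℂ) • mC X := by
      ext i j
      simp
    change InH c (mC (t • X))
    rw [this]
    exact (hL c).2.2.1 _ _ hX

/-- Central elements of the Lie algebra are combinations of rational ones. -/
theorem mem_span_cQ (hL : SpecLIN) (hB : SpecBIC) {c : GL ι ℂ}
    {J : Matrix ι ι ℝ} {ψ : Matrix ι ι ℚ} (h : HD c J ψ) {X : Matrix ι ι ℂ} (hX : InH c X)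
    (hc : ∀ Y, InH c Y → X * Y = Y * X) :
    X ∈ Submodule.span ℂ {Y : Matrix ι ι ℂ | ∃ Z ∈ cQ hL c, Y = mC Z} := by
  refine mem_span_of_map fun l => ?_
  have h1 : X ∈ Submodule.span ℂ {Y : Matrix ι ι ℂ | ∃ Z ∈ hS hL c, Y = mC Z} := by
    refine Submodule.span_mono ?_ ((hL c).2.2.2.2 X hX)
    rintro _ ⟨Z, rfl, hZ⟩
    exact ⟨Z, hZ, rfl⟩
  have h2 : InH c (mC (X.map l)) := map_mem h1 l
  have h3 : ∀ Y : Matrix ι ι ℚ, InH c (mC Y) → X.map l * Y = Y * X.map l := by
    intro Y hY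
    have h4 := hc _ hY
    ext i j
    have h5 := congrArg l (congrFun (congrFun h4 i) j)
    simp only [Matrix.mul_apply, map_sum, Matrix.map_apply] at h5 ⊢
    have h6 : ∀ (z : ℂ) (q : ℚ), l (z * (q : ℂ)) = l z * q := by
      intro z q
      have : z * (q : ℂ) = q • z := by
        rw [Algebra.smul_def, mul_comm]; rfl
      rw [this, map_smul, smul_eq_mul, mul_comm]
    have h7 : ∀ (z : ℂ) (q : ℚ), l ((q : ℂ) * z) = q * l z := by
      intro z q
      rw [mul_comm, h6, mul_comm]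
    simp only [h6, h7] at h5
    exact h5
  have h4 : X.map l ∈ ComAlg c.1 := by
    rw [(hB c J ψ h).2]
    exact Algebra.subset_adjoin h2
  refine ⟨h2, h4, ?_⟩
  rw [SetLike.mem_coe, Subalgebra.mem_centralizer_iff]
  intro Y hY
  rw [SetLike.mem_coe, (hB c J ψ h).2] at hY
  induction hY using Algebra.adjoin_induction with
  | mem Y hY => exact (h3 Y hY).symm
  | algebraMap r => exact Algebra.commutes r _
  | add Y Y' _ _ h5 h6 => rw [add_mul, mul_add, h5, h6]
  | mul Y Y' _ _ h5 h6 => rw [mul_assoc, h6, ← mul_assoc, h5, mul_assoc]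

/-! ## The adjoint -/

theorem adj_adj {ψ : Matrix ι ι ℚ} (hψ : ψ.det ≠ 0) (hs : ψᵀ = -ψ) (x : Matrix ι ι ℚ) :
    adj ψ (adj ψ x) = x := by
  have hu : IsUnit ψ.det := isUnit_iff_ne_zero.2 hψ
  have h1 : (ψ⁻¹)ᵀ = -ψ⁻¹ := by
    rw [Matrix.transpose_nonsing_inv, hs]
    refine Matrix.inv_eq_left_inv ?_
    rw [neg_mul_neg, Matrix.nonsing_inv_mul _ hu]
  simp only [adj, Matrix.transpose_mul, Matrix.transpose_transpose, hs, h1]
  simp only [neg_mul, mul_neg, neg_neg, Matrix.mul_assoc]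
  rw [Matrix.nonsing_inv_mul _ hu, Matrix.mul_one, ← Matrix.mul_assoc,
    Matrix.nonsing_inv_mul _ hu, Matrix.one_mul]

theorem adj_mul {ψ : Matrix ι ι ℚ} (hψ : ψ.det ≠ 0) (x y : Matrix ι ι ℚ) :
    adj ψ (x * y) = adj ψ y * adj ψ x := by
  have hu : IsUnit ψ.det := isUnit_iff_ne_zero.2 hψ
  simp only [adj, Matrix.transpose_mul, Matrix.mul_assoc]
  rw [← Matrix.mul_assoc ψ ψ⁻¹, Matrix.mul_nonsing_inv _ hu, Matrix.one_mul]

theorem adj_centralizer {ψ : Matrix ι ι ℚ} (hψ : ψ.det ≠ 0) (hs : ψᵀ = -ψ)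
    {E : Set (Matrix ι ι ℚ)} (hE : ∀ B ∈ E, adj ψ B ∈ E) {x : Matrix ι ι ℚ}
    (hx : x ∈ Subalgebra.centralizer ℚ E) : adj ψ x ∈ Subalgebra.centralizer ℚ E := by
  rw [Subalgebra.mem_centralizer_iff] at hx ⊢
  intro B hB
  have h1 := congrArg (adj ψ) (hx _ (hE B hB))
  rw [adj_mul hψ, adj_mul hψ, adj_adj hψ hs] at h1
  exact h1.symm

theorem adj_cen (hB : SpecBIC) {c : GL ι ℂ} {J : Matrix ι ι ℝ} {ψ : Matrix ι ι ℚ} (h : HD c J ψ)
    {z : Matrix ι ι ℚ} (hz : z ∈ CenAlg c.1) : adj ψ z ∈ CenAlg c.1 :=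
  ⟨adj_centralizer h.det h.skew (hB c J ψ h).1 hz.1,
    adj_centralizer h.det h.skew
      (fun _ hB' => adj_centralizer h.det h.skew (hB c J ψ h).1 hB') hz.2⟩

theorem isBar_unique (hB : SpecBIC) {c : GL ι ℂ} {J : Matrix ι ι ℝ} {ψ : Matrix ι ι ℚ}
    (h : HD c J ψ) {s s' s'' : EmbC c.1} (h1 : IsBar ψ s s') (h2 : IsBar ψ s s'') : s' = s'' := by
  ext1 z
  have h3 := h1 z ⟨adj ψ z.1, adj_cen hB h z.2⟩ rfl
  have h4 := h2 z ⟨adj ψ z.1, adj_cen hB h z.2⟩ rfl
  rw [h3, h4]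

/-! ## The structure -/

section Str

variable {c : GL ι ℂ} {ψ : Matrix ι ι ℚ} (S : Str c ψ)

/-- the conjugate index -/
def bar : S.κ ⊕ S.σ → S.κ ⊕ S.σ := Sum.map id S.τ

theorem bar_bar (e : S.κ ⊕ S.σ) : bar S (bar S e) = e := by
  rcases e with k | s
  · rfl
  · exact congrArg Sum.inr (S.τ_τ s)

/-- `bar` as a permutation -/
def barE : S.κ ⊕ S.σ ≃ S.κ ⊕ S.σ := ⟨bar S, bar S, bar_bar S, bar_bar S⟩

theorem isBar_bar (e : S.κ ⊕ S.σ) : IsBar ψ (S.ev e) (S.ev (bar S e)) := by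
  rcases e with k | s
  exacts [S.bar_κ k, S.bar_σ s]

theorem conj_ev (e : S.κ ⊕ S.σ) (z : CenAlg c.1) :
    (starRingEnd ℂ) ((S.ev e z : Qbar) : ℂ) = ((S.ev (bar S e) z : Qbar) : ℂ) := by
  rcases e with k | s
  exacts [S.cc_κ k z, S.cc_σ s z]

/-- the central element with given eigenvalues -/
noncomputable def cen (x : S.κ ⊕ S.σ → ℂ) : Matrix ι ι ℂ :=
  S.Ψ (fun k => x (Sum.inl k) • 1, fun s => x (Sum.inr s))

/-- the same as a linear map -/
noncomputable def cenL : (S.κ ⊕ S.σ → ℂ) →ₗ[ℂ] Matrix ι ι ℂ where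
  toFun := cen S
  map_add' x y := by
    rw [cen, cen, cen, ← map_add]
    congr 1
    refine Prod.ext ?_ ?_
    · funext k
      simp [add_smul]
    · funext s
      simp
  map_smul' t x := by
    rw [cen, cen, RingHom.id_apply, ← map_smul]
    congr 1
    refine Prod.ext ?_ ?_
    · funext k
      simp [mul_smul]
    · funext s
      simp

theorem cenL_apply (x : S.κ ⊕ S.σ → ℂ) : cenL S x = cen S x := rfl

theorem cen_inj : Function.Injective (cenL S) := by
  intro x y h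
  have h1 := S.inj h
  rw [Prod.mk.injEq] at h1
  funext e
  rcases e with k | s
  · have h2 := congrFun (congrFun (congrFun h1.1 k) 0) 0
    simpa using h2
  · exact congrFun h1.2 s

/-- the eigenvalues of a rational central element -/
noncomputable def pt (z : CenAlg c.1) (e : S.κ ⊕ S.σ) : ℂ := ((S.ev e z : Qbar) : ℂ)

theorem cen_pt (z : CenAlg c.1) : cenL S (pt S z) = mC z.1 := (S.ev_spec z).symm

theorem cen_comm (x : S.κ ⊕ S.σ → ℂ) (u : (S.κ → Matrix (Fin 2) (Fin 2) ℂ) × (S.σ → ℂ)) :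
    cenL S x * S.Ψ u = S.Ψ u * cenL S x := by
  rw [cenL_apply, cen, ← map_mul, ← map_mul]
  congr 1
  refine Prod.ext ?_ ?_
  · funext k
    simp
  · funext s
    simp [mul_comm]

theorem mult_eq {m : ℂ} {x : S.κ → Matrix (Fin 2) (Fin 2) ℂ} {y : S.σ → ℂ} (hψ : ψ.det ≠ 0)
    (h : (S.Ψ (x, y))ᵀ * mC ψ + mC ψ * S.Ψ (x, y) = m • mC ψ) :
    (∀ k, (x k).trace = m) ∧ ∀ s, y s + y (S.τ s) = m := by
  have h1 : adj (mC ψ) (S.Ψ (x, y)) + S.Ψ (x, y) = m • 1 := by
    have h2 := congrArg (fun A => (mC ψ)⁻¹ * A) h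
    simp only [Matrix.mul_add, Matrix.mul_smul, ← Matrix.mul_assoc] at h2
    rw [← BicM.mC_inv hψ, BicM.mC_inv_mul hψ, Matrix.one_mul] at h2
    rw [adj, ← BicM.mC_inv hψ]
    exact h2
  rw [S.adj_Ψ, ← map_add, ← map_one S.Ψ, ← map_smul] at h1
  have h2 := S.inj h1
  rw [Prod.ext_iff] at h2
  refine ⟨fun k => ?_, fun s => ?_⟩
  · have h3 := congrFun (congrFun (congrFun h2.1 k) 0) 0
    simp only [Prod.fst_add, Pi.add_apply, Matrix.adjugate_fin_two, Prod.smul_fst, Prod.fst_one,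
      Pi.smul_apply, Pi.one_apply, Matrix.add_apply, Matrix.smul_apply, Matrix.one_apply_eq,
      smul_eq_mul, mul_one, Matrix.of_apply, Matrix.cons_val', Matrix.cons_val_zero] at h3
    rw [Matrix.trace_fin_two, add_comm]
    exact h3
  · have h3 := congrFun h2.2 s
    simp only [Prod.snd_add, Pi.add_apply, Prod.smul_snd, Prod.snd_one, Pi.smul_apply,
      Pi.one_apply, smul_eq_mul, mul_one] at h3
    rw [add_comm]
    exact h3

theorem cen_mul (x y : S.κ ⊕ S.σ → ℂ) : cenL S (x * y) = cenL S x * cenL S y := by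
  rw [cenL_apply, cenL_apply, cenL_apply, cen, cen, cen, ← map_mul]
  congr 1
  refine Prod.ext ?_ ?_
  · funext k
    simp [smul_smul, mul_comm]
  · funext s
    simp

theorem cen_one : cenL S 1 = 1 := by
  rw [cenL_apply, cen, ← map_one S.Ψ]
  congr 1
  refine Prod.ext ?_ ?_
  · funext k
    simp
  · funext s
    simp

theorem cen_sum (x : S.κ ⊕ S.σ → ℂ) : ∑ e, x e • cenL S (Pi.single e 1) = cenL S x := by
  simp only [← map_smul, ← map_sum]
  congr 1
  funext e
  simp [Finset.sum_apply, Pi.single_apply]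

/-- Two eigenvalues which agree on the whole Lie algebra. -/
theorem eq_of_agree (hB : SpecBIC) {J : Matrix ι ι ℝ} (h : HD c J ψ) {s t : S.σ}
    (hst : ∀ x y, InH c (S.Ψ (x, y)) → y s = y t) : s = t := by
  have h1 : ∀ Z ∈ ComAlg c.1, ∃ x y, S.Ψ (x, y) = mC Z ∧ y s = y t := by
    intro Z hZ
    rw [(hB c J ψ h).2] at hZ
    induction hZ using Algebra.adjoin_induction with
    | mem Z hZ' =>
      have h2 : Z ∈ ComAlg c.1 := by
        rw [(hB c J ψ h).2]
        exact Algebra.subset_adjoin hZ'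
      obtain ⟨u, hu⟩ := (S.mem_range (mC Z)).2 (fun B hB' => by
        rw [← BicM.mC_mul, ← BicM.mC_mul]
        rw [ComAlg, Subalgebra.mem_centralizer_iff] at h2
        rw [h2 B hB'])
      refine ⟨u.1, u.2, hu, hst u.1 u.2 ?_⟩
      rw [hu]
      exact hZ'
    | algebraMap r =>
      refine ⟨fun _ => (r : ℂ) • 1, fun _ => (r : ℂ), ?_, rfl⟩
      have h2 : ((fun _ => (r : ℂ) • 1, fun _ => (r : ℂ)) :
          (S.κ → Matrix (Fin 2) (Fin 2) ℂ) × (S.σ → ℂ)) = (r : ℂ) • 1 := by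
        refine Prod.ext ?_ ?_
        · funext k
          simp
        · funext s
          simp
      rw [h2, map_smul, map_one]
      ext i j
      by_cases hij : i = j
      · subst hij
        simp [Matrix.algebraMap_matrix_apply]
      · simp [Matrix.algebraMap_matrix_apply, hij]
    | add Z Z' _ _ hZ hZ' =>
      obtain ⟨x, y, h2, h3⟩ := hZ
      obtain ⟨x', y', h2', h3'⟩ := hZ'
      refine ⟨x + x', y + y', ?_, ?_⟩
      · have h4 : mC (Z + Z') = mC Z + mC Z' := by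
          ext i j
          simp
        rw [h4, ← h2, ← h2', ← map_add]
        rfl
      · rw [Pi.add_apply, Pi.add_apply, h3, h3']
    | mul Z Z' _ _ hZ hZ' =>
      obtain ⟨x, y, h2, h3⟩ := hZ
      obtain ⟨x', y', h2', h3'⟩ := hZ'
      refine ⟨x * x', y * y', ?_, ?_⟩
      · rw [BicM.mC_mul, ← h2, ← h2', ← map_mul]
        rfl
      · rw [Pi.mul_apply, Pi.mul_apply, h3, h3']
  have h2 : S.ev (Sum.inr s) = S.ev (Sum.inr t) := by
    ext1 z
    obtain ⟨x, y, hxy, hyst⟩ := h1 z.1 z.2.1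
    have h3 := S.ev_spec z
    rw [← hxy] at h3
    have h4 := S.inj h3
    rw [Prod.mk.injEq] at h4
    have h5 := congrFun h4.2 s
    have h6 := congrFun h4.2 t
    rw [h5, h6] at hyst
    exact Subtype.ext hyst
  exact Sum.inr_injective (S.ev.injective h2)

/-- Linear relations between the eigenvalues of rational central elements hold for all central
elements. -/
theorem mem_span_pt (hL : SpecLIN) (hSIM : SpecSIM) (hB : SpecBIC) {J : Matrix ι ι ℝ}
    (h : HD c J ψ) {x : S.κ ⊕ S.σ → ℂ} (hx : InH c (cenL S x)) :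
    x ∈ Submodule.span ℂ {v | ∃ z : CenAlg c.1, InH c (mC z.1) ∧ v = pt S z} := by
  have h1 := mem_span_cQ hL hB h hx (fun Y hY => by
    obtain ⟨u, rfl⟩ := (S.mem_range Y).2 ((hSIM c J ψ h).1 Y hY)
    exact cen_comm S x u)
  have h2 : {Y : Matrix ι ι ℂ | ∃ Z ∈ cQ hL c, Y = mC Z} =
      cenL S '' {v | ∃ z : CenAlg c.1, InH c (mC z.1) ∧ v = pt S z} := by
    ext Y
    constructor
    · rintro ⟨Z, ⟨hZ, hZ'⟩, rfl⟩
      exact ⟨pt S ⟨Z, hZ'⟩, ⟨⟨Z, hZ'⟩, hZ, rfl⟩, cen_pt S ⟨Z, hZ'⟩⟩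
    · rintro ⟨_, ⟨z, hz, rfl⟩, rfl⟩
      exact ⟨z.1, ⟨hz, z.2⟩, cen_pt S z⟩
  rw [h2, ← Submodule.map_span] at h1
  obtain ⟨x', hx', h3⟩ := h1
  rwa [← cen_inj S h3]

theorem rel_ext (hL : SpecLIN) (hSIM : SpecSIM) (hB : SpecBIC) {J : Matrix ι ι ℝ}
    (h : HD c J ψ) {f : S.κ ⊕ S.σ → ℚ}
    (hf : ∀ z : CenAlg c.1, InH c (mC z.1) → ∑ e, (f e : ℂ) * pt S z e = 0)
    {x : S.κ ⊕ S.σ → ℂ} (hx : InH c (cenL S x)) : ∑ e, (f e : ℂ) * x e = 0 := by
  have h1 := mem_span_pt S hL hSIM hB h hx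
  clear hx
  induction h1 using Submodule.span_induction with
  | mem v hv =>
    obtain ⟨z, hz, rfl⟩ := hv
    exact hf z hz
  | zero => simp
  | add v w _ _ hv hw => simp only [Pi.add_apply, mul_add, Finset.sum_add_distrib, hv, hw, add_zero]
  | smul t v _ hv =>
    have : ∀ e, (f e : ℂ) * (t • v) e = t * ((f e : ℂ) * v e) := fun e => by
      simp only [Pi.smul_apply, smul_eq_mul]
      ring
    simp only [this, ← Finset.mul_sum, hv, mul_zero]

/-- The central part of an element of the Lie algebra. -/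
theorem decomp (hL : SpecLIN) {J : Matrix ι ι ℝ} (h : HD c J ψ)
    (hsl : ∀ x : S.κ → Matrix (Fin 2) (Fin 2) ℂ, (∀ k, (x k).trace = 0) → InH c (S.Ψ (x, 0)))
    {x : S.κ → Matrix (Fin 2) (Fin 2) ℂ} {y : S.σ → ℂ} (hx : InH c (S.Ψ (x, y))) {m : ℂ}
    (hm : (S.Ψ (x, y))ᵀ * mC ψ + mC ψ * S.Ψ (x, y) = m • mC ψ) :
    (∀ s, y s + y (S.τ s) = m) ∧ InH c (cenL S (Sum.elim (fun _ => m / 2) y)) := by
  obtain ⟨h1, h2⟩ := mult_eq S h.det hm
  refine ⟨h2, ?_⟩
  have h3 : cenL S (Sum.elim (fun _ => m / 2) y) =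
      S.Ψ (x, y) + (-1 : ℂ) • S.Ψ (fun k => x k - (m / 2) • 1, 0) := by
    rw [cenL_apply, cen, ← map_smul, ← map_add]
    congr 1
    refine Prod.ext ?_ ?_
    · funext k
      simp
    · funext s
      simp
  rw [h3]
  refine (hL c).2.1 _ _ hx ((hL c).2.2.1 _ _ (hsl _ fun k => ?_))
  rw [Matrix.trace_sub, h1, Matrix.trace_smul, Matrix.trace_one]
  simp

/-! ## Relations -/

/-- the value of a rational functional at the eigenvalues of a rational central element -/
noncomputable def rel (f : EmbC c.1 → ℚ) (z : CenAlg c.1) : Qbar :=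
  ∑ e, algebraMap ℚ Qbar (f (S.ev e)) * S.ev e z

theorem coe_rel (f : EmbC c.1 → ℚ) (z : CenAlg c.1) :
    ((rel S f z : Qbar) : ℂ) = ∑ e, (f (S.ev e) : ℂ) * pt S z e := by
  rw [rel]
  push_cast
  rfl

theorem rel_gal (γ : Qbar ≃ₐ[ℚ] Qbar) (f : EmbC c.1 → ℚ) (z : CenAlg c.1) :
    γ (rel S (fun s => f (γ.toAlgHom.comp s)) z) = rel S f z := by
  let ρ : EmbC c.1 ≃ EmbC c.1 :=
    { toFun := fun s => γ.toAlgHom.comp s
      invFun := fun s => γ.symm.toAlgHom.comp s
      left_inv := fun s => by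
        ext1 z
        exact γ.symm_apply_apply _
      right_inv := fun s => by
        ext1 z
        exact γ.apply_symm_apply _ }
  rw [rel, rel, map_sum]
  refine Eq.trans ?_ (Equiv.sum_comp (S.ev.trans (ρ.trans S.ev.symm))
    fun e => algebraMap ℚ Qbar (f (S.ev e)) * S.ev e z)
  refine Finset.sum_congr rfl fun e _ => ?_
  simp only [Equiv.trans_apply, Equiv.apply_symm_apply, map_mul, AlgEquiv.commutes]
  rfl

/-- odd relations -/
noncomputable def oddRel : Submodule ℚ (EmbC c.1 → ℚ) where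
  carrier := {f | (∀ z : CenAlg c.1, InH c (mC z.1) → rel S f z = 0) ∧
    ∀ s s', IsBar ψ s s' → f s' = -f s}
  zero_mem' := ⟨fun z _ => by simp [rel], fun _ _ _ => by simp⟩
  add_mem' := by
    rintro f g ⟨hf, hf'⟩ ⟨hg, hg'⟩
    refine ⟨fun z hz => ?_, fun s s' hs => ?_⟩
    · have : rel S (f + g) z = rel S f z + rel S g z := by
        simp only [rel, Pi.add_apply, map_add, add_mul, Finset.sum_add_distrib]
      rw [this, hf z hz, hg z hz, add_zero]
    · rw [Pi.add_apply, Pi.add_apply, hf' s s' hs, hg' s s' hs]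
      ring
  smul_mem' := by
    rintro t f ⟨hf, hf'⟩
    refine ⟨fun z hz => ?_, fun s s' hs => ?_⟩
    · have : rel S (t • f) z = algebraMap ℚ Qbar t * rel S f z := by
        simp only [rel, Pi.smul_apply, smul_eq_mul, map_mul, Finset.mul_sum, mul_assoc]
      rw [this, hf z hz, mul_zero]
    · rw [Pi.smul_apply, Pi.smul_apply, hf' s s' hs, smul_neg]

/-- Relations are even: this uses the separation hypothesis. -/
theorem even_of_rel (hL : SpecLIN) (hSIM : SpecSIM) (hB : SpecBIC) {J : Matrix ι ι ℝ}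
    (h : HD c J ψ) (hsep : Separated c.1 ψ)
    (hsl : ∀ x : S.κ → Matrix (Fin 2) (Fin 2) ℂ, (∀ k, (x k).trace = 0) → InH c (S.Ψ (x, 0)))
    {f : S.κ ⊕ S.σ → ℚ}
    (hf : ∀ z : CenAlg c.1, InH c (mC z.1) → ∑ e, (f e : ℂ) * pt S z e = 0) :
    (∀ z : CenAlg c.1, InH c (mC z.1) → ∑ e, (f (bar S e) : ℂ) * pt S z e = 0) ∧
    ∀ e, f (bar S e) = f e := by
  have hfb : ∀ z : CenAlg c.1, InH c (mC z.1) → ∑ e, (f (bar S e) : ℂ) * pt S z e = 0 := by
    intro z hz
    have h1 := congrArg (starRingEnd ℂ) (hf z hz)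
    rw [map_sum, map_zero] at h1
    rw [← h1, ← Equiv.sum_comp (barE S)]
    refine Finset.sum_congr rfl fun e _ => ?_
    change (f (bar S (bar S e)) : ℂ) * pt S z (bar S e) = _
    rw [bar_bar, map_mul, pt, pt, conj_ev]
    congr 1
    exact (map_ratCast (starRingEnd ℂ) (f e)).symm
  refine ⟨hfb, ?_⟩
  -- the odd part
  by_contra hne
  push Not at hne
  obtain ⟨e₀, he₀⟩ := hne
  set g : EmbC c.1 → ℚ := fun s => f (S.ev.symm s) - f (bar S (S.ev.symm s)) with hg
  have hgU : g ∈ oddRel S := by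
    refine ⟨fun z hz => ?_, fun s s' hs => ?_⟩
    · apply Subtype.ext
      rw [coe_rel]
      have h1 : ∀ e, (g (S.ev e) : ℂ) * pt S z e =
          (f e : ℂ) * pt S z e - (f (bar S e) : ℂ) * pt S z e := by
        intro e
        rw [hg]
        simp only [Equiv.symm_apply_apply]
        push_cast
        ring
      simp only [h1, Finset.sum_sub_distrib, hf z hz, hfb z hz, sub_zero]
      rfl
    · have h1 : s' = S.ev (bar S (S.ev.symm s)) := by
        refine isBar_unique hB h hs ?_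
        have := isBar_bar S (S.ev.symm s)
        rwa [Equiv.apply_symm_apply] at this
      rw [h1, hg]
      simp only [Equiv.symm_apply_apply, bar_bar]
      ring
  have hU : oddRel S ≠ ⊥ := by
    intro h1
    rw [h1, Submodule.mem_bot] at hgU
    have h2 := congrFun hgU (S.ev e₀)
    rw [hg] at h2
    simp only [Equiv.symm_apply_apply, Pi.zero_apply] at h2
    apply he₀
    linarith
  obtain ⟨s, s', t, t', hs, ht, hd, hdn⟩ := hsep (oddRel S) hU (fun f hf => hf.2) (by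
    intro γ f hf
    refine ⟨fun z hz => ?_, fun s s' hs => ?_⟩
    · have h1 := rel_gal S γ f z
      rw [hf.1 z hz] at h1
      exact (map_eq_zero_iff γ γ.injective).1 h1
    · refine hf.2 _ _ fun z z' hz => ?_
      exact congrArg γ (hs z z' hz))
  -- indices
  obtain ⟨e, rfl⟩ := S.ev.surjective s
  obtain ⟨e', rfl⟩ := S.ev.surjective t
  have hs' : s' = S.ev (bar S e) := isBar_unique hB h hs (isBar_bar S e)
  have ht' : t' = S.ev (bar S e') := isBar_unique hB h ht (isBar_bar S e')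
  subst hs' ht'
  -- the relation on all central elements
  have hrel : ∀ x : S.κ ⊕ S.σ → ℂ, InH c (cenL S x) →
      x e - x (bar S e) - (x e' - x (bar S e')) = 0 := by
    intro x hx
    have h1 := rel_ext S hL hSIM hB h
      (f := fun i => (delta (S.ev e) (S.ev (bar S e)) - delta (S.ev e') (S.ev (bar S e'))) (S.ev i))
      (fun z hz => by
        rw [← coe_rel, hd.1 z hz]
        rfl) hx
    classical
    have h2 : ∀ i₀, ∑ i, (((Pi.single (S.ev i₀) 1 : EmbC c.1 → ℚ) (S.ev i) : ℚ) : ℂ) * x i =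
        x i₀ := by
      intro i₀
      rw [Finset.sum_eq_single i₀]
      · simp
      · intro b _ hb
        rw [Pi.single_eq_of_ne (S.ev.injective.ne hb)]
        simp
      · intro h3
        exact absurd (Finset.mem_univ _) h3
    rw [← h1]
    simp only [delta, Pi.sub_apply]
    push_cast
    simp only [sub_mul, Finset.sum_sub_distrib, h2]
  -- all elements of the Lie algebra
  have hall : ∀ x y, InH c (S.Ψ (x, y)) → ∃ m : ℂ, InH c (cenL S (Sum.elim (fun _ => m / 2) y)) ∧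
      (∀ i, (Sum.elim (fun _ => m / 2) y : S.κ ⊕ S.σ → ℂ) i +
        (Sum.elim (fun _ => m / 2) y : S.κ ⊕ S.σ → ℂ) (bar S i) = m) := by
    intro x y hx
    obtain ⟨m, hm⟩ := (hSIM c J ψ h).2.1 _ hx
    obtain ⟨h1, h2⟩ := decomp S hL h hsl hx hm
    refine ⟨m, h2, ?_⟩
    rintro (k | s)
    · exact add_halves m
    · exact h1 s
  have key : ∀ x y, InH c (S.Ψ (x, y)) → ∃ m : ℂ,
      (Sum.elim (fun _ => m / 2) y : S.κ ⊕ S.σ → ℂ) e =
        (Sum.elim (fun _ => m / 2) y : S.κ ⊕ S.σ → ℂ) e' ∧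
      (Sum.elim (fun _ => m / 2) y : S.κ ⊕ S.σ → ℂ) (bar S e) =
        (Sum.elim (fun _ => m / 2) y : S.κ ⊕ S.σ → ℂ) (bar S e') := by
    intro x y hx
    obtain ⟨m, h1, h2⟩ := hall x y hx
    have h3 := hrel _ h1
    have h4 := h2 e
    have h5 := h2 e'
    refine ⟨m, ?_, ?_⟩
    · linear_combination h3 / 2 + h4 / 2 - h5 / 2
    · linear_combination -h3 / 2 + h4 / 2 - h5 / 2
  rcases e with k | s <;> rcases e' with k' | t
  · apply hdn
    change delta (S.ev (Sum.inl k)) (S.ev (Sum.inl k)) =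
      delta (S.ev (Sum.inl k')) (S.ev (Sum.inl k'))
    simp [delta]
  · refine S.τ_ne t (eq_of_agree S hB h fun x y hx => ?_)
    obtain ⟨m, h1, h2⟩ := key x y hx
    exact (h2.symm.trans h1 : _)
  · refine S.τ_ne s (eq_of_agree S hB h fun x y hx => ?_)
    obtain ⟨m, h1, h2⟩ := key x y hx
    exact (h2.trans h1.symm : _)
  · have hst : s = t := eq_of_agree S hB h fun x y hx => by
      obtain ⟨m, h1, h2⟩ := key x y hx
      exact h1
    subst hst
    exact hdn rfl

end Str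

end TORM

open TORM

theorem specTOR (hL : SpecLIN) (hSIM : SpecSIM) (hB : SpecBIC) (hALG : SpecALG) : SpecTOR := by
  intro ι _ _ c J ψ S h hsep hsl m y hy
  obtain ⟨n, z, hz⟩ := Submodule.fg_iff_exists_fin_generating_family.1
    (IsNoetherian.noetherian (cQ hL c))
  have hzm : ∀ i, z i ∈ cQ hL c := fun i => by
    rw [← hz]
    exact Submodule.subset_span ⟨i, rfl⟩
  let zc : Fin n → CenAlg c.1 := fun i => ⟨z i, (hzm i).2⟩
  let x₀ : S.κ ⊕ S.σ → ℂ := fun e => ∑ i : Fin n, (Real.pi : ℂ) ^ (i : ℕ) * pt S (zc i) e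
  have hx₀ : InH c (cenL S x₀) := by
    have h1 : cenL S x₀ = ∑ i : Fin n, ((Real.pi : ℂ) ^ (i : ℕ)) • mC (z i) := by
      have h2 : x₀ = ∑ i : Fin n, ((Real.pi : ℂ) ^ (i : ℕ)) • pt S (zc i) := by
        funext e
        simp [x₀, Finset.sum_apply]
      rw [h2, map_sum]
      refine Finset.sum_congr rfl fun i _ => ?_
      rw [map_smul, cen_pt]
    rw [h1]
    refine Finset.sum_induction _ (InH c) (fun X Y hX hY => (hL c).2.1 X Y hX hY) (hL c).1
      fun i _ => (hL c).2.2.1 _ _ (hzm i).1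
  -- integral relations of `x₀`
  have hrel₀ : ∀ χ : S.κ ⊕ S.σ → ℤ, ∑ e, (χ e : ℂ) * x₀ e = 0 → ∀ i,
      ∑ e, (χ e : ℂ) * pt S (zc i) e = 0 := by
    intro χ hχ
    let a : Fin n → Qbar := fun i => ∑ e, (χ e : Qbar) * S.ev e (zc i)
    have ha : ∀ i, ((a i : Qbar) : ℂ) = ∑ e, (χ e : ℂ) * pt S (zc i) e := by
      intro i
      simp only [a]
      push_cast
      rfl
    let P : Polynomial Qbar := ∑ i : Fin n, Polynomial.C (a i) * Polynomial.X ^ (i : ℕ)
    have hP : P = 0 := by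
      by_contra hP
      refine Pool.Agent.Lib.MPf11a48.Tors.transcendental_pi_Qbar ⟨P, hP, ?_⟩
      simp only [P, map_sum, map_mul, Polynomial.aeval_C, map_pow, Polynomial.aeval_X]
      rw [← hχ]
      simp only [x₀, Finset.mul_sum]
      rw [Finset.sum_comm]
      refine Finset.sum_congr rfl fun i _ => ?_
      change ((a i : Qbar) : ℂ) * _ = _
      rw [ha, Finset.sum_mul]
      exact Finset.sum_congr rfl fun e _ => by ring
    intro i
    rw [← ha]
    have h1 : P.coeff (i : ℕ) = a i := by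
      simp only [P, Polynomial.finsetSum_coeff, Polynomial.coeff_C_mul_X_pow]
      rw [Finset.sum_eq_single i]
      · simp
      · intro j _ hj
        rw [if_neg]
        intro h2
        exact hj (Fin.ext h2.symm)
      · intro h2
        exact absurd (Finset.mem_univ i) h2
    rw [← h1, hP, Polynomial.coeff_zero]
    rfl
  have hrel : ∀ χ : S.κ ⊕ S.σ → ℤ, ∑ e, (χ e : ℂ) * x₀ e = 0 →
      ∀ w : CenAlg c.1, InH c (mC w.1) → ∑ e, (((χ e : ℤ) : ℚ) : ℂ) * pt S w e = 0 := by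
    intro χ hχ w hw
    have h1 : w.1 ∈ Submodule.span ℚ (Set.range z) := by
      rw [hz]
      exact ⟨hw, w.2⟩
    obtain ⟨q, hq⟩ := (Submodule.mem_span_range_iff_exists_fun ℚ).1 h1
    have h2 : w = ∑ i, q i • zc i := by
      apply Subtype.ext
      rw [← hq]
      push_cast
      rfl
    have h3 : ∀ e, pt S w e = ∑ i, (q i : ℂ) * pt S (zc i) e := by
      intro e
      rw [pt, h2, map_sum]
      push_cast
      refine Finset.sum_congr rfl fun i _ => ?_
      rw [map_smul, Algebra.smul_def]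
      push_cast
      rfl
    have h4 : ∑ e, (((χ e : ℤ) : ℚ) : ℂ) * pt S w e =
        ∑ i, (q i : ℂ) * ∑ e, (χ e : ℂ) * pt S (zc i) e := by
      simp only [h3, Finset.mul_sum]
      rw [Finset.sum_comm]
      refine Finset.sum_congr rfl fun i _ => Finset.sum_congr rfl fun e _ => ?_
      push_cast
      ring
    rw [h4]
    exact Finset.sum_eq_zero fun i _ => by rw [hrel₀ χ hχ i, mul_zero]
  -- an element with a non-zero multiplier
  obtain ⟨X₁, hX₁, m₁, hm₁, hX₁'⟩ := (hSIM c J ψ h).2.2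
  obtain ⟨⟨u, v⟩, rfl⟩ := (S.mem_range X₁).2 ((hSIM c J ψ h).1 X₁ hX₁)
  obtain ⟨h1, h2⟩ := decomp S hL h hsl hX₁ hX₁'
  have hbar : ∀ (m : ℂ) (y : S.σ → ℂ), (∀ s, y s + y (S.τ s) = m) → ∀ i,
      (Sum.elim (fun _ => m / 2) y : S.κ ⊕ S.σ → ℂ) i +
        (Sum.elim (fun _ => m / 2) y : S.κ ⊕ S.σ → ℂ) (bar S i) = m := by
    rintro m y hy (k | s)
    · exact add_halves m
    · exact hy s
  have hsum : ∀ (χ : S.κ ⊕ S.σ → ℤ), (∀ e, ((χ (bar S e) : ℤ) : ℚ) = ((χ e : ℤ) : ℚ)) →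
      ∀ (m : ℂ) (x : S.κ ⊕ S.σ → ℂ), (∀ i, x i + x (bar S i) = m) →
      2 * ∑ e, (χ e : ℂ) * x e = (∑ e, (χ e : ℂ)) * m := by
    intro χ hχ m x hx
    have h3 : ∑ e, (χ e : ℂ) * x e = ∑ e, (χ e : ℂ) * x (bar S e) := by
      rw [← Equiv.sum_comp (barE S)]
      refine Finset.sum_congr rfl fun e _ => ?_
      change (χ (bar S e) : ℂ) * x (bar S e) = _
      have h4 : χ (bar S e) = χ e := by exact_mod_cast hχ e
      rw [h4]
    rw [two_mul]
    nth_rewrite 2 [h3]
    rw [← Finset.sum_add_distrib, Finset.sum_mul]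
    refine Finset.sum_congr rfl fun e _ => ?_
    rw [← mul_add, hx]
  -- conclusion
  have hfin := hALG c (S.κ ⊕ S.σ) (fun e => cenL S (Pi.single e 1)) ?_ ?_ ?_ x₀
    (Sum.elim (fun _ => m / 2) y) ?_ ?_
  · rw [cen_sum] at hfin
    exact hfin
  · intro s
    rw [← cen_mul]
    congr 1
    funext e
    simp [Pi.single_apply]
  · intro s t hst
    rw [← cen_mul]
    have : (Pi.single s 1 * Pi.single t 1 : S.κ ⊕ S.σ → ℂ) = 0 := by
      funext e
      simp only [Pi.mul_apply, Pi.single_apply, Pi.zero_apply]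
      by_cases h3 : e = s
      · subst h3
        simp [hst]
      · simp [h3]
    rw [this, map_zero]
  · have h3 := cen_sum S 1
    simp only [Pi.one_apply, one_smul] at h3
    rw [h3, cen_one]
  · rw [cen_sum]
    exact hx₀
  · intro χ hχ
    have h3 := hrel χ hχ
    obtain ⟨-, h4⟩ := even_of_rel S hL hSIM hB h hsep hsl (f := fun e => ((χ e : ℤ) : ℚ)) h3
    have h5 := rel_ext S hL hSIM hB h (f := fun e => ((χ e : ℤ) : ℚ)) h3 h2
    have h6 := hsum χ h4 m₁ _ (hbar m₁ v h1)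
    have h7 := hsum χ h4 m _ (hbar m y hy)
    have h8 : ∑ e, (χ e : ℂ) * (Sum.elim (fun _ => m₁ / 2) v : S.κ ⊕ S.σ → ℂ) e = 0 := by
      rw [← h5]
      refine Finset.sum_congr rfl fun e _ => ?_
      push_cast
      rfl
    rw [h8, mul_zero] at h6
    have h9 : ∑ e, (χ e : ℂ) = 0 := by
      rcases mul_eq_zero.1 h6.symm with h10 | h10
      · exact h10
      · exact absurd h10 hm₁
    rw [h9, zero_mul] at h7
    rcases mul_eq_zero.1 h7 with h10 | h10
    · exact absurd h10 two_ne_zero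
    · exact h10

end Pool.Agent.Lib.MPf11a48.U
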