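import Pool.Agent.Lib.MP_f11a48_ag.U.SpecR
import Mathlib.RingTheory.SimpleModule.IsAlgClosed

/-!
# MP_f11a48_ag, project U: module WED

A semisimple finite-dimensional complex algebra with a linear anti-involution `d` such that all
`x + d x` are central and `d J = -J`, `J² = -1` for some `J` is a product of `2 × 2` matrix
algebras, on which `d` is the adjugate, and of copies of `ℂ`, permuted by `d` without fixed points.
-/

set_option autoImplicit false

open Matrix

namespace Pool.Agent.Lib.MPf11a48.U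

namespace WedM

/-- a matrix commuting with all matrices is scalar -/
theorem scalar_of_central {n : ℕ} (x : Matrix (Fin n) (Fin n) ℂ) (hx : ∀ y, x * y = y * x) :
    ∃ c : ℂ, x = c • 1 := by
  obtain ⟨c, hc⟩ := Matrix.mem_range_scalar_iff_commute_single'.mpr
    (fun i j => (hx (Matrix.single i j 1)).symm)
  exact ⟨c, by rw [← hc, Matrix.scalar_apply, Matrix.smul_one_eq_diagonal]⟩

/-- one block fixed by the involution -/
theorem block_fixed {m : ℕ} (hm : m ≠ 0) (f : Matrix (Fin m) (Fin m) ℂ →ₗ[ℂ] Matrix (Fin m) (Fin m) ℂ)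
    (f_one : f 1 = 1) (f_mul : ∀ x y, f (x * y) = f y * f x)
    (f_cen : ∀ x y, (x + f x) * y = y * (x + f x)) :
    (m = 1 ∧ ∀ x, f x = x) ∨
      ∃ e : Matrix (Fin m) (Fin m) ℂ ≃ₐ[ℂ] Matrix (Fin 2) (Fin 2) ℂ,
        ∀ x, e (f x) = (e x).adjugate := by
  have ht : ∀ x, ∃ t : ℂ, f x = t • 1 - x := fun x => by
    obtain ⟨c, hc⟩ := scalar_of_central (x + f x) (f_cen x)
    exact ⟨c, by rw [← hc]; abel⟩
  have hq : ∀ x, ∃ t q : ℂ, f x = t • 1 - x ∧ x * x = t • x - q • 1 := fun x => by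
    obtain ⟨t, ht1⟩ := ht x
    obtain ⟨s, hs⟩ := ht (x * x)
    have h1 := f_mul x x
    rw [hs, ht1] at h1
    have h2 : (t • (1 : Matrix (Fin m) (Fin m) ℂ) - x) * (t • 1 - x) =
        (t * t) • 1 - (2 * t) • x + x * x := by
      simp only [sub_mul, mul_sub, smul_mul_assoc, mul_smul_comm, one_mul, mul_one, smul_sub,
        smul_smul, two_mul, add_smul]
      abel
    rw [h2] at h1
    refine ⟨t, (t * t - s) / 2, ht1, ?_⟩
    have h3 : (2 : ℂ) • (x * x) = (2 * t) • x - (t * t - s) • 1 := by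
      rw [two_smul, sub_smul]
      have : s • (1 : Matrix (Fin m) (Fin m) ℂ) = (t * t) • 1 - (2 * t) • x + x * x + x * x := by
        rw [← h1]; abel
      rw [this]
      abel
    have h4 : x * x = (1 / 2 : ℂ) • ((2 : ℂ) • (x * x)) := by
      rw [smul_smul]; norm_num
    rw [h4, h3, smul_sub, smul_smul, smul_smul]
    congr 2
    · ring
    · ring
  have hm2 : m ≤ 2 := by
    by_contra hlt
    push Not at hlt
    obtain ⟨t, q, -, h⟩ := hq (Matrix.diagonal fun i : Fin m => ((i : ℕ) : ℂ))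
    rw [Matrix.diagonal_mul_diagonal] at h
    have hi : ∀ i : Fin m, ((i : ℕ) : ℂ) * ((i : ℕ) : ℂ) = t * ((i : ℕ) : ℂ) - q := fun i => by
      have := congrFun (congrFun h i) i
      simpa using this
    have h0 := hi ⟨0, by omega⟩
    have h1 := hi ⟨1, by omega⟩
    have h2 := hi ⟨2, by omega⟩
    simp only [Nat.cast_zero, mul_zero, Nat.cast_one, mul_one, Nat.cast_ofNat] at h0 h1 h2
    have h5 : (2 : ℂ) = 0 := by linear_combination h2 - 2 * h1 + h0
    norm_num at h5
  have h12 : m = 1 ∨ m = 2 := by omega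
  rcases h12 with rfl | rfl
  · left
    refine ⟨rfl, fun x => ?_⟩
    have hx : x = x 0 0 • (1 : Matrix (Fin 1) (Fin 1) ℂ) := by
      ext i j
      fin_cases i; fin_cases j
      simp
    rw [hx, map_smul, f_one]
  · right
    refine ⟨AlgEquiv.refl, fun x => ?_⟩
    change f x = x.adjugate
    obtain ⟨t, q, h1, h2⟩ := hq x
    have hxx : x.adjugate = x.trace • 1 - x := by
      rw [Matrix.adjugate_fin_two]
      ext i j
      fin_cases i <;> fin_cases j <;> simp [Matrix.trace_fin_two]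
    by_cases htt : t = x.trace
    · rw [h1, htt, hxx]
    · have hch : x * x = x.trace • x - x.det • 1 := by
        ext i j
        fin_cases i <;> fin_cases j <;>
          simp [Matrix.mul_apply, Fin.sum_univ_two, Matrix.trace_fin_two, Matrix.det_fin_two] <;> ring
      have h3 : (t - x.trace) • x = (q - x.det) • (1 : Matrix (Fin 2) (Fin 2) ℂ) := by
        rw [sub_smul, sub_smul]
        rw [h2] at hch
        have : t • x = x.trace • x - x.det • (1 : Matrix (Fin 2) (Fin 2) ℂ) + q • 1 := by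
          rw [← hch]; abel
        rw [this]; abel
      have hne : t - x.trace ≠ 0 := sub_ne_zero.2 htt
      have h4 : ∃ c : ℂ, x = c • (1 : Matrix (Fin 2) (Fin 2) ℂ) := by
        refine ⟨(t - x.trace)⁻¹ * (q - x.det), ?_⟩
        rw [← smul_smul, ← h3, smul_smul, inv_mul_cancel₀ hne, one_smul]
      obtain ⟨c, hc⟩ := h4
      rw [hxx, hc, map_smul, f_one, ← sub_smul]
      congr 1
      simp only [Matrix.trace_smul, Matrix.trace_one, Fintype.card_fin, smul_eq_mul]
      push_cast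
      ring

/-- a commutative block -/
theorem block_comm {m : ℕ} (hm : m ≠ 0) (h : ∀ x y : Matrix (Fin m) (Fin m) ℂ, x * y = y * x) :
    Nonempty (Matrix (Fin m) (Fin m) ℂ ≃ₐ[ℂ] ℂ) := by
  let F : ℂ →ₐ[ℂ] Matrix (Fin m) (Fin m) ℂ := Algebra.ofId ℂ _
  have hF : ∀ c : ℂ, F c = c • 1 := fun c => Algebra.algebraMap_eq_smul_one c
  refine ⟨(AlgEquiv.ofBijective F ⟨?_, ?_⟩).symm⟩
  · intro a b hab
    rw [hF, hF] at hab
    have := congrFun (congrFun hab ⟨0, Nat.pos_of_ne_zero hm⟩) ⟨0, Nat.pos_of_ne_zero hm⟩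
    simpa using this
  · intro x
    obtain ⟨c, hc⟩ := scalar_of_central x (h x)
    exact ⟨c, by rw [hF, hc]⟩

/-- The structure theorem for a product of matrix algebras. -/
theorem pi_case {n : ℕ} (m : Fin n → ℕ) (hm : ∀ i, m i ≠ 0)
    (D : (Π i, Matrix (Fin (m i)) (Fin (m i)) ℂ) →ₗ[ℂ] (Π i, Matrix (Fin (m i)) (Fin (m i)) ℂ))
    (D_D : ∀ x, D (D x) = x) (D_mul : ∀ x y, D (x * y) = D y * D x)
    (D_cen : ∀ x y, (x + D x) * y = y * (x + D x))
    (J : Π i, Matrix (Fin (m i)) (Fin (m i)) ℂ) (hJ : D J = -J) (hJJ : J * J = -1) :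
    ∃ (κ σ : Type) (_ : Fintype κ) (_ : Fintype σ) (_ : DecidableEq κ) (_ : DecidableEq σ)
      (τ : σ → σ) (Φ : (Π i, Matrix (Fin (m i)) (Fin (m i)) ℂ) ≃ₐ[ℂ]
        ((κ → Matrix (Fin 2) (Fin 2) ℂ) × (σ → ℂ))),
      (∀ s, τ s ≠ s) ∧ (∀ s, τ (τ s) = s) ∧
      ∀ x, Φ (D x) = (fun k => ((Φ x).1 k).adjugate, fun s => (Φ x).2 (τ s)) := by
  classical
  set E : Fin n → (Π i, Matrix (Fin (m i)) (Fin (m i)) ℂ) := fun i => Pi.single i 1 with hE
  have D_one : D 1 = 1 := by
    have h : D (1 * D 1) = D (D 1) * D 1 := D_mul 1 (D 1)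
    rw [one_mul, D_D, one_mul] at h
    exact h.symm
  have E_mul : ∀ i (x : Π i, Matrix (Fin (m i)) (Fin (m i)) ℂ), E i * x = Pi.single i (x i) := by
    intro i x
    funext j
    by_cases h : j = i
    · subst h
      simp [hE]
    · simp [hE, Pi.single_eq_of_ne h]
  have mul_E : ∀ i (x : Π i, Matrix (Fin (m i)) (Fin (m i)) ℂ), x * E i = Pi.single i (x i) := by
    intro i x
    funext j
    by_cases h : j = i
    · subst h
      simp [hE]
    · simp [hE, Pi.single_eq_of_ne h]
  have one_ne : ∀ i, (1 : Matrix (Fin (m i)) (Fin (m i)) ℂ) ≠ 0 := by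
    intro i
    have : NeZero (m i) := ⟨hm i⟩
    exact one_ne_zero
  have E_ne : ∀ i, E i ≠ 0 := by
    intro i h
    have := congrFun h i
    simp only [hE, Pi.single_eq_same, Pi.zero_apply] at this
    exact one_ne i this
  have E_E : ∀ i, E i * E i = E i := fun i => by rw [E_mul]; simp [hE]
  -- images of central elements are central
  have cen_D : ∀ z, (∀ y, z * y = y * z) → ∀ y, D z * y = y * D z := by
    intro z hz y
    have h1 : D (D y * z) = D z * y := by rw [D_mul, D_D]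
    have h2 : D (z * D y) = y * D z := by rw [D_mul, D_D]
    rw [← h1, ← h2, hz]
  have cen_E : ∀ i y, E i * y = y * E i := fun i y => by rw [E_mul, mul_E]
  -- the `E i` are minimal
  have E_min : ∀ f, (∀ y, f * y = y * f) → f * f = f → ∀ i, E i * f = 0 ∨ E i * f = E i := by
    intro f hf hff i
    obtain ⟨c, hc⟩ := scalar_of_central (f i) (fun y => by
      have := congrFun (hf (Pi.single i y)) i
      simpa using this)
    have h1 : f i * f i = f i := congrFun hff i
    rw [hc, smul_mul_smul_comm, one_mul] at h1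
    have h2 : c * c = c := by
      have h3 : (c * c - c) • (1 : Matrix (Fin (m i)) (Fin (m i)) ℂ) = 0 := by
        rw [sub_smul, h1, sub_self]
      rcases smul_eq_zero.1 h3 with h4 | h4
      · exact sub_eq_zero.1 h4
      · exact absurd h4 (one_ne i)
    rw [E_mul, hc]
    rcases mul_eq_zero.1 (show c * (c - 1) = 0 by rw [mul_sub, h2, mul_one, sub_self]) with h3 | h3
    · left; rw [h3, zero_smul, Pi.single_zero]
    · right; rw [sub_eq_zero.1 h3, one_smul]
  have DE_min : ∀ f, (∀ y, f * y = y * f) → f * f = f → ∀ i, D (E i) * f = 0 ∨ D (E i) * f = D (E i) := by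
    intro f hf hff i
    have h1 : D (D (E i) * f) = E i * D f := by rw [D_mul, D_D, ← cen_E]
    have h2 : D (E i) * f = D (E i * D f) := by rw [← h1, D_D]
    rcases E_min (D f) (cen_D f hf) (by rw [← D_mul, hff]) i with h | h
    · left; rw [h2, h, map_zero]
    · right; rw [h2, h]
  have DE_ne : ∀ i, D (E i) ≠ 0 := fun i h => E_ne i (by rw [← D_D (E i), h, map_zero])
  have hperm : ∀ i, ∃ j, D (E i) = E j := by
    intro i
    have h1 : ∃ j, D (E i) * E j ≠ 0 := by
      by_contra h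
      push Not at h
      refine DE_ne i ?_
      funext j
      have := congrFun (h j) j
      rw [mul_E] at this
      simpa using this
    obtain ⟨j, hj⟩ := h1
    refine ⟨j, ?_⟩
    have h2 := (DE_min (E j) (cen_E j) (E_E j) i).resolve_left hj
    have h3 := (E_min (D (E i)) (cen_D _ (cen_E i)) (by rw [← D_mul, E_E]) j)
    rw [cen_E j (D (E i))] at h3
    have h4 := h3.resolve_left hj
    rw [← h2, h4]
  choose τ hτ using hperm
  have E_inj : ∀ i j, E i = E j → i = j := by
    intro i j h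
    by_contra hij
    have := congrFun h i
    simp only [hE, Pi.single_eq_same, Pi.single_eq_of_ne hij] at this
    exact one_ne i this
  have ττ : ∀ i, τ (τ i) = i := fun i => E_inj _ _ (by rw [← hτ, ← hτ, D_D])
  -- `D` of a block
  have D_single : ∀ (x : Π i, Matrix (Fin (m i)) (Fin (m i)) ℂ) i,
      (D x) i = (D (Pi.single (τ i) (x (τ i)))) i := by
    intro x i
    rw [← mul_E, D_mul, hτ, ττ, E_mul, Pi.single_eq_same]
  -- blocks moved by `τ`
  have hmoved : ∀ i, τ i ≠ i → ∀ x y : Matrix (Fin (m i)) (Fin (m i)) ℂ, x * y = y * x := by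
    intro i hi x y
    have h1 := congrFun (D_cen (Pi.single i x) (Pi.single i y)) i
    have h2 : (D (Pi.single i x)) i = 0 := by
      rw [D_single, Pi.single_eq_of_ne hi, Pi.single_zero, map_zero]
      rfl
    simp only [Pi.mul_apply, Pi.add_apply, Pi.single_eq_same, h2, add_zero] at h1
    exact h1
  have hmoved' : ∀ i, τ i ≠ i → Nonempty (Matrix (Fin (m i)) (Fin (m i)) ℂ ≃ₐ[ℂ] ℂ) :=
    fun i hi => block_comm (hm i) (hmoved i hi)
  -- blocks fixed by `τ`
  have hfixed : ∀ i, τ i = i → ∃ e : Matrix (Fin (m i)) (Fin (m i)) ℂ ≃ₐ[ℂ] Matrix (Fin 2) (Fin 2) ℂ,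
        ∀ x, e ((D (Pi.single i x)) i) = (e x).adjugate := by
    intro i hi
    let f : Matrix (Fin (m i)) (Fin (m i)) ℂ →ₗ[ℂ] Matrix (Fin (m i)) (Fin (m i)) ℂ :=
      (LinearMap.proj i).comp (D.comp (LinearMap.single ℂ (fun i => Matrix (Fin (m i)) (Fin (m i)) ℂ) i))
    have hf : ∀ x, f x = (D (Pi.single i x)) i := fun x => rfl
    have hfx : ∀ x : Π i, Matrix (Fin (m i)) (Fin (m i)) ℂ, f (x i) = (D x) i := fun x => by
      rw [hf, D_single x i, hi]
    have f_one : f 1 = 1 := by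
      rw [hf]
      change (D (E i)) i = 1
      rw [hτ, hi]
      simp [hE]
    have f_mul : ∀ x y, f (x * y) = f y * f x := by
      intro x y
      have h1 : Pi.single i (x * y) = (Pi.single i x * Pi.single i y :
          Π i, Matrix (Fin (m i)) (Fin (m i)) ℂ) := by
        funext j
        by_cases h : j = i
        · subst h
          simp
        · simp [Pi.single_eq_of_ne h]
      rw [hf, hf, hf, h1, D_mul]
      rfl
    have f_cen : ∀ x y, (x + f x) * y = y * (x + f x) := by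
      intro x y
      have h1 := congrFun (D_cen (Pi.single i x) (Pi.single i y)) i
      simp only [Pi.mul_apply, Pi.add_apply, Pi.single_eq_same] at h1
      exact h1
    rcases block_fixed (hm i) f f_one f_mul f_cen with ⟨h1, h2⟩ | h
    · exfalso
      have h3 : f (J i) = - (J i) := by rw [hfx, hJ]; rfl
      rw [h2] at h3
      have h4 : J i = 0 := by
        have h5 : (2 : ℂ) • J i = 0 := by
          rw [two_smul]
          nth_rewrite 1 [h3]
          exact neg_add_cancel _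
        exact (smul_eq_zero.1 h5).resolve_left two_ne_zero
      have h6 := congrFun hJJ i
      rw [Pi.mul_apply, h4, zero_mul] at h6
      exact one_ne i (neg_eq_zero.1 h6.symm)
    · exact h
  choose e he using hfixed
  have e' : ∀ i, τ i ≠ i → (Matrix (Fin (m i)) (Fin (m i)) ℂ ≃ₐ[ℂ] ℂ) := fun i hi => (hmoved' i hi).some
  have τσ : ∀ s : {i // τ i ≠ i}, τ (τ s.1) ≠ τ s.1 := fun s h => by
    rw [ττ] at h
    exact s.2 h.symm
  let Φ : (Π i, Matrix (Fin (m i)) (Fin (m i)) ℂ) →ₐ[ℂ]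
      (({i // τ i = i} → Matrix (Fin 2) (Fin 2) ℂ) × ({i // τ i ≠ i} → ℂ)) :=
    AlgHom.prod (AlgHom.pi fun k => (e k.1 k.2).toAlgHom.comp (Pi.evalAlgHom ℂ _ k.1))
      (AlgHom.pi fun s => (e' s.1 s.2).toAlgHom.comp (Pi.evalAlgHom ℂ _ s.1))
  have hΦ1 : ∀ x k, (Φ x).1 k = e k.1 k.2 (x k.1) := fun x k => rfl
  have hΦ2 : ∀ x s, (Φ x).2 s = e' s.1 s.2 (x s.1) := fun x s => rfl
  have hinj : Function.Injective Φ := by
    intro x y hxy
    funext i
    by_cases h : τ i = i
    · have h1 := congrFun (congrArg Prod.fst hxy) ⟨i, h⟩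
      rw [hΦ1, hΦ1] at h1
      exact (e i h).injective h1
    · have h1 := congrFun (congrArg Prod.snd hxy) ⟨i, h⟩
      rw [hΦ2, hΦ2] at h1
      exact (e' i h).injective h1
  have hsurj : Function.Surjective Φ := by
    rintro ⟨u, v⟩
    refine ⟨fun i => if h : τ i = i then (e i h).symm (u ⟨i, h⟩) else (e' i h).symm (v ⟨i, h⟩), ?_⟩
    refine Prod.ext (funext fun k => ?_) (funext fun s => ?_)
    · rw [hΦ1, dif_pos k.2]
      simp
    · rw [hΦ2, dif_neg s.2]
      simp
  refine ⟨{i // τ i = i}, {i // τ i ≠ i}, inferInstance, inferInstance, inferInstance, inferInstance,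
    fun s => ⟨τ s.1, τσ s⟩, AlgEquiv.ofBijective Φ ⟨hinj, hsurj⟩, ?_, ?_, ?_⟩
  · intro s h
    exact s.2 (congrArg Subtype.val h)
  · intro s
    exact Subtype.ext (ττ s.1)
  · intro x
    change Φ (D x) = (fun k => ((Φ x).1 k).adjugate, fun s => (Φ x).2 ⟨τ s.1, τσ s⟩)
    refine Prod.ext (funext fun k => ?_) (funext fun s => ?_)
    · change (Φ (D x)).1 k = ((Φ x).1 k).adjugate
      rw [hΦ1, hΦ1, D_single, ← he]
      congr 2
      rw [k.2]
    · change (Φ (D x)).2 s = (Φ x).2 ⟨τ s.1, τσ s⟩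
      rw [hΦ2, hΦ2]
      change e' s.1 s.2 (D x s.1) = e' (τ s.1) (τσ s) (x (τ s.1))
      obtain ⟨c, hc⟩ := scalar_of_central (x (τ s.1)) (hmoved _ (τσ s) _)
      rw [D_single, hc]
      have h1 : (Pi.single (τ s.1) (c • (1 : Matrix (Fin (m (τ s.1))) (Fin (m (τ s.1))) ℂ)) :
          Π i, Matrix (Fin (m i)) (Fin (m i)) ℂ) = c • E (τ s.1) := by
        rw [hE]
        exact Pi.single_smul _ _ _
      rw [h1, map_smul, hτ, ττ, Pi.smul_apply]
      simp only [hE, Pi.single_eq_same, map_smul, map_one]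

end WedM

theorem specWED : SpecWED := by
  intro R _ _ _ _ d d_d d_mul d_cen hJ
  obtain ⟨J, hJ1, hJ2⟩ := hJ
  obtain ⟨n, m, hm, ⟨e⟩⟩ := IsSemisimpleRing.exists_algEquiv_pi_matrix_of_isAlgClosed (F := ℂ) (R := R)
  let D : (Π i, Matrix (Fin (m i)) (Fin (m i)) ℂ) →ₗ[ℂ] (Π i, Matrix (Fin (m i)) (Fin (m i)) ℂ) :=
    e.toLinearMap.comp (d.comp e.symm.toLinearMap)
  have hD : ∀ x, D x = e (d (e.symm x)) := fun x => rfl
  obtain ⟨κ, σ, i1, i2, i3, i4, τ, Φ, h1, h2, h3⟩ := WedM.pi_case m (fun i => (hm i).out) D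
    (fun x => by rw [hD, hD, AlgEquiv.symm_apply_apply, d_d, AlgEquiv.apply_symm_apply])
    (fun x y => by rw [hD, hD, hD, map_mul, d_mul, map_mul])
    (fun x y => by
      have h := congrArg e (d_cen (e.symm x) (e.symm y))
      rw [map_mul, map_mul, map_add, AlgEquiv.apply_symm_apply, AlgEquiv.apply_symm_apply] at h
      rw [hD]
      exact h)
    (e J) (by rw [hD, AlgEquiv.symm_apply_apply, hJ1, map_neg])
    (by rw [← map_mul, hJ2, map_neg, map_one])
  refine ⟨κ, σ, i1, i2, i3, i4, τ, (e.trans Φ).symm, h1, h2, fun x y => ?_⟩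
  apply (e.trans Φ).injective
  rw [AlgEquiv.apply_symm_apply]
  have h4 := h3 (Φ.symm (x, y))
  rw [AlgEquiv.apply_symm_apply] at h4
  rw [← h4, hD]
  rfl

end Pool.Agent.Lib.MPf11a48.U
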