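import Pool.Agent.Lib.MP_f11a48_ag.U.Lin

/-!
# MP_f11a48_ag, project U, module ALG

If `x = ∑ x_s e_s` is in the Lie algebra and `y_s` satisfies all the integral linear relations of
`x_s`, then `y = ∑ y_s e_s` is in the Lie algebra: on a tensor space `dact y = p (dact x)` for an
interpolation polynomial `p`.
-/

set_option autoImplicit false
set_option linter.unusedSectionVars false

open Matrix MvPolynomial Pool.Agent.Lib.MPf11a48.CM Pool.Agent.Lib.MPf11a48.GL2T

namespace Pool.Agent.Lib.MPf11a48.U

namespace AlgM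

open SlotM

section Poly

variable {V W : Type} [AddCommGroup V] [Module ℂ V] [AddCommGroup W] [Module ℂ W]

theorem aeval_eig (f : Module.End ℂ V) {u : V} {μ : ℂ} (h : f u = μ • u) (p : Polynomial ℂ) :
    Polynomial.aeval f p u = p.eval μ • u := by
  induction p using Polynomial.induction_on' with
  | add p q hp hq => rw [map_add, LinearMap.add_apply, hp, hq, Polynomial.eval_add, add_smul]
  | monomial n a =>
    have hn : ∀ n : ℕ, (f ^ n) u = μ ^ n • u := by
      intro n
      induction n with
      | zero => simp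
      | succ n ih => rw [pow_succ, Module.End.mul_apply, h, map_smul, ih, smul_smul, pow_succ,
          mul_comm]
    rw [Polynomial.aeval_monomial, Module.End.mul_apply, Polynomial.eval_monomial, hn,
      Module.algebraMap_end_apply, smul_smul]

theorem aeval_stable (f : Module.End ℂ V) (N : Submodule ℂ V) (h : ∀ w ∈ N, f w ∈ N)
    (p : Polynomial ℂ) : ∀ w ∈ N, Polynomial.aeval f p w ∈ N := by
  intro w hw
  induction p using Polynomial.induction_on' with
  | add p q hp hq => rw [map_add, LinearMap.add_apply]; exact N.add_mem hp hq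
  | monomial n a =>
    have hn : ∀ n : ℕ, (f ^ n) w ∈ N := by
      intro n
      induction n with
      | zero => simpa using hw
      | succ n ih => rw [pow_succ', Module.End.mul_apply]; exact h _ ih
    rw [Polynomial.aeval_monomial, Module.End.mul_apply, Module.algebraMap_end_apply]
    exact N.smul_mem _ (hn n)

theorem aeval_comm (f : Module.End ℂ V) (f' : Module.End ℂ W) (g : V →ₗ[ℂ] W)
    (h : ∀ v, g (f v) = f' (g v)) (p : Polynomial ℂ) (v : V) :
    g (Polynomial.aeval f p v) = Polynomial.aeval f' p (g v) := by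
  induction p using Polynomial.induction_on' with
  | add p q hp hq =>
    rw [map_add, LinearMap.add_apply, map_add, hp, hq, map_add, LinearMap.add_apply]
  | monomial n a =>
    have hn : ∀ n : ℕ, g ((f ^ n) v) = (f' ^ n) (g v) := by
      intro n
      induction n with
      | zero => simp
      | succ n ih => rw [pow_succ', Module.End.mul_apply, h, ih, pow_succ', Module.End.mul_apply]
    rw [Polynomial.aeval_monomial, Module.End.mul_apply, Polynomial.aeval_monomial,
      Module.End.mul_apply, Module.algebraMap_end_apply, Module.algebraMap_end_apply, map_smul, hn]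

end Poly

variable {ι : Type} [Fintype ι] [DecidableEq ι] {σ : Type} [Fintype σ] [DecidableEq σ]
  {n m : ℕ} {e : σ → Matrix ι ι ℂ}

/-- the element with eigenvalues `z_s` -/
def dg (e : σ → Matrix ι ι ℂ) (z : σ → ℂ) : Matrix ι ι ℂ := ∑ s, z s • e s

/-- a joint eigenvector for the slots in `F` -/
def Eig (e : σ → Matrix ι ι ℂ) (F : Finset (Fin n ⊕ Fin m)) (u : TIdx ι n m → ℂ) : Prop :=
  ∀ l ∈ F, ∃ s, ∀ z : σ → ℂ, op l (dg e z) u = z s • u

theorem dg_mul (he : ∀ s, e s * e s = e s) (ho : ∀ s t, s ≠ t → e s * e t = 0) (z : σ → ℂ)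
    (s : σ) : dg e z * e s = z s • e s := by
  rw [dg, Finset.sum_mul, Finset.sum_eq_single s]
  · rw [smul_mul_assoc, he]
  · intro t _ ht; rw [smul_mul_assoc, ho t s ht, smul_zero]
  · intro h; exact absurd (Finset.mem_univ _) h

theorem mul_dg (he : ∀ s, e s * e s = e s) (ho : ∀ s t, s ≠ t → e s * e t = 0) (z : σ → ℂ)
    (s : σ) : e s * dg e z = z s • e s := by
  rw [dg, Finset.mul_sum, Finset.sum_eq_single s]
  · rw [mul_smul_comm, he]
  · intro t _ ht; rw [mul_smul_comm, ho s t ht.symm, smul_zero]
  · intro h; exact absurd (Finset.mem_univ _) h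

theorem op_dg (he : ∀ s, e s * e s = e s) (ho : ∀ s t, s ≠ t → e s * e t = 0) (z : σ → ℂ)
    (s : σ) (l : Fin n ⊕ Fin m) : op l (dg e z) * op l (e s) = z s • op l (e s) := by
  cases l with
  | inl a =>
    have := op_smul (m := m) (Sum.inl a) (z s) (e s)
    simp only [op, Sum.elim_inl] at this ⊢
    rw [opL_mul, dg_mul he ho, this]
  | inr b =>
    have := op_smul (n := n) (Sum.inr b) (z s) (e s)
    simp only [op, Sum.elim_inr] at this ⊢
    rw [opR_mul, mul_dg he ho, this]

theorem span_eig (he : ∀ s, e s * e s = e s) (ho : ∀ s t, s ≠ t → e s * e t = 0)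
    (h1 : ∑ s, e s = 1) (F : Finset (Fin n ⊕ Fin m)) :
    ∀ v : TIdx ι n m → ℂ, v ∈ Submodule.span ℂ {u | Eig e F u} := by
  induction F using Finset.induction_on with
  | empty =>
    intro v
    exact Submodule.subset_span fun l hl => absurd hl (Finset.notMem_empty l)
  | insert l F hl ih =>
    intro v
    have hle : Submodule.span ℂ {u : TIdx ι n m → ℂ | Eig e F u} ≤
        Submodule.span ℂ {u | Eig e (insert l F) u} := by
      rw [Submodule.span_le]
      intro u hu
      have hsum : u = ∑ s, op l (e s) u := by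
        have h2 : (∑ s, op l (e s) : Module.End ℂ (TIdx ι n m → ℂ)) = 1 := by
          rw [← op_sum, h1, op_one]
        calc u = (∑ s, op l (e s) : Module.End ℂ (TIdx ι n m → ℂ)) u := by rw [h2]; rfl
          _ = ∑ s, op l (e s) u := by rw [LinearMap.sum_apply]
      rw [hsum]
      refine Submodule.sum_mem _ fun s _ => Submodule.subset_span ?_
      intro l' hl'
      by_cases hll : l' = l
      · subst hll
        refine ⟨s, fun z => ?_⟩
        have := congrArg (fun f : Module.End ℂ (TIdx ι n m → ℂ) => f u) (op_dg he ho z s l')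
        simpa [Module.End.mul_apply] using this
      · have hF : l' ∈ F := (Finset.mem_insert.mp hl').resolve_left hll
        obtain ⟨s', hs'⟩ := hu l' hF
        refine ⟨s', fun z => ?_⟩
        have := congrArg (fun f : Module.End ℂ (TIdx ι n m → ℂ) => f u)
          (op_comm hll (dg e z) (e s))
        simp only [Module.End.mul_apply] at this
        rw [this, hs', map_smul]
    exact hle (ih v)

/-- pairing of a character with a vector of eigenvalues -/
def pr (χ : σ → ℤ) (z : σ → ℂ) : ℂ := ∑ s, (χ s : ℂ) * z s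

theorem dten_eig {u : TIdx ι n m → ℂ} (hu : Eig e Finset.univ u) :
    ∃ χ : σ → ℤ, ∀ z, dten (dg e z) u = pr χ z • u := by
  choose S hS using fun l => hu l (Finset.mem_univ l)
  refine ⟨fun t => ∑ l, if S l = t then sg l else 0, fun z => ?_⟩
  rw [dten_eq, LinearMap.sum_apply]
  have h2 : pr (fun t => ∑ l, if S l = t then sg l else 0) z = ∑ l, (sg l : ℂ) * z (S l) := by
    simp only [pr, Int.cast_sum, Finset.sum_mul]
    rw [Finset.sum_comm]
    refine Finset.sum_congr rfl fun l _ => ?_
    rw [Finset.sum_eq_single (S l)]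
    · simp
    · intro t _ ht; rw [if_neg (Ne.symm ht)]; simp
    · intro h; exact absurd (Finset.mem_univ _) h
  rw [h2, Finset.sum_smul]
  refine Finset.sum_congr rfl fun l _ => ?_
  rw [LinearMap.smul_apply, hS, mul_smul]
  norm_cast

/-- every vector is handled by an interpolation polynomial -/
theorem exists_chars (he : ∀ s, e s * e s = e s) (ho : ∀ s t, s ≠ t → e s * e t = 0)
    (h1 : ∑ s, e s = 1) (x y : σ → ℂ) (v : TIdx ι n m → ℂ) :
    ∃ F : Finset (σ → ℤ), ∀ p : Polynomial ℂ, (∀ χ ∈ F, p.eval (pr χ x) = pr χ y) →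
      Polynomial.aeval (dten (dg e x)) p v = dten (dg e y) v := by
  classical
  refine Submodule.span_induction (p := fun v _ => ∃ F : Finset (σ → ℤ), ∀ p : Polynomial ℂ,
    (∀ χ ∈ F, p.eval (pr χ x) = pr χ y) →
      Polynomial.aeval (dten (dg e x)) p v = dten (dg e y) v) ?_ ?_ ?_ ?_
      (span_eig he ho h1 Finset.univ v)
  · intro u hu
    obtain ⟨χ, hχ⟩ := dten_eig hu
    refine ⟨{χ}, fun p hp => ?_⟩
    rw [aeval_eig _ (hχ x), hp χ (Finset.mem_singleton_self _), hχ y]
  · exact ⟨∅, fun p _ => by rw [map_zero, map_zero]⟩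
  · rintro a b _ _ ⟨F, hF⟩ ⟨G, hG⟩
    refine ⟨F ∪ G, fun p hp => ?_⟩
    rw [map_add, map_add, hF p fun χ h => hp χ (Finset.mem_union_left _ h),
      hG p fun χ h => hp χ (Finset.mem_union_right _ h)]
  · rintro t a _ ⟨F, hF⟩
    exact ⟨F, fun p hp => by rw [map_smul, map_smul, hF p hp]⟩

theorem exists_poly (x y : σ → ℂ) (h : ∀ χ : σ → ℤ, pr χ x = 0 → pr χ y = 0)
    (F : Finset (σ → ℤ)) : ∃ p : Polynomial ℂ, ∀ χ ∈ F, p.eval (pr χ x) = pr χ y := by
  classical
  have hsub : ∀ χ χ' : σ → ℤ, ∀ z, pr (χ - χ') z = pr χ z - pr χ' z := by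
    intro χ χ' z
    simp only [pr, Pi.sub_apply, Int.cast_sub, sub_mul, Finset.sum_sub_distrib]
  let val : ℂ → ℂ := fun a => if h : ∃ χ ∈ F, pr χ x = a then pr h.choose y else 0
  refine ⟨Lagrange.interpolate (F.image fun χ => pr χ x) id val, fun χ hχ => ?_⟩
  have hm : pr χ x ∈ F.image fun χ => pr χ x := Finset.mem_image_of_mem _ hχ
  have h1 := Lagrange.eval_interpolate_at_node (s := F.image fun χ => pr χ x) (v := id) val
    (Set.injOn_id _) hm
  rw [id] at h1
  rw [h1]
  have hex : ∃ χ' ∈ F, pr χ' x = pr χ x := ⟨χ, hχ, rfl⟩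
  have h2 : val (pr χ x) = pr hex.choose y := dif_pos hex
  rw [h2]
  have h3 := hex.choose_spec.2
  have h4 := h (hex.choose - χ) (by rw [hsub, h3, sub_self])
  rw [hsub] at h4
  exact sub_eq_zero.mp h4

end AlgM

open SlotM AlgM in
theorem specALG : SpecALG := by
  intro ι _ _ c σ _ _ e he ho h1 x y hx hxy
  classical
  intro r s WdR WB h w hw
  have hstab : ∀ v ∈ spanC WB, dact s (dg e x) v ∈ spanC WB := hx r s WdR WB h
  choose F hF using fun k => exists_chars he ho h1 x y (res s k w)
  obtain ⟨p, hp⟩ := exists_poly x y hxy (Finset.univ.biUnion F)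
  have key : dact s (dg e y) w = Polynomial.aeval (dact s (dg e x)) p w := by
    refine ext_res fun k => ?_
    rw [res_dact, aeval_comm (dact s (dg e x)) (dten (dg e x)) (res s k)
      (fun v => res_dact s k _ v) p w]
    refine (hF k p fun χ hχ => hp χ ?_).symm
    exact Finset.mem_biUnion.mpr ⟨k, Finset.mem_univ _, hχ⟩
  have : dact s (∑ i, y i • e i) w = dact s (dg e y) w := rfl
  rw [this, key]
  exact aeval_stable _ _ hstab p w hw

end Pool.Agent.Lib.MPf11a48.U
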