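import Pool.Agent.Lib.MP_f11a48_ag.U.SpecR
import Pool.Agent.Lib.MP_f11a48_ag.U.Osgood

/-! # Module LEG: the Legendre relation -/

set_option autoImplicit false

open Matrix MvPolynomial Pool.Agent.Lib.MPf11a48.CM Pool.Agent.Lib.MPf11a48.GL2T

namespace Pool.Agent.Lib.MPf11a48.U

namespace LegM

variable {g N : ℕ} {K : IntermediateField ℚ ℂ}

theorem lat_span (A : AbData g N) (hA : A.IsAbVar K) (v : Fin g → ℂ) :
    ∃ y : Ix g → ℝ, ∑ l, (y l : ℂ) • A.lat l = v := by
  have hfr : Module.finrank ℝ (Fin g → ℂ) = g + g := by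
    rw [Module.finrank_pi_fintype]
    simp [Complex.finrank_real_complex]
    ring
  have hsp : Submodule.span ℝ (Set.range A.lat) = ⊤ :=
    hA.lat_indep.span_eq_top_of_card_eq_finrank' (by rw [hfr]; simp)
  have hv : v ∈ Submodule.span ℝ (Set.range A.lat) := hsp ▸ Submodule.mem_top
  obtain ⟨y, hy⟩ := (Submodule.mem_span_range_iff_exists_fun ℝ).1 hv
  refine ⟨y, ?_⟩
  rw [← hy]
  refine Finset.sum_congr rfl fun l _ => ?_
  ext j
  simp

/-- The Riemann form is non-degenerate. -/
theorem det_ne (A : AbData g N) (hA : A.IsAbVar K) : (A.E.map fun x => (x : ℝ)).det ≠ 0 := by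
  intro h
  obtain ⟨x, hx0, hx⟩ := Matrix.exists_vecMul_eq_zero_iff.2 h
  obtain ⟨y, hy⟩ := lat_span A hA (Complex.I • ∑ l, (x l : ℂ) • A.lat l)
  have hpos := hA.pos x y hx0 hy
  have hz : ∑ l, ∑ l', x l * (A.E l l' : ℝ) * y l' = 0 := by
    rw [Finset.sum_comm]
    refine Finset.sum_eq_zero fun l' _ => ?_
    rw [← Finset.sum_mul]
    have := congrFun hx l'
    simp only [Matrix.vecMul, dotProduct, Matrix.map_apply, Pi.zero_apply] at this
    rw [this, zero_mul]
  rw [hz] at hpos
  exact lt_irrefl _ hpos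

theorem det_cast (A : AbData g N) (hA : A.IsAbVar K) : A.E.det ≠ 0 := by
  intro h
  apply det_ne A hA
  have : (A.E.map fun x => (x : ℝ)) = (Int.castRingHom ℝ).mapMatrix A.E := rfl
  rw [this, ← RingHom.map_det, h, map_zero]

theorem det_rat (A : AbData g N) (hA : A.IsAbVar K) : (A.E.map fun x => (x : ℚ)).det ≠ 0 := by
  have : (A.E.map fun x => (x : ℚ)) = (Int.castRingHom ℚ).mapMatrix A.E := rfl
  rw [this, ← RingHom.map_det]
  simpa using det_cast A hA

/-- `f_i` is periodic. -/
theorem f_period (A : AbData g N) (hA : A.IsAbVar K) (l : Ix g) (i : Fin (N + 1)) (z : Fin g → ℂ) :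
    A.f i (z + A.lat l) = A.f i z := by
  unfold AbData.f
  rw [hA.th_aut, hA.th_aut, mul_div_mul_left _ _ (Complex.exp_ne_zero _)]

theorem th_ne (A : AbData g N) (hA : A.IsAbVar K) (l : Ix g) (z : Fin g → ℂ)
    (hz : A.th 0 z ≠ 0) : A.th 0 (z + A.lat l) ≠ 0 := by
  rw [hA.th_aut]
  exact mul_ne_zero (Complex.exp_ne_zero _) hz

/-- Quasi-periods of the logarithmic derivative. -/
theorem logderiv_period (A : AbData g N) (hA : A.IsAbVar K) (l : Ix g) (j : Fin g)
    (z : Fin g → ℂ) (hz : A.th 0 z ≠ 0) :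
    AbData.pd j (A.th 0) (z + A.lat l) / A.th 0 (z + A.lat l) =
      A.a l (Pi.single j 1) + AbData.pd j (A.th 0) z / A.th 0 z := by
  set aL : (Fin g → ℂ) →L[ℂ] ℂ := LinearMap.toContinuousLinearMap (A.a l) with haL
  have h1 : HasFDerivAt (fun w => Complex.exp (A.a l w + A.b l))
      (Complex.exp (A.a l z + A.b l) • aL) z := by
    have h2 : HasFDerivAt (fun w => A.a l w + A.b l) aL z := (aL.hasFDerivAt (x := z)).add_const _
    exact h2.cexp
  have h3 := h1.mul (hA.th_diff 0 z).hasFDerivAt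
  have h4 : (fun w => A.th 0 (w + A.lat l)) =
      (fun w => Complex.exp (A.a l w + A.b l)) * A.th 0 := by
    funext w
    rw [hA.th_aut]
    rfl
  have h5 : fderiv ℂ (A.th 0) (z + A.lat l) = fderiv ℂ (fun w => A.th 0 (w + A.lat l)) z := by
    rw [fderiv_comp_add_right]
  unfold AbData.pd
  rw [h5, h4, h3.fderiv, hA.th_aut]
  have he : Complex.exp (A.a l z + A.b l) ≠ 0 := Complex.exp_ne_zero _
  simp only [_root_.add_apply, _root_.smul_apply, smul_eq_mul]
  have ha : aL (Pi.single j 1) = A.a l (Pi.single j 1) := rfl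
  rw [ha]
  field_simp
  ring

theorem pd_diff (A : AbData g N) (hA : A.IsAbVar K) (j : Fin g) :
    Differentiable ℂ (AbData.pd j (A.th 0)) := by
  intro z
  have h := (Osgood.analyticAt_of_differentiable (hA.th_diff 0) z).fderiv.differentiableAt
  exact h.clm_apply (differentiableAt_const _)

/-- The numbers `a_l(e_j)` are combinations over `K` of the periods. -/
theorem exists_G (A : AbData g N) (hA : A.IsAbVar K) :
    ∃ G : Matrix (Ix g) (Fin g) K, ∀ l j,
      A.a l (Pi.single j 1) = ∑ x, A.per l x * (G x j : ℂ) := by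
  have h1 : ∀ j, ∃ (α β : Fin g → K), ∀ l,
      A.a l (Pi.single j 1) = ∑ i, A.lat l i * (α i : ℂ) + ∑ t, A.eta l t * (β t : ℂ) := by
    intro j
    obtain ⟨α, β, q, e, h⟩ := hA.span (AbData.pd j (A.th 0)) 1 (pd_diff A hA j)
      (fun i => by simpa using hA.logderiv i j)
    refine ⟨α, β, fun l => ?_⟩
    have h0 := h 0 hA.zero
    have h2 := h (0 + A.lat l) (th_ne A hA l 0 hA.zero)
    rw [pow_one] at h0 h2
    rw [logderiv_period A hA l j 0 hA.zero, h0] at h2
    have h3 : (fun i => A.f i (0 + A.lat l)) = fun i => A.f i 0 := by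
      funext i
      rw [f_period A hA]
    rw [h3] at h2
    have hz : ∀ t, A.zt t (A.lat l) = A.zt t 0 + A.eta l t := by
      intro t
      have := hA.zt_period l t 0 hA.zero
      rwa [zero_add] at this
    simp only [zero_add, hz, Pi.zero_apply, mul_zero,
      Finset.sum_const_zero, mul_add, Finset.sum_add_distrib] at h2
    have h4 : A.a l (Pi.single j 1) = ∑ i, (α i : ℂ) * A.lat l i + ∑ t, (β t : ℂ) * A.eta l t := by
      linear_combination h2
    rw [h4]
    congr 1 <;> exact Finset.sum_congr rfl fun _ _ => mul_comm _ _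
  choose α β h using h1
  refine ⟨fun x j => Sum.elim (α j) (β j) x, fun l j => ?_⟩
  rw [h j l, Fintype.sum_sum_type]
  rfl

end LegM

theorem specLEG : SpecLEG := by
  intro K g N A c hK hA hc
  obtain ⟨G, hG⟩ := LegM.exists_G A hA
  have hdR := LegM.det_rat A hA
  -- the matrix over `K`
  let B : Matrix (Ix g) (Ix g) K := fun x y => Sum.elim (fun j => G x j) (fun _ => 0) y
  have hB : ∀ l l', (A.per * B.map (fun x => (x : ℂ)) * A.perᵀ) l l' = A.a l (A.lat l') := by
    intro l l'
    have h1 : A.lat l' = ∑ j, A.lat l' j • (Pi.single j (1 : ℂ) : Fin g → ℂ) := by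
      ext i
      simp [Finset.sum_apply, Pi.single_apply]
    rw [h1, map_sum, Matrix.mul_apply, Fintype.sum_sum_type]
    have h2 : ∀ t : Fin g, (A.per * B.map (fun x => (x : ℂ))) l (Sum.inr t) = 0 := by
      intro t
      rw [Matrix.mul_apply]
      refine Finset.sum_eq_zero fun x _ => ?_
      have : (B.map (fun x => (x : ℂ))) x (Sum.inr t) = 0 := by
        rw [Matrix.map_apply]
        simp [B]
      rw [this, mul_zero]
    simp only [h2, zero_mul, Finset.sum_const_zero, add_zero, map_smul, smul_eq_mul, hG]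
    refine Finset.sum_congr rfl fun j _ => ?_
    rw [Matrix.mul_apply, Matrix.transpose_apply, mul_comm]
    rfl
  let B' : Matrix (Ix g) (Ix g) K := B - Bᵀ
  set Bc : Matrix (Ix g) (Ix g) ℂ := B'.map (fun x => (x : ℂ)) with hBc
  set Ec : Matrix (Ix g) (Ix g) ℂ := A.E.map (fun x => (x : ℂ)) with hEc
  have hmain : c.1 * Bc * c.1ᵀ = (2 * Real.pi * Complex.I) • Ec := by
    have h1 : Bc = B.map (fun x => (x : ℂ)) - (B.map (fun x => (x : ℂ)))ᵀ := by
      ext x y
      simp [hBc, B']
    rw [hc, h1, Matrix.mul_sub, Matrix.sub_mul]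
    have h2 : A.per * (B.map (fun x => (x : ℂ)))ᵀ * A.perᵀ =
        (A.per * B.map (fun x => (x : ℂ)) * A.perᵀ)ᵀ := by
      rw [Matrix.transpose_mul, Matrix.transpose_mul, Matrix.transpose_transpose, Matrix.mul_assoc]
    rw [h2]
    ext l l'
    rw [Matrix.sub_apply, Matrix.transpose_apply, hB, hB, hA.riemann]
    simp [hEc]
  have hdE : Ec.det ≠ 0 := by
    have : Ec = (Int.castRingHom ℂ).mapMatrix A.E := rfl
    rw [this, ← RingHom.map_det]
    simpa using LegM.det_cast A hA
  have hdc : IsUnit c.1.det := (Matrix.isUnit_iff_isUnit_det _).1 c.isUnit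
  have h2pi : (2 * Real.pi * Complex.I : ℂ) ≠ 0 := Complex.two_pi_I_ne_zero
  have hdB : Bc.det ≠ 0 := by
    intro h
    have := congrArg Matrix.det hmain
    rw [Matrix.det_mul, Matrix.det_mul, h, mul_zero, zero_mul, Matrix.det_smul] at this
    exact (mul_ne_zero (pow_ne_zero _ h2pi) hdE) this.symm
  have hdB' : B'.det ≠ 0 := by
    intro h
    apply hdB
    have : Bc = (algebraMap K ℂ).mapMatrix B' := rfl
    rw [this, ← RingHom.map_det, h, map_zero]
  refine ⟨B'⁻¹, ?_, ?_⟩
  · intro h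
    have h1 := Matrix.nonsing_inv_mul _ ((isUnit_iff_ne_zero).2 hdR)
    have h2 := congrArg Matrix.det h1
    rw [Matrix.det_mul, h, zero_mul, Matrix.det_one] at h2
    exact zero_ne_one h2
  · unfold Mult
    -- the inverses
    have hE1 : ((A.E.map (fun x => (x : ℚ)))⁻¹).map (fun a => (a : ℂ)) = Ec⁻¹ := by
      symm
      apply Matrix.inv_eq_left_inv
      have h1 := Matrix.nonsing_inv_mul _ ((isUnit_iff_ne_zero).2 hdR)
      have h2 := congrArg (fun M : Matrix (Ix g) (Ix g) ℚ => M.map (fun a => (a : ℂ))) h1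
      have h3 : ∀ P Q : Matrix (Ix g) (Ix g) ℚ, (P * Q).map (fun a => (a : ℂ)) =
          P.map (fun a => (a : ℂ)) * Q.map (fun a => (a : ℂ)) := by
        intro P Q
        ext i j
        simp [Matrix.mul_apply]
      simp only [h3] at h2
      have h4 : (A.E.map (fun x => (x : ℚ))).map (fun a => (a : ℂ)) = Ec := by
        ext i j
        simp [hEc]
      rw [h4] at h2
      rw [h2]
      ext i j
      simp [Matrix.one_apply]
      split_ifs <;> simp
    have hB1 : (B'⁻¹).map (fun a => (a : ℂ)) = Bc⁻¹ := by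
      symm
      apply Matrix.inv_eq_left_inv
      have h1 := Matrix.nonsing_inv_mul _ ((isUnit_iff_ne_zero).2 hdB')
      have h2 := congrArg (fun M : Matrix (Ix g) (Ix g) K => M.map (fun a => (a : ℂ))) h1
      have h3 : ∀ P Q : Matrix (Ix g) (Ix g) K, (P * Q).map (fun a => (a : ℂ)) =
          P.map (fun a => (a : ℂ)) * Q.map (fun a => (a : ℂ)) := by
        intro P Q
        ext i j
        simp [Matrix.mul_apply]
      simp only [h3] at h2
      rw [h2]
      ext i j
      simp [Matrix.one_apply]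
      split_ifs <;> simp
    rw [hE1, hB1, zpow_one]
    have hdct : IsUnit c.1ᵀ.det := by rwa [Matrix.det_transpose]
    have hdEu : IsUnit Ec.det := isUnit_iff_ne_zero.2 hdE
    have hdBu : IsUnit Bc.det := isUnit_iff_ne_zero.2 hdB
    have hkey : c.1ᵀ * Ec⁻¹ * c.1 * Bc = (2 * Real.pi * Complex.I) • (1 : Matrix (Ix g) (Ix g) ℂ) := by
      have h1 : c.1 * Bc = ((2 * Real.pi * Complex.I) • Ec) * (c.1ᵀ)⁻¹ := by
        rw [← hmain, Matrix.mul_assoc, Matrix.mul_nonsing_inv _ hdct, Matrix.mul_one]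
      rw [Matrix.mul_assoc, h1, Matrix.smul_mul, Matrix.mul_smul, Matrix.mul_assoc,
        ← Matrix.mul_assoc Ec⁻¹, Matrix.nonsing_inv_mul _ hdEu, Matrix.one_mul,
        Matrix.mul_nonsing_inv _ hdct]
    calc c.1ᵀ * Ec⁻¹ * c.1 = c.1ᵀ * Ec⁻¹ * c.1 * Bc * Bc⁻¹ := by
          rw [Matrix.mul_assoc _ Bc, Matrix.mul_nonsing_inv _ hdBu, Matrix.mul_one]
      _ = (2 * Real.pi * Complex.I) • Bc⁻¹ := by
          rw [hkey, Matrix.smul_mul, Matrix.one_mul]

end Pool.Agent.Lib.MPf11a48.U
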