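import Pool.Agent.Lib.MP_f11a48_ag.U.Str
import Pool.Agent.Lib.MP_f11a48_ag.U.StatementL
import Pool.Agent.Lib.MP_f11a48_ag.helper16.Final

/-!
# MP_f11a48_ag, project U, module LST: sufficient conditions for `Separated`
-/

set_option autoImplicit false

open Matrix MvPolynomial Pool.Agent.Lib.MPf11a48.CM Pool.Agent.Lib.MPf11a48.GL2T

namespace Pool.Agent.Lib.MPf11a48.U


namespace LstM

/-! ## Galois theory -/

/-- If two Galois subfields meet in a real field, some automorphism is trivial on the first one and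
is complex conjugation on the second one. -/
theorem exists_gal {L M : IntermediateField ℚ Qbar}
    (hL : ∀ (γ : Qbar ≃ₐ[ℚ] Qbar), ∀ x ∈ L, γ x ∈ L) (hLf : FiniteDimensional ℚ L)
    (h : RealField (L ⊓ M)) :
    ∃ γ : Qbar ≃ₐ[ℚ] Qbar, (∀ x ∈ L, γ x = x) ∧ ∀ x ∈ M, γ x = ccQ x := by
  have hN : L.fixingSubgroup.Normal := by
    refine ⟨fun γ hγ δ => ?_⟩
    rw [IntermediateField.mem_fixingSubgroup_iff] at hγ ⊢
    intro x hx
    have h1 := hγ _ (hL δ⁻¹ x hx)
    rw [AlgEquiv.mul_apply, AlgEquiv.mul_apply, h1, ← AlgEquiv.mul_apply, mul_inv_cancel,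
      AlgEquiv.one_apply]
  have hopen : IsOpen ((L.fixingSubgroup ⊔ M.fixingSubgroup : Subgroup (Qbar ≃ₐ[ℚ] Qbar)) :
      Set (Qbar ≃ₐ[ℚ] Qbar)) :=
    Subgroup.isOpen_mono le_sup_left L.fixingSubgroup_isOpen
  let H : ClosedSubgroup (Qbar ≃ₐ[ℚ] Qbar) := ⟨L.fixingSubgroup ⊔ M.fixingSubgroup,
    Subgroup.isClosed_of_isOpen _ hopen⟩
  have hfix : IntermediateField.fixedField (L.fixingSubgroup ⊔ M.fixingSubgroup) ≤ L ⊓ M := by
    refine le_inf ?_ ?_
    · have := IntermediateField.fixedField_antitone (F := ℚ) (E := Qbar)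
        (le_sup_left : L.fixingSubgroup ≤ L.fixingSubgroup ⊔ M.fixingSubgroup)
      rwa [InfiniteGalois.fixedField_fixingSubgroup] at this
    · have := IntermediateField.fixedField_antitone (F := ℚ) (E := Qbar)
        (le_sup_right : M.fixingSubgroup ≤ L.fixingSubgroup ⊔ M.fixingSubgroup)
      rwa [InfiniteGalois.fixedField_fixingSubgroup] at this
  have hcc : ccQ ∈ L.fixingSubgroup ⊔ M.fixingSubgroup := by
    have h1 := InfiniteGalois.fixingSubgroup_fixedField H
    change (IntermediateField.fixedField (L.fixingSubgroup ⊔ M.fixingSubgroup)).fixingSubgroup =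
      L.fixingSubgroup ⊔ M.fixingSubgroup at h1
    rw [← h1, IntermediateField.mem_fixingSubgroup_iff]
    intro x hx
    apply Subtype.ext
    rw [ccQ_coe]
    exact h x (hfix hx)
  obtain ⟨a, ha, b, hb, hab⟩ := Subgroup.mem_sup_of_normal_left.1 hcc
  rw [IntermediateField.mem_fixingSubgroup_iff] at ha hb
  refine ⟨a, ha, fun x hx => ?_⟩
  rw [← hab, AlgEquiv.mul_apply, hb x hx]

variable {ι : Type} [Fintype ι] [DecidableEq ι] {c : Matrix ι ι ℂ} {ψ : Matrix ι ι ℚ}

/-- the Galois action on embeddings of the centre -/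
noncomputable abbrev ga (γ : Qbar ≃ₐ[ℚ] Qbar) (s : EmbC c) : EmbC c := γ.toAlgHom.comp s

theorem ga_apply (γ : Qbar ≃ₐ[ℚ] Qbar) (s : EmbC c) (z : CenAlg c) : ga γ s z = γ (s z) := rfl

/-- the conjugate embedding -/
theorem isBar_iff (hadj : ∀ z ∈ CenAlg c, adj ψ z ∈ CenAlg c)
    (hconj : ∀ (s : EmbC c) (z z' : CenAlg c), z'.1 = adj ψ z.1 → s z' = ccQ (s z))
    (s s' : EmbC c) : IsBar ψ s s' ↔ s' = ga ccQ s := by
  constructor
  · intro h
    ext1 z
    rw [ga_apply]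
    have h1 := h z ⟨adj ψ z.1, hadj z.1 z.2⟩ rfl
    rw [h1]
    exact hconj s z _ rfl
  · rintro rfl z z' hz
    rw [ga_apply]
    exact (hconj s z z' hz).symm

/-- separation of one orbit -/
theorem isolate [Finite (EmbC c)] {U : Submodule ℚ (EmbC c → ℚ)}
    (hodd : ∀ f ∈ U, ∀ s, f (ga ccQ s) = -f s)
    (hst : ∀ γ : Qbar ≃ₐ[ℚ] Qbar, ∀ f ∈ U, (fun s => f (ga γ s)) ∈ U)
    {s : EmbC c} {f : EmbC c → ℚ} (hf : f ∈ U) (hfs : f s ≠ 0)
    (hdis : ∀ t : EmbC c, (∀ γ : Qbar ≃ₐ[ℚ] Qbar, ga γ (ga ccQ t) = ga γ t) ∨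
      (∃ γ : Qbar ≃ₐ[ℚ] Qbar, t = ga γ s) ∨
      ∃ γ : Qbar ≃ₐ[ℚ] Qbar, ga γ s = s ∧ ∀ δ : Qbar ≃ₐ[ℚ] Qbar, ga γ (ga δ t) = ga ccQ (ga δ t))
    (hcomm : ∀ (γ : Qbar ≃ₐ[ℚ] Qbar) (t : EmbC c), ga ccQ (ga γ t) = ga γ (ga ccQ t)) :
    ∃ g ∈ U, g s ≠ 0 ∧ ∀ t, g t ≠ 0 → ∃ γ : Qbar ≃ₐ[ℚ] Qbar, t = ga γ s := by
  classical
  have key : ∀ T : Finset (EmbC c), (∀ t ∈ T, ¬ ∃ γ : Qbar ≃ₐ[ℚ] Qbar, t = ga γ s) →
      ∃ g ∈ U, g s ≠ 0 ∧ ∀ t ∈ T, ∀ δ : Qbar ≃ₐ[ℚ] Qbar, g (ga δ t) = 0 := by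
    intro T
    induction T using Finset.induction_on with
    | empty => exact fun _ => ⟨f, hf, hfs, fun t ht => absurd ht (Finset.notMem_empty t)⟩
    | insert t T ht ih =>
      intro hT
      obtain ⟨g, hg, hgs, hg0⟩ := ih fun t' ht' => hT t' (Finset.mem_insert_of_mem ht')
      rcases hdis t with h | h | ⟨γ, hγs, hγt⟩
      · refine ⟨g, hg, hgs, fun t' ht' δ => ?_⟩
        rcases Finset.mem_insert.1 ht' with rfl | ht'
        · have h1 := hodd g hg (ga δ t')
          rw [hcomm, h] at h1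
          linarith
        · exact hg0 t' ht' δ
      · exact absurd h (hT t (Finset.mem_insert_self t T))
      · refine ⟨g + fun x => g (ga γ x), U.add_mem hg (hst γ g hg), ?_, fun t' ht' δ => ?_⟩
        · rw [Pi.add_apply, hγs]
          intro h0
          exact hgs (by linarith)
        · rw [Pi.add_apply]
          rcases Finset.mem_insert.1 ht' with rfl | ht'
          · rw [hγt, hodd g hg]
            ring
          · have h1 := hg0 t' ht' δ
            have h2 := hg0 t' ht' (γ * δ)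
            have h3 : ga (γ * δ) t' = ga γ (ga δ t') := rfl
            rw [h3] at h2
            rw [h1, h2, add_zero]
  cases nonempty_fintype (EmbC c)
  obtain ⟨g, hg, hgs, hg0⟩ := key (Finset.univ.filter fun t => ¬ ∃ γ : Qbar ≃ₐ[ℚ] Qbar, t = ga γ s)
    fun t ht => (Finset.mem_filter.1 ht).2
  refine ⟨g, hg, hgs, fun t ht => ?_⟩
  by_contra hcon
  exact ht (hg0 t (Finset.mem_filter.2 ⟨Finset.mem_univ t, hcon⟩) 1)

/-! ## One factor of the centre -/

section Factor

variable (s : EmbC c)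

/-- the image of an embedding is a field -/
theorem range_eq : (FieldOf s).toSubalgebra = s.range := by
  apply le_antisymm
  · have h1 : ∀ x ∈ s.range, x⁻¹ ∈ s.range := by
      intro x hx
      exact Subalgebra.inv_mem_of_algebraic (A := s.range) (x := ⟨x, hx⟩)
        (Algebra.IsAlgebraic.isAlgebraic _)
    have h2 : FieldOf s ≤ s.range.toIntermediateField h1 := by
      refine IntermediateField.adjoin_le_iff.2 ?_
      rintro _ ⟨z, rfl⟩
      exact ⟨z, rfl⟩
    exact h2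
  · rintro _ ⟨z, rfl⟩
    exact IntermediateField.subset_adjoin ℚ _ ⟨z, rfl⟩

theorem mem_FieldOf (z : CenAlg c) : s z ∈ FieldOf s :=
  IntermediateField.subset_adjoin ℚ _ ⟨z, rfl⟩

theorem exists_of_mem {x : Qbar} (hx : x ∈ FieldOf s) : ∃ z, s z = x := by
  have h1 : x ∈ (FieldOf s).toSubalgebra := hx
  rw [range_eq] at h1
  exact h1

/-- the embedding with values in the field -/
noncomputable def cor : CenAlg c →ₐ[ℚ] FieldOf s := s.codRestrict (FieldOf s).toSubalgebra (mem_FieldOf s)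

theorem cor_val (z : CenAlg c) : ((cor s z : FieldOf s) : Qbar) = s z := rfl

theorem cor_surj : Function.Surjective (cor s) := by
  rintro ⟨x, hx⟩
  obtain ⟨z, hz⟩ := exists_of_mem s hx
  exact ⟨z, Subtype.ext hz⟩

/-- the embedding of the centre given by an embedding of the field -/
noncomputable def em (σ : Emb (FieldOf s)) : EmbC c := σ.comp (cor s)

theorem em_apply (σ : Emb (FieldOf s)) (z : CenAlg c) : em s σ z = σ (cor s z) := rfl

theorem em_inj : Function.Injective (em s) := by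
  intro σ τ h
  ext1 x
  obtain ⟨z, rfl⟩ := cor_surj s x
  exact DFunLike.congr_fun h z

theorem em_val : em s (FieldOf s).val = s := rfl

theorem ga_em (γ : Qbar ≃ₐ[ℚ] Qbar) (σ : Emb (FieldOf s)) : ga γ (em s σ) = em s (galE γ σ) := rfl

theorem mem_range_em {t : EmbC c} {γ : Qbar ≃ₐ[ℚ] Qbar} (h : t = ga γ s) : t ∈ Set.range (em s) := by
  refine ⟨galE γ ((FieldOf s).val : Emb (FieldOf s)), ?_⟩
  rw [h]
  rfl

/-- complex conjugation on the field -/
noncomputable def rho (hcc : ∀ x ∈ FieldOf s, ccQ x ∈ FieldOf s) : FieldOf s ≃ₐ[ℚ] FieldOf s :=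
  AlgEquiv.ofAlgHom
    (((ccQ : Qbar →ₐ[ℚ] Qbar).comp (FieldOf s).val).codRestrict (FieldOf s).toSubalgebra
      fun x => hcc x x.2)
    (((ccQ : Qbar →ₐ[ℚ] Qbar).comp (FieldOf s).val).codRestrict (FieldOf s).toSubalgebra
      fun x => hcc x x.2)
    (by
      ext1 x
      apply Subtype.ext
      change ccQ (ccQ (x : Qbar)) = x
      apply Subtype.ext
      rw [ccQ_coe, ccQ_coe]
      exact Complex.conj_conj _)
    (by
      ext1 x
      apply Subtype.ext
      change ccQ (ccQ (x : Qbar)) = x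
      apply Subtype.ext
      rw [ccQ_coe, ccQ_coe]
      exact Complex.conj_conj _)

theorem rho_val (hcc : ∀ x ∈ FieldOf s, ccQ x ∈ FieldOf s) (x : FieldOf s) :
    ((rho s hcc x : FieldOf s) : Qbar) = ccQ x := rfl

end Factor

/-- the field generated by an embedding which is not real is a CM field -/
theorem isCM_rho (hconj : ∀ z : CenAlg c, ∃ z' : CenAlg c, ∀ t : EmbC c, t z' = ccQ (t z))
    (s : EmbC c) (hs : ¬ RealField (FieldOf s)) [NumberField (FieldOf s)]
    (hcc : ∀ x ∈ FieldOf s, ccQ x ∈ FieldOf s) : IsCM (rho s hcc) where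
  card := by
    rw [Nat.card_eq_fintype_card]
    exact AlgHom.card ℚ (FieldOf s) Qbar
  conj := by
    intro σ a
    obtain ⟨z, rfl⟩ := cor_surj s a
    obtain ⟨z', hz'⟩ := hconj z
    have h1 : rho s hcc (cor s z) = cor s z' := by
      apply Subtype.ext
      rw [rho_val, cor_val, cor_val, hz' s]
    rw [h1, ← em_apply, hz', ccQ_coe]
    rfl
  ne := by
    intro σ h
    apply hs
    intro x hx
    have h1 := DFunLike.congr_fun h ⟨x, hx⟩
    have h2 : rho s hcc ⟨x, hx⟩ = ⟨x, hx⟩ := σ.injective h1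
    have h3 := congrArg (fun y : FieldOf s => ((y : Qbar) : ℂ)) h2
    simp only [rho_val, ccQ_coe] at h3
    exact h3

theorem galOf_stable (s : EmbC c) (γ : Qbar ≃ₐ[ℚ] Qbar) {x : Qbar} (hx : x ∈ GalOf s) :
    γ x ∈ GalOf s := by
  have h1 : GalOf s ≤ (GalOf s).comap (γ : Qbar →ₐ[ℚ] Qbar) := by
    refine IntermediateField.adjoin_le_iff.2 ?_
    rintro _ ⟨δ, z, rfl⟩
    exact IntermediateField.subset_adjoin ℚ _ ⟨γ * δ, z, rfl⟩
  exact h1 hx

theorem galOf_finite [Finite (EmbC c)] (s : EmbC c) : FiniteDimensional ℚ (GalOf s) := by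
  classical
  cases nonempty_fintype (EmbC c)
  let b := Module.finBasis ℚ (CenAlg c)
  let A : Set Qbar := Set.range fun p : EmbC c × Fin (Module.finrank ℚ (CenAlg c)) => p.1 (b p.2)
  have hA : A.Finite := Set.finite_range _
  have h1 : FiniteDimensional ℚ (IntermediateField.adjoin ℚ A) := by
    have : Finite A := hA
    exact IntermediateField.finiteDimensional_adjoin fun x _ =>
      (Algebra.IsAlgebraic.isAlgebraic x).isIntegral
  have h2 : GalOf s ≤ IntermediateField.adjoin ℚ A := by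
    refine IntermediateField.adjoin_le_iff.2 ?_
    rintro _ ⟨γ, z, rfl⟩
    change ga γ s z ∈ IntermediateField.adjoin ℚ A
    rw [← b.sum_repr z, map_sum]
    refine sum_mem fun i _ => ?_
    rw [map_smul]
    have h3 : ga γ s (b i) ∈ IntermediateField.adjoin ℚ A :=
      IntermediateField.subset_adjoin ℚ A (Set.mem_range.2 ⟨(ga γ s, i), rfl⟩)
    exact IntermediateField.smul_mem _ h3
  exact FiniteDimensional.of_injective (IntermediateField.inclusion h2).toLinearMap
    (IntermediateField.inclusion h2).injective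

open scoped Classical in
theorem main [Finite (EmbC c)] (hadj : ∀ z ∈ CenAlg c, adj ψ z ∈ CenAlg c)
    (hconj : ∀ (s : EmbC c) (z z' : CenAlg c), z'.1 = adj ψ z.1 → s z' = ccQ (s z))
    (h : ListedCentre c) : Separated c ψ := by
  intro U hU hodd hst
  have hbar := isBar_iff (ψ := ψ) hadj hconj
  have hodd' : ∀ f ∈ U, ∀ s, f (ga ccQ s) = -f s := fun f hf s =>
    hodd f hf s _ ((hbar s _).2 rfl)
  obtain ⟨f, hf, hf0⟩ := Submodule.exists_mem_ne_zero_of_ne_bot hU
  obtain ⟨s, hs⟩ := Function.ne_iff.1 hf0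
  have hreal : ∀ t : EmbC c, RealField (FieldOf t) → ga ccQ t = t := by
    intro t ht
    ext1 z
    apply Subtype.ext
    rw [ga_apply, ccQ_coe]
    exact ht _ (mem_FieldOf t z)
  have hsr : ¬ RealField (FieldOf s) := by
    intro hr
    have h1 := hodd' f hf s
    rw [hreal s hr] at h1
    apply hs
    rw [Pi.zero_apply]
    linarith
  have hconj' : ∀ z : CenAlg c, ∃ z' : CenAlg c, ∀ t : EmbC c, t z' = ccQ (t z) := fun z =>
    ⟨⟨adj ψ z.1, hadj z.1 z.2⟩, fun t => hconj t z _ rfl⟩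
  have hcomm : ∀ (γ : Qbar ≃ₐ[ℚ] Qbar) (t : EmbC c), ga ccQ (ga γ t) = ga γ (ga ccQ t) := by
    intro γ t
    ext1 z
    obtain ⟨z', hz'⟩ := hconj' z
    rw [ga_apply, ← hz' (ga γ t), ga_apply, hz' t, ga_apply, ga_apply]
  obtain ⟨hNF, hL⟩ := (h.1 s).resolve_left hsr
  have hcc : ∀ x ∈ FieldOf s, ccQ x ∈ FieldOf s := by
    intro x hx
    obtain ⟨z, rfl⟩ := exists_of_mem s hx
    obtain ⟨z', hz'⟩ := hconj' z
    rw [← hz' s]
    exact mem_FieldOf s z'
  have cm := isCM_rho hconj' s hsr hcc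
  -- an element supported on the orbit of `s`
  obtain ⟨g, hg, hgs, hgsupp⟩ := isolate hodd' hst hf hs (fun t => by
    rcases h.2 s t with h1 | h1 | h1 | h1
    · exact absurd h1 hsr
    · left
      intro γ
      rw [hreal t h1]
    · exact Or.inr (Or.inl h1)
    · obtain ⟨γ, hγ1, hγ2⟩ := exists_gal (fun γ x hx => galOf_stable s γ hx) (galOf_finite s) h1
      refine Or.inr (Or.inr ⟨γ, ?_, fun δ => ?_⟩)
      · ext1 z
        exact hγ1 _ (IntermediateField.subset_adjoin ℚ _ ⟨1, z, rfl⟩)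
      · ext1 z
        exact hγ2 _ (IntermediateField.subset_adjoin ℚ _ ⟨δ, z, rfl⟩)) hcomm
  -- the space of functions on the embeddings of the field
  let P : Submodule ℚ (EmbC c → ℚ) :=
    { carrier := {u | ∀ t, t ∉ Set.range (em s) → u t = 0}
      add_mem' := fun {a b} ha hb t ht => by rw [Pi.add_apply, ha t ht, hb t ht, add_zero]
      zero_mem' := fun _ _ => rfl
      smul_mem' := fun r a ha t ht => by rw [Pi.smul_apply, ha t ht, smul_zero] }
  let V : Submodule ℚ (Emb (FieldOf s) → ℚ) := (U ⊓ P).map (LinearMap.funLeft ℚ ℚ (em s))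
  have hem : ∀ σ : Emb (FieldOf s), em s (conjE (rho s hcc) σ) = ga ccQ (em s σ) := by
    intro σ
    ext1 z
    obtain ⟨z', hz'⟩ := hconj' z
    rw [ga_apply, ← hz', em_apply, em_apply]
    change σ (rho s hcc (cor s z)) = σ (cor s z')
    congr 1
    apply Subtype.ext
    rw [rho_val, cor_val, cor_val, hz' s]
  have hV1 : SubOdd (rho s hcc) V := by
    rintro _ ⟨u, ⟨hu, _⟩, rfl⟩ σ
    change u (em s (conjE (rho s hcc) σ)) = -u (em s σ)
    rw [hem, hodd' u hu]
  have hV2 : SubStable ⊥ V := by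
    rintro γ _ _ ⟨u, ⟨hu, hu'⟩, rfl⟩
    refine ⟨fun t => u (ga γ t), ⟨hst γ u hu, fun t ht => hu' _ fun ht' => ht ?_⟩, rfl⟩
    obtain ⟨σ, hσ⟩ := ht'
    refine ⟨galE γ.symm σ, ?_⟩
    rw [← ga_em, hσ]
    ext1 z
    exact γ.symm_apply_apply _
  have hV3 : V ≠ ⊥ := by
    intro hb
    have h1 : (LinearMap.funLeft ℚ ℚ (em s)) g ∈ V := ⟨g, ⟨hg, fun t ht => by
      by_contra hne
      obtain ⟨γ, hγ⟩ := hgsupp t hne
      exact ht (mem_range_em s hγ)⟩, rfl⟩
    rw [hb, Submodule.mem_bot] at h1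
    exact hgs (congrFun h1 ((FieldOf s).val : Emb (FieldOf s)))
  obtain ⟨σ, τ, hστ, u, ⟨hu, hu'⟩, hus⟩ := (separating_of_listed cm hL).2 V hV1 hV2 hV3
  have hus' : ∀ κ : Emb (FieldOf s), u (em s κ) =
      (oddVec (rho s hcc) σ - oddVec (rho s hcc) τ) κ := fun κ => congrFun hus κ
  have hu_eq : u = delta (em s σ) (em s (conjE (rho s hcc) σ)) -
      delta (em s τ) (em s (conjE (rho s hcc) τ)) := by
    funext t
    by_cases ht : t ∈ Set.range (em s)
    · obtain ⟨κ, rfl⟩ := ht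
      rw [hus' κ]
      simp only [Pi.sub_apply, oddVec, delta, Pi.single_apply, (em_inj s).eq_iff, conjE]
    · rw [hu' t ht]
      have hne : ∀ κ : Emb (FieldOf s), t ≠ em s κ := fun κ hκ => ht ⟨κ, hκ.symm⟩
      simp only [Pi.sub_apply, delta, Pi.single_apply, hne, if_false, sub_self]
  refine ⟨em s σ, em s (conjE (rho s hcc) σ), em s τ, em s (conjE (rho s hcc) τ),
    (hbar _ _).2 (hem σ), (hbar _ _).2 (hem τ), hu_eq ▸ hu, fun heq => ?_⟩
  have h1 := congrFun heq (em s σ)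
  have hne1 : σ ≠ conjE (rho s hcc) σ := fun h => cm.ne σ h.symm
  simp only [delta, Pi.sub_apply, Pi.single_apply, (em_inj s).eq_iff, if_true, hne1, if_false, hστ]
    at h1
  split_ifs at h1 <;> norm_num at h1

end LstM

/-- `ListedCentre` implies `Separated`. -/
theorem separated_of_listedCentre {ι : Type} [Fintype ι] [DecidableEq ι] (hB : SpecBIC)
    {c : GL ι ℂ} {J : Matrix ι ι ℝ} {ψ : Matrix ι ι ℚ} (h : HD c J ψ) (S : Str c ψ)
    (hl : ListedCentre c.1) : Separated c.1 ψ := by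
  have : Finite (EmbC c.1) := Finite.of_equiv _ S.ev
  refine LstM.main (fun z hz => StrM.adj_CenAlg hB h hz) (fun s z z' hz => ?_) hl
  obtain ⟨e, rfl⟩ := S.ev.surjective s
  apply Subtype.ext
  rw [ccQ_coe]
  rcases e with k | s
  · rw [S.cc_κ, ← S.bar_κ k z z' hz]
  · rw [S.cc_σ, S.bar_σ s z z' hz]

end Pool.Agent.Lib.MPf11a48.U
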