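import Pool.Agent.Lib.MP_f11a48_ag.U.Tlg

/-!
# Module PROD: the product of two abelian varieties
-/

set_option autoImplicit false
set_option linter.unusedSectionVars false

open MvPolynomial Pool.Agent.Lib.MPf11a48.CM Filter Topology

namespace Pool.Agent.Lib.MPf11a48.U

namespace ProdM

open TlgM

variable {Z T Θ Λ Z' T' Θ' Λ' : Type} [Fintype Z] [Fintype T] [Fintype Θ] [Fintype Λ]
  [Fintype Z'] [Fintype T'] [Fintype Θ'] [Fintype Λ'] {D : TD Z T Θ Λ} {D' : TD Z' T' Θ' Λ'}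

/-- first projection -/
noncomputable def p1 : (Z ⊕ Z' → ℂ) →L[ℂ] (Z → ℂ) :=
  ContinuousLinearMap.pi fun j => ContinuousLinearMap.proj (Sum.inl j)

/-- second projection -/
noncomputable def p2 : (Z ⊕ Z' → ℂ) →L[ℂ] (Z' → ℂ) :=
  ContinuousLinearMap.pi fun j => ContinuousLinearMap.proj (Sum.inr j)

theorem p1_apply (z : Z ⊕ Z' → ℂ) (j : Z) : p1 z j = z (Sum.inl j) := rfl

theorem p2_apply (z : Z ⊕ Z' → ℂ) (j : Z') : p2 z j = z (Sum.inr j) := rfl

theorem norm_p1 (z : Z ⊕ Z' → ℂ) : ‖p1 z‖ ≤ ‖z‖ :=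
  (pi_norm_le_iff_of_nonneg (norm_nonneg z)).2 fun j => norm_le_pi_norm z (Sum.inl j)

theorem norm_p2 (z : Z ⊕ Z' → ℂ) : ‖p2 z‖ ≤ ‖z‖ :=
  (pi_norm_le_iff_of_nonneg (norm_nonneg z)).2 fun j => norm_le_pi_norm z (Sum.inr j)

theorem gr_comp {E F : Type*} [NormedAddCommGroup E] [NormedAddCommGroup F] {B : F → ℂ}
    (h : Gr B) {p : E → F} (hp : ∀ z, ‖p z‖ ≤ ‖z‖) : Gr fun z => B (p z) := by
  obtain ⟨C, hC0, hC⟩ := h.exists_nonneg
  refine ⟨C, fun z => (hC _).trans (Real.exp_le_exp.2 ?_)⟩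
  have h1 := hp z
  have h2 : ‖p z‖ ^ 2 ≤ ‖z‖ ^ 2 := pow_le_pow_left₀ (norm_nonneg _) h1 2
  exact mul_le_mul_of_nonneg_left (by linarith) hC0

theorem f_diff (h : D.Good) (i : Θ) {z : Z → ℂ} (hz : D.th D.o z ≠ 0) :
    DifferentiableAt ℂ (D.f i) z := by
  have : D.f i = fun w => D.th i w * (D.th D.o w)⁻¹ := by
    funext w
    rw [TD.f, div_eq_mul_inv]
  rw [this]
  exact ((h.th_diff i) z).mul ((h.th_diff D.o z).inv hz)

theorem zt_diff (h : D.Good) (t : T) {z : Z → ℂ} (hz : D.th D.o z ≠ 0) :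
    DifferentiableAt ℂ (D.zt t) z := by
  have : D.zt t = fun w => D.Y t w * (D.th D.o w ^ D.m)⁻¹ := by
    funext w
    rw [TD.zt, div_eq_mul_inv]
  rw [this]
  exact ((h.Y_diff t) z).mul (((h.th_diff D.o z).pow D.m).inv (pow_ne_zero _ hz))

theorem f_o {z : Z → ℂ} (hz : D.th D.o z ≠ 0) : D.f D.o z = 1 := div_self hz

theorem f_prod (i : Θ × Θ') (z : Z ⊕ Z' → ℂ) :
    (D.prod D').f i z = D.f i.1 (p1 z) * D'.f i.2 (p2 z) :=
  mul_div_mul_comm _ _ _ _

theorem th_o_prod (z : Z ⊕ Z' → ℂ) :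
    (D.prod D').th (D.prod D').o z = D.th D.o (p1 z) * D'.th D'.o (p2 z) := rfl

theorem zt_inl {t : T} {z : Z ⊕ Z' → ℂ} (h1 : D.th D.o (p1 z) ≠ 0)
    (h2 : D'.th D'.o (p2 z) ≠ 0) : (D.prod D').zt (Sum.inl t) z = D.zt t (p1 z) := by
  have e1 : (D.prod D').zt (Sum.inl t) z = D.Y t (p1 z) * D.th D.o (p1 z) ^ D'.m *
      D'.th D'.o (p2 z) ^ (D.m + D'.m) / (D.th D.o (p1 z) * D'.th D'.o (p2 z)) ^ (D.m + D'.m) :=
    rfl
  rw [e1, TD.zt, mul_pow, pow_add, pow_add]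
  field_simp

theorem zt_inr {t : T'} {z : Z ⊕ Z' → ℂ} (h1 : D.th D.o (p1 z) ≠ 0)
    (h2 : D'.th D'.o (p2 z) ≠ 0) : (D.prod D').zt (Sum.inr t) z = D'.zt t (p2 z) := by
  have e1 : (D.prod D').zt (Sum.inr t) z = D'.Y t (p2 z) * D'.th D'.o (p2 z) ^ D.m *
      D.th D.o (p1 z) ^ (D.m + D'.m) / (D.th D.o (p1 z) * D'.th D'.o (p2 z)) ^ (D.m + D'.m) :=
    rfl
  rw [e1, TD.zt, mul_pow, pow_add, pow_add]
  field_simp

theorem isOpen_ne (h : D.Good) (h' : D'.Good) :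
    IsOpen {z : Z ⊕ Z' → ℂ | D.th D.o (p1 z) ≠ 0 ∧ D'.th D'.o (p2 z) ≠ 0} := by
  refine IsOpen.inter ?_ ?_
  · exact isOpen_ne_fun ((h.th_diff D.o).continuous.comp p1.continuous) continuous_const
  · exact isOpen_ne_fun ((h'.th_diff D'.o).continuous.comp p2.continuous) continuous_const

theorem linInd {R V A B X Y : Type*} [Fintype A] [Fintype B] [Field R] [AddCommGroup V]
    [Module R V] {a : A → X → V} {b : B → Y → V} {c : A ⊕ B → X ⊕ Y → V}
    (ha : LinearIndependent R a) (hb : LinearIndependent R b)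
    (h1 : ∀ i x, c (Sum.inl i) (Sum.inl x) = a i x) (h2 : ∀ i y, c (Sum.inl i) (Sum.inr y) = 0)
    (h3 : ∀ j x, c (Sum.inr j) (Sum.inl x) = 0)
    (h4 : ∀ j y, c (Sum.inr j) (Sum.inr y) = b j y) : LinearIndependent R c := by
  rw [Fintype.linearIndependent_iff] at ha hb ⊢
  intro g hg
  rw [Fintype.sum_sum_type] at hg
  have e1 : ∑ i, g (Sum.inl i) • a i = 0 := by
    funext x
    have := congrFun hg (Sum.inl x)
    simpa [Finset.sum_apply, h1, h3] using this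
  have e2 : ∑ j, g (Sum.inr j) • b j = 0 := by
    funext y
    have := congrFun hg (Sum.inr y)
    simpa [Finset.sum_apply, h2, h4] using this
  rintro (i | j)
  · exact ha (fun i => g (Sum.inl i)) e1 i
  · exact hb (fun j => g (Sum.inr j)) e2 j

end ProdM

open ProdM TlgM in
theorem specPROD : SpecPROD := by
  intro Z T Θ Λ Z' T' Θ' Λ' _ _ _ _ _ _ _ _ D D' h h'
  have hgt : ∀ i, Gr (D.th i) := fun i => by
    obtain ⟨C, hC⟩ := h.th_growth
    exact ⟨C, hC i⟩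
  have hgt' : ∀ i, Gr (D'.th i) := fun i => by
    obtain ⟨C, hC⟩ := h'.th_growth
    exact ⟨C, hC i⟩
  have hgY : ∀ i, Gr (D.Y i) := fun i => by
    obtain ⟨C, hC⟩ := h.Y_growth
    exact ⟨C, hC i⟩
  have hgY' : ∀ i, Gr (D'.Y i) := fun i => by
    obtain ⟨C, hC⟩ := h'.Y_growth
    exact ⟨C, hC i⟩
  have hd1 : ∀ {B : (Z → ℂ) → ℂ}, Differentiable ℂ B →
      Differentiable ℂ fun z : Z ⊕ Z' → ℂ => B (p1 z) := fun hB => hB.comp p1.differentiable
  have hd2 : ∀ {B : (Z' → ℂ) → ℂ}, Differentiable ℂ B →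
      Differentiable ℂ fun z : Z ⊕ Z' → ℂ => B (p2 z) := fun hB => hB.comp p2.differentiable
  have hg1 : ∀ {B : (Z → ℂ) → ℂ}, Gr B → Gr fun z : Z ⊕ Z' → ℂ => B (p1 z) :=
    fun hB => gr_comp hB norm_p1
  have hg2 : ∀ {B : (Z' → ℂ) → ℂ}, Gr B → Gr fun z : Z ⊕ Z' → ℂ => B (p2 z) :=
    fun hB => gr_comp hB norm_p2
  have hne : ∀ {z : Z ⊕ Z' → ℂ}, (D.prod D').th (D.prod D').o z ≠ 0 →
      D.th D.o (p1 z) ≠ 0 ∧ D'.th D'.o (p2 z) ≠ 0 := fun {z} hz => by
    rw [th_o_prod] at hz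
    exact ⟨left_ne_zero_of_mul hz, right_ne_zero_of_mul hz⟩
  have hl1 : ∀ (a : Λ) (z : Z ⊕ Z' → ℂ), p1 (z + (D.prod D').lat (Sum.inl a)) = p1 z + D.lat a :=
    fun a z => rfl
  have hl2 : ∀ (a : Λ) (z : Z ⊕ Z' → ℂ), p2 (z + (D.prod D').lat (Sum.inl a)) = p2 z :=
    fun a z => by
      funext j
      exact add_zero _
  have hr1 : ∀ (a : Λ') (z : Z ⊕ Z' → ℂ), p1 (z + (D.prod D').lat (Sum.inr a)) = p1 z :=
    fun a z => by
      funext j
      exact add_zero _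
  have hr2 : ∀ (a : Λ') (z : Z ⊕ Z' → ℂ),
      p2 (z + (D.prod D').lat (Sum.inr a)) = p2 z + D'.lat a := fun a z => rfl
  have hper : ∀ (a : Λ) (z : Z → ℂ), D.th D.o z ≠ 0 → D.th D.o (z + D.lat a) ≠ 0 := by
    intro a z hz
    obtain ⟨e, he, he'⟩ := h.th_period a
    rw [he']
    exact mul_ne_zero (he z) hz
  have hper' : ∀ (a : Λ') (z : Z' → ℂ), D'.th D'.o z ≠ 0 → D'.th D'.o (z + D'.lat a) ≠ 0 := by
    intro a z hz
    obtain ⟨e, he, he'⟩ := h'.th_period a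
    rw [he']
    exact mul_ne_zero (he z) hz
  have h01 : p1 (0 : Z ⊕ Z' → ℂ) = 0 := map_zero _
  have h02 : p2 (0 : Z ⊕ Z' → ℂ) = 0 := map_zero _
  have hp1 : ∀ {z : Z ⊕ Z' → ℂ} {B : (Z → ℂ) → ℂ} (v : Z ⊕ Z' → ℂ),
      DifferentiableAt ℂ B (p1 z) →
      DifferentiableAt ℂ (fun w : Z ⊕ Z' → ℂ => B (p1 w)) z ∧
      fderiv ℂ (fun w : Z ⊕ Z' → ℂ => B (p1 w)) z v = fderiv ℂ B (p1 z) (p1 v) := by
    intro z B v hB
    have : HasFDerivAt (fun w : Z ⊕ Z' → ℂ => B (p1 w)) (fderiv ℂ B (p1 z) ∘SL p1) z :=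
      hB.hasFDerivAt.comp z p1.hasFDerivAt
    exact ⟨this.differentiableAt, by rw [this.fderiv]; rfl⟩
  have hp2 : ∀ {z : Z ⊕ Z' → ℂ} {B : (Z' → ℂ) → ℂ} (v : Z ⊕ Z' → ℂ),
      DifferentiableAt ℂ B (p2 z) →
      DifferentiableAt ℂ (fun w : Z ⊕ Z' → ℂ => B (p2 w)) z ∧
      fderiv ℂ (fun w : Z ⊕ Z' → ℂ => B (p2 w)) z v = fderiv ℂ B (p2 z) (p2 v) := by
    intro z B v hB
    have : HasFDerivAt (fun w : Z ⊕ Z' → ℂ => B (p2 w)) (fderiv ℂ B (p2 z) ∘SL p2) z :=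
      hB.hasFDerivAt.comp z p2.hasFDerivAt
    exact ⟨this.differentiableAt, by rw [this.fderiv]; rfl⟩
  have hdf : ∀ (i : Θ × Θ') (z v : Z ⊕ Z' → ℂ), D.th D.o (p1 z) ≠ 0 → D'.th D'.o (p2 z) ≠ 0 →
      fderiv ℂ ((D.prod D').f i) z v =
        D.f i.1 (p1 z) * fderiv ℂ (D'.f i.2) (p2 z) (p2 v) +
          D'.f i.2 (p2 z) * fderiv ℂ (D.f i.1) (p1 z) (p1 v) := by
    intro i z v hz1 hz2
    have e1 : (D.prod D').f i = fun w => D.f i.1 (p1 w) * D'.f i.2 (p2 w) :=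
      funext fun w => f_prod i w
    obtain ⟨d1, d1'⟩ := hp1 v (f_diff h i.1 hz1)
    obtain ⟨d2, d2'⟩ := hp2 v (f_diff h' i.2 hz2)
    rw [e1, fderiv_fun_mul d1 d2]
    simp only [add_apply, smul_apply, smul_eq_mul, d1', d2']
  have hren1 : ∀ (p : MvPolynomial Θ Qbar) (z : Z ⊕ Z' → ℂ), D'.th D'.o (p2 z) ≠ 0 →
      aeval (fun k => (D.prod D').f k z) (rename (fun k => (k, D'.o)) p) =
        aeval (fun k => D.f k (p1 z)) p := by
    intro p z hz
    rw [aeval_rename]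
    congr 1
    congr 1
    funext k
    simp only [Function.comp_apply, f_prod, f_o hz, mul_one]
  have hren2 : ∀ (p : MvPolynomial Θ' Qbar) (z : Z ⊕ Z' → ℂ), D.th D.o (p1 z) ≠ 0 →
      aeval (fun k => (D.prod D').f k z) (rename (fun k => (D.o, k)) p) =
        aeval (fun k => D'.f k (p2 z)) p := by
    intro p z hz
    rw [aeval_rename]
    congr 1
    congr 1
    funext k
    simp only [Function.comp_apply, f_prod, f_o hz, one_mul]
  refine
    { lat_indep := linInd h.lat_indep h'.lat_indep (fun _ _ => rfl) (fun _ _ => rfl)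
        (fun _ _ => rfl) fun _ _ => rfl
      lat_card := by
        rw [Fintype.card_sum, Fintype.card_sum, h.lat_card, h'.lat_card, mul_add]
      lam_indep := ?_
      th_diff := fun i => (hd1 (h.th_diff i.1)).mul (hd2 (h'.th_diff i.2))
      Y_diff := ?_
      th_growth := Gr.unif fun i => (hg1 (hgt i.1)).mul (hg2 (hgt' i.2))
      Y_growth := ?_
      th_zero := ?_
      th_period := ?_
      zt_period := ?_
      f_value := ?_
      zt_value := ?_
      f_deriv := ?_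
      zt_deriv := ?_
      imm := ?_ }
  · -- the lattice of the universal vector extension
    have h1 := h.lam_indep
    have h2 := h'.lam_indep
    rw [Fintype.linearIndependent_iff] at h1 h2 ⊢
    intro g hg
    rw [Fintype.sum_sum_type] at hg
    have e1 : ∑ i, g (Sum.inl i) • D.lam i = 0 := by
      funext x
      rcases x with j | t
      · have := congrFun hg (Sum.inl (Sum.inl j))
        simpa [Finset.sum_apply, TD.lam, TD.prod] using this
      · have := congrFun hg (Sum.inr (Sum.inl t))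
        simpa [Finset.sum_apply, TD.lam, TD.prod] using this
    have e2 : ∑ i, g (Sum.inr i) • D'.lam i = 0 := by
      funext x
      rcases x with j | t
      · have := congrFun hg (Sum.inl (Sum.inr j))
        simpa [Finset.sum_apply, TD.lam, TD.prod] using this
      · have := congrFun hg (Sum.inr (Sum.inr t))
        simpa [Finset.sum_apply, TD.lam, TD.prod] using this
    rintro (i | j)
    · exact h1 (fun i => g (Sum.inl i)) e1 i
    · exact h2 (fun j => g (Sum.inr j)) e2 j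
  · rintro (t | t)
    · exact ((hd1 (h.Y_diff t)).mul ((hd1 (h.th_diff D.o)).pow _)).mul
        ((hd2 (h'.th_diff D'.o)).pow _)
    · exact ((hd2 (h'.Y_diff t)).mul ((hd2 (h'.th_diff D'.o)).pow _)).mul
        ((hd1 (h.th_diff D.o)).pow _)
  · refine Gr.unif fun t => ?_
    rcases t with t | t
    · exact ((hg1 (hgY t)).mul ((hg1 (hgt D.o)).pow _)).mul ((hg2 (hgt' D'.o)).pow _)
    · exact ((hg2 (hgY' t)).mul ((hg2 (hgt' D'.o)).pow _)).mul ((hg1 (hgt D.o)).pow _)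
  · rw [th_o_prod, h01, h02]
    exact mul_ne_zero h.th_zero h'.th_zero
  · rintro (a | a)
    · obtain ⟨e, he, he'⟩ := h.th_period a
      refine ⟨fun z => e (p1 z), fun z => he _, fun i z => ?_⟩
      have e1 : (D.prod D').th i (z + (D.prod D').lat (Sum.inl a)) =
        D.th i.1 (p1 (z + (D.prod D').lat (Sum.inl a))) *
          D'.th i.2 (p2 (z + (D.prod D').lat (Sum.inl a))) := rfl
      have e2 : (D.prod D').th i z = D.th i.1 (p1 z) * D'.th i.2 (p2 z) := rfl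
      rw [e1, e2, hl1, hl2, he']
      ring
    · obtain ⟨e, he, he'⟩ := h'.th_period a
      refine ⟨fun z => e (p2 z), fun z => he _, fun i z => ?_⟩
      have e1 : (D.prod D').th i (z + (D.prod D').lat (Sum.inr a)) =
        D.th i.1 (p1 (z + (D.prod D').lat (Sum.inr a))) *
          D'.th i.2 (p2 (z + (D.prod D').lat (Sum.inr a))) := rfl
      have e2 : (D.prod D').th i z = D.th i.1 (p1 z) * D'.th i.2 (p2 z) := rfl
      rw [e1, e2, hr1, hr2, he']
      ring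
  · rintro (a | a) (t | t) z hz
    · obtain ⟨hz1, hz2⟩ := hne hz
      rw [zt_inl hz1 hz2, zt_inl (by rw [hl1]; exact hper a _ hz1) (by rwa [hl2]), hl1,
        h.zt_period a t _ hz1]
      rfl
    · obtain ⟨hz1, hz2⟩ := hne hz
      rw [zt_inr hz1 hz2, zt_inr (by rw [hl1]; exact hper a _ hz1) (by rwa [hl2]), hl2]
      exact (add_zero _).symm
    · obtain ⟨hz1, hz2⟩ := hne hz
      rw [zt_inl hz1 hz2, zt_inl (by rwa [hr1]) (by rw [hr2]; exact hper' a _ hz2), hr1]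
      exact (add_zero _).symm
    · obtain ⟨hz1, hz2⟩ := hne hz
      rw [zt_inr hz1 hz2, zt_inr (by rwa [hr1]) (by rw [hr2]; exact hper' a _ hz2), hr2,
        h'.zt_period a t _ hz2]
      rfl
  · intro i
    rw [f_prod, h01, h02]
    exact mul_mem (h.f_value _) (h'.f_value _)
  · rintro (t | t)
    · rw [zt_inl (by rw [h01]; exact h.th_zero) (by rw [h02]; exact h'.th_zero), h01]
      exact h.zt_value t
    · rw [zt_inr (by rw [h01]; exact h.th_zero) (by rw [h02]; exact h'.th_zero), h02]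
      exact h'.zt_value t
  · intro i v hv
    obtain ⟨p, hp⟩ := h.f_deriv i.1 (p1 v) fun j => hv _
    obtain ⟨q, hq⟩ := h'.f_deriv i.2 (p2 v) fun j => hv _
    refine ⟨X (i.1, D'.o) * rename (fun k => (D.o, k)) q +
      X (D.o, i.2) * rename (fun k => (k, D'.o)) p, fun z hz => ?_⟩
    obtain ⟨hz1, hz2⟩ := hne hz
    rw [hdf i z v hz1 hz2, hp _ hz1, hq _ hz2, map_add, map_mul, map_mul, aeval_X, aeval_X,
      hren1 p z hz2, hren2 q z hz1, f_prod, f_prod]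
    simp only [f_o hz1, f_o hz2, mul_one, one_mul]
  · rintro (t | t) v hv
    · obtain ⟨p, hp⟩ := h.zt_deriv t (p1 v) fun j => hv _
      refine ⟨rename (fun k => (k, D'.o)) p, fun z hz => ?_⟩
      obtain ⟨hz1, hz2⟩ := hne hz
      have e1 : (D.prod D').zt (Sum.inl t) =ᶠ[𝓝 z] fun w => D.zt t (p1 w) := by
        filter_upwards [(isOpen_ne h h').mem_nhds ⟨hz1, hz2⟩] with w hw
        exact zt_inl hw.1 hw.2
      rw [e1.fderiv_eq, (hp1 v (zt_diff h t hz1)).2, hp _ hz1, hren1 p z hz2]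
    · obtain ⟨p, hp⟩ := h'.zt_deriv t (p2 v) fun j => hv _
      refine ⟨rename (fun k => (D.o, k)) p, fun z hz => ?_⟩
      obtain ⟨hz1, hz2⟩ := hne hz
      have e1 : (D.prod D').zt (Sum.inr t) =ᶠ[𝓝 z] fun w => D'.zt t (p2 w) := by
        filter_upwards [(isOpen_ne h h').mem_nhds ⟨hz1, hz2⟩] with w hw
        exact zt_inr hw.1 hw.2
      rw [e1.fderiv_eq, (hp2 v (zt_diff h' t hz2)).2, hp _ hz2, hren2 p z hz1]
  · intro v hv
    have hz1 : D.th D.o (p1 (0 : Z ⊕ Z' → ℂ)) ≠ 0 := by rw [h01]; exact h.th_zero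
    have hz2 : D'.th D'.o (p2 (0 : Z ⊕ Z' → ℂ)) ≠ 0 := by rw [h02]; exact h'.th_zero
    by_cases hv1 : p1 v = 0
    · have hv2 : p2 v ≠ 0 := by
        intro hv2
        refine hv (funext fun x => ?_)
        rcases x with j | j
        · exact congrFun hv1 j
        · exact congrFun hv2 j
      obtain ⟨i, hi⟩ := h'.imm _ hv2
      refine ⟨(D.o, i), ?_⟩
      have h3 : fderiv ℂ (D.f D.o) (p1 (0 : Z ⊕ Z' → ℂ)) (p1 v) = 0 := by rw [hv1, map_zero]
      rw [hdf _ _ v hz1 hz2]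
      simp only [h3, mul_zero, add_zero]
      rw [f_o hz1, one_mul, h02]
      exact hi
    · obtain ⟨i, hi⟩ := h.imm _ hv1
      refine ⟨(i, D'.o), ?_⟩
      have h3 : fderiv ℂ (D'.f D'.o) (p2 (0 : Z ⊕ Z' → ℂ)) = 0 := by
        have e1 : D'.f D'.o =ᶠ[𝓝 (p2 (0 : Z ⊕ Z' → ℂ))] fun _ => 1 := by
          have hop : IsOpen {z | D'.th D'.o z ≠ 0} :=
            isOpen_ne_fun (h'.th_diff D'.o).continuous continuous_const
          filter_upwards [hop.mem_nhds hz2] with w hw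
          exact f_o hw
        rw [e1.fderiv_eq]
        exact fderiv_const_apply _
      rw [hdf _ _ v hz1 hz2]
      simp only [h3, zero_apply, mul_zero, zero_add]
      rw [f_o hz2, one_mul, h01]
      exact hi

end Pool.Agent.Lib.MPf11a48.U
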