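import Pool.Agent.Lib.MP_f11a48_ag.U.Tlg
import Pool.Agent.Lib.MP_f11a48_ag.U.Quasi
import Pool.Agent.Lib.MP_f11a48_ag.U.Tp

/-!
# MP_f11a48_ag, project U, module REL
-/

set_option autoImplicit false
set_option linter.unusedSectionVars false

open MvPolynomial Pool.Agent.Lib.MPf11a48.CM Filter Topology

namespace Pool.Agent.Lib.MPf11a48.U

namespace RelM

/-! ### Linear algebra -/

theorem exists_fam {V : Type} [AddCommGroup V] [Module ℂ V] [FiniteDimensional ℂ V]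
    {W : Submodule ℂ V} {s : Set V} (hs : Submodule.span ℂ s = W) :
    ∃ v : Fin (Module.finrank ℂ W) → V, (∀ j, v j ∈ s) ∧ LinearIndependent ℂ v ∧
      Submodule.span ℂ (Set.range v) = W := by
  obtain ⟨b, hbs, hspan, hli⟩ := exists_linearIndependent ℂ s
  have hfin : Finite b := hli.finite
  have := Fintype.ofFinite b
  have hcard : Fintype.card b = Module.finrank ℂ W := by
    rw [← hs, ← hspan]
    have := finrank_span_eq_card hli
    rw [Subtype.range_coe_subtype] at this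
    rw [← this]
    rfl
  let e : Fin (Module.finrank ℂ W) ≃ b := (Fintype.equivFinOfCardEq hcard).symm
  refine ⟨fun j => (e j : V), fun j => hbs (e j).2, hli.comp _ e.injective, ?_⟩
  have hr : Set.range (fun j => (e j : V)) = b := by
    ext x
    constructor
    · rintro ⟨j, rfl⟩
      exact (e j).2
    · intro hx
      exact ⟨e.symm ⟨x, hx⟩, by simp⟩
  rw [hr, hspan, hs]

theorem exists_Q {Z T : Type} [Fintype Z] [Fintype T] (W : Submodule ℂ (Z ⊕ T → ℂ))
    (h0 : ∀ w ∈ W, ∀ j, w (Sum.inl j) = 0) :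
    ∃ Q : Fin (Module.finrank ℂ W) → T, ∀ y : Fin (Module.finrank ℂ W) → ℂ,
      ∃ w ∈ W, ∀ k, w (Sum.inr (Q k)) = y k := by
  let ev : T → Module.Dual ℂ W := fun t =>
    (LinearMap.proj (Sum.inr t) : (Z ⊕ T → ℂ) →ₗ[ℂ] ℂ) ∘ₗ W.subtype
  have hev : ∀ t (w : W), ev t w = w.1 (Sum.inr t) := fun _ _ => rfl
  have htop : Submodule.span ℂ (Set.range ev) = ⊤ := by
    refine Submodule.span_eq_top_of_ne_zero ?_
    intro w hw
    by_contra hcon
    push Not at hcon
    apply hw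
    apply Subtype.ext
    funext j
    rcases j with j | t
    · exact h0 _ w.2 j
    · exact hcon (ev t) ⟨t, rfl⟩
  obtain ⟨v, hv, hli, hspan⟩ := exists_fam (V := Module.Dual ℂ W) (W := ⊤) htop
  have hcard : Module.finrank ℂ (⊤ : Submodule ℂ (Module.Dual ℂ W)) = Module.finrank ℂ W := by
    rw [finrank_top, Subspace.dual_finrank_eq]
  choose q hq using hv
  let L : W →ₗ[ℂ] (Fin (Module.finrank ℂ W) → ℂ) :=
    LinearMap.pi fun k => v (Fin.cast hcard.symm k)
  have hL : Function.Injective L := by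
    rw [← LinearMap.ker_eq_bot, LinearMap.ker_eq_bot']
    intro w hw
    have h1 : ∀ k, v k w = 0 := by
      intro k
      have := congrFun hw (Fin.cast hcard k)
      simpa [L] using this
    have h2 : ∀ f : Module.Dual ℂ W, f w = 0 := by
      intro f
      have hf : f ∈ Submodule.span ℂ (Set.range v) := by rw [hspan]; trivial
      refine Submodule.span_induction (p := fun f _ => f w = 0) ?_ ?_ ?_ ?_ hf
      · rintro _ ⟨k, rfl⟩
        exact h1 k
      · rfl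
      · intro a b _ _ ha hb
        rw [LinearMap.add_apply, ha, hb, add_zero]
      · intro t a _ ha
        rw [LinearMap.smul_apply, ha, smul_zero]
    apply Subtype.ext
    funext j
    rcases j with j | t
    · exact h0 _ w.2 j
    · exact h2 (ev t)
  have hsurj : Function.Surjective L :=
    (LinearMap.injective_iff_surjective_of_finrank_eq_finrank (by simp)).1 hL
  refine ⟨fun k => q (Fin.cast hcard.symm k), fun y => ?_⟩
  obtain ⟨w, hw⟩ := hsurj y
  refine ⟨w.1, w.2, fun k => ?_⟩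
  have h1 := congrFun hw k
  have h2 := hq (Fin.cast hcard.symm k)
  rw [← hev, h2]
  exact h1

/-! ### The functions on the universal vector extension -/

variable {Z T Θ Λ : Type}

/-- the `z`-coordinates -/
def zp : (Z ⊕ T → ℂ) →ₗ[ℂ] (Z → ℂ) := LinearMap.funLeft ℂ ℂ Sum.inl

theorem zp_apply (w : Z ⊕ T → ℂ) (j : Z) : zp w j = w (Sum.inl j) := rfl

/-- the common denominator -/
noncomputable def B₀ (D : TD Z T Θ Λ) (w : Z ⊕ T → ℂ) : ℂ := D.th D.o (zp w) ^ (D.m + 2)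

/-- the numerators -/
noncomputable def B (D : TD Z T Θ Λ) (i : Θ ⊕ T) (w : Z ⊕ T → ℂ) : ℂ :=
  Sum.elim (fun i => D.th i (zp w) * D.th D.o (zp w) ^ (D.m + 1))
    (fun t => w (Sum.inr t) * D.th D.o (zp w) ^ (D.m + 2) - D.Y t (zp w) * D.th D.o (zp w) ^ 2) i

/-- the functions -/
noncomputable def Fv (D : TD Z T Θ Λ) (w : Z ⊕ T → ℂ) (i : Θ ⊕ T) : ℂ :=
  Sum.elim (fun i => D.f i (zp w)) (fun t => w (Sum.inr t) - D.zt t (zp w)) i

theorem B_div (D : TD Z T Θ Λ) (w : Z ⊕ T → ℂ) (h : D.th D.o (zp w) ≠ 0) (i : Θ ⊕ T) :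
    B D i w / B₀ D w = Fv D w i := by
  rcases i with i | t
  · simp only [B, B₀, Fv, Sum.elim_inl, TD.f]
    field_simp
    ring
  · simp only [B, B₀, Fv, Sum.elim_inr, TD.zt]
    field_simp
    ring

theorem B_eq (D : TD Z T Θ Λ) (w : Z ⊕ T → ℂ) (i : Θ ⊕ T) :
    B D i w = if D.th D.o (zp w) = 0 then 0 else Fv D w i * B₀ D w := by
  split_ifs with h
  · rcases i with i | t
    · simp [B, h]
    · simp [B, h]
  · rw [← B_div D w h i, div_mul_cancel₀]
    exact pow_ne_zero _ h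

variable [Fintype Z] [Fintype T] [Fintype Θ] [Fintype Λ]

open Classical in
theorem B_period (D : TD Z T Θ Λ) (hD : D.Good) (x : Λ → ℤ) :
    ∃ e : (Z ⊕ T → ℂ) → ℂ, (∀ w, e w ≠ 0) ∧
      (∀ w, B₀ D (w + ∑ a, (x a : ℂ) • D.lam a) = e w * B₀ D w) ∧
      ∀ i w, B D i (w + ∑ a, (x a : ℂ) • D.lam a) = e w * B D i w := by
  obtain ⟨h1, h2, h3⟩ := Quasi.comb_mem D hD x
  simp only at h1 h2 h3
  have hz : ∀ w, zp (w + ∑ a, (x a : ℂ) • D.lam a) = zp w + ∑ a, (x a : ℂ) • D.lat a := by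
    intro w
    rw [map_add]
    congr 1
    funext j
    simp [zp_apply, Finset.sum_apply, TD.lam]
  have ht : ∀ w t, (w + ∑ a, (x a : ℂ) • D.lam a) (Sum.inr t) =
      w (Sum.inr t) + ∑ a, (x a : ℂ) * D.eta a t := by
    intro w t
    simp [Finset.sum_apply, TD.lam]
  refine ⟨fun w => if D.th D.o (zp w) = 0 then 1 else
    (D.th D.o (zp w + ∑ a, (x a : ℂ) • D.lat a) / D.th D.o (zp w)) ^ (D.m + 2), ?_, ?_, ?_⟩
  · intro w
    dsimp only
    split_ifs with h
    · exact one_ne_zero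
    · exact pow_ne_zero _ (div_ne_zero ((h1 (zp w)).2 h) h)
  · intro w
    dsimp only
    split_ifs with h
    · have h' : D.th D.o (zp w + ∑ a, (x a : ℂ) • D.lat a) = 0 := by
        by_contra hne
        exact (h1 (zp w)).1 hne h
      simp [B₀, hz, h, h']
    · simp only [B₀, hz, div_pow]
      rw [div_mul_cancel₀]
      exact pow_ne_zero _ h
  · intro i w
    dsimp only
    rw [B_eq, B_eq, hz]
    by_cases h : D.th D.o (zp w) = 0
    · have h' : D.th D.o (zp w + ∑ a, (x a : ℂ) • D.lat a) = 0 := by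
        by_contra hne
        exact (h1 (zp w)).1 hne h
      rw [if_pos h, if_pos h', if_pos h, mul_zero]
    · have h' := (h1 (zp w)).2 h
      rw [if_neg h, if_neg h', if_neg h]
      have hF : Fv D (w + ∑ a, (x a : ℂ) • D.lam a) i = Fv D w i := by
        rcases i with i | t
        · simp only [Fv, Sum.elim_inl, hz]
          exact h2 i _ h
        · simp only [Fv, Sum.elim_inr, hz, ht]
          rw [h3 t _ h]
          ring
      rw [hF]
      simp only [B₀, hz, div_pow]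
      have := pow_ne_zero (D.m + 2) h
      field_simp

/-! ### Growth and differentiability -/

omit [Fintype Z] [Fintype T] [Fintype Θ] [Fintype Λ] in
theorem diff_div {E : Type} [NormedAddCommGroup E] [NormedSpace ℂ E] {F G : E → ℂ} {z : E}
    (hF : DifferentiableAt ℂ F z) (hG : DifferentiableAt ℂ G z) (h : G z ≠ 0) :
    DifferentiableAt ℂ (fun w => F w / G w) z := by
  simp only [div_eq_mul_inv]
  exact hF.fun_mul (hG.fun_inv h)

section Compose

variable {E : Type} [NormedAddCommGroup E] [NormedSpace ℂ E] [FiniteDimensional ℂ E]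

omit [Fintype Λ] [Fintype Θ] in
theorem gr_comp {F : (Z → ℂ) → ℂ} (h : ∃ C : ℝ, ∀ z, ‖F z‖ ≤ Real.exp (C * (1 + ‖z‖ ^ 2)))
    (L : E →L[ℂ] (Z → ℂ)) : TlgM.Gr fun u => F (L u) := by
  obtain ⟨C, hC⟩ := h
  have hC0 : ∀ z, ‖F z‖ ≤ Real.exp (max C 0 * (1 + ‖z‖ ^ 2)) := fun z =>
    (hC z).trans (Real.exp_le_exp.2 (mul_le_mul_of_nonneg_right (le_max_left _ _) (by positivity)))
  refine ⟨max C 0 * (1 + ‖L‖ ^ 2), fun u => (hC0 _).trans (Real.exp_le_exp.2 ?_)⟩
  have h1 : ‖L u‖ ≤ ‖L‖ * ‖u‖ := L.le_opNorm u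
  have h2 : ‖L u‖ ^ 2 ≤ ‖L‖ ^ 2 * ‖u‖ ^ 2 := by
    rw [← mul_pow]
    exact pow_le_pow_left₀ (norm_nonneg _) h1 2
  have h3 : (0 : ℝ) ≤ max C 0 := le_max_right _ _
  have h4 : 1 + ‖L u‖ ^ 2 ≤ (1 + ‖L‖ ^ 2) * (1 + ‖u‖ ^ 2) := by
    nlinarith [sq_nonneg ‖L‖, sq_nonneg ‖u‖]
  calc max C 0 * (1 + ‖L u‖ ^ 2) ≤ max C 0 * ((1 + ‖L‖ ^ 2) * (1 + ‖u‖ ^ 2)) :=
        mul_le_mul_of_nonneg_left h4 h3
    _ = _ := by ring

theorem gr_lin (l : E →L[ℂ] ℂ) : TlgM.Gr fun u => l u := by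
  refine ⟨‖l‖, fun u => ?_⟩
  have h1 : ‖l u‖ ≤ ‖l‖ * ‖u‖ := l.le_opNorm u
  have h2 : ‖u‖ ≤ 1 + ‖u‖ ^ 2 := by nlinarith [sq_nonneg (‖u‖ - 1)]
  have h3 : ‖l‖ * (1 + ‖u‖ ^ 2) ≤ Real.exp (‖l‖ * (1 + ‖u‖ ^ 2)) := by
    have := Real.add_one_le_exp (‖l‖ * (1 + ‖u‖ ^ 2))
    linarith
  exact h1.trans ((mul_le_mul_of_nonneg_left h2 (norm_nonneg _)).trans h3)

theorem gr_B₀ (D : TD Z T Θ Λ) (hD : D.Good) (L : E →L[ℂ] (Z ⊕ T → ℂ)) :
    TlgM.Gr fun u => B₀ D (L u) := by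
  let Lz : E →L[ℂ] (Z → ℂ) := (LinearMap.toContinuousLinearMap zp).comp L
  obtain ⟨C, hC⟩ := hD.th_growth
  exact (gr_comp ⟨C, hC D.o⟩ Lz).pow _

theorem gr_B (D : TD Z T Θ Λ) (hD : D.Good) (L : E →L[ℂ] (Z ⊕ T → ℂ)) (i : Θ ⊕ T) :
    TlgM.Gr fun u => B D i (L u) := by
  let Lz : E →L[ℂ] (Z → ℂ) := (LinearMap.toContinuousLinearMap zp).comp L
  obtain ⟨C, hC⟩ := hD.th_growth
  obtain ⟨C', hC'⟩ := hD.Y_growth
  have ho := gr_comp ⟨C, hC D.o⟩ Lz
  rcases i with i | t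
  · exact (gr_comp ⟨C, hC i⟩ Lz).mul (ho.pow _)
  · have h1 := (gr_lin ((ContinuousLinearMap.proj (Sum.inr t) :
      (Z ⊕ T → ℂ) →L[ℂ] ℂ).comp L)).mul (ho.pow (D.m + 2))
    have h2 := ((TlgM.Gr.const (-1)).mul (gr_comp ⟨C', hC' t⟩ Lz)).mul (ho.pow 2)
    have h3 := h1.add h2
    have e : (fun u => B D (Sum.inr t) (L u)) = fun u =>
        ((ContinuousLinearMap.proj (Sum.inr t) : (Z ⊕ T → ℂ) →L[ℂ] ℂ).comp L) u *
          D.th D.o (Lz u) ^ (D.m + 2) + -1 * D.Y t (Lz u) * D.th D.o (Lz u) ^ 2 := by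
      funext u
      simp only [B, Sum.elim_inr]
      change L u (Sum.inr t) * D.th D.o (zp (L u)) ^ (D.m + 2) - D.Y t (zp (L u)) *
        D.th D.o (zp (L u)) ^ 2 = L u (Sum.inr t) * D.th D.o (zp (L u)) ^ (D.m + 2) +
        -1 * D.Y t (zp (L u)) * D.th D.o (zp (L u)) ^ 2
      ring
    rw [e]
    exact h3

theorem diff_B₀ (D : TD Z T Θ Λ) (hD : D.Good) (L : E →L[ℂ] (Z ⊕ T → ℂ)) :
    Differentiable ℂ fun u => B₀ D (L u) := by
  let Lz : E →L[ℂ] (Z → ℂ) := (LinearMap.toContinuousLinearMap zp).comp L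
  exact ((hD.th_diff D.o).comp Lz.differentiable).pow _

theorem diff_B (D : TD Z T Θ Λ) (hD : D.Good) (L : E →L[ℂ] (Z ⊕ T → ℂ)) (i : Θ ⊕ T) :
    Differentiable ℂ fun u => B D i (L u) := by
  let Lz : E →L[ℂ] (Z → ℂ) := (LinearMap.toContinuousLinearMap zp).comp L
  have ho := (hD.th_diff D.o).comp Lz.differentiable
  rcases i with i | t
  · exact ((hD.th_diff i).comp Lz.differentiable).mul (ho.pow _)
  · exact (((ContinuousLinearMap.proj (Sum.inr t) :
      (Z ⊕ T → ℂ) →L[ℂ] ℂ).comp L).differentiable.mul (ho.pow (D.m + 2))).sub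
      (((hD.Y_diff t).comp Lz.differentiable).mul (ho.pow 2))

/-- derivatives of the functions -/
theorem deriv_B (D : TD Z T Θ Λ) (hD : D.Good) (L : E →L[ℂ] (Z ⊕ T → ℂ)) (i : Θ ⊕ T) (v : E)
    (hv : ∀ j, L v j ∈ Qbar) :
    ∃ p : MvPolynomial (Θ ⊕ T) Qbar, ∀ u, B₀ D (L u) ≠ 0 →
      fderiv ℂ (fun w => B D i (L w) / B₀ D (L w)) u v = aeval (Fv D (L u)) p := by
  let Lz : E →L[ℂ] (Z → ℂ) := (LinearMap.toContinuousLinearMap zp).comp L
  have hne : ∀ u, B₀ D (L u) ≠ 0 → D.th D.o (Lz u) ≠ 0 := fun u hu h0 => hu (by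
    change D.th D.o (zp (L u)) ^ (D.m + 2) = 0
    change D.th D.o (zp (L u)) = 0 at h0
    rw [h0]
    exact zero_pow (by omega))
  have hopen : ∀ u, B₀ D (L u) ≠ 0 → ∀ᶠ w in 𝓝 u, D.th D.o (Lz w) ≠ 0 := fun u hu =>
    ((hD.th_diff D.o).continuous.comp Lz.continuous).continuousAt.eventually_ne (hne u hu)
  have hev : ∀ u, B₀ D (L u) ≠ 0 →
      (fun w => B D i (L w) / B₀ D (L w)) =ᶠ[𝓝 u] fun w => Fv D (L w) i := fun u hu =>
    (hopen u hu).mono fun w hw => B_div D (L w) hw i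
  rcases i with i | t
  · obtain ⟨p, hp⟩ := hD.f_deriv i (Lz v) (fun j => hv (Sum.inl j))
    refine ⟨rename Sum.inl p, fun u hu => ?_⟩
    rw [(hev u hu).fderiv_eq, aeval_rename]
    have hd : DifferentiableAt ℂ (D.f i) (Lz u) :=
      diff_div (hD.th_diff i _) (hD.th_diff D.o _) (hne u hu)
    have h1 : HasFDerivAt (fun w => D.f i (Lz w)) ((fderiv ℂ (D.f i) (Lz u)).comp Lz) u :=
      hd.hasFDerivAt.comp u Lz.hasFDerivAt
    have h2 : (fun w => Fv D (L w) (Sum.inl i)) = fun w => D.f i (Lz w) := rfl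
    rw [h2, h1.fderiv]
    exact hp (Lz u) (hne u hu)
  · obtain ⟨p, hp⟩ := hD.zt_deriv t (Lz v) (fun j => hv (Sum.inl j))
    refine ⟨C ⟨L v (Sum.inr t), hv _⟩ - rename Sum.inl p, fun u hu => ?_⟩
    rw [(hev u hu).fderiv_eq, map_sub, aeval_C, aeval_rename]
    have hd : DifferentiableAt ℂ (D.zt t) (Lz u) :=
      diff_div (hD.Y_diff t _) ((hD.th_diff D.o _).fun_pow _) (pow_ne_zero _ (hne u hu))
    have h1 : HasFDerivAt (fun w => D.zt t (Lz w)) ((fderiv ℂ (D.zt t) (Lz u)).comp Lz) u :=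
      hd.hasFDerivAt.comp u Lz.hasFDerivAt
    have h3 : HasFDerivAt (fun w => L w (Sum.inr t))
        ((ContinuousLinearMap.proj (Sum.inr t) : (Z ⊕ T → ℂ) →L[ℂ] ℂ).comp L) u :=
      ((ContinuousLinearMap.proj (Sum.inr t) : (Z ⊕ T → ℂ) →L[ℂ] ℂ).comp L).hasFDerivAt
    have h2 : (fun w => Fv D (L w) (Sum.inr t)) =
        fun w => L w (Sum.inr t) - D.zt t (Lz w) := rfl
    rw [h2, (h3.fun_sub h1).fderiv]
    change L v (Sum.inr t) - fderiv ℂ (D.zt t) (Lz u) (Lz v) = _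
    rw [hp (Lz u) (hne u hu)]
    rfl

end Compose

/-! ### The periodic functions on `W` -/

omit [Fintype Z] [Fintype T] [Fintype Θ] in
theorem span_lattice (D : TD Z T Θ Λ) (R : Submodule ℚ (Λ → ℚ)) :
    Submodule.span ℂ {w | w ∈ D.Wof R ∧ ∃ x : Λ → ℤ, w = ∑ a, (x a : ℂ) • D.lam a} = D.Wof R := by
  refine le_antisymm (Submodule.span_le.2 fun w hw => hw.1) ?_
  refine Submodule.span_le.2 ?_
  rintro _ ⟨x, hx, rfl⟩
  let N : ℕ := ∏ a, (x a).den
  have hN : N ≠ 0 := Finset.prod_ne_zero_iff.2 fun a _ => (x a).den_nz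
  have hint : ∀ a, ∃ n : ℤ, (n : ℚ) = N * x a := by
    intro a
    obtain ⟨k, hk⟩ : (x a).den ∣ N := Finset.dvd_prod_of_mem _ (Finset.mem_univ a)
    refine ⟨k * (x a).num, ?_⟩
    have h1 : ((x a).den : ℚ) * x a = (x a).num := Rat.den_mul_eq_num (x a)
    rw [hk]
    push_cast
    rw [← h1]
    ring
  choose n hn using hint
  have hmem : (∑ a, (n a : ℂ) • D.lam a) ∈ D.Wof R := by
    refine Submodule.subset_span ⟨(N : ℚ) • x, R.smul_mem _ hx, ?_⟩
    refine Finset.sum_congr rfl fun a _ => ?_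
    congr 1
    rw [Pi.smul_apply, smul_eq_mul, ← hn a]
    simp
  have h2 : (∑ a, ((x a : ℚ) : ℂ) • D.lam a) = (N : ℂ)⁻¹ • ∑ a, (n a : ℂ) • D.lam a := by
    rw [Finset.smul_sum]
    refine Finset.sum_congr rfl fun a _ => ?_
    rw [smul_smul]
    congr 1
    have h3 := congrArg (fun q : ℚ => (q : ℂ)) (hn a)
    push_cast at h3
    rw [h3, inv_mul_cancel_left₀]
    exact_mod_cast hN
  rw [SetLike.mem_coe, h2]
  exact Submodule.smul_mem _ _ (Submodule.subset_span ⟨hmem, n, rfl⟩)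

theorem eval_sum {σ E : Type} (y : σ → ℂ) (g : E → ℂ) (P : MvPolynomial (σ ⊕ E) Qbar) :
    aeval (Sum.elim y g) P =
      eval y (MvPolynomial.map (aeval g : MvPolynomial E Qbar →ₐ[Qbar] ℂ).toRingHom
        (sumAlgEquiv Qbar σ E P)) := by
  let f₁ : MvPolynomial (σ ⊕ E) Qbar →+* ℂ := (aeval (Sum.elim y g) :
    MvPolynomial (σ ⊕ E) Qbar →ₐ[Qbar] ℂ).toRingHom
  let f₂ : MvPolynomial (σ ⊕ E) Qbar →+* ℂ := ((eval y).comp
    (MvPolynomial.map (aeval g : MvPolynomial E Qbar →ₐ[Qbar] ℂ).toRingHom)).comp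
    (sumAlgEquiv Qbar σ E).toRingEquiv.toRingHom
  have h : f₁ = f₂ := by
    refine MvPolynomial.ringHom_ext (fun a => ?_) (fun i => ?_)
    · simp [f₁, f₂]
    · rcases i with i | i
      · simp [f₁, f₂]
      · simp [f₁, f₂]
  exact congrArg (fun f => f P) h

theorem core (hTLG : SpecTLG) (D : TD Z T Θ Λ) (hD : D.Good) (R : Submodule ℚ (Λ → ℚ))
    (hW : DefQbar (D.Wof R)) (E : Type) [Fintype E]
    (hE : Fintype.card E = Module.finrank ℂ ((D.Wof R).map zp) + 1)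
    (G : E → MvPolynomial (Θ ⊕ T) Qbar) (g : E → (Z → ℂ) → ℂ)
    (hg : ∀ w ∈ D.Wof R, D.th D.o (zp w) ≠ 0 → ∀ e, aeval (Fv D w) (G e) = g e (zp w)) :
    ∃ P : MvPolynomial E Qbar, P ≠ 0 ∧
      ∀ z ∈ (D.Wof R).map zp, D.th D.o z ≠ 0 → aeval (fun e => g e z) P = 0 := by
  classical
  obtain ⟨r, hr⟩ : ∃ r, Module.finrank ℂ (D.Wof R) = r := ⟨_, rfl⟩
  obtain ⟨v, hvs, hvi, hvspan⟩ : ∃ v : Fin r → (Z ⊕ T → ℂ), (∀ j, v j ∈ {w | w ∈ D.Wof R ∧
      ∀ j, w j ∈ Qbar}) ∧ LinearIndependent ℂ v ∧ Submodule.span ℂ (Set.range v) = D.Wof R := by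
    rw [← hr]
    exact exists_fam (W := D.Wof R) hW.symm
  obtain ⟨l, hls, hli, hlspan⟩ : ∃ v : Fin r → (Z ⊕ T → ℂ), (∀ j, v j ∈ {w | w ∈ D.Wof R ∧
      ∃ x : Λ → ℤ, w = ∑ a, (x a : ℂ) • D.lam a}) ∧ LinearIndependent ℂ v ∧
      Submodule.span ℂ (Set.range v) = D.Wof R := by
    rw [← hr]
    exact exists_fam (W := D.Wof R) (span_lattice D R)
  let φ : (Fin r → ℂ) →ₗ[ℂ] (Z ⊕ T → ℂ) := Fintype.linearCombination ℂ v
  have hφ : ∀ u, φ u = ∑ j, u j • v j := fun u => Fintype.linearCombination_apply ℂ v u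
  have hφrange : LinearMap.range φ = D.Wof R := by
    rw [← hvspan]
    exact Fintype.range_linearCombination ℂ v
  let L : (Fin r → ℂ) →L[ℂ] (Z ⊕ T → ℂ) := LinearMap.toContinuousLinearMap φ
  have hL : ∀ u, L u = φ u := fun _ => rfl
  have hLsingle : ∀ j, L (Pi.single j 1) = v j := by
    intro j
    rw [hL, hφ]
    simp [Pi.single_apply]
  choose lam' hlam' using fun j => (hφrange ▸ (hls j).1 : l j ∈ LinearMap.range φ)
  choose x hx using fun j => (hls j).2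
  -- the periodic data
  have hper : PerData (fun u => B₀ D (L u)) (fun i u => B D i (L u)) lam'
      (fun j => Pi.single j 1) := by
    refine ⟨diff_B₀ D hD L, diff_B D hD L, gr_B₀ D hD L, ?_, ?_, ?_, ?_, ?_, ?_, ?_⟩
    · obtain ⟨C, hC⟩ := TlgM.Gr.unif (gr_B D hD L)
      exact ⟨C, hC⟩
    · simp only [map_zero, B₀]
      exact pow_ne_zero _ hD.th_zero
    · refine LinearIndependent.of_comp φ ?_
      have : (φ ∘ lam') = l := funext hlam'
      rw [this]
      exact hli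
    · have h := (Pi.basisFun ℂ (Fin r)).linearIndependent
      have h2 : (⇑(Pi.basisFun ℂ (Fin r)) : Fin r → (Fin r → ℂ)) = fun j => Pi.single j 1 :=
        funext fun j => Pi.basisFun_apply ℂ (Fin r) j
      rw [h2] at h
      exact h
    · intro j
      obtain ⟨e, he, h0, h1⟩ := B_period D hD (x j)
      refine ⟨fun u => e (L u), fun u => he _, fun u => ?_, fun i u => ?_⟩
      · simp only [map_add]
        rw [hL (lam' j), hlam', hx]
        exact h0 _
      · simp only [map_add]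
        rw [hL (lam' j), hlam', hx]
        exact h1 _ _
    · intro i
      have h0 : D.th D.o (zp (L 0)) ≠ 0 := by rw [map_zero, map_zero]; exact hD.th_zero
      rw [B_div D (L 0) h0]
      rcases i with i | t
      · simp only [Fv, Sum.elim_inl, map_zero]
        exact hD.f_value i
      · simp only [Fv, Sum.elim_inr, map_zero, Pi.zero_apply, zero_sub]
        exact Qbar.neg_mem (hD.zt_value t)
    · intro i j
      obtain ⟨p, hp⟩ := deriv_B D hD L i (Pi.single j 1) (fun k => by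
        rw [hLsingle]; exact (hvs j).2 k)
      refine ⟨p, fun u hu => ?_⟩
      rw [hp u hu]
      congr 2
      funext k
      refine (B_div D (L u) ?_ k).symm
      intro h0
      apply hu
      simp only [B₀, h0]
      exact zero_pow (by omega)
  -- coordinates on the kernel
  let W₀ : Submodule ℂ (Z ⊕ T → ℂ) := D.Wof R ⊓ LinearMap.ker zp
  have hfin : r = Module.finrank ℂ ((D.Wof R).map zp) + Module.finrank ℂ W₀ := by
    have h1 := LinearMap.finrank_range_add_finrank_ker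
      ((zp : (Z ⊕ T → ℂ) →ₗ[ℂ] (Z → ℂ)).domRestrict (D.Wof R))
    rw [LinearMap.range_domRestrict] at h1
    have h2 : W₀ = (LinearMap.ker ((zp : (Z ⊕ T → ℂ) →ₗ[ℂ] (Z → ℂ)).domRestrict
        (D.Wof R))).map (D.Wof R).subtype := by
      ext w
      constructor
      · rintro ⟨hw1, hw2⟩
        exact ⟨⟨w, hw1⟩, hw2, rfl⟩
      · rintro ⟨w', hw', rfl⟩
        exact ⟨w'.2, hw'⟩
    rw [← hr, ← h1, h2, Submodule.finrank_map_subtype_eq]
  obtain ⟨Q, hQ⟩ := exists_Q W₀ (fun w hw j => congrFun hw.2 j)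
  obtain ⟨q, hq⟩ : ∃ q, Module.finrank ℂ W₀ = q := ⟨_, rfl⟩
  -- the relation
  have hcard : Fintype.card (Fin (r + 1)) =
      Fintype.card (Fin (Module.finrank ℂ W₀) ⊕ E) := by
    rw [Fintype.card_sum, Fintype.card_fin, Fintype.card_fin, hE, hfin]
    ring
  let ε : Fin (r + 1) ≃ Fin (Module.finrank ℂ W₀) ⊕ E := Fintype.equivOfCardEq hcard
  obtain ⟨P, hP0, hP⟩ := hTLG r (Θ ⊕ T) _ _ _ _ hper
    (fun k => Sum.elim (fun k => X (Sum.inr (Q k))) G (ε k))
  let P₂ := sumAlgEquiv Qbar (Fin (Module.finrank ℂ W₀)) E (rename ε P)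
  have hP₂ : P₂ ≠ 0 := by
    intro h0
    apply hP0
    have h1 : rename ε P = 0 := by
      apply (sumAlgEquiv Qbar (Fin (Module.finrank ℂ W₀)) E).injective
      rw [map_zero]
      exact h0
    exact rename_injective _ ε.injective (h1.trans (map_zero _).symm)
  obtain ⟨α, hα⟩ := exists_coeff_ne_zero hP₂
  refine ⟨coeff α P₂, hα, ?_⟩
  rintro z ⟨w₁, hw₁, rfl⟩ hz
  have hzero : MvPolynomial.map (aeval (fun e => g e (zp w₁)) :
      MvPolynomial E Qbar →ₐ[Qbar] ℂ).toRingHom P₂ = 0 := by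
    refine MvPolynomial.funext fun y => ?_
    rw [map_zero, ← eval_sum, aeval_rename]
    -- choose a point of `W` above `z` with given coordinates
    obtain ⟨w₀, hw₀, hy⟩ := hQ (fun k => y k + D.zt (Q k) (zp w₁) - w₁ (Sum.inr (Q k)))
    have hw : w₁ + w₀ ∈ D.Wof R := (D.Wof R).add_mem hw₁ hw₀.1
    have hzw : zp (w₁ + w₀) = zp w₁ := by
      have h0 : zp w₀ = 0 := hw₀.2
      rw [map_add, h0, add_zero]
    obtain ⟨u, hu⟩ : w₁ + w₀ ∈ LinearMap.range φ := hφrange ▸ hw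
    have hth : D.th D.o (zp (L u)) ≠ 0 := by
      rw [hL, hu, hzw]; exact hz
    have hB0 : B₀ D (L u) ≠ 0 := pow_ne_zero _ hth
    have h1 := hP u hB0
    have h2 : (fun i => B D i (L u) / B₀ D (L u)) = Fv D (w₁ + w₀) := by
      funext i
      rw [B_div D (L u) hth, hL, hu]
    simp only [h2] at h1
    rw [← h1]
    congr 2
    funext k
    rw [Function.comp_apply]
    rcases ε k with k' | e
    · simp only [Sum.elim_inl, aeval_X]
      simp only [Fv, Sum.elim_inr, hzw, Pi.add_apply, hy]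
      ring
    · simp only [Sum.elim_inr]
      rw [hg _ hw (by rw [hzw]; exact hz) e, hzw]
  have := congrArg (coeff α) hzero
  rw [coeff_map, coeff_zero] at this
  exact this

end RelM

open RelM

theorem specREL (hTLG : SpecTLG) : SpecREL := by
  intro Z T Θ Λ _ _ _ _ D hD R hW U hU
  classical
  have hU' : (D.Wof R).map zp = U := hU.symm
  refine ⟨fun s => ?_, fun s c hc ℓ hℓ => ?_⟩
  · obtain ⟨P, hP, h⟩ := core hTLG D hD R hW (Fin (Module.finrank ℂ U + 1))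
      (by rw [hU', Fintype.card_fin]) (fun k => X (Sum.inl (s k))) (fun k z => D.f (s k) z)
      (fun w _ _ k => by rw [aeval_X]; rfl)
    exact ⟨P, hP, fun z hz h0 => h z (hU' ▸ hz) h0⟩
  · obtain ⟨P, hP, h⟩ := core hTLG D hD R hW (Option (Fin (Module.finrank ℂ U)))
      (by rw [hU', Fintype.card_option, Fintype.card_fin])
      (fun k => Option.elim k (-∑ t, C ⟨c t, hc t⟩ * X (Sum.inr t)) fun k => X (Sum.inl (s k)))
      (fun k z => Option.elim k (∑ t, c t * D.zt t z - ℓ z) fun k => D.f (s k) z)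
      (fun w hw _ k => by
        rcases k with _ | k
        · simp only [Option.elim_none, map_neg, map_sum, map_mul, aeval_C, aeval_X]
          have h1 := hℓ w hw
          have h2 : ∀ t, (algebraMap Qbar ℂ) ⟨c t, hc t⟩ = c t := fun _ => rfl
          simp only [h2, Fv, Sum.elim_inr]
          have h3 : ℓ (zp w) = ∑ t, c t * w (Sum.inr t) := h1.symm
          rw [h3, ← Finset.sum_neg_distrib, ← Finset.sum_sub_distrib]
          refine Finset.sum_congr rfl fun t _ => ?_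
          ring
        · simp only [Option.elim_some, aeval_X]
          rfl)
    exact ⟨P, hP, fun z hz h0 => h z (hU' ▸ hz) h0⟩

end Pool.Agent.Lib.MPf11a48.U
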