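import Pool.Agent.Lib.MP_f11a48_ag.U.Spec

/-!
# Module TLG: from the functions `F_i` to polynomials in the `F_i`
-/

set_option autoImplicit false
set_option linter.unusedSectionVars false

open MvPolynomial Pool.Agent.Lib.MPf11a48.CM Filter Topology

namespace Pool.Agent.Lib.MPf11a48.U

namespace TlgM

/-! ### Growth -/

section Gr

variable {E : Type*} [NormedAddCommGroup E]

/-- growth of order two -/
def Gr (B : E → ℂ) : Prop := ∃ C : ℝ, ∀ z, ‖B z‖ ≤ Real.exp (C * (1 + ‖z‖ ^ 2))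

theorem Gr.exists_nonneg {B : E → ℂ} (h : Gr B) :
    ∃ C : ℝ, 0 ≤ C ∧ ∀ z, ‖B z‖ ≤ Real.exp (C * (1 + ‖z‖ ^ 2)) := by
  obtain ⟨C, hC⟩ := h
  refine ⟨max C 0, le_max_right _ _, fun z => (hC z).trans (Real.exp_le_exp.2 ?_)⟩
  exact mul_le_mul_of_nonneg_right (le_max_left _ _) (by positivity)

theorem Gr.const (c : ℂ) : Gr (fun _ : E => c) := by
  refine ⟨‖c‖, fun z => ?_⟩
  have h1 : ‖c‖ ≤ Real.exp ‖c‖ := by
    have := Real.add_one_le_exp ‖c‖
    linarith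
  refine h1.trans (Real.exp_le_exp.2 ?_)
  have h2 : 0 ≤ ‖c‖ := norm_nonneg c
  nlinarith [mul_nonneg h2 (sq_nonneg ‖z‖)]

theorem Gr.mul {B B' : E → ℂ} (h : Gr B) (h' : Gr B') : Gr (fun z => B z * B' z) := by
  obtain ⟨C, hC⟩ := h
  obtain ⟨C', hC'⟩ := h'
  refine ⟨C + C', fun z => ?_⟩
  rw [norm_mul, add_mul, Real.exp_add]
  exact mul_le_mul (hC z) (hC' z) (norm_nonneg _) (Real.exp_pos _).le

theorem Gr.pow {B : E → ℂ} (h : Gr B) (m : ℕ) : Gr (fun z => B z ^ m) := by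
  induction m with
  | zero => simpa using Gr.const (E := E) 1
  | succ m ih =>
    simp only [pow_succ]
    exact ih.mul h

theorem Gr.add {B B' : E → ℂ} (h : Gr B) (h' : Gr B') : Gr (fun z => B z + B' z) := by
  obtain ⟨C, hC0, hC⟩ := h.exists_nonneg
  obtain ⟨C', hC0', hC'⟩ := h'.exists_nonneg
  refine ⟨C + C' + 1, fun z => ?_⟩
  have hX : 1 ≤ 1 + ‖z‖ ^ 2 := by nlinarith [sq_nonneg ‖z‖]
  have h1 : Real.exp (C * (1 + ‖z‖ ^ 2)) ≤ Real.exp ((C + C') * (1 + ‖z‖ ^ 2)) :=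
    Real.exp_le_exp.2 (mul_le_mul_of_nonneg_right (by linarith) (by linarith))
  have h2 : Real.exp (C' * (1 + ‖z‖ ^ 2)) ≤ Real.exp ((C + C') * (1 + ‖z‖ ^ 2)) :=
    Real.exp_le_exp.2 (mul_le_mul_of_nonneg_right (by linarith) (by linarith))
  have h3 : (2 : ℝ) ≤ Real.exp (1 + ‖z‖ ^ 2) := by
    have := Real.add_one_le_exp (1 + ‖z‖ ^ 2)
    linarith
  have h4 : Real.exp ((C + C' + 1) * (1 + ‖z‖ ^ 2)) =
      Real.exp ((C + C') * (1 + ‖z‖ ^ 2)) * Real.exp (1 + ‖z‖ ^ 2) := by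
    rw [← Real.exp_add]
    ring_nf
  rw [h4]
  have h5 : 0 < Real.exp ((C + C') * (1 + ‖z‖ ^ 2)) := Real.exp_pos _
  calc ‖B z + B' z‖ ≤ ‖B z‖ + ‖B' z‖ := norm_add_le _ _
    _ ≤ Real.exp ((C + C') * (1 + ‖z‖ ^ 2)) * 2 := by linarith [hC z, hC' z]
    _ ≤ _ := mul_le_mul_of_nonneg_left h3 h5.le

theorem Gr.unif {K : Type*} [Fintype K] {B : K → E → ℂ} (h : ∀ k, Gr (B k)) :
    ∃ C : ℝ, ∀ k z, ‖B k z‖ ≤ Real.exp (C * (1 + ‖z‖ ^ 2)) := by
  choose C hC0 hC using fun k => (h k).exists_nonneg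
  refine ⟨∑ k, C k, fun k z => (hC k z).trans (Real.exp_le_exp.2 ?_)⟩
  exact mul_le_mul_of_nonneg_right (Finset.single_le_sum (fun i _ => hC0 i) (Finset.mem_univ k))
    (by positivity)

end Gr

variable {ρ I : Type} [Fintype ρ] [Fintype I] {A₀ : (ρ → ℂ) → ℂ} {A : I → (ρ → ℂ) → ℂ}
  {lam v : ρ → (ρ → ℂ)}

/-! ### Derivatives of polynomial expressions -/

theorem exists_deriv {S : Set (ρ → ℂ)} {F : I → (ρ → ℂ) → ℂ} {u : ρ → ℂ}
    (hd : ∀ i, ∀ z ∈ S, DifferentiableAt ℂ (F i) z)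
    (hp : ∀ i, ∃ p : MvPolynomial I Qbar, ∀ z ∈ S, fderiv ℂ (F i) z u = aeval (fun k => F k z) p)
    (G : MvPolynomial I Qbar) :
    (∀ z ∈ S, DifferentiableAt ℂ (fun w => aeval (fun k => F k w) G) z) ∧
      ∃ q : MvPolynomial I Qbar, ∀ z ∈ S,
        fderiv ℂ (fun w => aeval (fun k => F k w) G) z u = aeval (fun k => F k z) q := by
  induction G using MvPolynomial.induction_on with
  | C a =>
    simp only [aeval_C]
    refine ⟨fun z _ => differentiableAt_const _, 0, fun z _ => ?_⟩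
    simp
  | add p q hp hq =>
    obtain ⟨hp1, p', hp2⟩ := hp
    obtain ⟨hq1, q', hq2⟩ := hq
    simp only [map_add]
    refine ⟨fun z hz => (hp1 z hz).add (hq1 z hz), p' + q', fun z hz => ?_⟩
    rw [fderiv_fun_add (hp1 z hz) (hq1 z hz), map_add, add_apply, hp2 z hz,
      hq2 z hz]
  | mul_X q i hq =>
    obtain ⟨hq1, q', hq2⟩ := hq
    obtain ⟨p, hp⟩ := hp i
    simp only [map_mul, aeval_X]
    refine ⟨fun z hz => (hq1 z hz).mul (hd i z hz), q * p + X i * q', fun z hz => ?_⟩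
    rw [fderiv_fun_mul (hq1 z hz) (hd i z hz)]
    simp only [add_apply, smul_apply, smul_eq_mul,
      map_add, map_mul, aeval_X, hp z hz, hq2 z hz]

/-! ### Entire numerators of polynomial expressions -/

/-- `B` is a numerator of `G(A_i / A_0)` over the denominator `A_0 ^ m`. -/
structure Rep (A₀ : (ρ → ℂ) → ℂ) (A : I → (ρ → ℂ) → ℂ) (lam : ρ → (ρ → ℂ))
    (e : ρ → (ρ → ℂ) → ℂ) (G : MvPolynomial I Qbar) (m : ℕ) (B : (ρ → ℂ) → ℂ) : Prop where
  diff : Differentiable ℂ B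
  gr : Gr B
  period : ∀ j z, B (z + lam j) = e j z ^ m * B z
  val : ∀ z, A₀ z ≠ 0 → B z = A₀ z ^ m * aeval (fun i => A i z / A₀ z) G

theorem exists_rep (h : PerData A₀ A lam v) {e : ρ → (ρ → ℂ) → ℂ}
    (he0 : ∀ j z, A₀ (z + lam j) = e j z * A₀ z)
    (he : ∀ j i z, A i (z + lam j) = e j z * A i z) (G : MvPolynomial I Qbar) :
    ∃ m₀ : ℕ, ∀ m, m₀ ≤ m → ∃ B, Rep A₀ A lam e G m B := by
  have hg0 : Gr A₀ := h.growth₀
  have hg : ∀ i, Gr (A i) := fun i => by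
    obtain ⟨C, hC⟩ := h.growth
    exact ⟨C, hC i⟩
  induction G using MvPolynomial.induction_on with
  | C a =>
    refine ⟨0, fun m _ => ⟨fun z => (a : ℂ) * A₀ z ^ m, (h.diff₀.pow m).const_mul _,
      (Gr.const _).mul (hg0.pow m), fun j z => ?_, fun z _ => ?_⟩⟩
    · simp only [he0, mul_pow]
      ring
    · rw [aeval_C, mul_comm]
      rfl
  | add p q hp hq =>
    obtain ⟨m₁, h1⟩ := hp
    obtain ⟨m₂, h2⟩ := hq
    refine ⟨max m₁ m₂, fun m hm => ?_⟩
    obtain ⟨B, hB⟩ := h1 m ((le_max_left _ _).trans hm)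
    obtain ⟨B', hB'⟩ := h2 m ((le_max_right _ _).trans hm)
    refine ⟨fun z => B z + B' z, hB.diff.add hB'.diff, hB.gr.add hB'.gr, fun j z => ?_,
      fun z hz => ?_⟩
    · simp only [hB.period, hB'.period]
      ring
    · simp only [hB.val z hz, hB'.val z hz, map_add]
      ring
  | mul_X q i hq =>
    obtain ⟨m₁, h1⟩ := hq
    refine ⟨m₁ + 1, fun m hm => ?_⟩
    obtain ⟨m', rfl⟩ : ∃ m', m = m' + 1 := ⟨m - 1, by omega⟩
    obtain ⟨B, hB⟩ := h1 m' (by omega)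
    refine ⟨fun z => B z * A i z, hB.diff.mul (h.diff i), hB.gr.mul (hg i), fun j z => ?_,
      fun z hz => ?_⟩
    · simp only [hB.period, he]
      ring
    · simp only [hB.val z hz, map_mul, aeval_X]
      field_simp
      ring

theorem aeval_mem {x : I → ℂ} (hx : ∀ i, x i ∈ Qbar) (G : MvPolynomial I Qbar) :
    aeval x G ∈ Qbar := by
  induction G using MvPolynomial.induction_on with
  | C a => rw [aeval_C]; exact a.2
  | add p q hp hq => rw [map_add]; exact add_mem hp hq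
  | mul_X q i hq => rw [map_mul, aeval_X]; exact mul_mem hq (hx i)

/-- Data for polynomials in the `F_i`. -/
theorem exists_perData {K : Type} [Fintype K] (h : PerData A₀ A lam v)
    (G : K → MvPolynomial I Qbar) : ∃ (B₀ : (ρ → ℂ) → ℂ) (B : I ⊕ K → (ρ → ℂ) → ℂ),
      PerData B₀ B lam v ∧ (∀ z, A₀ z ≠ 0 → B₀ z ≠ 0) ∧
      (∀ i z, A₀ z ≠ 0 → B (Sum.inl i) z / B₀ z = A i z / A₀ z) ∧
      ∀ k z, A₀ z ≠ 0 → B (Sum.inr k) z / B₀ z = aeval (fun i => A i z / A₀ z) (G k) := by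
  have hg0 : Gr A₀ := h.growth₀
  have hg : ∀ i, Gr (A i) := fun i => by
    obtain ⟨C, hC⟩ := h.growth
    exact ⟨C, hC i⟩
  choose e hene he0 he using h.period
  choose m₀ hm₀ using fun k => exists_rep h he0 he (G k)
  set m : ℕ := ∑ k, m₀ k with hm
  have hmk : ∀ k, m₀ k ≤ m + 1 := fun k =>
    (Finset.single_le_sum (fun i _ => Nat.zero_le _) (Finset.mem_univ k)).trans (Nat.le_succ _)
  choose N hN using fun k => hm₀ k (m + 1) (hmk k)
  set B₀ : (ρ → ℂ) → ℂ := fun z => A₀ z ^ (m + 1) with hB₀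
  set B : I ⊕ K → (ρ → ℂ) → ℂ := Sum.elim (fun i z => A i z * A₀ z ^ m) N with hB
  have hne : ∀ z, A₀ z ≠ 0 → B₀ z ≠ 0 := fun z hz => pow_ne_zero _ hz
  have hl : ∀ i z, A₀ z ≠ 0 → B (Sum.inl i) z / B₀ z = A i z / A₀ z := by
    intro i z hz
    simp only [hB, hB₀, Sum.elim_inl]
    rw [pow_succ]
    field_simp
  have hr : ∀ k z, A₀ z ≠ 0 → B (Sum.inr k) z / B₀ z = aeval (fun i => A i z / A₀ z) (G k) := by
    intro k z hz
    simp only [hB, hB₀, Sum.elim_inr]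
    rw [(hN k).val z hz]
    field_simp
  have hopen : IsOpen {z | A₀ z ≠ 0} := isOpen_ne_fun h.diff₀.continuous continuous_const
  have hFd : ∀ i, ∀ z ∈ {z | A₀ z ≠ 0}, DifferentiableAt ℂ (fun w => A i w / A₀ w) z :=
    fun i z hz => by
      simp only [div_eq_mul_inv]
      exact ((h.diff i) z).mul ((h.diff₀ z).inv hz)
  refine ⟨B₀, B, ⟨h.diff₀.pow _, ?_, hg0.pow _, ?_, hne 0 h.zero, h.lam_indep, h.v_indep, ?_,
    ?_, ?_⟩, hne, hl, hr⟩
  · rintro (i | k)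
    · exact (h.diff i).mul (h.diff₀.pow m)
    · exact (hN k).diff
  · refine Gr.unif fun k => ?_
    rcases k with i | k
    · exact (hg i).mul (hg0.pow m)
    · exact (hN k).gr
  · intro j
    refine ⟨fun z => e j z ^ (m + 1), fun z => pow_ne_zero _ (hene j z), fun z => ?_, ?_⟩
    · simp only [hB₀, he0, mul_pow]
    · rintro (i | k) z
      · simp only [hB, Sum.elim_inl, he0, he, mul_pow]
        ring
      · exact (hN k).period j z
  · rintro (i | k)
    · rw [hl i 0 h.zero]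
      exact h.value i
    · rw [hr k 0 h.zero]
      exact aeval_mem (fun i => h.value i) _
  · have hren : ∀ (p : MvPolynomial I Qbar) (z : ρ → ℂ), A₀ z ≠ 0 →
        aeval (fun k => B k z / B₀ z) (rename (Sum.inl : I → I ⊕ K) p) =
          aeval (fun i => A i z / A₀ z) p := by
      intro p z hz
      rw [aeval_rename]
      congr 1
      congr 1
      funext i
      exact hl i z hz
    have hB0' : ∀ z, B₀ z ≠ 0 → A₀ z ≠ 0 := fun z hz hc => hz (by simp [hB₀, hc])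
    rintro (i | k) j
    · obtain ⟨p, hp⟩ := h.deriv i j
      refine ⟨rename Sum.inl p, fun z hz => ?_⟩
      have hz' := hB0' z hz
      rw [hren p z hz', ← hp z hz']
      have : (fun w => B (Sum.inl i) w / B₀ w) =ᶠ[𝓝 z] fun w => A i w / A₀ w := by
        filter_upwards [hopen.mem_nhds hz'] with w hw
        exact hl i w hw
      rw [this.fderiv_eq]
    · obtain ⟨-, q, hq⟩ := exists_deriv (S := {z | A₀ z ≠ 0}) (u := v j) hFd
        (fun i => by
          obtain ⟨p, hp⟩ := h.deriv i j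
          exact ⟨p, fun z hz => hp z hz⟩) (G k)
      refine ⟨rename Sum.inl q, fun z hz => ?_⟩
      have hz' := hB0' z hz
      rw [hren q z hz', ← hq z hz']
      have : (fun w => B (Sum.inr k) w / B₀ w) =ᶠ[𝓝 z]
          fun w => aeval (fun i => A i w / A₀ w) (G k) := by
        filter_upwards [hopen.mem_nhds hz'] with w hw
        exact hr k w hw
      rw [this.fderiv_eq]

end TlgM

theorem specTLG (hTL : SpecTL) : SpecTLG := by
  intro r I _ A₀ A lam v h G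
  obtain ⟨B₀, B, hB, hne, -, hr⟩ := TlgM.exists_perData h G
  obtain ⟨P, hP, hz⟩ := hTL r (I ⊕ Fin (r + 1)) B₀ B lam v hB Sum.inr
  refine ⟨P, hP, fun z hA => ?_⟩
  rw [← hz z (hne z hA)]
  congr 1
  congr 1
  funext k
  exact (hr k z hA).symm

end Pool.Agent.Lib.MPf11a48.U
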