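import Pool.Agent.Lib.MP_f11a48_ag.U.SpecR
import Pool.Agent.Lib.MP_f11a48_ag.helper92.Bridge2

/-! # MP_f11a48_ag, project U, module TORS: passage from `Qbar` to `K` -/

set_option autoImplicit false

open Matrix MvPolynomial
open Pool.Agent.Lib.MPf11a48.CM hiding OmegaM

namespace Pool.Agent.Lib.MPf11a48.U

namespace TorsM

variable {ι : Type} [Fintype ι] [DecidableEq ι] {K : IntermediateField ℚ ℂ}

theorem drb_mono (hK : K ≤ Qbar) (c : GL ι ℂ) : OmegaDRB Qbar c ⊆ OmegaDRB K c := by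
  refine Tors.OmegaDRB_subset ⟨?_, ⟨c, Tors.mem_OmegaDRB_self K c⟩,
    (Tors.isTorsor_OmegaDRB K c).heap⟩ (Tors.mem_OmegaDRB_self K c) ?_
  · exact GL2.closedOver_mono hK (Tors.isTorsor_OmegaDRB K c).closed
  · rw [Tors.grp_OmegaDRB]
    exact Tors.closedOver_GdRB K c

theorem drb_conj {c f f' : GL ι ℂ} (h : GL2T.Conj K f f') (hf : f ∈ OmegaDRB K c) :
    f' ∈ OmegaDRB K c := by
  obtain ⟨τ, hτ, rfl⟩ := GL2T.conj_iff.1 h
  exact (Tors.isTorsor_OmegaDRB K c).closed.tw_mem hτ hf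

theorem conj_symm {f f' : GL ι ℂ} (h : GL2T.Conj K f f') : GL2T.Conj K f' f := by
  obtain ⟨τ, hτ, rfl⟩ := GL2T.conj_iff.1 h
  exact GL2T.conj_iff.2 ⟨τ.symm, hτ.symm, (Tors.tw_symm_tw τ f).symm⟩

end TorsM

open TorsM in
theorem specTORS : SpecTORS := by
  intro ι _ _ K c ψdR ψB hK hpol hL
  have h1 : ∀ f ∈ Lef c ψdR ψB, ∀ f', GL2T.Conj K f f' → f' ∈ OmegaDRB K c :=
    fun f hf f' hff' => drb_conj hff' (drb_mono hK c (hL f hf))
  refine ⟨h1, fun S hS hP hE => Set.Subset.antisymm (drb_subset hS) fun f hf => ?_⟩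
  obtain ⟨f', hff', hf'⟩ := hE f hf
  obtain ⟨τ, hτ, e⟩ := GL2T.conj_iff.1 hff'
  have h3 : GL2T.polPair ψdR ψB = GL2.polPair ψdR ψB := rfl
  obtain ⟨μ, hμ⟩ := GL2.sim_of_fixes hpol.1 (hf _ hP)
  refine h1 f' ⟨hf', τ μ, ?_⟩ f (conj_symm hff')
  rw [GL2T.mult_iff, e]
  exact GL2.tw_sim hτ hμ

end Pool.Agent.Lib.MPf11a48.U
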