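import Pool.Agent.Lib.MP_f11a48_ag.U.Schw
import Pool.Agent.Lib.MP_f11a48_ag.U.Tlg
import Pool.Agent.Lib.MP_f11a48_ag.U.Prod
import Pool.Agent.Lib.MP_f11a48_ag.U.Jac
import Pool.Agent.Lib.MP_f11a48_ag.U.Quasi
import Pool.Agent.Lib.MP_f11a48_ag.U.Clos
import Pool.Agent.Lib.MP_f11a48_ag.U.Rel
import Pool.Agent.Lib.MP_f11a48_ag.U.Tp
import Pool.Agent.Lib.MP_f11a48_ag.U.Grow
import Pool.Agent.Lib.MP_f11a48_ag.U.Leg
import Pool.Agent.Lib.MP_f11a48_ag.U.Hda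
import Pool.Agent.Lib.MP_f11a48_ag.U.Lin
import Pool.Agent.Lib.MP_f11a48_ag.U.Alg
import Pool.Agent.Lib.MP_f11a48_ag.U.Exp
import Pool.Agent.Lib.MP_f11a48_ag.U.Der
import Pool.Agent.Lib.MP_f11a48_ag.U.Sim
import Pool.Agent.Lib.MP_f11a48_ag.U.Bic
import Pool.Agent.Lib.MP_f11a48_ag.U.Str
import Pool.Agent.Lib.MP_f11a48_ag.U.Wed
import Pool.Agent.Lib.MP_f11a48_ag.U.Gou
import Pool.Agent.Lib.MP_f11a48_ag.U.Tor
import Pool.Agent.Lib.MP_f11a48_ag.U.Gen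
import Pool.Agent.Lib.MP_f11a48_ag.U.Tors
import Pool.Agent.Lib.MP_f11a48_ag.U.Rep
import Pool.Agent.Lib.MP_f11a48_ag.U.Tl
import Pool.Agent.Lib.MP_f11a48_ag.U.Lst
import Pool.Agent.Lib.MP_f11a48_ag.helper4.Main

/-! # MP_f11a48_ag, project U: assembly -/

set_option autoImplicit false

open Matrix MvPolynomial Pool.Agent.Lib.MPf11a48.CM Pool.Agent.Lib.MPf11a48.GL2T

namespace Pool.Agent.Lib.MPf11a48.U

theorem rep' : SpecREP := by
  have hBIC : SpecBIC := BicM.specBIC specLIN specDER specSIM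
  have hSTR : SpecSTR := StrM.specSTR hBIC specWED
  have hTOR : SpecTOR := specTOR specLIN specSIM hBIC specALG
  intro ι _ _ c J ψ
  exact specREP specLIN specEXP specSIM hBIC hSTR specGOU hTOR specGEN c J ψ

theorem tp' (hTL : SpecTL) : SpecTP := by
  have hTLG : SpecTLG := specTLG hTL
  have hREL : SpecREL := by
    intro Z T Θ Λ _ _ _ _ D
    exact specREL hTLG D
  have hCLOS : SpecCLOS := by
    intro Z T Θ Λ _ _ _ _ D
    exact specCLOS specJAC D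
  have hQUASI : SpecQUASI := by
    intro Z T Θ Λ _ _ _ _ D
    exact specQUASI specJAC D
  intro Z T Θ Λ _ _ _ _ D
  exact specTP hREL hCLOS hQUASI D

theorem hda' (hTL : SpecTL) : SpecHDA := by
  have hTP : SpecTP := by
    intro Z T Θ Λ _ _ _ _ D
    exact tp' hTL D
  have hPROD : SpecPROD := by
    intro Z T Θ Λ Z' T' Θ' Λ' _ _ _ _ _ _ _ _ D D'
    exact specPROD D D'
  exact specHDA hTP hPROD specGROW specLEG

variable {ι : Type} [Fintype ι] [DecidableEq ι]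

/-- If `f` fixes the class of the endomorphism `(B', B)`, then `f B' = B f`. -/
theorem comp_of_fixes {K : IntermediateField ℚ ℂ} (f : GL ι ℂ) (B' : Matrix ι ι K)
    (B : Matrix ι ι ℚ) (h : Fixes f (endPair B' B)) :
    f.1 * B'.map (fun x => (x : ℂ)) = B.map (fun x => (x : ℂ)) * f.1 := by
  have h1 : Fixes f (GL2.endPair B' B) := h
  rw [GL2.fixes_endPair] at h1
  have h2 : f⁻¹.1 * f.1 = 1 := Units.inv_mul f
  have h3 : f.1 * B'.map (algebraMap K ℂ) = B.map (algebraMap ℚ ℂ) * f.1 := by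
    rw [← h1, Matrix.mul_assoc (f.1 * _), h2, Matrix.mul_one]
  have h4 : B.map (algebraMap ℚ ℂ) = B.map (fun x => (x : ℂ)) := by
    ext i j; simp
  rw [h4] at h3
  exact h3

/-- The classes of the endomorphisms over `K` determine the compatibility with endomorphisms. -/
theorem compat_of_endOver {K : IntermediateField ℚ ℂ} {c f : GL ι ℂ} (hE : EndOver K c.1)
    (h : ∀ (B' : Matrix ι ι K), ∀ B ∈ EndAlg c.1,
      c.1 * B'.map (fun x => (x : ℂ)) = B.map (fun x => (x : ℂ)) * c.1 →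
      f.1 * B'.map (fun x => (x : ℂ)) = B.map (fun x => (x : ℂ)) * f.1) : Compat c.1 f.1 := by
  intro B B' hB' hcB
  obtain ⟨B₁, hB₁⟩ := hE B ⟨B', hB', hcB⟩
  have h1 : B' = B₁.map (fun x => (x : ℂ)) := by
    have h2 : c⁻¹.1 * c.1 = 1 := Units.inv_mul c
    have h3 : c⁻¹.1 * (c.1 * B') = c⁻¹.1 * (c.1 * B₁.map (fun x => (x : ℂ))) := by
      rw [hcB, hB₁]
    rwa [← Matrix.mul_assoc, ← Matrix.mul_assoc, h2, Matrix.one_mul, Matrix.one_mul] at h3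
  rw [h1]
  exact h B₁ B ⟨B', hB', hcB⟩ hB₁

theorem endOver_Qbar (c : Matrix ι ι ℂ) : EndOver Qbar c := by
  rintro B ⟨B', hB', h⟩
  exact ⟨fun i j => ⟨B' i j, hB' i j⟩, h⟩

theorem conj_self (K : IntermediateField ℚ ℂ) (f : GL ι ℂ) : Conj K f f :=
  ⟨RingEquiv.refl ℂ, fun _ _ => rfl, fun _ _ => rfl⟩

theorem mainU (K : IntermediateField ℚ ℂ) (hK : K ≤ Qbar) (g N : ℕ)
    (A : AbData g N) (hA : A.IsAbVar K) (c : GL (Ix g) ℂ) (hc : c.1 = A.per) :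
    (∀ B ∈ EndAlg c.1, A.IsEndo B) ∧
    ∃ ψdR : Matrix (Ix g) (Ix g) K, Polarised 1 c ψdR A.psi ∧
      (GL2Like c.1 A.psi → Separated c.1 A.psi ∨ ListedCentre c.1 →
        (∀ f ∈ Lef c ψdR A.psi, ∀ f', Conj K f f' → f' ∈ OmegaDRB K c) ∧
        ∀ S : Set (TPair K (Ix g)), (∀ α ∈ S, Fixes c α) → polPair ψdR A.psi ∈ S →
          (∀ f ∈ OmegaS S, ∃ f', Conj K f f' ∧ Compat c.1 f'.1) ∨
            (EndOver K c.1 ∧ A.endClasses K ⊆ S) →
          OmegaDRB K c = OmegaS S ∧ (K = ⊥ → Tors.OmegaM K c = OmegaS S)) := by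
  obtain ⟨⟨J, hJ⟩, hendo⟩ := hda' specTL' K g N A c hK hA hc
  obtain ⟨ψdR, hpol⟩ := specLEG K g N A c hK hA hc
  refine ⟨hendo, ψdR, hpol, fun hGL hSep' => ?_⟩
  have hSep : Separated c.1 A.psi := by
    rcases hSep' with h | h
    · exact h
    · have hBIC : SpecBIC := BicM.specBIC specLIN specDER specSIM
      obtain ⟨S⟩ := StrM.specSTR hBIC specWED c J _ hJ hGL
      exact separated_of_listedCentre hBIC hJ S h
  have hLef : ∀ f ∈ Lef c ψdR A.psi, f ∈ OmegaDRB Qbar c := by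
    rintro f ⟨hf, μ, hμ⟩
    refine rep' c J _ hJ hGL hSep f hf ?_
    obtain ⟨hdet, hm⟩ := hpol
    refine ⟨μ * ((2 * Real.pi * Complex.I) ^ (1 : ℤ))⁻¹, ?_⟩
    rw [Mult] at hm hμ
    change f.1ᵀ * A.psi.map (fun x => (x : ℂ)) * f.1 =
      _ • (c.1ᵀ * A.psi.map (fun x => (x : ℂ)) * c.1)
    change c.1ᵀ * A.psi.map (fun x => (x : ℂ)) * c.1 = _ at hm
    rw [hm, hμ, smul_smul, mul_assoc, inv_mul_cancel₀, mul_one]
    exact zpow_ne_zero _ Complex.two_pi_I_ne_zero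
  obtain ⟨h1, h2⟩ := specTORS K c ψdR _ hK hpol hLef
  refine ⟨h1, fun S hS hp hE => ?_⟩
  have hmain : OmegaDRB K c = OmegaS S := by
    rcases hE with hE | ⟨hE, hEnd⟩
    · exact h2 S hS hp hE
    · refine h2 S hS hp fun f hf => ⟨f, conj_self K f, compat_of_endOver hE fun B' B hB hcB => ?_⟩
      refine comp_of_fixes f B' B (hf _ (hEnd ⟨B', B, hendo B hB, ?_, rfl⟩))
      rw [← hc]
      exact hcB
  refine ⟨hmain, ?_⟩
  rintro rfl
  rw [Tors.OmegaM_eq_OmegaDRB c]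
  exact hmain

end Pool.Agent.Lib.MPf11a48.U
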