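import Pool.Agent.Lib.MP_f11a48_ag.U.SpecArt
import Pool.Agent.Lib.MP_f11a48_ag.helper4.Descent

/-! # MP_f11a48_ag, project U: module ART -/

set_option autoImplicit false

open Matrix MvPolynomial Pool.Agent.Lib.MPf11a48.CM Pool.Agent.Lib.MPf11a48.GL2T

namespace Pool.Agent.Lib.MPf11a48.U

namespace ArtM

/-- A polynomial which is `1` at a point and `0` at finitely many other points. -/
theorem exists_sep {V : Type} (F : Finset (V → ℂ)) (x : V → ℂ) (hx : x ∉ F) :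
    ∃ p : MvPolynomial V ℂ, eval x p = 1 ∧ ∀ y ∈ F, eval y p = 0 := by
  classical
  induction F using Finset.induction_on with
  | empty => exact ⟨1, by simp, by simp⟩
  | insert y F hy ih =>
    rw [Finset.mem_insert, not_or] at hx
    obtain ⟨p, hp, hpF⟩ := ih hx.2
    obtain ⟨v, hv⟩ := Function.ne_iff.1 hx.1
    refine ⟨p * (C ((x v - y v)⁻¹) * (X v - C (y v))), ?_, ?_⟩
    · simp [hp, inv_mul_cancel₀ (sub_ne_zero.2 hv)]
    · intro z hz
      rcases Finset.mem_insert.1 hz with rfl | hz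
      · simp
      · simp [hpF z hz]

theorem sum_eval_eq {V A : Type} [Fintype A] (x y : A → V → ℂ)
    (h : ∀ (n : ℕ) (m : Fin n → V), ∑ a, ∏ k, x a (m k) = ∑ a, ∏ k, y a (m k))
    (p : MvPolynomial V ℂ) : ∀ (n : ℕ) (m : Fin n → V),
     ∑ a, (∏ k, x a (m k)) * eval (x a) p = ∑ a, (∏ k, y a (m k)) * eval (y a) p := by
  induction p using MvPolynomial.induction_on with
  | C c =>
    intro n m
    simp only [eval_C, ← Finset.sum_mul, h]
  | add p q hp hq =>
    intro n m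
    simp only [map_add, mul_add, Finset.sum_add_distrib, hp, hq]
  | mul_X p v hp =>
    intro n m
    have h1 := hp (n + 1) (Fin.cons v m)
    simp only [Fin.prod_univ_succ, Fin.cons_zero, Fin.cons_succ] at h1
    simp only [map_mul, eval_X]
    have h2 : ∀ z : A → V → ℂ, ∀ a, (∏ k, z a (m k)) * (eval (z a) p * z a v) =
        z a v * (∏ k, z a (m k)) * eval (z a) p := by
      intro z a
      ring
    simp only [h2]
    exact h1

/-- Points of finite families with equal sums of all monomials are the same. -/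
theorem exists_eq {V A : Type} [Fintype A] (x y : A → V → ℂ)
    (h : ∀ (n : ℕ) (m : Fin n → V), ∑ a, ∏ k, x a (m k) = ∑ a, ∏ k, y a (m k)) (a₀ : A) :
    ∃ a, y a = x a₀ := by
  classical
  by_contra hcon
  push Not at hcon
  obtain ⟨p, hp, hpF⟩ := exists_sep ((Finset.univ.image x ∪ Finset.univ.image y).erase (x a₀))
    (x a₀) (Finset.notMem_erase _ _)
  have h1 := sum_eval_eq x y h p 0 Fin.elim0
  simp only [Finset.univ_eq_empty, Finset.prod_empty, one_mul] at h1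
  have h2 : ∀ a, eval (y a) p = 0 := fun a => hpF _ (Finset.mem_erase.2 ⟨hcon a,
    Finset.mem_union_right _ (Finset.mem_image_of_mem _ (Finset.mem_univ a))⟩)
  have h3 : ∀ a, eval (x a) p = if x a = x a₀ then 1 else 0 := by
    intro a
    split_ifs with ha
    · rw [ha, hp]
    · exact hpF _ (Finset.mem_erase.2 ⟨ha,
        Finset.mem_union_left _ (Finset.mem_image_of_mem _ (Finset.mem_univ a))⟩)
  simp only [h2, h3, Finset.sum_const_zero, Finset.sum_boole] at h1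
  rw [Nat.cast_eq_zero, Finset.card_eq_zero] at h1
  have h4 : a₀ ∈ Finset.univ.filter fun a => x a = x a₀ :=
    Finset.mem_filter.2 ⟨Finset.mem_univ _, rfl⟩
  rw [h1] at h4
  exact absurd h4 (Finset.notMem_empty _)

/-- The action on products of matrix entries. -/
theorem tens_prod {ι : Type} [Fintype ι] (g g' : Matrix ι ι ℂ) (n : ℕ)
    (M : Fin n → Matrix ι ι ℂ) (I : TIdx ι n n) :
    ∑ J, tens n n g g' I J * ∏ k, M k (J.1 k) (J.2 k) =
      ∏ k, (g * M k * g') (I.1 k) (I.2 k) := by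
  classical
  have h1 : ∀ k, (g * M k * g') (I.1 k) (I.2 k) =
      ∑ x : ι × ι, g (I.1 k) x.1 * g' x.2 (I.2 k) * M k x.1 x.2 := by
    intro k
    rw [Fintype.sum_prod_type_right, Matrix.mul_apply]
    refine Finset.sum_congr rfl fun q _ => ?_
    rw [Matrix.mul_apply, Finset.sum_mul]
    refine Finset.sum_congr rfl fun p _ => ?_
    ring
  simp only [h1]
  rw [Finset.prod_univ_sum, Fintype.piFinset_univ]
  refine Fintype.sum_equiv (Equiv.arrowProdEquivProdArrow (Fin n) (fun _ => ι) (fun _ => ι)).symm _ _ ?_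
  intro J
  simp only [tens, Equiv.arrowProdEquivProdArrow, Equiv.coe_fn_symm_mk]
  rw [← Finset.prod_mul_distrib, ← Finset.prod_mul_distrib]

/-- The de Rham matrix of an endomorphism. -/
def dRm {ι : Type} [Fintype ι] [DecidableEq ι] (c : GL ι ℂ) (B : Matrix ι ι ℚ) : Matrix ι ι ℂ :=
  c⁻¹.1 * mC B * c.1

variable {ι : Type} [Fintype ι] [DecidableEq ι]

theorem eq_dRm {c : GL ι ℂ} {B : Matrix ι ι ℚ} {B' : Matrix ι ι ℂ}
    (h : c.1 * B' = mC B * c.1) : B' = dRm c B := by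
  have h2 : c⁻¹.1 * c.1 = 1 := Units.inv_mul c
  rw [dRm, Matrix.mul_assoc, ← h, ← Matrix.mul_assoc, h2, Matrix.one_mul]

theorem mul_dRm (c : GL ι ℂ) (B : Matrix ι ι ℚ) : c.1 * dRm c B = mC B * c.1 := by
  have h2 : c.1 * c⁻¹.1 = 1 := Units.mul_inv c
  rw [dRm, ← Matrix.mul_assoc, ← Matrix.mul_assoc, h2, Matrix.one_mul]

theorem conj_eq {c : GL ι ℂ} {B : Matrix ι ι ℚ} {B' : Matrix ι ι ℂ}
    (h : c.1 * B' = mC B * c.1) : c.1 * B' * c⁻¹.1 = mC B := by
  have h2 : c.1 * c⁻¹.1 = 1 := Units.mul_inv c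
  rw [h, Matrix.mul_assoc, h2, Matrix.mul_one]

omit [Fintype ι] [DecidableEq ι] in
theorem isAlg_map {B' : Matrix ι ι ℂ} (τ : ℂ ≃+* ℂ) (h : IsAlg B') : IsAlg (B'.map τ) := by
  intro i j
  have h1 : IsAlgebraic ℚ (B' i j) := mem_algebraicClosure_iff.1 (h i j)
  refine mem_algebraicClosure_iff.2 ?_
  exact h1.algHom (τ.toRingHom.toRatAlgHom)

omit [Fintype ι] [DecidableEq ι] in
theorem map_mC (τ : ℂ ≃+* ℂ) (B : Matrix ι ι ℚ) : (mC B).map τ = mC B := by
  ext i j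
  simp

omit [DecidableEq ι] in
theorem map_mul (τ : ℂ ≃+* ℂ) (A B : Matrix ι ι ℂ) : (A * B).map τ = A.map τ * B.map τ :=
  Matrix.map_mul (f := τ.toRingHom)

end ArtM

open ArtM in
theorem specART : SpecART := by
  intro ι _ _ K c hK hG S hS f hf
  classical
  obtain ⟨t, ht, hspan⟩ : ∃ t : Finset (Matrix ι ι ℚ), (↑t : Set (Matrix ι ι ℚ)) ⊆ EndAlg c.1 ∧
      Submodule.span ℚ (EndAlg c.1) = Submodule.span ℚ (t : Set (Matrix ι ι ℚ)) := by
    have h1 : (Submodule.span ℚ (EndAlg c.1)).FG := IsNoetherian.noetherian _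
    obtain ⟨t, h2, h3⟩ := (Submodule.fg_span_iff_fg_span_finset_subset (EndAlg c.1)).1 h1
    exact ⟨t, h2, h3⟩
  have halg : ∀ B ∈ EndAlg c.1, IsAlg (dRm c B) := by
    rintro B ⟨B', hB', h⟩
    rw [← eq_dRm h]
    exact hB'
  let orb : {τ : ℂ ≃+* ℂ // ∀ a ∈ K, τ a = a} → (t × ι × ι → ℂ) :=
    fun τ x => τ.1 (dRm c x.1.1 x.2.1 x.2.2)
  have hfin : (Set.range orb).Finite := by
    have h1 : ∀ x : t × ι × ι, ((minpoly ℚ (dRm c x.1.1 x.2.1 x.2.2)).rootSet ℂ).Finite :=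
      fun x => Polynomial.rootSet_finite _ _
    refine (Set.Finite.pi fun x => h1 x).subset ?_
    rintro _ ⟨τ, rfl⟩ x -
    have h2 : IsAlgebraic ℚ (dRm c x.1.1 x.2.1 x.2.2) :=
      mem_algebraicClosure_iff.1 (halg _ (ht x.1.2) _ _)
    have h3 := minpoly.ne_zero h2.isIntegral
    rw [Polynomial.mem_rootSet]
    refine ⟨h3, ?_⟩
    have h4 := minpoly.aeval ℚ (dRm c x.1.1 x.2.1 x.2.2)
    have h5 := congrArg (τ.1.toRingHom.toRatAlgHom) h4
    rw [map_zero, ← Polynomial.aeval_algHom_apply] at h5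
    exact h5
  have : Fintype (Set.range orb) := hfin.fintype
  let mat : Set.range orb → t → Matrix ι ι ℂ := fun a B => Matrix.of fun p q => a.1 (B, p, q)
  have hmat : ∀ (a : Set.range orb) (B : t), ∃ B₂ : Matrix ι ι ℚ, B₂ ∈ EndAlg c.1 ∧
      c.1 * mat a B = mC B₂ * c.1 := by
    rintro ⟨_, τ, rfl⟩ B
    obtain ⟨B₂, hB₂⟩ := hG τ.1 τ.2 B.1 (dRm c B.1) (halg _ (ht B.2)) (mul_dRm c B.1)
    exact ⟨B₂, ⟨(dRm c B.1).map τ.1, isAlg_map _ (halg _ (ht B.2)), hB₂⟩, hB₂⟩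
  choose β hβ hβ2 using hmat
  have key : ∀ (n : ℕ) (m : Fin n → t × ι × ι),
      ∑ a, ∏ k, (f.1 * mat a (m k).1 * f⁻¹.1) (m k).2.1 (m k).2.2 =
      ∑ a, ∏ k, (c.1 * mat a (m k).1 * c⁻¹.1) (m k).2.1 (m k).2.2 := by
    intro n m
    have hfix : ∀ J : TIdx ι n n, ∑ a, ∏ k, mat a (m k).1 (J.1 k) (J.2 k) ∈ K := by
      intro J
      refine Tors.mem_of_fixed fun σ hσ => ?_
      have h1 : ∀ a : Set.range orb, (fun x => σ (a.1 x)) ∈ Set.range orb := by
        rintro ⟨_, τ, rfl⟩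
        exact ⟨⟨τ.1.trans σ, fun a ha => by
          rw [RingEquiv.trans_apply, τ.2 a ha, hσ a ha]⟩, rfl⟩
      have h2 : ∀ a : Set.range orb, (fun x => σ.symm (a.1 x)) ∈ Set.range orb := by
        rintro ⟨_, τ, rfl⟩
        exact ⟨⟨τ.1.trans σ.symm, fun a ha => by
          rw [RingEquiv.trans_apply, τ.2 a ha, hσ.symm a ha]⟩, rfl⟩
      rw [map_sum]
      refine Fintype.sum_equiv ⟨fun a => ⟨_, h1 a⟩, fun a => ⟨_, h2 a⟩, ?_, ?_⟩ _ _ ?_
      · intro a
        refine Subtype.ext (funext fun x => ?_)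
        simp
      · intro a
        refine Subtype.ext (funext fun x => ?_)
        simp
      · intro a
        rw [map_prod]
        rfl
    have hin : (⟨n, n, fun J => ⟨_, hfix J⟩,
        fun J => ∑ a, ∏ k, β a (m k).1 (J.1 k) (J.2 k)⟩ : TPair K ι) ∈ endTensors K c := by
      refine ⟨?_, n, _, _, rfl, ?_⟩
      · intro I
        change ∑ J, tens n n c.1 c⁻¹.1 I J * (∑ a, ∏ k, mat a (m k).1 (J.1 k) (J.2 k)) =
          ((∑ a, ∏ k, β a (m k).1 (I.1 k) (I.2 k) : ℚ) : ℂ)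
        simp only [Finset.mul_sum]
        rw [Finset.sum_comm]
        simp only [Rat.cast_sum, Rat.cast_prod]
        refine Finset.sum_congr rfl fun a _ => ?_
        rw [tens_prod]
        refine Finset.prod_congr rfl fun k _ => ?_
        rw [conj_eq (hβ2 a (m k).1)]
        rfl
      · have h3 : (fun J : TIdx ι n n => ∑ a, ∏ k, β a (m k).1 (J.1 k) (J.2 k)) =
            ∑ a, fun J : TIdx ι n n => ∏ k, β a (m k).1 (J.1 k) (J.2 k) := by
          funext J
          rw [Finset.sum_apply]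
        rw [h3]
        refine Submodule.sum_mem _ fun a _ => Submodule.subset_span ?_
        exact ⟨fun k => β a (m k).1, fun k => hβ a (m k).1, rfl⟩
    have h4 := hf _ (hS hin) (fun k => (m k).2.1, fun k => (m k).2.2)
    have h5 := hin.1 (fun k => (m k).2.1, fun k => (m k).2.2)
    rw [← h5] at h4
    change ∑ J, tens n n f.1 f⁻¹.1 _ J * (∑ a, ∏ k, mat a (m k).1 (J.1 k) (J.2 k)) =
      ∑ J, tens n n c.1 c⁻¹.1 _ J * (∑ a, ∏ k, mat a (m k).1 (J.1 k) (J.2 k)) at h4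
    simp only [Finset.mul_sum] at h4
    rw [Finset.sum_comm, Finset.sum_comm (s := Finset.univ) (t := Finset.univ)
      (f := fun (x : TIdx ι n n) (a : Set.range orb) => tens n n c.1 c⁻¹.1 _ x *
        ∏ k, mat a (m k).1 (x.1 k) (x.2 k))] at h4
    simp only [tens_prod] at h4
    exact h4
  obtain ⟨⟨_, τ, rfl⟩, hτ⟩ := exists_eq
    (fun (a : Set.range orb) (x : t × ι × ι) => (f.1 * mat a x.1 * f⁻¹.1) x.2.1 x.2.2)
    (fun (a : Set.range orb) (x : t × ι × ι) => (c.1 * mat a x.1 * c⁻¹.1) x.2.1 x.2.2)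
    key ⟨_, ⟨RingEquiv.refl ℂ, fun _ _ => rfl⟩, rfl⟩
  have h1 : ∀ B ∈ t, f.1 * dRm c B * f⁻¹.1 = c.1 * (dRm c B).map τ.1 * c⁻¹.1 := by
    intro B hB
    ext p q
    exact (congrFun hτ (⟨B, hB⟩, p, q)).symm
  have h2 : ∀ B ∈ Submodule.span ℚ (t : Set (Matrix ι ι ℚ)),
      f.1 * dRm c B * f⁻¹.1 = c.1 * (dRm c B).map τ.1 * c⁻¹.1 := by
    intro B hB
    induction hB using Submodule.span_induction with
    | mem B hB => exact h1 B hB
    | zero =>
      have h3 : dRm c (0 : Matrix ι ι ℚ) = 0 := by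
        have : mC (0 : Matrix ι ι ℚ) = 0 := by ext; simp
        rw [dRm, this, Matrix.mul_zero, Matrix.zero_mul]
      have h4 : (0 : Matrix ι ι ℂ).map τ.1 = 0 := by ext; simp
      rw [h3, h4]
      simp
    | add x y _ _ hx hy =>
      have h3 : dRm c (x + y) = dRm c x + dRm c y := by
        have : mC (x + y) = mC x + mC y := by ext; simp
        rw [dRm, this, Matrix.mul_add, Matrix.add_mul]
        rfl
      have h4 : (dRm c x + dRm c y).map τ.1 = (dRm c x).map τ.1 + (dRm c y).map τ.1 := by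
        ext; simp
      rw [h3, h4, Matrix.mul_add, Matrix.add_mul, hx, hy, Matrix.mul_add, Matrix.add_mul]
    | smul a x _ hx =>
      have h3 : dRm c (a • x) = (a : ℂ) • dRm c x := by
        have : mC (a • x) = (a : ℂ) • mC x := by ext; simp
        rw [dRm, this, Matrix.mul_smul, Matrix.smul_mul]
        rfl
      have h4 : ((a : ℂ) • dRm c x).map τ.1 = (a : ℂ) • (dRm c x).map τ.1 := by
        ext; simp
      rw [h3, h4, Matrix.mul_smul, Matrix.smul_mul, hx, Matrix.mul_smul, Matrix.smul_mul]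
  let f' : GL ι ℂ := Units.map (τ.1.toRingHom.mapMatrix : Matrix ι ι ℂ →+* Matrix ι ι ℂ).toMonoidHom f
  have hf' : f'.1 = f.1.map τ.1 := rfl
  refine ⟨f', ⟨τ.1, τ.2, fun i j => rfl⟩, ?_⟩
  intro B B' hB' hcB
  have hτ' : ∀ a ∈ K, τ.1.symm a = a := fun a ha => by
    rw [RingEquiv.symm_apply_eq, τ.2 a ha]
  obtain ⟨B₂, hB₂⟩ := hG τ.1.symm hτ' B B' hB' hcB
  have hB₂E : B₂ ∈ EndAlg c.1 := ⟨B'.map τ.1.symm, isAlg_map _ hB', hB₂⟩
  have h3 := h2 B₂ (hspan ▸ Submodule.subset_span hB₂E)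
  rw [← eq_dRm hB₂] at h3
  have h4 : (B'.map τ.1.symm).map τ.1 = B' := by
    ext i j
    simp
  rw [h4, conj_eq hcB] at h3
  have h5 : f.1 * B'.map τ.1.symm = mC B * f.1 := by
    rw [← h3, Matrix.mul_assoc _ (f⁻¹.1) f.1]
    have : f⁻¹.1 * f.1 = 1 := Units.inv_mul f
    rw [this, Matrix.mul_one]
  have h6 := congrArg (fun M : Matrix ι ι ℂ => M.map τ.1) h5
  simp only [ArtM.map_mul, map_mC, h4] at h6
  rw [hf']
  exact h6

end Pool.Agent.Lib.MPf11a48.U
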