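import Pool.Agent.Lib.MP_f11a48_ag.U.SpecArt
import Pool.Agent.Lib.MP_f11a48_ag.U.Hda
import Pool.Agent.Lib.MP_f11a48_ag.U.Prod

/-!
# MP_f11a48_ag, project U: module GREL
-/

set_option autoImplicit false

open Matrix MvPolynomial Pool.Agent.Lib.MPf11a48.CM Pool.Agent.Lib.MPf11a48.GL2T

namespace Pool.Agent.Lib.MPf11a48.U

namespace GrelM

open HDAM

variable {g N : ℕ} {K : IntermediateField ℚ ℂ} {A : AbData g N}

/-- the parametrisation of the graph -/
noncomputable def Γ (B' : Matrix (Ix g) (Ix g) ℂ) :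
    (Ix g → ℂ) →ₗ[ℂ] ((Fin g ⊕ Fin g) ⊕ (Fin g ⊕ Fin g) → ℂ) :=
  emb g ∘ₗ (LinearMap.prod LinearMap.id B'.vecMulLinear)

theorem Γ_apply (B' : Matrix (Ix g) (Ix g) ℂ) (u : Ix g → ℂ) : Γ B' u = emb g (u, u ᵥ* B') := rfl

theorem wof_gr {c : GL (Ix g) ℂ} (hc : c.1 = A.per) {B : Matrix (Ix g) (Ix g) ℚ}
    {B' : Matrix (Ix g) (Ix g) ℂ} (h : c.1 * B' = mC B * c.1) :
    (A.td.prod A.td).Wof (gr B) = LinearMap.range (Γ B') := by
  have hcinv : c⁻¹.1 * c.1 = 1 := by rw [← Units.val_mul, inv_mul_cancel]; rfl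
  have hgen : ∀ x ∈ gr B, ∑ a, ((x a : ℚ) : ℂ) • (A.td.prod A.td).lam a =
      Γ B' ((fun a => ((x (Sum.inl a) : ℚ) : ℂ)) ᵥ* c.1) := by
    intro x hx
    have hx' : (fun b => x (Sum.inr b)) = (fun a => x (Sum.inl a)) ᵥ* B := hx
    rw [lam2 hc (fun a => ((x a : ℚ) : ℂ)), Γ_apply]
    congr 2
    rw [Matrix.vecMul_vecMul, h, ← Matrix.vecMul_vecMul]
    congr 1
    funext b
    have := congrArg (fun q : ℚ => (q : ℂ)) (congrFun hx' b)
    simp only [Matrix.vecMul, dotProduct] at this ⊢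
    push_cast at this
    exact this
  have hrow : ∀ a, Γ B' (c.1 a) ∈ (A.td.prod A.td).Wof (gr B) := by
    intro a
    refine Submodule.subset_span ⟨_, gr_row B a, ?_⟩
    rw [hgen _ (gr_row B a)]
    congr 1
    have : (fun a' => (((Sum.elim (Pi.single a 1) (B a) : Ix g ⊕ Ix g → ℚ) (Sum.inl a') : ℚ) : ℂ)) =
        Pi.single a 1 := by
      funext a'
      by_cases ha : a' = a
      · subst ha; simp
      · simp [Pi.single_eq_of_ne ha]
    rw [this, Matrix.single_one_vecMul]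
    rfl
  refine le_antisymm (Submodule.span_le.2 ?_) ?_
  · rintro _ ⟨x, hx, rfl⟩
    rw [SetLike.mem_coe, hgen x hx]
    exact ⟨_, rfl⟩
  · rintro _ ⟨u, rfl⟩
    have h1 : u = ∑ a, (u ᵥ* c⁻¹.1) a • c.1 a := by
      have h2 : (u ᵥ* c⁻¹.1) ᵥ* c.1 = u := by
        rw [Matrix.vecMul_vecMul, hcinv]; simp
      conv_lhs => rw [← h2]
      funext i
      simp only [Matrix.vecMul, dotProduct, Finset.sum_apply, Pi.smul_apply, smul_eq_mul]
    rw [h1, map_sum]
    exact Submodule.sum_mem _ fun a _ => by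
      rw [map_smul]
      exact Submodule.smul_mem _ _ (hrow a)

variable {P Q S : Matrix (Fin g) (Fin g) ℂ}

theorem Γ_blocks (x y : Fin g → ℂ) : Γ (Matrix.fromBlocks P Q 0 S) (Sum.elim x y) =
    Sum.elim (Sum.elim x (x ᵥ* P)) (Sum.elim y (x ᵥ* Q + y ᵥ* S)) := by
  rw [Γ_apply, Matrix.vecMul_fromBlocks]
  funext j
  rcases j with (j | j) | (j | j)
  · rfl
  · simp [emb]
  · rfl
  · simp [emb]

/-- the graph in the square of the tangent space -/
noncomputable def Gz (P : Matrix (Fin g) (Fin g) ℂ) : (Fin g → ℂ) →ₗ[ℂ] (Fin g ⊕ Fin g → ℂ) where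
  toFun x := Sum.elim x (x ᵥ* P)
  map_add' x y := by
    rw [Matrix.add_vecMul]
    funext j
    rcases j with j | j <;> rfl
  map_smul' t x := by
    rw [Matrix.smul_vecMul]
    funext j
    rcases j with j | j <;> rfl

theorem Gz_inj : Function.Injective (Gz P) := by
  intro x y h
  funext j
  exact congrFun h (Sum.inl j)

theorem map_range : (LinearMap.range (Γ (Matrix.fromBlocks P Q 0 S))).map
    (LinearMap.funLeft ℂ ℂ Sum.inl) = LinearMap.range (Gz P) := by
  ext v
  constructor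
  · rintro ⟨_, ⟨u, rfl⟩, rfl⟩
    refine ⟨fun j => u (Sum.inl j), ?_⟩
    have hu : u = Sum.elim (fun j => u (Sum.inl j)) fun j => u (Sum.inr j) := by
      funext j; rcases j with j | j <;> rfl
    conv_rhs => rw [hu, Γ_blocks]
    rfl
  · rintro ⟨x, rfl⟩
    refine ⟨Γ (Matrix.fromBlocks P Q 0 S) (Sum.elim x 0), ⟨_, rfl⟩, ?_⟩
    rw [Γ_blocks]
    rfl

theorem sum_single (t : Fin g) (v : Fin g → ℂ) :
    ∑ x, (Pi.single t 1 : Fin g → ℂ) x * v x = v t := by
  rw [Finset.sum_eq_single t]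
  · rw [Pi.single_eq_same, one_mul]
  · intro b _ hb
    rw [Pi.single_eq_of_ne hb, zero_mul]
  · intro h
    exact absurd (Finset.mem_univ t) h

theorem sum_neg_S (S : Matrix (Fin g) (Fin g) ℂ) (t : Fin g) (v : Fin g → ℂ) :
    ∑ x, -S x t * v x = -(v ᵥ* S) t := by
  change _ = -∑ r, v r * S r t
  rw [← Finset.sum_neg_distrib]
  exact Finset.sum_congr rfl fun _ _ => by ring

theorem conv_poly {I : Type} (e : I → Option (Fin g)) (he : Function.Injective e)
    (p : MvPolynomial I Qbar) (hp : p ≠ 0) :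
    ∃ q : MvPolynomial (Option (Fin g)) ℂ, q ≠ 0 ∧ (∀ m, q.coeff m ∈ Qbar) ∧
      ∀ v : Option (Fin g) → ℂ, eval v q = aeval (fun i => v (e i)) p := by
  classical
  refine ⟨MvPolynomial.map (algebraMap Qbar ℂ) (rename e p), ?_, ?_, ?_⟩
  · intro h
    have h1 : rename e p = 0 := by
      refine MvPolynomial.map_injective (algebraMap Qbar ℂ) (algebraMap Qbar ℂ).injective ?_
      rw [h, map_zero]
    exact hp (rename_injective e he (by rw [h1, map_zero]))
  · intro m
    rw [MvPolynomial.coeff_map]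
    exact (((rename e p).coeff m : Qbar) : Qbar).2
  · intro v
    rw [MvPolynomial.eval_map, ← MvPolynomial.aeval_def, MvPolynomial.aeval_rename]
    rfl

end GrelM

open GrelM HDAM in
theorem specGREL (hREL : SpecREL) (hPROD : SpecPROD) (hGROW : SpecGROW) : SpecGREL := by
  intro K g N A c hK hA hc B P Q S hP hQ hS hB s
  have hG : A.td.Good := hGROW K g N A c hK hA hc
  have hB' : IsAlg (Matrix.fromBlocks P Q 0 S) := by
    intro i j
    rcases i with i | i <;> rcases j with j | j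
    · exact hP i j
    · exact hQ i j
    · exact Qbar.zero_mem
    · exact hS i j
  set U : Submodule ℂ (Fin g ⊕ Fin g → ℂ) :=
    ((A.td.prod A.td).Wof (gr B)).map (LinearMap.funLeft ℂ ℂ Sum.inl) with hU
  have hU' : U = LinearMap.range (Gz P) := by
    rw [hU, wof_gr hc hB, map_range]
  have hfin : Module.finrank ℂ U = g := by
    rw [hU', LinearMap.finrank_range_of_inj Gz_inj]
    simp
  have hmem : ∀ z, Sum.elim z (z ᵥ* P) ∈ U := fun z => by
    rw [hU']
    exact ⟨z, rfl⟩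
  obtain ⟨h1, h2⟩ := hREL (A.td.prod A.td) (hPROD _ _ hG hG) (gr B) (graph_def hc hB' hB) U hU
  have hth : ∀ z, A.th 0 z ≠ 0 → A.th 0 (z ᵥ* P) ≠ 0 →
      (A.td.prod A.td).th (A.td.prod A.td).o (Sum.elim z (z ᵥ* P)) ≠ 0 :=
    fun z hz hz' => mul_ne_zero hz hz'
  have hf1 : ∀ z i, A.th 0 z ≠ 0 → A.th 0 (z ᵥ* P) ≠ 0 →
      (A.td.prod A.td).f (i, 0) (Sum.elim z (z ᵥ* P)) = A.f i z := by
    intro z i hz hz'
    rw [ProdM.f_prod]
    have : A.td.f 0 (z ᵥ* P) = 1 := div_self hz'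
    change A.f i z * A.td.f 0 (z ᵥ* P) = _
    rw [this, mul_one]
  have hf2 : ∀ z j, A.th 0 z ≠ 0 → A.th 0 (z ᵥ* P) ≠ 0 →
      (A.td.prod A.td).f (0, j) (Sum.elim z (z ᵥ* P)) = A.fP P j z := by
    intro z j hz hz'
    rw [ProdM.f_prod]
    have : A.td.f 0 z = 1 := div_self hz
    change A.td.f 0 z * A.f j (z ᵥ* P) = _
    rw [this, one_mul]
    rfl
  refine ⟨fun j => ?_, fun t => ?_⟩
  · let e : Fin (Module.finrank ℂ U + 1) → Option (Fin g) :=
      fun k => Fin.lastCases (motive := fun _ => Option (Fin g)) none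
        (fun k => some (Fin.cast hfin k)) k
    have he : Function.Injective e := by
      intro a b hab
      revert hab
      refine Fin.lastCases ?_ (fun a => ?_) a <;> refine Fin.lastCases ?_ (fun b => ?_) b
      · intro _; rfl
      · intro h; simp [e] at h
      · intro h; simp [e] at h
      · intro h
        simp only [e, Fin.lastCases_castSucc, Option.some.injEq] at h
        rw [Fin.cast_inj] at h
        rw [h]
    obtain ⟨p, hp, hrel⟩ := h1 fun k => Fin.lastCases (motive := fun _ => Fin (N + 1) × Fin (N + 1))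
      (0, j) (fun k => (s (Fin.cast hfin k), 0)) k
    obtain ⟨q, hq, hqc, hqe⟩ := conv_poly e he p hp
    refine ⟨q, hq, hqc, fun z hz hz' => ?_⟩
    rw [hqe, ← hrel _ (hmem z) (hth z hz hz')]
    congr 2
    funext k
    refine Fin.lastCases ?_ (fun k => ?_) k
    · simp only [e, Fin.lastCases_last, Option.elim]
      exact (hf2 z j hz hz').symm
    · simp only [e, Fin.lastCases_castSucc, Option.elim]
      exact (hf1 z _ hz hz').symm
  · have hW : ∀ w ∈ (A.td.prod A.td).Wof (gr B), ∃ x y, w = Γ (Matrix.fromBlocks P Q 0 S)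
        (Sum.elim x y) := by
      intro w hw
      rw [wof_gr hc hB] at hw
      obtain ⟨u, rfl⟩ := hw
      refine ⟨fun j => u (Sum.inl j), fun j => u (Sum.inr j), ?_⟩
      congr 1
      funext j
      rcases j with j | j <;> rfl
    let ℓ : (Fin g ⊕ Fin g → ℂ) →ₗ[ℂ] ℂ :=
      (LinearMap.proj t) ∘ₗ Q.vecMulLinear ∘ₗ (LinearMap.funLeft ℂ ℂ Sum.inl)
    have hℓ : ∀ v, ℓ v = ((fun j => v (Sum.inl j)) ᵥ* Q) t := fun _ => rfl
    obtain ⟨p, hp, hrel⟩ := h2 (fun k => (s (Fin.cast hfin k), 0))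
      (Sum.elim (fun r => -S r t) (Pi.single t 1)) (by
        rintro (r | r)
        · exact Qbar.neg_mem (hS r t)
        · change (Pi.single (M := fun _ => ℂ) t 1) r ∈ Qbar
          rw [Pi.single_apply]
          split_ifs
          · exact Qbar.one_mem
          · exact Qbar.zero_mem) ℓ (by
        intro w hw
        obtain ⟨x, y, rfl⟩ := hW w hw
        rw [Γ_blocks, Fintype.sum_sum_type, hℓ]
        simp only [Sum.elim_inl, Sum.elim_inr]
        rw [sum_single, sum_neg_S, Pi.add_apply]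
        ring)
    let e : Option (Fin (Module.finrank ℂ U)) → Option (Fin g) := Option.map (Fin.cast hfin)
    have he : Function.Injective e := Option.map_injective (Fin.cast_injective hfin)
    obtain ⟨q, hq, hqc, hqe⟩ := conv_poly e he p hp
    refine ⟨q, hq, hqc, fun z hz hz' => ?_⟩
    rw [hqe, ← hrel _ (hmem z) (hth z hz hz')]
    congr 2
    funext k
    rcases k with _ | k
    · simp only [e, Option.map_none, Option.elim]
      rw [Fintype.sum_sum_type, hℓ]
      have e1 : ∀ r, (A.td.prod A.td).zt (Sum.inl r) (Sum.elim z (z ᵥ* P)) = A.zt r z :=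
        fun r => ProdM.zt_inl (D := A.td) (D' := A.td) hz hz'
      have e2 : ∀ r, (A.td.prod A.td).zt (Sum.inr r) (Sum.elim z (z ᵥ* P)) = A.zt r (z ᵥ* P) :=
        fun r => ProdM.zt_inr (D := A.td) (D' := A.td) hz hz'
      simp only [Sum.elim_inl, Sum.elim_inr, e1, e2]
      rw [sum_single, sum_neg_S, AbData.gP]
      ring
    · simp only [e, Option.map_some, Option.elim]
      exact (hf1 z _ hz hz').symm

end Pool.Agent.Lib.MPf11a48.U
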