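import Pool.Agent.Lib.MP_f11a48_ag.U.Final
import Pool.Agent.Lib.MP_f11a48_ag.U.Art
import Pool.Agent.Lib.MP_f11a48_ag.U.Conj
import Pool.Agent.Lib.MP_f11a48_ag.U.Orb
import Pool.Agent.Lib.MP_f11a48_ag.U.Gal
import Pool.Agent.Lib.MP_f11a48_ag.U.Grel

/-! # MP_f11a48_ag, project U: final theorem -/

set_option autoImplicit false

open Matrix MvPolynomial Pool.Agent.Lib.MPf11a48.CM Pool.Agent.Lib.MPf11a48.GL2T

namespace Pool.Agent.Lib.MPf11a48.U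

theorem gal' : SpecGAL := by
  have hTLG : SpecTLG := specTLG specTL'
  have hREL : SpecREL := by
    intro Z T Θ Λ _ _ _ _ D
    exact specREL hTLG D
  have hPROD : SpecPROD := by
    intro Z T Θ Λ Z' T' Θ' Λ' _ _ _ _ _ _ _ _ D D'
    exact specPROD D D'
  exact specGAL (hda' specTL') (specGREL hREL hPROD specGROW) specCONJ specORB

theorem mainU2 (K : IntermediateField ℚ ℂ) (hK : K ≤ Qbar)
    (g N : ℕ) (A : AbData g N) (hA : A.IsAbVar K) (c : GL (Ix g) ℂ) (hc : c.1 = A.per) :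
    (∀ B ∈ EndAlg c.1, A.IsEndo B) ∧
    ∃ ψdR : Matrix (Ix g) (Ix g) K, Polarised 1 c ψdR A.psi ∧
      (GL2Like c.1 A.psi → Separated c.1 A.psi ∨ ListedCentre c.1 →
        (∀ f ∈ Lef c ψdR A.psi, ∀ f', Conj K f f' → f' ∈ OmegaDRB K c) ∧
        ∀ S : Set (TPair K (Ix g)), (∀ α ∈ S, Fixes c α) → polPair ψdR A.psi ∈ S →
          endTensors K c ⊆ S ∨ (EndOver K c.1 ∧ A.endClasses K ⊆ S) →
          OmegaDRB K c = OmegaS S ∧ (K = ⊥ → Tors.OmegaM K c = OmegaS S)) := by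
  obtain ⟨h1, ψdR, h2, h3⟩ := mainU K hK g N A hA c hc
  refine ⟨h1, ψdR, h2, fun hGL hS => ?_⟩
  obtain ⟨h4, h5⟩ := h3 hGL hS
  refine ⟨h4, fun S hS' hp hE => h5 S hS' hp ?_⟩
  rcases hE with hE | hE
  · exact Or.inl (specART K c hK (gal' K g N A c hK hA hc) S hE)
  · exact Or.inr hE

end Pool.Agent.Lib.MPf11a48.U
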