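import Pool.Agent.Lib.MP_f11a48_ag.U.SpecR

/-!
# MP_f11a48_ag, project U: slot operators

`dact s X` is, on every tensor space, the sum of the operators applying `X` to one factor `V` minus
the sum of the operators applying the transpose of `X` to one factor `V^∨`.
-/

set_option autoImplicit false
set_option linter.unusedSectionVars false

open Matrix MvPolynomial Pool.Agent.Lib.MPf11a48.CM Pool.Agent.Lib.MPf11a48.GL2T

namespace Pool.Agent.Lib.MPf11a48.U

namespace SlotM

variable {ι R : Type} [Fintype ι] [DecidableEq ι] [CommRing R] {n m : ℕ}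

/-- `X` applied to a factor `V` -/
def opL (a : Fin n) (X : Matrix ι ι R) : Module.End R (TIdx ι n m → R) where
  toFun w I := ∑ k, X (I.1 a) k * w (Function.update I.1 a k, I.2)
  map_add' u v := by
    funext I
    simp only [Pi.add_apply, mul_add, Finset.sum_add_distrib]
  map_smul' r v := by
    funext I
    simp only [Pi.smul_apply, smul_eq_mul, RingHom.id_apply, Finset.mul_sum]
    exact Finset.sum_congr rfl fun _ _ => by ring

/-- the transpose of `X` applied to a factor `V^∨` -/
def opR (b : Fin m) (X : Matrix ι ι R) : Module.End R (TIdx ι n m → R) where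
  toFun w I := ∑ k, X k (I.2 b) * w (I.1, Function.update I.2 b k)
  map_add' u v := by
    funext I
    simp only [Pi.add_apply, mul_add, Finset.sum_add_distrib]
  map_smul' r v := by
    funext I
    simp only [Pi.smul_apply, smul_eq_mul, RingHom.id_apply, Finset.mul_sum]
    exact Finset.sum_congr rfl fun _ _ => by ring

theorem opL_apply (a : Fin n) (X : Matrix ι ι R) (w : TIdx ι n m → R) (I : TIdx ι n m) :
    opL a X w I = ∑ k, X (I.1 a) k * w (Function.update I.1 a k, I.2) := rfl

theorem opR_apply (b : Fin m) (X : Matrix ι ι R) (w : TIdx ι n m → R) (I : TIdx ι n m) :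
    opR b X w I = ∑ k, X k (I.2 b) * w (I.1, Function.update I.2 b k) := rfl

/-- a slot operator -/
def op : Fin n ⊕ Fin m → Matrix ι ι R → Module.End R (TIdx ι n m → R) :=
  Sum.elim opL opR

theorem op_add (l : Fin n ⊕ Fin m) (X Y : Matrix ι ι R) :
    op (ι := ι) (R := R) l (X + Y) = op l X + op l Y := by
  cases l with
  | inl a =>
    refine LinearMap.ext fun w => funext fun I => ?_
    simp only [op, Sum.elim_inl, LinearMap.add_apply, Pi.add_apply, opL_apply, Matrix.add_apply,
      add_mul, Finset.sum_add_distrib]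
  | inr b =>
    refine LinearMap.ext fun w => funext fun I => ?_
    simp only [op, Sum.elim_inr, LinearMap.add_apply, Pi.add_apply, opR_apply, Matrix.add_apply,
      add_mul, Finset.sum_add_distrib]

theorem op_smul (l : Fin n ⊕ Fin m) (r : R) (X : Matrix ι ι R) :
    op (ι := ι) (R := R) l (r • X) = r • op l X := by
  cases l with
  | inl a =>
    refine LinearMap.ext fun w => funext fun I => ?_
    simp only [op, Sum.elim_inl, LinearMap.smul_apply, Pi.smul_apply, opL_apply, Matrix.smul_apply,
      smul_eq_mul, mul_assoc, Finset.mul_sum]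
  | inr b =>
    refine LinearMap.ext fun w => funext fun I => ?_
    simp only [op, Sum.elim_inr, LinearMap.smul_apply, Pi.smul_apply, opR_apply, Matrix.smul_apply,
      smul_eq_mul, mul_assoc, Finset.mul_sum]

/-- the slot operator as a linear map in the matrix -/
def opₗ (l : Fin n ⊕ Fin m) : Matrix ι ι R →ₗ[R] Module.End R (TIdx ι n m → R) where
  toFun X := op l X
  map_add' := op_add l
  map_smul' := op_smul l

theorem op_zero (l : Fin n ⊕ Fin m) : op (ι := ι) (R := R) l 0 = 0 := (opₗ l).map_zero

theorem op_neg (l : Fin n ⊕ Fin m) (X : Matrix ι ι R) :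
    op (ι := ι) (R := R) l (-X) = -op l X := (opₗ l).map_neg X

theorem op_sub (l : Fin n ⊕ Fin m) (X Y : Matrix ι ι R) :
    op (ι := ι) (R := R) l (X - Y) = op l X - op l Y := (opₗ l).map_sub X Y

theorem op_sum (l : Fin n ⊕ Fin m) {σ : Type} (s : Finset σ) (X : σ → Matrix ι ι R) :
    op (ι := ι) (R := R) l (∑ i ∈ s, X i) = ∑ i ∈ s, op l (X i) := map_sum (opₗ l) X s

theorem op_one (l : Fin n ⊕ Fin m) : op (ι := ι) (R := R) l 1 = 1 := by
  cases l with
  | inl a =>
    refine LinearMap.ext fun w => funext fun I => ?_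
    simp only [op, Sum.elim_inl, opL_apply, Module.End.one_apply]
    rw [Finset.sum_eq_single (I.1 a)]
    · simp [Function.update_eq_self]
    · intro k _ hk
      rw [Matrix.one_apply_ne (Ne.symm hk), zero_mul]
    · intro h; exact absurd (Finset.mem_univ _) h
  | inr b =>
    refine LinearMap.ext fun w => funext fun I => ?_
    simp only [op, Sum.elim_inr, opR_apply, Module.End.one_apply]
    rw [Finset.sum_eq_single (I.2 b)]
    · simp [Function.update_eq_self]
    · intro k _ hk
      rw [Matrix.one_apply_ne hk, zero_mul]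
    · intro h; exact absurd (Finset.mem_univ _) h

theorem opL_mul (a : Fin n) (X Y : Matrix ι ι R) :
    opL (m := m) a X * opL a Y = opL a (X * Y) := by
  refine LinearMap.ext fun w => funext fun I => ?_
  simp only [Module.End.mul_apply, opL_apply, Function.update_self, Function.update_idem,
    Matrix.mul_apply, Finset.sum_mul, Finset.mul_sum]
  rw [Finset.sum_comm]
  exact Finset.sum_congr rfl fun _ _ => Finset.sum_congr rfl fun _ _ => by ring

theorem opR_mul (b : Fin m) (X Y : Matrix ι ι R) :
    opR (n := n) b X * opR b Y = opR b (Y * X) := by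
  refine LinearMap.ext fun w => funext fun I => ?_
  simp only [Module.End.mul_apply, opR_apply, Function.update_self, Function.update_idem,
    Matrix.mul_apply, Finset.sum_mul, Finset.mul_sum]
  rw [Finset.sum_comm]
  exact Finset.sum_congr rfl fun _ _ => Finset.sum_congr rfl fun _ _ => by ring

theorem op_comm {l l' : Fin n ⊕ Fin m} (h : l ≠ l') (X Y : Matrix ι ι R) :
    op (ι := ι) (R := R) l X * op l' Y = op l' Y * op l X := by
  refine LinearMap.ext fun w => funext fun I => ?_
  cases l with
  | inl a =>
    cases l' with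
    | inl a' =>
      have hne : a ≠ a' := fun e => h (congrArg _ e)
      simp only [op, Sum.elim_inl, Module.End.mul_apply, opL_apply,
        Function.update_of_ne hne, Function.update_of_ne hne.symm, Finset.mul_sum]
      rw [Finset.sum_comm]
      refine Finset.sum_congr rfl fun k _ => Finset.sum_congr rfl fun k' _ => ?_
      rw [Function.update_comm hne]; ring
    | inr b' =>
      simp only [op, Sum.elim_inl, Sum.elim_inr, Module.End.mul_apply, opL_apply, opR_apply,
        Finset.mul_sum]
      rw [Finset.sum_comm]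
      exact Finset.sum_congr rfl fun k _ => Finset.sum_congr rfl fun k' _ => by ring
  | inr b =>
    cases l' with
    | inl a' =>
      simp only [op, Sum.elim_inl, Sum.elim_inr, Module.End.mul_apply, opL_apply, opR_apply,
        Finset.mul_sum]
      rw [Finset.sum_comm]
      exact Finset.sum_congr rfl fun k _ => Finset.sum_congr rfl fun k' _ => by ring
    | inr b' =>
      have hne : b ≠ b' := fun e => h (congrArg _ e)
      simp only [op, Sum.elim_inr, Module.End.mul_apply, opR_apply,
        Function.update_of_ne hne, Function.update_of_ne hne.symm, Finset.mul_sum]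
      rw [Finset.sum_comm]
      refine Finset.sum_congr rfl fun k _ => Finset.sum_congr rfl fun k' _ => ?_
      rw [Function.update_comm hne]; ring

/-- `dtens` as an operator -/
def dten (X : Matrix ι ι R) : Module.End R (TIdx ι n m → R) := ∑ a, opL a X - ∑ b, opR b X

/-- sign of a slot -/
def sg : Fin n ⊕ Fin m → ℤ := Sum.elim (fun _ => 1) fun _ => -1

theorem dten_eq (X : Matrix ι ι R) : dten (n := n) (m := m) X = ∑ l, sg l • op l X := by
  simp only [dten, Fintype.sum_sum_type, sg, Sum.elim_inl, Sum.elim_inr, one_smul, neg_smul,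
    Finset.sum_neg_distrib, op]
  rw [sub_eq_add_neg]

theorem dten_add (X Y : Matrix ι ι R) :
    dten (n := n) (m := m) (X + Y) = dten X + dten Y := by
  simp only [dten_eq, op_add, smul_add, Finset.sum_add_distrib]

theorem dten_smul (r : R) (X : Matrix ι ι R) :
    dten (n := n) (m := m) (r • X) = r • dten X := by
  simp only [dten_eq, op_smul, Finset.smul_sum]
  exact Finset.sum_congr rfl fun l _ => smul_comm _ _ _

theorem comm_sum {A σ : Type} [Ring A] [Fintype σ] [DecidableEq σ] (u v : σ → A)
    (h : ∀ i j, i ≠ j → u i * v j = v j * u i) :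
    (∑ i, u i) * (∑ j, v j) - (∑ j, v j) * ∑ i, u i = ∑ i, (u i * v i - v i * u i) := by
  have h1 : (∑ i, u i) * (∑ j, v j) = ∑ i, ∑ j, u i * v j := by
    rw [Finset.sum_mul_sum]
  have h2 : (∑ j, v j) * (∑ i, u i) = ∑ i, ∑ j, v j * u i := by
    rw [Finset.sum_mul_sum, Finset.sum_comm]
  rw [h1, h2, ← Finset.sum_sub_distrib]
  refine Finset.sum_congr rfl fun i _ => ?_
  rw [← Finset.sum_sub_distrib, Finset.sum_eq_single i]
  · intro j _ hj
    rw [h i j hj.symm, sub_self]
  · intro hi; exact absurd (Finset.mem_univ _) hi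

theorem sg_mul_sg (l : Fin n ⊕ Fin m) : sg l * sg l = 1 := by
  cases l <;> rfl

theorem dten_comm (X Y : Matrix ι ι R) :
    dten (n := n) (m := m) (X * Y - Y * X) = dten X * dten Y - dten Y * dten X := by
  have h := comm_sum (fun l : Fin n ⊕ Fin m => sg l • op (ι := ι) (R := R) l X)
    (fun l => sg l • op l Y) (by
      intro i j hij
      simp only [smul_mul_assoc, mul_smul_comm]
      rw [op_comm hij]
      exact smul_comm _ _ _)
  rw [dten_eq X, dten_eq Y, h, dten_eq]
  refine Finset.sum_congr rfl fun l _ => ?_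
  have hs : ∀ A B : Module.End R (TIdx ι n m → R), (sg l • A) * (sg l • B) = A * B := fun A B => by
    rw [smul_mul_assoc, mul_smul_comm, smul_smul, sg_mul_sg, one_smul]
  rw [hs, hs, op_sub]
  cases l with
  | inl a =>
    simp only [sg, Sum.elim_inl, one_smul, op, opL_mul]
  | inr b =>
    have h1 : sg (n := n) (Sum.inr b : Fin n ⊕ Fin m) = -1 := rfl
    rw [h1, neg_one_zsmul, neg_sub]
    simp only [op, Sum.elim_inr, opR_mul]

theorem sum_left (a : Fin n) (X : Matrix ι ι R) (w : TIdx ι n m → R) (I : TIdx ι n m) :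
    ∑ J : TIdx ι n m, (if (∀ b, b ≠ a → I.1 b = J.1 b) ∧ I.2 = J.2 then X (I.1 a) (J.1 a) else 0) *
      w J = opL a X w I := by
  rw [opL_apply]
  symm
  refine Finset.sum_of_injOn (fun k => ((Function.update I.1 a k, I.2) : TIdx ι n m)) ?_ ?_ ?_ ?_
  · intro k _ k' _ h
    have := congrFun (congrArg Prod.fst h) a
    simpa using this
  · intro k _; exact Finset.mem_coe.mpr (Finset.mem_univ _)
  · intro J _ hJ
    rw [if_neg, zero_mul]
    rintro ⟨h1, h2⟩
    refine hJ ⟨J.1 a, Finset.mem_coe.mpr (Finset.mem_univ _), ?_⟩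
    refine Prod.ext ?_ h2
    funext b
    by_cases hb : b = a
    · subst hb; simp
    · simp only [Function.update_of_ne hb]; exact h1 b hb
  · intro k _
    rw [if_pos]
    · simp
    · exact ⟨fun b hb => (Function.update_of_ne hb _ _).symm, rfl⟩

theorem sum_right (a : Fin m) (X : Matrix ι ι R) (w : TIdx ι n m → R) (I : TIdx ι n m) :
    ∑ J : TIdx ι n m, (if I.1 = J.1 ∧ (∀ b, b ≠ a → I.2 b = J.2 b) then X (J.2 a) (I.2 a) else 0) *
      w J = opR a X w I := by
  rw [opR_apply]
  symm
  refine Finset.sum_of_injOn (fun k => ((I.1, Function.update I.2 a k) : TIdx ι n m)) ?_ ?_ ?_ ?_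
  · intro k _ k' _ h
    have := congrFun (congrArg Prod.snd h) a
    simpa using this
  · intro k _; exact Finset.mem_coe.mpr (Finset.mem_univ _)
  · intro J _ hJ
    rw [if_neg, zero_mul]
    rintro ⟨h1, h2⟩
    refine hJ ⟨J.2 a, Finset.mem_coe.mpr (Finset.mem_univ _), ?_⟩
    refine Prod.ext h1 ?_
    funext b
    by_cases hb : b = a
    · subst hb; simp
    · simp only [Function.update_of_ne hb]; exact h2 b hb
  · intro k _
    rw [if_pos]
    · simp
    · exact ⟨rfl, fun b hb => (Function.update_of_ne hb _ _).symm⟩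

theorem sum_dtens (X : Matrix ι ι R) (w : TIdx ι n m → R) (I : TIdx ι n m) :
    ∑ J, dtens n m X I J * w J = dten X w I := by
  simp only [dtens, sub_mul, Finset.sum_mul, Finset.sum_sub_distrib]
  rw [Finset.sum_comm, Finset.sum_comm (f := fun J b => _ * w J)]
  simp only [sum_left, sum_right, dten, LinearMap.sub_apply, LinearMap.sum_apply, Pi.sub_apply,
    Finset.sum_apply]

variable {r : ℕ}

/-- restriction to a block -/
def res (s : Fin r → ℕ × ℕ) (k : Fin r) : (SIdx ι s → R) →ₗ[R] (TIdx ι (s k).1 (s k).2 → R) where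
  toFun v I := v ⟨k, I⟩
  map_add' _ _ := rfl
  map_smul' _ _ := rfl

theorem res_apply (s : Fin r → ℕ × ℕ) (k : Fin r) (v : SIdx ι s → R)
    (I : TIdx ι (s k).1 (s k).2) : res s k v I = v ⟨k, I⟩ := rfl

theorem ext_res {s : Fin r → ℕ × ℕ} {v w : SIdx ι s → R} (h : ∀ k, res s k v = res s k w) :
    v = w := by
  funext x
  obtain ⟨k, I⟩ := x
  exact congrFun (h k) I

/-- `dact` on a block -/
theorem res_dact (s : Fin r → ℕ × ℕ) (k : Fin r) (X : Matrix ι ι R) (v : SIdx ι s → R) :
    res s k (dact s X v) = dten X (res s k v) := by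
  funext I
  rw [← sum_dtens]
  rfl

theorem dact_add (s : Fin r → ℕ × ℕ) (X Y : Matrix ι ι R) :
    dact s (X + Y) = dact s X + dact s Y := by
  refine LinearMap.ext fun v => ext_res fun k => ?_
  rw [LinearMap.add_apply, map_add, res_dact, res_dact, res_dact, dten_add, LinearMap.add_apply]

theorem dact_smul (s : Fin r → ℕ × ℕ) (t : R) (X : Matrix ι ι R) :
    dact s (t • X) = t • dact s X := by
  refine LinearMap.ext fun v => ext_res fun k => ?_
  rw [LinearMap.smul_apply, map_smul, res_dact, res_dact, dten_smul, LinearMap.smul_apply]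

/-- `dact` as a linear map in the matrix -/
def dactₗ (s : Fin r → ℕ × ℕ) : Matrix ι ι R →ₗ[R] Module.End R (SIdx ι s → R) where
  toFun X := dact s X
  map_add' := dact_add s
  map_smul' := dact_smul s

theorem dact_zero (s : Fin r → ℕ × ℕ) : dact (ι := ι) (R := R) s 0 = 0 := (dactₗ s).map_zero

/-- `dact` is a representation -/
theorem dact_comm (s : Fin r → ℕ × ℕ) (X Y : Matrix ι ι R) (v : SIdx ι s → R) :
    dact s (X * Y - Y * X) v = dact s X (dact s Y v) - dact s Y (dact s X v) := by
  refine ext_res fun k => ?_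
  rw [map_sub, res_dact, res_dact, res_dact, res_dact, res_dact, dten_comm]
  rfl

end SlotM

end Pool.Agent.Lib.MPf11a48.U
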