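import Pool.Agent.Lib.MP_f11a48_ag.U.Spec

/-!
# Project U, module TL: the analytic half (specifications)

`dW p w P` is the result of the derivations `d_j` (`X i ↦ p i j`) along the word `w`; its value at
`F(z)` is the iterated directional derivative of `P(F)` along the directions `v_j`.
-/

set_option autoImplicit false

open MvPolynomial Pool.Agent.Lib.MPf11a48.CM

namespace Pool.Agent.Lib.MPf11a48.U

/-- Iterated derivations: `dW p [j₁, ..., j_n] P = d_{j₁} ... d_{j_n} P`, `d_j (X i) = p i j`. -/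
noncomputable def dW {K I ρ : Type} [CommRing K] (p : I → ρ → MvPolynomial I K) :
    List ρ → MvPolynomial I K → MvPolynomial I K
  | [], P => P
  | j :: w, P => mkDerivation K (fun i => p i j) (dW p w P)

/-- `p` describes the derivatives of the functions `A i / A₀` along `v`. -/
def Ders {ρ I : Type} [Fintype ρ] (A₀ : (ρ → ℂ) → ℂ) (A : I → (ρ → ℂ) → ℂ)
    (v : ρ → (ρ → ℂ)) (p : I → ρ → MvPolynomial I ℂ) : Prop :=
  ∀ i j z, A₀ z ≠ 0 →
    fderiv ℂ (fun w => A i w / A₀ w) z (v j) = aeval (fun k => A k z / A₀ z) (p i j)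

/-- Module ANA: analytic upper bound. If the iterated derivatives of `Φ = P(F)` of order `< T`
vanish at `0`, then those of order `T` are small. -/
def SpecANA : Prop :=
  ∀ (r : ℕ) (I : Type) [Fintype I] (A₀ : (Fin r → ℂ) → ℂ) (A : I → (Fin r → ℂ) → ℂ)
    (lam v : Fin r → (Fin r → ℂ)), 0 < r → PerData A₀ A lam v →
    ∀ p : I → Fin r → MvPolynomial I ℂ, Ders A₀ A v p →
    ∃ C : ℝ, 1 ≤ C ∧ ∀ (D T S : ℕ) (H : ℝ) (P : MvPolynomial I ℂ), 1 ≤ D → 1 ≤ S →
      P.totalDegree ≤ D → ∑ m ∈ P.support, ‖P.coeff m‖ ≤ H →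
      (∀ w : List (Fin r), w.length < T → aeval (fun k => A k 0 / A₀ 0) (dW p w P) = 0) →
      ∀ w : List (Fin r), w.length = T → ‖aeval (fun k => A k 0 / A₀ 0) (dW p w P)‖ ≤
        H * C ^ T * T.factorial * Real.exp (C * D * (S : ℝ) ^ 2) * (1 / 2 : ℝ) ^ (T / r * S)

/-- Module ORD: if all the iterated derivatives of `P(F)` vanish at `0` then `P(F) = 0`. -/
def SpecORD : Prop :=
  ∀ (r : ℕ) (I : Type) [Fintype I] (A₀ : (Fin r → ℂ) → ℂ) (A : I → (Fin r → ℂ) → ℂ)
    (lam v : Fin r → (Fin r → ℂ)), PerData A₀ A lam v →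
    ∀ p : I → Fin r → MvPolynomial I ℂ, Ders A₀ A v p → ∀ P : MvPolynomial I ℂ,
      (∀ w : List (Fin r), aeval (fun k => A k 0 / A₀ 0) (dW p w P) = 0) →
      ∀ z, A₀ z ≠ 0 → aeval (fun k => A k z / A₀ z) P = 0

end Pool.Agent.Lib.MPf11a48.U
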